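import Pool.Agent.H26.FG.Defs

/-!
# Internal definitions: graded spaces with operators, coinduced modules, cosyzygies
-/

open CategoryTheory Abelian TensorProduct
open scoped ModuleCat

universe u v w

namespace Pool.Agent.H26.FG

/-! ## Graded spaces with operators -/

/-- A graded `k`-space with operators `op i` of degree `m i` (`i : I`). -/
structure GOp (k : Type u) [Field k] (I : Type w) (m : I → ℕ) where
  /-- homogeneous pieces -/
  V : ℕ → Type u
  acg : ∀ n, AddCommGroup (V n)
  mod : ∀ n, Module k (V n)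
  /-- the operators -/
  op : ∀ (i : I) {a b : ℕ}, m i + a = b → V a →ₗ[k] V b

attribute [instance] GOp.acg GOp.mod

namespace GOp

variable {k : Type u} [Field k] {I : Type w} {m : I → ℕ} (E : GOp k I m)

/-- `W` is stable under the operators in `S`. -/
def Stable (S : Set I) (W : ∀ n, Submodule k (E.V n)) : Prop :=
  ∀ i ∈ S, ∀ (a b : ℕ) (h : m i + a = b), ∀ v ∈ W a, E.op i h v ∈ W b

/-- The part of `E.V n` generated by applying the operators in `S` to `W`. -/
def Gen (S : Set I) (W : ∀ n, Submodule k (E.V n)) (n : ℕ) : Submodule k (E.V n) :=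
  Submodule.span k {z | ∃ i ∈ S, ∃ (a : ℕ) (h : m i + a = n), ∃ w ∈ W a, E.op i h w = z}

/-- `W` is generated in bounded degrees. -/
def BG (S : Set I) (W : ∀ n, Submodule k (E.V n)) : Prop :=
  ∃ n₀ : ℕ, ∀ n, n₀ < n → W n ≤ E.Gen S W n

/-- Every `S`-stable graded subspace is generated in bounded degrees. -/
def GN (S : Set I) : Prop := ∀ W, E.Stable S W → E.BG S W

/-- The whole space is generated in bounded degrees. -/
def GF (S : Set I) : Prop := E.BG S (fun _ => ⊤)

/-- The operators in `S` commute. -/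
def Comm (S : Set I) : Prop :=
  ∀ i ∈ S, ∀ j ∈ S, ∀ (a b c d : ℕ) (h1 : m i + a = b) (h2 : m j + b = d) (h3 : m j + a = c)
    (h4 : m i + c = d) (v : E.V a), E.op j h2 (E.op i h1 v) = E.op i h4 (E.op j h3 v)

/-- The shifted graded space. -/
def shift (s : ℕ) : GOp k I m where
  V n := E.V (n + s)
  acg n := E.acg (n + s)
  mod n := E.mod (n + s)
  op i {a b} h := E.op i (a := a + s) (b := b + s) (by omega)

/-- Iterated operators: apply the operators of the word `l` (the head is applied last). -/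
def word : (l : List I) → {a b : ℕ} → (l.map m).sum + a = b → E.V a →ₗ[k] E.V b
  | [], a, b, h => by
      have hab : a = b := by simpa using h
      subst hab
      exact LinearMap.id
  | i :: l, a, b, h =>
      (E.op i (a := (l.map m).sum + a) (b := b) (by simp only [List.map_cons, List.sum_cons] at h; omega)).comp
        (word l rfl)

end GOp

/-! ## `Ext(P, N)` as a graded space with operators -/

section EGP

variable (k : Type u) [Field k] {𝒜 : Type v} [Category.{w} 𝒜] [Abelian 𝒜] [Linear k 𝒜]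
  [HasExt.{u} 𝒜]

/-- Homogeneous classes in `Ext(P, P)`. -/
abbrev Cls (P : 𝒜) : Type u := Σ m : ℕ, Ext.{u} P P m

/-- `Ext^•(P, N)` with the operators of precomposition by classes in `Ext(P, P)`. -/
noncomputable def EGP (P N : 𝒜) : GOp k (Cls P) (fun s => s.1) where
  V n := Ext P N n
  acg _ := inferInstance
  mod _ := inferInstance
  op s _ _ h := Ext.precompOfLinear s.2 k N h

lemma EGP_op (P N : 𝒜) (s : Cls P) {a b : ℕ} (h : s.1 + a = b) (v : Ext P N a) :
    (EGP k P N).op s h v = s.2.comp v h := rfl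

/-- The set `S` of classes consists of classes of even positive degree. -/
def EvenPos {P : 𝒜} (S : Set (Cls P)) : Prop := ∀ s ∈ S, Even s.1 ∧ 0 < s.1

/-- `e : Ext X Y m` shifts dimensions (as seen from `P`). -/
structure DimShift (P : 𝒜) {X Y : 𝒜} {m : ℕ} (e : Ext.{u} X Y m) : Prop where
  inj : ∀ (j c : ℕ) (h : j + m = c), 1 ≤ j → ∀ v v' : Ext P X j, v.comp e h = v'.comp e h → v = v'
  surj : ∀ (j c : ℕ) (h : j + m = c) (v : Ext P Y c), ∃ v' : Ext P X j, v'.comp e h = v

end EGP

/-! ## Coinduced modules and cosyzygies -/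

section Coind

variable (k : Type u) [Field k] {C : Type u} [Ring C] [Algebra k C]

/-- The coinduced module `Hom_k(C, N)`. -/
def Coi (N : ModuleCat.{u} C) : Type u := C →ₗ[k] N

noncomputable instance (N : ModuleCat.{u} C) : AddCommGroup (Coi k N) :=
  inferInstanceAs (AddCommGroup (C →ₗ[k] N))

variable {k}

/-- Elements of `Coi k N` as linear maps. -/
def Coi.fn {N : ModuleCat.{u} C} (f : Coi k N) : C →ₗ[k] N := f

variable (k) in
/-- Linear maps as elements of `Coi k N`. -/
def Coi.mk {N : ModuleCat.{u} C} (f : C →ₗ[k] N) : Coi k N := f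

@[simp] lemma Coi.fn_mk {N : ModuleCat.{u} C} (f : C →ₗ[k] N) : (Coi.mk k f).fn = f := rfl
@[simp] lemma Coi.mk_fn {N : ModuleCat.{u} C} (f : Coi k N) : Coi.mk k f.fn = f := rfl
@[simp] lemma Coi.fn_add {N : ModuleCat.{u} C} (f g : Coi k N) : (f + g).fn = f.fn + g.fn := rfl
@[simp] lemma Coi.fn_zero {N : ModuleCat.{u} C} : (0 : Coi k N).fn = 0 := rfl

lemma Coi.ext {N : ModuleCat.{u} C} {f g : Coi k N} (h : ∀ x, f.fn x = g.fn x) : f = g :=
  LinearMap.ext h

/-- `(c • f)(x) = f (x c)`. -/
noncomputable instance (N : ModuleCat.{u} C) : Module C (Coi k N) where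
  smul c f := Coi.mk k (f.fn ∘ₗ LinearMap.mulRight k c)
  one_smul f := Coi.ext fun x => congrArg f.fn (mul_one x)
  mul_smul a b f := Coi.ext fun x => congrArg f.fn (mul_assoc x a b).symm
  smul_zero _ := rfl
  smul_add _ _ _ := rfl
  add_smul a b f := Coi.ext fun x => by
    change f.fn (x * (a + b)) = f.fn (x * a) + f.fn (x * b)
    rw [mul_add, map_add]
  zero_smul f := Coi.ext fun x => by
    change f.fn (x * 0) = 0
    rw [mul_zero, map_zero]

@[simp] lemma Coi.smul_fn {N : ModuleCat.{u} C} (c : C) (f : Coi k N) (x : C) :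
    (c • f).fn x = f.fn (x * c) := rfl

variable (k)

/-- The coinduction functor `N ↦ Hom_k(C, N)`. -/
noncomputable def FF : ModuleCat.{u} C ⥤ ModuleCat.{u} C where
  obj N := ModuleCat.of C (Coi k N)
  map φ := ModuleCat.ofHom
    { toFun := fun f => Coi.mk k (φ.hom.restrictScalars k ∘ₗ f.fn)
      map_add' := fun f g => Coi.ext fun x => map_add φ.hom (f.fn x) (g.fn x)
      map_smul' := fun _ _ => rfl }
  map_id _ := rfl
  map_comp _ _ := rfl

/-- The unit `N → Hom_k(C, N)`, `n ↦ (x ↦ x n)`. -/
noncomputable def etaL (N : ModuleCat.{u} C) : N →ₗ[C] Coi k N where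
  toFun n := Coi.mk k ((LinearMap.toSpanSingleton C N n).restrictScalars k)
  map_add' n n' := Coi.ext fun x => smul_add x n n'
  map_smul' c n := Coi.ext fun x => (mul_smul x c n).symm

@[simp] lemma etaL_fn (N : ModuleCat.{u} C) (n : N) (x : C) : (etaL k N n).fn x = x • n := rfl

lemma Coi.ksmul_fn {N : ModuleCat.{u} C} (c : k) (f : (FF k).obj N) (x : C) :
    Coi.fn (k := k) (N := N) (c • f) x = c • Coi.fn (k := k) (N := N) f x := by
  have h : ∀ f : Coi k N, (algebraMap k C c • f).fn x = c • f.fn x := by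
    intro f
    rw [Coi.smul_fn, ← Algebra.commutes, ← Algebra.smul_def, map_smul]
  exact h f

/-- The unit as a natural transformation. -/
noncomputable def etaT : 𝟭 (ModuleCat.{u} C) ⟶ FF k where
  app N := ConcreteCategory.ofHom (C := ModuleCat.{u} C) (X := N) (etaL k N)
  naturality N N' φ := by
    ext n
    refine Coi.ext fun x => ?_
    exact (map_smul φ.hom x n).symm

/-- `Q(N) = Hom_k(C, N) / N`. -/
noncomputable def QF : ModuleCat.{u} C ⥤ ModuleCat.{u} C where
  obj N := ModuleCat.of C (Coi k N ⧸ LinearMap.range (etaL k N))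
  map φ := ModuleCat.ofHom
    (Submodule.mapQ _ _ ((FF k).map φ).hom (by
      rintro _ ⟨n, rfl⟩
      exact ⟨φ.hom n, Coi.ext fun x => (map_smul φ.hom x n).symm⟩))
  map_id N := by
    ext f
    rfl
  map_comp φ ψ := by
    ext f
    rfl

/-- The projection `Hom_k(C, N) → Q(N)`. -/
noncomputable def prT : FF k ⟶ QF (k := k) (C := C) where
  app N := ModuleCat.ofHom (Submodule.mkQ (LinearMap.range (etaL k N)))
  naturality _ _ _ := rfl

/-- The short exact sequence `0 → N → Hom_k(C, N) → Q(N) → 0`. -/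
noncomputable def coS (N : ModuleCat.{u} C) : ShortComplex (ModuleCat.{u} C) :=
  ShortComplex.mk ((etaT k).app N) ((prT k).app N) (by
    ext n
    exact (Submodule.Quotient.mk_eq_zero _).2 ⟨n, rfl⟩)

lemma coS_shortExact (N : ModuleCat.{u} C) : (coS k N).ShortExact := by
  refine ModuleCat.shortComplex_shortExact _ ?_ ?_ ?_
  · intro f
    exact (Submodule.Quotient.mk_eq_zero _)
  · intro n n' h
    have h0 : ∀ n n' : N, etaL k N n = etaL k N n' → n = n' := by
      intro n n' h
      have h1 := congrArg (fun f : Coi k N => f.fn 1) h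
      simpa using h1
    exact h0 n n' h
  · exact Submodule.mkQ_surjective _

/-- The iterated cosyzygy functors. -/
noncomputable def Qn : ℕ → (ModuleCat.{u} C ⥤ ModuleCat.{u} C)
  | 0 => 𝟭 _
  | n + 1 => Qn n ⋙ QF k

/-- The class of `0 → N → F(N) → … → F(Q^{n-1} N) → Q^n N → 0`. -/
noncomputable def eN (N : ModuleCat.{u} C) : (n : ℕ) → Ext ((Qn k n).obj N) N n
  | 0 => Ext.mk₀ (𝟙 N)
  | n + 1 => (coS_shortExact k ((Qn k n).obj N)).extClass.comp (eN N n) (Nat.add_comm 1 n)

end Coind

end Pool.Agent.H26.FG
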