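import Pool.Agent.H26.FG.CoBa

/-!
# Module CoB: basic properties of the cobar complex
-/

open TensorProduct Coalgebra

universe u v w

namespace Pool.Agent.H26.FG

section Cobar

variable (k : Type u) [Field k] {H : Type v} [Ring H] [Bialgebra k H]

/-- the product `H ⊗ H → T(H)` -/
noncomputable def h83_M (k : Type u) [Field k] (H : Type v) [Ring H] [Bialgebra k H] :
    H ⊗[k] H →ₗ[k] TensorAlgebra k H :=
  (LinearMap.mul' k (TensorAlgebra k H)) ∘ₗ
    (TensorProduct.map (TensorAlgebra.ι k) (TensorAlgebra.ι k))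

@[simp] lemma h83_M_tmul (a b : H) : h83_M k H (a ⊗ₜ[k] b) =
    TensorAlgebra.ι k a * TensorAlgebra.ι k b := by
  simp [h83_M]

lemma h83_cd_ι (h : H) : cd k H (TensorAlgebra.ι k h) =
    TensorAlgebra.ι k 1 * TensorAlgebra.ι k h - h83_M k H (comul h) +
      TensorAlgebra.ι k h * TensorAlgebra.ι k 1 := by
  rw [cd, tder_ι]
  rfl

lemma h83_cd_e : cd k H (TensorAlgebra.ι k (1 : H)) =
    TensorAlgebra.ι k 1 * TensorAlgebra.ι k (1 : H) := by
  rw [h83_cd_ι, Bialgebra.comul_one, Algebra.TensorProduct.one_def, h83_M_tmul]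
  abel

lemma sg_cd (x : TensorAlgebra k H) : sg k H (cd k H x) = - cd k H (sg k H x) := by
  have h : (sg k H).toLinearMap ∘ₗ cd k H = - (cd k H ∘ₗ (sg k H).toLinearMap) := by
    refine tder_unique (AlgHom.id k _) (sg k H) _ _ ?_ ?_ ?_
    · intro a b
      simp only [LinearMap.comp_apply, AlgHom.toLinearMap_apply, cd_mul, map_add, map_mul, sg_sg,
        AlgHom.id_apply]
    · intro a b
      simp only [LinearMap.neg_apply, LinearMap.comp_apply, AlgHom.toLinearMap_apply, cd_mul,
        map_mul, sg_sg, AlgHom.id_apply, neg_add, neg_mul, mul_neg]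
    · intro v
      simp only [LinearMap.neg_apply, LinearMap.comp_apply, AlgHom.toLinearMap_apply, sg_ι, map_neg,
        neg_neg]
      have h2 : sg k H (h83_M k H (comul v)) = h83_M k H (comul v) := by
        generalize (comul v : H ⊗[k] H) = t
        induction t using TensorProduct.induction_on with
        | zero => simp
        | tmul a b => rw [h83_M_tmul, map_mul, sg_ι, sg_ι, neg_mul_neg]
        | add a b ha hb => rw [map_add, map_add, ha, hb]
      rw [h83_cd_ι, map_add, map_sub, map_mul, map_mul, h2, sg_ι, sg_ι, neg_mul_neg, neg_mul_neg]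
  exact LinearMap.congr_fun h x

/-- the products of three factors -/
noncomputable def h83_ML (k : Type u) [Field k] (H : Type v) [Ring H] [Bialgebra k H] :
    (H ⊗[k] H) ⊗[k] H →ₗ[k] TensorAlgebra k H :=
  (LinearMap.mul' k (TensorAlgebra k H)) ∘ₗ
    (TensorProduct.map (h83_M k H) (TensorAlgebra.ι k))

noncomputable def h83_MR (k : Type u) [Field k] (H : Type v) [Ring H] [Bialgebra k H] :
    H ⊗[k] (H ⊗[k] H) →ₗ[k] TensorAlgebra k H :=
  (LinearMap.mul' k (TensorAlgebra k H)) ∘ₗ
    (TensorProduct.map (TensorAlgebra.ι k) (h83_M k H))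

lemma h83_MR_assoc (t : (H ⊗[k] H) ⊗[k] H) :
    h83_MR k H (TensorProduct.assoc k H H H t) = h83_ML k H t := by
  have h : h83_MR k H ∘ₗ (TensorProduct.assoc k H H H).toLinearMap = h83_ML k H := by
    refine TensorProduct.ext_threefold fun a b c => ?_
    simp [h83_MR, h83_ML, mul_assoc]
  exact LinearMap.congr_fun h t

lemma h83_cd_M (t : H ⊗[k] H) : cd k H (h83_M k H t) =
    TensorAlgebra.ι k 1 * h83_M k H t - h83_ML k H (LinearMap.rTensor H comul t) +
      h83_MR k H (LinearMap.lTensor H comul t) - h83_M k H t * TensorAlgebra.ι k 1 := by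
  induction t using TensorProduct.induction_on with
  | zero => simp
  | tmul a b =>
    rw [h83_M_tmul, cd_mul, sg_ι, h83_cd_ι, h83_cd_ι, LinearMap.rTensor_tmul,
      LinearMap.lTensor_tmul]
    simp only [h83_ML, h83_MR, LinearMap.comp_apply, TensorProduct.map_tmul, LinearMap.mul'_apply]
    noncomm_ring
  | add a b ha hb =>
    simp only [map_add, ha, hb, mul_add, add_mul]
    abel

/-- `d² = 0` (both sides of `d(d(ab)) = …` by `tder_unique` or `TensorAlgebra.induction`;
on generators: coassociativity). -/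
lemma cd_cd (x : TensorAlgebra k H) : cd k H (cd k H x) = 0 := by
  have h : cd k H ∘ₗ cd k H = 0 := by
    refine tder_unique (AlgHom.id k _) (AlgHom.id k _) _ _ ?_ ?_ ?_
    · intro a b
      simp only [LinearMap.comp_apply, cd_mul, map_add, AlgHom.id_apply, sg_cd, sg_sg]
      noncomm_ring
    · intro a b
      simp
    · intro v
      have h1 : cd k H (h83_M k H (comul v)) = TensorAlgebra.ι k 1 * h83_M k H (comul v) -
          h83_M k H (comul v) * TensorAlgebra.ι k 1 := by
        rw [h83_cd_M, ← Coalgebra.coassoc_apply, h83_MR_assoc]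
        abel
      rw [LinearMap.comp_apply, LinearMap.zero_apply, h83_cd_ι, map_add, map_sub, cd_mul, cd_mul,
        h83_cd_e, h83_cd_ι, h1, sg_ι, sg_ι]
      noncomm_ring
  exact LinearMap.congr_fun h x

/-- the identity for the differential through the normalisation -/
lemma h83_nu_M (t : H ⊗[k] H) : nu k (h83_M k H t) = h83_M k H t -
    TensorAlgebra.ι k 1 * TensorAlgebra.ι k (TensorProduct.lid k H (LinearMap.rTensor H counit t)) -
    TensorAlgebra.ι k (TensorProduct.rid k H (LinearMap.lTensor H counit t)) * TensorAlgebra.ι k 1 +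
    counit (R := k) (TensorProduct.lid k H (LinearMap.rTensor H counit t)) •
      (TensorAlgebra.ι k 1 * TensorAlgebra.ι k 1) := by
  induction t using TensorProduct.induction_on with
  | zero => simp
  | tmul a b =>
    rw [h83_M_tmul, map_mul, nu_ι, nu_ι, LinearMap.rTensor_tmul, LinearMap.lTensor_tmul,
      TensorProduct.lid_tmul, TensorProduct.rid_tmul]
    simp only [map_sub, map_smul, sub_mul, mul_sub, smul_mul_assoc, mul_smul_comm, smul_eq_mul,
      smul_sub, smul_smul]
    rw [mul_comm (counit (R := k) b)]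
    abel
  | add a b ha hb =>
    simp only [map_add, ha, hb, mul_add, add_mul, add_smul]
    abel

lemma h83_cd_nu (h : H) : cd k H (TensorAlgebra.ι k h) =
    counit (R := k) h • (TensorAlgebra.ι k 1 * TensorAlgebra.ι k 1) -
      nu k (h83_M k H (comul h)) := by
  rw [h83_nu_M, Coalgebra.rTensor_counit_comul, Coalgebra.lTensor_counit_comul,
    TensorProduct.lid_tmul, TensorProduct.rid_tmul, one_smul, h83_cd_ι]
  abel

variable {k}

lemma h83_cd_mem {U : Submodule k H} (hU : ∀ v ∈ U, cd k H (TensorAlgebra.ι k v) ∈ tg U 2)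
    {n : ℕ} {x : TensorAlgebra k H} (hx : x ∈ tg U n) : cd k H x ∈ tg U (n + 1) := by
  induction n generalizing x with
  | zero =>
    obtain ⟨c, rfl⟩ := tg_zero U x hx
    rw [Algebra.algebraMap_eq_smul_one, map_smul, cd_one, smul_zero]
    exact Submodule.zero_mem _
  | succ n ih =>
    refine tg_induction (P := fun y => cd k H y ∈ tg U (n + 1 + 1)) ?_ ?_ x hx
    · intro v hv w hw
      rw [cd_mul, sg_ι, neg_mul]
      refine Submodule.add_mem _ (tg_mul (by ring) (hU v hv) hw) (Submodule.neg_mem _ ?_)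
      exact tg_mul (by ring) (ι_mem_tg hv) (ih hw)
    · intro y z hy hz
      rw [map_add]
      exact Submodule.add_mem _ hy hz

lemma h83_M_mem {U : Submodule k H} {t : H ⊗[k] H} (ht : t ∈ Submodule.span k
    {y : H ⊗[k] H | ∃ b ∈ U, ∃ c ∈ U, y = b ⊗ₜ[k] c}) : h83_M k H t ∈ tg U 2 := by
  induction ht using Submodule.span_induction with
  | mem y hy =>
    obtain ⟨b, hb, c, hc, rfl⟩ := hy
    rw [h83_M_tmul]
    exact tg_mul (by norm_num) (ι_mem_tg hb) (ι_mem_tg hc)
  | zero => rw [map_zero]; exact Submodule.zero_mem _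
  | add x y _ _ hx hy => rw [map_add]; exact Submodule.add_mem _ hx hy
  | smul c x _ hx => rw [map_smul]; exact Submodule.smul_mem _ _ hx

lemma SubBi.cd_mem {L : Submodule k H} (hL : SubBi k L) {n : ℕ} {x : TensorAlgebra k H}
    (hx : x ∈ tg L n) : cd k H x ∈ tg L (n + 1) := by
  refine h83_cd_mem (fun v hv => ?_) hx
  rw [h83_cd_ι]
  refine Submodule.add_mem _ (Submodule.sub_mem _ ?_ (h83_M_mem (hL.comul v hv))) ?_
  · exact tg_mul (by norm_num) (ι_mem_tg hL.one) (ι_mem_tg hv)
  · exact tg_mul (by norm_num) (ι_mem_tg hv) (ι_mem_tg hL.one)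

lemma h83_top : SubBi k (⊤ : Submodule k H) where
  one := Submodule.mem_top
  mul := fun _ _ _ _ => Submodule.mem_top
  comul := by
    intro a _
    generalize (comul a : H ⊗[k] H) = t
    induction t using TensorProduct.induction_on with
    | zero => exact Submodule.zero_mem _
    | tmul a b =>
      exact Submodule.subset_span ⟨a, Submodule.mem_top, b, Submodule.mem_top, rfl⟩
    | add a b ha hb => exact Submodule.add_mem _ ha hb

lemma cd_mem_top {n : ℕ} {x : TensorAlgebra k H} (hx : x ∈ tg (⊤ : Submodule k H) n) :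
    cd k H x ∈ tg (⊤ : Submodule k H) (n + 1) := h83_top.cd_mem hx

lemma h83_map_le {L : Submodule k H} (hL : (1 : H) ∈ L) :
    L.map (LinearMap.id - (LinearMap.toSpanSingleton k H 1) ∘ₗ counit) ≤ L ⊓ augK k H := by
  rintro _ ⟨v, hv, rfl⟩
  change v - counit (R := k) v • (1 : H) ∈ L ⊓ augK k H
  refine ⟨Submodule.sub_mem _ hv (Submodule.smul_mem _ _ hL), ?_⟩
  change counit (R := k) (v - counit (R := k) v • (1 : H)) = 0
  rw [map_sub, map_smul, Bialgebra.counit_one, smul_eq_mul, mul_one, sub_self]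

lemma nu_of_aug {n : ℕ} {x : TensorAlgebra k H} (hx : x ∈ tg (augK k H) n) : nu k x = x := by
  induction n generalizing x with
  | zero =>
    obtain ⟨c, rfl⟩ := tg_zero _ x hx
    exact AlgHom.commutes _ _
  | succ n ih =>
    refine tg_induction (P := fun y => nu k y = y) ?_ ?_ x hx
    · intro v hv w hw
      have hv0 : counit (R := k) v = 0 := hv
      rw [map_mul, nu_ι, hv0, zero_smul, sub_zero, ih hw]
    · intro y z hy hz
      rw [map_add, hy, hz]

lemma nu_mem {n : ℕ} {x : TensorAlgebra k H} (hx : x ∈ tg (⊤ : Submodule k H) n) :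
    nu k x ∈ tg (augK k H) n :=
  tg_mono ((h83_map_le Submodule.mem_top).trans inf_le_right) n (tmap_tg _ hx)

lemma SubBi.nu_mem {L : Submodule k H} (hL : SubBi k L) {n : ℕ} {x : TensorAlgebra k H}
    (hx : x ∈ tg L n) : nu k x ∈ tg (L ⊓ augK k H) n :=
  tg_mono (h83_map_le hL.one) n (tmap_tg _ hx)

lemma SubBi.cd_mem_aug {L : Submodule k H} (hL : SubBi k L) {n : ℕ} {x : TensorAlgebra k H}
    (hx : x ∈ tg (L ⊓ augK k H) n) : cd k H x ∈ tg (L ⊓ augK k H) (n + 1) := by
  refine h83_cd_mem (fun v hv => ?_) hx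
  have hv0 : counit (R := k) v = 0 := hv.2
  rw [h83_cd_nu, hv0, zero_smul, zero_sub]
  exact Submodule.neg_mem _ (hL.nu_mem (h83_M_mem (hL.comul v hv.1)))

/-- The normalised subcomplex: for `h ∈ H⁺`, `d h = - (Δ h - 1 ⊗ h - h ⊗ 1) ∈ H⁺ ⊗ H⁺`. -/
lemma cd_mem_aug {n : ℕ} {x : TensorAlgebra k H} (hx : x ∈ tg (augK k H) n) :
    cd k H x ∈ tg (augK k H) (n + 1) := by
  have h := h83_top.cd_mem_aug (n := n) (x := x) (by rw [top_inf_eq]; exact hx)
  rwa [top_inf_eq] at h

/-- Naturality of the differential. -/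
lemma tmap_cd {Q : Type w} [Ring Q] [Bialgebra k Q] (f : H →ₐc[k] Q) (x : TensorAlgebra k H) :
    tmap (f : H →ₐ[k] Q).toLinearMap (cd k H x) =
      cd k Q (tmap (f : H →ₐ[k] Q).toLinearMap x) := by
  set φ := tmap (f : H →ₐ[k] Q).toLinearMap with hφ
  have hφι : ∀ h : H, φ (TensorAlgebra.ι k h) = TensorAlgebra.ι k (f h) := fun h => by
    rw [hφ, tmap_ι]; rfl
  have hs : ∀ a, φ (sg k H a) = sg k Q (φ a) := by
    intro a
    have : φ.comp (sg k H) = (sg k Q).comp φ := by
      apply TensorAlgebra.hom_ext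
      refine LinearMap.ext fun v => ?_
      simp only [LinearMap.comp_apply, AlgHom.toLinearMap_apply, AlgHom.comp_apply, sg_ι, map_neg,
        hφι]
    exact DFunLike.congr_fun this a
  have h : φ.toLinearMap ∘ₗ cd k H = cd k Q ∘ₗ φ.toLinearMap := by
    refine tder_unique (φ.comp (sg k H)) φ _ _ ?_ ?_ ?_
    · intro a b
      simp only [LinearMap.comp_apply, AlgHom.toLinearMap_apply, cd_mul, map_add, map_mul,
        AlgHom.comp_apply]
    · intro a b
      simp only [LinearMap.comp_apply, AlgHom.toLinearMap_apply, cd_mul, map_mul,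
        AlgHom.comp_apply, hs]
    · intro v
      simp only [LinearMap.comp_apply, AlgHom.toLinearMap_apply, hφι]
      have h2 : φ (h83_M k H (comul v)) = h83_M k Q (comul (f v)) := by
        have h3 : (comul (f v) : Q ⊗[k] Q) = TensorProduct.map (f : H →ₗ[k] Q) (f : H →ₗ[k] Q)
            (comul v) := (CoalgHomClass.map_comp_comul_apply f v).symm
        rw [h3]
        generalize (comul v : H ⊗[k] H) = t
        induction t using TensorProduct.induction_on with
        | zero => simp
        | tmul a b => rw [h83_M_tmul, map_mul, hφι, hφι, TensorProduct.map_tmul, h83_M_tmul]; rfl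
        | add a b ha hb => simp only [map_add, ha, hb]
      rw [h83_cd_ι, h83_cd_ι, map_add, map_sub, map_mul, map_mul, h2, hφι, hφι, map_one]
  exact LinearMap.congr_fun h x

lemma nu_cd (x : TensorAlgebra k H) : nu k (cd k H x) = cd k H (nu k x) := by
  have hs : ∀ a : TensorAlgebra k H, nu k (sg k H a) = sg k H (nu k a) := by
    intro a
    have : (nu k).comp (sg k H) = (sg k H).comp (nu k) := by
      apply TensorAlgebra.hom_ext
      refine LinearMap.ext fun v => ?_
      simp only [LinearMap.comp_apply, AlgHom.toLinearMap_apply, AlgHom.comp_apply, sg_ι, map_neg,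
        nu_ι]
    exact DFunLike.congr_fun this a
  have he : nu k (TensorAlgebra.ι k (1 : H)) = 0 := by
    rw [nu_ι, Bialgebra.counit_one, one_smul, sub_self, map_zero]
  have h : (nu k (H := H)).toLinearMap ∘ₗ cd k H = cd k H ∘ₗ (nu k).toLinearMap := by
    refine tder_unique ((nu k).comp (sg k H)) (nu k) _ _ ?_ ?_ ?_
    · intro a b
      simp only [LinearMap.comp_apply, AlgHom.toLinearMap_apply, cd_mul, map_add, map_mul,
        AlgHom.comp_apply]
    · intro a b
      simp only [LinearMap.comp_apply, AlgHom.toLinearMap_apply, cd_mul, map_mul,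
        AlgHom.comp_apply, hs]
    · intro v
      simp only [LinearMap.comp_apply, AlgHom.toLinearMap_apply]
      rw [nu_ι, map_sub (TensorAlgebra.ι k), map_sub (cd k H), map_smul, map_smul, h83_cd_e,
        h83_cd_nu k v, sub_sub_cancel_left, ← h83_cd_nu k v, h83_cd_ι, map_add, map_sub, map_mul,
        map_mul, he, zero_mul, mul_zero, zero_sub, add_zero]
  exact LinearMap.congr_fun h x

lemma nu_tmap {Q : Type w} [Ring Q] [Bialgebra k Q] (f : H →ₐc[k] Q) (x : TensorAlgebra k H) :
    nu k (tmap (f : H →ₐ[k] Q).toLinearMap x) =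
      tmap (f : H →ₐ[k] Q).toLinearMap (nu k x) := by
  have : (nu k).comp (tmap (f : H →ₐ[k] Q).toLinearMap) =
      (tmap (f : H →ₐ[k] Q).toLinearMap).comp (nu k) := by
    apply TensorAlgebra.hom_ext
    refine LinearMap.ext fun v => ?_
    simp only [LinearMap.comp_apply, AlgHom.toLinearMap_apply, AlgHom.comp_apply, tmap_ι, nu_ι]
    congr 1
    have h1 : (f : H →ₐ[k] Q) v = f v := rfl
    have h2 : counit (R := k) (f v) = counit (R := k) v := CoalgHomClass.counit_comp_apply f v
    rw [map_sub, map_smul, map_one, h1, h2]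
  exact DFunLike.congr_fun this x

/-- The range of a bialgebra homomorphism is a sub-bialgebra. -/
lemma subBi_range {Q : Type w} [Ring Q] [Bialgebra k Q] (f : Q →ₐc[k] H) :
    SubBi k (LinearMap.range (f : Q →ₐ[k] H).toLinearMap) where
  one := ⟨1, map_one (f : Q →ₐ[k] H)⟩
  mul := by
    rintro _ ⟨a, rfl⟩ _ ⟨b, rfl⟩
    exact ⟨a * b, map_mul (f : Q →ₐ[k] H) a b⟩
  comul := by
    rintro _ ⟨a, rfl⟩
    have h3 : (comul (R := k) ((f : Q →ₐ[k] H).toLinearMap a) : H ⊗[k] H) =
        TensorProduct.map (f : Q →ₗ[k] H) (f : Q →ₗ[k] H) (comul a) :=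
      (CoalgHomClass.map_comp_comul_apply f a).symm
    rw [h3]
    generalize (comul a : Q ⊗[k] Q) = t
    induction t using TensorProduct.induction_on with
    | zero => rw [map_zero]; exact Submodule.zero_mem _
    | tmul a b =>
      rw [TensorProduct.map_tmul]
      exact Submodule.subset_span ⟨_, ⟨a, rfl⟩, _, ⟨b, rfl⟩, rfl⟩
    | add a b ha hb => rw [map_add]; exact Submodule.add_mem _ ha hb

end Cobar

end Pool.Agent.H26.FG
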