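import Pool.Agent.H26.FG.BrDefs
import Pool.Agent.H26.FG.CoB

/-!
# Module Br1: contractions and the maps `qn`

Notation: `T = T(Du C)`, `d = cd`, `σ = sg`, `con s` = contraction of the last factor.
-/

open CategoryTheory Abelian TensorProduct Coalgebra
open scoped ModuleCat

universe u

namespace Pool.Agent.H26.FG

variable {k : Type u} [Field k] {C : Type u} [Ring C] [Bialgebra k C]

/-- `con s (w h) = h(s) w`. -/
lemma con_mul_ι (s : C) (w : TensorAlgebra k (Du k C)) (h : Du k C) :
    con k C s (w * TensorAlgebra.ι k h) = h.fn s • w := by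
  rw [con_mul, te_ι, map_zero, mul_zero, zero_add, con_ι, ← Algebra.commutes, ← Algebra.smul_def]

lemma con_mul_of_te (s : C) (w z : TensorAlgebra k (Du k C)) (hz : te k _ z = 0) :
    con k C s (w * z) = w * con k C s z := by
  rw [con_mul, hz, map_zero, mul_zero, zero_add]

lemma con_tg {U : Submodule k (Du k C)} {n : ℕ} (s : C) {w : TensorAlgebra k (Du k C)}
    (hw : w ∈ tg U (n + 1)) : con k C s w ∈ tg U n := by
  refine tg_induction' (P := fun w => con k C s w ∈ tg U n) ?_ ?_ w hw
  · intro w hw v _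
    rw [con_mul_ι]
    exact Submodule.smul_mem _ _ hw
  · intro x y hx hy
    rw [map_add]
    exact Submodule.add_mem _ hx hy

lemma con_tg_zero {U : Submodule k (Du k C)} (s : C) {w : TensorAlgebra k (Du k C)}
    (hw : w ∈ tg U 0) : con k C s w = 0 := by
  obtain ⟨c, rfl⟩ := tg_zero U w hw
  exact con_algebraMap k s c

/-- Induction on the last factor. -/
lemma h21_ind {V : Type u} [AddCommGroup V] [Module k V] {P : TensorAlgebra k V → Prop}
    (h0 : ∀ c : k, P (algebraMap k _ c)) (h1 : ∀ v h, P (v * TensorAlgebra.ι k h))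
    (ha : ∀ x y, P x → P y → P (x + y)) (w : TensorAlgebra k V) : P w := by
  have key : ∀ b : TensorAlgebra k V, ∀ v : TensorAlgebra k V, (∀ r : k, P (r • v)) →
      ∀ r : k, P (r • (v * b)) := by
    intro b
    induction b using TensorAlgebra.induction with
    | algebraMap r' =>
      intro v hv r
      rw [← Algebra.commutes, ← Algebra.smul_def, smul_smul]
      exact hv _
    | ι h =>
      intro v _ r
      rw [← smul_mul_assoc]
      exact h1 _ _
    | mul a b ha hb =>
      intro v hv r
      rw [← mul_assoc]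
      exact hb _ (ha v hv) r
    | add a b iha ihb =>
      intro v hv r
      rw [mul_add, smul_add]
      exact ha _ _ (iha v hv r) (ihb v hv r)
  have := key w 1 (fun r => by rw [← Algebra.algebraMap_eq_smul_one]; exact h0 r) 1
  rwa [one_smul, one_mul] at this

lemma h21_te_sg {V : Type u} [AddCommGroup V] [Module k V] (w : TensorAlgebra k V) :
    te k V (sg k V w) = te k V w := by
  have : (te k V).comp (sg k V) = te k V := by
    refine TensorAlgebra.hom_ext (LinearMap.ext fun v => ?_)
    change te k V (sg k V (TensorAlgebra.ι k v)) = te k V (TensorAlgebra.ι k v)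
    rw [sg_ι, map_neg, te_ι, neg_zero]
  exact DFunLike.congr_fun this w

variable [Module.Finite k C]

/-- Normalised elements are killed by `con 1`. -/
lemma con_one_aug {n : ℕ} {w : TensorAlgebra k (Du k C)} (hw : w ∈ tg (augK k (Du k C)) n) :
    con k C 1 w = 0 := by
  cases n with
  | zero => exact con_tg_zero 1 hw
  | succ n =>
    refine tg_induction' (P := fun w => con k C 1 w = 0) ?_ ?_ w hw
    · intro w _ v hv
      rw [con_mul_ι, (Du.mem_augK v).1 hv, zero_smul]
    · intro x y hx hy
      rw [map_add, hx, hy, add_zero]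

/-- `σ (con s w) = - con s (σ w)`. -/
lemma sg_con (s : C) (w : TensorAlgebra k (Du k C)) :
    sg k _ (con k C s w) = - con k C s (sg k _ w) := by
  induction w using TensorAlgebra.induction with
  | algebraMap r => rw [con_algebraMap, map_zero, AlgHom.commutes, con_algebraMap, neg_zero]
  | ι h => rw [con_ι, AlgHom.commutes, sg_ι, map_neg, con_ι, neg_neg]
  | mul a b ha hb =>
    rw [con_mul, map_add, map_mul, map_mul, ha, hb, AlgHom.commutes, map_mul, con_mul, h21_te_sg]
    noncomm_ring
  | add a b ha hb => rw [map_add, map_add, ha, hb, map_add, map_add, neg_add]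

/-- The element of the dual that appears in the contraction of the differential. -/
noncomputable def h21_D (c : C) (h : Du k C) : Du k C :=
  h.fn c • (1 : Du k C) - Du.mk (h.fn ∘ₗ LinearMap.mulRight k c) + counit (R := k) c • h

lemma h21_D_fn (c : C) (h : Du k C) (s : C) : (h21_D c h).fn s =
    h.fn c * counit (R := k) s - h.fn (s * c) + counit (R := k) c * h.fn s := rfl

lemma h21_te_cd_ι (h : Du k C) : te k _ (cd k _ (TensorAlgebra.ι k h)) = 0 := by
  rw [cd_ι k h (Coalgebra.Repr.arbitrary k h)]
  simp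

lemma h21_con_cd_ι (c : C) (h : Du k C) : con k C c (cd k _ (TensorAlgebra.ι k h)) =
    TensorAlgebra.ι k (h21_D c h) := by
  have e : Du.mk (h.fn ∘ₗ LinearMap.mulRight k c) =
      ∑ i ∈ (Coalgebra.Repr.arbitrary k h).index,
        ((Coalgebra.Repr.arbitrary k h).right i).fn c • (Coalgebra.Repr.arbitrary k h).left i := by
    refine Du.ext fun s => ?_
    have h1 : ∀ (S : Finset (Du k C × Du k C)) (g : Du k C × Du k C → Du k C),
        (∑ i ∈ S, g i).fn s = ∑ i ∈ S, (g i).fn s := by
      intro S g
      exact map_sum ((LinearMap.applyₗ s : (C →ₗ[k] k) →ₗ[k] k) ∘ₗ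
        (Du.eqv k C).toLinearMap) g S
    have h2 : (Du.mk (h.fn ∘ₗ LinearMap.mulRight k c)).fn s = h.fn (s * c) := rfl
    rw [h2, Du.comul_fn h (Coalgebra.Repr.arbitrary k h)]
    refine Eq.trans ?_ (h1 _ _).symm
    refine Finset.sum_congr rfl fun i _ => ?_
    rw [Du.fn_smul, LinearMap.smul_apply, smul_eq_mul, mul_comm]
  rw [cd_ι k h (Coalgebra.Repr.arbitrary k h), map_add, map_sub, con_mul_ι, con_mul_ι, map_sum,
    h21_D, map_add, map_sub, map_smul, map_smul, e, map_sum, Du.one_fn]
  congr 2
  refine Finset.sum_congr rfl fun i _ => ?_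
  rw [con_mul_ι, map_smul]

lemma h21_con_cd_mul (c : C) (v : TensorAlgebra k (Du k C)) (h : Du k C) :
    con k C c (cd k _ (v * TensorAlgebra.ι k h)) =
      h.fn c • cd k _ v + sg k _ v * TensorAlgebra.ι k (h21_D c h) := by
  rw [cd_mul, map_add, con_mul_ι, con_mul_of_te _ _ _ (h21_te_cd_ι h), h21_con_cd_ι]

lemma h21_cd_algebraMap (r : k) : cd k (Du k C) (algebraMap k _ r) = 0 :=
  tder_algebraMap _ _ _ _

lemma h21_te_cd (w : TensorAlgebra k (Du k C)) : te k _ (cd k _ w) = 0 := by
  induction w using h21_ind with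
  | h0 r => rw [h21_cd_algebraMap, map_zero]
  | h1 v h => rw [cd_mul, map_add, map_mul, map_mul, h21_te_cd_ι, te_ι, mul_zero, mul_zero,
      add_zero]
  | ha x y hx hy => rw [map_add, map_add, hx, hy, add_zero]

/-- (**) The key identity. Both sides are additive in `w`; for `w` a scalar both are 0; for
`w = v h`, `dw = (dv) h + σ(v) (1 h - Δ h + h 1)` and `con c (dw) =
h(c) dv + σ(v) (h(c) 1 - ∑ h₂(c) h₁ + ε(c) h)`, `con s (con c (dw)) =
h(c) con s (dv) + (ε(s) h(c) - h(s c) + h(s) ε(c)) σ(v)`. -/
theorem con_con_cd (s c : C) (w : TensorAlgebra k (Du k C)) :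
    con k C s (con k C c (cd k _ w)) = con k C s (cd k _ (con k C c w)) +
      counit (R := k) s • sg k _ (con k C c w) - sg k _ (con k C (s * c) w) +
      counit (R := k) c • sg k _ (con k C s w) := by
  induction w using h21_ind with
  | h0 r => simp only [h21_cd_algebraMap, con_algebraMap, map_zero, smul_zero, sub_zero, add_zero]
  | h1 v h =>
    rw [h21_con_cd_mul, map_add, map_smul, con_mul_ι, con_mul_ι, con_mul_ι, con_mul_ι, map_smul,
      map_smul, map_smul, map_smul, map_smul, h21_D_fn]
    module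
  | ha x y hx hy =>
    simp only [map_add, hx, hy, smul_add]
    abel

lemma te_con_cd (c : C) (w : TensorAlgebra k (Du k C)) :
    te k _ (con k C c (cd k _ w)) = 0 := by
  induction w using h21_ind with
  | h0 r => rw [h21_cd_algebraMap, map_zero, map_zero]
  | h1 v h => rw [h21_con_cd_mul, map_add, map_smul, h21_te_cd, map_mul, te_ι, smul_zero,
      mul_zero, add_zero]
  | ha x y hx hy => rw [map_add, map_add, map_add, hx, hy, add_zero]

/-- `c q_n(w) - ε(c) q_n(w) = q_n(con c (d (σ w)))`. Induction on `n`: `c q_{n+1}(w) =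
[s ↦ q_n(con (s c) w)]` and, by `con_con_cd` for `σ w` and `sg_con`,
`con s (con c (d σ w)) = - con s (d σ (con c w)) - ε(s) con c w + con (s c) w - ε(c) con s w`;
the class of `s ↦ q_n (con s (d σ (con c w))) + ε(s) q_n(con c w) = s q_n(con c w)` is zero. -/
theorem smul_qn (n : ℕ) (c : C) (w : TensorAlgebra k (Du k C)) :
    c • qn k C n w - counit (R := k) c • qn k C n w =
      qn k C n (con k C c (cd k _ (sg k _ w))) := by
  induction n generalizing c w with
  | zero =>
    have h0 : qn k C 0 (con k C c (cd k _ (sg k _ w))) = 0 := by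
      rw [qn_zero, te_con_cd, zero_smul]
      rfl
    rw [h0]
    change (c • (te k _ w • tone k C) - counit (R := k) c • (te k _ w • tone k C) :
      triv k C) = 0
    refine tval_injective k ?_
    rw [map_sub, map_zero, tval_smul, tval_smul', tval_smul', tval_smul', sub_self]
  | succ n ih =>
    set N : ModuleCat.{u} C := (Qn k n).obj (triv k C) with hN
    change (c • qmk k N (Coi.mk k (N := N) ((qn k C n) ∘ₗ conL k w)) -
      counit (R := k) c • qmk k N (Coi.mk k (N := N) ((qn k C n) ∘ₗ conL k w)) :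
      (QF k).obj N) =
      qmk k N (Coi.mk k (N := N) ((qn k C n) ∘ₗ conL k (con k C c (cd k _ (sg k _ w)))))
    have e1 : counit (R := k) c • qmk k N (Coi.mk k (N := N) ((qn k C n) ∘ₗ conL k w)) =
        qmk k N (algebraMap k C (counit (R := k) c) •
          Coi.mk k (N := N) ((qn k C n) ∘ₗ conL k w)) := by
      rw [qmk_smul]
      exact (algebraMap_smul C (counit (R := k) c) _).symm
    have e2 : c • qmk k N (Coi.mk k (N := N) ((qn k C n) ∘ₗ conL k w)) =
        qmk k N (c • Coi.mk k (N := N) ((qn k C n) ∘ₗ conL k w)) := (qmk_smul k N _ _).symm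
    rw [e1, e2, ← map_sub, ← sub_eq_zero, ← map_sub, qmk_eq_zero]
    refine ⟨qn k C n (con k C c w), fun s => ?_⟩
    have e3 : (c • Coi.mk k (N := N) ((qn k C n) ∘ₗ conL k w) -
        algebraMap k C (counit (R := k) c) • Coi.mk k (N := N) ((qn k C n) ∘ₗ conL k w) -
        Coi.mk k (N := N) ((qn k C n) ∘ₗ conL k (con k C c (cd k _ (sg k _ w))))).fn s =
        qn k C n (con k C (s * c) w) -
          qn k C n (con k C (s * algebraMap k C (counit (R := k) c)) w) -
          qn k C n (con k C s (con k C c (cd k _ (sg k _ w)))) := rfl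
    rw [e3, con_con_cd]
    have h1 : ∀ t : C, con k C t (sg k _ w) = - sg k _ (con k C t w) := fun t => by
      rw [sg_con, neg_neg]
    rw [h1, h1, h1, map_neg, map_neg, map_neg, map_neg, map_neg, sg_sg, sg_sg, sg_sg]
    rw [← Algebra.commutes, ← Algebra.smul_def, con_smul_left, map_smul]
    have h2 := ih s (con k C c w)
    simp only [map_add, map_sub, map_neg, map_smul, smul_neg]
    rw [← h2]
    abel

lemma h21_sum_fn {κ : Type*} (S : Finset κ) (g : κ → Du k C) (s : C) :
    (∑ i ∈ S, g i).fn s = ∑ i ∈ S, (g i).fn s :=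
  map_sum ((LinearMap.applyₗ s : (C →ₗ[k] k) →ₗ[k] k) ∘ₗ (Du.eqv k C).toLinearMap) g S

lemma h21_basis {κ : Type} [Fintype κ] (b : Module.Basis κ k C) (h : Du k C) :
    ∑ i, h.fn (b i) • Du.mk (b.coord i) = h := by
  refine Du.ext fun c => ?_
  rw [h21_sum_fn]
  conv_rhs => rw [← b.sum_repr c, map_sum]
  refine Finset.sum_congr rfl fun i _ => ?_
  rw [Du.fn_smul, LinearMap.smul_apply, Du.fn_mk, map_smul, smul_eq_mul, smul_eq_mul, mul_comm,
    Module.Basis.coord_apply]

lemma h21_recon {κ : Type} [Fintype κ] (b : Module.Basis κ k C) {n : ℕ}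
    {w : TensorAlgebra k (Du k C)} (hw : w ∈ tg (⊤ : Submodule k (Du k C)) (n + 1)) :
    w = ∑ i, con k C (b i) w * TensorAlgebra.ι k (Du.mk (b.coord i)) := by
  refine tg_induction' (P := fun w =>
    w = ∑ i, con k C (b i) w * TensorAlgebra.ι k (Du.mk (b.coord i))) ?_ ?_ w hw
  · intro w _ h _
    have h1 : ∀ i, con k C (b i) (w * TensorAlgebra.ι k h) *
        TensorAlgebra.ι k (Du.mk (b.coord i)) =
        w * TensorAlgebra.ι k (h.fn (b i) • Du.mk (b.coord i)) := by
      intro i
      rw [con_mul_ι, map_smul, smul_mul_assoc, mul_smul_comm]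
    simp only [h1]
    rw [← Finset.mul_sum, ← map_sum, h21_basis]
  · intro x y hx hy
    simp only [map_add, add_mul]
    rw [Finset.sum_add_distrib, ← hx, ← hy]

/-- A normalised element is determined by its contractions (degree `≥ 1`). -/
lemma eq_zero_of_con {n : ℕ} {w : TensorAlgebra k (Du k C)}
    (hw : w ∈ tg (⊤ : Submodule k (Du k C)) (n + 1)) (h : ∀ s : C, con k C s w = 0) : w = 0 := by
  rw [h21_recon (Module.finBasis k C) hw]
  refine Finset.sum_eq_zero fun i _ => ?_
  rw [h, zero_mul]

/-- Every linear map `C → T^n` killing 1 comes from a normalised element of degree `n + 1`: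
`w = ∑ f(e i) e^i` with a basis `e i` of `C` and the dual basis. -/
lemma exists_of_con {n : ℕ} (f : C →ₗ[k] TensorAlgebra k (Du k C))
    (hf : ∀ s, f s ∈ tg (augK k (Du k C)) n) (h1 : f 1 = 0) :
    ∃ w ∈ tg (augK k (Du k C)) (n + 1), ∀ s, con k C s w = f s := by
  set b := Module.finBasis k C with hb
  refine ⟨∑ i, f (b i) * TensorAlgebra.ι k (Du.mk (b.coord i) - b.coord i 1 • (1 : Du k C)),
    Submodule.sum_mem _ fun i _ => tg_mul rfl (hf _) (ι_mem_tg ?_), fun s => ?_⟩
  · rw [Du.mem_augK, Du.fn_sub, Du.fn_smul, LinearMap.sub_apply, LinearMap.smul_apply, Du.fn_mk,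
      Du.one_fn, Bialgebra.counit_one, smul_eq_mul, mul_one, sub_self]
  · rw [map_sum]
    have h2 : ∀ i, con k C s (f (b i) *
        TensorAlgebra.ι k (Du.mk (b.coord i) - b.coord i 1 • (1 : Du k C))) =
        b.repr s i • f (b i) - counit (R := k) s • (b.repr 1 i • f (b i)) := by
      intro i
      rw [con_mul_ι, Du.fn_sub, Du.fn_smul, LinearMap.sub_apply, LinearMap.smul_apply, Du.fn_mk,
        Du.one_fn, sub_smul, smul_eq_mul, mul_comm, mul_smul, Module.Basis.coord_apply,
        Module.Basis.coord_apply]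
    simp only [h2]
    rw [Finset.sum_sub_distrib, ← Finset.smul_sum]
    have h3 : ∀ t : C, ∑ i, b.repr t i • f (b i) = f t := by
      intro t
      conv_rhs => rw [← b.sum_repr t, map_sum]
      refine Finset.sum_congr rfl fun i _ => ?_
      rw [map_smul]
    rw [h3, h3, h1, smul_zero, sub_zero]

/-- `q_n` is injective on normalised elements of degree `n`. -/
theorem qn_injective (n : ℕ) (w : TensorAlgebra k (Du k C)) (hw : w ∈ tg (augK k (Du k C)) n)
    (h : qn k C n w = 0) : w = 0 := by
  induction n generalizing w with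
  | zero =>
    obtain ⟨c, rfl⟩ := tg_zero _ w hw
    rw [qn_zero, AlgHom.commutes] at h
    have h' : (algebraMap k k) c • tone k C = (0 : triv k C) := h
    have h1 := congrArg (tval k) h'
    rw [tval_smul', tval_tone, map_zero, mul_one] at h1
    rw [show c = 0 from h1, map_zero]
  | succ n ih =>
    have h' : qmk k ((Qn k n).obj (triv k C)) (Coi.mk k (N := (Qn k n).obj (triv k C))
      ((qn k C n) ∘ₗ conL k w)) = 0 := h
    rw [qmk_eq_zero] at h'
    obtain ⟨m, hm⟩ := h'
    have h1 : ∀ s : C, qn k C n (con k C s w) = s • m := hm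
    have h2 : m = 0 := by
      have := h1 1
      rw [con_one_aug hw, map_zero, one_smul] at this
      exact this.symm
    refine eq_zero_of_con (tg_mono le_top _ hw) fun s => ih _ (con_tg s hw) ?_
    rw [h1, h2, smul_zero]

/-- `q_n` is surjective from the normalised elements of degree `n`: a class in
`Q(N) = Hom_k(C, N) / N` has a representative `f` with `f 1 = 0`. -/
theorem qn_surjective (n : ℕ) (m : (Qn k n).obj (triv k C)) :
    ∃ w ∈ tg (augK k (Du k C)) n, qn k C n w = m := by
  induction n with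
  | zero =>
    refine ⟨algebraMap k _ (tval k (H := C) m), ?_, ?_⟩
    · rw [Algebra.algebraMap_eq_smul_one]
      exact Submodule.smul_mem _ _ (one_mem_tg _)
    · rw [qn_zero, AlgHom.commutes]
      exact (triv_eq k (H := C) m).symm
  | succ n ih =>
    set N : ModuleCat.{u} C := (Qn k n).obj (triv k C) with hN
    obtain ⟨f, hf⟩ := qmk_surjective k N m
    set m₁ : N := f.fn 1 with hm₁
    have hbij : Function.Bijective ((qn k C n).domRestrict (tg (augK k (Du k C)) n)) := by
      constructor
      · rw [← LinearMap.ker_eq_bot, LinearMap.ker_eq_bot']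
        rintro ⟨w, hw⟩ h
        exact Subtype.ext (qn_injective n w hw h)
      · intro x
        obtain ⟨w, hw, h⟩ := ih x
        exact ⟨⟨w, hw⟩, h⟩
    set e := LinearEquiv.ofBijective _ hbij with he
    have he2 : ∀ x : N, qn k C n ((e.symm x : tg (augK k (Du k C)) n) :
        TensorAlgebra k (Du k C)) = x := fun x => e.apply_symm_apply x
    set f' : Coi k N := f - etaL k N m₁ with hf'
    have hf1 : f'.fn 1 = 0 := by
      change f.fn 1 - (1 : C) • m₁ = 0
      rw [one_smul, sub_self]
    have hq : qmk k N f' = m := by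
      rw [hf', map_sub, hf]
      have : qmk k N (etaL k N m₁) = 0 := (qmk_eq_zero k N _).2 ⟨m₁, fun s => rfl⟩
      rw [this, sub_zero]
    obtain ⟨w, hw, hw2⟩ := exists_of_con (n := n)
      ((tg (augK k (Du k C)) n).subtype ∘ₗ e.symm.toLinearMap ∘ₗ f'.fn)
      (fun s => (e.symm (f'.fn s)).2) (by
        rw [LinearMap.comp_apply, LinearMap.comp_apply, hf1, map_zero, map_zero])
    refine ⟨w, hw, ?_⟩
    rw [qn_succ]
    refine Eq.trans ?_ hq
    congr 1
    refine Coi.ext fun s => ?_
    rw [Coi.fn_mk, LinearMap.comp_apply, conL_apply, hw2]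
    exact he2 _

end Pool.Agent.H26.FG
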