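import Pool.Agent.H26.FG.ExtInd

/-!
# Module CoiA: coinduced modules are injective, dimension shifting, classes as cosyzygy elements
-/

open CategoryTheory Abelian TensorProduct
open scoped ModuleCat

universe u v w

namespace Pool.Agent.H26.FG

section Shift

variable {𝒜 : Type v} [Category.{w} 𝒜] [Abelian 𝒜] [HasExt.{u} 𝒜]

lemma DimShift.comp {P X Y Z : 𝒜} {m n c : ℕ} {e : Ext.{u} X Y m} {e' : Ext.{u} Y Z n}
    (he : DimShift P e) (he' : DimShift P e') (h : m + n = c) : DimShift P (e.comp e' h) := by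
  have key : ∀ (j d : ℕ) (hj : j + c = d) (v : Ext P X j),
      v.comp (e.comp e' h) hj = (v.comp e rfl).comp e' (by omega) := by
    intro j d hj v
    exact (Ext.comp_assoc v e e' rfl h (by omega)).symm
  constructor
  · intro j d hj h1 v v' hv
    rw [key, key] at hv
    exact he.inj j _ rfl h1 v v' (he'.inj (j + m) d (by omega) (by omega) _ _ hv)
  · intro j d hj v
    obtain ⟨w, hw⟩ := he'.surj (j + m) d (by omega) v
    obtain ⟨v', hv'⟩ := he.surj j (j + m) rfl w
    exact ⟨v', by rw [key, hv', hw]⟩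

lemma DimShift.mk₀ {P X Y : 𝒜} (f : X ⟶ Y) [IsIso f] : DimShift P (Ext.mk₀ f) := by
  have key1 : ∀ (j : ℕ) (v : Ext P X j),
      (v.comp (Ext.mk₀ f) (add_zero j)).comp (Ext.mk₀ (inv f)) (add_zero j) = v := by
    intro j v
    rw [Ext.comp_assoc_of_third_deg_zero, Ext.mk₀_comp_mk₀, IsIso.hom_inv_id,
      Ext.comp_mk₀_id]
  have key2 : ∀ (j : ℕ) (v : Ext P Y j),
      (v.comp (Ext.mk₀ (inv f)) (add_zero j)).comp (Ext.mk₀ f) (add_zero j) = v := by
    intro j v
    rw [Ext.comp_assoc_of_third_deg_zero, Ext.mk₀_comp_mk₀, IsIso.inv_hom_id,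
      Ext.comp_mk₀_id]
  constructor
  · intro j c h _ v v' hv
    obtain rfl : c = j := by omega
    have h1 := congrArg (fun z : Ext P Y c => z.comp (Ext.mk₀ (inv f)) (add_zero c)) hv
    rwa [key1, key1] at h1
  · intro j c h v
    obtain rfl : c = j := by omega
    exact ⟨v.comp (Ext.mk₀ (inv f)) (add_zero c), key2 c v⟩

/-- If `Ext^{≥1}(P, S.X₂) = 0` then the class of `S` shifts dimensions. -/
lemma DimShift.extClass (P : 𝒜) (S : ShortComplex 𝒜) (hS : S.ShortExact)
    (h0 : ∀ (n : ℕ) (v : Ext P S.X₂ (n + 1)), v = 0) : DimShift P hS.extClass := by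
  constructor
  · intro j c h h1 v v' hv
    obtain ⟨i, rfl⟩ : ∃ i, j = i + 1 := ⟨j - 1, by omega⟩
    have h2 : (v - v').comp hS.extClass h = 0 := by
      rw [sub_eq_add_neg, Ext.add_comp, Ext.neg_comp, hv, add_neg_cancel]
    obtain ⟨x₂, hx₂⟩ := Ext.covariant_sequence_exact₃ P hS (v - v') h h2
    rw [h0 i x₂, Ext.zero_comp] at hx₂
    exact sub_eq_zero.1 hx₂.symm
  · intro j c h v
    subst h
    exact Ext.covariant_sequence_exact₁ P hS v (h0 j _) rfl

lemma DimShift.extClass_of_injective (P : 𝒜) (S : ShortComplex 𝒜) (hS : S.ShortExact)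
    [Injective S.X₂] : DimShift P hS.extClass :=
  DimShift.extClass P S hS fun _ v => Ext.eq_zero_of_injective v

private lemma h75_zero_iff {P Z : 𝒜} {S : ShortComplex 𝒜} (hS : S.ShortExact) {n d : ℕ}
    {e : Ext.{u} S.X₁ Z n} (he : DimShift P e) (h : 1 + n = d) (f : P ⟶ S.X₃) :
    (Ext.mk₀ f).comp (hS.extClass.comp e h) (zero_add d) = 0 ↔
      ∃ g : P ⟶ S.X₂, g ≫ S.g = f := by
  have h1 : (Ext.mk₀ f).comp (hS.extClass.comp e h) (zero_add d) =
      ((Ext.mk₀ f).comp hS.extClass (zero_add 1)).comp e h :=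
    (Ext.comp_assoc (Ext.mk₀ f) hS.extClass e (zero_add 1) h (by omega)).symm
  rw [h1]
  have h2 : ((Ext.mk₀ f).comp hS.extClass (zero_add 1)).comp e h = 0 ↔
      (Ext.mk₀ f).comp hS.extClass (zero_add 1) = 0 := by
    constructor
    · intro h3
      refine he.inj 1 d h le_rfl _ _ ?_
      rw [h3, Ext.zero_comp]
    · intro h3
      rw [h3, Ext.zero_comp]
  rw [h2]
  constructor
  · intro h3
    obtain ⟨x₂, hx₂⟩ := Ext.covariant_sequence_exact₃ P hS (Ext.mk₀ f) (zero_add 1) h3
    obtain ⟨g, rfl⟩ := (Ext.mk₀_bijective P S.X₂).2 x₂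
    refine ⟨g, (Ext.mk₀_bijective P S.X₃).1 ?_⟩
    rw [← hx₂, Ext.mk₀_comp_mk₀]
  · rintro ⟨g, rfl⟩
    rw [← Ext.mk₀_comp_mk₀, Ext.comp_assoc_of_second_deg_zero, hS.comp_extClass, Ext.comp_zero]

private lemma h75_nat {Z Z' : 𝒜} {S S' : ShortComplex 𝒜} (hS : S.ShortExact)
    (hS' : S'.ShortExact) (ψ : S ⟶ S') {n d : ℕ} {e : Ext.{u} S.X₁ Z n} {e' : Ext.{u} S'.X₁ Z' n}
    (φ : Z ⟶ Z') (h : 1 + n = d)
    (ih : (Ext.mk₀ ψ.τ₁).comp e' (zero_add n) = e.comp (Ext.mk₀ φ) (add_zero n)) :
    (Ext.mk₀ ψ.τ₃).comp (hS'.extClass.comp e' h) (zero_add d) =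
      (hS.extClass.comp e h).comp (Ext.mk₀ φ) (add_zero d) := by
  have h1 := ShortComplex.ShortExact.extClass_naturality hS hS' ψ
  rw [Ext.comp_assoc_of_third_deg_zero, ← ih,
    ← Ext.comp_assoc (Ext.mk₀ ψ.τ₃) hS'.extClass e' (zero_add 1) h (by omega), ← h1]
  rw [Ext.comp_assoc_of_second_deg_zero]

end Shift

section Coind

variable (k : Type u) [Field k] {C : Type u} [Ring C] [Algebra k C]

/-- the extension to `Y` of a map to a coinduced module -/
private noncomputable def h75_ext {N X Y : ModuleCat.{u} C} (g : X ⟶ (FF k).obj N)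
    (r : Y →ₗ[k] X) : Y →ₗ[C] Coi k N where
  toFun y := Coi.mk k
    { toFun := fun c => Coi.fn (k := k) (N := N) (g.hom (r (c • y))) 1
      map_add' := fun c c' => by
        rw [add_smul, map_add, map_add]
        rfl
      map_smul' := fun a c => by
        rw [smul_assoc, map_smul]
        have h1 : g.hom (a • r (c • y)) = a • g.hom (r (c • y)) :=
          (g.hom.restrictScalars k).map_smul a _
        rw [h1, Coi.ksmul_fn]
        rfl }
  map_add' y y' := Coi.ext fun c => by
    change Coi.fn (k := k) (N := N) (g.hom (r (c • (y + y')))) 1 =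
      Coi.fn (k := k) (N := N) (g.hom (r (c • y))) 1 +
        Coi.fn (k := k) (N := N) (g.hom (r (c • y'))) 1
    rw [smul_add, map_add, map_add]
    rfl
  map_smul' a y := Coi.ext fun c => by
    change Coi.fn (k := k) (N := N) (g.hom (r (c • a • y))) 1 =
      Coi.fn (k := k) (N := N) (g.hom (r ((c * a) • y))) 1
    rw [mul_smul]

/-- `Hom_k(C, N)` is an injective `C`-module: for `X ⊆ Y` and `g : X → Hom_k(C, N)` extend the
`k`-linear map `x ↦ g x 1` to `Y`. -/
instance FF_injective (N : ModuleCat.{u} C) : Injective ((FF k).obj N) := by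
  constructor
  intro X Y g f hf
  have hinj : Function.Injective f.hom := (ModuleCat.mono_iff_injective f).1 hf
  obtain ⟨r, hr⟩ := LinearMap.exists_leftInverse_of_injective (f.hom.restrictScalars k)
    (LinearMap.ker_eq_bot.2 hinj)
  refine ⟨ModuleCat.ofHom (h75_ext k g r), ?_⟩
  ext x
  refine Coi.ext fun c => ?_
  change Coi.fn (k := k) (N := N) (g.hom (r (c • f.hom x))) 1 =
    Coi.fn (k := k) (N := N) (g.hom x) c
  have h1 : c • f.hom x = f.hom (c • x) := (map_smul f.hom c x).symm
  have h2 : r (f.hom (c • x)) = c • x := LinearMap.congr_fun hr (c • x)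
  have h3 : g.hom (c • x) = c • g.hom x := map_smul g.hom c x
  rw [h1, h2, h3]
  change Coi.fn (k := k) (N := N) (g.hom x) (1 * c) = _
  rw [one_mul]

lemma eN_dimShift (P N : ModuleCat.{u} C) (n : ℕ) : DimShift P (eN k N n) := by
  induction n with
  | zero => exact DimShift.mk₀ (𝟙 N)
  | succ n ih =>
    have : Injective (coS k ((Qn k n).obj N)).X₂ := FF_injective k ((Qn k n).obj N)
    exact DimShift.comp (DimShift.extClass_of_injective P _
      (coS_shortExact k ((Qn k n).obj N))) ih (Nat.add_comm 1 n)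

/-- Every class in `Ext^n(P, N)` is of the form `f e_n` with a morphism `f : P → Q^n N`. -/
theorem exists_eq_eN {P N : ModuleCat.{u} C} {n : ℕ} (x : Ext P N n) :
    ∃ f : P ⟶ (Qn k n).obj N, (Ext.mk₀ f).comp (eN k N n) (zero_add n) = x := by
  obtain ⟨v, hv⟩ := (eN_dimShift k P N n).surj 0 n (zero_add n) x
  obtain ⟨f, rfl⟩ := (Ext.mk₀_bijective P ((Qn k n).obj N)).2 v
  exact ⟨f, hv⟩

/-- A morphism `f : P → Q^{n+1} N` gives the zero class iff it lifts to `F(Q^n N)`. -/
theorem eN_eq_zero_iff {P N : ModuleCat.{u} C} {n : ℕ} (f : P ⟶ (Qn k (n + 1)).obj N) :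
    (Ext.mk₀ f).comp (eN k N (n + 1)) (zero_add (n + 1)) = 0 ↔
      ∃ g : P ⟶ (FF k).obj ((Qn k n).obj N), g ≫ (prT k).app ((Qn k n).obj N) = f :=
  h75_zero_iff (coS_shortExact k ((Qn k n).obj N)) (eN_dimShift k P N n) (Nat.add_comm 1 n) f

/-- Naturality of `e_n` in `N`. -/
theorem eN_natural {N N' : ModuleCat.{u} C} (φ : N ⟶ N') (n : ℕ) :
    (Ext.mk₀ ((Qn k n).map φ)).comp (eN k N' n) (zero_add n) =
      (eN k N n).comp (Ext.mk₀ φ) (add_zero n) := by
  induction n with
  | zero =>
    change (Ext.mk₀ φ).comp (Ext.mk₀ (𝟙 N')) (zero_add 0) =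
      (Ext.mk₀ (𝟙 N)).comp (Ext.mk₀ φ) (add_zero 0)
    rw [Ext.comp_mk₀_id, Ext.mk₀_id_comp]
  | succ n ih =>
    let ψ : (coS k ((Qn k n).obj N)) ⟶ (coS k ((Qn k n).obj N')) :=
      { τ₁ := (Qn k n).map φ
        τ₂ := (FF k).map ((Qn k n).map φ)
        τ₃ := (QF k).map ((Qn k n).map φ)
        comm₁₂ := (etaT k).naturality ((Qn k n).map φ)
        comm₂₃ := (prT k).naturality ((Qn k n).map φ) }
    exact h75_nat (coS_shortExact k ((Qn k n).obj N)) (coS_shortExact k ((Qn k n).obj N')) ψ φ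
      (Nat.add_comm 1 n) ih

/-- the identification with linear maps is linear -/
private noncomputable def h75_coi (N : ModuleCat.{u} C) : (C →ₗ[k] N) →ₗ[k] (FF k).obj N where
  toFun f := Coi.mk k f
  map_add' _ _ := rfl
  map_smul' c f := by
    refine Coi.ext (k := k) (N := N) fun x => ?_
    exact (Coi.ksmul_fn k c (Coi.mk k f : (FF k).obj N) x).symm

lemma FF_finite [Module.Finite k C] (N : ModuleCat.{u} C) (hN : Module.Finite k N) :
    Module.Finite k ((FF k).obj N) :=
  Module.Finite.of_surjective (h75_coi k N) fun f => ⟨Coi.fn (k := k) (N := N) f, rfl⟩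

private lemma h75_QF_finite (M : ModuleCat.{u} C) (h : Module.Finite k ((FF k).obj M)) :
    Module.Finite k ((QF k).obj M) := by
  let L : (FF k).obj M →ₗ[k] (QF k).obj M :=
    { toFun := fun f => ((prT k).app M).hom f
      map_add' := fun f g => map_add ((prT k).app M).hom f g
      map_smul' := fun c f => map_smul ((prT k).app M).hom (algebraMap k C c) f }
  exact Module.Finite.of_surjective L (Submodule.mkQ_surjective (LinearMap.range (etaL k M)))

lemma Qn_finite [Module.Finite k C] (N : ModuleCat.{u} C) (hN : Module.Finite k N) (n : ℕ) :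
    Module.Finite k ((Qn k n).obj N) := by
  induction n with
  | zero => exact hN
  | succ n ih =>
    exact h75_QF_finite k ((Qn k n).obj N) (FF_finite k ((Qn k n).obj N) ih)

/-- the underlying `k`-linear map of a morphism -/
private noncomputable def h75_hom (P X : ModuleCat.{u} C) : (P ⟶ X) →ₗ[k] (P →ₗ[k] X) where
  toFun f := f.hom.restrictScalars k
  map_add' _ _ := rfl
  map_smul' _ _ := rfl

/-- `Ext^n(P, N)` is finite-dimensional for finite-dimensional `P`, `N`. -/
theorem Ext_finite [Module.Finite k C] (P N : ModuleCat.{u} C) (hP : Module.Finite k P)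
    (hN : Module.Finite k N) (n : ℕ) : Module.Finite k (Ext P N n) := by
  have h1 := Qn_finite k N hN n
  have h2 : Module.Finite k (P ⟶ (Qn k n).obj N) :=
    Module.Finite.of_injective (h75_hom k P ((Qn k n).obj N)) (by
      intro f g h
      ext x
      exact LinearMap.congr_fun h x)
  let L : (P ⟶ (Qn k n).obj N) →ₗ[k] Ext P N n :=
    { toFun := fun f => (Ext.mk₀ f).comp (eN k N n) (zero_add n)
      map_add' := fun f g => by rw [Ext.mk₀_add, Ext.add_comp]
      map_smul' := fun c f => by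
        rw [Ext.mk₀_smul, Ext.smul_comp]
        rfl }
  exact Module.Finite.of_surjective L fun x => exists_eq_eN k x

private lemma h75_trv_smul (ε : C →ₐ[k] k) (c : k) (x : k) :
    (c • (show trv ε from x) : trv ε) = (show trv ε from c * x) := by
  have h : ε (algebraMap k C c) * x = c * x := by rw [ε.commutes]; rfl
  exact h

lemma trv_finite (ε : C →ₐ[k] k) : Module.Finite k (trv ε) := by
  let L : k →ₗ[k] trv ε :=
    { toFun := fun x => x
      map_add' := fun _ _ => rfl
      map_smul' := fun c x => (h75_trv_smul k ε c x).symm }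
  exact Module.Finite.of_surjective L fun x => ⟨x, rfl⟩

/-- A non-zero morphism from the one-dimensional module is a monomorphism. -/
lemma mono_of_ne_zero (ε : C →ₐ[k] k) {X : ModuleCat.{u} C} (f : trv ε ⟶ X) (hf : f ≠ 0) :
    Mono f := by
  rw [ModuleCat.mono_iff_injective]
  have key : ∀ x : k, f.hom (show trv ε from x) = x • f.hom (show trv ε from (1:k)) := by
    intro x
    have h1 : (show trv ε from x) = (x • (show trv ε from (1:k)) : trv ε) := by
      rw [h75_trv_smul, mul_one]
    have h2 : f.hom (x • (show trv ε from (1:k)) : trv ε) = x • f.hom (show trv ε from (1:k)) :=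
      map_smul f.hom (algebraMap k C x) (show trv ε from (1:k))
    exact (congrArg f.hom h1).trans h2
  have h1 : f.hom (show trv ε from (1:k)) ≠ 0 := by
    intro h0
    apply hf
    ext x
    exact (key x).trans (by rw [h0, smul_zero]; rfl)
  refine (injective_iff_map_eq_zero f.hom).2 fun x hx => ?_
  have h2 := key x
  have h3 : (show k from x) • f.hom (show trv ε from (1:k)) = 0 := h2.symm.trans hx
  rcases smul_eq_zero.1 h3 with h4 | h4
  · exact h4
  · exact absurd h4 h1

end Coind

end Pool.Agent.H26.FG
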