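import Pool.Agent.H26.FG.Br1
import Pool.Agent.H26.FG.CoiA

/-!
# Module Br2: classes of normalised cocycles
-/

open CategoryTheory Abelian TensorProduct Coalgebra
open scoped ModuleCat

universe u

namespace Pool.Agent.H26.FG

section Br2_aux

variable {k : Type u} [Field k] {C : Type u} [Ring C] [Bialgebra k C]

lemma Br2_hom_ext {N : ModuleCat.{u} C} {f g : triv k C ⟶ N}
    (h : f.hom (tone k C) = g.hom (tone k C)) : f = g := by
  refine ModuleCat.hom_ext (LinearMap.ext fun x => ?_)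
  rw [triv_eq k x, ← algebraMap_smul C, map_smul, h, map_smul]

lemma Br2_hom_inv {N : ModuleCat.{u} C} (f : triv k C ⟶ N) (c : C) :
    c • f.hom (tone k C) = counit (R := k) c • f.hom (tone k C) := by
  rw [← map_smul, smul_tone, ← algebraMap_smul C (counit (R := k) c) (tone k C), map_smul,
    algebraMap_smul]

end Br2_aux

variable {k : Type u} [Field k] {C : Type u} [Ring C] [Bialgebra k C] [Module.Finite k C]

/-- Elements `q_n w` of cocycles are invariant. -/
lemma qn_inv {n : ℕ} {w : TensorAlgebra k (Du k C)} (hw : w ∈ Zc k C n) (c : C) :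
    c • qn k C n w = counit (R := k) c • qn k C n w := by
  have h := smul_qn n c w
  have h2 : cd k _ (sg k _ w) = 0 := by
    have h3 := sg_cd (k := k) w
    have h4 : cd k (Du k C) w = 0 := hw.2
    rw [h4, map_zero] at h3
    exact neg_eq_zero.1 h3.symm
  rw [h2, map_zero, map_zero] at h
  exact sub_eq_zero.1 h

lemma cl_eq {n : ℕ} {w : TensorAlgebra k (Du k C)} (hw : w ∈ Zc k C n) :
    cl k n w = (Ext.mk₀ (invHom k (qn k C n w) (qn_inv hw))).comp (eN k (triv k C) n)
      (zero_add n) := by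
  unfold cl
  exact dif_pos (qn_inv hw)

lemma cl_add {n : ℕ} {w z : TensorAlgebra k (Du k C)} (hw : w ∈ Zc k C n) (hz : z ∈ Zc k C n) :
    cl k (C := C) n (w + z) = cl k n w + cl k n z := by
  rw [cl_eq hw, cl_eq hz, cl_eq (Submodule.add_mem _ hw hz), ← Ext.add_comp, ← Ext.mk₀_add]
  congr 2
  refine Br2_hom_ext ?_
  have e1 := invHom_tone k (qn k C n w) (qn_inv hw)
  have e2 := invHom_tone k (qn k C n z) (qn_inv hz)
  have e3 := invHom_tone k (qn k C n (w + z)) (qn_inv (Submodule.add_mem _ hw hz))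
  refine e3.trans ?_
  rw [map_add]
  change _ = (invHom k (qn k C n w) (qn_inv hw)).hom (tone k C) +
    (invHom k (qn k C n z) (qn_inv hz)).hom (tone k C)
  rw [e1, e2]

lemma cl_sub {n : ℕ} {w z : TensorAlgebra k (Du k C)} (hw : w ∈ Zc k C n) (hz : z ∈ Zc k C n) :
    cl k (C := C) n (w - z) = cl k n w - cl k n z := by
  have h := cl_add (Submodule.sub_mem _ hw hz) hz
  rw [sub_add_cancel] at h
  exact (sub_eq_of_eq_add h).symm

lemma cl_zero (n : ℕ) : cl k (C := C) n 0 = 0 := by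
  have h := cl_add (k := k) (C := C) (n := n) (Submodule.zero_mem _) (Submodule.zero_mem _)
  rw [add_zero] at h
  exact left_eq_add.1 h

lemma cl_smul {n : ℕ} (c : k) {w : TensorAlgebra k (Du k C)} (hw : w ∈ Zc k C n) :
    cl k (C := C) n (c • w) = c • cl k n w := by
  rw [cl_eq hw, cl_eq (Submodule.smul_mem _ c hw), ← Ext.smul_comp, ← Ext.mk₀_smul]
  congr 2
  refine Br2_hom_ext ?_
  have e1 := invHom_tone k (qn k C n w) (qn_inv hw)
  have e3 := invHom_tone k (qn k C n (c • w)) (qn_inv (Submodule.smul_mem _ c hw))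
  refine e3.trans ?_
  rw [map_smul]
  change _ = c • (invHom k (qn k C n w) (qn_inv hw)).hom (tone k C)
  rw [e1]

lemma cl_sum {n : ℕ} {κ : Type*} (s : Finset κ) (w : κ → TensorAlgebra k (Du k C))
    (hw : ∀ i ∈ s, w i ∈ Zc k C n) :
    cl k (C := C) n (∑ i ∈ s, w i) = ∑ i ∈ s, cl k n (w i) := by
  classical
  induction s using Finset.induction_on with
  | empty => rw [Finset.sum_empty, Finset.sum_empty, cl_zero]
  | insert a s ha ih =>
    rw [Finset.sum_insert ha, Finset.sum_insert ha,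
      cl_add (hw a (Finset.mem_insert_self _ _))
        (Submodule.sum_mem _ fun i hi => hw i (Finset.mem_insert_of_mem hi)),
      ih fun i hi => hw i (Finset.mem_insert_of_mem hi)]

lemma one_mem_Zc : (1 : TensorAlgebra k (Du k C)) ∈ Zc k C 0 :=   ⟨one_mem_tg _, LinearMap.mem_ker.2 (cd_one k)⟩

lemma cl_one : cl k (C := C) 0 1 = Ext.mk₀ (𝟙 (triv k C)) := by
  rw [cl_eq one_mem_Zc]
  have h : invHom k (qn k C 0 1) (qn_inv one_mem_Zc) = 𝟙 (triv k C) := by
    refine Br2_hom_ext ?_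
    refine (invHom_tone k (qn k C 0 1) (qn_inv one_mem_Zc)).trans ?_
    rw [qn_zero, map_one, one_smul]
    rfl
  rw [h]
  exact Ext.mk₀_id_comp _

/-- Products of cocycles are cocycles. -/
lemma mul_mem_Zc {m n c : ℕ} (h : m + n = c) {w z : TensorAlgebra k (Du k C)}
    (hw : w ∈ Zc k C m) (hz : z ∈ Zc k C n) : w * z ∈ Zc k C c := by
  refine ⟨tg_mul h hw.1 hz.1, LinearMap.mem_ker.2 ?_⟩
  have h1 : cd k (Du k C) w = 0 := hw.2
  have h2 : cd k (Du k C) z = 0 := hz.2
  rw [cd_mul, h1, h2, zero_mul, mul_zero, add_zero]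

/-- Every class is the class of a normalised cocycle: `x = f e_n` (`exists_eq_eN`),
`f 1 = q_n w` (`qn_surjective`), and `q_n (con c (d (σ w))) = 0` by `smul_qn`, so
`con c (d (σ w)) = 0` for all `c` (`qn_injective`), so `d (σ w) = 0` (`eq_zero_of_con`). -/
theorem cl_surjective (n : ℕ) (x : Ext (triv k C) (triv k C) n) :
    ∃ w ∈ Zc k C n, cl k n w = x := by
  obtain ⟨f, rfl⟩ := exists_eq_eN k x
  obtain ⟨w, hw, hq⟩ := qn_surjective n (f.hom (tone k C))
  have hinv : ∀ c : C, c • qn k C n w = counit (R := k) c • qn k C n w := by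
    intro c
    rw [hq]
    exact Br2_hom_inv f c
  have hmem : cd k _ (sg k _ w) ∈ tg (augK k (Du k C)) (n + 1) := cd_mem_aug (sg_mem hw)
  have h0 : cd k _ (sg k _ w) = 0 := by
    refine eq_zero_of_con (tg_mono le_top _ hmem) fun c => ?_
    refine qn_injective n _ (con_tg c hmem) ?_
    rw [← smul_qn, hinv c, sub_self]
  have h1 : cd k (Du k C) w = 0 := by
    have h2 := sg_cd (k := k) w
    rw [h0, neg_zero] at h2
    rw [← sg_sg (cd k (Du k C) w), h2, map_zero]
  have hZ : w ∈ Zc k C n := ⟨hw, LinearMap.mem_ker.2 h1⟩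
  refine ⟨w, hZ, ?_⟩
  rw [cl_eq hZ]
  have hf : invHom k (qn k C n w) (qn_inv hZ) = f := by
    refine Br2_hom_ext ?_
    exact (invHom_tone k (qn k C n w) (qn_inv hZ)).trans hq
  rw [hf]

/-- A normalised cocycle with class zero is the coboundary of a normalised cochain: by
`eN_eq_zero_iff` the morphism lifts to `g : k → F(Q^n k)`; `g 1 = (s ↦ ε(s) q)`, `q = q_n v`;
`[s ↦ ε(s) q_n v] = [s ↦ ε(s) q_n v - s q_n v] = - q_{n+1} (d (σ v))` (`smul_qn`), so
`w = - d (σ v)` by `qn_injective`. -/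
theorem exists_of_cl_eq_zero {n : ℕ} {w : TensorAlgebra k (Du k C)} (hw : w ∈ Zc k C (n + 1))
    (h : cl k (C := C) (n + 1) w = 0) : ∃ v ∈ tg (augK k (Du k C)) n, cd k _ v = w := by
  rw [cl_eq hw] at h
  obtain ⟨g, hg⟩ := (eN_eq_zero_iff k _).1 h
  obtain ⟨m, hm⟩ : ∃ m : Coi k ((Qn k n).obj (triv k C)), m = g.hom (tone k C) := ⟨_, rfl⟩
  have hm1 : ∀ s : C, s • m = algebraMap k C (counit (R := k) s) • m := by
    intro s
    have h1 := Br2_hom_inv g s
    rw [← algebraMap_smul C] at h1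
    rw [hm]
    exact h1
  have hm2 : ∀ s : C, m.fn s = counit (R := k) s • m.fn 1 := by
    intro s
    have h1 := congrArg (fun f : Coi k ((Qn k n).obj (triv k C)) => f.fn 1) (hm1 s)
    simp only [Coi.smul_fn, one_mul] at h1
    rw [h1, Algebra.algebraMap_eq_smul_one, map_smul]
  have hm3 : qmk k ((Qn k n).obj (triv k C)) m = qn k C (n + 1) w := by
    have h1 := invHom_tone k (qn k C (n + 1) w) (qn_inv hw)
    rw [← hg] at h1
    rw [hm]
    exact h1
  obtain ⟨v, hv, hq⟩ := qn_surjective n (m.fn 1)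
  have hmem : sg k _ v ∈ tg (augK k (Du k C)) n := sg_mem hv
  have key : qn k C (n + 1) (w + cd k _ (sg k _ v)) = 0 := by
    rw [map_add, ← hm3, qn_succ]
    refine (map_add (qmk k ((Qn k n).obj (triv k C))) _ _).symm.trans ?_
    refine (qmk_eq_zero k _ _).2 ⟨m.fn 1, fun s => ?_⟩
    rw [Coi.fn_add, LinearMap.add_apply, Coi.fn_mk, LinearMap.comp_apply, conL_apply, ← smul_qn, hq,
      hm2 s]
    exact add_sub_cancel _ _
  have h0 : w + cd k _ (sg k _ v) = 0 :=
    qn_injective (n + 1) _ (Submodule.add_mem _ hw.1 (cd_mem_aug hmem)) key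
  refine ⟨- sg k _ v, Submodule.neg_mem _ hmem, ?_⟩
  rw [map_neg]
  exact (eq_neg_of_add_eq_zero_left h0).symm

end Pool.Agent.H26.FG
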