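import Pool.Agent.H26.FG.Br2

/-!
# Module Br3: products of cocycles and Yoneda products
-/

open CategoryTheory Abelian TensorProduct Coalgebra
open scoped ModuleCat

universe u

namespace Pool.Agent.H26.FG

section Iter

variable (k : Type u) [Field k] {C : Type u} [Ring C] [Algebra k C]

/-- `Q^n (Q^m N) = Q^{m+n} N`. -/
noncomputable def qIso (N : ModuleCat.{u} C) (m : ℕ) :
    (n : ℕ) → ((Qn k n).obj ((Qn k m).obj N) ≅ (Qn k (m + n)).obj N)
  | 0 => Iso.refl _
  | n + 1 => (QF k).mapIso (qIso N m n)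

/-- naturality of the short exact sequence -/
noncomputable def h83_coMap {N N' : ModuleCat.{u} C} (φ : N ⟶ N') : coS k N ⟶ coS k N' where
  τ₁ := φ
  τ₂ := (FF k).map φ
  τ₃ := (QF k).map φ
  comm₁₂ := (etaT k).naturality φ
  comm₂₃ := ((prT k).naturality φ)

lemma h83_coS_nat {N N' : ModuleCat.{u} C} (φ : N ⟶ N') :
    (coS_shortExact k N).extClass.comp (Ext.mk₀ φ) (add_zero 1) =
      (Ext.mk₀ ((QF k).map φ)).comp (coS_shortExact k N').extClass (zero_add 1) :=
  ShortComplex.ShortExact.extClass_naturality (coS_shortExact k N) (coS_shortExact k N')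
    (h83_coMap k φ)

/-- The iterated classes compose: `e_n(Q^m N) e_m(N) = e_{m+n}(N)`. Induction on `n`
(`ShortComplex.ShortExact.extClass_naturality` for `coS`). -/
theorem eN_add (N : ModuleCat.{u} C) (m n : ℕ) :
    (eN k ((Qn k m).obj N) n).comp (eN k N m) (Nat.add_comm n m) =
      (Ext.mk₀ (qIso k N m n).hom).comp (eN k N (m + n)) (zero_add (m + n)) := by
  induction n with
  | zero => rfl
  | succ n ih =>
    let X := (Qn k n).obj ((Qn k m).obj N)
    let Y := (Qn k (m + n)).obj N
    let φ : X ⟶ Y := (qIso k N m n).hom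
    let eX : Ext ((QF k).obj X) X 1 := (coS_shortExact k X).extClass
    let eY : Ext ((QF k).obj Y) Y 1 := (coS_shortExact k Y).extClass
    let a : Ext X ((Qn k m).obj N) n := eN k ((Qn k m).obj N) n
    let b : Ext ((Qn k m).obj N) N m := eN k N m
    let c : Ext Y N (m + n) := eN k N (m + n)
    have hnat : eX.comp (Ext.mk₀ φ) (add_zero 1) =
      (Ext.mk₀ ((QF k).map φ)).comp eY (zero_add 1) := h83_coS_nat k φ
    have ih' : a.comp b (Nat.add_comm n m) = (Ext.mk₀ φ).comp c (zero_add (m + n)) := ih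
    have key : (eX.comp a (Nat.add_comm 1 n)).comp b (Nat.add_comm (n + 1) m) =
        (Ext.mk₀ ((QF k).map φ)).comp (eY.comp c (Nat.add_comm 1 (m + n)))
          (zero_add (m + n + 1)) := by
      calc (eX.comp a (Nat.add_comm 1 n)).comp b (Nat.add_comm (n + 1) m)
          = eX.comp (a.comp b (Nat.add_comm n m)) (show 1 + (m + n) = m + (n + 1) by omega) :=
            Ext.comp_assoc _ _ _ (Nat.add_comm 1 n) (Nat.add_comm n m) (by omega)
        _ = eX.comp ((Ext.mk₀ φ).comp c (zero_add (m + n)))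
              (show 1 + (m + n) = m + (n + 1) by omega) := by rw [ih']
        _ = (eX.comp (Ext.mk₀ φ) (add_zero 1)).comp c
              (show 1 + (m + n) = m + (n + 1) by omega) :=
            (Ext.comp_assoc_of_second_deg_zero _ _ _ _).symm
        _ = ((Ext.mk₀ ((QF k).map φ)).comp eY (zero_add 1)).comp c
              (show 1 + (m + n) = m + (n + 1) by omega) := by rw [hnat]
        _ = (Ext.mk₀ ((QF k).map φ)).comp (eY.comp c (Nat.add_comm 1 (m + n)))
              (zero_add (m + n + 1)) :=
            Ext.comp_assoc _ _ _ (zero_add 1) (Nat.add_comm 1 (m + n)) (by omega)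
    exact key

end Iter

variable {k : Type u} [Field k] {C : Type u} [Ring C] [Bialgebra k C] [Module.Finite k C]

/-- `q_{m+n}(w z) = Q^n(u)(q_n z)` for `w ∈ Z^m` with morphism `u : k → Q^m k`, `z ∈ T^n`.
Induction on `n`: `con s (w z) = w (con s z)` for `z ∈ T^{n+1}`. -/
theorem qn_mul {m : ℕ} {w : TensorAlgebra k (Du k C)} (hw : w ∈ Zc k C m) (n : ℕ)
    {z : TensorAlgebra k (Du k C)} (hz : z ∈ tg (augK k (Du k C)) n) :
    qn k C (m + n) (w * z) =
      (qIso k (triv k C) m n).hom.hom
        (((Qn k n).map (invHom k (qn k C m w) (qn_inv hw))).hom (qn k C n z)) := by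
  induction n generalizing z with
  | zero =>
    obtain ⟨c, rfl⟩ := tg_zero _ z hz
    have h1 : w * algebraMap k (TensorAlgebra k (Du k C)) c = c • w := by
      rw [← Algebra.commutes, ← Algebra.smul_def]
    have h2 : qn k C 0 (algebraMap k (TensorAlgebra k (Du k C)) c) = c • tone k C := by
      rw [qn_zero, AlgHom.commutes]
      rfl
    rw [h1, h2]
    change qn k C m (c • w) = (invHom k (qn k C m w) (qn_inv hw)).hom (c • tone k C)
    rw [map_smul]
    have h3 : (invHom k (qn k C m w) (qn_inv hw)).hom (c • tone k C) =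
        (invHom k (qn k C m w) (qn_inv hw)).hom (algebraMap k C c • tone k C) := rfl
    rw [h3, map_smul, invHom_tone]
    rfl
  | succ n ih =>
    have hte : te k _ z = 0 := te_tg hz
    change qn k C (m + n + 1) (w * z) = _
    rw [qn_succ, qn_succ]
    change qmk k ((Qn k (m + n)).obj (triv k C)) _ =
      qmk k ((Qn k (m + n)).obj (triv k C)) (((FF k).map (qIso k (triv k C) m n).hom).hom
        (((FF k).map ((Qn k n).map (invHom k (qn k C m w) (qn_inv hw)))).hom
          (Coi.mk k (N := (Qn k n).obj (triv k C)) ((qn k C n) ∘ₗ conL k z))))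
    congr 1
    refine Coi.ext fun s => ?_
    change qn k C (m + n) (con k C s (w * z)) =
      (qIso k (triv k C) m n).hom.hom
        (((Qn k n).map (invHom k (qn k C m w) (qn_inv hw))).hom (qn k C n (con k C s z)))
    rw [con_mul_of_te s w z hte]
    exact ih (con_tg s hz)

/-- The class of a product (`cl_eq`, `qn_mul`, `eN_natural`, `eN_add`). -/
theorem cl_mul {m n c : ℕ} (h : n + m = c) {w z : TensorAlgebra k (Du k C)}
    (hw : w ∈ Zc k C m) (hz : z ∈ Zc k C n) :
    cl k (C := C) c (w * z) = (cl k n z).comp (cl k m w) h := by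
  obtain rfl : c = m + n := by omega
  set u := invHom k (qn k C m w) (qn_inv hw) with hu
  set v := invHom k (qn k C n z) (qn_inv hz) with hv
  have h1 : invHom k (qn k C (m + n) (w * z)) (qn_inv (mul_mem_Zc rfl hw hz)) =
      v ≫ (Qn k n).map u ≫ (qIso k (triv k C) m n).hom := by
    refine ModuleCat.hom_ext (LinearMap.ext fun x => ?_)
    have h2 : ∀ (N : ModuleCat.{u} C) (f g : triv k C ⟶ N), f.hom (tone k C) = g.hom (tone k C) →
        f.hom x = g.hom x := by
      intro N f g hfg
      have hx : x = algebraMap k C (tval k x) • tone k C := triv_eq k x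
      rw [hx, map_smul, map_smul, hfg]
    refine h2 _ _ _ ?_
    rw [invHom_tone, qn_mul hw n hz.1]
    change _ = (qIso k (triv k C) m n).hom.hom (((Qn k n).map u).hom (v.hom (tone k C)))
    rw [hv, invHom_tone]
  rw [cl_eq (mul_mem_Zc rfl hw hz), cl_eq hw, cl_eq hz, h1, ← hu, ← hv]
  rw [← Ext.mk₀_comp_mk₀_assoc, ← Ext.mk₀_comp_mk₀_assoc, ← eN_add]
  rw [Ext.comp_assoc (Ext.mk₀ v) (eN k (triv k C) n) _ (zero_add n) (Nat.add_comm n m) (by omega),
    ← Ext.comp_assoc_of_second_deg_zero (eN k (triv k C) n) (Ext.mk₀ u), ← eN_natural,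
    Ext.comp_assoc (Ext.mk₀ ((Qn k n).map u)) (eN k ((Qn k m).obj (triv k C)) n) _ (zero_add n)
      (Nat.add_comm n m) (by omega)]

end Pool.Agent.H26.FG
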