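import Pool.Agent.H26.FG.ExtInd

/-!
# Module ResL: restriction maps on Ext for homomorphisms of augmented algebras
-/

open CategoryTheory Abelian
open scoped ModuleCat

universe u

namespace Pool.Agent.H26.FG

variable {k : Type u} [Field k] {A C D : Type u} [Ring A] [Algebra k A] [Ring C] [Algebra k C]
  [Ring D] [Algebra k D] {εA : A →ₐ[k] k} {εC : C →ₐ[k] k} {εD : D →ₐ[k] k}
  (f : A →ₐ[k] C) (h : εC.comp f = εA) (g : C →ₐ[k] D) (h' : εD.comp g = εC)

/-- The functor `resF` is `k`-linear. -/
instance resF_linear : (resF f.toRingHom).Linear k where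
  map_smul φ c := by
    ext x
    change algebraMap k C c • φ.hom x = f (algebraMap k A c) • φ.hom x
    rw [f.commutes]

/-- `trvIso` is the identity of `k`. -/
lemma trvIso_hom_apply (x : trv εA) : (trvIso εA εC f h).hom.hom x = (x : k) := by
  subst h
  rfl

lemma resX_add {N : ModuleCat.{u} C} {n : ℕ} (x y : Ext (trv εC) N n) :
    resX f h (x + y) = resX f h x + resX f h y := by
  unfold resX
  rw [Ext.mapExactFunctor_add, Ext.comp_add]

lemma resX_smul {N : ModuleCat.{u} C} {n : ℕ} (c : k) (x : Ext (trv εC) N n) :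
    resX f h (c • x) = c • resX f h x := by
  unfold resX
  rw [Functor.mapExactFunctor_smul, Ext.comp_smul]

lemma resX_zero {N : ModuleCat.{u} C} {n : ℕ} : resX f h (0 : Ext (trv εC) N n) = 0 := by
  unfold resX
  rw [Ext.mapExactFunctor_zero, Ext.comp_zero]

lemma resK_add {n : ℕ} (x y : Ext (trv εC) (trv εC) n) :
    resK f h (x + y) = resK f h x + resK f h y := by
  unfold resK
  rw [resX_add, Ext.add_comp]

lemma resK_smul {n : ℕ} (c : k) (x : Ext (trv εC) (trv εC) n) :
    resK f h (c • x) = c • resK f h x := by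
  unfold resK
  rw [resX_smul, Ext.smul_comp]

lemma resK_zero {n : ℕ} : resK f h (0 : Ext (trv εC) (trv εC) n) = 0 := by
  unfold resK
  rw [resX_zero, Ext.zero_comp]

lemma resK_one : resK f h (Ext.mk₀ (𝟙 (trv εC))) = Ext.mk₀ (𝟙 (trv εA)) := by
  unfold resK resX
  rw [Ext.mapExactFunctor_mk₀, Ext.mk₀_comp_mk₀, Ext.mk₀_comp_mk₀, CategoryTheory.Functor.map_id,
    Category.comp_id, Iso.hom_inv_id]

/-- Restriction is compatible with precomposition by classes in `Ext_C(k,k)`. -/
lemma resX_comp {N : ModuleCat.{u} C} {a b c : ℕ} (hc : a + b = c)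
    (x : Ext (trv εC) (trv εC) a) (y : Ext (trv εC) N b) :
    resX f h (x.comp y hc) = (resK f h x).comp (resX f h y) hc := by
  unfold resK resX
  rw [Ext.mapExactFunctor_comp]
  have e1 : ∀ (z : Ext (trv εA) ((resF f.toRingHom).obj (trv εC)) a),
      (z.comp (Ext.mk₀ (trvIso εA εC f h).inv) (add_zero a)).comp
        ((Ext.mk₀ (trvIso εA εC f h).hom).comp (y.mapExactFunctor (resF f.toRingHom)) (zero_add b))
        hc = z.comp (y.mapExactFunctor (resF f.toRingHom)) hc := by
    intro z
    rw [Ext.comp_assoc_of_second_deg_zero, ← Ext.comp_assoc_of_second_deg_zero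
      (Ext.mk₀ (trvIso εA εC f h).inv), Ext.mk₀_comp_mk₀, Iso.inv_hom_id, Ext.mk₀_id_comp]
  rw [e1]
  exact (Ext.comp_assoc _ _ _ (zero_add a) hc (by omega)).symm

lemma resK_comp {a b c : ℕ} (hc : a + b = c)
    (x : Ext (trv εC) (trv εC) a) (y : Ext (trv εC) (trv εC) b) :
    resK f h (x.comp y hc) = (resK f h x).comp (resK f h y) hc := by
  change (resX f h (x.comp y hc)).comp _ _ = _
  rw [resX_comp, Ext.comp_assoc_of_third_deg_zero]
  rfl

/-- Restriction is compatible with postcomposition. -/
lemma resX_comp_right {N N' : ModuleCat.{u} C} {a b c : ℕ} (hc : a + b = c)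
    (x : Ext (trv εC) N a) (y : Ext N N' b) :
    resX f h (x.comp y hc) = (resX f h x).comp (y.mapExactFunctor (resF f.toRingHom)) hc := by
  unfold resX
  rw [Ext.mapExactFunctor_comp]
  exact (Ext.comp_assoc _ _ _ (zero_add a) hc (by omega)).symm

omit h in
lemma ResL_rfl {n : ℕ} (x : Ext (trv εC) (trv εC) n) :
    resK (εA := εC.comp f) f rfl x = x.mapExactFunctor (resF f.toRingHom) := by
  unfold resK resX
  refine Eq.trans (Ext.comp_mk₀_id _) ?_
  exact Ext.mk₀_id_comp _

/-- Functoriality. -/
lemma resK_resK {n : ℕ} (x : Ext (trv εD) (trv εD) n) :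
    resK f h (resK g h' x) =
      resK (g.comp f) (by rw [← h, ← h']; rfl) x := by
  subst h'
  subst h
  rw [ResL_rfl, ResL_rfl]
  have i1 : Limits.PreservesFiniteLimits (resF g.toRingHom ⋙ resF f.toRingHom) :=
    inferInstanceAs (Limits.PreservesFiniteLimits (resF (g.comp f).toRingHom))
  have i2 : Limits.PreservesFiniteColimits (resF g.toRingHom ⋙ resF f.toRingHom) :=
    inferInstanceAs (Limits.PreservesFiniteColimits (resF (g.comp f).toRingHom))
  have e1 := map_comp_functor (resF g.toRingHom) (resF f.toRingHom) x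
  exact e1.trans (ResL_rfl (g.comp f) x).symm

lemma resK_id {n : ℕ} (x : Ext (trv εC) (trv εC) n) :
    resK (AlgHom.id k C) rfl x = x :=
  (ResL_rfl (AlgHom.id k C) x).trans (map_id_functor x)

lemma ResL_congr {f' : A →ₐ[k] C} (e : f = f') (h'' : εC.comp f' = εA) {n : ℕ}
    (x : Ext (trv εC) (trv εC) n) : resK f h x = resK f' h'' x := by
  subst e
  rfl

/-- Restriction along an isomorphism of augmented algebras is bijective. -/
lemma resK_bijective (f : A ≃ₐ[k] C) (h : εC.comp f.toAlgHom = εA) (n : ℕ) :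
    Function.Bijective (fun x : Ext (trv εC) (trv εC) n => resK f.toAlgHom h x) := by
  have h2 : εA.comp f.symm.toAlgHom = εC := by
    rw [← h]
    ext x
    change εC (f (f.symm x)) = εC x
    rw [f.apply_symm_apply]
  have e1 : f.toAlgHom.comp f.symm.toAlgHom = AlgHom.id k C := by
    ext x
    exact f.apply_symm_apply x
  have e2 : f.symm.toAlgHom.comp f.toAlgHom = AlgHom.id k A := by
    ext x
    exact f.symm_apply_apply x
  have l1 : ∀ x : Ext (trv εC) (trv εC) n,
      resK f.symm.toAlgHom h2 (resK f.toAlgHom h x) = x := by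
    intro x
    exact (resK_resK _ _ _ _ x).trans ((ResL_congr _ _ e1 rfl x).trans (resK_id x))
  have l2 : ∀ x : Ext (trv εA) (trv εA) n,
      resK f.toAlgHom h (resK f.symm.toAlgHom h2 x) = x := by
    intro x
    exact (resK_resK _ _ _ _ x).trans ((ResL_congr _ _ e2 rfl x).trans (resK_id x))
  exact ⟨Function.LeftInverse.injective l1, Function.RightInverse.surjective l2⟩

end Pool.Agent.H26.FG
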