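import Pool.Agent.H26.FG.Br2
import Pool.Agent.H26.FG.ResL

/-!
# Module Br4: restriction of classes of cocycles
-/

open CategoryTheory Abelian TensorProduct Coalgebra
open scoped ModuleCat

universe u

namespace Pool.Agent.H26.FG

/-- general form of the induction step -/
lemma Br4_step {𝒞 𝒟 : Type*} [Category 𝒞] [Category 𝒟] [Abelian 𝒞] [Abelian 𝒟]
    [HasExt.{u} 𝒞] [HasExt.{u} 𝒟] (F : 𝒞 ⥤ 𝒟) [F.Additive] [Limits.PreservesFiniteLimits F]
    [Limits.PreservesFiniteColimits F]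
    {S : ShortComplex 𝒞} (hS : S.ShortExact) {S' : ShortComplex 𝒟} (hS' : S'.ShortExact)
    (φ : S.map F ⟶ S') {N : 𝒞} {n : ℕ} (e : Ext S.X₁ N n) (e' : Ext S'.X₁ (F.obj N) n)
    (h : (Ext.mk₀ φ.τ₁).comp e' (zero_add n) = e.mapExactFunctor F) :
    (Ext.mk₀ φ.τ₃).comp (hS'.extClass.comp e' (Nat.add_comm 1 n)) (zero_add (n + 1)) =
      (hS.extClass.comp e (Nat.add_comm 1 n)).mapExactFunctor F := by
  have h1 := ShortComplex.ShortExact.extClass_naturality (hS.map_of_exact F) hS' φ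
  rw [Ext.mapExactFunctor_comp, Ext.mapExactFunctor_extClass, ← h]
  have h2 := Ext.comp_assoc (Ext.mk₀ φ.τ₃) hS'.extClass e' (zero_add 1) (Nat.add_comm 1 n)
    (show 0 + 1 + n = n + 1 by omega)
  have h3 := Ext.comp_assoc (hS.map_of_exact F).extClass (Ext.mk₀ φ.τ₁) e' (add_zero 1)
    (zero_add n) (show 1 + 0 + n = n + 1 by omega)
  rw [← h2, ← h1]
  exact h3

/-- general form of the final computation -/
lemma Br4_final {𝒞 𝒟 : Type*} [Category 𝒞] [Category 𝒟] [Abelian 𝒞] [Abelian 𝒟]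
    [HasExt.{u} 𝒞] [HasExt.{u} 𝒟] (F : 𝒞 ⥤ 𝒟) [F.Additive] [Limits.PreservesFiniteLimits F]
    [Limits.PreservesFiniteColimits F]
    {T N : 𝒞} {T' N' N'' : 𝒟} {n : ℕ} (h : T' ≅ F.obj T) (q : T ⟶ N) (e : Ext N T n)
    (R : F.obj N ⟶ N') (e' : Ext N' (F.obj T) n)
    (hR : (Ext.mk₀ R).comp e' (zero_add n) = e.mapExactFunctor F)
    (I : N' ⟶ N'') (e'' : Ext N'' T' n)
    (hI : (Ext.mk₀ I).comp e'' (zero_add n) = e'.comp (Ext.mk₀ h.inv) (add_zero n))
    (q' : T' ⟶ N'') (hq : h.hom ≫ F.map q ≫ R ≫ I = q') :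
    (Ext.mk₀ q').comp e'' (zero_add n) =
      ((Ext.mk₀ h.hom).comp (((Ext.mk₀ q).comp e (zero_add n)).mapExactFunctor F)
        (zero_add n)).comp (Ext.mk₀ h.inv) (add_zero n) := by
  subst hq
  rw [Ext.mapExactFunctor_comp, Ext.mapExactFunctor_mk₀, ← hR]
  have h1 : (Ext.mk₀ (h.hom ≫ F.map q ≫ R ≫ I)).comp e'' (zero_add n) =
      (Ext.mk₀ (h.hom ≫ F.map q ≫ R)).comp ((Ext.mk₀ I).comp e'' (zero_add n))
        (zero_add n) := by
    rw [← Ext.comp_assoc_of_second_deg_zero, Ext.mk₀_comp_mk₀, Category.assoc, Category.assoc]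
  have h2 : (Ext.mk₀ h.hom).comp ((Ext.mk₀ (F.map q)).comp ((Ext.mk₀ R).comp e' (zero_add n))
      (zero_add n)) (zero_add n) = (Ext.mk₀ (h.hom ≫ F.map q ≫ R)).comp e' (zero_add n) := by
    rw [← Ext.comp_assoc_of_second_deg_zero (Ext.mk₀ (F.map q)), Ext.mk₀_comp_mk₀,
      ← Ext.comp_assoc_of_second_deg_zero, Ext.mk₀_comp_mk₀]
  rw [h1, h2, hI]
  exact (Ext.comp_assoc _ _ _ (zero_add n) (add_zero n) (by omega)).symm

section Res

variable (k : Type u) [Field k] {A C : Type u} [Ring A] [Algebra k A] [Ring C] [Algebra k C]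
  (g : A →ₐ[k] C)

/-- The identity `M → res M`. -/
noncomputable def Br4_toR (M : ModuleCat.{u} C) : M →+ (resF g.toRingHom).obj M :=
  AddMonoidHom.id M

lemma Br4_toR_smul (M : ModuleCat.{u} C) (a : A) (x : M) :
    Br4_toR k g M (g a • x) = a • Br4_toR k g M x := rfl

lemma Br4_toR_ksmul (M : ModuleCat.{u} C) (c : k) (x : M) :
    Br4_toR k g M (c • x) = c • Br4_toR k g M x := by
  have h1 : c • x = g (algebraMap k A c) • x := by
    rw [g.commutes, algebraMap_smul]
  rw [h1, Br4_toR_smul, algebraMap_smul]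

/-- `f ↦ f ∘ g`. -/
noncomputable def Br4_rho (M : ModuleCat.{u} C) (f : Coi k M) :
    Coi k ((resF g.toRingHom).obj M) :=
  Coi.mk k
    { toFun := fun a => Br4_toR k g M (f.fn (g a))
      map_add' := fun a b => by rw [map_add, map_add, map_add]
      map_smul' := fun c a => by
        rw [map_smul, map_smul, Br4_toR_ksmul, RingHom.id_apply] }

lemma Br4_rho_fn (M : ModuleCat.{u} C) (f : Coi k M) (a : A) :
    (Br4_rho k g M f).fn a = Br4_toR k g M (f.fn (g a)) := rfl

/-- `res (F M) → F (res M)`. -/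
noncomputable def Br4_F (M : ModuleCat.{u} C) :
    (resF g.toRingHom).obj ((FF k).obj M) ⟶ (FF k).obj ((resF g.toRingHom).obj M) :=
  ConcreteCategory.ofHom (C := ModuleCat.{u} A) (X := (resF g.toRingHom).obj ((FF k).obj M))
    (Y := (FF k).obj ((resF g.toRingHom).obj M))
    { toFun := fun f => Br4_rho k g M f
      map_add' := fun f f' => Coi.ext fun x => map_add (Br4_toR k g M) _ _
      map_smul' := fun a f => Coi.ext fun x => by
        change Br4_toR k g M (Coi.fn (k := k) (N := M) f (g x * g a)) =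
          Br4_toR k g M (Coi.fn (k := k) (N := M) f (g (x * a)))
        rw [map_mul g x a] }

/-- `Q M → Q (res M)`, additive version. -/
noncomputable def Br4_Qadd (M : ModuleCat.{u} C) :
    (QF k).obj M →+ (QF k).obj ((resF g.toRingHom).obj M) :=
  QuotientAddGroup.lift (LinearMap.range (etaL k M)).toAddSubgroup
    (AddMonoidHom.mk' (fun f => qmk k ((resF g.toRingHom).obj M) (Br4_rho k g M f))
      (fun f f' => by
        rw [← map_add]
        congr 1))
    (by
      rintro _ ⟨m, rfl⟩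
      refine (qmk_eq_zero k _ _).2 ⟨Br4_toR k g M m, fun s => ?_⟩
      rfl)

lemma Br4_Qadd_qmk (M : ModuleCat.{u} C) (f : Coi k M) :
    Br4_Qadd k g M (qmk k M f) = qmk k _ (Br4_rho k g M f) := rfl

/-- `res (Q M) → Q (res M)`. -/
noncomputable def Br4_Q (M : ModuleCat.{u} C) :
    (resF g.toRingHom).obj ((QF k).obj M) ⟶ (QF k).obj ((resF g.toRingHom).obj M) :=
  ConcreteCategory.ofHom (C := ModuleCat.{u} A) (X := (resF g.toRingHom).obj ((QF k).obj M))
    (Y := (QF k).obj ((resF g.toRingHom).obj M))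
    { toFun := fun x => Br4_Qadd k g M x
      map_add' := fun x y => map_add (Br4_Qadd k g M) x y
      map_smul' := fun a x => by
        obtain ⟨f, rfl⟩ := qmk_surjective k M x
        change Br4_Qadd k g M (g a • qmk k M f) = a • Br4_Qadd k g M (qmk k M f)
        rw [← qmk_smul, Br4_Qadd_qmk, Br4_Qadd_qmk, ← qmk_smul]
        congr 1
        refine Coi.ext fun x => ?_
        rw [Coi.smul_fn, Br4_rho_fn, Br4_rho_fn, Coi.smul_fn, map_mul g x a] }

lemma Br4_Q_qmk (M : ModuleCat.{u} C) (f : Coi k M) :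
    (Br4_Q k g M).hom (qmk k M f) = qmk k _ (Br4_rho k g M f) := rfl

/-- `res (Q^n N) → Q^n (res N)`. -/
noncomputable def Br4_R (N : ModuleCat.{u} C) : ∀ n : ℕ,
    (resF g.toRingHom).obj ((Qn k n).obj N) ⟶ (Qn k n).obj ((resF g.toRingHom).obj N)
  | 0 => 𝟙 _
  | n + 1 => Br4_Q k g ((Qn k n).obj N) ≫ (QF k).map (Br4_R N n)

lemma Br4_QF_map {N N' : ModuleCat.{u} C} (φ : N ⟶ N') (f : Coi k N) :
    ((QF k).map φ).hom (qmk k N f) = qmk k N' (Coi.mk k (φ.hom.restrictScalars k ∘ₗ f.fn)) := rfl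

lemma Br4_R_succ (N : ModuleCat.{u} C) (n : ℕ) (f : Coi k ((Qn k n).obj N)) :
    (Br4_R k g N (n + 1)).hom (qmk k ((Qn k n).obj N) f) =
      qmk k ((Qn k n).obj ((resF g.toRingHom).obj N))
        (Coi.mk k ((Br4_R k g N n).hom.restrictScalars k ∘ₗ (Br4_rho k g _ f).fn)) := rfl

/-- the morphism of short exact sequences -/
noncomputable def Br4_S (N : ModuleCat.{u} C) (n : ℕ) :
    (coS k ((Qn k n).obj N)).map (resF g.toRingHom) ⟶
      coS k ((Qn k n).obj ((resF g.toRingHom).obj N)) where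
  τ₁ := Br4_R k g N n
  τ₂ := Br4_F k g ((Qn k n).obj N) ≫ (FF k).map (Br4_R k g N n)
  τ₃ := Br4_R k g N (n + 1)
  comm₁₂ := by
    ext x
    refine Coi.ext fun a => ?_
    exact (map_smul (Br4_R k g N n).hom a x).symm
  comm₂₃ := by
    ext x
    rfl

lemma Br4_R_eN (N : ModuleCat.{u} C) (n : ℕ) :
    (Ext.mk₀ (Br4_R k g N n)).comp (eN k ((resF g.toRingHom).obj N) n) (zero_add n) =
      (eN k N n).mapExactFunctor (resF g.toRingHom) := by
  induction n with
  | zero =>
    change (Ext.mk₀ (𝟙 _)).comp (Ext.mk₀ (𝟙 _)) _ = (Ext.mk₀ (𝟙 N)).mapExactFunctor _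
    rw [Ext.mapExactFunctor_mk₀, Ext.mk₀_comp_mk₀, Category.comp_id]
    congr 1
  | succ n ih =>
    change (Ext.mk₀ (Br4_R k g N (n + 1))).comp
      ((coS_shortExact k ((Qn k n).obj ((resF g.toRingHom).obj N))).extClass.comp
        (eN k ((resF g.toRingHom).obj N) n) (Nat.add_comm 1 n)) _ =
      ((coS_shortExact k ((Qn k n).obj N)).extClass.comp (eN k N n)
        (Nat.add_comm 1 n)).mapExactFunctor _
    exact Br4_step (resF g.toRingHom) (coS_shortExact k ((Qn k n).obj N))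
      (coS_shortExact k ((Qn k n).obj ((resF g.toRingHom).obj N))) (Br4_S k g N n)
      (eN k N n) (eN k ((resF g.toRingHom).obj N) n) ih

/-- Restriction of functions from `C` to `A`: `res (F_C N) → F_A (res N)`, `f ↦ f ∘ g`, compatible
with the units, hence a map `res (Q_C N) → Q_A (res N)`. By induction one gets morphisms
`res (Q_C^n N) → Q_A^n (res N)`, compatible with the classes `eN`. The second clause
describes the morphism on `Q^{n+1}`: `[f] ↦ [a ↦ R_n (f (g a))]`. -/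
theorem exists_resQ (N : ModuleCat.{u} C) :
    ∃ R : ∀ n : ℕ, (resF g.toRingHom).obj ((Qn k n).obj N) ⟶
        (Qn k n).obj ((resF g.toRingHom).obj N),
      R 0 = 𝟙 _ ∧
      (∀ (n : ℕ) (f : C →ₗ[k] (Qn k n).obj N) (f' : A →ₗ[k] (Qn k n).obj ((resF g.toRingHom).obj N)),
        (∀ a : A, f' a = (R n).hom (f (g a))) →
        (R (n + 1)).hom (qmk k ((Qn k n).obj N) (Coi.mk k (N := (Qn k n).obj N) f)) =
          qmk k ((Qn k n).obj ((resF g.toRingHom).obj N))
            (Coi.mk k (N := (Qn k n).obj ((resF g.toRingHom).obj N)) f')) ∧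
      ∀ n : ℕ, (Ext.mk₀ (R n)).comp (eN k ((resF g.toRingHom).obj N) n) (zero_add n) =
        (eN k N n).mapExactFunctor (resF g.toRingHom) := by
  refine ⟨Br4_R k g N, rfl, ?_, ?_⟩
  · intro n f f' h
    rw [Br4_R_succ]
    congr 1
    refine Coi.ext fun a => ?_
    exact (h a).symm
  · exact Br4_R_eN k g N

end Res

variable {k : Type u} [Field k] {A C : Type u} [Ring A] [Bialgebra k A] [Module.Finite k A]
  [Ring C] [Bialgebra k C] [Module.Finite k C]

/-- `T(g^*)` maps normalised cocycles to normalised cocycles. -/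
lemma tmap_mem_Zc (g : A →ₐc[k] C) {n : ℕ} {w : TensorAlgebra k (Du k C)} (hw : w ∈ Zc k C n) :
    tmap (Du.map g : Du k C →ₐ[k] Du k A).toLinearMap w ∈ Zc k A n := by
  refine ⟨?_, ?_⟩
  · refine tg_mono ?_ n (tmap_tg _ hw.1)
    rintro _ ⟨f, hf, rfl⟩
    rw [Du.mem_augK]
    change f.fn (g 1) = 0
    rw [map_one]
    exact (Du.mem_augK f).1 hf
  · have h0 : cd k (Du k C) w = 0 := LinearMap.mem_ker.1 hw.2
    have h1 := tmap_cd (Du.map g) w
    rw [h0, map_zero] at h1
    exact LinearMap.mem_ker.2 h1.symm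

lemma Br4_te (g : A →ₐc[k] C) (w : TensorAlgebra k (Du k C)) :
    te k (Du k A) (tmap (Du.map g : Du k C →ₐ[k] Du k A).toLinearMap w) = te k (Du k C) w := by
  have h : (te k (Du k A)).comp (tmap (Du.map g : Du k C →ₐ[k] Du k A).toLinearMap) =
      te k (Du k C) := by
    apply TensorAlgebra.hom_ext
    refine LinearMap.ext fun v => ?_
    simp only [LinearMap.comp_apply, AlgHom.toLinearMap_apply, AlgHom.comp_apply, tmap_ι, te_ι]
  exact DFunLike.congr_fun h w

lemma Br4_con (g : A →ₐc[k] C) (a : A) (w : TensorAlgebra k (Du k C)) :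
    con k A a (tmap (Du.map g : Du k C →ₐ[k] Du k A).toLinearMap w) =
      tmap (Du.map g : Du k C →ₐ[k] Du k A).toLinearMap (con k C (g a) w) := by
  set φ := tmap (Du.map g : Du k C →ₐ[k] Du k A).toLinearMap with hφ
  have hte : ∀ w, te k (Du k A) (φ w) = te k (Du k C) w := fun w => Br4_te g w
  have h : con k A a ∘ₗ φ.toLinearMap = φ.toLinearMap ∘ₗ con k C (g a) := by
    refine tder_unique φ ((Algebra.ofId k _).comp (te k _)) _ _ ?_ ?_ ?_
    · intro x y
      simp only [LinearMap.comp_apply, AlgHom.toLinearMap_apply, AlgHom.comp_apply, map_mul,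
        con_mul, hte]
      rfl
    · intro x y
      simp only [LinearMap.comp_apply, AlgHom.toLinearMap_apply, AlgHom.comp_apply, map_mul,
        con_mul, map_add, AlgHom.commutes]
      rfl
    · intro v
      simp only [LinearMap.comp_apply, AlgHom.toLinearMap_apply, con_ι, AlgHom.commutes]
      rw [hφ, tmap_ι, con_ι]
      rfl
  exact LinearMap.congr_fun h w

lemma Br4_trvIso_inv (g : A →ₐc[k] C) (x : triv k C) :
    tval k (H := A) ((trvIso _ _ (g : A →ₐ[k] C) g.counitAlgHom_comp).inv.hom x) =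
      tval k (H := C) x := by
  have h1 := congrArg (fun φ => φ.hom x)
    (trvIso _ _ (g : A →ₐ[k] C) g.counitAlgHom_comp).inv_hom_id
  have h2 := trvIso_hom_apply (g : A →ₐ[k] C) g.counitAlgHom_comp
    ((trvIso _ _ (g : A →ₐ[k] C) g.counitAlgHom_comp).inv.hom x)
  exact h2.symm.trans h1

lemma Br4_qn (g : A →ₐc[k] C) : ∀ (n : ℕ) (w : TensorAlgebra k (Du k C)),
    ((Qn k n).map (trvIso _ _ (g : A →ₐ[k] C) g.counitAlgHom_comp).inv).hom
      ((Br4_R k (g : A →ₐ[k] C) (triv k C) n).hom (qn k C n w)) =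
      qn k A n (tmap (Du.map g : Du k C →ₐ[k] Du k A).toLinearMap w)
  | 0, w => by
    apply tval_injective k (H := A)
    refine (Br4_trvIso_inv g _).trans ?_
    change tval k (algebraMap k C (te k (Du k C) w) • tone k C) =
      tval k (algebraMap k A (te k (Du k A)
        (tmap (Du.map g : Du k C →ₐ[k] Du k A).toLinearMap w)) • tone k A)
    rw [tval_smul, tval_smul, tval_tone, tval_tone, Bialgebra.counit_algebraMap,
      Bialgebra.counit_algebraMap, Br4_te]
  | n + 1, w => by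
    rw [qn_succ, Br4_R_succ]
    change ((QF k).map ((Qn k n).map _)).hom _ = _
    rw [Br4_QF_map, qn_succ]
    congr 1
    refine Coi.ext fun a => ?_
    change ((Qn k n).map (trvIso _ _ (g : A →ₐ[k] C) g.counitAlgHom_comp).inv).hom
      ((Br4_R k (g : A →ₐ[k] C) (triv k C) n).hom (qn k C n (con k C (g a) w))) =
      qn k A n (con k A a (tmap (Du.map g : Du k C →ₐ[k] Du k A).toLinearMap w))
    rw [Br4_qn g n, Br4_con]

/-- `cl_A(T(g^*) w) = res_g (cl_C w)`: `con a (T(g^*) w) = T(g^*) (con (g a) w)`, so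
`q^A_n(T(g^*) w) = R_n (q^C_n w)` with the morphisms `R` of `exists_resQ`. -/
theorem cl_res (g : A →ₐc[k] C) {n : ℕ} {w : TensorAlgebra k (Du k C)} (hw : w ∈ Zc k C n) :
    cl k (C := A) n (tmap (Du.map g : Du k C →ₐ[k] Du k A).toLinearMap w) =
      res g (cl k (C := C) n w) := by
  rw [cl_eq hw, cl_eq (tmap_mem_Zc g hw)]
  refine Br4_final (resF (g : A →ₐ[k] C).toRingHom)
    (trvIso _ _ (g : A →ₐ[k] C) g.counitAlgHom_comp) (invHom k (qn k C n w) (qn_inv hw))
    (eN k (triv k C) n) (Br4_R k (g : A →ₐ[k] C) (triv k C) n)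
    (eN k ((resF (g : A →ₐ[k] C).toRingHom).obj (triv k C)) n)
    (Br4_R_eN k (g : A →ₐ[k] C) (triv k C) n)
    ((Qn k n).map (trvIso _ _ (g : A →ₐ[k] C) g.counitAlgHom_comp).inv)
    (eN k (triv k A) n) (eN_natural k _ n) _ ?_
  refine ModuleCat.hom_ext (LinearMap.ext fun x => ?_)
  have hx : x = algebraMap k A (tval k x) • tone k A := by
    apply tval_injective k (H := A)
    rw [tval_smul, tval_tone, Bialgebra.counit_algebraMap, mul_one]
  rw [hx, map_smul, map_smul, invHom_tone]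
  congr 1
  have h1 : (trvIso _ _ (g : A →ₐ[k] C) g.counitAlgHom_comp).hom.hom (tone k A) = tone k C :=
    trvIso_hom_apply (g : A →ₐ[k] C) g.counitAlgHom_comp (tone k A)
  change ((Qn k n).map (trvIso _ _ (g : A →ₐ[k] C) g.counitAlgHom_comp).inv).hom
      ((Br4_R k (g : A →ₐ[k] C) (triv k C) n).hom ((invHom k (qn k C n w) (qn_inv hw)).hom
        ((trvIso _ _ (g : A →ₐ[k] C) g.counitAlgHom_comp).hom.hom (tone k A)))) = _
  rw [h1, invHom_tone, Br4_qn]

end Pool.Agent.H26.FG
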