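import Pool.Agent.H26.FG.Du

/-!
# Definitions for the bridge between the cobar complex of `Du k C` and `Ext_C(k, k)`
-/

open CategoryTheory Abelian TensorProduct Coalgebra
open scoped ModuleCat

universe u

namespace Pool.Agent.H26.FG

section Qmk

variable (k : Type u) [Field k] {C : Type u} [Ring C] [Algebra k C]

/-- The projection `F(N) → Q(N)` on elements. -/
noncomputable def qmk (N : ModuleCat.{u} C) : Coi k N →+ (QF k).obj N :=
  (Submodule.mkQ (LinearMap.range (etaL k N))).toAddMonoidHom

lemma qmk_surjective (N : ModuleCat.{u} C) : Function.Surjective (qmk k N) :=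
  Submodule.mkQ_surjective _

lemma qmk_eq_zero (N : ModuleCat.{u} C) (f : Coi k N) :
    qmk k N f = 0 ↔ ∃ n : N, ∀ s : C, f.fn s = s • n := by
  constructor
  · intro h
    obtain ⟨n, hn⟩ := (Submodule.Quotient.mk_eq_zero _).1 h
    exact ⟨n, fun s => by rw [← hn]; rfl⟩
  · rintro ⟨n, hn⟩
    exact (Submodule.Quotient.mk_eq_zero _).2 ⟨n, Coi.ext fun s => (hn s).symm⟩

lemma qmk_smul (N : ModuleCat.{u} C) (c : C) (f : Coi k N) : qmk k N (c • f) = c • qmk k N f := rfl

lemma prT_app (N : ModuleCat.{u} C) (f : Coi k N) : ((prT k).app N).hom f = qmk k N f := rfl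

end Qmk

variable (k : Type u) [Field k] (C : Type u) [Ring C] [Bialgebra k C]

/-- Contraction of the last tensor factor with `s`:
`con s (w z) = w (con s z) + (con s w) ε(z)`, `con s h = h(s)`. -/
noncomputable def con (s : C) :
    TensorAlgebra k (Du k C) →ₗ[k] TensorAlgebra k (Du k C) :=
  tder (AlgHom.id k _) ((Algebra.ofId k _).comp (te k _))
    ((Algebra.linearMap k (TensorAlgebra k (Du k C))) ∘ₗ (LinearMap.applyₗ s) ∘ₗ
      (Du.eqv k C).toLinearMap)

variable {C}

@[simp] lemma con_ι (s : C) (h : Du k C) :
    con k C s (TensorAlgebra.ι k h) = algebraMap k _ (h.fn s) := tder_ι _ _ _ _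

lemma con_mul (s : C) (w z : TensorAlgebra k (Du k C)) :
    con k C s (w * z) = con k C s w * algebraMap k _ (te k _ z) + w * con k C s z :=
  tder_mul _ _ _ _ _

@[simp] lemma con_one (s : C) : con k C s 1 = 0 := tder_one _ _ _

@[simp] lemma con_algebraMap (s : C) (c : k) : con k C s (algebraMap k _ c) = 0 :=
  tder_algebraMap _ _ _ _

lemma con_add_left (s t : C) (w : TensorAlgebra k (Du k C)) :
    con k C (s + t) w = con k C s w + con k C t w := by
  have h : con k C (s + t) = con k C s + con k C t := by
    refine tder_unique (AlgHom.id k _) ((Algebra.ofId k _).comp (te k _)) _ _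
      (fun a b => tder_mul _ _ _ _ _) (fun a b => ?_) (fun v => ?_)
    · rw [LinearMap.add_apply, LinearMap.add_apply, LinearMap.add_apply]
      rw [con, con, tder_mul, tder_mul]
      simp only [AlgHom.coe_id, id_eq]
      noncomm_ring
    · rw [LinearMap.add_apply, con_ι, con_ι, con_ι, map_add, map_add]
  rw [h]; rfl

lemma con_smul_left (c : k) (s : C) (w : TensorAlgebra k (Du k C)) :
    con k C (c • s) w = c • con k C s w := by
  have h : con k C (c • s) = c • con k C s := by
    refine tder_unique (AlgHom.id k _) ((Algebra.ofId k _).comp (te k _)) _ _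
      (fun a b => tder_mul _ _ _ _ _) (fun a b => ?_) (fun v => ?_)
    · rw [LinearMap.smul_apply, LinearMap.smul_apply, LinearMap.smul_apply]
      rw [con, tder_mul]
      simp only [AlgHom.coe_id, id_eq, smul_add, smul_mul_assoc, mul_smul_comm]
    · rw [LinearMap.smul_apply, con_ι, con_ι, map_smul, smul_eq_mul, map_mul, Algebra.smul_def]
  rw [h]; rfl

/-- `con` as a linear map in the element `s`. -/
noncomputable def conL (w : TensorAlgebra k (Du k C)) : C →ₗ[k] TensorAlgebra k (Du k C) where
  toFun s := con k C s w
  map_add' s t := con_add_left k s t w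
  map_smul' c s := con_smul_left k c s w

@[simp] lemma conL_apply (w : TensorAlgebra k (Du k C)) (s : C) : conL k w s = con k C s w := rfl

variable (C)

/-- The map `q_n : T(Du C) → Q^n k`: `q_0 = te`, `q_{n+1} w = [s ↦ q_n (con s w)]`. -/
noncomputable def qn : (n : ℕ) → (TensorAlgebra k (Du k C) →ₗ[k] (Qn k n).obj (triv k C))
  | 0 =>
    { toFun := fun w => te k (Du k C) w • tone k C
      map_add' := fun w z => by rw [map_add, add_smul]; rfl
      map_smul' := fun c w => by rw [map_smul, smul_eq_mul, mul_smul]; rfl }
  | n + 1 =>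
    { toFun := fun w => qmk k ((Qn k n).obj (triv k C))
        (Coi.mk k (N := (Qn k n).obj (triv k C)) ((qn n) ∘ₗ conL k w))
      map_add' := fun w z => by
        refine Eq.trans ?_ (map_add (qmk k ((Qn k n).obj (triv k C))) _ _)
        congr 1
        refine Coi.ext fun s => ?_
        simp only [Coi.fn_mk, Coi.fn_add, LinearMap.comp_apply, LinearMap.add_apply, conL_apply,
          map_add]
      map_smul' := fun c w => by
        refine Eq.trans ?_ (qmk_smul k ((Qn k n).obj (triv k C)) (algebraMap k C c) _)
        congr 1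
        refine Coi.ext fun s => ?_
        rw [Coi.smul_fn]
        simp only [Coi.fn_mk, LinearMap.comp_apply, conL_apply, map_smul]
        rw [← Algebra.commutes, ← Algebra.smul_def, con_smul_left, map_smul] }

lemma qn_zero (w : TensorAlgebra k (Du k C)) :
    qn k C 0 w = te k (Du k C) w • tone k C := rfl

lemma qn_succ (n : ℕ) (w : TensorAlgebra k (Du k C)) : qn k C (n + 1) w =
    qmk k ((Qn k n).obj (triv k C))
      (Coi.mk k (N := (Qn k n).obj (triv k C)) ((qn k C n) ∘ₗ conL k w)) := rfl

variable {C}

/-- The morphism `k → N` given by an invariant element. -/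
noncomputable def invHom {N : ModuleCat.{u} C} (m : N)
    (h : ∀ c : C, c • m = counit (R := k) c • m) : triv k C ⟶ N :=
  ConcreteCategory.ofHom (C := ModuleCat.{u} C) (X := triv k C)
    { toFun := fun x => tval k x • m
      map_add' := fun x y => by rw [map_add, add_smul]
      map_smul' := fun c x => by
        rw [tval_smul, mul_smul, RingHom.id_apply, smul_comm c, h c, smul_comm] }

lemma invHom_tone {N : ModuleCat.{u} C} (m : N) (h : ∀ c : C, c • m = counit (R := k) c • m) :
    (invHom k m h).hom (tone k C) = m := by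
  change tval k (tone k C) • m = m
  rw [tval_tone, one_smul]

/-- Normalised cocycles of degree `n`. -/
noncomputable def Zc (C : Type u) [Ring C] [Bialgebra k C] [Module.Finite k C] (n : ℕ) :
    Submodule k (TensorAlgebra k (Du k C)) :=
  tg (augK k (Du k C)) n ⊓ LinearMap.ker (cd k (Du k C))

open Classical in
/-- The class in `Ext^n(k, k)` of a normalised cocycle (junk value `0` otherwise). -/
noncomputable def cl (n : ℕ) (w : TensorAlgebra k (Du k C)) : Ext (triv k C) (triv k C) n :=
  if h : ∀ c : C, c • qn k C n w = counit (R := k) c • qn k C n w then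
    (Ext.mk₀ (invHom k (qn k C n w) h)).comp (eN k (triv k C) n) (zero_add n)
  else 0

/-- The element of `T²(Du C)` of a bilinear form. -/
noncomputable def elem₂ [Module.Finite k C] (F : C →ₗ[k] C →ₗ[k] k) : TensorAlgebra k (Du k C) :=
  LinearMap.mul' k (TensorAlgebra k (Du k C))
    (TensorProduct.map (TensorAlgebra.ι k) (TensorAlgebra.ι k)
      ((Du.ev2 k C).symm (TensorProduct.lift F)))

end Pool.Agent.H26.FG
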