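import Pool.Agent.H26.FG.GOpA

/-!
# Module Nil: change of generators
-/

universe u w

namespace Pool.Agent.H26.FG.GOp

variable {k : Type u} [Field k] {I : Type w} {m : I → ℕ}

/-- `op j` commutes with the powers of `op i`. -/
lemma h96_word_comm (E : GOp k I m) (i j : I)
    (hij : ∀ (a b c d : ℕ) (h1 : m i + a = b) (h2 : m j + b = d) (h3 : m j + a = c)
      (h4 : m i + c = d) (v : E.V a), E.op j h2 (E.op i h1 v) = E.op i h4 (E.op j h3 v)) :
    ∀ (q a b c d : ℕ) (h1 : ((List.replicate q i).map m).sum + a = b) (h2 : m j + b = d)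
      (h3 : m j + a = c) (h4 : ((List.replicate q i).map m).sum + c = d) (v : E.V a),
      E.op j h2 (E.word (List.replicate q i) h1 v) =
        E.word (List.replicate q i) h4 (E.op j h3 v) := by
  intro q
  induction q with
  | zero =>
    intro a b c d h1 h2 h3 h4 v
    obtain rfl : a = b := by simpa using h1
    obtain rfl : c = d := by simpa using h4
    rfl
  | succ q ih =>
    intro a b c d h1 h2 h3 h4 v
    subst h3
    have e1 : m i + (((List.replicate q i).map m).sum + a) = b := by
      simp only [List.replicate_succ, List.map_cons, List.sum_cons] at h1; omega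
    have e2 : m i + (((List.replicate q i).map m).sum + (m j + a)) = d := by
      simp only [List.replicate_succ, List.map_cons, List.sum_cons] at h4; omega
    change E.op j h2 (E.op i e1 (E.word (List.replicate q i) rfl v)) =
      E.op i e2 (E.word (List.replicate q i) rfl (E.op j rfl v))
    rw [hij _ _ (((List.replicate q i).map m).sum + (m j + a)) _ e1 h2 (by omega) e2,
      ih a _ (m j + a) (((List.replicate q i).map m).sum + (m j + a)) rfl (by omega) rfl rfl v]

/-- The span of the values of the `q`-th power of `op i`. -/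
def h96_Rg (E : GOp k I m) (i : I) (q n : ℕ) : Submodule k (E.V n) :=
  Submodule.span k {z | ∃ (a : ℕ) (h : ((List.replicate q i).map m).sum + a = n) (v : E.V a),
    E.word (List.replicate q i) h v = z}

/-- Iteration: if `V = op i V + G` in high degrees and `G` is stable under `op i`, then
`V = (op i)^q V + G` in high degrees. -/
lemma h96_iter (E : GOp k I m) (i : I) (G : ∀ n, Submodule k (E.V n))
    (hG : ∀ (a b : ℕ) (h : m i + a = b), ∀ v ∈ G a, E.op i h v ∈ G b)
    (n₀ : ℕ) (hn : ∀ n, n₀ < n → ⊤ ≤ E.Gen {i} (fun _ => ⊤) n ⊔ G n) (q : ℕ) :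
    ∃ N : ℕ, ∀ n, N < n → ⊤ ≤ E.h96_Rg i q n ⊔ G n := by
  induction q with
  | zero =>
    refine ⟨0, fun n _ v _ => ?_⟩
    refine Submodule.mem_sup_left (Submodule.subset_span ⟨n, by simp, v, ?_⟩)
    rfl
  | succ q ih =>
    obtain ⟨N, hN⟩ := ih
    refine ⟨max n₀ (N + m i), fun n hn' => (hn n (by omega)).trans (sup_le ?_ le_sup_right)⟩
    refine Submodule.span_le.2 ?_
    rintro z ⟨j, hj, a, h, w, -, rfl⟩
    obtain rfl : j = i := hj
    obtain ⟨r, hr, g, hg, hw⟩ := Submodule.mem_sup.1 (hN a (by omega) (Submodule.mem_top (x := w)))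
    rw [← hw, map_add]
    refine Submodule.add_mem _ ?_ (Submodule.mem_sup_right (hG a n h g hg))
    refine Submodule.mem_sup_left ?_
    have h1 : E.h96_Rg j q a ≤ (E.h96_Rg j (q + 1) n).comap (E.op j h) := by
      refine Submodule.span_le.2 ?_
      rintro z ⟨a', h', v, rfl⟩
      subst h'
      refine Submodule.subset_span ⟨a', ?_, v, ?_⟩
      · simp only [List.replicate_succ, List.map_cons, List.sum_cons]
        omega
      · rfl
    exact h1 hr

/-- Elimination of a finite set of operators, some power of which maps into the graded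
subspace `G`, stable under these operators. -/
lemma h96_core (E : GOp k I m) (G : ∀ n, Submodule k (E.V n)) (S : Set I) (hS : S.Finite) :
    E.Comm S → E.Stable S G →
    (∀ i ∈ S, ∃ q : ℕ, ∀ (a b : ℕ) (h : ((List.replicate q i).map m).sum + a = b)
      (v : E.V a), E.word (List.replicate q i) h v ∈ G b) →
    (∃ n₀ : ℕ, ∀ n, n₀ < n → ⊤ ≤ E.Gen S (fun _ => ⊤) n ⊔ G n) →
    ∃ n₀ : ℕ, ∀ n, n₀ < n → ⊤ ≤ G n := by
  induction S, hS using Set.Finite.induction_on with
  | empty =>
    rintro - - - ⟨n₀, hn⟩
    refine ⟨n₀, fun n hn' => (hn n hn').trans (sup_le ?_ le_rfl)⟩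
    refine Submodule.span_le.2 ?_
    rintro z ⟨i, hi, -⟩
    exact absurd hi (Set.notMem_empty i)
  | @insert i S hi hS ih =>
    intro hc hG hq hn
    obtain ⟨n₀, hn⟩ := hn
    have hsub : S ⊆ insert i S := Set.subset_insert i S
    have hii : i ∈ insert i S := Set.mem_insert i S
    refine ih (fun a ha b hb => hc a (hsub ha) b (hsub hb)) (fun a ha => hG a (hsub ha))
      (fun a ha => hq a (hsub ha)) ?_
    obtain ⟨q, hq⟩ := hq i hii
    obtain ⟨N, hN⟩ := h96_iter E i (fun n => E.Gen S (fun _ => ⊤) n ⊔ G n) (by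
      intro a b h v hv
      have h1 : E.Gen S (fun _ => ⊤) a ⊔ G a ≤
          (E.Gen S (fun _ => ⊤) b ⊔ G b).comap (E.op i h) := by
        refine sup_le (Submodule.span_le.2 ?_) ?_
        · rintro z ⟨j, hj, c, h', w, -, rfl⟩
          refine Submodule.mem_sup_left (Submodule.subset_span
            ⟨j, hj, m i + c, by omega, E.op i rfl w, Submodule.mem_top, ?_⟩)
          exact hc i hii j (hsub hj) c (m i + c) a b rfl (by omega) h' h w
        · intro z hz
          exact Submodule.mem_sup_right (hG i hii a b h z hz)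
      exact h1 hv) n₀ (by
      intro n hn'
      refine (hn n hn').trans (sup_le (Submodule.span_le.2 ?_) ?_)
      · rintro z ⟨j, hj | hj, c, h', w, hw, rfl⟩
        · exact Submodule.mem_sup_left (Submodule.subset_span ⟨j, hj, c, h', w, hw, rfl⟩)
        · exact Submodule.mem_sup_right (Submodule.mem_sup_left
            (Submodule.subset_span ⟨j, hj, c, h', w, hw, rfl⟩))
      · exact le_sup_right.trans le_sup_right) q
    refine ⟨N, fun n hn' => (hN n hn').trans (sup_le (Submodule.span_le.2 ?_) le_rfl)⟩
    rintro z ⟨a, h, v, rfl⟩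
    exact Submodule.mem_sup_right (hq a n h v)

/-- Suppose `E` is generated in bounded degrees over the finite commuting set `S`, and for every
`i ∈ S` some power `(op i)^q` maps `E` into the part generated by the operators in `T`, which
commute with those in `S`. Then `E` is generated in bounded degrees over `T`.
Proof: for large `n` every element of `E.V n` is a sum of words of length `> ∑ (q_i - 1)` in the
operators in `S`, applied to elements; by commutativity some `(op i)^{q_i}` can be applied
last. -/
theorem GF_of_nil (E : GOp k I m) (S T : Set I) (hS : S.Finite) (hpos : ∀ i ∈ S, 0 < m i)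
    (hc : E.Comm S)
    (hnil : ∀ i ∈ S, ∃ q : ℕ, ∀ (a b : ℕ) (h : ((List.replicate q i).map m).sum + a = b)
      (v : E.V a), E.word (List.replicate q i) h v ∈ E.Gen T (fun _ => ⊤) b)
    (h : E.GF S) : E.GF T := by
  classical
  obtain ⟨n₀, hn⟩ := h
  choose! q hq using hnil
  obtain ⟨N, hN⟩ := h96_core E (fun n => Submodule.span k {z | ∃ i ∈ S, ∃ (a : ℕ)
      (h : ((List.replicate (q i) i).map m).sum + a = n) (v : E.V a),
      E.word (List.replicate (q i) i) h v = z}) S hS hc (by
    intro j hj a b h v hv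
    have h1 : Submodule.span k {z | ∃ i ∈ S, ∃ (c : ℕ)
        (h : ((List.replicate (q i) i).map m).sum + c = a) (v : E.V c),
        E.word (List.replicate (q i) i) h v = z} ≤
        (Submodule.span k {z | ∃ i ∈ S, ∃ (c : ℕ)
        (h : ((List.replicate (q i) i).map m).sum + c = b) (v : E.V c),
        E.word (List.replicate (q i) i) h v = z}).comap (E.op j h) := by
      refine Submodule.span_le.2 ?_
      rintro z ⟨i, hi, c, h', w, rfl⟩
      refine Submodule.subset_span ⟨i, hi, m j + c, by omega, E.op j rfl w, ?_⟩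
      exact (h96_word_comm E i j (fun a b c d h1 h2 h3 h4 v => hc i hi j hj a b c d h1 h2 h3 h4 v)
        (q i) c a (m j + c) b h' h rfl (by omega) w).symm
    exact h1 hv) (by
    intro i hi
    exact ⟨q i, fun a b h v => Submodule.subset_span ⟨i, hi, a, h, v, rfl⟩⟩)
    ⟨n₀, fun n hn' => (hn n hn').trans le_sup_left⟩
  refine ⟨N, fun n hn' => (hN n hn').trans (Submodule.span_le.2 ?_)⟩
  rintro z ⟨i, hi, a, h, v, rfl⟩
  exact hq i hi a n h v

/-- `GF` over `S ∪ T` can be checked modulo `T`: if some power of each operator in `S` maps `E`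
into the part generated by `T`, and `E` is `GF` over `S ∪ T`, everything commuting. -/
theorem GF_of_nil_union (E : GOp k I m) (S T : Set I) (hS : S.Finite) (hpos : ∀ i ∈ S, 0 < m i)
    (hc : E.Comm (S ∪ T))
    (hnil : ∀ i ∈ S, ∃ q : ℕ, ∀ (a b : ℕ) (h : ((List.replicate q i).map m).sum + a = b)
      (v : E.V a), E.word (List.replicate q i) h v ∈ E.Gen T (fun _ => ⊤) b)
    (h : E.GF (S ∪ T)) : E.GF T := by
  obtain ⟨n₀, hn⟩ := h
  refine h96_core E (fun n => E.Gen T (fun _ => ⊤) n) S hS
    (fun a ha b hb => hc a (Or.inl ha) b (Or.inl hb)) ?_ hnil ⟨n₀, fun n hn' => ?_⟩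
  · intro j hj a b h v hv
    have h1 : E.Gen T (fun _ => ⊤) a ≤ (E.Gen T (fun _ => ⊤) b).comap (E.op j h) := by
      refine Submodule.span_le.2 ?_
      rintro z ⟨i, hi, c, h', w, -, rfl⟩
      refine Submodule.subset_span ⟨i, hi, m j + c, by omega, E.op j rfl w, Submodule.mem_top, ?_⟩
      exact hc j (Or.inl hj) i (Or.inr hi) c (m j + c) a b rfl (by omega) h' h w
    exact h1 hv
  · refine (hn n hn').trans (Submodule.span_le.2 ?_)
    rintro z ⟨i, hi | hi, a, h, w, hw, rfl⟩
    · exact Submodule.mem_sup_left (Submodule.subset_span ⟨i, hi, a, h, w, hw, rfl⟩)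
    · exact Submodule.mem_sup_right (Submodule.subset_span ⟨i, hi, a, h, w, hw, rfl⟩)

end Pool.Agent.H26.FG.GOp
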