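import Pool.Agent.H26.FG.TrC

/-!
# Module TrA: transgression on Ext classes
-/

open CategoryTheory Abelian TensorProduct Coalgebra
open scoped ModuleCat

universe u

namespace Pool.Agent.H26.FG

variable {k : Type u} [Field k] {A C D : Type u} [Ring A] [Bialgebra k A] [Module.Finite k A]
  [Ring C] [Bialgebra k C] [Module.Finite k C] [Ring D] [Bialgebra k D] [Module.Finite k D]

lemma TrA_comp {X Y Z : Type u} [Ring X] [Bialgebra k X] [Module.Finite k X] [Ring Y]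
    [Bialgebra k Y] [Module.Finite k Y] [Ring Z] [Bialgebra k Z] [Module.Finite k Z]
    (f : X →ₐc[k] Y) (g : Y →ₐc[k] Z) (h : X →ₐc[k] Z) (hfg : ∀ a, g (f a) = h a)
    (y : TensorAlgebra k (Du k Z)) :
    tmap (Du.map h : Du k Z →ₐ[k] Du k X).toLinearMap y =
      tmap (Du.map f : Du k Y →ₐ[k] Du k X).toLinearMap
        (tmap (Du.map g : Du k Z →ₐ[k] Du k Y).toLinearMap y) := by
  rw [CoBa_tmap_comp]
  congr 1
  congr 1
  refine LinearMap.ext fun φ => Du.ext fun a => ?_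
  change φ.fn (h a) = φ.fn (g (f a))
  rw [hfg]

lemma TrA_aug {X Y : Type u} [Ring X] [Bialgebra k X] [Module.Finite k X] [Ring Y]
    [Bialgebra k Y] [Module.Finite k Y] (f : X →ₐc[k] Y) {n : ℕ}
    {y : TensorAlgebra k (Du k Y)} (hy : y ∈ tg (augK k (Du k Y)) n) :
    tmap (Du.map f : Du k Y →ₐ[k] Du k X).toLinearMap y ∈ tg (augK k (Du k X)) n := by
  refine tg_mono ?_ n (tmap_tg _ hy)
  rintro _ ⟨φ, hφ, rfl⟩
  rw [Du.mem_augK]
  change φ.fn (f 1) = 0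
  rw [map_one]
  exact (Du.mem_augK φ).1 hφ

lemma TrA_zero {X Y : Type u} [Ring X] [Bialgebra k X] [Module.Finite k X] [Ring Y]
    [Bialgebra k Y] [Module.Finite k Y] (f : X →ₐc[k] Y)
    (hf : ∀ a, f a = algebraMap k Y (counit (R := k) a)) {n : ℕ} (hn : 0 < n)
    {y : TensorAlgebra k (Du k Y)} (hy : y ∈ tg (augK k (Du k Y)) n) :
    tmap (Du.map f : Du k Y →ₐ[k] Du k X).toLinearMap y = 0 := by
  obtain ⟨m, rfl⟩ := Nat.exists_eq_succ_of_ne_zero hn.ne'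
  refine tg_induction (P := fun y => tmap (Du.map f : Du k Y →ₐ[k] Du k X).toLinearMap y = 0)
    ?_ ?_ y hy
  · intro φ hφ w _
    rw [map_mul, tmap_ι]
    have h0 : (Du.map f : Du k Y →ₐ[k] Du k X).toLinearMap φ = 0 := by
      refine Du.ext fun a => ?_
      change φ.fn (f a) = 0
      have h1 : φ.fn 1 = 0 := (Du.mem_augK φ).1 hφ
      rw [hf, Algebra.algebraMap_eq_smul_one, map_smul, h1, smul_zero]
    rw [h0, map_zero, zero_mul]
  · intro a b ha hb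
    rw [map_add, ha, hb, add_zero]

/-- The case in which `A → C → D` is trivial: `Du.map (π ∘ ι)` kills `augK`, so all terms of positive
degree in `trans_cochain` vanish. Use `cl_pow`, `cl_elem₂`, `cl_res`. -/
theorem trans_triv (p : ℕ) [Fact p.Prime] [CharP k p] (ι : A →ₐc[k] C) (π : C →ₐc[k] D)
    (hπ : Function.Surjective π) (htriv : ∀ a, π (ι a) = algebraMap k D (counit (R := k) a))
    (SD : Set (Cls (triv k D))) (hSD : EvenPos SD)
    (hGN : (EGP k (triv k D) (triv k D)).GN SD)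
    (x₀ : Cocycle₂ (Bialgebra.counitAlgHom k A)) (h1 : x₀.fn 1 1 = 0)
    (F : C →ₗ[k] C →ₗ[k] k) (hF : ∀ a b, F (ι a) (ι b) = x₀.fn a b)
    {n : ℕ} (u v w : Fin n → D →ₗ[k] k)
    (hd : ∀ r s t : C, counit (R := k) r * F s t - F (r * s) t + F r (s * t) -
      F r s * counit (R := k) t = ∑ l, u l (π r) * v l (π s) * w l (π t)) :
    ∃ (M : ℕ) (X : Ext (triv k C) (triv k C) (p ^ M * 2)),
      res ι X = pw (cls₂ x₀) (p ^ M) rfl := by
  obtain ⟨x, hx, hdx, hTx⟩ := exists_cochain_of_form ι π x₀ h1 F hF u v w hd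
  have he0 := elem₂_mem_Zc x₀ h1
  have hx0 : cd k _ (tmap (Du.map ι : Du k C →ₐ[k] Du k A).toLinearMap x) = 0 := by
    rw [hTx]
    exact LinearMap.mem_ker.1 he0.2
  obtain ⟨M, X, γ, y, hX, hγ, hy, heq⟩ := trans_cochain p ι π hπ SD hSD hGN x hx hdx hx0
  have hp : 1 < p := (Fact.out : p.Prime).one_lt
  have hcomp : ∀ a, (π.comp ι) a = algebraMap k D (counit (R := k) a) := htriv
  have hγ0 : ∀ i : Fin M,
      tmap (Du.map (π.comp ι) : Du k D →ₐ[k] Du k A).toLinearMap (γ i) = 0 := by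
    intro i
    refine TrA_zero (π.comp ι) hcomp ?_ (hγ i).1
    have : p ^ (i : ℕ) < p ^ M := Nat.pow_lt_pow_right hp i.2
    omega
  have hy0 : tmap (Du.map (π.comp ι) : Du k D →ₐ[k] Du k A).toLinearMap y = 0 := by
    refine TrA_zero (π.comp ι) hcomp ?_ hy
    have : 0 < p ^ M := Nat.pos_of_ne_zero (pow_ne_zero _ (by omega))
    omega
  simp only [hγ0, hy0, mul_zero, Finset.sum_const_zero, sub_zero, hTx] at heq
  rw [Nat.mul_comm] at hX
  refine ⟨M, cl k (p ^ M * 2) X, ?_⟩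
  rw [← cl_res ι hX, heq, cl_pow he0 (p ^ M) (p ^ M * 2) rfl, cl_elem₂ x₀ h1]

/-- The general case. `A → I → D` the factorisation of `A → C → D`. In `trans_cochain`,
`T(ι^*)` of the cochain `w` is `T(r^*)(T(j^*) w)`, where `T(j^*) w` is a cocycle because `T(r^*)` is
injective and commutes with `d` (and `d` of all other terms vanishes). -/
theorem trans_gen (p : ℕ) [Fact p.Prime] [CharP k p] (ι : A →ₐc[k] C) (π : C →ₐc[k] D)
    (hπ : Function.Surjective π) {I : Type u} [Ring I] [Bialgebra k I] [Module.Finite k I]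
    (r : A →ₐc[k] I) (j : I →ₐc[k] D) (hr : Function.Surjective r)
    (hrj : ∀ a, j (r a) = π (ι a)) (SD : Set (Cls (triv k D))) (hSD : EvenPos SD)
    (hGN : (EGP k (triv k D) (triv k D)).GN SD)
    (x₀ : Cocycle₂ (Bialgebra.counitAlgHom k A)) (h1 : x₀.fn 1 1 = 0)
    (F : C →ₗ[k] C →ₗ[k] k) (hF : ∀ a b, F (ι a) (ι b) = x₀.fn a b)
    {n : ℕ} (u v w : Fin n → D →ₗ[k] k)
    (hd : ∀ r s t : C, counit (R := k) r * F s t - F (r * s) t + F r (s * t) -
      F r s * counit (R := k) t = ∑ l, u l (π r) * v l (π s) * w l (π t)) :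
    ∃ (M : ℕ) (X : Ext (triv k C) (triv k C) (p ^ M * 2))
      (c : ∀ i : Fin M, Ext (triv k D) (triv k D) (p ^ M * 2 - p ^ (i : ℕ) * 2))
      (z : Ext (triv k I) (triv k I) (p ^ M * 2)),
      pw (cls₂ x₀) (p ^ M) rfl = res ι X +
        ∑ i : Fin M, (res ι (res π (c i))).comp (pw (cls₂ x₀) (p ^ (i : ℕ)) rfl)
          (Nat.sub_add_cancel (Nat.mul_le_mul_right 2
            (Nat.pow_le_pow_right (Nat.pos_of_ne_zero (Fact.out : p.Prime).ne_zero)
              i.2.le))) + res r z := by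
  obtain ⟨x, hx, hdx, hTx⟩ := exists_cochain_of_form ι π x₀ h1 F hF u v w hd
  have he0 := elem₂_mem_Zc x₀ h1
  have hx0 : cd k _ (tmap (Du.map ι : Du k C →ₐ[k] Du k A).toLinearMap x) = 0 := by
    rw [hTx]
    exact LinearMap.mem_ker.1 he0.2
  obtain ⟨M, X, γ, y, hX, hγ, hy, heq⟩ := trans_cochain p ι π hπ SD hSD hGN x hx hdx hx0
  rw [hTx] at heq
  rw [Nat.mul_comm] at hX hy
  have hγ' : ∀ i : Fin M, γ i ∈ Zc k D (p ^ M * 2 - p ^ (i : ℕ) * 2) := by
    intro i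
    have h2 := hγ i
    rwa [Nat.mul_comm 2 (p ^ M), Nat.mul_comm 2 (p ^ (i : ℕ))] at h2
  -- degrees
  have hdeg : ∀ i : Fin M, p ^ M * 2 - p ^ (i : ℕ) * 2 + p ^ (i : ℕ) * 2 = p ^ M * 2 := fun i =>
    Nat.sub_add_cancel (Nat.mul_le_mul_right 2
      (Nat.pow_le_pow_right (Nat.pos_of_ne_zero (Fact.out : p.Prime).ne_zero) i.2.le))
  have hpow : ∀ q : ℕ, (elem₂ k x₀.fn) ^ q ∈ Zc k A (q * 2) := fun q =>
    pow_mem_Zc he0 q (q * 2) rfl
  have hTγ : ∀ i : Fin M, tmap (Du.map (π.comp ι) : Du k D →ₐ[k] Du k A).toLinearMap (γ i) ∈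
      Zc k A (p ^ M * 2 - p ^ (i : ℕ) * 2) := fun i => tmap_mem_Zc (π.comp ι) (hγ' i)
  have hprod : ∀ i : Fin M, (elem₂ k x₀.fn) ^ p ^ (i : ℕ) *
      tmap (Du.map (π.comp ι) : Du k D →ₐ[k] Du k A).toLinearMap (γ i) ∈ Zc k A (p ^ M * 2) :=
    fun i => mul_mem_Zc (by rw [Nat.add_comm]; exact hdeg i) (hpow (p ^ (i : ℕ))) (hTγ i)
  have hsum : ∑ i : Fin M, (elem₂ k x₀.fn) ^ p ^ (i : ℕ) *
      tmap (Du.map (π.comp ι) : Du k D →ₐ[k] Du k A).toLinearMap (γ i) ∈ Zc k A (p ^ M * 2) :=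
    Submodule.sum_mem _ fun i _ => hprod i
  have hTX := tmap_mem_Zc ι hX
  -- the remaining term
  have hw : tmap (Du.map (π.comp ι) : Du k D →ₐ[k] Du k A).toLinearMap y ∈ Zc k A (p ^ M * 2) := by
    have h2 : tmap (Du.map (π.comp ι) : Du k D →ₐ[k] Du k A).toLinearMap y =
        (elem₂ k x₀.fn) ^ p ^ M - (∑ i : Fin M, (elem₂ k x₀.fn) ^ p ^ (i : ℕ) *
          tmap (Du.map (π.comp ι) : Du k D →ₐ[k] Du k A).toLinearMap (γ i)) -
        tmap (Du.map ι : Du k C →ₐ[k] Du k A).toLinearMap X := by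
      rw [heq]
      abel
    rw [h2]
    exact Submodule.sub_mem _ (Submodule.sub_mem _ (hpow _) hsum) hTX
  have hsplit := TrA_comp r j (π.comp ι) hrj y
  have hzZ : tmap (Du.map j : Du k D →ₐ[k] Du k I).toLinearMap y ∈ Zc k I (p ^ M * 2) := by
    refine ⟨TrA_aug j hy, LinearMap.mem_ker.2 ?_⟩
    apply tmap_injective (Du.map r : Du k I →ₐ[k] Du k A).toLinearMap (Du.map_injective r hr)
    rw [map_zero, tmap_cd, ← hsplit]
    exact LinearMap.mem_ker.1 hw.2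
  refine ⟨M, cl k (p ^ M * 2) X, fun i => cl k (p ^ M * 2 - p ^ (i : ℕ) * 2) (γ i),
    cl k (p ^ M * 2) (tmap (Du.map j : Du k D →ₐ[k] Du k I).toLinearMap y), ?_⟩
  have hmain : (elem₂ k x₀.fn) ^ p ^ M = tmap (Du.map ι : Du k C →ₐ[k] Du k A).toLinearMap X +
      (∑ i : Fin M, (elem₂ k x₀.fn) ^ p ^ (i : ℕ) *
        tmap (Du.map (π.comp ι) : Du k D →ₐ[k] Du k A).toLinearMap (γ i)) +
      tmap (Du.map r : Du k I →ₐ[k] Du k A).toLinearMap
        (tmap (Du.map j : Du k D →ₐ[k] Du k I).toLinearMap y) := by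
    rw [← hsplit, heq]
    abel
  have hcl := cl_pow he0 (p ^ M) (p ^ M * 2) rfl
  rw [cl_elem₂ x₀ h1] at hcl
  rw [← hcl, hmain, cl_add (Submodule.add_mem _ hTX hsum) (tmap_mem_Zc r hzZ), cl_add hTX hsum,
    cl_res ι hX, cl_res r hzZ, cl_sum _ _ (fun i _ => hprod i)]
  congr 2
  refine Finset.sum_congr rfl fun i _ => ?_
  rw [cl_mul (hdeg i) (hpow (p ^ (i : ℕ))) (hTγ i), cl_pow he0 (p ^ (i : ℕ)) _ rfl,
    cl_elem₂ x₀ h1]
  congr 1
  rw [TrA_comp ι π (π.comp ι) (fun _ => rfl) (γ i), cl_res ι (tmap_mem_Zc π (hγ' i)),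
    cl_res π (hγ' i)]

end Pool.Agent.H26.FG
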