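import Pool.Agent.H26.FG.IfH1
import Pool.Agent.H26.FG.TrA
import Pool.Agent.H26.FG.Nil

/-!
# Module CHa: central extensions of height one
-/

open CategoryTheory Abelian TensorProduct Coalgebra HopfAlgebra
open scoped ModuleCat

universe u

namespace Pool.Agent.H26.FG

variable {k : Type u} [Field k] {A C B : Type u} [Ring A] [HopfAlgebra k A] [Module.Finite k A]
  [Ring C] [HopfAlgebra k C] [Module.Finite k C] [Ring B] [HopfAlgebra k B] [Module.Finite k B]

/-- If the powers `s^q` of the finitely many even classes `s ∈ S` are restrictions of classes in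
`SC` and `Ext_A(k, N)` is noetherian over `S`, then it is noetherian over the restrictions of
`SC` (`GF_of_nil`, `word_replicate`, `comp_mem_Gen`, `GN_of_GF_even`). -/
theorem GN_of_powers (ι : A →ₐc[k] C) (S : Set (Cls (triv k A))) (hS : S.Finite)
    (hS' : EvenPos S) (SC : Set (Cls (triv k C))) (hSC : SC.Finite) (hSC' : EvenPos SC)
    (hpow : ∀ s ∈ S, ∃ (q n : ℕ) (h : q * s.1 = n), (⟨n, pw s.2 q h⟩ : Cls (triv k A)) ∈
      resCls ι '' SC)
    (N : ModuleCat.{u} A) (hN : Module.Finite k N) (h : (EGP k (triv k A) N).GN S) :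
    (EGP k (triv k A) N).GN (resCls ι '' SC) := by
  have hT' : EvenPos (resCls ι '' SC) := by
    rintro _ ⟨s, hs, rfl⟩
    exact hSC' s hs
  refine GN_of_GF_even k A (resCls ι '' SC) (hSC.image _) hT' N hN ?_
  refine GOp.GF_of_nil (EGP k (triv k A) N) S (resCls ι '' SC) hS (fun i hi => (hS' i hi).2)
    (EGP_comm N S hS') ?_ (h (fun _ => ⊤) (fun _ _ _ _ _ _ _ => trivial))
  rintro ⟨m, s⟩ hs
  obtain ⟨q, n, hn, hmem⟩ := hpow ⟨m, s⟩ hs
  refine ⟨q, fun a b hab v => ?_⟩
  have hab' : n + a = b := by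
    have h1 : ((List.replicate q (⟨m, s⟩ : Cls (triv k A))).map (fun t => t.1)).sum = q * m := by
      simp
    rw [h1] at hab
    have hn' : q * m = n := hn
    omega
  rw [word_replicate k s q hn hab hab' v]
  exact comp_mem_Gen k (resCls ι '' SC) (pw s q hn) hmem v hab'

/-- Central Hopf subalgebras of height one: `Ext_A(k, N)` is noetherian over restrictions of
finitely many classes of `C`. From `exists_sym_GN`, `exists_lift`, `trans_triv` (with
`D = B`, `SD` from `FGC_GN` for `B`, `htriv` from `HopfExact.map_comp`) and `GN_of_powers`. -/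
theorem CH1_classes (p : ℕ) [Fact p.Prime] [CharP k p] {ι : A →ₐc[k] C} {π : C →ₐc[k] B}
    (hex : HopfExact ι π) (hcentral : ∀ (a : A) (c : C), ι a * c = c * ι a)
    (hp : ∀ a : A, counit (R := k) a = 0 → a ^ p = 0) (hB : FGC k B) :
    ∃ SC : Set (Cls (triv k C)), SC.Finite ∧ EvenPos SC ∧
      ∀ N : ModuleCat.{u} A, Module.Finite k N →
        (EGP k (triv k A) N).GN (resCls ι '' SC) := by
  have hcomm : ∀ a b : A, a * b = b * a := by
    intro a b
    apply hex.inj
    rw [map_mul, map_mul]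
    exact hcentral a (ι b)
  obtain ⟨n, f, hfs, hf1, hGN⟩ := exists_sym_GN p hcomm hp
  obtain ⟨SD, hSD, hSD', hBN⟩ := FGC_GN k B hB
  have hBt : (EGP k (triv k B) (triv k B)).GN SD := hBN (triv k B) (trv_finite k _)
  have hnil : ∀ a : A, counit (R := k) a = 0 → IsNilpotent a := fun a ha => ⟨p, hp a ha⟩
  have hX : ∀ i : Fin n, ∃ (M : ℕ) (X : Ext (triv k C) (triv k C) (p ^ M * 2)),
      res ι X = pw (cls₂ (f i)) (p ^ M) rfl := by
    intro i
    obtain ⟨F, m, u, v, w, hF, hd⟩ := exists_lift hex hcentral hnil (f i) (hfs i) (hf1 i)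
    exact trans_triv p ι π hex.surj (fun a => HopfExact.map_comp hex a) SD hSD' hBt (f i) (hf1 i)
      F hF u v w hd
  choose M X hX using hX
  have hp0 : 0 < p := (Fact.out : p.Prime).pos
  refine ⟨Set.range fun i : Fin n => (⟨p ^ M i * 2, X i⟩ : Cls (triv k C)), Set.finite_range _, ?_,
    fun N hN => ?_⟩
  · rintro _ ⟨i, rfl⟩
    refine ⟨⟨p ^ M i, ?_⟩, ?_⟩
    · show p ^ M i * 2 = p ^ M i + p ^ M i
      ring
    · show 0 < p ^ M i * 2
      have : 0 < p ^ M i := Nat.pow_pos hp0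
      omega
  · refine GN_of_powers ι (Set.range fun i => (⟨2, cls₂ (f i)⟩ : Cls (triv k A)))
      (Set.finite_range _) ?_ _ (Set.finite_range _) ?_ ?_ N hN (hGN N hN)
    · rintro _ ⟨i, rfl⟩
      exact ⟨⟨1, rfl⟩, by norm_num⟩
    · rintro _ ⟨i, rfl⟩
      refine ⟨⟨p ^ M i, ?_⟩, ?_⟩
      · show p ^ M i * 2 = p ^ M i + p ^ M i
        ring
      · show 0 < p ^ M i * 2
        have : 0 < p ^ M i := Nat.pow_pos hp0
        omega
    · rintro _ ⟨i, rfl⟩
      refine ⟨p ^ M i, p ^ M i * 2, rfl, ⟨⟨p ^ M i * 2, X i⟩, ⟨i, rfl⟩, ?_⟩⟩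
      show (⟨p ^ M i * 2, res ι (X i)⟩ : Cls (triv k A)) = _
      rw [hX i]

/-- (CH1) The central height one case. -/
theorem CH1 (p : ℕ) [Fact p.Prime] [CharP k p] {ι : A →ₐc[k] C} {π : C →ₐc[k] B}
    (hex : HopfExact ι π) (hcentral : ∀ (a : A) (c : C), ι a * c = c * ι a)
    (hp : ∀ a : A, counit (R := k) a = 0 → a ^ p = 0) (hB : FGC k B) : FGC k C := by
  obtain ⟨SC, h1, h2, h3⟩ := CH1_classes p hex hcentral hp hB
  exact FGC_of_classes hex hB SC h1 h2 h3

end Pool.Agent.H26.FG
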