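import Pool.Agent.H26.FG.CoDefs

/-!
# Module CoBa: the homogeneous pieces `tg U n` of a tensor algebra
-/

open TensorProduct Coalgebra

universe u v w

namespace Pool.Agent.H26.FG

section Tg

variable {k : Type u} [Field k] {V : Type v} [AddCommGroup V] [Module k V]

lemma tg_mono {U U' : Submodule k V} (h : U ≤ U') (n : ℕ) : tg U n ≤ tg U' n := by
  unfold tg
  induction n with
  | zero => rw [pow_zero, pow_zero]
  | succ n ih =>
    rw [pow_succ, pow_succ]
    exact mul_le_mul' ih (Submodule.map_mono h)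

lemma tg_mul {U : Submodule k V} {m n c : ℕ} (h : m + n = c) {x y : TensorAlgebra k V}
    (hx : x ∈ tg U m) (hy : y ∈ tg U n) : x * y ∈ tg U c := by
  subst h
  unfold tg at *
  rw [pow_add]
  exact Submodule.mul_mem_mul hx hy

lemma one_mem_tg (U : Submodule k V) : (1 : TensorAlgebra k V) ∈ tg U 0 := by
  unfold tg
  rw [pow_zero]
  exact Submodule.mem_one.2 ⟨1, map_one _⟩

lemma ι_mem_tg {U : Submodule k V} {v : V} (hv : v ∈ U) : TensorAlgebra.ι k v ∈ tg U 1 := by
  unfold tg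
  rw [pow_one]
  exact Submodule.mem_map_of_mem hv

/-- Induction principle for `tg U (n + 1)`. -/
lemma tg_induction {U : Submodule k V} {n : ℕ} {P : TensorAlgebra k V → Prop}
    (hm : ∀ v ∈ U, ∀ w ∈ tg U n, P (TensorAlgebra.ι k v * w)) (ha : ∀ x y, P x → P y → P (x + y))
    (x : TensorAlgebra k V) (hx : x ∈ tg U (n + 1)) : P x := by
  unfold tg at hx hm
  rw [pow_succ'] at hx
  refine Submodule.mul_induction_on hx ?_ ha
  rintro _ ⟨v, hv, rfl⟩ w hw
  exact hm v hv w hw

/-- The other induction principle for `tg U (n + 1)`. -/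
lemma tg_induction' {U : Submodule k V} {n : ℕ} {P : TensorAlgebra k V → Prop}
    (hm : ∀ w ∈ tg U n, ∀ v ∈ U, P (w * TensorAlgebra.ι k v)) (ha : ∀ x y, P x → P y → P (x + y))
    (x : TensorAlgebra k V) (hx : x ∈ tg U (n + 1)) : P x := by
  unfold tg at hx hm
  rw [pow_succ] at hx
  refine Submodule.mul_induction_on hx ?_ ha
  rintro w hw _ ⟨v, hv, rfl⟩
  exact hm w hw v hv

lemma tg_zero (U : Submodule k V) (x : TensorAlgebra k V) (hx : x ∈ tg U 0) :
    ∃ c : k, x = algebraMap k _ c := by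
  unfold tg at hx
  rw [pow_zero] at hx
  obtain ⟨c, hc⟩ := Submodule.mem_one.1 hx
  exact ⟨c, hc.symm⟩

lemma sg_tg {n : ℕ} {x : TensorAlgebra k V} (hx : x ∈ tg (⊤ : Submodule k V) n) :
    sg k V x = ((-1 : ℤ) ^ n) • x := by
  induction n generalizing x with
  | zero =>
    obtain ⟨c, rfl⟩ := tg_zero _ x hx
    rw [AlgHom.commutes, pow_zero, one_smul]
  | succ n ih =>
    refine tg_induction (P := fun x => sg k V x = ((-1 : ℤ) ^ (n + 1)) • x) ?_ ?_ x hx
    · intro v _ w hw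
      rw [map_mul, sg_ι, ih hw, pow_succ]
      simp only [mul_neg, mul_one, neg_mul, mul_smul_comm, neg_smul, smul_neg]
    · intro x y hx hy
      rw [map_add, hx, hy, smul_add]

lemma sg_mem {U : Submodule k V} {n : ℕ} {x : TensorAlgebra k V} (hx : x ∈ tg U n) :
    sg k V x ∈ tg U n := by
  rw [sg_tg (tg_mono le_top n hx)]
  exact zsmul_mem hx _

lemma CoBa_tmap_comp {W : Type*} [AddCommGroup W] [Module k W] {Z : Type*} [AddCommGroup Z]
    [Module k Z] (g : W →ₗ[k] Z) (f : V →ₗ[k] W) (x : TensorAlgebra k V) :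
    tmap g (tmap f x) = tmap (g ∘ₗ f) x := by
  have h : (tmap g).comp (tmap f) = tmap (g ∘ₗ f) := by
    refine TensorAlgebra.hom_ext (LinearMap.ext fun v => ?_)
    simp
  exact DFunLike.congr_fun h x

lemma CoBa_tmap_id (x : TensorAlgebra k V) : tmap (LinearMap.id : V →ₗ[k] V) x = x := by
  have h : tmap (LinearMap.id : V →ₗ[k] V) = AlgHom.id k _ := by
    refine TensorAlgebra.hom_ext (LinearMap.ext fun v => ?_)
    simp
  exact DFunLike.congr_fun h x

lemma sg_sg (x : TensorAlgebra k V) : sg k V (sg k V x) = x := by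
  rw [sg, CoBa_tmap_comp]
  have h : ((-LinearMap.id : V →ₗ[k] V) ∘ₗ (-LinearMap.id)) = LinearMap.id := by
    ext v; simp
  rw [h, CoBa_tmap_id]

lemma te_tg {U : Submodule k V} {n : ℕ} {x : TensorAlgebra k V} (hx : x ∈ tg U (n + 1)) :
    te k V x = 0 := by
  refine tg_induction (P := fun x => te k V x = 0) ?_ ?_ x hx
  · intro v _ w _
    rw [map_mul, te_ι, zero_mul]
  · intro x y hx hy
    rw [map_add, hx, hy, add_zero]

lemma CoBa_map {W : Type w} [AddCommGroup W] [Module k W] (f : V →ₗ[k] W) (U : Submodule k V)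
    (n : ℕ) : (tg U n).map (tmap f).toLinearMap = tg (U.map f) n := by
  unfold tg
  rw [Submodule.map_pow]
  congr 1
  rw [← Submodule.map_comp, ← Submodule.map_comp]
  congr 1
  ext v
  simp

lemma tmap_tg {W : Type w} [AddCommGroup W] [Module k W] (f : V →ₗ[k] W) {U : Submodule k V}
    {n : ℕ} {x : TensorAlgebra k V} (hx : x ∈ tg U n) : tmap f x ∈ tg (U.map f) n := by
  rw [← CoBa_map]
  exact Submodule.mem_map_of_mem hx

/-- If `f` is surjective from `U` onto `U'` then `tg U' n` is the image of `tg U n`. -/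
lemma exists_tg_of_map {W : Type w} [AddCommGroup W] [Module k W] (f : V →ₗ[k] W)
    {U : Submodule k V} {n : ℕ} {y : TensorAlgebra k W} (hy : y ∈ tg (U.map f) n) :
    ∃ x ∈ tg U n, tmap f x = y := by
  rw [← CoBa_map] at hy
  obtain ⟨x, hx, rfl⟩ := hy
  exact ⟨x, hx, rfl⟩

/-- `T(f)` is injective if `f` is. -/
lemma tmap_injective {W : Type w} [AddCommGroup W] [Module k W] (f : V →ₗ[k] W)
    (hf : Function.Injective f) : Function.Injective (tmap f) := by
  obtain ⟨g, hg⟩ := f.exists_leftInverse_of_injective (LinearMap.ker_eq_bot.2 hf)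
  intro x y hxy
  have h := congrArg (tmap g) hxy
  rwa [CoBa_tmap_comp, CoBa_tmap_comp, hg, CoBa_tmap_id, CoBa_tmap_id] at h

/-- The degree of a non-zero element is unique. -/
lemma tg_disjoint {m n : ℕ} (h : m ≠ n) {x : TensorAlgebra k V}
    (hx : x ∈ tg (⊤ : Submodule k V) m) (hy : x ∈ tg (⊤ : Submodule k V) n) : x = 0 := by
  by_contra h0
  unfold tg at hx hy
  rw [Submodule.map_top] at hx hy
  exact h (DirectSum.degree_eq_of_mem_mem
    ((LinearMap.range (TensorAlgebra.ι k : V →ₗ[k] TensorAlgebra k V) ^ ·) : ℕ → Submodule k _)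
    hx hy h0)

lemma CoBa_fix {U : Submodule k V} (f : V →ₗ[k] V) (hf : ∀ v ∈ U, f v = v) {n : ℕ}
    {x : TensorAlgebra k V} (hx : x ∈ tg U n) : tmap f x = x := by
  induction n generalizing x with
  | zero =>
    obtain ⟨c, rfl⟩ := tg_zero _ x hx
    rw [AlgHom.commutes]
  | succ n ih =>
    refine tg_induction (P := fun x => tmap f x = x) ?_ ?_ x hx
    · intro v hv w hw
      rw [map_mul, tmap_ι, ih hw, hf v hv]
    · intro x y hx hy
      rw [map_add, hx, hy]

lemma CoBa_proj (U U' : Submodule k V) :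
    ∃ f : V →ₗ[k] V, (∀ v ∈ U, f v = v) ∧ U'.map f ≤ U ⊓ U' := by
  -- a complement of `U ⊓ U'` in `U'`
  obtain ⟨W, hW1, hW2, hW3⟩ : ∃ W : Submodule k V, W ≤ U' ∧ U' ≤ (U ⊓ U') ⊔ W ∧ U ⊓ W = ⊥ := by
    obtain ⟨C, hC⟩ := Submodule.exists_isCompl (U ⊓ U')
    refine ⟨U' ⊓ C, inf_le_left, ?_, ?_⟩
    · intro x hx
      have hx' : x ∈ (U ⊓ U') ⊔ C := by rw [hC.sup_eq_top]; trivial
      obtain ⟨a, ha, b, hb, rfl⟩ := Submodule.mem_sup.1 hx'
      refine Submodule.add_mem_sup ha ⟨?_, hb⟩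
      have := Submodule.sub_mem _ hx ha.2
      rwa [add_sub_cancel_left] at this
    · rw [← inf_assoc, hC.inf_eq_bot]
  obtain ⟨C, hC⟩ := Submodule.exists_isCompl (U ⊔ W)
  have hUZ : IsCompl U (W ⊔ C) := by
    constructor
    · rw [Submodule.disjoint_def]
      intro x hxU hx
      obtain ⟨a, ha, b, hb, rfl⟩ := Submodule.mem_sup.1 hx
      have hb' : b ∈ U ⊔ W := by
        have h1 : a + b - a ∈ U ⊔ W :=
          Submodule.sub_mem _ (Submodule.mem_sup_left hxU) (Submodule.mem_sup_right ha)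
        rwa [add_sub_cancel_left] at h1
      have hb0 : b = 0 := by
        have : b ∈ (U ⊔ W) ⊓ C := ⟨hb', hb⟩
        rw [hC.inf_eq_bot] at this
        exact (Submodule.mem_bot k).1 this
      subst hb0
      rw [add_zero] at hxU ⊢
      have : a ∈ U ⊓ W := ⟨hxU, ha⟩
      rw [hW3] at this
      exact (Submodule.mem_bot k).1 this
    · rw [codisjoint_iff, ← sup_assoc, hC.sup_eq_top]
  refine ⟨U.projection (W ⊔ C) hUZ, fun v hv => Submodule.projection_apply_of_mem_left hUZ hv, ?_⟩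
  rintro _ ⟨v, hv, rfl⟩
  obtain ⟨a, ha, b, hb, rfl⟩ := Submodule.mem_sup.1 (hW2 hv)
  rw [map_add, Submodule.projection_apply_of_mem_left hUZ ha.1,
    Submodule.projection_apply_of_mem_right hUZ (Submodule.mem_sup_left hb), add_zero]
  exact ha

/-- `T^n(U) ∩ T^n(U') = T^n(U ∩ U')`. -/
lemma tg_inf (U U' : Submodule k V) (n : ℕ) : tg U n ⊓ tg U' n = tg (U ⊓ U') n := by
  apply le_antisymm
  · rintro x ⟨hx, hx'⟩
    obtain ⟨f, hf1, hf2⟩ := CoBa_proj U U'
    rw [← CoBa_fix f hf1 hx]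
    exact tg_mono hf2 n (tmap_tg f hx')
  · exact le_inf (tg_mono inf_le_left n) (tg_mono inf_le_right n)

end Tg

end Pool.Agent.H26.FG
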