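import Pool.Agent.H26.FG.Base

/-!
# The cobar complex of a bialgebra: definitions

`T(H) = TensorAlgebra k H`, differential `cd`, sign automorphism `sg`, `H`-action `ha`,
the derivations `Rd y`, normalisation `nu`, contractions `con` (for `H` the dual of `C`).
-/

open TensorProduct Coalgebra

universe u v w

namespace Pool.Agent.H26.FG

/-! ## Twisted derivations of a tensor algebra -/

section Tder

variable {k : Type u} [Field k] {V : Type v} [AddCommGroup V] [Module k V] {R : Type w} [Ring R]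
  [Algebra k R]

/-- The algebra homomorphism `v ↦ [[φ v, D v], [0, ψ v]]`. -/
noncomputable def tderM (φ ψ : TensorAlgebra k V →ₐ[k] R) (D : V →ₗ[k] R) :
    TensorAlgebra k V →ₐ[k] Matrix (Fin 2) (Fin 2) R :=
  TensorAlgebra.lift k
    { toFun := fun v => !![φ (TensorAlgebra.ι k v), D v; 0, ψ (TensorAlgebra.ι k v)]
      map_add' := fun v w => by
        ext i j; fin_cases i <;> fin_cases j <;> simp
      map_smul' := fun c v => by
        ext i j; fin_cases i <;> fin_cases j <;> simp }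

lemma tderM_ι (φ ψ : TensorAlgebra k V →ₐ[k] R) (D : V →ₗ[k] R) (v : V) :
    tderM φ ψ D (TensorAlgebra.ι k v) =
      !![φ (TensorAlgebra.ι k v), D v; 0, ψ (TensorAlgebra.ι k v)] := by
  rw [tderM, TensorAlgebra.lift_ι_apply]; rfl

lemma tderM_eq (φ ψ : TensorAlgebra k V →ₐ[k] R) (D : V →ₗ[k] R) (a : TensorAlgebra k V) :
    tderM φ ψ D a 0 0 = φ a ∧ tderM φ ψ D a 1 0 = 0 ∧ tderM φ ψ D a 1 1 = ψ a := by
  induction a using TensorAlgebra.induction with
  | algebraMap r =>
    simp only [AlgHom.commutes]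
    simp [Matrix.algebraMap_matrix_apply]
  | ι v =>
    rw [tderM_ι]
    simp
  | mul a b ha hb =>
    obtain ⟨ha0, ha1, ha2⟩ := ha
    obtain ⟨hb0, hb1, hb2⟩ := hb
    simp only [map_mul, Matrix.mul_apply, Fin.sum_univ_two, ha0, ha1, ha2, hb0, hb1, hb2]
    simp
  | add a b ha hb =>
    obtain ⟨ha0, ha1, ha2⟩ := ha
    obtain ⟨hb0, hb1, hb2⟩ := hb
    simp only [map_add, Matrix.add_apply, ha0, ha1, ha2, hb0, hb1, hb2]
    simp

/-- The `(φ, ψ)`-derivation with given values on generators: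
`tder (a b) = tder a * ψ b + φ a * tder b`. -/
noncomputable def tder (φ ψ : TensorAlgebra k V →ₐ[k] R) (D : V →ₗ[k] R) :
    TensorAlgebra k V →ₗ[k] R where
  toFun a := tderM φ ψ D a 0 1
  map_add' a b := by rw [map_add]; rfl
  map_smul' c a := by rw [map_smul]; rfl

@[simp] lemma tder_ι (φ ψ : TensorAlgebra k V →ₐ[k] R) (D : V →ₗ[k] R) (v : V) :
    tder φ ψ D (TensorAlgebra.ι k v) = D v := by
  change tderM φ ψ D (TensorAlgebra.ι k v) 0 1 = D v
  rw [tderM_ι]; rfl

lemma tder_mul (φ ψ : TensorAlgebra k V →ₐ[k] R) (D : V →ₗ[k] R) (a b : TensorAlgebra k V) :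
    tder φ ψ D (a * b) = tder φ ψ D a * ψ b + φ a * tder φ ψ D b := by
  change tderM φ ψ D (a * b) 0 1 = tderM φ ψ D a 0 1 * ψ b + φ a * tderM φ ψ D b 0 1
  rw [map_mul, Matrix.mul_apply, Fin.sum_univ_two, (tderM_eq φ ψ D a).1, (tderM_eq φ ψ D b).2.2,
    add_comm]

@[simp] lemma tder_one (φ ψ : TensorAlgebra k V →ₐ[k] R) (D : V →ₗ[k] R) :
    tder φ ψ D 1 = 0 := by
  change tderM φ ψ D 1 0 1 = 0
  rw [map_one]; rfl

@[simp] lemma tder_algebraMap (φ ψ : TensorAlgebra k V →ₐ[k] R) (D : V →ₗ[k] R) (c : k) :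
    tder φ ψ D (algebraMap k _ c) = 0 := by
  rw [Algebra.algebraMap_eq_smul_one, map_smul, tder_one, smul_zero]

/-- Uniqueness of twisted derivations. -/
lemma tder_unique (φ ψ : TensorAlgebra k V →ₐ[k] R) (D D' : TensorAlgebra k V →ₗ[k] R)
    (h : ∀ a b, D (a * b) = D a * ψ b + φ a * D b)
    (h' : ∀ a b, D' (a * b) = D' a * ψ b + φ a * D' b)
    (hι : ∀ v, D (TensorAlgebra.ι k v) = D' (TensorAlgebra.ι k v)) : D = D' := by
  have h1 : D 1 = 0 := by
    have := h 1 1
    simp only [mul_one, map_one, one_mul] at this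
    exact left_eq_add.1 this
  have h1' : D' 1 = 0 := by
    have := h' 1 1
    simp only [mul_one, map_one, one_mul] at this
    exact left_eq_add.1 this
  refine LinearMap.ext fun a => ?_
  induction a using TensorAlgebra.induction with
  | algebraMap r => rw [Algebra.algebraMap_eq_smul_one, map_smul, map_smul, h1, h1']
  | ι v => exact hι v
  | mul a b ha hb => rw [h, h', ha, hb]
  | add a b ha hb => rw [map_add, map_add, ha, hb]

/-- Functoriality of the tensor algebra. -/
noncomputable def tmap {W : Type*} [AddCommGroup W] [Module k W] (f : V →ₗ[k] W) :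
    TensorAlgebra k V →ₐ[k] TensorAlgebra k W :=
  TensorAlgebra.lift k (TensorAlgebra.ι k ∘ₗ f)

@[simp] lemma tmap_ι {W : Type*} [AddCommGroup W] [Module k W] (f : V →ₗ[k] W) (v : V) :
    tmap f (TensorAlgebra.ι k v) = TensorAlgebra.ι k (f v) := by
  rw [tmap, TensorAlgebra.lift_ι_apply]; rfl

/-- The augmentation `T(V) → k`. -/
noncomputable def te (k : Type u) [Field k] (V : Type v) [AddCommGroup V] [Module k V] :
    TensorAlgebra k V →ₐ[k] k := TensorAlgebra.algebraMapInv

@[simp] lemma te_ι (v : V) : te k V (TensorAlgebra.ι k v) = 0 := by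
  rw [te, TensorAlgebra.algebraMapInv, TensorAlgebra.lift_ι_apply]; rfl

/-- The homogeneous piece of degree `n` of the subalgebra generated by a subspace `U` of `V`. -/
def tg (U : Submodule k V) (n : ℕ) : Submodule k (TensorAlgebra k V) :=
  (U.map (TensorAlgebra.ι k)) ^ n

/-- The sign automorphism `v ↦ -v`, i.e. `(-1)^n` in degree `n`. -/
noncomputable def sg (k : Type u) [Field k] (V : Type v) [AddCommGroup V] [Module k V] :
    TensorAlgebra k V →ₐ[k] TensorAlgebra k V :=
  tmap (-LinearMap.id)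

@[simp] lemma sg_ι (v : V) : sg k V (TensorAlgebra.ι k v) = - TensorAlgebra.ι k v := by
  rw [sg, tmap_ι]; simp

end Tder

/-! ## The cobar complex -/

section Cobar

variable (k : Type u) [Field k] (H : Type v) [Ring H] [Bialgebra k H]

/-- The cobar differential on generators: `d h = 1 ⊗ h - Δ h + h ⊗ 1`. -/
noncomputable def cd₀ : H →ₗ[k] TensorAlgebra k H :=
  (LinearMap.mulLeft k (TensorAlgebra.ι k (1 : H))) ∘ₗ TensorAlgebra.ι k -
    (LinearMap.mul' k (TensorAlgebra k H)) ∘ₗ
      (TensorProduct.map (TensorAlgebra.ι k) (TensorAlgebra.ι k)) ∘ₗ comul +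
    (LinearMap.mulRight k (TensorAlgebra.ι k (1 : H))) ∘ₗ TensorAlgebra.ι k

/-- The cobar differential: the odd derivation of `T(H)` extending `cd₀`. -/
noncomputable def cd : TensorAlgebra k H →ₗ[k] TensorAlgebra k H :=
  tder (sg k H) (AlgHom.id k _) (cd₀ k H)

variable {H}

lemma cd_mul (a b : TensorAlgebra k H) : cd k H (a * b) = cd k H a * b + sg k H a * cd k H b :=
  tder_mul _ _ _ a b

lemma cd_ι (h : H) {κ : Type*} (r : Coalgebra.Repr k h κ) : cd k H (TensorAlgebra.ι k h) =
    TensorAlgebra.ι k 1 * TensorAlgebra.ι k h -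
      ∑ i ∈ r.index, TensorAlgebra.ι k (r.left i) * TensorAlgebra.ι k (r.right i) +
      TensorAlgebra.ι k h * TensorAlgebra.ι k 1 := by
  rw [cd, tder_ι]
  simp [cd₀, ← r.eq, map_sum]

@[simp] lemma cd_one : cd k H 1 = 0 := tder_one _ _ _

/-- The action of `H` on `T(H)`: `h (a b) = ∑ (h₁ a) (h₂ b)`, `h g = h g` on generators, as an
algebra homomorphism from `T(H)` to the convolution algebra `Hom_k(H, T(H))`. -/
noncomputable def haM : TensorAlgebra k H →ₐ[k] WithConv (H →ₗ[k] TensorAlgebra k H) :=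
  TensorAlgebra.lift k
    { toFun := fun g => WithConv.toConv (TensorAlgebra.ι k ∘ₗ LinearMap.mulRight k g)
      map_add' := fun g g' => by
        ext h; simp [mul_add]
      map_smul' := fun c g => by
        ext h; simp }

/-- The action of `H` on `T(H)`. -/
noncomputable def ha (h : H) : TensorAlgebra k H →ₗ[k] TensorAlgebra k H where
  toFun a := (haM k a).ofConv h
  map_add' a b := by rw [map_add]; rfl
  map_smul' c a := by rw [map_smul]; rfl

@[simp] lemma ha_ι (h g : H) : ha k h (TensorAlgebra.ι k g) = TensorAlgebra.ι k (h * g) := by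
  change (haM k (TensorAlgebra.ι k g)).ofConv h = _
  rw [haM, TensorAlgebra.lift_ι_apply]; rfl

lemma ha_one (h : H) : ha k h 1 = algebraMap k _ (counit (R := k) h) := by
  change (haM k 1).ofConv h = _
  rw [map_one]; rfl

lemma ha_mul (h : H) (a b : TensorAlgebra k H) {κ : Type*} (r : Coalgebra.Repr k h κ) :
    ha k h (a * b) = ∑ i ∈ r.index, ha k (r.left i) a * ha k (r.right i) b := by
  change (haM k (a * b)).ofConv h = _
  rw [map_mul]
  exact r.convMul_apply _ _

/-- `ha` as a linear map in `h`. -/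
noncomputable def haL (y : TensorAlgebra k H) : H →ₗ[k] TensorAlgebra k H := (haM k y).ofConv

@[simp] lemma haL_apply (y : TensorAlgebra k H) (h : H) : haL k y h = ha k h y := rfl

/-- The (even) derivation `R_y` of `T(H)` with `R_y h = h y` on generators. -/
noncomputable def Rd (y : TensorAlgebra k H) : TensorAlgebra k H →ₗ[k] TensorAlgebra k H :=
  tder (AlgHom.id k _) (AlgHom.id k _) (haL k y)

@[simp] lemma Rd_ι (y : TensorAlgebra k H) (h : H) : Rd k y (TensorAlgebra.ι k h) = ha k h y :=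
  tder_ι _ _ _ _

lemma Rd_mul (y a b : TensorAlgebra k H) : Rd k y (a * b) = Rd k y a * b + a * Rd k y b :=
  tder_mul _ _ _ a b

/-- The normalisation: the algebra endomorphism `h ↦ h - ε(h) 1` of `T(H)`. -/
noncomputable def nu : TensorAlgebra k H →ₐ[k] TensorAlgebra k H :=
  tmap (LinearMap.id - (LinearMap.toSpanSingleton k H 1) ∘ₗ counit)

@[simp] lemma nu_ι (h : H) : nu k (TensorAlgebra.ι k h) =
    TensorAlgebra.ι k (h - counit (R := k) h • 1) := by
  rw [nu, tmap_ι]; rfl

/-- The augmentation ideal of `H`, as a subspace. -/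
def augK (k : Type u) [Field k] (H : Type v) [Ring H] [Bialgebra k H] : Submodule k H :=
  LinearMap.ker (counit (R := k) (A := H))

/-- A sub-bialgebra, as a subspace `L` with `1 ∈ L`, `L L ⊆ L`, `Δ L ⊆ L ⊗ L`. -/
structure SubBi (L : Submodule k H) : Prop where
  one : (1 : H) ∈ L
  mul : ∀ a ∈ L, ∀ b ∈ L, a * b ∈ L
  comul : ∀ a ∈ L, comul (R := k) a ∈ Submodule.span k
    {y : H ⊗[k] H | ∃ b ∈ L, ∃ c ∈ L, y = b ⊗ₜ[k] c}

end Cobar

end Pool.Agent.H26.FG
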