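import Pool.Agent.H26.FG.ResL
import Pool.Agent.H26.FG.CoiA

/-!
# Module Coll: the collapse for modules that are acyclic over the normal subalgebra
-/

open CategoryTheory Abelian TensorProduct
open scoped ModuleCat

universe u

namespace Pool.Agent.H26.FG

variable (k : Type u) [Field k] {A C B : Type u} [Ring A] [Algebra k A] [Ring C] [Algebra k C]
  [Ring B] [Algebra k B] (εA : A →ₐ[k] k) (εC : C →ₐ[k] k) (εB : B →ₐ[k] k)

/-- The hypotheses on `f`, `g`. -/
structure Coll_D (f : A →ₐ[k] C) (g : C →ₐ[k] B) : Prop where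
  hf : εC.comp f = εA
  hg : εB.comp g = εC
  hsurj : Function.Surjective g
  hker : ∀ c : C, g c = 0 → c ∈ Submodule.span k {x | ∃ (c' : C) (a : A), εA a = 0 ∧ x = c' * f a}
  hker' : ∀ (c : C) (a : A), εA a = 0 →
      f a * c ∈ Submodule.span k {x | ∃ (c' : C) (a : A), εA a = 0 ∧ x = c' * f a}
  hker'' : ∀ a : A, εA a = 0 → g (f a) = 0

section

variable {k εA εC εB}
variable {f : A →ₐ[k] C} {g : C →ₐ[k] B}

omit [Algebra k B] in
theorem Coll_span {N : ModuleCat.{u} C} {n : N} (hn : ∀ a, εA a = 0 → f a • n = 0) {c : C}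
    (hc : c ∈ Submodule.span k {x | ∃ (c' : C) (a : A), εA a = 0 ∧ x = c' * f a}) :
    c • n = 0 := by
  induction hc using Submodule.span_induction with
  | mem x hx =>
    obtain ⟨c', a, ha, rfl⟩ := hx
    rw [mul_smul, hn a ha, smul_zero]
  | zero => exact zero_smul C n
  | add x y _ _ hx hy => rw [add_smul, hx, hy, add_zero]
  | smul r x _ hx => rw [smul_assoc, hx, smul_zero]

/-- The invariants. -/
def Coll_inv (D : Coll_D k εA εC εB f g) (N : ModuleCat.{u} C) : Submodule C N where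
  carrier := {n | ∀ a, εA a = 0 → f a • n = 0}
  add_mem' := fun {x y} hx hy a ha => by rw [smul_add, hx a ha, hy a ha, add_zero]
  zero_mem' := fun a _ => smul_zero _
  smul_mem' := fun c n hn a ha => by
    rw [← mul_smul]
    exact Coll_span hn (D.hker' c a ha)

theorem Coll_mem {D : Coll_D k εA εC εB f g} {N : ModuleCat.{u} C} {n : N} :
    n ∈ Coll_inv D N ↔ ∀ a, εA a = 0 → f a • n = 0 := Iff.rfl

theorem Coll_congr (D : Coll_D k εA εC εB f g) {N : ModuleCat.{u} C} {n : N}
    (hn : n ∈ Coll_inv D N) {c c' : C} (h : g c = g c') : c • n = c' • n := by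
  have h1 : (c - c') • n = 0 := Coll_span hn (D.hker _ (by rw [map_sub, h, sub_self]))
  rwa [sub_smul, sub_eq_zero] at h1

/-- a section of `g` -/
noncomputable def Coll_sec (D : Coll_D k εA εC εB f g) (b : B) : C := Function.surjInv D.hsurj b

theorem Coll_sec_eq (D : Coll_D k εA εC εB f g) (b : B) : g (Coll_sec D b) = b :=
  Function.surjInv_eq D.hsurj b

/-- The invariants as a type. -/
def Coll_T (D : Coll_D k εA εC εB f g) (N : ModuleCat.{u} C) : Type u := Coll_inv D N

noncomputable instance (D : Coll_D k εA εC εB f g) (N : ModuleCat.{u} C) :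
    AddCommGroup (Coll_T D N) := inferInstanceAs (AddCommGroup (Coll_inv D N))

/-- the inclusion -/
def Coll_val (D : Coll_D k εA εC εB f g) (N : ModuleCat.{u} C) : Coll_T D N →+ N :=
  (Coll_inv D N).subtype.toAddMonoidHom

theorem Coll_val_inj (D : Coll_D k εA εC εB f g) (N : ModuleCat.{u} C) :
    Function.Injective (Coll_val D N) := Subtype.val_injective

theorem Coll_val_mem (D : Coll_D k εA εC εB f g) (N : ModuleCat.{u} C) (n : Coll_T D N) :
    Coll_val D N n ∈ Coll_inv D N := Subtype.property _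

/-- constructor -/
def Coll_mk (D : Coll_D k εA εC εB f g) {N : ModuleCat.{u} C} (n : N) (hn : n ∈ Coll_inv D N) :
    Coll_T D N := (⟨n, hn⟩ : Coll_inv D N)

@[simp] theorem Coll_val_mk (D : Coll_D k εA εC εB f g) {N : ModuleCat.{u} C} (n : N)
    (hn : n ∈ Coll_inv D N) : Coll_val D N (Coll_mk D n hn) = n := rfl

noncomputable instance (D : Coll_D k εA εC εB f g) (N : ModuleCat.{u} C) :
    SMul B (Coll_T D N) :=
  ⟨fun b n => Coll_mk D (Coll_sec D b • Coll_val D N n)
    ((Coll_inv D N).smul_mem _ (Coll_val_mem D N n))⟩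

theorem Coll_val_smul (D : Coll_D k εA εC εB f g) (N : ModuleCat.{u} C) {b : B} {c : C}
    (h : g c = b) (n : Coll_T D N) : Coll_val D N (b • n) = c • Coll_val D N n := by
  change Coll_sec D b • Coll_val D N n = _
  exact Coll_congr D (Coll_val_mem D N n) (by rw [Coll_sec_eq, h])

noncomputable instance (D : Coll_D k εA εC εB f g) (N : ModuleCat.{u} C) :
    Module B (Coll_T D N) where
  one_smul n := Coll_val_inj D N (by rw [Coll_val_smul D N (map_one g), one_smul])
  mul_smul a b n := Coll_val_inj D N (by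
    rw [Coll_val_smul D N (c := Coll_sec D a * Coll_sec D b)
      (by rw [map_mul, Coll_sec_eq, Coll_sec_eq]), mul_smul,
      Coll_val_smul D N (Coll_sec_eq D a), Coll_val_smul D N (Coll_sec_eq D b)])
  smul_zero b := Coll_val_inj D N (by
    rw [Coll_val_smul D N (Coll_sec_eq D b), map_zero, smul_zero])
  smul_add b n n' := Coll_val_inj D N (by
    rw [Coll_val_smul D N (Coll_sec_eq D b), map_add, map_add, smul_add,
      Coll_val_smul D N (Coll_sec_eq D b), Coll_val_smul D N (Coll_sec_eq D b)])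
  add_smul a b n := Coll_val_inj D N (by
    rw [Coll_val_smul D N (c := Coll_sec D a + Coll_sec D b)
      (by rw [map_add, Coll_sec_eq, Coll_sec_eq]), add_smul, map_add,
      Coll_val_smul D N (Coll_sec_eq D a), Coll_val_smul D N (Coll_sec_eq D b)])
  zero_smul n := Coll_val_inj D N (by rw [Coll_val_smul D N (map_zero g), zero_smul, map_zero])

/-- the map on invariants -/
noncomputable def Coll_map (D : Coll_D k εA εC εB f g) {N N' : ModuleCat.{u} C} (φ : N ⟶ N') :
    ModuleCat.of B (Coll_T D N) ⟶ ModuleCat.of B (Coll_T D N') :=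
  ModuleCat.ofHom
    { toFun := fun n => Coll_mk D (φ.hom (Coll_val D N n)) (by
        intro a ha
        rw [← map_smul, Coll_val_mem D N n a ha, map_zero])
      map_add' := fun n n' => Coll_val_inj D N'
        ((congrArg φ.hom (map_add (Coll_val D N) n n')).trans (map_add φ.hom _ _))
      map_smul' := fun b n => Coll_val_inj D N' (by
        rw [RingHom.id_apply, Coll_val_smul D N' (Coll_sec_eq D b), Coll_val_mk, Coll_val_mk,
          Coll_val_smul D N (Coll_sec_eq D b), map_smul]) }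

theorem Coll_val_map (D : Coll_D k εA εC εB f g) {N N' : ModuleCat.{u} C} (φ : N ⟶ N')
    (n : Coll_T D N) : Coll_val D N' ((Coll_map D φ).hom n) = φ.hom (Coll_val D N n) := rfl

/-- the inclusion as a morphism -/
noncomputable def Coll_j (D : Coll_D k εA εC εB f g) (N : ModuleCat.{u} C) :
    (resF g.toRingHom).obj (ModuleCat.of B (Coll_T D N)) ⟶ N :=
  ConcreteCategory.ofHom (C := ModuleCat.{u} C)
    ({ toFun := fun n => Coll_val D N n
       map_add' := fun n n' => map_add (Coll_val D N) n n'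
       map_smul' := fun c n => Coll_val_smul D N (b := g c) (c := c) rfl n } :
      (resF g.toRingHom).obj (ModuleCat.of B (Coll_T D N)) →ₗ[C] N)

theorem Coll_j_apply (D : Coll_D k εA εC εB f g) (N : ModuleCat.{u} C) (n : Coll_T D N) :
    (Coll_j D N).hom n = Coll_val D N n := rfl

end

section

variable {k εA εC εB}
variable {f : A →ₐ[k] C} {g : C →ₐ[k] B}

/-- elements of the one-dimensional module as scalars -/
def Coll_to {R : Type u} [Ring R] [Algebra k R] (ε : R →ₐ[k] k) (s : (trv ε : ModuleCat.{u} R)) :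
    k := s

theorem Coll_to_smul {R : Type u} [Ring R] [Algebra k R] (ε : R →ₐ[k] k) (c : R)
    (s : (trv ε : ModuleCat.{u} R)) : Coll_to ε (c • s) = ε c * Coll_to ε s := rfl

theorem Coll_to_add {R : Type u} [Ring R] [Algebra k R] (ε : R →ₐ[k] k)
    (s t : (trv ε : ModuleCat.{u} R)) : Coll_to ε (s + t) = Coll_to ε s + Coll_to ε t := rfl

theorem Coll_to_inj {R : Type u} [Ring R] [Algebra k R] (ε : R →ₐ[k] k)
    {s t : (trv ε : ModuleCat.{u} R)} (h : Coll_to ε s = Coll_to ε t) : s = t := h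

/-- acyclic modules -/
def Coll_acy (εA : A →ₐ[k] k) (f : A →ₐ[k] C) (N : ModuleCat.{u} C) : Prop :=
  ∀ (n : ℕ) (v : Ext (trv εA) ((resF f.toRingHom).obj N) (n + 1)), v = 0

/-- the morphism `k → N` of an invariant element -/
noncomputable def Coll_hom (D : Coll_D k εA εC εB f g) (N : ModuleCat.{u} C) (n : N)
    (hn : n ∈ Coll_inv D N) : trv εA ⟶ (resF f.toRingHom).obj N :=
  ConcreteCategory.ofHom (C := ModuleCat.{u} A) (X := trv εA)
    ({ toFun := fun s => (Coll_to εA s • n : N)
       map_add' := fun s t => by rw [Coll_to_add, add_smul]; rfl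
       map_smul' := fun a s => by
         rw [Coll_to_smul]
         change (εA a * Coll_to εA s : k) • n = f a • (Coll_to εA s • n)
         have h1 : εA (a - algebraMap k A (εA a)) = 0 := by
           rw [map_sub, AlgHom.commutes]
           exact sub_self _
         have h2 := hn _ h1
         rw [map_sub, AlgHom.commutes, sub_smul, sub_eq_zero, algebraMap_smul] at h2
         rw [smul_comm, h2, mul_comm, mul_smul] } :
      (trv εA : ModuleCat.{u} A) →ₗ[A] (resF f.toRingHom).obj N)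

theorem Coll_hom_one (D : Coll_D k εA εC εB f g) (N : ModuleCat.{u} C) (n : N)
    (hn : n ∈ Coll_inv D N) : (Coll_hom D N n hn).hom (1 : k) = n := one_smul k n

theorem Coll_hom_mem (D : Coll_D k εA εC εB f g) (N : ModuleCat.{u} C)
    (φ : trv εA ⟶ (resF f.toRingHom).obj N) : (φ.hom (1 : k) : N) ∈ Coll_inv D N := by
  intro a ha
  have h1 := map_smul φ.hom a (show (trv εA : ModuleCat.{u} A) from (1 : k))
  have h2 : (a • (show (trv εA : ModuleCat.{u} A) from (1 : k)) : (trv εA : ModuleCat.{u} A))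
      = 0 := by
    change (εA a * 1 : k) = 0
    rw [ha, zero_mul]
  rw [h2, map_zero] at h1
  exact h1.symm

/-- a piece of the long exact sequence -/
theorem Coll_ext3 {N₁ N₂ N₃ : ModuleCat.{u} C} {i : N₁ ⟶ N₂} {p : N₂ ⟶ N₃} {w : i ≫ p = 0}
    (hS : (ShortComplex.mk i p w).ShortExact) {n : ℕ}
    (h1 : ∀ v : Ext (trv εA) ((resF f.toRingHom).obj N₁) (n + 1), v = 0)
    (x : Ext (trv εA) ((resF f.toRingHom).obj N₃) n) :
    ∃ y : Ext (trv εA) ((resF f.toRingHom).obj N₂) n,
      y.comp (Ext.mk₀ ((resF f.toRingHom).map p)) (add_zero n) = x := by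
  have w' : (resF f.toRingHom).map i ≫ (resF f.toRingHom).map p = 0 := by
    rw [← Functor.map_comp, w, Functor.map_zero]
  have hS' : (ShortComplex.mk ((resF f.toRingHom).map i) ((resF f.toRingHom).map p) w').ShortExact
      := hS.map_of_exact (resF f.toRingHom)
  exact Ext.covariant_sequence_exact₃ (trv εA) hS' x rfl (h1 _)

/-- surjectivity on invariants -/
theorem Coll_surj (D : Coll_D k εA εC εB f g) {N₁ N₂ N₃ : ModuleCat.{u} C} {i : N₁ ⟶ N₂}
    {p : N₂ ⟶ N₃} {w : i ≫ p = 0}
    (hS : (ShortComplex.mk i p w).ShortExact) (h1 : Coll_acy εA f N₁) (q : N₃)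
    (hq : q ∈ Coll_inv D N₃) : ∃ r ∈ Coll_inv D N₂, p.hom r = q := by
  obtain ⟨x₂, hx₂⟩ := Coll_ext3 (εA := εA) (f := f) hS (h1 0) (Ext.mk₀ (Coll_hom D N₃ q hq))
  obtain ⟨ψ, rfl⟩ := (Ext.mk₀_bijective _ _).2 x₂
  rw [Ext.mk₀_comp_mk₀] at hx₂
  have h2 := (Ext.mk₀_bijective _ _).1 hx₂
  refine ⟨ψ.hom (1 : k), Coll_hom_mem D N₂ ψ, ?_⟩
  have h3 := congrArg (fun φ : trv εA ⟶ (resF f.toRingHom).obj N₃ => φ.hom (1 : k)) h2
  exact h3.trans (Coll_hom_one D N₃ q hq)

theorem Coll_w (D : Coll_D k εA εC εB f g) {N₁ N₂ N₃ : ModuleCat.{u} C} {i : N₁ ⟶ N₂}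
    {p : N₂ ⟶ N₃} (w : i ≫ p = 0) : Coll_map D i ≫ Coll_map D p = 0 := by
  ext n
  apply Coll_val_inj D N₃
  have h1 : p.hom (i.hom (Coll_val D N₁ n)) = 0 :=
    congrArg (fun φ : N₁ ⟶ N₃ => φ.hom (Coll_val D N₁ n)) w
  exact h1.trans (map_zero _).symm

theorem Coll_S_shortExact (D : Coll_D k εA εC εB f g) {N₁ N₂ N₃ : ModuleCat.{u} C} {i : N₁ ⟶ N₂}
    {p : N₂ ⟶ N₃} {w : i ≫ p = 0}
    (hS : (ShortComplex.mk i p w).ShortExact) (h1 : Coll_acy εA f N₁) :
    (ShortComplex.mk (Coll_map D i) (Coll_map D p) (Coll_w D w)).ShortExact := by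
  have hex : Function.Exact i p :=
    (ShortComplex.ShortExact.moduleCat_exact_iff_function_exact _).1 hS.exact
  have hinj : Function.Injective i := (ModuleCat.mono_iff_injective _).1 hS.mono_f
  refine ModuleCat.shortComplex_shortExact _ ?_ ?_ ?_
  · intro n
    constructor
    · intro h
      have h2 : p.hom (Coll_val D N₂ n) = 0 := by
        have := congrArg (Coll_val D N₃) h
        exact this.trans (map_zero _)
      obtain ⟨m, hm⟩ := (hex _).1 h2
      have hm' : i.hom m = Coll_val D N₂ n := hm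
      have hmi : m ∈ Coll_inv D N₁ := by
        intro a ha
        apply hinj
        have h3 : i.hom (f a • m) = 0 := by
          rw [map_smul, hm']
          exact Coll_val_mem D N₂ n a ha
        exact h3.trans (map_zero i.hom).symm
      exact ⟨Coll_mk D m hmi, Coll_val_inj D N₂ hm'⟩
    · rintro ⟨m, rfl⟩
      apply Coll_val_inj D N₃
      have h1 : p.hom (i.hom (Coll_val D N₁ m)) = 0 :=
        congrArg (fun φ : N₁ ⟶ N₃ => φ.hom (Coll_val D N₁ m)) w
      exact h1.trans (map_zero _).symm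
  · intro m m' h
    apply Coll_val_inj D N₁
    apply hinj
    exact congrArg (Coll_val D N₂) h
  · intro q
    obtain ⟨r, hr, hrq⟩ := Coll_surj D hS h1 (Coll_val D N₃ q) (Coll_val_mem D N₃ q)
    exact ⟨Coll_mk D r hr, Coll_val_inj D N₃ hrq⟩

/-- the cokernel of an acyclic module in an acyclic module is acyclic -/
theorem Coll_acy_quot {N₁ N₂ N₃ : ModuleCat.{u} C} {i : N₁ ⟶ N₂}
    {p : N₂ ⟶ N₃} {w : i ≫ p = 0}
    (hS : (ShortComplex.mk i p w).ShortExact) (h1 : Coll_acy εA f N₁) (h2 : Coll_acy εA f N₂) :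
    Coll_acy εA f N₃ := by
  intro n v
  obtain ⟨y, hy⟩ := Coll_ext3 (εA := εA) (f := f) hS (h1 (n + 1)) v
  rw [← hy, h2 n y, Ext.zero_comp]

/-- naturality -/
theorem Coll_step (g : C →ₐ[k] B) (hg : εB.comp g = εC) {X₁ X₂ X₃ : ModuleCat.{u} B}
    {i : X₁ ⟶ X₂} {p : X₂ ⟶ X₃} {w : i ≫ p = 0} (hS : (ShortComplex.mk i p w).ShortExact)
    {Y₁ Y₂ Y₃ : ModuleCat.{u} C} {i' : Y₁ ⟶ Y₂} {p' : Y₂ ⟶ Y₃} {w' : i' ≫ p' = 0}
    (hT : (ShortComplex.mk i' p' w').ShortExact) (a₁ : (resF g.toRingHom).obj X₁ ⟶ Y₁)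
    (a₂ : (resF g.toRingHom).obj X₂ ⟶ Y₂) (a₃ : (resF g.toRingHom).obj X₃ ⟶ Y₃)
    (c1 : a₁ ≫ i' = (resF g.toRingHom).map i ≫ a₂) (c2 : a₂ ≫ p' = (resF g.toRingHom).map p ≫ a₃)
    {n : ℕ} (z : Ext (trv εB) X₃ n) (e : Ext X₃ X₁ 1) (he : e = hS.extClass)
    (e' : Ext Y₃ Y₁ 1) (he' : e' = hT.extClass) :
    (resX g hg (z.comp e (rfl : n + 1 = n + 1))).comp (Ext.mk₀ a₁) (add_zero (n + 1)) =
      ((resX g hg z).comp (Ext.mk₀ a₃) (add_zero n)).comp e' (rfl : n + 1 = n + 1) := by
  have w2 : (resF g.toRingHom).map i ≫ (resF g.toRingHom).map p = 0 := by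
    rw [← Functor.map_comp, w, Functor.map_zero]
  have hS' : (ShortComplex.mk ((resF g.toRingHom).map i) ((resF g.toRingHom).map p) w2).ShortExact
      := hS.map_of_exact (resF g.toRingHom)
  have h1 : e.mapExactFunctor (resF g.toRingHom) = hS'.extClass := by
    rw [he]
    exact Ext.mapExactFunctor_extClass (resF g.toRingHom) hS
  have h2 := ShortComplex.ShortExact.extClass_naturality hS' hT
    { τ₁ := a₁, τ₂ := a₂, τ₃ := a₃, comm₁₂ := c1, comm₂₃ := c2 }
  have h3 : (e.mapExactFunctor (resF g.toRingHom)).comp (Ext.mk₀ a₁) (add_zero 1) =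
      (Ext.mk₀ a₃).comp e' (zero_add 1) := by
    rw [h1, he']
    exact h2
  rw [resX_comp_right, Ext.comp_assoc_of_third_deg_zero, h3, Ext.comp_assoc_of_second_deg_zero]

/-- lifting morphisms from `k` -/
theorem Coll_zero (D : Coll_D k εA εC εB f g) (N : ModuleCat.{u} C) (φ : trv εC ⟶ N) :
    ∃ ψ : trv εB ⟶ ModuleCat.of B (Coll_T D N),
      (trvIso εC εB g D.hg).hom ≫ (resF g.toRingHom).map ψ ≫ Coll_j D N = φ := by
  have hmem : ∀ s : (trv εC : ModuleCat.{u} C), φ.hom s ∈ Coll_inv D N := by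
    intro s a ha
    rw [← map_smul]
    have h1 : (f a • s : (trv εC : ModuleCat.{u} C)) = 0 := by
      apply Coll_to_inj
      rw [Coll_to_smul]
      have h2 : εC (f a) = εA a := by rw [← D.hf]; rfl
      rw [h2, ha, zero_mul]
      rfl
    rw [h1, map_zero]
  refine ⟨ConcreteCategory.ofHom (C := ModuleCat.{u} B) (X := trv εB)
    ({ toFun := fun s => Coll_mk D (φ.hom s) (hmem s)
       map_add' := fun s t => Coll_val_inj D N (map_add φ.hom s t)
       map_smul' := fun b s => Coll_val_inj D N (by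
        rw [RingHom.id_apply, Coll_val_smul D N (Coll_sec_eq D b), Coll_val_mk, Coll_val_mk,
          ← map_smul]
        congr 1
        have h2 : εC (Coll_sec D b) = εB b := by
          have h3 : ∀ c, εC c = εB (g c) := fun c => by rw [← D.hg]; rfl
          rw [h3, Coll_sec_eq]
        have h4 : (εB b * Coll_to εB s : k) = εC (Coll_sec D b) * Coll_to εB s := by rw [h2]
        exact h4) } :
      (trv εB : ModuleCat.{u} B) →ₗ[B] Coll_T D N), ?_⟩
  ext s
  exact congrArg φ.hom (trvIso_hom_apply g D.hg s)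

end

section

variable {k εA εC εB}
variable {f : A →ₐ[k] C} {g : C →ₐ[k] B}

omit [Algebra k A] in
theorem Coll_finite (g : C →ₐ[k] B) {W : ModuleCat.{u} B} {N : ModuleCat.{u} C}
    (j : (resF g.toRingHom).obj W ⟶ N) (hj : Function.Injective j.hom)
    (h : Module.Finite k N) : Module.Finite k W := by
  let φ : W →ₗ[k] N :=
    { toFun := fun n => j.hom n
      map_add' := fun n n' => map_add j.hom n n'
      map_smul' := fun c n => by
        have h1 : (c • n : W) = g (algebraMap k C c) • n := by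
          rw [AlgHom.commutes]
          exact (algebraMap_smul B c n).symm
        have h2 : j.hom (g (algebraMap k C c) • n : W) = algebraMap k C c • j.hom n :=
          map_smul j.hom (algebraMap k C c) (show (resF g.toRingHom).obj W from n)
        rw [RingHom.id_apply, h1]
        refine h2.trans ?_
        exact algebraMap_smul C c _ }
  exact Module.Finite.of_injective φ hj

end

/-- Let `N` be a `C`-module with `Ext_A^{n}(k, N) = 0` for `n ≥ 1`, where the coinduced modules
`Hom_k(C, ·)` are injective over `A`. Here `g : C → B` is surjective with kernel `C f(A⁺) = f(A⁺) C`. The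
subspace `N^A = {n | f(a) n = ε(a) n}` is a `C`-submodule on which `ker g` acts by zero, hence a
`B`-module. Then there are a `B`-module `W` (`= N^A`) and an injective
morphism `j : W → N` such that `Ext_B^n(k, W) → Ext_C^n(k, N)`, `z ↦ inf(z) j`, is surjective.
Proof by induction on `n`, for all such `N`. `n = 0`: `Hom_C(k, N) = (N^A)^B`. `n + 1`:
`g = g' e_N` with `g' ∈ Ext^n(k, Q(N))` (`coS`), `Q(N)` is again `A`-acyclic, `g' = inf(g'') j_Q`;
the class `ε'` of `0 → N^A → F(N)^A → Q(N)^A → 0` satisfies `inf(ε') j_N = j_Q e_N`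
(`extClass_naturality`), so `g = inf(g'' ε') j_N`. -/
theorem collapse (f : A →ₐ[k] C) (hf : εC.comp f = εA) (g : C →ₐ[k] B) (hg : εB.comp g = εC)
    (hsurj : Function.Surjective g)
    (hker : ∀ c : C, g c = 0 → c ∈ Submodule.span k {x | ∃ (c' : C) (a : A), εA a = 0 ∧ x = c' * f a})
    (hker' : ∀ (c : C) (a : A), εA a = 0 →
      f a * c ∈ Submodule.span k {x | ∃ (c' : C) (a : A), εA a = 0 ∧ x = c' * f a})
    (hker'' : ∀ a : A, εA a = 0 → g (f a) = 0)
    (hI : ∀ N : ModuleCat.{u} C, Injective ((resF f.toRingHom).obj ((FF k).obj N)))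
    (N : ModuleCat.{u} C)
    (hN : ∀ (n : ℕ) (v : Ext (trv εA) ((resF f.toRingHom).obj N) (n + 1)), v = 0) :
    ∃ (W : ModuleCat.{u} B) (j : (resF g.toRingHom).obj W ⟶ N),
      (Module.Finite k N → Module.Finite k W) ∧
      ∀ (n : ℕ) (z : Ext (trv εC) N n), ∃ z' : Ext (trv εB) W n,
        (resX g hg z').comp (Ext.mk₀ j) (add_zero n) = z := by
  have D : Coll_D k εA εC εB f g := ⟨hf, hg, hsurj, hker, hker', hker''⟩
  refine ⟨ModuleCat.of B (Coll_T D N), Coll_j D N, ?_, ?_⟩
  · intro hfin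
    exact Coll_finite g (Coll_j D N) (Coll_val_inj D N) hfin
  · intro n
    induction n generalizing N with
    | zero =>
      intro z
      obtain ⟨φ, rfl⟩ := (Ext.mk₀_bijective _ _).2 z
      obtain ⟨ψ, hψ⟩ := Coll_zero D N φ
      refine ⟨Ext.mk₀ ψ, ?_⟩
      unfold resX
      rw [Ext.mapExactFunctor_mk₀, Ext.mk₀_comp_mk₀, Ext.mk₀_comp_mk₀, Category.assoc, hψ]
    | succ n ih =>
      intro z
      have hS : (ShortComplex.mk ((etaT k).app N) ((prT k).app N) (coS k N).zero).ShortExact :=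
        coS_shortExact k N
      obtain ⟨z₁, hz₁⟩ : ∃ z₁ : Ext (trv εC) ((QF k).obj N) n,
          z₁.comp hS.extClass rfl = z := by
        have hinj : Injective ((FF k).obj N) := inferInstance
        exact Ext.covariant_sequence_exact₁ (trv εC) hS z
          (Ext.eq_zero_of_injective (I := (FF k).obj N) _) (n₀ := n) rfl
      have hacy : Coll_acy εA f ((QF k).obj N) := by
        refine Coll_acy_quot hS hN fun m v => ?_
        have hinj2 : Injective ((resF f.toRingHom).obj ((FF k).obj N)) := hI N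
        exact Ext.eq_zero_of_injective (I := (resF f.toRingHom).obj ((FF k).obj N)) v
      obtain ⟨z₂, hz₂⟩ := ih ((QF k).obj N) hacy z₁
      have hSB := Coll_S_shortExact D hS hN
      refine ⟨z₂.comp (hSB.extClass : Ext (ModuleCat.of B (Coll_T D ((QF k).obj N)))
        (ModuleCat.of B (Coll_T D N)) 1) rfl, ?_⟩
      have h1 := Coll_step g hg hSB hS (Coll_j D N) (Coll_j D ((FF k).obj N))
        (Coll_j D ((QF k).obj N)) rfl rfl z₂ hSB.extClass rfl hS.extClass rfl
      rw [h1, hz₂]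
      exact hz₁

end Pool.Agent.H26.FG
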