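import Mathlib

/-!
# MP_d746d7_al: finite generation of cohomology and Hopf algebra extensions. Definitions.
-/

open CategoryTheory Abelian TensorProduct
open scoped ModuleCat

universe u

namespace Pool.Agent.H26.FG

/-! ## Modules of an augmented algebra, tensor products of modules of a bialgebra -/

section Trivial

variable {k : Type u} [Field k] {C : Type u} [Ring C] [Algebra k C]

/-- The one-dimensional module `k` of an augmentation `ε : C → k` (`c` acts by `ε c`). -/
noncomputable def trv (ε : C →ₐ[k] k) : ModuleCat.{u} C :=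
  (ModuleCat.restrictScalars ε.toRingHom).obj (ModuleCat.of k k)

end Trivial

section Tensor

variable (k : Type u) [Field k] {H : Type u} [Ring H] [Bialgebra k H]

/-- The trivial module `k` of a bialgebra (`h` acts by the counit). -/
noncomputable abbrev triv (k : Type u) [Field k] (H : Type u) [Ring H] [Bialgebra k H] :
    ModuleCat.{u} H :=
  trv (Bialgebra.counitAlgHom k H)

/-- The underlying space of the tensor product `X ⊗ M` of two modules of a bialgebra. -/
def Ten (X M : ModuleCat.{u} H) : Type u := X ⊗[k] M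

noncomputable instance (X M : ModuleCat.{u} H) : AddCommGroup (Ten k X M) :=
  inferInstanceAs (AddCommGroup (X ⊗[k] M))

/-- The action of `H` on `X ⊗ M` through the comultiplication:
`h (x ⊗ m) = ∑ h₁ x ⊗ h₂ m`. -/
noncomputable def tenAct (X M : ModuleCat.{u} H) : H →ₐ[k] Module.End k (X ⊗[k] M) :=
  (Module.endTensorEndAlgHom (R := k) (S := k) (A := k) (M := X) (N := M)).comp
    ((Algebra.TensorProduct.map (Algebra.lsmul k k X) (Algebra.lsmul k k M)).comp
      (Bialgebra.comulAlgHom k H))

noncomputable instance (X M : ModuleCat.{u} H) : Module H (Ten k X M) :=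
  Module.compHom (X ⊗[k] M) (tenAct k X M).toRingHom

lemma ten_smul_def (X M : ModuleCat.{u} H) (h : H) (t : Ten k X M) :
    h • t = (tenAct k X M h (t : X ⊗[k] M) : X ⊗[k] M) := rfl

/-- The pure tensor `x ⊗ m` as an element of `Ten k X M`. -/
noncomputable def ten {X M : ModuleCat.{u} H} (x : X) (m : M) : Ten k X M :=
  (x ⊗ₜ[k] m : X ⊗[k] M)

lemma smul_ten {X M : ModuleCat.{u} H} (h : H) (x : X) (m : M) {ι : Type*}
    (r : Coalgebra.Repr k h ι) :
    h • ten k x m = ∑ i ∈ r.index, ten k (r.left i • x) (r.right i • m) := by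
  change (tenAct k X M h (x ⊗ₜ[k] m) : X ⊗[k] M) = ∑ i ∈ r.index, (r.left i • x) ⊗ₜ[k] (r.right i • m)
  simp only [tenAct, AlgHom.comp_apply, Bialgebra.comulAlgHom_apply, ← r.eq, map_sum,
    Algebra.TensorProduct.map_tmul, LinearMap.sum_apply]
  rfl

@[simp] lemma ten_add {X M : ModuleCat.{u} H} (x : X) (m m' : M) :
    ten k x (m + m') = ten k x m + ten k x m' := TensorProduct.tmul_add _ _ _

@[simp] lemma add_ten {X M : ModuleCat.{u} H} (x x' : X) (m : M) :
    ten k (x + x') m = ten k x m + ten k x' m := TensorProduct.add_tmul _ _ _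

lemma ten_sum {X M : ModuleCat.{u} H} {ι : Type*} (s : Finset ι) (x : X) (m : ι → M) :
    ten k x (∑ i ∈ s, m i) = ∑ i ∈ s, ten k x (m i) := TensorProduct.tmul_sum _ _ _

lemma sum_ten {X M : ModuleCat.{u} H} {ι : Type*} (s : Finset ι) (x : ι → X) (m : M) :
    ten k (∑ i ∈ s, x i) m = ∑ i ∈ s, ten k (x i) m := TensorProduct.sum_tmul _ _ _

lemma ten_induction {X M : ModuleCat.{u} H} {P : Ten k X M → Prop} (t : Ten k X M)
    (h0 : P 0) (h1 : ∀ x m, P (ten k x m)) (h2 : ∀ s t, P s → P t → P (s + t)) : P t :=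
  TensorProduct.induction_on (motive := P) t h0 h1 h2

/-- `f ⊗ g` as an additive map. -/
noncomputable def tenAdd {X X' M M' : ModuleCat.{u} H} (f : X ⟶ X') (g : M ⟶ M') :
    Ten k X M →+ Ten k X' M' :=
  (TensorProduct.map (f.hom.restrictScalars k) (g.hom.restrictScalars k)).toAddMonoidHom

@[simp] lemma tenAdd_ten {X X' M M' : ModuleCat.{u} H} (f : X ⟶ X') (g : M ⟶ M') (x : X) (m : M) :
    tenAdd k f g (ten k x m) = ten k (f.hom x) (g.hom m) := rfl

lemma tenAdd_smul {X X' M M' : ModuleCat.{u} H} (f : X ⟶ X') (g : M ⟶ M') (h : H) (t : Ten k X M) :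
    tenAdd k f g (h • t) = h • tenAdd k f g t := by
  induction t using ten_induction with
  | h0 => simp
  | h1 x m =>
    rw [tenAdd_ten, smul_ten k h x m (Coalgebra.Repr.arbitrary k h),
      smul_ten k h _ _ (Coalgebra.Repr.arbitrary k h), map_sum]
    simp
  | h2 s t hs ht => rw [smul_add, map_add, map_add, smul_add, hs, ht]

/-- `f ⊗ g` as a morphism of `H`-modules. -/
noncomputable def tenMap {X X' M M' : ModuleCat.{u} H} (f : X ⟶ X') (g : M ⟶ M') :
    ModuleCat.of H (Ten k X M) ⟶ ModuleCat.of H (Ten k X' M') :=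
  ModuleCat.ofHom
    { toFun := tenAdd k f g
      map_add' := map_add _
      map_smul' := tenAdd_smul k f g }

@[simp] lemma tenMap_ten {X X' M M' : ModuleCat.{u} H} (f : X ⟶ X') (g : M ⟶ M') (x : X) (m : M) :
    (tenMap k f g).hom (ten k x m) = ten k (f.hom x) (g.hom m) := rfl

/-- Two morphisms out of a tensor product agree if they agree on pure tensors. -/
lemma ten_hom_ext {X M Z : ModuleCat.{u} H} {f g : ModuleCat.of H (Ten k X M) ⟶ Z}
    (h : ∀ x m, f.hom (ten k x m) = g.hom (ten k x m)) : f = g := by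
  ext t
  induction (t : Ten k X M) using ten_induction with
  | h0 => rw [map_zero, map_zero]
  | h1 x m => exact h x m
  | h2 s t hs ht => rw [map_add, map_add, hs, ht]

/-- The functor `X ↦ X ⊗ M` on `H`-modules. -/
noncomputable def tenR (M : ModuleCat.{u} H) : ModuleCat.{u} H ⥤ ModuleCat.{u} H where
  obj X := ModuleCat.of H (Ten k X M)
  map f := tenMap k f (𝟙 M)
  map_id _ := ten_hom_ext k fun _ _ => rfl
  map_comp _ _ := ten_hom_ext k fun _ _ => rfl

/-- The functor `M ↦ X ⊗ M` on `H`-modules. -/
noncomputable def tenL (X : ModuleCat.{u} H) : ModuleCat.{u} H ⥤ ModuleCat.{u} H where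
  obj M := ModuleCat.of H (Ten k X M)
  map g := tenMap k (𝟙 X) g
  map_id _ := ten_hom_ext k fun _ _ => rfl
  map_comp _ _ := ten_hom_ext k fun _ _ => rfl

/-- The element `1` of the trivial module. -/
def tone (k : Type u) [Field k] (H : Type u) [Ring H] [Bialgebra k H] : triv k H := (1 : k)

/-- An element of the trivial module as a scalar. -/
def tval : triv k H →+ k := AddMonoidHom.id k

lemma tval_tone : tval k (tone k H) = 1 := rfl

lemma tval_injective : Function.Injective (tval k (H := H)) := fun _ _ h => h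

lemma tval_smul (h : H) (x : triv k H) :
    tval k (h • x) = Coalgebra.counit (R := k) h * tval k x := rfl

@[simp] lemma tval_smul' (c : k) (x : triv k H) : tval k (c • x) = c * tval k x := by
  have : c • x = algebraMap k H c • x := (algebraMap_smul H c x).symm
  rw [this, tval_smul, Bialgebra.counit_algebraMap]

lemma triv_eq (x : triv k H) : x = tval k x • tone k H :=
  tval_injective k (by rw [tval_smul', tval_tone, mul_one])

lemma smul_tone (h : H) : h • tone k H = Coalgebra.counit (R := k) h • tone k H :=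
  tval_injective k (by rw [tval_smul, tval_smul'])

@[simp] lemma smul_ten' {X M : ModuleCat.{u} H} (c : k) (x : X) (m : M) :
    ten k (c • x) m = ten k x (c • m) := TensorProduct.smul_tmul _ _ _

/-- `k ⊗ M → M`, additive version. -/
noncomputable def lamAdd (M : ModuleCat.{u} H) : Ten k (triv k H) M →+ M :=
  (TensorProduct.lift (LinearMap.mk₂ k (fun (x : triv k H) (m : M) => tval k x • m)
    (fun x y m => by rw [map_add, add_smul]) (fun c x m => by rw [tval_smul', mul_smul])
    (fun _ _ _ => smul_add _ _ _) (fun _ _ _ => smul_comm _ _ _))).toAddMonoidHom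

@[simp] lemma lamAdd_ten (M : ModuleCat.{u} H) (x : triv k H) (m : M) :
    lamAdd k M (ten k x m) = tval k x • m := rfl

lemma lamAdd_smul (M : ModuleCat.{u} H) (h : H) (t : Ten k (triv k H) M) :
    lamAdd k M (h • t) = h • lamAdd k M t := by
  induction t using ten_induction with
  | h0 => simp
  | h1 x m =>
    rw [lamAdd_ten, smul_ten k h x m (Coalgebra.Repr.arbitrary k h), map_sum]
    conv_rhs => rw [← Coalgebra.sum_counit_smul (R := k) (Coalgebra.Repr.arbitrary k h),
      Finset.sum_smul]
    refine Finset.sum_congr rfl fun i _ => ?_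
    rw [lamAdd_ten, tval_smul, mul_comm, mul_smul, smul_assoc, smul_comm]
    simp only [smul_comm (tval k x)]
  | h2 s t hs ht => rw [smul_add, map_add, map_add, smul_add, hs, ht]

/-- `M → k ⊗ M`. -/
noncomputable def lamInv (M : ModuleCat.{u} H) : M ⟶ ModuleCat.of H (Ten k (triv k H) M) :=
  ModuleCat.ofHom
    { toFun := fun m => ten k (tone k H) m
      map_add' := fun m m' => ten_add k _ m m'
      map_smul' := by
        intro h m
        rw [RingHom.id_apply, smul_ten k h _ m (Coalgebra.Repr.arbitrary k h)]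
        conv_lhs => rw [← Coalgebra.sum_counit_smul (R := k) (Coalgebra.Repr.arbitrary k h),
          Finset.sum_smul, ten_sum]
        refine Finset.sum_congr rfl fun i _ => ?_
        rw [smul_tone, smul_ten', smul_assoc] }

/-- The isomorphism `k ⊗ M ≅ M`. -/
noncomputable def lamIso (M : ModuleCat.{u} H) : (tenR k M).obj (triv k H) ≅ M where
  hom := ModuleCat.ofHom
    { toFun := lamAdd k M
      map_add' := map_add _
      map_smul' := lamAdd_smul k M }
  inv := lamInv k M
  hom_inv_id := ten_hom_ext k fun x m => by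
    change ten k (tone k H) (tval k x • m) = ten k x m
    conv_rhs => rw [triv_eq k x, smul_ten']
  inv_hom_id := by
    ext m
    change tval k (tone k H) • m = m
    rw [tval_tone, one_smul]

instance (M : ModuleCat.{u} H) : (tenR k M).Additive where
  map_add := ten_hom_ext k fun _ _ => add_ten k _ _ _

instance (X : ModuleCat.{u} H) : (tenL k X).Additive where
  map_add := ten_hom_ext k fun _ _ => ten_add k _ _ _

lemma tenR_exact (M : ModuleCat.{u} H) (S : ShortComplex (ModuleCat.{u} H)) (hS : S.Exact) :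
    (S.map (tenR k M)).Exact := by
  rw [ShortComplex.ShortExact.moduleCat_exact_iff_function_exact] at hS ⊢
  have hS' : Function.Exact (S.f.hom.restrictScalars k) (S.g.hom.restrictScalars k) := hS
  exact Module.Flat.rTensor_exact M hS'

lemma tenL_exact (X : ModuleCat.{u} H) (S : ShortComplex (ModuleCat.{u} H)) (hS : S.Exact) :
    (S.map (tenL k X)).Exact := by
  rw [ShortComplex.ShortExact.moduleCat_exact_iff_function_exact] at hS ⊢
  have hS' : Function.Exact (S.f.hom.restrictScalars k) (S.g.hom.restrictScalars k) := hS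
  exact Module.Flat.lTensor_exact X hS'

instance (M : ModuleCat.{u} H) : Limits.PreservesFiniteLimits (tenR k M) := by
  have h := ((tenR k M).exact_tfae.out 1 3).mp (tenR_exact k M)
  exact h.1

instance (M : ModuleCat.{u} H) : Limits.PreservesFiniteColimits (tenR k M) := by
  have h := ((tenR k M).exact_tfae.out 1 3).mp (tenR_exact k M)
  exact h.2

instance (X : ModuleCat.{u} H) : Limits.PreservesFiniteLimits (tenL k X) := by
  have h := ((tenL k X).exact_tfae.out 1 3).mp (tenL_exact k X)
  exact h.1

instance (X : ModuleCat.{u} H) : Limits.PreservesFiniteColimits (tenL k X) := by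
  have h := ((tenL k X).exact_tfae.out 1 3).mp (tenL_exact k X)
  exact h.2

/-- The class `x ⊗ M` in `Ext^n(M, M)` of a class `x` in `Ext^n(k, k)`. -/
noncomputable def act (M : ModuleCat.{u} H) {n : ℕ} (x : Ext (triv k H) (triv k H) n) :
    Ext M M n :=
  (Ext.mk₀ (lamIso k M).inv).comp
    ((x.mapExactFunctor (tenR k M)).comp (Ext.mk₀ (lamIso k M).hom) (add_zero n)) (zero_add n)

end Tensor

/-! ## Finite generation of cohomology -/

section FGC

variable (k : Type u) [Field k] (H : Type u) [Ring H] [HopfAlgebra k H]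

/-- `H` satisfies FGC. -/
structure FGC : Prop where
  /-- the algebra `Ext^•(k,k)` is generated by finitely many (homogeneous) classes -/
  alg : ∃ S : Set (Σ n : ℕ, Ext (triv k H) (triv k H) n), S.Finite ∧
    ∀ V : (n : ℕ) → Submodule k (Ext (triv k H) (triv k H) n),
      Ext.mk₀ (𝟙 (triv k H)) ∈ V 0 → (∀ s ∈ S, s.2 ∈ V s.1) →
      (∀ (a b c : ℕ) (h : a + b = c) (x : Ext (triv k H) (triv k H) a)
        (y : Ext (triv k H) (triv k H) b), x ∈ V a → y ∈ V b → x.comp y h ∈ V c) →
      ∀ n, V n = ⊤
  /-- `Ext^•(M,N)` is a finitely generated module over `Ext^•(k,k)` -/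
  mod : ∀ M N : ModuleCat.{u} H, Module.Finite k M → Module.Finite k N →
    ∃ G : Set (Σ n : ℕ, Ext M N n), G.Finite ∧
      ∀ V : (n : ℕ) → Submodule k (Ext M N n), (∀ g ∈ G, g.2 ∈ V g.1) →
      (∀ (a b c : ℕ) (h : a + b = c) (x : Ext (triv k H) (triv k H) a) (y : Ext M N b),
        y ∈ V b → (act k M x).comp y h ∈ V c) →
      ∀ n, V n = ⊤

end FGC

/-! ## Restriction along ring homomorphisms -/

section Res

/-- Restriction of scalars along a homomorphism of (not necessarily commutative) rings. -/
noncomputable abbrev resF {A C : Type u} [Ring A] [Ring C] (f : A →+* C) :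
    ModuleCat.{u} C ⥤ ModuleCat.{u} A :=
  ModuleCat.restrictScalars f

lemma resF_exact {A C : Type u} [Ring A] [Ring C] (f : A →+* C)
    (S : ShortComplex (ModuleCat.{u} C)) (hS : S.Exact) : (S.map (resF f)).Exact := by
  rw [ShortComplex.ShortExact.moduleCat_exact_iff_function_exact] at hS ⊢
  exact hS

instance {A C : Type u} [Ring A] [Ring C] (f : A →+* C) : Limits.PreservesFiniteLimits (resF f) := by
  have h := ((resF f).exact_tfae.out 1 3).mp (resF_exact f)
  exact h.1

instance {A C : Type u} [Ring A] [Ring C] (f : A →+* C) :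
    Limits.PreservesFiniteColimits (resF f) := by
  have h := ((resF f).exact_tfae.out 1 3).mp (resF_exact f)
  exact h.2

variable {k : Type u} [Field k]

/-- The trivial module of `A` is the restriction of the trivial module of `C`. -/
noncomputable def trvIso {A C : Type u} [Ring A] [Algebra k A] [Ring C] [Algebra k C]
    (εA : A →ₐ[k] k) (εC : C →ₐ[k] k) (f : A →ₐ[k] C) (h : εC.comp f = εA) :
    trv εA ≅ (resF f.toRingHom).obj (trv εC) := by
  subst h
  exact Iso.refl _

/-- Restriction `Ext_C^n(k, N) → Ext_A^n(k, N)` along a homomorphism of augmented algebras. -/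
noncomputable def resX {A C : Type u} [Ring A] [Algebra k A] [Ring C] [Algebra k C]
    {εA : A →ₐ[k] k} {εC : C →ₐ[k] k} (f : A →ₐ[k] C) (h : εC.comp f = εA) {N : ModuleCat.{u} C}
    {n : ℕ} (x : Ext (trv εC) N n) : Ext (trv εA) ((resF f.toRingHom).obj N) n :=
  (Ext.mk₀ (trvIso εA εC f h).hom).comp (x.mapExactFunctor (resF f.toRingHom)) (zero_add n)

/-- Restriction `Ext_C^n(k, k) → Ext_A^n(k, k)` along a homomorphism of augmented algebras. -/
noncomputable def resK {A C : Type u} [Ring A] [Algebra k A] [Ring C] [Algebra k C]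
    {εA : A →ₐ[k] k} {εC : C →ₐ[k] k} (f : A →ₐ[k] C) (h : εC.comp f = εA)
    {n : ℕ} (x : Ext (trv εC) (trv εC) n) : Ext (trv εA) (trv εA) n :=
  (resX f h x).comp (Ext.mk₀ (trvIso εA εC f h).inv) (add_zero n)

/-- Restriction `Ext_C^n(k, k) → Ext_A^n(k, k)` along a homomorphism of bialgebras. -/
noncomputable abbrev res {A C : Type u} [Ring A] [Bialgebra k A] [Ring C] [Bialgebra k C]
    (f : A →ₐc[k] C) {n : ℕ} (x : Ext (triv k C) (triv k C) n) : Ext (triv k A) (triv k A) n :=
  resK (f : A →ₐ[k] C) f.counitAlgHom_comp x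

end Res

/-! ## Exact sequences of Hopf algebras -/

section Exact

variable {k : Type u} [Field k] {C : Type u} [Ring C] [HopfAlgebra k C]

/-- The left adjoint action `∑ c₁ x S(c₂)`. -/
noncomputable def adl (k : Type u) [Field k] {C : Type u} [Ring C] [HopfAlgebra k C] (c x : C) : C :=
  LinearMap.mul' k C (TensorProduct.map (LinearMap.mulRight k x) (HopfAlgebra.antipode k)
    (Coalgebra.comul (R := k) c))

/-- The right adjoint action `∑ S(c₁) x c₂`. -/
noncomputable def adr (k : Type u) [Field k] {C : Type u} [Ring C] [HopfAlgebra k C] (c x : C) : C :=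
  LinearMap.mul' k C (TensorProduct.map (LinearMap.mulRight k x ∘ₗ HopfAlgebra.antipode k)
    LinearMap.id (Coalgebra.comul (R := k) c))

/-- `k → A → C → B → k` is an exact sequence of Hopf algebras: `ι` is injective, `π` is
surjective, `ι(A)` is normal in `C` (stable under both adjoint actions) and
`ker π = C ι(A)⁺`. -/
structure HopfExact {A B : Type u} [Ring A] [HopfAlgebra k A] [Ring B] [HopfAlgebra k B]
    (ι : A →ₐc[k] C) (π : C →ₐc[k] B) : Prop where
  inj : Function.Injective ι
  surj : Function.Surjective π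
  adl_mem : ∀ (c : C) (a : A), ∃ a' : A, ι a' = adl k c (ι a)
  adr_mem : ∀ (c : C) (a : A), ∃ a' : A, ι a' = adr k c (ι a)
  ker : ∀ c : C, π c = 0 ↔ c ∈ Ideal.span (ι '' {a : A | Coalgebra.counit (R := k) a = 0})

end Exact

/-! ## The class of a 2-cocycle -/

section Cocycle

variable {k : Type u} [Field k] {A : Type u} [Ring A] [Algebra k A]

/-- A 2-cocycle `A × A → k` of the augmented algebra `A` (trivial coefficients). -/
structure Cocycle₂ (ε : A →ₐ[k] k) where
  /-- the underlying bilinear form -/
  fn : A →ₗ[k] A →ₗ[k] k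
  cocycle : ∀ a b c, ε a * fn b c - fn (a * b) c + fn a (b * c) - fn a b * ε c = 0

variable {ε : A →ₐ[k] k}

/-- The augmentation ideal as a left module. -/
def augI (ε : A →ₐ[k] k) : Submodule A A := RingHom.ker ε.toRingHom

lemma mem_augI {a : A} : a ∈ augI ε ↔ ε a = 0 := Iff.rfl

lemma Cocycle₂.fn_one (x : Cocycle₂ ε) (b : augI ε) : x.fn 1 b = 0 := by
  have h := x.cocycle 1 1 b
  have hb : ε (b : A) = 0 := mem_augI.1 b.2
  simpa [hb] using h

lemma Cocycle₂.fn_mul (x : Cocycle₂ ε) (a a' : A) (b : augI ε) :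
    x.fn (a * a') b = ε a * x.fn a' b + x.fn a (a' * b) := by
  have h := x.cocycle a a' b
  have hb : ε (b : A) = 0 := mem_augI.1 b.2
  rw [hb, mul_zero, sub_zero] at h
  linear_combination -h

/-- The space `k × A⁺` underlying the extension of `A⁺` by `k` attached to a 2-cocycle. -/
structure WX (x : Cocycle₂ ε) : Type u where
  /-- the component in `k` -/
  fst : k
  /-- the component in `A⁺` -/
  snd : augI ε

namespace WX

variable {x : Cocycle₂ ε}

/-- `WX x` as a product. -/
def equiv (x : Cocycle₂ ε) : WX x ≃ k × augI ε where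
  toFun w := (w.fst, w.snd)
  invFun w := ⟨w.1, w.2⟩
  left_inv _ := rfl
  right_inv _ := rfl

instance : AddCommGroup (WX x) := (equiv x).addCommGroup

/-- `a (s, b) = (ε(a) s + x(a, b), a b)`. -/
instance : SMul A (WX x) := ⟨fun a w => ⟨ε a * w.fst + x.fn a w.snd, a • w.snd⟩⟩

@[ext] lemma ext' {v w : WX x} (h1 : v.fst = w.fst) (h2 : v.snd = w.snd) : v = w := by
  cases v; cases w; cases h1; cases h2; rfl

@[simp] lemma add_fst (v w : WX x) : (v + w).fst = v.fst + w.fst := rfl
@[simp] lemma add_snd (v w : WX x) : (v + w).snd = v.snd + w.snd := rfl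
@[simp] lemma zero_fst : (0 : WX x).fst = 0 := rfl
@[simp] lemma zero_snd : (0 : WX x).snd = 0 := rfl
@[simp] lemma smul_fst (a : A) (w : WX x) : (a • w).fst = ε a * w.fst + x.fn a w.snd := rfl
@[simp] lemma smul_snd (a : A) (w : WX x) : (a • w).snd = a • w.snd := rfl

instance : Module A (WX x) where
  one_smul w := by ext <;> simp [x.fn_one]
  mul_smul a b w := by
    ext
    · simp only [smul_fst, smul_snd, map_mul, x.fn_mul, Submodule.coe_smul, smul_eq_mul]
      ring
    · simp [mul_assoc]
  smul_zero a := by ext <;> simp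
  smul_add a v w := by ext <;> simp [mul_add, add_add_add_comm]
  add_smul a b w := by ext <;> simp [add_mul, add_add_add_comm]
  zero_smul w := by ext <;> simp

end WX

/-- `ε : A → k` as a homomorphism of left modules. -/
noncomputable def augPr (ε : A →ₐ[k] k) : A →ₗ[A] (trv ε : ModuleCat.{u} A) where
  toFun := fun a => (ε a : k)
  map_add' := map_add ε
  map_smul' := fun a b => map_mul ε a b

/-- The inclusion `k → WX x`. -/
noncomputable def cocIn (x : Cocycle₂ ε) : (trv ε : ModuleCat.{u} A) →ₗ[A] WX x where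
  toFun := fun s => ⟨(s : k), 0⟩
  map_add' := fun s t => by ext <;> simp; rfl
  map_smul' := fun a s => by
    ext
    · change ε a * _ = _
      simp
    · simp

/-- The projection `WX x → A⁺`. -/
def cocPr (x : Cocycle₂ ε) : WX x →ₗ[A] augI ε where
  toFun := fun w => w.snd
  map_add' := fun _ _ => rfl
  map_smul' := fun _ _ => rfl

/-- The short exact sequence `0 → A⁺ → A → k → 0` of left `A`-modules. -/
noncomputable def augS (ε : A →ₐ[k] k) : ShortComplex (ModuleCat.{u} A) :=
  ShortComplex.mk (X₁ := ModuleCat.of A (augI ε)) (X₂ := ModuleCat.of A A) (X₃ := trv ε)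
    (ModuleCat.ofHom (augI ε).subtype)
    (ConcreteCategory.ofHom (C := ModuleCat.{u} A) (Y := trv ε) (augPr ε)) (by ext b; exact b.2)

lemma augS_shortExact (ε : A →ₐ[k] k) : (augS ε).ShortExact := by
  refine ModuleCat.shortComplex_shortExact _ ?_ ?_ ?_
  · intro a
    constructor
    · intro h
      exact ⟨⟨a, h⟩, rfl⟩
    · rintro ⟨b, rfl⟩
      exact b.2
  · exact Subtype.val_injective
  · intro s
    exact ⟨algebraMap k A s, ε.commutes s⟩

/-- The short exact sequence `0 → k → WX x → A⁺ → 0` of left `A`-modules. -/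
noncomputable def cocS (x : Cocycle₂ ε) : ShortComplex (ModuleCat.{u} A) :=
  ShortComplex.mk (X₁ := trv ε) (X₂ := ModuleCat.of A (WX x)) (X₃ := ModuleCat.of A (augI ε))
    (ConcreteCategory.ofHom (C := ModuleCat.{u} A) (X := trv ε) (cocIn x))
    (ModuleCat.ofHom (cocPr x)) (by ext; rfl)

lemma cocS_shortExact (x : Cocycle₂ ε) : (cocS x).ShortExact := by
  refine ModuleCat.shortComplex_shortExact _ ?_ ?_ ?_
  · intro w
    constructor
    · intro h
      exact ⟨w.fst, WX.ext' rfl (Eq.symm h)⟩
    · rintro ⟨s, rfl⟩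
      rfl
  · intro s t h
    exact congrArg WX.fst h
  · intro b
    exact ⟨⟨0, b⟩, rfl⟩

/-- The class in `Ext²_A(k, k)` of a 2-cocycle: the Yoneda class of
`0 → k → WX x → A → k → 0`. -/
noncomputable def cls₂ (x : Cocycle₂ ε) : Ext (trv ε) (trv ε) 2 :=
  (augS_shortExact ε).extClass.comp (cocS_shortExact x).extClass rfl

end Cocycle

/-! ## The adjoint action of `C` on a normal Hopf subalgebra `A` and on its cohomology -/

section Adj

variable {k : Type u} [Field k] {A C : Type u} [Ring A] [HopfAlgebra k A] [Ring C] [HopfAlgebra k C]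

/-- The adjoint action of `C` on the normal Hopf subalgebra `ι(A)`: `ι (adA ι c a) = ∑ c₁ ι(a) S(c₂)`
(the element of `A` with this property exists and is unique if `ι(A)` is normal and `ι` injective). -/
noncomputable def adA (ι : A →ₐc[k] C) (c : C) (a : A) : A :=
  Function.invFun ι (adl k c (ι a))

/-- `C` acts trivially on `H¹(A, k)`, i.e. on the space of `ε`-derivations `A → k`. -/
def TrivH1 (ι : A →ₐc[k] C) : Prop :=
  ∀ z : A →ₗ[k] k, (∀ a b : A, z (a * b) = Coalgebra.counit (R := k) a * z b +
      z a * Coalgebra.counit (R := k) b) →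
    ∀ (c : C) (a : A), z (adA ι c a) = Coalgebra.counit (R := k) c * z a

/-- The class in `H²(A, k)` of the 2-cocycle `x` is fixed by the adjoint action of `C`: for every
`c` in `C` the cochain `(a, b) ↦ ∑ x(c₁ ▸ a, c₂ ▸ b) - ε(c) x(a, b)` is a coboundary. -/
def InvClass (ι : A →ₐc[k] C) (x : Cocycle₂ (Bialgebra.counitAlgHom k A)) : Prop :=
  ∀ c : C, ∃ w : A →ₗ[k] k, ∀ a b : A,
    ∑ i ∈ (Coalgebra.Repr.arbitrary k c).index,
      x.fn (adA ι ((Coalgebra.Repr.arbitrary k c).left i) a)
        (adA ι ((Coalgebra.Repr.arbitrary k c).right i) b) -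
      Coalgebra.counit (R := k) c * x.fn a b =
    Coalgebra.counit (R := k) a * w b - w (a * b) + w a * Coalgebra.counit (R := k) b

end Adj

end Pool.Agent.H26.FG
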