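import Pool.Agent.H26.FG.CoDefs

/-!
# Module Du: the dual bialgebra of a finite-dimensional bialgebra
-/

open TensorProduct Coalgebra

universe u v w

namespace Pool.Agent.H26.FG

/-- The dual of a bialgebra, an algebra under convolution. -/
def Du (k : Type u) [Field k] (C : Type v) [Ring C] [Bialgebra k C] : Type (max u v) :=
  WithConv (C →ₗ[k] k)

namespace Du

section Alg

variable {k : Type u} [Field k] {C : Type v} [Ring C] [Bialgebra k C]

noncomputable instance : Ring (Du k C) := inferInstanceAs (Ring (WithConv (C →ₗ[k] k)))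

noncomputable instance : Algebra k (Du k C) :=
  inferInstanceAs (Algebra k (WithConv (C →ₗ[k] k)))

/-- Elements of the dual as linear forms. -/
noncomputable def eqv (k : Type u) [Field k] (C : Type v) [Ring C] [Bialgebra k C] :
    Du k C ≃ₗ[k] (C →ₗ[k] k) := WithConv.linearEquiv k (C →ₗ[k] k)

/-- The linear form of an element of the dual. -/
noncomputable def fn (f : Du k C) : C →ₗ[k] k := eqv k C f

/-- A linear form as an element of the dual. -/
noncomputable def mk (f : C →ₗ[k] k) : Du k C := (eqv k C).symm f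

@[simp] lemma fn_mk (f : C →ₗ[k] k) : (mk f).fn = f := rfl
@[simp] lemma mk_fn (f : Du k C) : mk f.fn = f := rfl
@[simp] lemma fn_add (f g : Du k C) : (f + g).fn = f.fn + g.fn := rfl
@[simp] lemma fn_sub (f g : Du k C) : (f - g).fn = f.fn - g.fn := rfl
@[simp] lemma fn_zero : (0 : Du k C).fn = 0 := rfl
@[simp] lemma fn_smul (c : k) (f : Du k C) : (c • f).fn = c • f.fn := rfl
@[simp] lemma mk_add (f g : C →ₗ[k] k) : mk (f + g) = mk f + mk g := rfl
@[simp] lemma mk_smul (c : k) (f : C →ₗ[k] k) : mk (c • f) = c • mk f := rfl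

@[ext] lemma ext {f g : Du k C} (h : ∀ c, f.fn c = g.fn c) : f = g :=
  (eqv k C).injective (LinearMap.ext h)

@[simp] lemma one_fn (c : C) : (1 : Du k C).fn c = counit (R := k) c := rfl

lemma mul_fn (f g : Du k C) (c : C) {κ : Type*} (r : Coalgebra.Repr k c κ) :
    (f * g).fn c = ∑ i ∈ r.index, f.fn (r.left i) * g.fn (r.right i) :=
  r.convMul_apply (A := k) f g

lemma mul_fn' (f g : Du k C) : (f * g).fn =
    LinearMap.mul' k k ∘ₗ TensorProduct.map f.fn g.fn ∘ₗ comul := rfl

variable [Module.Finite k C]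

variable (k C) in
/-- `Du ⊗ Du = (C ⊗ C)^*`. -/
noncomputable def ev2 : Du k C ⊗[k] Du k C ≃ₗ[k] (C ⊗[k] C →ₗ[k] k) :=
  (TensorProduct.congr (eqv k C) (eqv k C)).trans (TensorProduct.dualDistribEquiv k C C)

@[simp] lemma ev2_tmul (f g : Du k C) (c d : C) :
    ev2 k C (f ⊗ₜ g) (c ⊗ₜ d) = f.fn c * g.fn d := rfl

noncomputable instance : CoalgebraStruct k (Du k C) where
  comul := (ev2 k C).symm.toLinearMap ∘ₗ (LinearMap.mul' k C).lcomp k k ∘ₗ (eqv k C).toLinearMap
  counit := (LinearMap.applyₗ (1 : C)) ∘ₗ (eqv k C).toLinearMap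

@[simp] lemma counit_eq (f : Du k C) : counit (R := k) f = f.fn 1 := rfl

@[simp] lemma ev2_comul (f : Du k C) (c d : C) :
    ev2 k C (comul (R := k) f) (c ⊗ₜ d) = f.fn (c * d) := by
  have h : ev2 k C (comul (R := k) f) = f.fn ∘ₗ LinearMap.mul' k C :=
    (ev2 k C).apply_symm_apply _
  rw [h]; rfl

lemma h86_ext2 {x y : Du k C ⊗[k] Du k C}
    (h : ∀ c d : C, ev2 k C x (c ⊗ₜ d) = ev2 k C y (c ⊗ₜ d)) : x = y :=
  (ev2 k C).injective (TensorProduct.ext' h)

variable (k C) in
/-- `Du ⊗ (Du ⊗ Du) = (C ⊗ (C ⊗ C))^*`. -/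
noncomputable def h86_ev3 :
    Du k C ⊗[k] (Du k C ⊗[k] Du k C) ≃ₗ[k] (C ⊗[k] (C ⊗[k] C) →ₗ[k] k) :=
  (TensorProduct.congr (eqv k C) (ev2 k C)).trans (TensorProduct.dualDistribEquiv k C (C ⊗[k] C))

lemma h86_ev3_tmul (f : Du k C) (t : Du k C ⊗[k] Du k C) (c : C) (s : C ⊗[k] C) :
    h86_ev3 k C (f ⊗ₜ t) (c ⊗ₜ s) = f.fn c * ev2 k C t s := rfl

lemma h86_ext3 {x y : Du k C ⊗[k] (Du k C ⊗[k] Du k C)}
    (h : ∀ c d e : C, h86_ev3 k C x (c ⊗ₜ (d ⊗ₜ e)) = h86_ev3 k C y (c ⊗ₜ (d ⊗ₜ e))) :
    x = y := by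
  refine (h86_ev3 k C).injective (TensorProduct.ext' fun c s => ?_)
  induction s using TensorProduct.induction_on with
  | zero => rw [TensorProduct.tmul_zero, map_zero, map_zero]
  | tmul d e => exact h c d e
  | add s t hs ht => rw [TensorProduct.tmul_add, map_add, map_add, hs, ht]

lemma h86_ev3_lT (x : Du k C ⊗[k] Du k C) (c d e : C) :
    h86_ev3 k C ((comul (R := k) (A := Du k C)).lTensor (Du k C) x) (c ⊗ₜ (d ⊗ₜ e)) =
      ev2 k C x (c ⊗ₜ (d * e)) := by
  induction x using TensorProduct.induction_on with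
  | zero => simp only [map_zero, LinearMap.zero_apply]
  | tmul f g => rw [LinearMap.lTensor_tmul, h86_ev3_tmul, ev2_comul, ev2_tmul]
  | add x y hx hy => simp only [map_add, LinearMap.add_apply, hx, hy]

lemma h86_ev3_assoc (y : Du k C ⊗[k] Du k C) (g : Du k C) (c d e : C) :
    h86_ev3 k C (TensorProduct.assoc k (Du k C) (Du k C) (Du k C) (y ⊗ₜ g)) (c ⊗ₜ (d ⊗ₜ e)) =
      ev2 k C y (c ⊗ₜ d) * g.fn e := by
  induction y using TensorProduct.induction_on with
  | zero => simp only [TensorProduct.zero_tmul, map_zero, LinearMap.zero_apply, zero_mul]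
  | tmul p q => rw [TensorProduct.assoc_tmul, h86_ev3_tmul, ev2_tmul, ev2_tmul, mul_assoc]
  | add x y hx hy =>
    simp only [TensorProduct.add_tmul, map_add, LinearMap.add_apply, hx, hy, add_mul]

lemma h86_ev3_rT (x : Du k C ⊗[k] Du k C) (c d e : C) :
    h86_ev3 k C (TensorProduct.assoc k (Du k C) (Du k C) (Du k C)
      ((comul (R := k) (A := Du k C)).rTensor (Du k C) x)) (c ⊗ₜ (d ⊗ₜ e)) =
      ev2 k C x ((c * d) ⊗ₜ e) := by
  induction x using TensorProduct.induction_on with
  | zero => simp only [map_zero, LinearMap.zero_apply]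
  | tmul f g => rw [LinearMap.rTensor_tmul, h86_ev3_assoc, ev2_comul, ev2_tmul]
  | add x y hx hy => simp only [map_add, LinearMap.add_apply, hx, hy]

lemma h86_lid (x : Du k C ⊗[k] Du k C) (c : C) :
    (TensorProduct.lid k (Du k C) ((counit (R := k) (A := Du k C)).rTensor (Du k C) x)).fn c =
      ev2 k C x (1 ⊗ₜ c) := by
  induction x using TensorProduct.induction_on with
  | zero => simp only [map_zero, LinearMap.zero_apply, fn_zero]
  | tmul f g =>
    rw [LinearMap.rTensor_tmul, TensorProduct.lid_tmul, ev2_tmul, counit_eq, fn_smul,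
      LinearMap.smul_apply, smul_eq_mul]
  | add x y hx hy => simp only [map_add, LinearMap.add_apply, fn_add, hx, hy]

lemma h86_rid (x : Du k C ⊗[k] Du k C) (c : C) :
    (TensorProduct.rid k (Du k C) ((counit (R := k) (A := Du k C)).lTensor (Du k C) x)).fn c =
      ev2 k C x (c ⊗ₜ 1) := by
  induction x using TensorProduct.induction_on with
  | zero => simp only [map_zero, LinearMap.zero_apply, fn_zero]
  | tmul f g =>
    rw [LinearMap.lTensor_tmul, TensorProduct.rid_tmul, ev2_tmul, counit_eq, fn_smul,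
      LinearMap.smul_apply, smul_eq_mul, mul_comm]
  | add x y hx hy => simp only [map_add, LinearMap.add_apply, fn_add, hx, hy]

lemma h86_fn_one (f g : Du k C) : (f * g).fn 1 = f.fn 1 * g.fn 1 := by
  rw [mul_fn', LinearMap.comp_apply, LinearMap.comp_apply, Bialgebra.comul_one,
    Algebra.TensorProduct.one_def, TensorProduct.map_tmul, LinearMap.mul'_apply]

lemma h86_ev2_one (c d : C) : ev2 k C 1 (c ⊗ₜ d) = counit (R := k) c * counit (R := k) d := by
  rw [Algebra.TensorProduct.one_def, ev2_tmul, one_fn, one_fn]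

lemma h86_ev2_mul (x y : Du k C ⊗[k] Du k C) (c d : C) {κ κ' : Type*}
    (r : Coalgebra.Repr k c κ) (r' : Coalgebra.Repr k d κ') :
    ev2 k C (x * y) (c ⊗ₜ d) = ∑ i ∈ r.index, ∑ j ∈ r'.index,
      ev2 k C x (r.left i ⊗ₜ r'.left j) * ev2 k C y (r.right i ⊗ₜ r'.right j) := by
  induction x using TensorProduct.induction_on with
  | zero =>
    simp only [zero_mul, map_zero, LinearMap.zero_apply, Finset.sum_const_zero]
  | tmul f g =>
    induction y using TensorProduct.induction_on with
    | zero =>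
      simp only [mul_zero, map_zero, LinearMap.zero_apply, Finset.sum_const_zero]
    | tmul f' g' =>
      rw [Algebra.TensorProduct.tmul_mul_tmul, ev2_tmul, mul_fn f f' c r, mul_fn g g' d r',
        Finset.sum_mul_sum]
      refine Finset.sum_congr rfl fun i _ => Finset.sum_congr rfl fun j _ => ?_
      rw [ev2_tmul, ev2_tmul]
      ring
    | add x y hx hy =>
      simp only [mul_add, map_add, LinearMap.add_apply, hx, hy, Finset.sum_add_distrib]
  | add x z hx hz =>
    simp only [add_mul, map_add, LinearMap.add_apply, hx, hz, Finset.sum_add_distrib]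

lemma h86_fn_mul_mul (f g : Du k C) (c d : C) {κ κ' : Type*}
    (r : Coalgebra.Repr k c κ) (r' : Coalgebra.Repr k d κ') :
    (f * g).fn (c * d) = ∑ i ∈ r.index, ∑ j ∈ r'.index,
      f.fn (r.left i * r'.left j) * g.fn (r.right i * r'.right j) := by
  rw [mul_fn', LinearMap.comp_apply, LinearMap.comp_apply, Bialgebra.comul_mul, ← r.eq, ← r'.eq,
    Finset.sum_mul_sum, map_sum, map_sum]
  refine Finset.sum_congr rfl fun i _ => ?_
  rw [map_sum, map_sum]
  refine Finset.sum_congr rfl fun j _ => ?_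
  rw [Algebra.TensorProduct.tmul_mul_tmul, TensorProduct.map_tmul, LinearMap.mul'_apply]

noncomputable instance : Coalgebra k (Du k C) where
  coassoc := by
    refine LinearMap.ext fun f => ?_
    refine h86_ext3 fun c d e => ?_
    simp only [LinearMap.comp_apply, LinearEquiv.coe_coe]
    rw [h86_ev3_rT, h86_ev3_lT, ev2_comul, ev2_comul, mul_assoc]
  rTensor_counit_comp_comul := by
    refine LinearMap.ext fun f => ?_
    refine (TensorProduct.lid k (Du k C)).injective (ext fun c => ?_)
    rw [LinearMap.comp_apply, h86_lid, ev2_comul, TensorProduct.mk_apply, TensorProduct.lid_tmul,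
      one_smul, one_mul]
  lTensor_counit_comp_comul := by
    refine LinearMap.ext fun f => ?_
    refine (TensorProduct.rid k (Du k C)).injective (ext fun c => ?_)
    rw [LinearMap.comp_apply, h86_rid, ev2_comul, LinearMap.flip_apply, TensorProduct.mk_apply,
      TensorProduct.rid_tmul, one_smul, mul_one]

noncomputable instance : Bialgebra k (Du k C) :=
  Bialgebra.mk' k (Du k C)
    (by
      rw [counit_eq, one_fn, Bialgebra.counit_one])
    (by
      intro a b
      rw [counit_eq, counit_eq, counit_eq, h86_fn_one])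
    (by
      refine h86_ext2 fun c d => ?_
      rw [ev2_comul, h86_ev2_one, one_fn, Bialgebra.counit_mul])
    (by
      intro a b
      refine h86_ext2 fun c d => ?_
      rw [ev2_comul, h86_ev2_mul _ _ c d (Coalgebra.Repr.arbitrary k c)
        (Coalgebra.Repr.arbitrary k d), h86_fn_mul_mul a b c d (Coalgebra.Repr.arbitrary k c)
        (Coalgebra.Repr.arbitrary k d)]
      refine Finset.sum_congr rfl fun i _ => Finset.sum_congr rfl fun j _ => ?_
      rw [ev2_comul, ev2_comul])

/-- The comultiplication of the dual. -/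
lemma comul_fn (f : Du k C) {κ : Type*} (r : Coalgebra.Repr k f κ) (c d : C) :
    f.fn (c * d) = ∑ i ∈ r.index, (r.left i).fn c * (r.right i).fn d := by
  rw [← ev2_comul, ← r.eq, map_sum, LinearMap.sum_apply]
  exact Finset.sum_congr rfl fun i _ => ev2_tmul _ _ _ _

/-- If `f(c d) = ∑ g i (c) h i (d)` then `Δ f = ∑ g i ⊗ h i`. -/
lemma comul_eq {κ : Type*} (s : Finset κ) (f : Du k C) (g h : κ → Du k C)
    (hf : ∀ c d, f.fn (c * d) = ∑ i ∈ s, (g i).fn c * (h i).fn d) :
    comul (R := k) f = ∑ i ∈ s, g i ⊗ₜ[k] h i := by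
  refine h86_ext2 fun c d => ?_
  rw [ev2_comul, hf, map_sum, LinearMap.sum_apply]
  exact Finset.sum_congr rfl fun i _ => (ev2_tmul _ _ _ _).symm

end Alg

section Map

variable {k : Type u} [Field k] {C : Type v} [Ring C] [Bialgebra k C] [Module.Finite k C]
  {D : Type w} [Ring D] [Bialgebra k D] [Module.Finite k D]

lemma h86_map_mul (g : C →ₐc[k] D) (a b : Du k D) :
    mk ((a * b).fn ∘ₗ (g : C →ₐ[k] D).toLinearMap) =
      mk (a.fn ∘ₗ (g : C →ₐ[k] D).toLinearMap) * mk (b.fn ∘ₗ (g : C →ₐ[k] D).toLinearMap) := by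
  refine ext fun c => ?_
  rw [mul_fn _ _ c (Coalgebra.Repr.arbitrary k c), fn_mk]
  exact mul_fn a b (g c) ((Coalgebra.Repr.arbitrary k c).induced g)

/-- The transpose of a bialgebra homomorphism. -/
noncomputable def map (g : C →ₐc[k] D) : Du k D →ₐc[k] Du k C :=
  BialgHom.ofAlgHom
    { toFun := fun f => mk (f.fn ∘ₗ (g : C →ₐ[k] D).toLinearMap)
      map_one' := by
        refine ext fun c => ?_
        exact CoalgHomClass.counit_comp_apply g c
      map_mul' := by
        exact h86_map_mul g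
      map_zero' := rfl
      map_add' := fun _ _ => rfl
      commutes' := by
        intro r
        refine ext fun c => ?_
        rw [Algebra.algebraMap_eq_smul_one, Algebra.algebraMap_eq_smul_one]
        exact congrArg (fun x => r * x) (CoalgHomClass.counit_comp_apply g c) }
    (by
      refine AlgHom.ext fun f => ?_
      exact congrArg f.fn (map_one g))
    (by
      refine AlgHom.ext fun f => ?_
      refine h86_ext2 fun c d => ?_
      have h : ∀ x : Du k D ⊗[k] Du k D, ∀ F : Du k D →ₐ[k] Du k C,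
          (∀ (f : Du k D) (c : C), (F f).fn c = f.fn (g c)) →
          ev2 k C (Algebra.TensorProduct.map F F x) (c ⊗ₜ d) = ev2 k D x (g c ⊗ₜ g d) := by
        intro x F hF
        induction x using TensorProduct.induction_on with
        | zero => simp only [map_zero, LinearMap.zero_apply]
        | tmul p q => rw [Algebra.TensorProduct.map_tmul, ev2_tmul, ev2_tmul, hF, hF]
        | add x y hx hy => simp only [map_add, LinearMap.add_apply, hx, hy]
      rw [AlgHom.comp_apply, AlgHom.comp_apply, h _ _ (fun f c => rfl)]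
      simp only [Bialgebra.comulAlgHom_apply]
      rw [ev2_comul, ev2_comul, ← map_mul]
      rfl)

@[simp] lemma map_fn (g : C →ₐc[k] D) (f : Du k D) (c : C) : (map g f).fn c = f.fn (g c) := rfl

lemma map_injective (g : C →ₐc[k] D) (hg : Function.Surjective g) :
    Function.Injective (map g) := by
  intro a b hab
  refine ext fun d => ?_
  obtain ⟨c, rfl⟩ := hg d
  rw [← map_fn, ← map_fn, hab]

lemma map_surjective (g : C →ₐc[k] D) (hg : Function.Injective g) :
    Function.Surjective (map g) := by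
  intro f
  obtain ⟨s, hs⟩ := LinearMap.exists_leftInverse_of_injective ((g : C →ₐ[k] D).toLinearMap)
    (LinearMap.ker_eq_bot.2 hg)
  refine ⟨mk (f.fn ∘ₗ s), ext fun c => ?_⟩
  rw [map_fn, fn_mk, LinearMap.comp_apply]
  have : s (g c) = c := LinearMap.congr_fun hs c
  rw [this]

lemma mem_augK (f : Du k C) : f ∈ augK k (Du k C) ↔ f.fn 1 = 0 := Iff.rfl

end Map

end Du

end Pool.Agent.H26.FG
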