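import Pool.Agent.H26.FG.Base

/-!
# Module ExtInd: induction on Ext classes, natural transformations and Ext
-/

open CategoryTheory Abelian

universe w w' w'' v v' v'' u u' u''

namespace Pool.Agent.H26.FG

section Ind

variable {𝒜 : Type u} [Category.{v} 𝒜] [Abelian 𝒜] [HasExt.{w} 𝒜] [EnoughInjectives 𝒜]

/-- Every Ext class is a product of morphisms and of classes of short exact sequences.
Proof: induction on `n`, generalizing `Y`. `n = 0`: `Ext.mk₀_bijective`. `n + 1`: take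
`0 → Y → I → Z → 0` with `I` injective (as in `hasExt_of_enoughInjectives`) and use
`Ext.covariant_sequence_exact₁` with `Ext.eq_zero_of_injective`. -/
theorem ext_induction {P : ∀ (X Y : 𝒜) (n : ℕ), Ext.{w} X Y n → Prop}
    (h0 : ∀ (X Y : 𝒜) (f : X ⟶ Y), P X Y 0 (Ext.mk₀ f))
    (h1 : ∀ (S : ShortComplex 𝒜) (hS : S.ShortExact), P S.X₃ S.X₁ 1 hS.extClass)
    (hc : ∀ (X Y Z : 𝒜) (a b c : ℕ) (h : a + b = c) (x : Ext.{w} X Y a) (y : Ext.{w} Y Z b),
      P X Y a x → P Y Z b y → P X Z c (x.comp y h))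
    {X Y : 𝒜} {n : ℕ} (x : Ext.{w} X Y n) : P X Y n x := by
  induction n generalizing Y with
  | zero =>
    obtain ⟨f, rfl⟩ := (Ext.mk₀_bijective X Y).2 x
    exact h0 X Y f
  | succ n ih =>
    let S := ShortComplex.mk _ _ (Limits.cokernel.condition (Injective.ι Y))
    have hS : S.ShortExact :=
      { exact := ShortComplex.exact_of_g_is_cokernel _ (Limits.cokernelIsCokernel S.f) }
    obtain ⟨x₃, hx₃⟩ := Ext.covariant_sequence_exact₁ X hS x (Ext.eq_zero_of_injective _) rfl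
    rw [← hx₃]
    exact hc X S.X₃ Y n 1 (n + 1) rfl x₃ hS.extClass (ih x₃) (h1 S hS)

end Ind

section Nat

variable {𝒜 : Type u} [Category.{v} 𝒜] [Abelian 𝒜] [HasExt.{w} 𝒜] [EnoughInjectives 𝒜]
  {ℬ : Type u'} [Category.{v'} ℬ] [Abelian ℬ] [HasExt.{w'} ℬ]
  (F G : 𝒜 ⥤ ℬ) [F.Additive] [Limits.PreservesFiniteLimits F] [Limits.PreservesFiniteColimits F]
  [G.Additive] [Limits.PreservesFiniteLimits G] [Limits.PreservesFiniteColimits G]

/-- A natural transformation of exact functors is compatible with Ext classes.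
Proof: `ext_induction`; `mapExactFunctor_mk₀`, `mapExactFunctor_extClass` +
`ShortComplex.ShortExact.extClass_naturality`, `mapExactFunctor_comp`. -/
theorem map_natTrans (α : F ⟶ G) {X Y : 𝒜} {n : ℕ} (x : Ext.{w} X Y n) :
    (x.mapExactFunctor F).comp (Ext.mk₀ (α.app Y)) (add_zero n) =
      (Ext.mk₀ (α.app X)).comp (x.mapExactFunctor G) (zero_add n) := by
  refine ext_induction (P := fun X Y n x =>
    (x.mapExactFunctor F).comp (Ext.mk₀ (α.app Y)) (add_zero n) =
      (Ext.mk₀ (α.app X)).comp (x.mapExactFunctor G) (zero_add n)) ?_ ?_ ?_ x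
  · intro X Y f
    rw [Ext.mapExactFunctor_mk₀, Ext.mapExactFunctor_mk₀]
    refine (Ext.mk₀_comp_mk₀ _ _).trans (Eq.trans ?_ (Ext.mk₀_comp_mk₀ _ _).symm)
    rw [α.naturality]
  · intro S hS
    rw [Ext.mapExactFunctor_extClass, Ext.mapExactFunctor_extClass]
    exact ShortComplex.ShortExact.extClass_naturality (hS.map_of_exact F) (hS.map_of_exact G)
      (S.mapNatTrans α)
  · intro X Y Z a b c h x y hx hy
    subst h
    rw [Ext.mapExactFunctor_comp, Ext.mapExactFunctor_comp,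
      Ext.comp_assoc_of_third_deg_zero, hy, ← Ext.comp_assoc_of_second_deg_zero, hx]
    exact Ext.comp_assoc _ _ _ _ _ (by omega)

variable {𝒞 : Type u''} [Category.{v''} 𝒞] [Abelian 𝒞] [HasExt.{w''} 𝒞]
  (K : ℬ ⥤ 𝒞) [K.Additive] [Limits.PreservesFiniteLimits K] [Limits.PreservesFiniteColimits K]
  [Limits.PreservesFiniteLimits (F ⋙ K)] [Limits.PreservesFiniteColimits (F ⋙ K)]

theorem map_comp_functor {X Y : 𝒜} {n : ℕ} (x : Ext.{w} X Y n) :
    (x.mapExactFunctor F).mapExactFunctor K = x.mapExactFunctor (F ⋙ K) := by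
  refine ext_induction (P := fun X Y n x =>
    (x.mapExactFunctor F).mapExactFunctor K = x.mapExactFunctor (F ⋙ K)) ?_ ?_ ?_ x
  · intro X Y f
    rw [Ext.mapExactFunctor_mk₀, Ext.mapExactFunctor_mk₀, Ext.mapExactFunctor_mk₀]
    rfl
  · intro S hS
    rw [Ext.mapExactFunctor_extClass, Ext.mapExactFunctor_extClass]
    exact Ext.mapExactFunctor_extClass (F := K) (hS.map_of_exact F)
  · intro X Y Z a b c h x y hx hy
    rw [Ext.mapExactFunctor_comp, Ext.mapExactFunctor_comp, Ext.mapExactFunctor_comp, hx, hy]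

theorem map_id_functor {X Y : 𝒜} {n : ℕ} (x : Ext.{w} X Y n) :
    x.mapExactFunctor (𝟭 𝒜) = x := by
  refine ext_induction (P := fun X Y n x => x.mapExactFunctor (𝟭 𝒜) = x) ?_ ?_ ?_ x
  · intro X Y f
    rw [Ext.mapExactFunctor_mk₀]
    rfl
  · intro S hS
    rw [Ext.mapExactFunctor_extClass]
    rfl
  · intro X Y Z a b c h x y hx hy
    rw [Ext.mapExactFunctor_comp, hx, hy]

end Nat

end Pool.Agent.H26.FG
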