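import Pool.Agent.H26.FG.GOpA

/-!
# Module Hilb: the Hilbert basis theorem for graded spaces with commuting operators
-/

universe u w

namespace Pool.Agent.H26.FG.GOp

variable {k : Type u} [Field k] {I : Type w} {m : I → ℕ}

open DirectSum

/-- the operator on the total space -/
noncomputable def Hilb_T (E : GOp k I m) (i : I) : (⨁ n, E.V n) →ₗ[k] (⨁ n, E.V n) :=
  DirectSum.toModule k ℕ _ fun a => (DirectSum.lof k ℕ E.V (m i + a)).comp (E.op i rfl)

lemma Hilb_T_lof (E : GOp k I m) (i : I) {a b : ℕ} (h : m i + a = b) (v : E.V a) :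
    E.Hilb_T i (DirectSum.lof k ℕ E.V a v) = DirectSum.lof k ℕ E.V b (E.op i h v) := by
  subst h
  unfold Hilb_T
  rw [DirectSum.toModule_lof]
  rfl

lemma Hilb_comm (E : GOp k I m) {S : Set I} (hc : E.Comm S) {i j : I} (hi : i ∈ S) (hj : j ∈ S) :
    E.Hilb_T i * E.Hilb_T j = E.Hilb_T j * E.Hilb_T i := by
  apply DirectSum.linearMap_ext k
  intro a
  ext v : 1
  simp only [LinearMap.comp_apply, Module.End.mul_apply]
  rw [Hilb_T_lof E j rfl v, Hilb_T_lof E i rfl v, Hilb_T_lof E i (b := m i + (m j + a)) rfl,
    Hilb_T_lof E j (b := m i + (m j + a)) (by omega)]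
  congr 1
  exact (hc i hi j hj a _ _ _ rfl (by omega) rfl rfl v).symm

/-- the submodule of the total space given by a stable family -/
lemma Hilb_stable (E : GOp k I m) {S : Set I} {W : ∀ n, Submodule k (E.V n)} (hW : E.Stable S W)
    {i : I} (hi : i ∈ S) {x : ⨁ n, E.V n} (hx : ∀ n, x n ∈ W n) (n : ℕ) :
    (E.Hilb_T i x) n ∈ W n := by
  classical
  have h1 : x = ∑ a ∈ DFinsupp.support x, DirectSum.lof k ℕ E.V a (x a) :=
    (DirectSum.sum_support_of x).symm
  rw [h1, map_sum]
  have h2 : ∀ a, (E.Hilb_T i (DirectSum.lof k ℕ E.V a (x a))) n ∈ W n := by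
    intro a
    rw [Hilb_T_lof E i (b := m i + a) rfl]
    by_cases h : m i + a = n
    · subst h
      rw [DirectSum.lof_apply]
      exact hW i hi a _ rfl _ (hx a)
    · rw [DirectSum.lof_eq_of, DirectSum.of_eq_of_ne _ _ _ (Ne.symm h)]
      exact zero_mem _
  have h3 : ∀ s : Finset ℕ,
      (∑ a ∈ s, E.Hilb_T i (DirectSum.lof k ℕ E.V a (x a))) n ∈ W n := by
    intro s
    induction s using Finset.induction_on with
    | empty => simp
    | insert b s hb ih =>
      rw [Finset.sum_insert hb, DirectSum.add_apply]
      exact add_mem (h2 b) ih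
  exact h3 _

/-- If `S` is finite, the operators in `S` commute and have positive degree, all `E.V n` are
finite-dimensional and `E` is generated in bounded degrees over `S`, then every `S`-stable graded
subspace is generated in bounded degrees.
Proof: `M = ⨁ E.V n` is a finitely generated module over `R = MvPolynomial S k` (let `X i` act by
the endomorphism `op i` of `M`; the algebra homomorphism from `R` to `Module.End k M` exists because
the endomorphisms commute, e.g. through `Algebra.adjoin` and `Algebra.adjoinCommRingOfComm`), so it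
is noetherian; the submodule of a stable `W` is generated by finitely many elements, hence by their
homogeneous components, of degrees `≤ n₀`. -/
theorem GN_of_GF (E : GOp k I m) (S : Set I) (hS : S.Finite) (hpos : ∀ i ∈ S, 0 < m i)
    (hc : E.Comm S) (hfin : ∀ n, Module.Finite k (E.V n)) (h : E.GF S) : E.GN S := by
  classical
  obtain ⟨A, hA⟩ : ∃ A : Subalgebra k (Module.End k (⨁ n, E.V n)),
      A = Algebra.adjoin k (E.Hilb_T '' S) := ⟨_, rfl⟩
  have hTA : ∀ i ∈ S, E.Hilb_T i ∈ A := fun i hi => by
    rw [hA]; exact Algebra.subset_adjoin ⟨i, hi, rfl⟩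
  have hnoeth : IsNoetherianRing A := by
    have hcomm : ∀ a ∈ E.Hilb_T '' S, ∀ b ∈ E.Hilb_T '' S, a * b = b * a := by
      rintro _ ⟨i, hi, rfl⟩ _ ⟨j, hj, rfl⟩
      exact Hilb_comm E hc hi hj
    have hfg : A.FG := by
      rw [hA]
      exact Subalgebra.fg_def.2 ⟨_, hS.image _, rfl⟩
    subst hA
    let _ : CommRing (Algebra.adjoin k (E.Hilb_T '' S)) :=
      { (Algebra.adjoin k (E.Hilb_T '' S)).toRing with
        mul_comm := (Algebra.isMulCommutative_adjoin k hcomm).is_comm.comm }
    have : Algebra.FiniteType k (Algebra.adjoin k (E.Hilb_T '' S)) :=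
      ⟨(Subalgebra.fg_top _).2 hfg⟩
    exact Algebra.FiniteType.isNoetherianRing k (Algebra.adjoin k (E.Hilb_T '' S))
  obtain ⟨n₀, hn₀⟩ := h
  -- the total space is finitely generated
  have hMfin : Module.Finite A (⨁ n, E.V n) := by
    have hb : ∀ n, ∃ s : Finset (E.V n), Submodule.span k (s : Set (E.V n)) = ⊤ := fun n =>
      (hfin n).1
    choose B hB using hb
    obtain ⟨G, hG⟩ : ∃ G : Finset (⨁ n, E.V n), G = (Finset.range (n₀ + 1)).biUnion fun n =>
      (B n).image (DirectSum.lof k ℕ E.V n) := ⟨_, rfl⟩
    refine ⟨⟨G, ?_⟩⟩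
    rw [eq_top_iff]
    have hkey : ∀ n, ∀ v : E.V n,
        DirectSum.lof k ℕ E.V n v ∈ Submodule.span A (G : Set (⨁ n, E.V n)) := by
      intro n
      induction n using Nat.strong_induction_on with
      | _ n ih =>
      intro v
      by_cases hn : n ≤ n₀
      · have hv : v ∈ Submodule.span k (B n : Set (E.V n)) := by rw [hB]; trivial
        induction hv using Submodule.span_induction with
        | mem x hx =>
          apply Submodule.subset_span
          rw [hG, Finset.mem_coe, Finset.mem_biUnion]
          exact ⟨n, Finset.mem_range.2 (by omega), Finset.mem_image.2 ⟨x, hx, rfl⟩⟩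
        | zero => rw [map_zero]; exact zero_mem _
        | add x y _ _ hx hy => rw [map_add]; exact add_mem hx hy
        | smul c x _ hx =>
          rw [map_smul, algebra_compatible_smul A c]
          exact Submodule.smul_mem _ _ hx
      · have hv : v ∈ E.Gen S (fun _ => ⊤) n := hn₀ n (by omega) trivial
        unfold Gen at hv
        induction hv using Submodule.span_induction with
        | mem x hx =>
          obtain ⟨i, hi, a, hab, u, -, rfl⟩ := hx
          have hlt : a < n := by have := hpos i hi; omega
          rw [← Hilb_T_lof E i hab u]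
          exact Submodule.smul_mem _ (⟨E.Hilb_T i, hTA i hi⟩ : A) (ih a hlt u)
        | zero => rw [map_zero]; exact zero_mem _
        | add x y _ _ hx hy => rw [map_add]; exact add_mem hx hy
        | smul c x _ hx =>
          rw [map_smul, algebra_compatible_smul A c]
          exact Submodule.smul_mem _ _ hx
    intro x _
    have h1 : x = ∑ a ∈ DFinsupp.support x, DirectSum.lof k ℕ E.V a (x a) :=
      (DirectSum.sum_support_of x).symm
    rw [h1]
    exact Submodule.sum_mem _ fun a _ => hkey a _
  have : IsNoetherian A (⨁ n, E.V n) := isNoetherian_of_isNoetherianRing_of_finite A _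
  intro W hW
  -- the `A`-submodule of a stable family
  have hsub : ∀ W : ∀ n, Submodule k (E.V n), E.Stable S W →
      ∃ N : Submodule A (⨁ n, E.V n), ∀ x, x ∈ N ↔ ∀ n, x n ∈ W n := by
    intro W hW
    refine ⟨{ carrier := {x | ∀ n, x n ∈ W n}
              add_mem' := ?_
              zero_mem' := ?_
              smul_mem' := ?_ }, fun x => Iff.rfl⟩
    · intro x y hx hy n
      rw [DirectSum.add_apply]
      exact add_mem (hx n) (hy n)
    · intro n
      exact zero_mem _
    · rintro ⟨c, hc'⟩ x hx
      show ∀ n, (c x) n ∈ W n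
      rw [hA] at hc'
      have hx' : ∀ n, x n ∈ W n := hx
      clear hx
      revert x
      induction hc' using Algebra.adjoin_induction with
      | mem c hc' =>
        obtain ⟨i, hi, rfl⟩ := hc'
        intro x hx' n
        exact Hilb_stable E hW hi hx' n
      | algebraMap r =>
        intro x hx' n
        rw [Module.algebraMap_end_apply, DirectSum.smul_apply]
        exact Submodule.smul_mem _ _ (hx' n)
      | add c d _ _ h1 h2 =>
        intro x hx' n
        rw [LinearMap.add_apply, DirectSum.add_apply]
        exact add_mem (h1 hx' n) (h2 hx' n)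
      | mul c d _ _ h1 h2 =>
        intro x hx' n
        rw [Module.End.mul_apply]
        exact h1 (h2 hx') n
  obtain ⟨N, hN⟩ := hsub W hW
  obtain ⟨F, hF⟩ := (IsNoetherian.noetherian N : N.FG)
  obtain ⟨n₁, hn₁⟩ : ∃ n₁ : ℕ, ∀ x ∈ F, ∀ n, n₁ < n → x n = 0 := by
    refine ⟨F.sup fun x => (DFinsupp.support x).sup id, fun x hx n hn => ?_⟩
    by_contra hne
    have h1 : n ∈ DFinsupp.support x := DFinsupp.mem_support_iff.2 hne
    have h2 : n ≤ (DFinsupp.support x).sup id := Finset.le_sup (f := id) h1
    have h3 : (DFinsupp.support x).sup id ≤ F.sup fun x => (DFinsupp.support x).sup id :=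
      Finset.le_sup (f := fun x : ⨁ n, E.V n => (DFinsupp.support x).sup id) hx
    omega
  -- the family generated in degrees at most `n₁`
  have hgen : ∀ n, E.Gen S W n ≤ W n := by
    intro n
    unfold Gen
    rw [Submodule.span_le]
    rintro _ ⟨i, hi, a, hab, u, hu, rfl⟩
    exact hW i hi a n hab u hu
  obtain ⟨W', hW'⟩ : ∃ W' : ∀ n, Submodule k (E.V n),
      W' = fun n => if n ≤ n₁ then W n else E.Gen S W n := ⟨_, rfl⟩
  have hW'le : ∀ n, W' n ≤ W n := by
    intro n
    rw [hW']
    simp only
    split_ifs
    · exact le_rfl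
    · exact hgen n
  have hW's : E.Stable S W' := by
    intro i hi a b hab v hv
    have hv' := hW'le a hv
    rw [hW']
    simp only
    split_ifs
    · exact hW i hi a b hab v hv'
    · exact Submodule.subset_span ⟨i, hi, a, hab, v, hv', rfl⟩
  obtain ⟨N', hN'⟩ := hsub W' hW's
  have hNN : N ≤ N' := by
    rw [← hF, Submodule.span_le]
    intro x hx
    have hxN : x ∈ N := hF ▸ Submodule.subset_span hx
    rw [SetLike.mem_coe, hN']
    intro n
    rw [hW']
    simp only
    split_ifs with hn
    · exact (hN x).1 hxN n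
    · rw [hn₁ x hx n (by omega)]
      exact zero_mem _
  refine ⟨n₁, fun n hn v hv => ?_⟩
  have h1 : DirectSum.lof k ℕ E.V n v ∈ N := by
    rw [hN]
    intro a
    by_cases ha : a = n
    · subst ha
      rw [DirectSum.lof_apply]
      exact hv
    · rw [DirectSum.lof_eq_of, DirectSum.of_eq_of_ne _ _ _ ha]
      exact zero_mem _
  have h2 := (hN' _).1 (hNN h1) n
  rw [DirectSum.lof_apply, hW'] at h2
  simp only at h2
  rwa [if_neg (by omega)] at h2

end Pool.Agent.H26.FG.GOp
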