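import Pool.Agent.H26.FG.Inter
import Pool.Agent.H26.FG.CoiA
import Pool.Agent.H26.FG.Hilb

/-!
# Module FgcA: from FGC to graded noetherian modules over finitely many even classes
-/

open CategoryTheory Abelian TensorProduct
open scoped ModuleCat

universe u

namespace Pool.Agent.H26.FG

variable (k : Type u) [Field k] (H : Type u) [Ring H] [HopfAlgebra k H] [Module.Finite k H]

variable {k H} in
/-- products of elements of spans -/
theorem h17_span {X Y Z : ModuleCat.{u} H} {a b c : ℕ} (h : a + b = c) (A : Set (Ext X Y a))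
    (B : Set (Ext Y Z b)) (U : Submodule k (Ext X Z c))
    (hAB : ∀ x ∈ A, ∀ y ∈ B, x.comp y h ∈ U) :
    ∀ x ∈ Submodule.span k A, ∀ y ∈ Submodule.span k B, x.comp y h ∈ U := by
  intro x hx y hy
  induction hx using Submodule.span_induction with
  | zero => rw [Ext.zero_comp]; exact U.zero_mem
  | add x x' _ _ h1 h2 => rw [Ext.add_comp]; exact U.add_mem h1 h2
  | smul c x _ h1 => rw [Ext.smul_comp]; exact U.smul_mem _ h1
  | mem x hx =>
    induction hy using Submodule.span_induction with
    | zero => rw [Ext.comp_zero]; exact U.zero_mem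
    | add y y' _ _ h1 h2 => rw [Ext.comp_add]; exact U.add_mem h1 h2
    | smul c y _ h1 => rw [Ext.comp_smul]; exact U.smul_mem _ h1
    | mem y hy => exact hAB x hx y hy

/-- the classes of degree 0 are scalars -/
theorem h17_scalar (x : Ext (triv k H) (triv k H) 0) :
    ∃ c : k, x = c • Ext.mk₀ (𝟙 (triv k H)) := by
  obtain ⟨f, rfl⟩ := (Ext.mk₀_bijective _ _).2 x
  refine ⟨tval k (f.hom (tone k H)), ?_⟩
  rw [← Ext.mk₀_smul]
  congr 1
  ext x
  apply tval_injective k
  have h1 : f.hom x = tval k x • f.hom (tone k H) := by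
    conv_lhs => rw [triv_eq k x]
    exact (f.hom.restrictScalars k).map_smul _ _
  rw [h1, tval_smul']
  have h2 : (tval k (f.hom (tone k H)) • 𝟙 (triv k H) : triv k H ⟶ triv k H).hom x =
      tval k (f.hom (tone k H)) • x := rfl
  rw [h2, tval_smul', mul_comm]

/-- For even classes `GF` and `GN` agree. -/
theorem GN_of_GF_even (S : Set (Cls (triv k H))) (hS : S.Finite) (hS' : EvenPos S)
    (N : ModuleCat.{u} H) (hN : Module.Finite k N) (h : (EGP k (triv k H) N).GF S) :
    (EGP k (triv k H) N).GN S :=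
  GOp.GN_of_GF (EGP k (triv k H) N) S hS (fun i hi => (hS' i hi).2) (EGP_comm N S hS')
    (fun n => Ext_finite k (triv k H) N (trv_finite k _) hN n) h

/-- The algebra part of FGC. Let `Ext(k,k)` be generated by the finite set `S₀` (classes of
degree 0 are scalars, so drop them). `S` = even elements of `S₀` and products `s t` of two odd
elements. A word of degree `> max deg` in `S₀` has length `≥ 2`; an even letter can be moved to the
front; if all letters are odd, the first two form an element of `S`. -/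
theorem FGC_alg_even (hH : FGC k H) :
    ∃ S : Set (Cls (triv k H)), S.Finite ∧ EvenPos S ∧ (EGP k (triv k H) (triv k H)).GF S := by
  classical
  obtain ⟨S₀, hS₀, hgen⟩ := hH.alg
  set So : Set (Cls (triv k H)) := {s | s ∈ S₀ ∧ Odd s.1} with hSo
  set S1 : Set (Cls (triv k H)) := {s | s ∈ S₀ ∧ Even s.1 ∧ 0 < s.1} with hS1
  set S2 : Set (Cls (triv k H)) := (fun p : Cls (triv k H) × Cls (triv k H) =>
    (⟨p.1.1 + p.2.1, p.1.2.comp p.2.2 rfl⟩ : Cls (triv k H))) '' (So ×ˢ So) with hS2
  have hSofin : So.Finite := hS₀.subset fun s hs => hs.1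
  have hS1fin : S1.Finite := hS₀.subset fun s hs => hs.1
  have hS2fin : S2.Finite := (hSofin.prod hSofin).image _
  have hev : EvenPos (S1 ∪ S2) := by
    rintro s (hs | hs)
    · exact hs.2
    · obtain ⟨⟨a, b⟩, ⟨ha, hb⟩, rfl⟩ := hs
      obtain ⟨m, hm⟩ := ha.2
      obtain ⟨n, hn⟩ := hb.2
      refine ⟨⟨m + n + 1, ?_⟩, ?_⟩
      · show a.1 + b.1 = _
        simp only at hm hn
        omega
      · show 0 < a.1 + b.1
        simp only at hm hn
        omega
  refine ⟨S1 ∪ S2, hS1fin.union hS2fin, hev, ?_⟩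
  set P : (n : ℕ) → Set (Ext (triv k H) (triv k H) n) := fun n =>
    {z | ∃ s ∈ S1 ∪ S2, ∃ (a : ℕ) (h : s.1 + a = n) (w : Ext (triv k H) (triv k H) a),
      s.2.comp w h = z} with hP
  -- multiplication on both sides
  have hPl : ∀ (a b c : ℕ) (h : a + b = c) (x : Ext (triv k H) (triv k H) a)
      (z : Ext (triv k H) (triv k H) b), z ∈ P b → x.comp z h ∈ P c := by
    rintro a b c h x _ ⟨s, hs, d, hd, w, rfl⟩
    refine ⟨s, hs, a + d, by omega, x.comp w rfl, ?_⟩
    rw [← Ext.comp_assoc x s.2 w rfl hd (by omega),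
      ← Ext.comp_assoc s.2 x w (a₁₂ := a + s.1) (add_comm _ _) rfl (by omega),
      comp_comm_of_even (hev s hs).1 s.2 x (add_comm _ _) rfl]
  have hPr : ∀ (a b c : ℕ) (h : a + b = c) (z : Ext (triv k H) (triv k H) a)
      (y : Ext (triv k H) (triv k H) b), z ∈ P a → z.comp y h ∈ P c := by
    rintro a b c h _ y ⟨s, hs, d, hd, w, rfl⟩
    refine ⟨s, hs, d + b, by omega, w.comp y rfl, ?_⟩
    rw [Ext.comp_assoc s.2 w y hd rfl (by omega)]
  set T : (n : ℕ) → Set (Ext (triv k H) (triv k H) n) := fun n =>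
    {z | n = 0 ∨ (⟨n, z⟩ : Cls (triv k H)) ∈ S₀ ∨ z ∈ P n} with hT
  have hV := hgen (fun n => Submodule.span k (T n)) (Submodule.subset_span (Or.inl rfl))
    (fun s hs => Submodule.subset_span (Or.inr (Or.inl hs))) (by
      intro a b c h x y hx hy
      refine h17_span h (T a) (T b) _ ?_ x hx y hy
      rintro x hx y hy
      by_cases ha : a = 0
      · subst ha
        obtain ⟨r, rfl⟩ := h17_scalar k H x
        have hbc : b = c := by omega
        subst hbc
        rw [Ext.smul_comp, Ext.mk₀_id_comp]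
        exact Submodule.smul_mem _ _ (Submodule.subset_span hy)
      by_cases hb : b = 0
      · subst hb
        obtain ⟨r, rfl⟩ := h17_scalar k H y
        have hac : a = c := by omega
        subst hac
        rw [Ext.comp_smul, Ext.comp_mk₀_id]
        exact Submodule.smul_mem _ _ (Submodule.subset_span hx)
      apply Submodule.subset_span
      refine Or.inr (Or.inr ?_)
      rcases hx with hx | hx | hx
      · exact absurd hx ha
      · rcases hy with hy | hy | hy
        · exact absurd hy hb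
        · rcases Nat.even_or_odd a with hae | hao
          · exact ⟨⟨a, x⟩, Or.inl ⟨hx, hae, Nat.pos_of_ne_zero ha⟩, b, h, y, rfl⟩
          · rcases Nat.even_or_odd b with hbe | hbo
            · exact ⟨⟨b, y⟩, Or.inl ⟨hy, hbe, Nat.pos_of_ne_zero hb⟩, a,
                (show b + a = c from (add_comm b a).trans h), x,
                comp_comm_of_even hbe y x ((add_comm b a).trans h) h⟩
            · refine ⟨⟨a + b, x.comp y rfl⟩, Or.inr ⟨(⟨a, x⟩, ⟨b, y⟩), ⟨⟨hx, hao⟩, ⟨hy, hbo⟩⟩, rfl⟩,
                0, by omega, Ext.mk₀ (𝟙 _), ?_⟩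
              subst h
              exact Ext.comp_mk₀_id _
        · exact hPl a b c h x y hy
      · exact hPr a b c h x y hx)
  obtain ⟨D, hD⟩ := (hS₀.image Sigma.fst).bddAbove
  refine ⟨D, fun n hn => ?_⟩
  have hTP : T n ⊆ P n := by
    rintro z (hz | hz | hz)
    · omega
    · have := hD ⟨_, hz, rfl⟩
      simp only at this
      omega
    · exact hz
  have h1 : (⊤ : Submodule k (Ext (triv k H) (triv k H) n)) ≤ Submodule.span k (P n) := by
    rw [← hV n]
    exact Submodule.span_mono hTP
  have h2 : Submodule.span k (P n) ≤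
      (EGP k (triv k H) (triv k H)).Gen (S1 ∪ S2) (fun _ => ⊤) n := by
    refine Submodule.span_mono ?_
    rintro z ⟨s, hs, a, h, w, rfl⟩
    exact ⟨s, hs, a, h, w, trivial, rfl⟩
  exact h1.trans h2

/-- If FGC holds and `Ext(k,k)` is `GF` over the finite set `S` of even classes then every
`Ext(k, N)`, `N` finite-dimensional, is `GN` over `S`. (`FGC.mod` for `M = k` and `act_triv`:
`Ext(k, N)` is spanned by the `r g l`, `r ∈ Ext(k,k)`, finitely many `g l`; for large degree
`r ∈ Gen S`.) -/
theorem GN_of_GF_triv (hH : FGC k H) (S : Set (Cls (triv k H))) (hS : S.Finite) (hS' : EvenPos S)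
    (h : (EGP k (triv k H) (triv k H)).GF S) (N : ModuleCat.{u} H) (hN : Module.Finite k N) :
    (EGP k (triv k H) N).GN S := by
  apply GN_of_GF_even k H S hS hS' N hN
  obtain ⟨n₀, hn₀⟩ := h
  obtain ⟨G, hG, hgen⟩ := hH.mod (triv k H) N (trv_finite k _) hN
  set P : (n : ℕ) → Set (Ext (triv k H) N n) := fun n =>
    {z | ∃ g ∈ G, ∃ (a : ℕ) (h : a + g.1 = n) (r : Ext (triv k H) (triv k H) a),
      r.comp g.2 h = z} with hP
  have hV := hgen (fun n => Submodule.span k (P n))
    (fun g hg => Submodule.subset_span ⟨g, hg, 0, zero_add _, Ext.mk₀ (𝟙 _), Ext.mk₀_id_comp _⟩) (by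
      intro a b c h x y hy
      rw [act_triv]
      have h1 := h17_span (k := k) h {x} (P b) (Submodule.span k (P c)) (by
        rintro x' hx' _ ⟨g, hg, d, hd, r, rfl⟩
        rw [Set.mem_singleton_iff] at hx'
        subst hx'
        refine Submodule.subset_span ⟨g, hg, a + d, by omega, x'.comp r rfl, ?_⟩
        rw [Ext.comp_assoc x' r g.2 rfl hd (by omega)])
      exact h1 x (Submodule.subset_span rfl) y hy)
  obtain ⟨D, hD⟩ := (hG.image Sigma.fst).bddAbove
  refine ⟨n₀ + D, fun n hn => ?_⟩
  have h1 : (⊤ : Submodule k (Ext (triv k H) N n)) ≤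
      (EGP k (triv k H) N).Gen S (fun _ => ⊤) n := by
    rw [← hV n]
    refine Submodule.span_le.2 ?_
    rintro _ ⟨g, hg, a, ha, r, rfl⟩
    have hgD : g.1 ≤ D := hD ⟨g, hg, rfl⟩
    have hr : r ∈ (EGP k (triv k H) (triv k H)).Gen S (fun _ => ⊤) a :=
      hn₀ a (by omega) trivial
    have h2 := h17_span (k := k) ha {z | ∃ i ∈ S, ∃ (a' : ℕ) (h : i.1 + a' = a),
      ∃ w ∈ (⊤ : Submodule k (Ext (triv k H) (triv k H) a')), i.2.comp w h = z} {g.2}
      ((EGP k (triv k H) N).Gen S (fun _ => ⊤) n) (by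
        rintro _ ⟨s, hs, a', h', w, _, rfl⟩ y hy
        rw [Set.mem_singleton_iff] at hy
        subst hy
        have hn' : s.1 + (a' + g.1) = n := by omega
        have hmem : (EGP k (triv k H) N).op s hn' (w.comp g.2 rfl : Ext (triv k H) N (a' + g.1)) ∈
            (EGP k (triv k H) N).Gen S (fun _ => ⊤) n :=
          Submodule.subset_span ⟨s, hs, a' + g.1, hn', w.comp g.2 rfl, trivial, rfl⟩
        rw [Ext.comp_assoc s.2 w g.2 h' rfl (by omega)]
        exact hmem)
    exact h2 r hr g.2 (Submodule.subset_span rfl)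
  exact h1

/-- FGC implies: there are finitely many even classes over which all `Ext(k, N)`, `N`
finite-dimensional, are noetherian. -/
theorem FGC_GN (hH : FGC k H) :
    ∃ S : Set (Cls (triv k H)), S.Finite ∧ EvenPos S ∧
      ∀ N : ModuleCat.{u} H, Module.Finite k N → (EGP k (triv k H) N).GN S := by
  obtain ⟨S, h1, h2, h3⟩ := FGC_alg_even k H hH
  exact ⟨S, h1, h2, fun N hN => GN_of_GF_triv k H hH S h1 h2 h3 N hN⟩

end Pool.Agent.H26.FG
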