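import Pool.Agent.H26.FG.Base

/-!
# Module GOpA: permanence properties of `GN` and `GF`
-/

universe u w w'

namespace Pool.Agent.H26.FG.GOp

variable {k : Type u} [Field k] {I : Type w} {m : I → ℕ}

lemma Gen_mono (E : GOp k I m) {S T : Set I} (hST : S ⊆ T) {W W' : ∀ n, Submodule k (E.V n)}
    (hW : ∀ n, W n ≤ W' n) (n : ℕ) : E.Gen S W n ≤ E.Gen T W' n := by
  refine Submodule.span_mono ?_
  rintro z ⟨i, hi, a, h, w, hw, rfl⟩
  exact ⟨i, hST hi, a, h, w, hW a hw, rfl⟩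

lemma h44_Gen_le {E : GOp k I m} {S : Set I} {W : ∀ n, Submodule k (E.V n)} (h : E.Stable S W)
    (n : ℕ) : E.Gen S W n ≤ W n := by
  refine Submodule.span_le.2 ?_
  rintro z ⟨i, hi, a, h', w, hw, rfl⟩
  exact h i hi a n h' w hw

lemma GN.mono {E : GOp k I m} {S T : Set I} (hST : S ⊆ T) (h : E.GN S) : E.GN T := by
  intro W hW
  obtain ⟨n₀, hn⟩ := h W fun i hi => hW i (hST hi)
  exact ⟨n₀, fun n hn' => (hn n hn').trans (Gen_mono E hST (fun _ => le_rfl) n)⟩

lemma GN.gf {E : GOp k I m} {S : Set I} (h : E.GN S) : E.GF S :=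
  h (fun _ => ⊤) fun _ _ _ _ _ _ _ => Submodule.mem_top

lemma GF.mono {E : GOp k I m} {S T : Set I} (hST : S ⊆ T) (h : E.GF S) : E.GF T := by
  obtain ⟨n₀, hn⟩ := h
  exact ⟨n₀, fun n hn' => (hn n hn').trans (Gen_mono E hST (fun _ => le_rfl) n)⟩

/-- For no operators: `GN ∅` means that the space vanishes in high degrees. -/
lemma GN_empty_iff (E : GOp k I m) :
    E.GN ∅ ↔ ∃ n₀ : ℕ, ∀ n, n₀ < n → ∀ v : E.V n, v = 0 := by
  constructor
  · intro h
    obtain ⟨n₀, hn⟩ := GN.gf h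
    refine ⟨n₀, fun n hn' v => ?_⟩
    have h1 : v ∈ E.Gen ∅ (fun _ => ⊤) n := hn n hn' Submodule.mem_top
    have h2 : E.Gen ∅ (fun _ => ⊤) n ≤ ⊥ := by
      refine Submodule.span_le.2 ?_
      rintro z ⟨i, hi, -⟩
      exact absurd hi (Set.notMem_empty i)
    simpa using h2 h1
  · rintro ⟨n₀, hn⟩ W -
    refine ⟨n₀, fun n hn' v _ => ?_⟩
    rw [hn n hn' v]
    exact Submodule.zero_mem _

/-- The graded subspace of `E` given by a graded subspace of the shifted space. -/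
def h44_unshift (E : GOp k I m) (s : ℕ) (W : ∀ n, Submodule k ((E.shift s).V n)) (n : ℕ) :
    Submodule k (E.V n) :=
  ⨆ p : {n' : ℕ // n' + s = n}, (p.2 ▸ (W p.1 : Submodule k (E.V (p.1 + s))) :
    Submodule k (E.V n))

lemma h44_unshift_add (E : GOp k I m) (s : ℕ) (W : ∀ n, Submodule k ((E.shift s).V n)) (n : ℕ) :
    h44_unshift E s W (n + s) = W n := by
  refine le_antisymm (iSup_le ?_) ?_
  · rintro ⟨n', h⟩
    obtain rfl : n' = n := by omega
    exact fun x hx => hx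
  · exact le_iSup (fun p : {n' : ℕ // n' + s = n + s} =>
      (p.2 ▸ (W p.1 : Submodule k (E.V (p.1 + s))) : Submodule k (E.V (n + s)))) ⟨n, rfl⟩

lemma h44_unshift_lt (E : GOp k I m) (s : ℕ) (W : ∀ n, Submodule k ((E.shift s).V n)) (n : ℕ)
    (hn : n < s) : h44_unshift E s W n = ⊥ := by
  refine le_antisymm (iSup_le ?_) bot_le
  rintro ⟨n', h⟩
  omega

lemma GN_shift_iff (E : GOp k I m) (S : Set I) (s : ℕ) : (E.shift s).GN S ↔ E.GN S := by
  constructor
  · intro h W hW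
    obtain ⟨n₀, hn⟩ := h (fun n => W (n + s)) fun i hi a b hab v hv =>
      hW i hi (a + s) (b + s) (by omega) v hv
    refine ⟨n₀ + s, fun n hn' => ?_⟩
    obtain ⟨n', rfl⟩ : ∃ n', n = n' + s := ⟨n - s, by omega⟩
    refine (hn n' (by omega)).trans ?_
    refine Submodule.span_le.2 ?_
    rintro z ⟨i, hi, a, h', w, hw, rfl⟩
    have h1 : E.op i (a := a + s) (b := n' + s) (by omega) w ∈ E.Gen S W (n' + s) :=
      Submodule.subset_span ⟨i, hi, a + s, by omega, w, hw, rfl⟩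
    exact h1
  · intro h W hW
    obtain ⟨n₀, hn⟩ := h (h44_unshift E s W) (by
      intro i hi a b hab v hv
      by_cases ha : s ≤ a
      · obtain ⟨a', rfl⟩ : ∃ a', a = a' + s := ⟨a - s, by omega⟩
        obtain ⟨b', rfl⟩ : ∃ b', b = b' + s := ⟨b - s, by omega⟩
        rw [h44_unshift_add] at hv ⊢
        exact hW i hi a' b' (by omega) v hv
      · rw [h44_unshift_lt E s W a (by omega), Submodule.mem_bot] at hv
        rw [hv, map_zero]
        exact Submodule.zero_mem _)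
    refine ⟨n₀, fun n hn' => ?_⟩
    have h1 := hn (n + s) (by omega)
    rw [h44_unshift_add] at h1
    have h2 : E.Gen S (h44_unshift E s W) (n + s) ≤
        (show Submodule k (E.V (n + s)) from (E.shift s).Gen S W n) := by
      refine Submodule.span_le.2 ?_
      rintro z ⟨i, hi, a, h', w, hw, rfl⟩
      by_cases ha : s ≤ a
      · obtain ⟨a', rfl⟩ : ∃ a', a = a' + s := ⟨a - s, by omega⟩
        rw [h44_unshift_add] at hw
        have h2 : (E.shift s).op i (a := a') (b := n) (by omega) w ∈ (E.shift s).Gen S W n :=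
          Submodule.subset_span ⟨i, hi, a', by omega, w, hw, rfl⟩
        exact h2
      · rw [h44_unshift_lt E s W a (by omega), Submodule.mem_bot] at hw
        rw [hw, map_zero]
        exact Submodule.zero_mem _
    exact fun x hx => h2 (h1 hx)

/-- If the operators in `T` act as zero they can be dropped. -/
lemma GN.drop_zero {E : GOp k I m} {S T : Set I} (h : E.GN (S ∪ T))
    (h0 : ∀ i ∈ T, ∀ (a b : ℕ) (hab : m i + a = b) (v : E.V a), E.op i hab v = 0) : E.GN S := by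
  intro W hW
  obtain ⟨n₀, hn⟩ := h W (by
    rintro i (hi | hi) a b hab v hv
    · exact hW i hi a b hab v hv
    · rw [h0 i hi]
      exact Submodule.zero_mem _)
  refine ⟨n₀, fun n hn' => (hn n hn').trans (Submodule.span_le.2 ?_)⟩
  rintro z ⟨i, hi | hi, a, h', w, hw, rfl⟩
  · exact Submodule.subset_span ⟨i, hi, a, h', w, hw, rfl⟩
  · rw [h0 i hi]
    exact Submodule.zero_mem _

/-- The exactness argument with operators in `T` that can be dropped. -/
theorem h44_exact {V' V V'' : GOp k I m} {S T : Set I}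
    (f : ∀ n, V'.V n →ₗ[k] V.V n) (g : ∀ n, V.V n →ₗ[k] V''.V n)
    (hf : ∀ i ∈ S, ∀ (a b : ℕ) (h : m i + a = b) (v : V'.V a),
      f b (V'.op i h v) = V.op i h (f a v))
    (hg : ∀ i ∈ S ∪ T, ∀ (a b : ℕ) (h : m i + a = b) (v : V.V a),
      g b (V.op i h v) = V''.op i h (g a v))
    (j₀ : ℕ) (hex : ∀ n, j₀ ≤ n → ∀ v : V.V n, g n v = 0 → ∃ v', f n v' = v)
    (h0 : ∀ i ∈ T, ∀ (a b : ℕ) (h : m i + a = b) (v : V'.V a), f b (V'.op i h v) = 0)
    (h1 : ∀ i ∈ T, ∀ (a b : ℕ) (h : m i + a = b) (v : V.V a), g b (V.op i h v) = 0)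
    (h' : V'.GN (S ∪ T)) (h'' : V''.GN (S ∪ T)) : V.GN S := by
  intro W hW
  obtain ⟨n', hn'⟩ := h' (fun n => (W n).comap (f n)) (by
    rintro i (hi | hi) a b hab v hv
    · rw [Submodule.mem_comap, hf i hi]
      exact hW i hi a b hab _ hv
    · rw [Submodule.mem_comap, h0 i hi]
      exact Submodule.zero_mem _)
  obtain ⟨n'', hn''⟩ := h'' (fun n => (W n).map (g n)) (by
    rintro i hi a b hab v ⟨w, hw, rfl⟩
    rw [← hg i hi]
    rcases hi with hi | hi
    · exact ⟨_, hW i hi a b hab w hw, rfl⟩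
    · rw [h1 i hi]
      exact Submodule.zero_mem _)
  refine ⟨max (max n' n'') j₀, fun n hn v hv => ?_⟩
  have e1 : n' < n := lt_of_le_of_lt ((le_max_left _ _).trans (le_max_left _ _)) hn
  have e2 : n'' < n := lt_of_le_of_lt ((le_max_right _ _).trans (le_max_left _ _)) hn
  have e3 : j₀ ≤ n := ((le_max_right _ _).trans_lt hn).le
  have hu : V''.Gen (S ∪ T) (fun n => (W n).map (g n)) n ≤ (V.Gen S W n).map (g n) := by
    refine Submodule.span_le.2 ?_
    rintro z ⟨i, hi, a, hab, y, ⟨w, hw, rfl⟩, rfl⟩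
    rw [← hg i hi]
    rcases hi with hi | hi
    · exact ⟨_, Submodule.subset_span ⟨i, hi, a, hab, w, hw, rfl⟩, rfl⟩
    · rw [h1 i hi]
      exact Submodule.zero_mem _
  obtain ⟨u, hu1, hu2⟩ := hu (hn'' n e2 ⟨v, hv, rfl⟩)
  obtain ⟨v', hv'⟩ := hex n e3 (v - u) (by rw [map_sub, hu2, sub_self])
  have hW' : v' ∈ (W n).comap (f n) := by
    rw [Submodule.mem_comap, hv']
    exact Submodule.sub_mem _ hv (h44_Gen_le hW n hu1)
  have hG' : (V'.Gen (S ∪ T) (fun n => (W n).comap (f n)) n).map (f n) ≤ V.Gen S W n := by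
    rw [Submodule.map_le_iff_le_comap]
    refine Submodule.span_le.2 ?_
    rintro z ⟨i, hi, a, hab, y, hy, rfl⟩
    change f n (V'.op i hab y) ∈ V.Gen S W n
    rcases hi with hi | hi
    · rw [hf i hi]
      exact Submodule.subset_span ⟨i, hi, a, hab, f a y, hy, rfl⟩
    · rw [h0 i hi]
      exact Submodule.zero_mem _
  have e4 : f n v' ∈ V.Gen S W n := hG' ⟨v', hn' n e1 hW', rfl⟩
  rw [hv'] at e4
  have e5 := Submodule.add_mem _ e4 hu1
  rwa [sub_add_cancel] at e5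

/-- Extensions. `V' → V → V''` exact at `V` in degrees `≥ j₀`, maps commuting with operators.
Proof: for stable `W` let `W'' = g(W)`, `W' = f⁻¹(W)`. -/
theorem GN_exact {V' V V'' : GOp k I m} {S : Set I}
    (f : ∀ n, V'.V n →ₗ[k] V.V n) (g : ∀ n, V.V n →ₗ[k] V''.V n)
    (hf : ∀ i ∈ S, ∀ (a b : ℕ) (h : m i + a = b) (v : V'.V a), f b (V'.op i h v) = V.op i h (f a v))
    (hg : ∀ i ∈ S, ∀ (a b : ℕ) (h : m i + a = b) (v : V.V a), g b (V.op i h v) = V''.op i h (g a v))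
    (j₀ : ℕ) (hex : ∀ n, j₀ ≤ n → ∀ v : V.V n, g n v = 0 → ∃ v', f n v' = v)
    (h' : V'.GN S) (h'' : V''.GN S) : V.GN S := by
  refine h44_exact (T := ∅) f g hf ?_ j₀ hex (fun i hi => absurd hi (Set.notMem_empty i))
    (fun i hi => absurd hi (Set.notMem_empty i)) ?_ ?_
  · rw [Set.union_empty]
    exact hg
  · rw [Set.union_empty]
    exact h'
  · rw [Set.union_empty]
    exact h''

/-- Extensions, where in addition the operators in `T` act as zero on the image of `V'` in `V` and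
on the image of `V` in `V''`. -/
theorem GN_exact_drop {V' V V'' : GOp k I m} {S T : Set I}
    (f : ∀ n, V'.V n →ₗ[k] V.V n) (g : ∀ n, V.V n →ₗ[k] V''.V n)
    (hf : ∀ i ∈ S ∪ T, ∀ (a b : ℕ) (h : m i + a = b) (v : V'.V a),
      f b (V'.op i h v) = V.op i h (f a v))
    (hg : ∀ i ∈ S ∪ T, ∀ (a b : ℕ) (h : m i + a = b) (v : V.V a),
      g b (V.op i h v) = V''.op i h (g a v))
    (j₀ : ℕ) (hex : ∀ n, j₀ ≤ n → ∀ v : V.V n, g n v = 0 → ∃ v', f n v' = v)
    (h0 : ∀ i ∈ T, ∀ (a b : ℕ) (h : m i + a = b) (v : V'.V a), f b (V'.op i h v) = 0)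
    (h1 : ∀ i ∈ T, ∀ (a b : ℕ) (h : m i + a = b) (v : V.V a), g b (V.op i h v) = 0)
    (h' : V'.GN (S ∪ T)) (h'' : V''.GN (S ∪ T)) : V.GN S :=
  h44_exact f g (fun i hi => hf i (Or.inl hi)) hg j₀ hex h0 h1 h' h''

/-- Subobjects (injective in degrees `≥ j₀`). -/
theorem GN_of_injective {V V'' : GOp k I m} {S : Set I} (g : ∀ n, V.V n →ₗ[k] V''.V n)
    (hg : ∀ i ∈ S, ∀ (a b : ℕ) (h : m i + a = b) (v : V.V a), g b (V.op i h v) = V''.op i h (g a v))
    (j₀ : ℕ) (hinj : ∀ n, j₀ ≤ n → ∀ v : V.V n, g n v = 0 → v = 0) (h'' : V''.GN S) : V.GN S := by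
  intro W hW
  obtain ⟨n'', hn''⟩ := h'' (fun n => (W n).map (g n)) (by
    rintro i hi a b hab v ⟨w, hw, rfl⟩
    rw [← hg i hi]
    exact ⟨_, hW i hi a b hab w hw, rfl⟩)
  refine ⟨max n'' j₀, fun n hn v hv => ?_⟩
  have e2 : n'' < n := lt_of_le_of_lt (le_max_left _ _) hn
  have e3 : j₀ ≤ n := ((le_max_right _ _).trans_lt hn).le
  have hu : V''.Gen S (fun n => (W n).map (g n)) n ≤ (V.Gen S W n).map (g n) := by
    refine Submodule.span_le.2 ?_
    rintro z ⟨i, hi, a, hab, y, ⟨w, hw, rfl⟩, rfl⟩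
    rw [← hg i hi]
    exact ⟨_, Submodule.subset_span ⟨i, hi, a, hab, w, hw, rfl⟩, rfl⟩
  obtain ⟨u, hu1, hu2⟩ := hu (hn'' n e2 ⟨v, hv, rfl⟩)
  have e4 := hinj n e3 (v - u) (by rw [map_sub, hu2, sub_self])
  rw [sub_eq_zero.1 e4]
  exact hu1

/-- Quotients, with a change of the index set: `f` is surjective in degrees `≥ j₀`. -/
theorem GN_of_surjective {I' : Type w'} {m' : I' → ℕ} {V' : GOp k I' m'} {V : GOp k I m}
    {S' : Set I'} {S : Set I} (φ : I' → I) (hφS : ∀ i ∈ S', φ i ∈ S) (hφ : ∀ i, m (φ i) = m' i)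
    (f : ∀ n, V'.V n →ₗ[k] V.V n)
    (hf : ∀ i ∈ S', ∀ (a b : ℕ) (h : m' i + a = b) (h' : m (φ i) + a = b) (v : V'.V a),
      f b (V'.op i h v) = V.op (φ i) h' (f a v))
    (j₀ : ℕ) (hsurj : ∀ n, j₀ ≤ n → ∀ v : V.V n, ∃ v', f n v' = v)
    (h : V'.GN S') : V.GN S := by
  intro W hW
  have hm : ∀ (i : I') (a b : ℕ), m' i + a = b → m (φ i) + a = b := by
    intro i a b hab
    rw [hφ i]
    exact hab
  obtain ⟨n', hn'⟩ := h (fun n => (W n).comap (f n)) (by
    rintro i hi a b hab v hv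
    rw [Submodule.mem_comap, hf i hi a b hab (hm i a b hab)]
    exact hW (φ i) (hφS i hi) a b _ _ hv)
  refine ⟨max n' j₀, fun n hn v hv => ?_⟩
  have e1 : n' < n := lt_of_le_of_lt (le_max_left _ _) hn
  have e3 : j₀ ≤ n := ((le_max_right _ _).trans_lt hn).le
  obtain ⟨v', rfl⟩ := hsurj n e3 v
  have hG' : (V'.Gen S' (fun n => (W n).comap (f n)) n).map (f n) ≤ V.Gen S W n := by
    rw [Submodule.map_le_iff_le_comap]
    refine Submodule.span_le.2 ?_
    rintro z ⟨i, hi, a, hab, y, hy, rfl⟩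
    change f n (V'.op i hab y) ∈ V.Gen S W n
    rw [hf i hi a n hab (hm i a n hab)]
    exact Submodule.subset_span ⟨φ i, hφS i hi, a, hm i a n hab, f a y, hy, rfl⟩
  exact hG' ⟨v', hn' n e1 hv, rfl⟩

/-- Isomorphic graded spaces, with a change of the index set in the other direction:
`g : V → V'` is injective in degrees `≥ j₀` and `op i` (`i ∈ S`) on `V` corresponds to `op (φ i)`. -/
theorem GN_of_injective' {I' : Type w'} {m' : I' → ℕ} {V' : GOp k I' m'} {V : GOp k I m}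
    {S' : Set I'} {S : Set I} (φ : I → I') (hφS : S' ⊆ φ '' S) (hφ : ∀ i, m' (φ i) = m i)
    (g : ∀ n, V.V n →ₗ[k] V'.V n)
    (hg : ∀ i ∈ S, ∀ (a b : ℕ) (h : m i + a = b) (h' : m' (φ i) + a = b) (v : V.V a),
      g b (V.op i h v) = V'.op (φ i) h' (g a v))
    (j₀ : ℕ) (hinj : ∀ n, j₀ ≤ n → ∀ v : V.V n, g n v = 0 → v = 0)
    (h : V'.GN S') : V.GN S := by
  intro W hW
  have hm : ∀ (i : I) (a b : ℕ), m' (φ i) + a = b → m i + a = b := by
    intro i a b hab
    rw [← hφ i]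
    exact hab
  obtain ⟨n'', hn''⟩ := h (fun n => (W n).map (g n)) (by
    rintro i' hi' a b hab v ⟨w, hw, rfl⟩
    obtain ⟨i, hi, rfl⟩ := hφS hi'
    rw [← hg i hi a b (hm i a b hab) hab]
    exact ⟨_, hW i hi a b _ w hw, rfl⟩)
  refine ⟨max n'' j₀, fun n hn v hv => ?_⟩
  have e2 : n'' < n := lt_of_le_of_lt (le_max_left _ _) hn
  have e3 : j₀ ≤ n := ((le_max_right _ _).trans_lt hn).le
  have hu : V'.Gen S' (fun n => (W n).map (g n)) n ≤ (V.Gen S W n).map (g n) := by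
    refine Submodule.span_le.2 ?_
    rintro z ⟨i', hi', a, hab, y, ⟨w, hw, rfl⟩, rfl⟩
    obtain ⟨i, hi, rfl⟩ := hφS hi'
    rw [← hg i hi a n (hm i a n hab) hab]
    exact ⟨_, Submodule.subset_span ⟨i, hi, a, hm i a n hab, w, hw, rfl⟩, rfl⟩
  obtain ⟨u, hu1, hu2⟩ := hu (hn'' n e2 ⟨v, hv, rfl⟩)
  have e4 := hinj n e3 (v - u) (by rw [map_sub, hu2, sub_self])
  rw [sub_eq_zero.1 e4]
  exact hu1

end Pool.Agent.H26.FG.GOp
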