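import Pool.Agent.H26.FG.HomF
import Pool.Agent.H26.FG.CoiA
import Pool.Agent.H26.FG.GOpA

/-!
# Module FgcB: from graded noetherian modules over finitely many even classes to FGC
-/

open CategoryTheory Abelian TensorProduct
open scoped ModuleCat

universe u

namespace Pool.Agent.H26.FG

variable (k : Type u) [Field k] (H : Type u) [Ring H] [HopfAlgebra k H] [Module.Finite k H]

/-- Finitely many generators in bounded degrees. -/
theorem FgcB_gen {k : Type u} [Field k] {I : Type*} {m : I → ℕ} (E : GOp k I m) (S : Set I)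
    (hpos : ∀ i ∈ S, 0 < m i) (h : E.GF S) (hfin : ∀ n, Module.Finite k (E.V n)) :
    ∃ G : Set (Σ n : ℕ, E.V n), G.Finite ∧ ∀ W : ∀ n, Submodule k (E.V n),
      (∀ g ∈ G, g.2 ∈ W g.1) → E.Stable S W → ∀ n, W n = ⊤ := by
  obtain ⟨n₀, hn₀⟩ := h
  have hB : ∀ n, ∃ B : Set (E.V n), B.Finite ∧ Submodule.span k B = ⊤ := by
    intro n
    obtain ⟨B, hB⟩ := (hfin n).fg_top
    exact ⟨B, B.finite_toSet, hB⟩
  choose B hB1 hB2 using hB
  refine ⟨⋃ n ∈ Set.Iic n₀, (fun b => (⟨n, b⟩ : Σ n : ℕ, E.V n)) '' B n,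
    (Set.finite_Iic n₀).biUnion fun n _ => (hB1 n).image _, ?_⟩
  intro W hG hW n
  induction n using Nat.strong_induction_on with
  | _ n ih =>
    rcases le_or_gt n n₀ with hn | hn
    · rw [eq_top_iff, ← hB2 n, Submodule.span_le]
      intro b hb
      exact hG ⟨n, b⟩ (Set.mem_biUnion (Set.mem_Iic.2 hn) ⟨b, hb, rfl⟩)
    · rw [eq_top_iff]
      refine (hn₀ n hn).trans (Submodule.span_le.2 ?_)
      rintro z ⟨i, hi, a, ha, w, -, rfl⟩
      have h1 := hpos i hi
      refine hW i hi a n ha w ?_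
      rw [ih a (by omega)]
      exact Submodule.mem_top

/-- If all `Ext(k, N)` are generated in bounded degrees over a finite set of classes then FGC holds
(`Ext^n(k,N)` is finite-dimensional: add bases in low degrees to the generators; for
`Ext(M, N)` use `exists_hom_module`). -/
theorem FGC_of_GF (S : Set (Cls (triv k H))) (hS : S.Finite) (hpos : ∀ s ∈ S, 0 < s.1)
    (h : ∀ N : ModuleCat.{u} H, Module.Finite k N → (EGP k (triv k H) N).GF S) : FGC k H := by
  constructor
  · obtain ⟨G, hG1, hG2⟩ := FgcB_gen (EGP k (triv k H) (triv k H)) S hpos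
      (h (triv k H) (trv_finite k _))
      (fun n => Ext_finite k (triv k H) (triv k H) (trv_finite k _) (trv_finite k _) n)
    refine ⟨S ∪ G, hS.union hG1, ?_⟩
    intro V _ hV hmul
    refine hG2 V (fun g hg => hV g (Or.inr hg)) ?_
    intro s hs a b hab v hv
    exact hmul s.1 a b hab s.2 v (hV s (Or.inl hs)) hv
  · intro M N hM hN
    obtain ⟨L, hL, ψ, hψ, hsurj⟩ := exists_hom_module k M N hM hN
    obtain ⟨G, hG1, hG2⟩ := FgcB_gen (EGP k (triv k H) L) S hpos (h L hL)
      (fun n => Ext_finite k (triv k H) L (trv_finite k _) hL n)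
    refine ⟨(fun g : Σ n : ℕ, Ext (triv k H) L n =>
      (⟨g.1, ψ g.1 g.2⟩ : Σ n : ℕ, Ext M N n)) '' G, hG1.image _, ?_⟩
    intro V hV hmul n
    have h1 := hG2 (fun n => (V n).comap (ψ n)) (fun g hg => hV _ ⟨g, hg, rfl⟩) (by
      intro s hs a b hab v hv
      have h2 : ψ b (s.2.comp v hab) ∈ V b := by
        rw [hψ s.1 a b hab s.2 v]
        exact hmul s.1 a b hab s.2 _ hv
      exact h2) n
    rw [eq_top_iff]
    intro t _
    obtain ⟨z, rfl⟩ := hsurj n t
    have h3 := (Submodule.eq_top_iff'.1 h1) z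
    exact h3

end Pool.Agent.H26.FG
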