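import Pool.Agent.H26.FG.Base

/-!
# Module Grid: the 3x3 lemma for Ext classes (anticommutation)
-/

open CategoryTheory Abelian Limits

universe w w' v v' u u'

namespace Pool.Agent.H26.FG

variable {𝒜 : Type u} [Category.{v} 𝒜] [Abelian 𝒜] [HasExt.{w} 𝒜]
  {ℬ : Type u'} [Category.{v'} ℬ] [Abelian ℬ] [HasExt.{w'} ℬ]

omit [HasExt.{w'} ℬ] in
/-- a morphism into the middle term, killed by `g`, factors through `f` (short exact sequence) -/
lemma Grid_lift {a b c : ℬ} {f : a ⟶ b} {g : b ⟶ c} {w : f ≫ g = 0}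
    (h : (ShortComplex.mk f g w).ShortExact) {Z : ℬ} (z : Z ⟶ b) (hz : z ≫ g = 0) :
    ∃ z' : Z ⟶ a, z' ≫ f = z := by
  have : Mono (ShortComplex.mk f g w).f := h.mono_f
  exact ⟨h.exact.lift z hz, h.exact.lift_f z hz⟩

/-- The 3x3 lemma for classes of short exact sequences. -/
lemma Grid_abs {a₁₁ a₁₂ a₁₃ a₂₁ a₂₂ a₂₃ a₃₁ a₃₂ a₃₃ : ℬ}
    (f₁ : a₁₁ ⟶ a₁₂) (g₁ : a₁₂ ⟶ a₁₃) (f₂ : a₂₁ ⟶ a₂₂) (g₂ : a₂₂ ⟶ a₂₃)
    (f₃ : a₃₁ ⟶ a₃₂) (g₃ : a₃₂ ⟶ a₃₃)
    (α₁ : a₁₁ ⟶ a₂₁) (β₁ : a₂₁ ⟶ a₃₁) (α₂ : a₁₂ ⟶ a₂₂) (β₂ : a₂₂ ⟶ a₃₂)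
    (α₃ : a₁₃ ⟶ a₂₃) (β₃ : a₂₃ ⟶ a₃₃)
    (hα : f₁ ≫ α₂ = α₁ ≫ f₂) (hα' : g₁ ≫ α₃ = α₂ ≫ g₂)
    (hβ : f₂ ≫ β₂ = β₁ ≫ f₃) (hβ' : g₂ ≫ β₃ = β₂ ≫ g₃)
    (w₁ : f₁ ≫ g₁ = 0) (w₂ : f₂ ≫ g₂ = 0) (w₃ : f₃ ≫ g₃ = 0)
    (v₁ : α₁ ≫ β₁ = 0) (v₂ : α₂ ≫ β₂ = 0) (v₃ : α₃ ≫ β₃ = 0)
    (r₁ : (ShortComplex.mk f₁ g₁ w₁).ShortExact) (r₂ : (ShortComplex.mk f₂ g₂ w₂).ShortExact)
    (r₃ : (ShortComplex.mk f₃ g₃ w₃).ShortExact) (c₁ : (ShortComplex.mk α₁ β₁ v₁).ShortExact)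
    (c₂ : (ShortComplex.mk α₂ β₂ v₂).ShortExact) (c₃ : (ShortComplex.mk α₃ β₃ v₃).ShortExact) :
    r₃.extClass.comp c₁.extClass (c := 2) rfl =
      - (c₃.extClass.comp r₁.extClass (c := 2) rfl) := by
  have : Mono f₁ := r₁.mono_f
  have : Epi g₁ := r₁.epi_g
  have : Mono f₂ := r₂.mono_f
  have : Epi g₂ := r₂.epi_g
  have : Mono f₃ := r₃.mono_f
  have : Epi g₃ := r₃.epi_g
  have : Mono α₁ := c₁.mono_f
  have : Epi β₁ := c₁.epi_g
  have : Mono α₂ := c₂.mono_f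
  have : Epi β₂ := c₂.epi_g
  have : Mono α₃ := c₃.mono_f
  have : Epi β₃ := c₃.epi_g
  -- the kernel of `a₂₂ ⟶ a₃₃`
  have : Epi (β₂ ≫ g₃) := epi_comp _ _
  have hK : (ShortComplex.mk (kernel.ι (β₂ ≫ g₃)) (β₂ ≫ g₃) (kernel.condition _)).ShortExact :=
    { exact := ShortComplex.exact_kernel _ }
  have hι : kernel.ι (β₂ ≫ g₃) ≫ β₂ ≫ g₃ = 0 := kernel.condition _
  obtain ⟨q₁, hq₁⟩ := Grid_lift c₃ (kernel.ι (β₂ ≫ g₃) ≫ g₂)
    (by rw [Category.assoc, hβ', hι])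
  obtain ⟨q₂, hq₂⟩ := Grid_lift r₃ (kernel.ι (β₂ ≫ g₃) ≫ β₂)
    (by rw [Category.assoc, hι])
  have hj0 : (f₁ ≫ α₂) ≫ β₂ ≫ g₃ = 0 := by
    rw [Category.assoc, ← Category.assoc α₂, v₂, zero_comp, comp_zero]
  have hs0 : α₂ ≫ β₂ ≫ g₃ = 0 := by rw [← Category.assoc, v₂, zero_comp]
  have ht0 : f₂ ≫ β₂ ≫ g₃ = 0 := by
    rw [← Category.assoc, hβ, Category.assoc, w₃, comp_zero]
  obtain ⟨j, hj⟩ : ∃ j : a₁₁ ⟶ kernel (β₂ ≫ g₃), j ≫ kernel.ι (β₂ ≫ g₃) = f₁ ≫ α₂ :=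
    ⟨kernel.lift _ _ hj0, kernel.lift_ι _ _ _⟩
  obtain ⟨s, hs⟩ : ∃ s : a₁₂ ⟶ kernel (β₂ ≫ g₃), s ≫ kernel.ι (β₂ ≫ g₃) = α₂ :=
    ⟨kernel.lift _ _ hs0, kernel.lift_ι _ _ _⟩
  obtain ⟨t, ht⟩ : ∃ t : a₂₁ ⟶ kernel (β₂ ≫ g₃), t ≫ kernel.ι (β₂ ≫ g₃) = f₂ :=
    ⟨kernel.lift _ _ ht0, kernel.lift_ι _ _ _⟩
  have hsq₁ : s ≫ q₁ = g₁ := by
    rw [← cancel_mono α₃, Category.assoc, hq₁, ← Category.assoc, hs, hα']
  have hsq₂ : s ≫ q₂ = 0 := by
    rw [← cancel_mono f₃, Category.assoc, hq₂, ← Category.assoc, hs, v₂, zero_comp]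
  have htq₁ : t ≫ q₁ = 0 := by
    rw [← cancel_mono α₃, Category.assoc, hq₁, ← Category.assoc, ht, w₂, zero_comp]
  have htq₂ : t ≫ q₂ = β₁ := by
    rw [← cancel_mono f₃, Category.assoc, hq₂, ← Category.assoc, ht, hβ]
  have hfs : f₁ ≫ s = j := by
    rw [← cancel_mono (kernel.ι (β₂ ≫ g₃)), Category.assoc, hs, hj]
  have hαt : α₁ ≫ t = j := by
    rw [← cancel_mono (kernel.ι (β₂ ≫ g₃)), Category.assoc, ht, hj, hα]
  have hjq₁ : j ≫ q₁ = 0 := by rw [← hfs, Category.assoc, hsq₁, w₁]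
  have hjq₂ : j ≫ q₂ = 0 := by rw [← hfs, Category.assoc, hsq₂, comp_zero]
  have hjq : j ≫ biprod.lift q₁ q₂ = 0 := by
    apply biprod.hom_ext
    · rw [Category.assoc, biprod.lift_fst, hjq₁, zero_comp]
    · rw [Category.assoc, biprod.lift_snd, hjq₂, zero_comp]
  have hmj : Mono j := by
    have h0 : Mono (j ≫ kernel.ι (β₂ ≫ g₃)) := by rw [hj]; exact mono_comp _ _
    exact mono_of_mono j (kernel.ι (β₂ ≫ g₃))
  have heq : Epi (biprod.lift q₁ q₂) := by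
    refine Preadditive.epi_of_cancel_zero _ fun {R} r hr => ?_
    have h1 : s ≫ biprod.lift q₁ q₂ ≫ r = 0 := by rw [hr, comp_zero]
    have h2 : t ≫ biprod.lift q₁ q₂ ≫ r = 0 := by rw [hr, comp_zero]
    have h3 : s ≫ biprod.lift q₁ q₂ = g₁ ≫ biprod.inl := by
      apply biprod.hom_ext
      · rw [Category.assoc, biprod.lift_fst, hsq₁, Category.assoc, biprod.inl_fst,
          Category.comp_id]
      · rw [Category.assoc, biprod.lift_snd, hsq₂, Category.assoc, biprod.inl_snd, comp_zero]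
    have h4 : t ≫ biprod.lift q₁ q₂ = β₁ ≫ biprod.inr := by
      apply biprod.hom_ext
      · rw [Category.assoc, biprod.lift_fst, htq₁, Category.assoc, biprod.inr_fst, comp_zero]
      · rw [Category.assoc, biprod.lift_snd, htq₂, Category.assoc, biprod.inr_snd,
          Category.comp_id]
    rw [← Category.assoc, h3, Category.assoc] at h1
    rw [← Category.assoc, h4, Category.assoc] at h2
    apply biprod.hom_ext'
    · rw [← cancel_epi g₁, h1, comp_zero, comp_zero]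
    · rw [← cancel_epi β₁, h2, comp_zero, comp_zero]
  have hB : (ShortComplex.mk j (biprod.lift q₁ q₂) hjq).ShortExact :=
    { exact := by
        refine ShortComplex.exact_of_f_is_kernel _ (KernelFork.IsLimit.ofι' _ _ ?_)
        intro Z z hz
        have hz₁ : z ≫ q₁ = 0 := by
          have := congrArg (fun x => x ≫ biprod.fst) hz
          simpa only [Category.assoc, biprod.lift_fst, zero_comp] using this
        have hz₂ : z ≫ q₂ = 0 := by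
          have := congrArg (fun x => x ≫ biprod.snd) hz
          simpa only [Category.assoc, biprod.lift_snd, zero_comp] using this
        have hex : ∃ l : Z ⟶ a₁₁, l ≫ j = z := by
          obtain ⟨z', hz'⟩ := Grid_lift r₂ (z ≫ kernel.ι (β₂ ≫ g₃))
            (by rw [Category.assoc, ← hq₁, ← Category.assoc, hz₁, zero_comp])
          obtain ⟨z'', hz''⟩ := Grid_lift c₁ z' (by
            rw [← cancel_mono f₃, Category.assoc, ← hβ, ← Category.assoc, hz', Category.assoc,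
              ← hq₂, ← Category.assoc, hz₂])
          refine ⟨z'', ?_⟩
          rw [← cancel_mono (kernel.ι (β₂ ≫ g₃)), Category.assoc, hj, hα, ← Category.assoc,
            hz'', hz']
        exact ⟨hex.choose, hex.choose_spec⟩
      mono_f := hmj
      epi_g := heq }
  -- naturality
  have n1 : hK.extClass.comp (Ext.mk₀ q₁) (add_zero 1) = c₃.extClass := by
    have h := ShortComplex.ShortExact.extClass_naturality hK c₃
      { τ₁ := q₁, τ₂ := g₂, τ₃ := 𝟙 _, comm₁₂ := hq₁, comm₂₃ := by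
          change g₂ ≫ β₃ = (β₂ ≫ g₃) ≫ 𝟙 _
          rw [Category.comp_id, hβ'] }
    refine h.trans ?_
    exact Ext.mk₀_id_comp _
  have n2 : hK.extClass.comp (Ext.mk₀ q₂) (add_zero 1) = r₃.extClass := by
    have h := ShortComplex.ShortExact.extClass_naturality hK r₃
      { τ₁ := q₂, τ₂ := β₂, τ₃ := 𝟙 _, comm₁₂ := hq₂, comm₂₃ := by
          change β₂ ≫ g₃ = (β₂ ≫ g₃) ≫ 𝟙 _
          rw [Category.comp_id] }
    refine h.trans ?_
    exact Ext.mk₀_id_comp _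
  have n3 : (Ext.mk₀ (biprod.inl : a₁₃ ⟶ a₁₃ ⊞ a₃₁)).comp hB.extClass (zero_add 1) =
      r₁.extClass := by
    have h := ShortComplex.ShortExact.extClass_naturality r₁ hB
      { τ₁ := 𝟙 _, τ₂ := s, τ₃ := biprod.inl, comm₁₂ := by
          change 𝟙 _ ≫ j = f₁ ≫ s
          rw [Category.id_comp, hfs]
        comm₂₃ := by
          change s ≫ biprod.lift q₁ q₂ = g₁ ≫ biprod.inl
          apply biprod.hom_ext
          · rw [Category.assoc, biprod.lift_fst, hsq₁, Category.assoc, biprod.inl_fst,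
              Category.comp_id]
          · rw [Category.assoc, biprod.lift_snd, hsq₂, Category.assoc, biprod.inl_snd,
              comp_zero] }
    refine h.symm.trans ?_
    exact Ext.comp_mk₀_id _
  have n4 : (Ext.mk₀ (biprod.inr : a₃₁ ⟶ a₁₃ ⊞ a₃₁)).comp hB.extClass (zero_add 1) =
      c₁.extClass := by
    have h := ShortComplex.ShortExact.extClass_naturality c₁ hB
      { τ₁ := 𝟙 _, τ₂ := t, τ₃ := biprod.inr, comm₁₂ := by
          change 𝟙 _ ≫ j = α₁ ≫ t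
          rw [Category.id_comp, hαt]
        comm₂₃ := by
          change t ≫ biprod.lift q₁ q₂ = β₁ ≫ biprod.inr
          apply biprod.hom_ext
          · rw [Category.assoc, biprod.lift_fst, htq₁, Category.assoc, biprod.inr_fst,
              comp_zero]
          · rw [Category.assoc, biprod.lift_snd, htq₂, Category.assoc, biprod.inr_snd,
              Category.comp_id] }
    refine h.symm.trans ?_
    exact Ext.comp_mk₀_id _
  have n5 : (Ext.mk₀ (biprod.lift q₁ q₂)).comp hB.extClass (zero_add 1) = 0 :=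
    hB.comp_extClass
  have n6 : biprod.lift q₁ q₂ = q₁ ≫ biprod.inl + q₂ ≫ biprod.inr := by
    apply biprod.hom_ext
    · rw [biprod.lift_fst, Preadditive.add_comp, Category.assoc, Category.assoc, biprod.inl_fst,
        biprod.inr_fst, comp_zero, add_zero, Category.comp_id]
    · rw [biprod.lift_snd, Preadditive.add_comp, Category.assoc, Category.assoc, biprod.inl_snd,
        biprod.inr_snd, comp_zero, zero_add, Category.comp_id]
  have n7 : (Ext.mk₀ q₁).comp r₁.extClass (zero_add 1) +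
      (Ext.mk₀ q₂).comp c₁.extClass (zero_add 1) = 0 := by
    rw [← n3, ← n4, Ext.mk₀_comp_mk₀_assoc, Ext.mk₀_comp_mk₀_assoc, ← Ext.add_comp,
      ← Ext.mk₀_add, ← n6, n5]
  rw [← n2, ← n1, Ext.comp_assoc_of_second_deg_zero, Ext.comp_assoc_of_second_deg_zero,
    eq_neg_iff_add_eq_zero, ← Ext.comp_add, add_comm, n7, Ext.comp_zero]

/-- Let `0 → F₁ → F₂ → F₃ → 0` be an exact sequence of exact functors and `0 → X₁ → X₂ → X₃ → 0`
exact. The two ways around the 3x3 diagram `F_i(X_j)` give classes in `Ext²(F₃ X₃, F₁ X₁)` that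
are negatives of each other.

Proof. Write `a_{ij} = F_i (X_j)`. Let `K = kernel (F₂ X₂ → F₃ X₃)` (the map
`F₂(T.g) ≫ β = β ≫ F₃(T.g)`), class `κ ∈ Ext¹(F₃ X₃, K)` of `0 → K → F₂ X₂ → F₃ X₃ → 0`.
`K → F₁ X₃` (because `K → F₂ X₃` dies in `F₃ X₃`) and `K → F₃ X₁` (similarly) give
`q : K → F₁ X₃ ⊞ F₃ X₁`, which is epi with kernel `F₁ X₁` (class `λ`). Then
(1) `κ.q.λ = 0` (`q.λ = 0` by `comp_extClass`), (2) `κ.(K → F₁ X₃)` is the class of
`0 → F₁ X₃ → F₂ X₃ → F₃ X₃ → 0` and `κ.(K → F₃ X₁)` is the class of `F₃(T)` (`extClass_naturality`),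
(3) `inl.λ` = class of `F₁(T)`, `inr.λ` = class of `0 → F₁ X₁ → F₂ X₁ → F₃ X₁ → 0`
(`extClass_naturality` again), and `q = q.fst.inl + q.snd.inr`.
In `ℬ = ModuleCat _` everything can be done by hand; the general statement is welcome but if it is
more convenient you may restrict `ℬ` (and `𝒜`) to `ModuleCat.{u} H` for a ring `H`
(tell helper26 if you do). -/
theorem grid (F₁ F₂ F₃ : 𝒜 ⥤ ℬ)
    [F₁.Additive] [PreservesFiniteLimits F₁] [PreservesFiniteColimits F₁]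
    [F₂.Additive] [PreservesFiniteLimits F₂] [PreservesFiniteColimits F₂]
    [F₃.Additive] [PreservesFiniteLimits F₃] [PreservesFiniteColimits F₃]
    (α : F₁ ⟶ F₂) (β : F₂ ⟶ F₃) (w : ∀ X, α.app X ≫ β.app X = 0)
    (hE : ∀ X, (ShortComplex.mk (α.app X) (β.app X) (w X)).ShortExact)
    (T : ShortComplex 𝒜) (hT : T.ShortExact) :
    (hT.extClass.mapExactFunctor F₃).comp (hE T.X₁).extClass (c := 2) rfl =
      - ((hE T.X₃).extClass.comp (hT.extClass.mapExactFunctor F₁) (c := 2) rfl) := by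
  rw [Ext.mapExactFunctor_extClass, Ext.mapExactFunctor_extClass]
  exact Grid_abs (F₁.map T.f) (F₁.map T.g) (F₂.map T.f) (F₂.map T.g) (F₃.map T.f) (F₃.map T.g)
    (α.app T.X₁) (β.app T.X₁) (α.app T.X₂) (β.app T.X₂) (α.app T.X₃) (β.app T.X₃)
    (α.naturality _) (α.naturality _) (β.naturality _) (β.naturality _)
    _ _ _ _ _ _ (hT.map_of_exact F₁) (hT.map_of_exact F₂) (hT.map_of_exact F₃)
    (hE T.X₁) (hE T.X₂) (hE T.X₃)

end Pool.Agent.H26.FG
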