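import Pool.Agent.H26.FG.Defs

/-!
# Module HaF: the Hopf subalgebra of `p`-th powers (T1c)
-/

open CategoryTheory TensorProduct Coalgebra HopfAlgebra

universe u

namespace Pool.Agent.H26.FG

section HaFAux

variable {k : Type u} [Field k] {A : Type u} [Ring A] [HopfAlgebra k A]

/-- the map `S ⊗ S → A ⊗ A` -/
noncomputable def HaF_T (S : Subalgebra k A) : (S ⊗[k] S) →ₐ[k] (A ⊗[k] A) :=
  Algebra.TensorProduct.map S.val S.val

lemma HaF_T_tmul (S : Subalgebra k A) (a b : S) : HaF_T S (a ⊗ₜ b) = (a : A) ⊗ₜ[k] (b : A) := rfl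

lemma HaF_T_inj (S : Subalgebra k A) : Function.Injective (HaF_T S) := by
  have h := TensorProduct.map_injective_of_flat_flat S.val.toLinearMap S.val.toLinearMap
    Subtype.val_injective Subtype.val_injective
  exact h

lemma HaF_mem_range (S : Subalgebra k A)
    (hΔ : ∀ a ∈ S, comul (R := k) a ∈ Submodule.span k
      {y : A ⊗[k] A | ∃ b ∈ S, ∃ c ∈ S, y = b ⊗ₜ[k] c}) (a : S) :
    comul (R := k) (a : A) ∈ (HaF_T S).range := by
  have h := hΔ a a.2
  have hle : Submodule.span k {y : A ⊗[k] A | ∃ b ∈ S, ∃ c ∈ S, y = b ⊗ₜ[k] c} ≤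
      Subalgebra.toSubmodule (HaF_T S).range := by
    rw [Submodule.span_le]
    rintro y ⟨b, hb, c, hc, rfl⟩
    exact ⟨(⟨b, hb⟩ : S) ⊗ₜ (⟨c, hc⟩ : S), rfl⟩
  exact hle h

/-- the comultiplication of `S` -/
noncomputable def HaF_comul (S : Subalgebra k A)
    (hΔ : ∀ a ∈ S, comul (R := k) a ∈ Submodule.span k
      {y : A ⊗[k] A | ∃ b ∈ S, ∃ c ∈ S, y = b ⊗ₜ[k] c}) : S →ₐ[k] (S ⊗[k] S) :=
  ((AlgEquiv.ofInjective (HaF_T S) (HaF_T_inj S)).symm.toAlgHom).comp
    (AlgHom.codRestrict ((Bialgebra.comulAlgHom k A).comp S.val) (HaF_T S).range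
      (HaF_mem_range S hΔ))

lemma HaF_T_comul (S : Subalgebra k A)
    (hΔ : ∀ a ∈ S, comul (R := k) a ∈ Submodule.span k
      {y : A ⊗[k] A | ∃ b ∈ S, ∃ c ∈ S, y = b ⊗ₜ[k] c}) (a : S) :
    HaF_T S (HaF_comul S hΔ a) = comul (R := k) (a : A) := by
  have h := AlgEquiv.apply_symm_apply (AlgEquiv.ofInjective (HaF_T S) (HaF_T_inj S))
    (AlgHom.codRestrict ((Bialgebra.comulAlgHom k A).comp S.val) (HaF_T S).range
      (HaF_mem_range S hΔ) a)
  exact congrArg Subtype.val h

lemma HaF_T_comul' (S : Subalgebra k A)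
    (hΔ : ∀ a ∈ S, comul (R := k) a ∈ Submodule.span k
      {y : A ⊗[k] A | ∃ b ∈ S, ∃ c ∈ S, y = b ⊗ₜ[k] c}) :
    (HaF_T S).comp (HaF_comul S hΔ) = (Bialgebra.comulAlgHom k A).comp S.val :=
  AlgHom.ext (HaF_T_comul S hΔ)

/-- `S ⊗ (S ⊗ S) → A ⊗ (A ⊗ A)` -/
noncomputable def HaF_T3 (S : Subalgebra k A) : (S ⊗[k] (S ⊗[k] S)) →ₐ[k] (A ⊗[k] (A ⊗[k] A)) :=
  Algebra.TensorProduct.map S.val (HaF_T S)

lemma HaF_T3_inj (S : Subalgebra k A) : Function.Injective (HaF_T3 S) := by
  have h := TensorProduct.map_injective_of_flat_flat S.val.toLinearMap (HaF_T S).toLinearMap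
    Subtype.val_injective (HaF_T_inj S)
  exact h

lemma HaF_coassoc (S : Subalgebra k A)
    (hΔ : ∀ a ∈ S, comul (R := k) a ∈ Submodule.span k
      {y : A ⊗[k] A | ∃ b ∈ S, ∃ c ∈ S, y = b ⊗ₜ[k] c}) :
    (Algebra.TensorProduct.assoc k k k S S S).toAlgHom.comp
      ((Algebra.TensorProduct.map (HaF_comul S hΔ) (.id k S)).comp (HaF_comul S hΔ))
      = (Algebra.TensorProduct.map (.id k S) (HaF_comul S hΔ)).comp (HaF_comul S hΔ) := by
  have e1 : ∀ t : S ⊗[k] S, HaF_T3 S ((Algebra.TensorProduct.assoc k k k S S S)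
      (Algebra.TensorProduct.map (HaF_comul S hΔ) (.id k S) t)) =
      TensorProduct.assoc k A A A ((comul (R := k) (A := A)).rTensor A (HaF_T S t)) := by
    intro t
    induction t using TensorProduct.induction_on with
    | zero => simp
    | add x y hx hy => simp only [map_add, hx, hy]
    | tmul x y =>
      rw [HaF_T_tmul, LinearMap.rTensor_tmul, ← HaF_T_comul S hΔ x,
        Algebra.TensorProduct.map_tmul]
      generalize HaF_comul S hΔ x = z
      induction z using TensorProduct.induction_on with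
      | zero => simp
      | add u v hu hv => simp only [map_add, TensorProduct.add_tmul, hu, hv]
      | tmul u v => rfl
  have e2 : ∀ t : S ⊗[k] S, HaF_T3 S
      (Algebra.TensorProduct.map (.id k S) (HaF_comul S hΔ) t) =
      (comul (R := k) (A := A)).lTensor A (HaF_T S t) := by
    intro t
    induction t using TensorProduct.induction_on with
    | zero => simp
    | add x y hx hy => simp only [map_add, hx, hy]
    | tmul x y =>
      rw [HaF_T_tmul, LinearMap.lTensor_tmul, ← HaF_T_comul S hΔ y,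
        Algebra.TensorProduct.map_tmul]
      rfl
  refine AlgHom.ext fun a => HaF_T3_inj S ?_
  have h := Coalgebra.coassoc_apply (R := k) (a : A)
  rw [← HaF_T_comul S hΔ a, ← e1, ← e2] at h
  exact h

lemma HaF_rTensor (S : Subalgebra k A)
    (hΔ : ∀ a ∈ S, comul (R := k) a ∈ Submodule.span k
      {y : A ⊗[k] A | ∃ b ∈ S, ∃ c ∈ S, y = b ⊗ₜ[k] c}) :
    (Algebra.TensorProduct.map ((Bialgebra.counitAlgHom k A).comp S.val) (.id k S)).comp
      (HaF_comul S hΔ) = (Algebra.TensorProduct.lid k S).symm := by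
  have e1 : ∀ t : S ⊗[k] S, (((Algebra.TensorProduct.lid k S)
      (Algebra.TensorProduct.map ((Bialgebra.counitAlgHom k A).comp S.val) (.id k S) t) : S) : A) =
      TensorProduct.lid k A ((counit (R := k) (A := A)).rTensor A (HaF_T S t)) := by
    intro t
    induction t using TensorProduct.induction_on with
    | zero => simp
    | add x y hx hy => simp only [map_add, hx, hy, Subalgebra.coe_add]
    | tmul x y =>
      rw [HaF_T_tmul, LinearMap.rTensor_tmul, Algebra.TensorProduct.map_tmul]
      simp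
  refine AlgHom.ext fun a => ?_
  apply (Algebra.TensorProduct.lid k S).injective
  apply Subtype.val_injective
  have h := Coalgebra.rTensor_counit_comul (R := k) (a : A)
  rw [← HaF_T_comul S hΔ a] at h
  have h2 := e1 (HaF_comul S hΔ a)
  rw [h] at h2
  refine h2.trans ?_
  simp

lemma HaF_lTensor (S : Subalgebra k A)
    (hΔ : ∀ a ∈ S, comul (R := k) a ∈ Submodule.span k
      {y : A ⊗[k] A | ∃ b ∈ S, ∃ c ∈ S, y = b ⊗ₜ[k] c}) :
    (Algebra.TensorProduct.map (.id k S) ((Bialgebra.counitAlgHom k A).comp S.val)).comp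
      (HaF_comul S hΔ) = (Algebra.TensorProduct.rid k k S).symm := by
  have e1 : ∀ t : S ⊗[k] S, (((Algebra.TensorProduct.rid k k S)
      (Algebra.TensorProduct.map (.id k S) ((Bialgebra.counitAlgHom k A).comp S.val) t) : S) : A) =
      TensorProduct.rid k A ((counit (R := k) (A := A)).lTensor A (HaF_T S t)) := by
    intro t
    induction t using TensorProduct.induction_on with
    | zero => simp
    | add x y hx hy => simp only [map_add, hx, hy, Subalgebra.coe_add]
    | tmul x y =>
      rw [HaF_T_tmul, LinearMap.lTensor_tmul, Algebra.TensorProduct.map_tmul]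
      simp
  refine AlgHom.ext fun a => ?_
  apply (Algebra.TensorProduct.rid k k S).injective
  apply Subtype.val_injective
  have h := Coalgebra.lTensor_counit_comul (R := k) (a : A)
  rw [← HaF_T_comul S hΔ a] at h
  have h2 := e1 (HaF_comul S hΔ a)
  rw [h] at h2
  refine h2.trans ?_
  simp

/-- the bialgebra structure of `S` -/
@[reducible] noncomputable def HaF_bialg (S : Subalgebra k A)
    (hΔ : ∀ a ∈ S, comul (R := k) a ∈ Submodule.span k
      {y : A ⊗[k] A | ∃ b ∈ S, ∃ c ∈ S, y = b ⊗ₜ[k] c}) : Bialgebra k S :=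
  Bialgebra.ofAlgHom (HaF_comul S hΔ) ((Bialgebra.counitAlgHom k A).comp S.val)
    (HaF_coassoc S hΔ) (HaF_rTensor S hΔ) (HaF_lTensor S hΔ)

/-- the antipode of `S` -/
noncomputable def HaF_anti (S : Subalgebra k A) (hS : ∀ a ∈ S, antipode k a ∈ S) : S →ₗ[k] S :=
  LinearMap.restrict (p := Subalgebra.toSubmodule S) (q := Subalgebra.toSubmodule S)
    (antipode k (A := A)) hS

lemma HaF_anti_apply (S : Subalgebra k A) (hS : ∀ a ∈ S, antipode k a ∈ S) (a : S) :
    (HaF_anti S hS a : A) = antipode k (a : A) := rfl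

lemma HaF_mul_r (S : Subalgebra k A) (hS : ∀ a ∈ S, antipode k a ∈ S) (t : S ⊗[k] S) :
    ((LinearMap.mul' k S ((HaF_anti S hS).rTensor S t) : S) : A) =
      LinearMap.mul' k A ((antipode k (A := A)).rTensor A (HaF_T S t)) := by
  induction t using TensorProduct.induction_on with
  | zero => simp
  | add x y hx hy => simp only [map_add, hx, hy, Subalgebra.coe_add]
  | tmul x y => rfl

lemma HaF_mul_l (S : Subalgebra k A) (hS : ∀ a ∈ S, antipode k a ∈ S) (t : S ⊗[k] S) :
    ((LinearMap.mul' k S ((HaF_anti S hS).lTensor S t) : S) : A) =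
      LinearMap.mul' k A ((antipode k (A := A)).lTensor A (HaF_T S t)) := by
  induction t using TensorProduct.induction_on with
  | zero => simp
  | add x y hx hy => simp only [map_add, hx, hy, Subalgebra.coe_add]
  | tmul x y => rfl

/-- the Hopf algebra structure of `S` -/
@[reducible] noncomputable def HaF_hopf (S : Subalgebra k A)
    (hΔ : ∀ a ∈ S, comul (R := k) a ∈ Submodule.span k
      {y : A ⊗[k] A | ∃ b ∈ S, ∃ c ∈ S, y = b ⊗ₜ[k] c})
    (hS : ∀ a ∈ S, antipode k a ∈ S) : HopfAlgebra k S :=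
  { HaF_bialg S hΔ with
    antipode := HaF_anti S hS
    mul_antipode_rTensor_comul := by
      refine LinearMap.ext fun a => Subtype.val_injective ?_
      have h := HopfAlgebra.mul_antipode_rTensor_comul_apply (R := k) (a : A)
      rw [← HaF_T_comul S hΔ a, ← HaF_mul_r S hS] at h
      exact h
    mul_antipode_lTensor_comul := by
      refine LinearMap.ext fun a => Subtype.val_injective ?_
      have h := HopfAlgebra.mul_antipode_lTensor_comul_apply (R := k) (a : A)
      rw [← HaF_T_comul S hΔ a, ← HaF_mul_l S hS] at h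
      exact h }

end HaFAux

variable {k : Type u} [Field k] {A : Type u} [Ring A] [HopfAlgebra k A] [Module.Finite k A]

/-- A subalgebra `S` of a Hopf algebra with `Δ S ⊆ S ⊗ S` and `antipode S ⊆ S` is the image of an
injective homomorphism of Hopf algebras. (The map `S ⊗ S → A ⊗ A` is injective, so `Δ` restricts
to `S → S ⊗ S`; all axioms can be checked after the injective map to `A ⊗ A` or `A ⊗ A ⊗ A`.) -/
theorem exists_hopf_of_subalgebra (S : Subalgebra k A)
    (hΔ : ∀ a ∈ S, comul (R := k) a ∈ Submodule.span k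
      {y : A ⊗[k] A | ∃ b ∈ S, ∃ c ∈ S, y = b ⊗ₜ[k] c})
    (hS : ∀ a ∈ S, antipode k a ∈ S) :
    ∃ (A₁ : Type u) (_ : Ring A₁) (_ : HopfAlgebra k A₁) (_ : Module.Finite k A₁)
      (j : A₁ →ₐc[k] A), Function.Injective j ∧ ∀ a : A, (∃ a₁, j a₁ = a) ↔ a ∈ S := by
  let _ : HopfAlgebra k S := HaF_hopf S hΔ hS
  have hfin : Module.Finite k S := inferInstanceAs (Module.Finite k (Subalgebra.toSubmodule S))
  refine ⟨S, inferInstance, HaF_hopf S hΔ hS, hfin,
    BialgHom.ofAlgHom S.val (AlgHom.ext fun a => rfl) ?_, Subtype.val_injective, fun a => ?_⟩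
  · exact HaF_T_comul' S hΔ
  · constructor
    · rintro ⟨b, rfl⟩
      exact b.2
    · intro ha
      exact ⟨⟨a, ha⟩, rfl⟩

section HaFAux2

omit [Module.Finite k A]

lemma HaF_nontrivial (k : Type u) [Field k] (A : Type u) [Ring A] [HopfAlgebra k A] :
    Nontrivial A :=
  (Bialgebra.counitAlgHom k A).toRingHom.domain_nontrivial

lemma HaF_nontrivial2 : Nontrivial (A ⊗[k] A) :=
  (Algebra.TensorProduct.lmul'' k (S := k)
    |>.comp (Algebra.TensorProduct.map (Bialgebra.counitAlgHom k A)
      (Bialgebra.counitAlgHom k A))).toRingHom.domain_nontrivial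

lemma HaF_comm2 (hcomm : ∀ a b : A, a * b = b * a) (x y : A ⊗[k] A) : x * y = y * x := by
  induction x using TensorProduct.induction_on with
  | zero => simp
  | add u v hu hv => rw [add_mul, mul_add, hu, hv]
  | tmul a b =>
    induction y using TensorProduct.induction_on with
    | zero => simp
    | add u v hu hv => rw [add_mul, mul_add, hu, hv]
    | tmul c d =>
      rw [Algebra.TensorProduct.tmul_mul_tmul, Algebra.TensorProduct.tmul_mul_tmul, hcomm a c,
        hcomm b d]

lemma HaF_anti_pow (hcomm : ∀ a b : A, a * b = b * a) (a : A) (n : ℕ) :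
    antipode k (a ^ n) = (antipode k a) ^ n := by
  induction n with
  | zero => rw [pow_zero, pow_zero, antipode_one]
  | succ n ih => rw [pow_succ, HopfAlgebra.antipode_mul_antidistrib, ih, hcomm, pow_succ]

lemma HaF_pow_mem (p : ℕ) [Fact p.Prime] [CharP k p] (hcomm : ∀ a b : A, a * b = b * a)
    (y : A ⊗[k] A) : y ^ p ∈ Submodule.span k
        {y : A ⊗[k] A | ∃ b ∈ Submodule.span k (Set.range fun a : A => a ^ p),
          ∃ c ∈ Submodule.span k (Set.range fun a : A => a ^ p), y = b ⊗ₜ[k] c} := by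
  have := HaF_nontrivial2 (k := k) (A := A)
  have : CharP (A ⊗[k] A) p := charP_of_injective_algebraMap (algebraMap k (A ⊗[k] A)).injective p
  have : ExpChar (A ⊗[k] A) p := ExpChar.prime Fact.out
  have hp : p ≠ 0 := (Fact.out : p.Prime).ne_zero
  induction y using TensorProduct.induction_on with
  | zero => rw [zero_pow hp]; exact Submodule.zero_mem _
  | add u v hu hv =>
    rw [add_pow_expChar_of_commute (R := A ⊗[k] A) (p := p) (HaF_comm2 hcomm u v)]
    exact Submodule.add_mem _ hu hv
  | tmul a b =>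
    rw [Algebra.TensorProduct.tmul_pow]
    exact Submodule.subset_span ⟨a ^ p, Submodule.subset_span ⟨a, rfl⟩, b ^ p,
      Submodule.subset_span ⟨b, rfl⟩, rfl⟩

end HaFAux2

/-- The span of the `p`-th powers in a commutative Hopf algebra of characteristic `p`. -/
theorem exists_frobenius_subalgebra (p : ℕ) [Fact p.Prime] [CharP k p]
    (hcomm : ∀ a b : A, a * b = b * a) :
    ∃ S : Subalgebra k A, (S : Set A) = Submodule.span k (Set.range fun a : A => a ^ p) ∧
      (∀ a ∈ S, comul (R := k) a ∈ Submodule.span k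
        {y : A ⊗[k] A | ∃ b ∈ S, ∃ c ∈ S, y = b ⊗ₜ[k] c}) ∧
      ∀ a ∈ S, antipode k a ∈ S := by
  have hone : (1 : A) ∈ Submodule.span k (Set.range fun a : A => a ^ p) :=
    Submodule.subset_span ⟨1, one_pow p⟩
  have hmul : ∀ x y : A, x ∈ Submodule.span k (Set.range fun a : A => a ^ p) →
      y ∈ Submodule.span k (Set.range fun a : A => a ^ p) →
      x * y ∈ Submodule.span k (Set.range fun a : A => a ^ p) := by
    intro x y hx hy
    induction hx using Submodule.span_induction with
    | zero => rw [zero_mul]; exact Submodule.zero_mem _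
    | add u v _ _ hu hv => rw [add_mul]; exact Submodule.add_mem _ hu hv
    | smul c u _ hu => rw [smul_mul_assoc]; exact Submodule.smul_mem _ _ hu
    | mem x hx =>
      obtain ⟨a, rfl⟩ := hx
      induction hy using Submodule.span_induction with
      | zero => rw [mul_zero]; exact Submodule.zero_mem _
      | add u v _ _ hu hv => rw [mul_add]; exact Submodule.add_mem _ hu hv
      | smul c u _ hu => rw [mul_smul_comm]; exact Submodule.smul_mem _ _ hu
      | mem y hy =>
        obtain ⟨b, rfl⟩ := hy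
        refine Submodule.subset_span ⟨a * b, ?_⟩
        exact (show Commute a b from hcomm a b).mul_pow p
  refine ⟨(Submodule.span k (Set.range fun a : A => a ^ p)).toSubalgebra hone hmul, rfl,
    fun a ha => ?_, fun a ha => ?_⟩
  · have ha' : a ∈ Submodule.span k (Set.range fun a : A => a ^ p) := ha
    change comul (R := k) a ∈ Submodule.span k
        {y : A ⊗[k] A | ∃ b ∈ Submodule.span k (Set.range fun a : A => a ^ p),
          ∃ c ∈ Submodule.span k (Set.range fun a : A => a ^ p), y = b ⊗ₜ[k] c}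
    clear ha
    induction ha' using Submodule.span_induction with
    | zero => rw [map_zero]; exact Submodule.zero_mem _
    | add u v _ _ hu hv => rw [map_add]; exact Submodule.add_mem _ hu hv
    | smul c u _ hu => rw [map_smul]; exact Submodule.smul_mem _ _ hu
    | mem x hx =>
      obtain ⟨b, rfl⟩ := hx
      have h := map_pow (Bialgebra.comulAlgHom k A) b p
      rw [Bialgebra.comulAlgHom_apply, Bialgebra.comulAlgHom_apply] at h
      change comul (R := k) (b ^ p) ∈ _
      rw [h]
      exact HaF_pow_mem p hcomm _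
  · have ha' : a ∈ Submodule.span k (Set.range fun a : A => a ^ p) := ha
    change antipode k a ∈ Submodule.span k (Set.range fun a : A => a ^ p)
    clear ha
    induction ha' using Submodule.span_induction with
    | zero => rw [map_zero]; exact Submodule.zero_mem _
    | add u v _ _ hu hv => rw [map_add]; exact Submodule.add_mem _ hu hv
    | smul c u _ hu => rw [map_smul]; exact Submodule.smul_mem _ _ hu
    | mem x hx =>
      obtain ⟨b, rfl⟩ := hx
      change antipode k (b ^ p) ∈ _
      rw [HaF_anti_pow hcomm]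
      exact Submodule.subset_span ⟨_, rfl⟩

omit [Module.Finite k A] in
lemma HaF_span_aug (p : ℕ) [Fact p.Prime] [CharP k p] (hcomm : ∀ a b : A, a * b = b * a)
    (x : A) (hx : x ∈ Submodule.span k (Set.range fun a : A => a ^ p)) :
    x - algebraMap k A (counit (R := k) x) ∈ Submodule.span k
      {x | ∃ b c : A, counit (R := k) b = 0 ∧ counit (R := k) c = 0 ∧ x = b * c} := by
  have := HaF_nontrivial k A
  have : CharP A p := charP_of_injective_algebraMap (algebraMap k A).injective p
  have : ExpChar A p := ExpChar.prime Fact.out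
  have hp2 : 2 ≤ p := (Fact.out : p.Prime).two_le
  induction hx using Submodule.span_induction with
  | zero => simp
  | add u v _ _ hu hv =>
    have := Submodule.add_mem _ hu hv
    convert this using 1
    rw [map_add, map_add]
    abel
  | smul c u _ hu =>
    have := Submodule.smul_mem _ c hu
    convert this using 1
    rw [map_smul, smul_eq_mul, map_mul, smul_sub, Algebra.smul_def c (algebraMap k A _)]
  | mem x hx =>
    obtain ⟨b, rfl⟩ := hx
    set e : A := algebraMap k A (counit (R := k) b) with he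
    have h1 : (b - e) ^ p = b ^ p - e ^ p :=
      sub_pow_expChar_of_commute (R := A) (p := p) (hcomm b e)
    have h2 : algebraMap k A (counit (R := k) (b ^ p)) = e ^ p := by
      rw [Bialgebra.counit_pow, map_pow]
    change b ^ p - algebraMap k A (counit (R := k) (b ^ p)) ∈ _
    rw [h2, ← h1]
    obtain ⟨q, rfl⟩ : ∃ q, p = q + 2 := ⟨p - 2, by omega⟩
    have h0 : counit (R := k) (b - e) = 0 := by
      rw [map_sub, he, Bialgebra.counit_algebraMap, sub_self]
    refine Submodule.subset_span ⟨(b - e) ^ (q + 1), b - e, ?_, h0, ?_⟩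
    · rw [Bialgebra.counit_pow, h0, zero_pow (by omega)]
    · rw [← pow_succ]

/-- (T1c) Characteristic `p`: the Hopf subalgebra `A₁` spanned by the `p`-th powers. If it is all of
`A` then every `a ∈ A⁺` is `∑ c i (b i)^p = ∑ c i (b i - ε (b i))^p ∈ (A⁺)²`. -/
theorem exists_frobenius (p : ℕ) [Fact p.Prime] [CharP k p] (hcomm : ∀ a b : A, a * b = b * a) :
    (∀ a : A, counit (R := k) a = 0 → a ∈ Submodule.span k
      {x | ∃ b c : A, counit (R := k) b = 0 ∧ counit (R := k) c = 0 ∧ x = b * c}) ∨
    ∃ (A₁ : Type u) (_ : Ring A₁) (_ : HopfAlgebra k A₁) (_ : Module.Finite k A₁)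
      (j : A₁ →ₐc[k] A), Function.Injective j ∧ Module.finrank k A₁ < Module.finrank k A ∧
        ∀ a : A, ∃ a₁ : A₁, j a₁ = a ^ p := by
  obtain ⟨S, hSeq, hΔ, hanti⟩ := exists_frobenius_subalgebra (k := k) (A := A) p hcomm
  have hmem : ∀ a : A, a ∈ S ↔ a ∈ Submodule.span k (Set.range fun a : A => a ^ p) := by
    intro a
    have := congrArg (fun T : Set A => a ∈ T) hSeq
    exact iff_of_eq this
  by_cases htop : ∀ a : A, a ∈ S
  · left
    intro a ha
    have h := HaF_span_aug (k := k) p hcomm a ((hmem a).1 (htop a))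
    rw [ha, map_zero, sub_zero] at h
    exact h
  · right
    obtain ⟨A₁, i1, i2, i3, j, hj, hr⟩ := exists_hopf_of_subalgebra S hΔ hanti
    refine ⟨A₁, i1, i2, i3, j, hj, ?_, fun a => ?_⟩
    · have hj' : Function.Injective (j : A₁ →ₗ[k] A) := hj
      have e1 := LinearMap.finrank_range_of_inj hj'
      rw [← e1]
      apply Submodule.finrank_lt
      intro h
      apply htop
      intro a
      have ha : a ∈ LinearMap.range (j : A₁ →ₗ[k] A) := by rw [h]; trivial
      obtain ⟨a₁, ha₁⟩ := ha
      exact (hr a).1 ⟨a₁, ha₁⟩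
    · exact (hr _).2 ((hmem _).2 (Submodule.subset_span ⟨a, rfl⟩))

end Pool.Agent.H26.FG
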