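import Pool.Agent.H26.FG.BrDefs
import Pool.Agent.H26.FG.ResL
import Pool.Agent.H26.FG.CoiA

/-!
# Module Kap: the class of a 2-cocycle through cosyzygies
-/

open CategoryTheory Abelian TensorProduct
open scoped ModuleCat

universe u

namespace Pool.Agent.H26.FG

variable {k : Type u} [Field k] {A : Type u} [Ring A] [Algebra k A] {ε : A →ₐ[k] k}

/-- elements of the trivial module as scalars -/
def h44_v (ε : A →ₐ[k] k) : trv ε ≃+ k := AddEquiv.refl k

lemma h44_v_smul (a : A) (m : trv ε) : h44_v ε (a • m) = ε a * h44_v ε m := rfl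

lemma h44_v_ksmul (c : k) (m : trv ε) : h44_v ε (c • m) = c * h44_v ε m := by
  have h1 : c • m = algebraMap k A c • m := (algebraMap_smul A c m).symm
  rw [h1, h44_v_smul, ε.commutes]
  rfl

lemma h44_qsmul (N : ModuleCat.{u} A) (c : k) (f : (FF k).obj N) :
    qmk k N (c • f : (FF k).obj N) = (c • (qmk k N f : (QF k).obj N) : (QF k).obj N) := by
  rw [← algebraMap_smul A c f, ← algebraMap_smul A c (qmk k N f : (QF k).obj N)]
  rfl

/-- the inner map of `kapEl` -/
noncomputable def h44_in (ε : A →ₐ[k] k) (x : A →ₗ[k] A →ₗ[k] k) (s : A) : Coi k (trv ε) :=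
  Coi.mk k (N := trv ε)
        { toFun := fun s' => (x s' s : k)
          map_add' := fun a b => by rw [map_add, LinearMap.add_apply]; rfl
          map_smul' := fun c a => by
            refine (h44_v ε).injective ?_
            refine Eq.trans ?_ (h44_v_ksmul c _).symm
            change x (c • a) s = c * x a s
            rw [map_smul, LinearMap.smul_apply, smul_eq_mul] }

lemma h44_in_fn (x : A →ₗ[k] A →ₗ[k] k) (s a : A) : h44_v ε ((h44_in ε x s).fn a) = x a s := rfl

/-- the outer map of `kapEl` -/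
noncomputable def h44_be (ε : A →ₐ[k] k) (x : A →ₗ[k] A →ₗ[k] k) :
    A →ₗ[k] (Qn k 1).obj (trv ε) where
  toFun s := qmk k (trv ε) (h44_in ε x s)
  map_add' a b := by
    refine Eq.trans ?_ (map_add (qmk k (trv ε)) _ _)
    congr 1
    refine Coi.ext fun s => (h44_v ε).injective ?_
    change x s (a + b) = x s a + x s b
    rw [map_add]
  map_smul' c a := by
    refine Eq.trans ?_ (h44_qsmul (trv ε) c (h44_in ε x a))
    congr 1
    refine Coi.ext fun s => (h44_v ε).injective ?_
    refine Eq.trans ?_ (congrArg (h44_v ε) (Coi.ksmul_fn k c (h44_in ε x a) s).symm)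
    rw [h44_v_ksmul]
    change x s (c • a) = c * x s a
    rw [map_smul, smul_eq_mul]

lemma h44_be_apply (x : A →ₗ[k] A →ₗ[k] k) (s : A) :
    h44_be ε x s = qmk k (trv ε) (h44_in ε x s) := rfl

/-- `β` restricted to `A⁺` is `A`-linear for a cocycle. -/
lemma h44_be_mul (x : Cocycle₂ ε) (c : A) (b : augI ε) :
    h44_be ε x.fn (c * b) = c • (h44_be ε x.fn b : (QF k).obj (trv ε)) := by
  have h : qmk k (trv ε) (h44_in ε x.fn (c * b) - c • h44_in ε x.fn b) = 0 := by
    rw [qmk_eq_zero]
    refine ⟨(h44_v ε).symm (-(x.fn c b)), fun s => (h44_v ε).injective ?_⟩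
    rw [h44_v_smul]
    change x.fn s (c * b) - x.fn (s * c) b = ε s * -(x.fn c b)
    rw [x.fn_mul]
    ring
  rw [map_sub, sub_eq_zero, qmk_smul] at h
  exact h

/-- the map `A⁺ → Q(k)`. -/
noncomputable def h44_al (x : Cocycle₂ ε) : ModuleCat.of A (augI ε) ⟶ (QF k).obj (trv ε) :=
  ConcreteCategory.ofHom (C := ModuleCat.{u} A) (X := ModuleCat.of A (augI ε))
    (Y := (QF k).obj (trv ε))
    { toFun := fun b => h44_be ε x.fn b
      map_add' := fun _ _ => map_add (h44_be ε x.fn) _ _
      map_smul' := fun c b => h44_be_mul x c b }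

/-- the map `WX x → F(k)`. -/
noncomputable def h44_t (x : Cocycle₂ ε) : ModuleCat.of A (WX x) ⟶ (FF k).obj (trv ε) :=
  ConcreteCategory.ofHom (C := ModuleCat.{u} A) (X := ModuleCat.of A (WX x))
    (Y := (FF k).obj (trv ε))
    { toFun := fun w => Coi.mk k (N := trv ε)
        { toFun := fun a => ((a • w).fst : k)
          map_add' := fun a b => by rw [add_smul]; rfl
          map_smul' := fun c a => by
            refine (h44_v ε).injective ?_
            refine Eq.trans ?_ (h44_v_ksmul c _).symm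
            change ((c • a) • w).fst = c * (a • w).fst
            rw [WX.smul_fst, WX.smul_fst, map_smul, map_smul, LinearMap.smul_apply, smul_eq_mul,
              smul_eq_mul]
            ring }
      map_add' := fun v w => by
        refine Coi.ext fun a => (h44_v ε).injective ?_
        change (a • (v + w)).fst = (a • v).fst + (a • w).fst
        rw [smul_add, WX.add_fst]
      map_smul' := fun c w => by
        refine Coi.ext fun a => (h44_v ε).injective ?_
        change (a • (c • w)).fst = ((a * c) • w).fst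
        rw [mul_smul] }

/-- the map `A → F(Q k)`. -/
noncomputable def h44_t2 (x : Cocycle₂ ε) :
    ModuleCat.of A A ⟶ (FF k).obj ((Qn k 1).obj (trv ε)) :=
  ConcreteCategory.ofHom (C := ModuleCat.{u} A) (X := ModuleCat.of A A)
    (Y := (FF k).obj ((Qn k 1).obj (trv ε)))
    { toFun := fun a => Coi.mk k (N := (Qn k 1).obj (trv ε))
        (h44_be ε x.fn ∘ₗ LinearMap.mulRight k a)
      map_add' := fun a b => by
        refine Coi.ext fun s => ?_
        change h44_be ε x.fn (s * (a + b)) = h44_be ε x.fn (s * a) + h44_be ε x.fn (s * b)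
        rw [mul_add, map_add]
      map_smul' := fun c a => by
        refine Coi.ext fun s => ?_
        change h44_be ε x.fn (s * (c * a)) = h44_be ε x.fn (s * c * a)
        rw [mul_assoc] }

lemma h44_t2_fn (x : Cocycle₂ ε) (a s : A) :
    Coi.fn (k := k) (N := (Qn k 1).obj (trv ε)) ((h44_t2 x).hom a) s = h44_be ε x.fn (s * a) := rfl

/-- The element of `Q²(k)`. -/
noncomputable def h44_kap (x : A →ₗ[k] A →ₗ[k] k) : (Qn k 2).obj (trv ε) :=
  qmk k ((Qn k 1).obj (trv ε)) (Coi.mk k (N := (Qn k 1).obj (trv ε)) (h44_be ε x))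

lemma h44_qt2 (x : Cocycle₂ ε) (a : A) :
    qmk k ((Qn k 1).obj (trv ε)) ((h44_t2 x).hom a) =
      (a • (h44_kap (ε := ε) x.fn) : (QF k).obj ((Qn k 1).obj (trv ε))) := by
  refine Eq.trans ?_ (qmk_smul k ((Qn k 1).obj (trv ε)) a
    (Coi.mk k (N := (Qn k 1).obj (trv ε)) (h44_be ε x.fn)))
  congr 1

lemma h44_kap_smul (x : Cocycle₂ ε) (a : A) (ha : ε a = 0) :
    (a • (h44_kap (ε := ε) x.fn) : (QF k).obj ((Qn k 1).obj (trv ε))) = 0 := by
  rw [← h44_qt2]
  refine (qmk_eq_zero k _ _).2 ⟨h44_be ε x.fn a, fun s => ?_⟩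
  exact (h44_t2_fn x a s).trans (h44_be_mul x s ⟨a, ha⟩)

/-- the map `k → Q²(k)`. -/
noncomputable def h44_u (x : Cocycle₂ ε) : trv ε ⟶ (Qn k 2).obj (trv ε) :=
  ConcreteCategory.ofHom (C := ModuleCat.{u} A) (X := trv ε) (Y := (Qn k 2).obj (trv ε))
    { toFun := fun c => algebraMap k A (h44_v ε c) • (h44_kap (ε := ε) x.fn)
      map_add' := fun a b => by rw [map_add, map_add, add_smul]
      map_smul' := fun c a => by
        rw [h44_v_smul, RingHom.id_apply, smul_smul, ← sub_eq_zero, ← sub_smul]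
        refine h44_kap_smul x _ ?_
        have h1 : ε (algebraMap k A (ε c)) = ε c := ε.commutes _
        rw [map_sub, map_mul (algebraMap k A), map_mul ε, map_mul ε, h1, sub_self] }

lemma h44_gen {M : Type*} [AddCommGroup M] [Module A M] (z : M)
    (h : ∀ b : A, ε b = 0 → b • z = 0) (a : A) : a • z = algebraMap k A (ε a) • z := by
  rw [← sub_eq_zero, ← sub_smul]
  refine h _ ?_
  have h1 : ε (algebraMap k A (ε a)) = ε a := ε.commutes _
  rw [map_sub, h1, sub_self]

lemma h44_u_app (x : Cocycle₂ ε) (c : trv ε) :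
    (h44_u x).hom c = algebraMap k A (h44_v ε c) • (h44_kap (ε := ε) x.fn) := rfl

/-- the morphism of extensions `cocS x → coS k`. -/
noncomputable def h44_m1 (x : Cocycle₂ ε) : cocS x ⟶ coS k (trv ε) where
  τ₁ := 𝟙 (trv ε)
  τ₂ := h44_t x
  τ₃ := h44_al x
  comm₁₂ := by
    ext s
    refine Coi.ext fun a => (h44_v ε).injective ?_
    change ε a * h44_v ε s = ε a * h44_v ε s + x.fn a (0 : A)
    rw [map_zero, add_zero]
  comm₂₃ := by
    ext w
    change qmk k (trv ε) ((h44_t x).hom w) = qmk k (trv ε) (h44_in ε x.fn (w.snd : A))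
    rw [← sub_eq_zero, ← map_sub, qmk_eq_zero]
    refine ⟨(h44_v ε).symm w.fst, fun s => (h44_v ε).injective ?_⟩
    change (ε s * w.fst + x.fn s w.snd) - x.fn s w.snd = ε s * w.fst
    ring

/-- the morphism of extensions `augS → coS (Q k)`. -/
noncomputable def h44_m2 (x : Cocycle₂ ε) : augS ε ⟶ coS k ((Qn k 1).obj (trv ε)) where
  τ₁ := h44_al x
  τ₂ := h44_t2 x
  τ₃ := h44_u x
  comm₁₂ := by
    ext b
    refine Coi.ext fun s => ?_
    exact (h44_be_mul x s b).symm
  comm₂₃ := by
    have h0 : ∀ a : A, qmk k ((Qn k 1).obj (trv ε)) ((h44_t2 x).hom a) =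
        (algebraMap k A (ε a) • (h44_kap (ε := ε) x.fn) :
          (QF k).obj ((Qn k 1).obj (trv ε))) := by
      intro a
      exact (h44_qt2 x a).trans (h44_gen (M := (Qn k 2).obj (trv ε)) (h44_kap (ε := ε) x.fn)
        (fun b hb => h44_kap_smul x b hb) a)
    exact ModuleCat.hom_ext (LinearMap.ext h0)

theorem h44_cls₂_eq (x : Cocycle₂ ε) :
    cls₂ x = (Ext.mk₀ (h44_u x)).comp (eN k (trv ε) 2) (zero_add 2) := by
  have h1 := ShortComplex.ShortExact.extClass_naturality (cocS_shortExact x)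
    (coS_shortExact k (trv ε)) (h44_m1 x)
  have h2 := ShortComplex.ShortExact.extClass_naturality (augS_shortExact ε)
    (coS_shortExact k ((Qn k 1).obj (trv ε))) (h44_m2 x)
  have h3 : (cocS_shortExact x).extClass = (Ext.mk₀ (h44_al x)).comp
      (coS_shortExact k (trv ε)).extClass (zero_add 1) :=
    (Ext.comp_mk₀_id (cocS_shortExact x).extClass).symm.trans h1
  have h4 : eN k (trv ε) 2 = (coS_shortExact k ((Qn k 1).obj (trv ε))).extClass.comp
      (coS_shortExact k (trv ε)).extClass rfl := by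
    change (coS_shortExact k ((Qn k 1).obj (trv ε))).extClass.comp
      ((coS_shortExact k (trv ε)).extClass.comp (Ext.mk₀ (𝟙 (trv ε))) (add_zero 1)) rfl = _
    congr 1
    exact Ext.comp_mk₀_id (coS_shortExact k (trv ε)).extClass
  have h5 : cls₂ x = ((augS_shortExact ε).extClass.comp (Ext.mk₀ (h44_al x)) (add_zero 1)).comp
      (coS_shortExact k (trv ε)).extClass rfl := by
    refine Eq.trans ?_ (Ext.comp_assoc_of_second_deg_zero (augS_shortExact ε).extClass
      (Ext.mk₀ (h44_al x)) (coS_shortExact k (trv ε)).extClass rfl).symm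
    exact congrArg (fun z => (augS_shortExact ε).extClass.comp z rfl) h3
  rw [h5, h4]
  refine Eq.trans ?_ (Ext.comp_assoc (Ext.mk₀ (h44_u x))
    (coS_shortExact k ((Qn k 1).obj (trv ε))).extClass
    (coS_shortExact k (trv ε)).extClass (zero_add 1) rfl rfl)
  congr 1

/-- The element `[s ↦ [s' ↦ x(s', s)]]` of `Q²(k)`. -/
noncomputable def kapEl (ε : A →ₐ[k] k) (x : A →ₗ[k] A →ₗ[k] k) : (Qn k 2).obj (trv ε) :=
  qmk k ((Qn k 1).obj (trv ε)) (Coi.mk k (N := (Qn k 1).obj (trv ε))
    { toFun := fun s => qmk k (trv ε) (Coi.mk k (N := trv ε)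
        { toFun := fun s' => (x s' s : k)
          map_add' := fun a b => by rw [map_add, LinearMap.add_apply]; rfl
          map_smul' := fun c a => (h44_in ε x s).map_smul' c a })
      map_add' := fun a b => (h44_be ε x).map_add' a b
      map_smul' := fun c a => (h44_be ε x).map_smul' c a })

/-- `cls₂ x = u e₂` with `u 1 = [s ↦ [s' ↦ x(s', s)]]`.
Proof. `WX x → F(k)`, `w ↦ (a ↦ (a w).fst)` extends the identity of `k` and induces
`α : A⁺ → Q k`, `b ↦ [a ↦ x(a, b)]`; `A → F(Q k)`, `a ↦ (s ↦ [s' ↦ x(s', s a)])` extends `α`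
(cocycle condition) and induces `u : k → Q² k`. Now `extClass_naturality` twice. -/
theorem cls₂_eq (x : Cocycle₂ ε) :
    ∃ u : trv ε ⟶ (Qn k 2).obj (trv ε), u.hom ((1 : k) : trv ε) = kapEl ε x.fn ∧
      cls₂ x = (Ext.mk₀ u).comp (eN k (trv ε) 2) (zero_add 2) := by
  refine ⟨h44_u x, ?_, h44_cls₂_eq x⟩
  refine (h44_u_app x _).trans ?_
  have h1 : algebraMap k A (h44_v ε ((1 : k) : trv ε)) = 1 := map_one (algebraMap k A)
  rw [h1, one_smul]
  rfl

/-- The class only depends on the values `x(a, b)` up to adding `c ε(a) ε(b)`. -/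
theorem cls₂_congr (x y : Cocycle₂ ε) (c : k) (h : ∀ a b, x.fn a b = y.fn a b + c * (ε a * ε b)) :
    cls₂ x = cls₂ y := by
  have hxy : ∀ (a : A) (b : augI ε), x.fn a b = y.fn a b := by
    intro a b
    have hb : ε (b : A) = 0 := mem_augI.1 b.2
    rw [h, hb, mul_zero, mul_zero, add_zero]
  let t : ModuleCat.of A (WX x) ⟶ ModuleCat.of A (WX y) := ModuleCat.ofHom
    { toFun := fun w => (⟨w.fst, w.snd⟩ : WX y)
      map_add' := fun _ _ => rfl
      map_smul' := fun a w => by
        refine WX.ext' ?_ rfl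
        change ε a * w.fst + x.fn a w.snd = ε a * w.fst + y.fn a w.snd
        rw [hxy] }
  let φ : cocS x ⟶ cocS y :=
    { τ₁ := 𝟙 (trv ε)
      τ₂ := t
      τ₃ := 𝟙 (ModuleCat.of A (augI ε))
      comm₁₂ := by
        ext s
        rfl
      comm₂₃ := by
        ext w
        rfl }
  have h1 := ShortComplex.ShortExact.extClass_naturality (cocS_shortExact x)
    (cocS_shortExact y) φ
  have h3 : (cocS_shortExact x).extClass = (cocS_shortExact y).extClass :=
    (Ext.comp_mk₀_id (cocS_shortExact x).extClass).symm.trans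
      (h1.trans (Ext.mk₀_id_comp (cocS_shortExact y).extClass))
  exact congrArg (fun z => (augS_shortExact ε).extClass.comp z rfl) h3

/-- The normalised cocycle cohomologous to `x`. -/
theorem exists_normalised (x : Cocycle₂ ε) :
    ∃ y : Cocycle₂ ε, y.fn 1 1 = 0 ∧ (∀ a b, x.fn a b = y.fn a b + x.fn 1 1 * (ε a * ε b)) ∧
      cls₂ y = cls₂ x := by
  let y : Cocycle₂ ε :=
    { fn := x.fn - x.fn 1 1 • (LinearMap.mul k k).compl₁₂ ε.toLinearMap ε.toLinearMap
      cocycle := fun a b c => by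
        have h1 := x.cocycle a b c
        simp only [LinearMap.sub_apply, LinearMap.smul_apply, LinearMap.compl₁₂_apply,
          LinearMap.mul_apply', AlgHom.toLinearMap_apply, smul_eq_mul, map_mul]
        linear_combination h1 }
  have hy : ∀ a b, x.fn a b = y.fn a b + x.fn 1 1 * (ε a * ε b) := by
    intro a b
    change x.fn a b = (x.fn a b - x.fn 1 1 • (ε a * ε b)) + x.fn 1 1 * (ε a * ε b)
    rw [smul_eq_mul]
    ring
  refine ⟨y, ?_, hy, (cls₂_congr x y _ hy).symm⟩
  have h1 := hy 1 1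
  rw [map_one ε, mul_one, mul_one] at h1
  linear_combination -h1

/-- For a normalised cocycle `x(1, a) = 0 = x(a, 1)`. -/
lemma Cocycle₂.one_left (x : Cocycle₂ ε) (h : x.fn 1 1 = 0) (a : A) : x.fn 1 a = 0 := by
  have h1 := x.cocycle 1 1 a
  rw [one_mul, one_mul, map_one ε, h] at h1
  linear_combination h1

lemma Cocycle₂.one_right (x : Cocycle₂ ε) (h : x.fn 1 1 = 0) (a : A) : x.fn a 1 = 0 := by
  have h1 := x.cocycle a 1 1
  rw [mul_one, mul_one, map_one ε, h] at h1
  linear_combination -h1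

/-- Pull-back of a cocycle. -/
noncomputable def Cocycle₂.pull {A' : Type u} [Ring A'] [Algebra k A'] {ε' : A' →ₐ[k] k}
    (x : Cocycle₂ ε) (f : A' →ₐ[k] A) (h : ε.comp f = ε') : Cocycle₂ ε' where
  fn := x.fn.compl₁₂ f.toLinearMap f.toLinearMap
  cocycle a b c := by
    subst h
    have h1 := x.cocycle (f a) (f b) (f c)
    simp only [LinearMap.compl₁₂_apply, AlgHom.toLinearMap_apply, AlgHom.comp_apply, map_mul]
    exact h1

@[simp] lemma Cocycle₂.pull_fn {A' : Type u} [Ring A'] [Algebra k A'] {ε' : A' →ₐ[k] k}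
    (x : Cocycle₂ ε) (f : A' →ₐ[k] A) (h : ε.comp f = ε') (a b : A') :
    (x.pull f h).fn a b = x.fn (f a) (f b) := rfl

section Res

variable {A' : Type u} [Ring A'] [Algebra k A']

/-- the map `A'⁺ → A⁺`. -/
noncomputable def h44_j (f : A' →ₐ[k] A) : ModuleCat.of A' (augI (ε.comp f)) ⟶
    (resF f.toRingHom).obj (ModuleCat.of A (augI ε)) :=
  ConcreteCategory.ofHom (C := ModuleCat.{u} A') (X := ModuleCat.of A' (augI (ε.comp f)))
    (Y := (resF f.toRingHom).obj (ModuleCat.of A (augI ε)))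
    { toFun := fun b : augI (ε.comp f) => (⟨f (b : A'), b.2⟩ : augI ε)
      map_add' := fun b b' => Subtype.ext (map_add f (b : A') (b' : A'))
      map_smul' := fun c b => Subtype.ext (map_mul f c (b : A')) }

/-- the map `A' → A`. -/
noncomputable def h44_jA (f : A' →ₐ[k] A) : ModuleCat.of A' A' ⟶
    (resF f.toRingHom).obj (ModuleCat.of A A) :=
  ConcreteCategory.ofHom (C := ModuleCat.{u} A') (X := ModuleCat.of A' A')
    (Y := (resF f.toRingHom).obj (ModuleCat.of A A))
    { toFun := fun b => f b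
      map_add' := fun b b' => map_add f b b'
      map_smul' := fun c b => map_mul f c b }

/-- the map `WX (x.pull f) → WX x`. -/
noncomputable def h44_jW (x : Cocycle₂ ε) (f : A' →ₐ[k] A) :
    ModuleCat.of A' (WX (x.pull f rfl)) ⟶ (resF f.toRingHom).obj (ModuleCat.of A (WX x)) :=
  ConcreteCategory.ofHom (C := ModuleCat.{u} A') (X := ModuleCat.of A' (WX (x.pull f rfl)))
    (Y := (resF f.toRingHom).obj (ModuleCat.of A (WX x)))
    { toFun := fun w => (⟨w.fst, ⟨f w.snd, w.snd.2⟩⟩ : WX x)
      map_add' := fun b b' => WX.ext' rfl (Subtype.ext (map_add f (b.snd : A') b'.snd))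
      map_smul' := fun c b => WX.ext' rfl (Subtype.ext (map_mul f c b.snd)) }

/-- the morphism of extensions of `k` by `A⁺`. -/
noncomputable def h44_r1 (f : A' →ₐ[k] A) : augS (ε.comp f) ⟶ (augS ε).map (resF f.toRingHom) where
  τ₁ := h44_j f
  τ₂ := h44_jA f
  τ₃ := (trvIso (ε.comp f) ε f rfl).hom
  comm₁₂ := rfl
  comm₂₃ := rfl

/-- the morphism of extensions of `A⁺` by `k`. -/
noncomputable def h44_r2 (x : Cocycle₂ ε) (f : A' →ₐ[k] A) :
    cocS (x.pull f rfl) ⟶ (cocS x).map (resF f.toRingHom) where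
  τ₁ := (trvIso (ε.comp f) ε f rfl).hom
  τ₂ := h44_jW x f
  τ₃ := h44_j f
  comm₁₂ := by
    refine ModuleCat.hom_ext (LinearMap.ext fun s => ?_)
    exact WX.ext' (x := x) rfl (Subtype.ext (map_zero f).symm)
  comm₂₃ := rfl

end Res

/-- Restriction of classes of cocycles: `A'⁺ → A⁺`, `WX (x.pull f) → WX x` and
`extClass_naturality`. -/
theorem resK_cls₂ {A' : Type u} [Ring A'] [Algebra k A'] {ε' : A' →ₐ[k] k}
    (x : Cocycle₂ ε) (f : A' →ₐ[k] A) (h : ε.comp f = ε') :
    resK f h (cls₂ x) = cls₂ (x.pull f h) := by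
  subst h
  have n1 := ShortComplex.ShortExact.extClass_naturality (augS_shortExact (ε.comp f))
    ((augS_shortExact ε).map_of_exact (resF f.toRingHom)) (h44_r1 f)
  have n2 := ShortComplex.ShortExact.extClass_naturality (cocS_shortExact (x.pull f rfl))
    ((cocS_shortExact x).map_of_exact (resF f.toRingHom)) (h44_r2 x f)
  have m : (cls₂ x).mapExactFunctor (resF f.toRingHom) =
      ((augS_shortExact ε).map_of_exact (resF f.toRingHom)).extClass.comp
        ((cocS_shortExact x).map_of_exact (resF f.toRingHom)).extClass rfl := by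
    refine (Ext.mapExactFunctor_comp (F := resF f.toRingHom) (augS_shortExact ε).extClass
      (cocS_shortExact x).extClass rfl).trans ?_
    exact congrArg₂ (fun a b => Ext.comp a b rfl)
      (Ext.mapExactFunctor_extClass (F := resF f.toRingHom) (augS_shortExact ε))
      (Ext.mapExactFunctor_extClass (F := resF f.toRingHom) (cocS_shortExact x))
  have e1 : (Ext.mk₀ (trvIso (ε.comp f) ε f rfl).hom).comp
      ((cls₂ x).mapExactFunctor (resF f.toRingHom)) (zero_add 2) =
      (cls₂ (x.pull f rfl)).comp (Ext.mk₀ (trvIso (ε.comp f) ε f rfl).hom) (add_zero 2) := by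
    rw [m]
    refine Eq.trans (Ext.comp_assoc (Ext.mk₀ (trvIso (ε.comp f) ε f rfl).hom) _ _
      (zero_add 1) rfl rfl).symm ?_
    refine Eq.trans (congrArg (fun z => Ext.comp z
      ((cocS_shortExact x).map_of_exact (resF f.toRingHom)).extClass rfl) n1.symm) ?_
    refine Eq.trans (Ext.comp_assoc_of_second_deg_zero (augS_shortExact (ε.comp f)).extClass
      (Ext.mk₀ (h44_j f)) _ rfl) ?_
    refine Eq.trans (congrArg (fun z => (augS_shortExact (ε.comp f)).extClass.comp z rfl)
      n2.symm) ?_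
    exact (Ext.comp_assoc_of_third_deg_zero _ _ _ _).symm
  unfold resK resX
  rw [e1]
  refine Eq.trans (Ext.comp_assoc_of_third_deg_zero _ _ _ _) ?_
  rw [Ext.mk₀_comp_mk₀, Iso.hom_inv_id]
  exact Ext.comp_mk₀_id _

end Pool.Agent.H26.FG
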