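import Pool.Agent.H26.FG.T0p
import Pool.Agent.H26.FG.Kap

/-!
# Block K (central subalgebras of height one): definitions
-/

open CategoryTheory Abelian TensorProduct Coalgebra HopfAlgebra
open scoped ModuleCat

universe u

namespace Pool.Agent.H26.FG

/-- `A` has finitely many symmetric normalised 2-cocycles over whose classes all `Ext_A(k, N)`
(`N` finite-dimensional) are noetherian. -/
def SymGN (k : Type u) [Field k] (A : Type u) [Ring A] [HopfAlgebra k A] : Prop :=
  ∃ (n : ℕ) (f : Fin n → Cocycle₂ (Bialgebra.counitAlgHom k A)),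
    (∀ i a b, (f i).fn a b = (f i).fn b a) ∧ (∀ i, (f i).fn 1 1 = 0) ∧
    ∀ N : ModuleCat.{u} A, Module.Finite k N →
      (EGP k (triv k A) N).GN (Set.range fun i => (⟨2, cls₂ (f i)⟩ : Cls (triv k A)))

end Pool.Agent.H26.FG
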