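import Pool.Agent.H26.FG.HaKDefs

/-!
# Module HaKa: transport along an isomorphism of augmented algebras
-/

open CategoryTheory Abelian TensorProduct Coalgebra HopfAlgebra
open scoped ModuleCat

universe u

namespace Pool.Agent.H26.FG

variable {k : Type u} [Field k] {A A' : Type u} [Ring A] [HopfAlgebra k A]
  [Ring A'] [HopfAlgebra k A']

lemma HaKa_coc_ext {B : Type u} [Ring B] [Algebra k B] {ε : B →ₐ[k] k} {x y : Cocycle₂ ε}
    (h : x.fn = y.fn) : x = y := by
  cases x; cases y; cases h; rfl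

lemma HaKa_smul {B B' : Type u} [Ring B] [Ring B'] (f : B →+* B') (g : B' →+* B)
    (h : ∀ b, g (f b) = b) (X : ModuleCat.{u} B) (b : B) (x : X) :
    @HSMul.hSMul B ((resF.{u} g ⋙ resF f).obj X) ((resF.{u} g ⋙ resF f).obj X) _ b x =
      (b • x : X) := by
  change g (f b) • x = b • x
  rw [h]

/-- the natural transformation from the composition of the two restrictions to the identity. -/
noncomputable def HaKa_nt {B B' : Type u} [Ring B] [Ring B'] (f : B →+* B') (g : B' →+* B)
    (h : ∀ b, g (f b) = b) : resF.{u} g ⋙ resF f ⟶ 𝟭 (ModuleCat.{u} B) where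
  app X := ConcreteCategory.ofHom (C := ModuleCat.{u} B) (X := (resF g ⋙ resF f).obj X)
    (Y := X)
    { toFun := fun x => (x : X)
      map_add' := fun _ _ => rfl
      map_smul' := fun b x => HaKa_smul f g h X b x }
  naturality _ _ _ := rfl

/-- the inverse of `HaKa_nt` at one module. -/
noncomputable def HaKa_nt' {B B' : Type u} [Ring B] [Ring B'] (f : B →+* B') (g : B' →+* B)
    (h : ∀ b, g (f b) = b) (X : ModuleCat.{u} B) : X ⟶ (resF.{u} g ⋙ resF f).obj X :=
  ConcreteCategory.ofHom (C := ModuleCat.{u} B) (Y := (resF g ⋙ resF f).obj X)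
    (X := X)
    { toFun := fun x => (x : X)
      map_add' := fun _ _ => rfl
      map_smul' := fun b x => (HaKa_smul f g h X b x).symm }

lemma HaKa_nt'_comp {B B' : Type u} [Ring B] [Ring B'] (f : B →+* B') (g : B' →+* B)
    (h : ∀ b, g (f b) = b) (X : ModuleCat.{u} B) :
    HaKa_nt' f g h X ≫ (HaKa_nt f g h).app X = 𝟙 X := rfl

lemma HaKa_inj {B B' : Type u} [Ring B] [Algebra k B] [Ring B'] [Algebra k B'] (f : B →ₐ[k] B')
    (g : B' →ₐ[k] B) (h : ∀ b, g (f b) = b) {X Y : ModuleCat.{u} B} {n : ℕ} (x : Ext X Y n)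
    (hx : x.mapExactFunctor (resF g.toRingHom) = 0) : x = 0 := by
  have i1 : Limits.PreservesFiniteLimits (resF g.toRingHom ⋙ resF f.toRingHom) :=
    inferInstanceAs (Limits.PreservesFiniteLimits (resF (g.comp f).toRingHom))
  have i2 : Limits.PreservesFiniteColimits (resF g.toRingHom ⋙ resF f.toRingHom) :=
    inferInstanceAs (Limits.PreservesFiniteColimits (resF (g.comp f).toRingHom))
  have e1 := map_comp_functor (resF g.toRingHom) (resF f.toRingHom) x
  rw [hx, Ext.mapExactFunctor_zero] at e1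
  have e2 := map_natTrans (resF g.toRingHom ⋙ resF f.toRingHom) (𝟭 (ModuleCat.{u} B))
    (HaKa_nt f.toRingHom g.toRingHom h) x
  rw [← e1, map_id_functor, Ext.zero_comp] at e2
  have e3 : (Ext.mk₀ (HaKa_nt' f.toRingHom g.toRingHom h X)).comp
      ((Ext.mk₀ ((HaKa_nt f.toRingHom g.toRingHom h).app X)).comp x (zero_add n)) (zero_add n) = x := by
    rw [← Ext.comp_assoc_of_second_deg_zero, Ext.mk₀_comp_mk₀, HaKa_nt'_comp, Ext.mk₀_id_comp]
  rw [← e3]
  refine (congrArg (fun z => (Ext.mk₀ (HaKa_nt' f.toRingHom g.toRingHom h X)).comp z (zero_add n)) e2.symm).trans ?_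
  exact Ext.comp_zero _ _ _ _ _

lemma HaKa_resX_inj {B B' : Type u} [Ring B] [Algebra k B] [Ring B'] [Algebra k B'] (f : B →ₐ[k] B')
    (g : B' →ₐ[k] B) (h : ∀ b, g (f b) = b) {ε : B →ₐ[k] k} {ε' : B' →ₐ[k] k} (hg : ε.comp g = ε')
    {Y : ModuleCat.{u} B} {n : ℕ} (x : Ext (trv ε) Y n) (hx : resX g hg x = 0) : x = 0 := by
  refine HaKa_inj f g h x ?_
  unfold resX at hx
  have e3 : (Ext.mk₀ (trvIso ε' ε g hg).inv).comp
      ((Ext.mk₀ (trvIso ε' ε g hg).hom).comp (x.mapExactFunctor (resF g.toRingHom)) (zero_add n))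
        (zero_add n) = x.mapExactFunctor (resF g.toRingHom) := by
    rw [← Ext.comp_assoc_of_second_deg_zero, Ext.mk₀_comp_mk₀, Iso.inv_hom_id, Ext.mk₀_id_comp]
  rw [← e3, hx, Ext.comp_zero]

/-- Let `g = e.symm : A' → A` and `F = resF g : A-mod → A'-mod`. Take the pull-backs
`(f i).pull e` of the cocycles of `A'` (`Cocycle₂.pull`). For an `A`-module `N` apply
`GOp.GN_of_injective'` (`GOpA`) with `φ s = ⟨s.1, resK g _ s.2⟩`, the maps
`resX g _ : Ext_A^n(k, N) → Ext_{A'}^n(k, F N)` (`resX_add`, `resX_smul`, `resX_comp`) and `j₀ = 0`: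
`resK g (cls₂ (x.pull e)) = cls₂ ((x.pull e).pull g)` (`resK_cls₂`) and `(x.pull e).pull g = x`
(its `fn` is the same, write a small lemma: two cocycles with the same `fn` are equal).
`F N` is finite over `k` as `N` is (`c • n` is the same element: `g (algebraMap k A' c) = algebraMap k A c`).
Injectivity of `resX g`: `resX g x = (mk₀ iso).comp (x.mapExactFunctor F)`, so `x.mapExactFunctor F = 0`;
with `G = resF e` one gets `x.mapExactFunctor (F ⋙ G) = 0` (`map_comp_functor`) and the natural
transformation `F ⋙ G → 𝟭` (identity on elements, `g (e a) = a`) gives `x = 0` (`map_natTrans`,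
`map_id_functor`; compare the proof of `resK_resK` in `ResL.lean`). -/
theorem SymGN.of_algEquiv (e : A ≃ₐ[k] A')
    (he : ∀ a, counit (R := k) (e a) = counit (R := k) a) (h : SymGN k A') : SymGN k A := by
  obtain ⟨n, f, hsym, hone, hGN⟩ := h
  have he1 : (Bialgebra.counitAlgHom k A').comp e.toAlgHom = Bialgebra.counitAlgHom k A := by
    ext a
    exact he a
  have hg1 : (Bialgebra.counitAlgHom k A).comp e.symm.toAlgHom = Bialgebra.counitAlgHom k A' := by
    ext a
    change counit (R := k) (e.symm a) = counit (R := k) a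
    rw [← he, e.apply_symm_apply]
  refine ⟨n, fun i => (f i).pull e.toAlgHom he1, ?_, ?_, ?_⟩
  · intro i a b
    exact hsym i _ _
  · intro i
    rw [Cocycle₂.pull_fn]
    have : e.toAlgHom 1 = 1 := map_one e
    rw [this]
    exact hone i
  · intro N hN
    have hfin : Module.Finite k ((resF e.symm.toAlgHom.toRingHom).obj N) := by
      let L : N →ₗ[k] ((resF e.symm.toAlgHom.toRingHom).obj N) :=
        { toFun := fun x => (x : N)
          map_add' := fun _ _ => rfl
          map_smul' := fun c x => by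
            change algebraMap k A c • x = e.symm (algebraMap k A' c) • x
            rw [e.symm.commutes] }
      exact Module.Finite.of_surjective L (fun x => ⟨x, rfl⟩)
    have h0 := hGN _ hfin
    refine GOp.GN_of_injective' (k := k) (fun s : Cls (triv k A) => (⟨s.1, resK e.symm.toAlgHom hg1 s.2⟩ : Cls (triv k A')))
      ?_ (fun _ => rfl)
      (fun n => { toFun := fun x => resX e.symm.toAlgHom hg1 x
                  map_add' := fun x y => resX_add e.symm.toAlgHom hg1 x y
                  map_smul' := fun c x => resX_smul e.symm.toAlgHom hg1 c x }) ?_ 0 ?_ h0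
    · rintro _ ⟨i, rfl⟩
      refine ⟨_, ⟨i, rfl⟩, ?_⟩
      change (⟨2, resK e.symm.toAlgHom hg1 (cls₂ ((f i).pull e.toAlgHom he1))⟩ : Cls (triv k A')) = ⟨2, cls₂ (f i)⟩
      rw [resK_cls₂]
      have : ((f i).pull e.toAlgHom he1).pull e.symm.toAlgHom hg1 = f i := by
        refine HaKa_coc_ext (LinearMap.ext fun a => LinearMap.ext fun b => ?_)
        change (f i).fn (e (e.symm a)) (e (e.symm b)) = (f i).fn a b
        rw [e.apply_symm_apply, e.apply_symm_apply]
      rw [this]
    · rintro s hs a b hab hab' v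
      exact resX_comp e.symm.toAlgHom hg1 hab s.2 v
    · intro n _ v hv
      exact HaKa_resX_inj e.toAlgHom e.symm.toAlgHom (fun b => e.symm_apply_apply b) hg1 v hv

end Pool.Agent.H26.FG
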