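import Pool.Agent.H26.FG.HaKDefs

/-!
# Module HaKb: group algebras of products
-/

open CategoryTheory Abelian TensorProduct Coalgebra HopfAlgebra
open scoped ModuleCat

universe u

namespace Pool.Agent.H26.FG

variable {k : Type u} [Field k]

theorem HaKb_adl {C : Type u} [Ring C] [HopfAlgebra k C] (c x : C) (hx : ∀ c, x * c = c * x) :
    adl k c x = counit (R := k) c • x := by
  have h1 : ∀ t : C ⊗[k] C, LinearMap.mul' k C (TensorProduct.map (LinearMap.mulRight k x)
      (antipode k) t) = x * LinearMap.mul' k C (LinearMap.lTensor C (antipode k) t) := by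
    intro t
    induction t using TensorProduct.induction_on with
    | zero => simp
    | tmul a b =>
      simp only [TensorProduct.map_tmul, LinearMap.mulRight_apply, LinearMap.mul'_apply,
        LinearMap.lTensor_tmul]
      rw [← mul_assoc, hx]
    | add a b ha hb => rw [map_add, map_add, map_add, map_add, mul_add, ha, hb]
  rw [adl, h1, HopfAlgebra.mul_antipode_lTensor_comul_apply, Algebra.smul_def, hx]

theorem HaKb_adr {C : Type u} [Ring C] [HopfAlgebra k C] (c x : C) (hx : ∀ c, x * c = c * x) :
    adr k c x = counit (R := k) c • x := by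
  have h1 : ∀ t : C ⊗[k] C, LinearMap.mul' k C (TensorProduct.map (LinearMap.mulRight k x ∘ₗ
      antipode k) LinearMap.id t) =
      LinearMap.mul' k C (LinearMap.rTensor C (antipode k) t) * x := by
    intro t
    induction t using TensorProduct.induction_on with
    | zero => simp
    | tmul a b =>
      simp only [TensorProduct.map_tmul, LinearMap.comp_apply, LinearMap.mulRight_apply,
        LinearMap.id_apply, LinearMap.mul'_apply, LinearMap.rTensor_tmul]
      rw [mul_assoc, mul_assoc, hx]
    | add a b ha hb => rw [map_add, map_add, map_add, map_add, add_mul, ha, hb]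
  rw [adr, h1, HopfAlgebra.mul_antipode_rTensor_comul_apply, Algebra.smul_def]

theorem HaKb_one {G H : Type} [CommGroup G] [CommGroup H] (a : MonoidAlgebra k G) :
    MonoidAlgebra.mapDomainBialgHom k (1 : G →* H) a =
      algebraMap k (MonoidAlgebra k H) (counit (R := k) a) := by
  induction a using MonoidAlgebra.induction_linear with
  | zero => simp
  | add f g hf hg => rw [map_add, hf, hg, map_add, map_add]
  | single g r =>
    rw [MonoidAlgebra.mapDomainBialgHom_single]
    simp

/-- The group algebras of a product form an exact sequence `k[G] → k[G × H] → k[H]`.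
`adl`/`adr`: in a commutative Hopf algebra `adl k c x = ε(c) x` (`∑ c₁ x S(c₂) = x ∑ c₁ S(c₂)`, as in
`T1M_adl` of `T1M.lean`, copy its proof, do not import `T1M`).
`ker`: `⊇` is clear, as `π (ι a) = ε(a) 1`. `⊆`: let `J` be the ideal; `ι` of `single g 1 - 1` is in `J`, so
`single (g, h) 1 - single (1, h) 1 ∈ J`, hence `c - σ (π c) ∈ J` for all `c`, where `σ : k[H] → k[G × H]` is
induced by `h ↦ (1, h)` (both sides are linear in `c`; `MonoidAlgebra.induction_linear` or
`Finsupp.induction_linear`). -/
theorem prod_exact {G H : Type} [CommGroup G] [CommGroup H] :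
    HopfExact (MonoidAlgebra.mapDomainBialgHom k (MonoidHom.inl G H))
      (MonoidAlgebra.mapDomainBialgHom k (MonoidHom.snd G H)) := by
  refine ⟨?_, ?_, ?_, ?_, ?_⟩
  · refine Function.LeftInverse.injective
      (g := MonoidAlgebra.mapDomainBialgHom k (MonoidHom.fst G H)) fun x => ?_
    rw [MonoidAlgebra.mapDomainBialgHom_mapDomainBialgHom, MonoidHom.fst_comp_inl,
      MonoidAlgebra.mapDomainBialgHom_id]
    rfl
  · intro x
    refine ⟨MonoidAlgebra.mapDomainBialgHom k (MonoidHom.inr G H) x, ?_⟩
    rw [MonoidAlgebra.mapDomainBialgHom_mapDomainBialgHom, MonoidHom.snd_comp_inr,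
      MonoidAlgebra.mapDomainBialgHom_id]
    rfl
  · intro c a
    refine ⟨counit (R := k) c • a, ?_⟩
    rw [HaKb_adl c _ fun c => mul_comm _ _, map_smul]
  · intro c a
    refine ⟨counit (R := k) c • a, ?_⟩
    rw [HaKb_adr c _ fun c => mul_comm _ _, map_smul]
  · intro c
    set J := Ideal.span ((MonoidAlgebra.mapDomainBialgHom k (MonoidHom.inl G H)) ''
      {a : MonoidAlgebra k G | counit (R := k) a = 0}) with hJ
    constructor
    · intro hc
      have key : ∀ c : MonoidAlgebra k (G × H),
          c - MonoidAlgebra.mapDomainBialgHom k (MonoidHom.inr G H)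
            (MonoidAlgebra.mapDomainBialgHom k (MonoidHom.snd G H) c) ∈ J := by
        intro c
        induction c using MonoidAlgebra.induction_linear with
        | zero => simp
        | add f g hf hg =>
          rw [map_add, map_add, add_sub_add_comm]
          exact J.add_mem hf hg
        | single x r =>
          rw [MonoidAlgebra.mapDomainBialgHom_single, MonoidAlgebra.mapDomainBialgHom_single]
          have h1 : MonoidAlgebra.single x r - MonoidAlgebra.single (MonoidHom.inr G H
              (MonoidHom.snd G H x)) r = MonoidAlgebra.single ((1 : G), x.2) r *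
              (MonoidAlgebra.mapDomainBialgHom k (MonoidHom.inl G H))
                (MonoidAlgebra.single x.1 1 - 1) := by
            rw [map_sub, map_one, MonoidAlgebra.mapDomainBialgHom_single, mul_sub, mul_one,
              MonoidAlgebra.single_mul_single, mul_one]
            congr 2
            ext
            · simp
            · simp
          rw [h1]
          refine J.mul_mem_left _ (Ideal.subset_span ⟨_, ?_, rfl⟩)
          show counit (R := k) (MonoidAlgebra.single x.1 (1 : k) - 1) = 0
          rw [map_sub]
          simp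
      have := key c
      rwa [hc, map_zero, sub_zero] at this
    · intro hc
      have h1 : J ≤ RingHom.ker ((MonoidAlgebra.mapDomainBialgHom k (MonoidHom.snd G H) :
          MonoidAlgebra k (G × H) →ₐ[k] MonoidAlgebra k H) : MonoidAlgebra k (G × H) →+* MonoidAlgebra k H) := by
        rw [hJ, Ideal.span_le]
        rintro _ ⟨a, ha, rfl⟩
        show MonoidAlgebra.mapDomainBialgHom k (MonoidHom.snd G H)
          (MonoidAlgebra.mapDomainBialgHom k (MonoidHom.inl G H) a) = 0
        rw [MonoidAlgebra.mapDomainBialgHom_mapDomainBialgHom, MonoidHom.snd_comp_inl, HaKb_one]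
        have ha' : counit (R := k) a = 0 := ha
        rw [ha', map_zero]
      exact h1 hc

theorem HaKb_ext {A : Type u} [Ring A] [Algebra k A] {ε : A →ₐ[k] k} {x y : Cocycle₂ ε}
    (h : x.fn = y.fn) : x = y := by
  cases x
  cases y
  congr

/-- `T0_prime` for `prod_exact`: `SC` = the classes of the pull-backs of the cocycles of `k[G]` along
the projection `k[G × H] → k[G]` (`MonoidHom.fst`; their restrictions along `inl` are the given classes:
`resK_cls₂`, and a cocycle is determined by its `fn`), `SB` = the classes of the cocycles of `k[H]`; the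
inflations `resCls π '' SB` are the classes of the pull-backs along `snd`. The new family is indexed by
`Fin (n + m)` (`Fin.append`/`Fin.addCases`, `finSumFinEquiv`). For `hA` of `T0_prime` the restriction of a
`k`-finite module is `k`-finite (see line 91 of `T0p.lean`). -/
theorem SymGN.prod {G H : Type} [CommGroup G] [CommGroup H] [Finite G] [Finite H]
    (h₁ : SymGN k (MonoidAlgebra k G)) (h₂ : SymGN k (MonoidAlgebra k H)) :
    SymGN k (MonoidAlgebra k (G × H)) := by
  obtain ⟨n, f, hfs, hf1, hf⟩ := h₁
  obtain ⟨m, g, hgs, hg1, hg⟩ := h₂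
  set ι := MonoidAlgebra.mapDomainBialgHom k (MonoidHom.inl G H) with hι
  set π := MonoidAlgebra.mapDomainBialgHom k (MonoidHom.snd G H) with hπ
  set p := MonoidAlgebra.mapDomainBialgHom k (MonoidHom.fst G H) with hp
  have hpι : ∀ x, p (ι x) = x := by
    intro x
    rw [hp, hι, MonoidAlgebra.mapDomainBialgHom_mapDomainBialgHom, MonoidHom.fst_comp_inl,
      MonoidAlgebra.mapDomainBialgHom_id]
    rfl
  let F1 : Fin n → Cocycle₂ (Bialgebra.counitAlgHom k (MonoidAlgebra k (G × H))) :=
    fun i => (f i).pull (p : MonoidAlgebra k (G × H) →ₐ[k] MonoidAlgebra k G) p.counitAlgHom_comp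
  let F2 : Fin m → Cocycle₂ (Bialgebra.counitAlgHom k (MonoidAlgebra k (G × H))) :=
    fun i => (g i).pull (π : MonoidAlgebra k (G × H) →ₐ[k] MonoidAlgebra k H) π.counitAlgHom_comp
  refine ⟨n + m, Fin.append F1 F2, ?_, ?_, ?_⟩
  · intro i
    refine Fin.addCases (fun i => ?_) (fun i => ?_) i
    · intro a b
      rw [Fin.append_left]
      exact hfs i _ _
    · intro a b
      rw [Fin.append_right]
      exact hgs i _ _
  · intro i
    refine Fin.addCases (fun i => ?_) (fun i => ?_) i
    · rw [Fin.append_left]
      have := hf1 i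
      show (f i).fn (p 1) (p 1) = 0
      rw [map_one]
      exact this
    · rw [Fin.append_right]
      have := hg1 i
      show (g i).fn (π 1) (π 1) = 0
      rw [map_one]
      exact this
  · intro N hN
    set SC : Set (Cls (triv k (MonoidAlgebra k (G × H)))) :=
      Set.range fun i => (⟨2, cls₂ (F1 i)⟩ : Cls (triv k (MonoidAlgebra k (G × H)))) with hSC
    set SB : Set (Cls (triv k (MonoidAlgebra k H))) :=
      Set.range fun i => (⟨2, cls₂ (g i)⟩ : Cls (triv k (MonoidAlgebra k H))) with hSB
    have e1 : resCls π '' SB =
        Set.range fun i => (⟨2, cls₂ (F2 i)⟩ : Cls (triv k (MonoidAlgebra k (G × H)))) := by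
      rw [hSB, ← Set.range_comp]
      congr 1
      ext i : 1
      show (⟨2, res π (cls₂ (g i))⟩ : Cls (triv k (MonoidAlgebra k (G × H)))) = _
      rw [res, resK_cls₂]
    have e2 : resCls ι '' SC =
        Set.range fun i => (⟨2, cls₂ (f i)⟩ : Cls (triv k (MonoidAlgebra k G))) := by
      rw [hSC, ← Set.range_comp]
      congr 1
      ext i : 1
      show (⟨2, res ι (cls₂ (F1 i))⟩ : Cls (triv k (MonoidAlgebra k G))) = _
      rw [res, resK_cls₂]
      congr 2
      refine HaKb_ext ?_
      ext a b
      show (f i).fn (p (ι _)) (p (ι _)) = _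
      rw [hpι, hpι]
      rfl
    have e3 : (Set.range fun i => (⟨2, cls₂ (Fin.append F1 F2 i)⟩ :
        Cls (triv k (MonoidAlgebra k (G × H))))) = SC ∪ resCls π '' SB := by
      rw [e1]
      ext x
      constructor
      · rintro ⟨i, rfl⟩
        refine Fin.addCases (fun i => ?_) (fun i => ?_) i
        · left
          simp only [Fin.append_left]
          exact ⟨i, rfl⟩
        · right
          simp only [Fin.append_right]
          exact ⟨i, rfl⟩
      · rintro (⟨i, rfl⟩ | ⟨i, rfl⟩)
        · exact ⟨Fin.castAdd m i, by simp only [Fin.append_left]⟩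
        · exact ⟨Fin.natAdd n i, by simp only [Fin.append_right]⟩
    rw [e3]
    refine T0_prime (k := k) prod_exact SC (Set.finite_range _) ?_ SB (Set.finite_range _) ?_ ?_
      N hN ?_
    · rintro _ ⟨i, rfl⟩
      exact ⟨even_two, two_pos⟩
    · rintro _ ⟨i, rfl⟩
      exact ⟨even_two, two_pos⟩
    · exact hg
    · rw [e2]
      exact hf _ (h98_fin_res _ N hN)

end Pool.Agent.H26.FG
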