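import Pool.Agent.H26.FG.HaKDefs

/-!
# Module HaKc: the group algebra of `Z/p`
-/

open CategoryTheory Abelian TensorProduct Coalgebra HopfAlgebra
open scoped ModuleCat

universe u

namespace Pool.Agent.H26.FG

variable {k : Type u} [Field k]

/-- If the extension `WX x` of `A⁺` by `k` is projective, then composition with `cls₂ x` is surjective
`Ext^n(k, N) → Ext^(n+2)(k, N)`, for all `N`: `cls₂ x = (augS).extClass ∘ (cocS x).extClass` (`Defs.lean`),
`Ext.contravariant_sequence_exact₃` for `augS` (middle term `A` projective) and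
`Ext.contravariant_sequence_exact₁/₃` for `cocS x` (middle term projective), with
`Ext.eq_zero_of_projective`. -/
theorem GF_of_projective {A : Type u} [Ring A] [Algebra k A] {ε : A →ₐ[k] k} (x : Cocycle₂ ε)
    (hx : Projective (ModuleCat.of A (WX x))) (N : ModuleCat.{u} A) :
    (EGP k (trv ε) N).GF {(⟨2, cls₂ x⟩ : Cls (trv ε))} := by
  refine ⟨1, fun n hn v _ => ?_⟩
  obtain ⟨m, rfl⟩ : ∃ m, n = m + 2 := ⟨n - 2, by omega⟩
  have hA : Projective (ModuleCat.of A A) :=
    (IsProjective.iff_projective (R := A) A).1 inferInstance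
  have hX2 : Projective (augS ε).X₂ := hA
  have hW2 : Projective (cocS x).X₂ := hx
  have key : ∀ v : Ext (trv ε) N (m + 2), ∃ v₂ : Ext (trv ε) N m,
      (cls₂ x).comp v₂ (Nat.add_comm 2 m) = v := by
    intro v
    obtain ⟨v₁, hv₁⟩ := Ext.contravariant_sequence_exact₃ (augS_shortExact ε) N v
      (Ext.eq_zero_of_projective (P := (augS ε).X₂) (n := m + 1) _) (n₀ := m + 1) (by omega)
    obtain ⟨v₂, hv₂⟩ := Ext.contravariant_sequence_exact₃ (cocS_shortExact x) N v₁
      (Ext.eq_zero_of_projective (P := (cocS x).X₂) (n := m) _) (n₀ := m) (by omega)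
    refine ⟨v₂, ?_⟩
    rw [← hv₁, ← hv₂]
    exact Ext.comp_assoc _ _ _ _ _ (by omega)
  obtain ⟨v₂, hv₂⟩ := key v
  exact Submodule.subset_span ⟨⟨2, cls₂ x⟩, rfl, m, Nat.add_comm 2 m, v₂, trivial, hv₂⟩

/-- induction on elements of a group algebra -/
lemma HaKc_ind {G : Type} (P : MonoidAlgebra k G → Prop) (hadd : ∀ a b, P a → P b → P (a + b))
    (hsmul : ∀ (r : k) a, P a → P (r • a)) (h1 : ∀ g, P (MonoidAlgebra.single g 1))
    (a : MonoidAlgebra k G) (h0 : P 0) : P a := by
  induction a using MonoidAlgebra.induction_linear with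
  | zero => exact h0
  | add a b ha hb => exact hadd a b ha hb
  | single g r =>
    have h := hsmul r _ (h1 g)
    rwa [MonoidAlgebra.smul_single, smul_eq_mul, mul_one] at h

/-- the carry -/
def HaKc_c (p : ℕ) (a b : ZMod p) : ℕ := if a.val + b.val < p then 0 else 1

lemma HaKc_c_spec (p : ℕ) [Fact p.Prime] (a b : ZMod p) :
    p * HaKc_c p a b + (a + b).val = a.val + b.val := by
  have hp := (Fact.out : p.Prime).pos
  have ha := ZMod.val_lt a
  have hb := ZMod.val_lt b
  unfold HaKc_c
  rw [ZMod.val_add]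
  split_ifs with h
  · rw [Nat.mod_eq_of_lt h, mul_zero, zero_add]
  · have h2 : (a.val + b.val) % p = a.val + b.val - p := by
      rw [Nat.mod_eq_sub_mod (by omega), Nat.mod_eq_of_lt (by omega)]
    rw [h2]
    omega

lemma HaKc_c_cocycle (p : ℕ) [Fact p.Prime] (a b c : ZMod p) :
    HaKc_c p b c + HaKc_c p a (b + c) = HaKc_c p (a + b) c + HaKc_c p a b := by
  have hp := (Fact.out : p.Prime).pos
  have h1 := HaKc_c_spec p b c
  have h2 := HaKc_c_spec p a (b + c)
  have h3 := HaKc_c_spec p (a + b) c
  have h4 := HaKc_c_spec p a b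
  rw [← add_assoc] at h2
  apply Nat.eq_of_mul_eq_mul_left hp
  rw [mul_add, mul_add]
  omega

lemma HaKc_counit {G : Type} [Group G] (g : G) :
    Bialgebra.counitAlgHom k (MonoidAlgebra k G) (MonoidAlgebra.single g 1) = 1 := by
  rw [Bialgebra.counitAlgHom_apply, MonoidAlgebra.counit_single, CommSemiring.counit_apply]

/-- The carry cocycle `c(a, b) = (⟨a⟩ + ⟨b⟩ - ⟨a + b⟩) / p` on `Z/p` (representatives in `[0, p)`; so `0` or `1`),
extended bilinearly to the group algebra. -/
theorem exists_carry (k : Type u) [Field k] (p : ℕ) [Fact p.Prime] :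
    ∃ x : Cocycle₂ (Bialgebra.counitAlgHom k (MonoidAlgebra k (Multiplicative (ZMod p)))),
      ∀ a b : ZMod p, x.fn (MonoidAlgebra.single (Multiplicative.ofAdd a) 1)
        (MonoidAlgebra.single (Multiplicative.ofAdd b) 1) = if a.val + b.val < p then 0 else 1 := by
  classical
  let B := MonoidAlgebra.basis (Multiplicative (ZMod p)) k
  let F : MonoidAlgebra k (Multiplicative (ZMod p)) →ₗ[k]
      MonoidAlgebra k (Multiplicative (ZMod p)) →ₗ[k] k :=
    B.constr k fun a => B.constr k fun b => (HaKc_c p a.toAdd b.toAdd : k)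
  have hF : ∀ a b : Multiplicative (ZMod p), F (MonoidAlgebra.single a 1) (MonoidAlgebra.single b 1) =
      (HaKc_c p a.toAdd b.toAdd : k) := by
    intro a b
    have h1 := B.constr_basis k (fun a => B.constr k fun b => (HaKc_c p a.toAdd b.toAdd : k)) a
    have h2 := B.constr_basis k (fun b => (HaKc_c p a.toAdd b.toAdd : k)) b
    have h3 : ∀ a, B a = MonoidAlgebra.single a 1 := fun a => MonoidAlgebra.basis_apply k a
    rw [h3] at h1 h2
    change (B.constr k fun a => B.constr k fun b => (HaKc_c p a.toAdd b.toAdd : k))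
      (MonoidAlgebra.single a 1) (MonoidAlgebra.single b 1) = _
    rw [h1, h2]
  refine ⟨⟨F, ?_⟩, ?_⟩
  · intro a b c
    refine HaKc_ind (P := fun a => ∀ b c : MonoidAlgebra k (Multiplicative (ZMod p)),
      Bialgebra.counitAlgHom k _ a * F b c - F (a * b) c + F a (b * c) -
        F a b * Bialgebra.counitAlgHom k _ c = 0) ?_ ?_ ?_ a ?_ b c
    · intro a a' h h' b c
      simp only [map_add, add_mul, LinearMap.add_apply]
      linear_combination h b c + h' b c
    · intro r a h b c
      simp only [map_smul, smul_mul_assoc, LinearMap.smul_apply, smul_eq_mul]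
      linear_combination r * h b c
    · intro a b c
      refine HaKc_ind (P := fun b => ∀ c : MonoidAlgebra k (Multiplicative (ZMod p)),
        Bialgebra.counitAlgHom k _ (MonoidAlgebra.single a 1) * F b c -
          F (MonoidAlgebra.single a 1 * b) c + F (MonoidAlgebra.single a 1) (b * c) -
          F (MonoidAlgebra.single a 1) b * Bialgebra.counitAlgHom k _ c = 0) ?_ ?_ ?_ b ?_ c
      · intro b b' h h' c
        simp only [map_add, mul_add, add_mul, LinearMap.add_apply]
        linear_combination h c + h' c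
      · intro r b h c
        simp only [map_smul, smul_mul_assoc, mul_smul_comm, LinearMap.smul_apply, smul_eq_mul]
        linear_combination r * h c
      · intro b c
        refine HaKc_ind (P := fun c : MonoidAlgebra k (Multiplicative (ZMod p)) =>
          Bialgebra.counitAlgHom k _ (MonoidAlgebra.single a 1) * F (MonoidAlgebra.single b 1) c -
            F (MonoidAlgebra.single a 1 * MonoidAlgebra.single b 1) c +
            F (MonoidAlgebra.single a 1) (MonoidAlgebra.single b 1 * c) -
            F (MonoidAlgebra.single a 1) (MonoidAlgebra.single b 1) *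
              Bialgebra.counitAlgHom k _ c = 0) ?_ ?_ ?_ c ?_
        · intro c c' h h'
          simp only [map_add, mul_add]
          linear_combination h + h'
        · intro r c h
          simp only [map_smul, mul_smul_comm, smul_eq_mul]
          linear_combination r * h
        · intro c
          rw [MonoidAlgebra.single_mul_single, MonoidAlgebra.single_mul_single, mul_one,
            HaKc_counit, HaKc_counit, hF, hF, hF, hF]
          have h := HaKc_c_cocycle p a.toAdd b.toAdd c.toAdd
          have h2 : ((HaKc_c p b.toAdd c.toAdd : ℕ) : k) + (HaKc_c p a.toAdd (b.toAdd + c.toAdd) : ℕ) =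
            (HaKc_c p (a.toAdd + b.toAdd) c.toAdd : ℕ) + (HaKc_c p a.toAdd b.toAdd : ℕ) := by
            rw [← Nat.cast_add, ← Nat.cast_add, h]
          rw [toAdd_mul, toAdd_mul]
          linear_combination h2
        · simp
      · simp
    · simp
  · intro a b
    change F _ _ = _
    rw [hF]
    unfold HaKc_c
    simp only [toAdd_ofAdd]
    split_ifs <;> simp

lemma HaKc_pow (p : ℕ) [Fact p.Prime] (i : ℕ) :
    (MonoidAlgebra.single (Multiplicative.ofAdd (1 : ZMod p)) (1 : k)) ^ i =
      MonoidAlgebra.single (Multiplicative.ofAdd (i : ZMod p)) 1 := by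
  rw [MonoidAlgebra.single_pow, one_pow, ← ofAdd_nsmul, nsmul_one]

lemma HaKc_fn (p : ℕ) [Fact p.Prime]
    (x : Cocycle₂ (Bialgebra.counitAlgHom k (MonoidAlgebra k (Multiplicative (ZMod p)))))
    (hx : ∀ a b : ZMod p, x.fn (MonoidAlgebra.single (Multiplicative.ofAdd a) 1)
        (MonoidAlgebra.single (Multiplicative.ofAdd b) 1) = if a.val + b.val < p then 0 else 1)
    (m : ℕ) (hm : m ≤ p) :
    x.fn (∑ i ∈ Finset.range m, (MonoidAlgebra.single (Multiplicative.ofAdd (1 : ZMod p)) (1 : k)) ^ i)
      (MonoidAlgebra.single (Multiplicative.ofAdd (1 : ZMod p)) (1 : k)) =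
      if m < p then 0 else 1 := by
  have hp := (Fact.out : p.Prime).one_lt
  induction m with
  | zero => simp [(Fact.out : p.Prime).pos]
  | succ m ih =>
    rw [Finset.sum_range_succ, map_add, LinearMap.add_apply, ih (by omega), HaKc_pow, hx,
      ZMod.val_cast_of_lt (by omega), ZMod.val_one, if_pos (by omega), zero_add]

/-- For the carry cocycle `WX x` is free of rank one, generated by `w = (0, g - 1)` (`g` the generator):
`gⁱ w = (c(i, 1), gⁱ⁺¹ - gⁱ)`, so `∑_{i<p} gⁱ w = (1, 0)` and `(∑_{j<i} gʲ) w = (0, gⁱ - 1)` for `i < p`. -/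
theorem carry_projective (p : ℕ) [Fact p.Prime]
    (x : Cocycle₂ (Bialgebra.counitAlgHom k (MonoidAlgebra k (Multiplicative (ZMod p)))))
    (hx : ∀ a b : ZMod p, x.fn (MonoidAlgebra.single (Multiplicative.ofAdd a) 1)
        (MonoidAlgebra.single (Multiplicative.ofAdd b) 1) = if a.val + b.val < p then 0 else 1) :
    Projective (ModuleCat.of (MonoidAlgebra k (Multiplicative (ZMod p))) (WX x)) := by
  classical
  have hp := (Fact.out : p.Prime).one_lt
  set g : MonoidAlgebra k (Multiplicative (ZMod p)) :=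
    MonoidAlgebra.single (Multiplicative.ofAdd (1 : ZMod p)) (1 : k) with hg
  have hεg : Bialgebra.counitAlgHom k _ g = 1 := HaKc_counit _
  have h11 : x.fn 1 1 = 0 := by
    have h := hx 0 0
    rw [ofAdd_zero, ZMod.val_zero, add_zero, if_pos (Fact.out : p.Prime).pos] at h
    exact h
  have hr1 := x.one_right h11
  have hmem : g - 1 ∈ augI (Bialgebra.counitAlgHom k (MonoidAlgebra k (Multiplicative (ZMod p)))) := by
    rw [mem_augI, map_sub, hεg, map_one, sub_self]
  let w : WX x := ⟨0, ⟨g - 1, hmem⟩⟩
  have hfst : ∀ a : MonoidAlgebra k (Multiplicative (ZMod p)), (a • w).fst = x.fn a g := by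
    intro a
    rw [WX.smul_fst]
    change Bialgebra.counitAlgHom k _ a * 0 + x.fn a (g - 1) = _
    rw [map_sub, hr1]
    ring
  have hsnd : ∀ a : MonoidAlgebra k (Multiplicative (ZMod p)), ((a • w).snd :
      MonoidAlgebra k (Multiplicative (ZMod p))) = a * (g - 1) := fun a => rfl
  have hgp : g ^ p = 1 := by
    rw [hg, HaKc_pow, ZMod.natCast_self, ofAdd_zero]
    rfl
  set N : MonoidAlgebra k (Multiplicative (ZMod p)) := ∑ i ∈ Finset.range p, g ^ i with hN
  have hN1 : x.fn N g = 1 := by
    rw [hN, HaKc_fn p x hx p le_rfl, if_neg (lt_irrefl p)]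
  have hN2 : N * (g - 1) = 0 := by
    rw [hN, geom_sum_mul, hgp, sub_self]
  -- surjectivity
  have hs : ∀ a : MonoidAlgebra k (Multiplicative (ZMod p)), ∃ r, x.fn r g = 0 ∧
      r * (g - 1) = a - Bialgebra.counitAlgHom k _ a • 1 := by
    intro a
    refine HaKc_ind (P := fun a : MonoidAlgebra k (Multiplicative (ZMod p)) => ∃ r, x.fn r g = 0 ∧
      r * (g - 1) = a - Bialgebra.counitAlgHom k _ a • 1) ?_ ?_ ?_ a ?_
    · rintro a b ⟨r, h1, h2⟩ ⟨r', h1', h2'⟩
      refine ⟨r + r', ?_, ?_⟩
      · rw [map_add, LinearMap.add_apply, h1, h1', add_zero]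
      · rw [add_mul, h2, h2', map_add, add_smul]
        abel
    · rintro c a ⟨r, h1, h2⟩
      refine ⟨c • r, ?_, ?_⟩
      · rw [map_smul, LinearMap.smul_apply, h1, smul_zero]
      · rw [smul_mul_assoc, h2, map_smul, smul_sub, smul_assoc]
    · intro a
      refine ⟨∑ i ∈ Finset.range a.toAdd.val, g ^ i, ?_, ?_⟩
      · rw [HaKc_fn p x hx _ (ZMod.val_lt _).le, if_pos (ZMod.val_lt _)]
      · rw [geom_sum_mul, HaKc_counit, one_smul, hg, HaKc_pow, ZMod.natCast_val, ZMod.cast_id]
        rfl
    · exact ⟨0, by simp, by simp⟩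
  -- injectivity
  have hi : ∀ a : MonoidAlgebra k (Multiplicative (ZMod p)), x.fn a g = 0 → a * (g - 1) = 0 → a = 0 := by
    intro a h1 h2
    have h3 : a * g = a := by
      rw [mul_sub, mul_one, sub_eq_zero] at h2
      exact h2
    have h4 : ∀ h : ZMod p, a.coeff (Multiplicative.ofAdd (h + 1)) = a.coeff (Multiplicative.ofAdd h) := by
      intro h
      conv_lhs => rw [← h3, hg]
      rw [MonoidAlgebra.coeff_mul_single_eq_coeff_mul (Multiplicative.ofAdd h), mul_one]
      intro m' _
      rw [ofAdd_add]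
      exact mul_left_inj _
    have h5 : ∀ n : ℕ, a.coeff (Multiplicative.ofAdd (n : ZMod p)) = a.coeff 1 := by
      intro n
      induction n with
      | zero => rw [Nat.cast_zero, ofAdd_zero]
      | succ n ih => rw [Nat.cast_succ, h4, ih]
    have h6 : a = a.coeff 1 • N := by
      refine MonoidAlgebra.ext (Finsupp.ext fun m => ?_)
      have h7 : N.coeff m = 1 := by
        rw [hN, MonoidAlgebra.coeff_sum, Finsupp.finsetSum_apply,
          Finset.sum_eq_single_of_mem m.toAdd.val (Finset.mem_range.2 (ZMod.val_lt _))]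
        · rw [hg, HaKc_pow, MonoidAlgebra.coeff_single_apply, ZMod.natCast_val, ZMod.cast_id,
            if_pos (ofAdd_toAdd m)]
        · intro i hi hne
          rw [hg, HaKc_pow, MonoidAlgebra.coeff_single_apply, if_neg]
          intro h
          apply hne
          rw [← h, toAdd_ofAdd, ZMod.val_cast_of_lt (Finset.mem_range.1 hi)]
      have h8 := h5 m.toAdd.val
      rw [ZMod.natCast_val, ZMod.cast_id, ofAdd_toAdd] at h8
      rw [h8, MonoidAlgebra.coeff_smul, Finsupp.smul_apply, h7, smul_eq_mul, mul_one]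
    rw [h6, map_smul, LinearMap.smul_apply, hN1, smul_eq_mul, mul_one] at h1
    rw [h6, h1, zero_smul]
  let Φ : MonoidAlgebra k (Multiplicative (ZMod p)) →ₗ[MonoidAlgebra k (Multiplicative (ZMod p))] WX x :=
    LinearMap.toSpanSingleton _ _ w
  have hΦ : ∀ a, Φ a = a • w := fun a => rfl
  have hbij : Function.Bijective Φ := by
    constructor
    · rw [injective_iff_map_eq_zero]
      intro a ha
      rw [hΦ] at ha
      refine hi a ?_ ?_
      · rw [← hfst, ha]
        rfl
      · rw [← hsnd, ha]
        rfl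
    · intro v
      obtain ⟨r, h1, h2⟩ := hs v.snd
      refine ⟨v.fst • N + r, WX.ext' ?_ (Subtype.ext ?_)⟩
      · rw [hΦ, hfst, map_add, map_smul, LinearMap.add_apply, LinearMap.smul_apply, hN1, h1]
        simp
      · rw [hΦ, hsnd, add_mul, smul_mul_assoc, hN2, h2, smul_zero, zero_add]
        have h3 : Bialgebra.counitAlgHom k _ (v.snd : MonoidAlgebra k (Multiplicative (ZMod p))) = 0 :=
          mem_augI.1 v.snd.2
        rw [h3, zero_smul, sub_zero]
  have hP : Module.Projective (MonoidAlgebra k (Multiplicative (ZMod p))) (WX x) :=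
    Module.Projective.of_equiv (LinearEquiv.ofBijective Φ hbij)
  exact (IsProjective.iff_projective (R := MonoidAlgebra k (Multiplicative (ZMod p))) (WX x)).1 hP

/-- The base case; `GN_of_GF_even` of `FgcA.lean`. -/
theorem SymGN.zmod (k : Type u) [Field k] (p : ℕ) [Fact p.Prime] :
    SymGN k (MonoidAlgebra k (Multiplicative (ZMod p))) := by
  obtain ⟨x, hx⟩ := exists_carry k p
  refine ⟨1, fun _ => x, ?_, ?_, ?_⟩
  · intro _ a b
    refine HaKc_ind (P := fun a => ∀ b : MonoidAlgebra k (Multiplicative (ZMod p)),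
      x.fn a b = x.fn b a) ?_ ?_ ?_ a ?_ b
    · intro a a' h h' b
      rw [map_add, map_add, LinearMap.add_apply, h, h']
    · intro r a h b
      rw [map_smul, map_smul, LinearMap.smul_apply, h]
    · intro a b
      refine HaKc_ind (P := fun b : MonoidAlgebra k (Multiplicative (ZMod p)) =>
        x.fn (MonoidAlgebra.single a 1) b = x.fn b (MonoidAlgebra.single a 1)) ?_ ?_ ?_ b ?_
      · intro b b' h h'
        rw [map_add, map_add, LinearMap.add_apply, h, h']
      · intro r a h
        rw [map_smul, map_smul, LinearMap.smul_apply, h]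
      · intro b
        have h1 := hx a.toAdd b.toAdd
        have h2 := hx b.toAdd a.toAdd
        rw [ofAdd_toAdd, ofAdd_toAdd] at h1 h2
        rw [h1, h2, add_comm]
      · simp
    · intro b
      simp
  · intro _
    have h := hx 0 0
    rw [ofAdd_zero, ZMod.val_zero, add_zero, if_pos (Fact.out : p.Prime).pos] at h
    exact h
  · intro N hN
    have hr : Set.range (fun _ : Fin 1 => (⟨2, cls₂ x⟩ : Cls (triv k (MonoidAlgebra k
        (Multiplicative (ZMod p)))))) = {⟨2, cls₂ x⟩} := Set.range_const
    rw [hr]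
    refine GN_of_GF_even k _ _ (Set.finite_singleton _) ?_ N hN
      (GF_of_projective x (carry_projective p x hx) N)
    rintro s rfl
    exact ⟨even_two, two_pos⟩

end Pool.Agent.H26.FG
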