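import Mathlib

/-!
# Module HaKd: independence of the group elements
-/

universe u

namespace Pool.Agent.H26.FG

/-- Adjust the derivations `D i` with `ε (D i (x j)) = δ_ij` to derivations with
`D' i (x j) = δ_ij (1 + x i)`: `M i j = D i (x j)` is a matrix over `A` with `ε(M) = 1`, so `det M` is a unit
(`hloc`), `D' i = ∑_j ((1 + x i) (M⁻¹) i j) D j`. -/
theorem exists_eigen_derivations {k A : Type u} [Field k] [CommRing A] [Algebra k A] (ε : A →ₐ[k] k)
    (hloc : ∀ a, ε a ≠ 0 → IsUnit a) (n : ℕ) (x : Fin n → A) (D : Fin n → A →ₗ[k] A)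
    (hD : ∀ i a b, D i (a * b) = D i a * b + a * D i b)
    (hDx : ∀ i j, ε (D i (x j)) = if i = j then 1 else 0) :
    ∃ D' : Fin n → A →ₗ[k] A, (∀ i a b, D' i (a * b) = D' i a * b + a * D' i b) ∧
      ∀ i j, D' i (x j) = if i = j then 1 + x i else 0 := by
  classical
  set M : Matrix (Fin n) (Fin n) A := Matrix.of fun i j => D i (x j) with hM
  have hMap : M.map (ε : A →+* k) = 1 := by
    ext i j
    simp only [Matrix.map_apply, hM, Matrix.of_apply, Matrix.one_apply]
    exact hDx i j
  have hdet : IsUnit M.det := by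
    apply hloc
    have h1 : (ε : A →+* k) M.det = (M.map (ε : A →+* k)).det := by
      rw [RingHom.map_det]
      rfl
    rw [hMap, Matrix.det_one] at h1
    have h2 : ε M.det = 1 := h1
    rw [h2]
    exact one_ne_zero
  have hinv : M⁻¹ * M = 1 := Matrix.nonsing_inv_mul M hdet
  refine ⟨fun i => ∑ j, (LinearMap.mulLeft k ((1 + x i) * M⁻¹ i j)) ∘ₗ D j, ?_, ?_⟩
  · intro i a b
    simp only [LinearMap.sum_apply, LinearMap.comp_apply, LinearMap.mulLeft_apply, hD]
    rw [Finset.sum_mul, Finset.mul_sum, ← Finset.sum_add_distrib]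
    refine Finset.sum_congr rfl fun j _ => ?_
    ring
  · intro i j
    simp only [LinearMap.sum_apply, LinearMap.comp_apply, LinearMap.mulLeft_apply]
    have h3 : ∑ l, (1 + x i) * M⁻¹ i l * D l (x j) = (1 + x i) * (M⁻¹ * M) i j := by
      rw [Matrix.mul_apply, Finset.mul_sum]
      refine Finset.sum_congr rfl fun l _ => ?_
      simp only [hM, Matrix.of_apply]
      ring
    rw [h3, hinv, Matrix.one_apply]
    split_ifs <;> simp

/-- The products `u g = ∏ (1 + x i) ^ (g i)` are linearly independent, if there are derivations with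
`D i (x j) = δ_ij (1 + x i)` and an augmentation with `ε (x i) = 0`.
`D i (u g) = (g i) u g`. Let `T : A → (FreeMonoid (Fin n) → k)`, `T a w = ε (FreeMonoid.lift D w a)`
(`D : Fin n → Module.End k A`); then `T (u g) = FreeMonoid.lift (fun i => (g i : k))`, a monoid homomorphism
`χ g : FreeMonoid (Fin n) →* k`, and `g ↦ χ g` is injective (`CharP.natCast_injOn_Iio`, `ZMod.val_lt`,
`ZMod.val_injective`). Dedekind (`linearIndependent_monoidHom`) and `LinearIndependent.of_comp T`. -/
theorem linearIndependent_units {k A : Type u} [Field k] [CommRing A] [Algebra k A] (ε : A →ₐ[k] k)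
    (p : ℕ) [Fact p.Prime] [CharP k p] (n : ℕ) (x : Fin n → A) (hε : ∀ i, ε (x i) = 0)
    (D : Fin n → A →ₗ[k] A) (hD : ∀ i a b, D i (a * b) = D i a * b + a * D i b)
    (hDx : ∀ i j, D i (x j) = if i = j then 1 + x i else 0) :
    LinearIndependent k (fun g : Fin n → ZMod p => ∏ i, (1 + x i) ^ (g i).val) := by
  classical
  set u : (Fin n → ZMod p) → A := fun g => ∏ i, (1 + x i) ^ (g i).val with hu
  have hD1 : ∀ i, D i 1 = 0 := by
    intro i
    have h := hD i 1 1
    rw [mul_one, mul_one, one_mul] at h
    have h2 : D i 1 + D i 1 = D i 1 + 0 := by rw [← h, add_zero]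
    exact add_left_cancel h2
  have hDpow : ∀ i a, ∀ m : ℕ, D i a = 0 → D i (a ^ m) = 0 := by
    intro i a m ha
    induction m with
    | zero => rw [pow_zero, hD1]
    | succ m ih => rw [pow_succ, hD, ih, ha, zero_mul, mul_zero, add_zero]
  have hDpow' : ∀ i a, ∀ m : ℕ, D i a = a → D i (a ^ m) = (m : A) * a ^ m := by
    intro i a m ha
    induction m with
    | zero => rw [pow_zero, hD1, Nat.cast_zero, zero_mul]
    | succ m ih =>
      rw [pow_succ, hD, ih, ha]
      push_cast
      ring
  have hx1 : ∀ i j, D i (1 + x j) = if i = j then 1 + x j else 0 := by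
    intro i j
    rw [map_add, hD1, zero_add, hDx]
    split_ifs with h
    · rw [h]
    · rfl
  have hDprod : ∀ (i : Fin n) (s : Finset (Fin n)) (g : Fin n → ZMod p),
      D i (∏ j ∈ s, (1 + x j) ^ (g j).val) =
        (if i ∈ s then ((g i).val : A) else 0) * ∏ j ∈ s, (1 + x j) ^ (g j).val := by
    intro i s g
    induction s using Finset.induction_on with
    | empty => simp [hD1]
    | insert a s ha ih =>
      rw [Finset.prod_insert ha, hD, ih]
      by_cases hia : i = a
      · subst hia
        rw [if_neg ha, if_pos (Finset.mem_insert_self _ _),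
          hDpow' i (1 + x i) _ (by rw [hx1, if_pos rfl])]
        ring
      · rw [hDpow i (1 + x a) _ (by rw [hx1, if_neg hia])]
        have : (i ∈ insert a s) ↔ i ∈ s := by
          rw [Finset.mem_insert]
          exact ⟨fun h => h.resolve_left hia, Or.inr⟩
        simp only [this]
        ring
  have hDu : ∀ i g, D i (u g) = ((g i).val : k) • u g := by
    intro i g
    rw [hu]
    simp only []
    rw [hDprod i Finset.univ g, if_pos (Finset.mem_univ i), Algebra.smul_def, map_natCast]
  have hεu : ∀ g, ε (u g) = 1 := by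
    intro g
    simp only [hu, map_prod, map_pow, map_add, map_one, hε, add_zero, one_pow,
      Finset.prod_const_one]
  let D' : Fin n → Module.End k A := D
  let χ : (Fin n → ZMod p) → (FreeMonoid (Fin n) →* k) :=
    fun g => FreeMonoid.lift (fun i => ((g i).val : k))
  have hχ : ∀ g (w : FreeMonoid (Fin n)), FreeMonoid.lift D' w (u g) = χ g w • u g := by
    intro g w
    induction w using FreeMonoid.inductionOn with
    | one => simp [χ]
    | of i =>
      simp only [FreeMonoid.lift_eval_of, χ, D']
      exact hDu i g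
    | mul v w hv hw =>
      rw [map_mul, map_mul, Module.End.mul_apply, hw, map_smul, hv, smul_smul, mul_comm]
  let T : A →ₗ[k] (FreeMonoid (Fin n) → k) :=
    { toFun := fun a w => ε (FreeMonoid.lift D' w a)
      map_add' := by
        intro a b
        funext w
        simp
      map_smul' := by
        intro c a
        funext w
        simp }
  have hT : ∀ g, T (u g) = ((χ g : FreeMonoid (Fin n) →* k) : FreeMonoid (Fin n) → k) := by
    intro g
    funext w
    show ε (FreeMonoid.lift D' w (u g)) = χ g w
    rw [hχ, map_smul, hεu, smul_eq_mul, mul_one]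
  have hinj : Function.Injective χ := by
    intro g g' h
    funext i
    have h1 : χ g (FreeMonoid.of i) = χ g' (FreeMonoid.of i) := by rw [h]
    simp only [χ, FreeMonoid.lift_eval_of] at h1
    have h2 : (g i).val = (g' i).val :=
      CharP.natCast_injOn_Iio k p (ZMod.val_lt _) (ZMod.val_lt _) h1
    exact ZMod.val_injective p h2
  have hind : LinearIndependent k (fun g : Fin n → ZMod p => T (u g)) := by
    have h1 := linearIndependent_monoidHom (FreeMonoid (Fin n)) k
    have h2 := h1.comp χ hinj
    have h3 : (fun g : Fin n → ZMod p => T (u g)) =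
        (fun f : FreeMonoid (Fin n) →* k => (f : FreeMonoid (Fin n) → k)) ∘ χ := funext hT
    rw [h3]
    exact h2
  exact LinearIndependent.of_comp T hind

end Pool.Agent.H26.FG
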