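import Mathlib

/-!
# Module HaKe: generation
-/

universe u

namespace Pool.Agent.H26.FG

/-- Let `m = ker ε` be nilpotent and `B` a subalgebra with `m ⊆ B + m²`. Then `B = A`.
For all `j ≥ 1` and `a ∈ m^j` there is `b ∈ B` with `a - b ∈ m^(j+1)` (induction on `j`: `m^(j+1)` is
additively generated by products `c d`, `c ∈ m`, `d ∈ m^j`; `c = b₁ + c'`, `d = b₂ + d'`, so
`c d - b₁ b₂ = c' d + b₁ d'` and `b₁ = c - c' ∈ m`, `b₂ ∈ m^j`); `m^N = 0`, so by downward induction
`m^j ⊆ B`, and `a = ε(a) 1 + (a - ε(a) 1)`. -/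
theorem subalgebra_eq_top {k A : Type u} [Field k] [CommRing A] [Algebra k A] (ε : A →ₐ[k] k)
    (hnil : IsNilpotent (RingHom.ker ε)) (B : Subalgebra k A)
    (h : ∀ a, ε a = 0 → ∃ b ∈ B, a - b ∈ (RingHom.ker ε) ^ 2) : B = ⊤ := by
  obtain ⟨N, hN⟩ := hnil
  -- step 1
  have step : ∀ j : ℕ, ∀ a ∈ (RingHom.ker ε) ^ (j + 1), ∃ b ∈ B,
      a - b ∈ (RingHom.ker ε) ^ (j + 2) := by
    intro j
    induction j with
    | zero =>
      intro a ha
      rw [zero_add, pow_one, RingHom.mem_ker] at ha
      exact h a ha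
    | succ j ih =>
      intro a ha
      rw [pow_succ'] at ha
      induction ha using Submodule.mul_induction_on' with
      | mem_mul_mem c hc d hd =>
        obtain ⟨b₁, hb₁, hcb⟩ := h c (by rwa [RingHom.mem_ker] at hc)
        obtain ⟨b₂, hb₂, hdb⟩ := ih d hd
        refine ⟨b₁ * b₂, B.mul_mem hb₁ hb₂, ?_⟩
        have hb₁m : b₁ ∈ RingHom.ker ε := by
          have h1 : c - b₁ ∈ RingHom.ker ε := Ideal.pow_le_self two_ne_zero hcb
          have h2 : b₁ = c - (c - b₁) := by ring
          rw [h2]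
          exact Ideal.sub_mem _ hc h1
        have e : c * d - b₁ * b₂ = (c - b₁) * d + b₁ * (d - b₂) := by ring
        rw [e]
        refine Ideal.add_mem _ ?_ ?_
        · have : (RingHom.ker ε) ^ (j + 1 + 2) = (RingHom.ker ε) ^ 2 * (RingHom.ker ε) ^ (j + 1) := by
            rw [← pow_add]; congr 1; ring
          rw [this]
          exact Ideal.mul_mem_mul hcb hd
        · have : (RingHom.ker ε) ^ (j + 1 + 2) = RingHom.ker ε * (RingHom.ker ε) ^ (j + 2) := by
            rw [← pow_succ']
          rw [this]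
          exact Ideal.mul_mem_mul hb₁m hdb
      | add x _ y _ hx hy =>
        obtain ⟨b₁, hb₁, h1⟩ := hx
        obtain ⟨b₂, hb₂, h2⟩ := hy
        refine ⟨b₁ + b₂, B.add_mem hb₁ hb₂, ?_⟩
        have e : x + y - (b₁ + b₂) = (x - b₁) + (y - b₂) := by ring
        rw [e]
        exact Ideal.add_mem _ h1 h2
  -- step 2
  have down : ∀ i j : ℕ, N ≤ j + 1 + i → ∀ a ∈ (RingHom.ker ε) ^ (j + 1), a ∈ B := by
    intro i
    induction i with
    | zero =>
      intro j hj a ha
      have h1 : a ∈ (RingHom.ker ε) ^ N := Ideal.pow_le_pow_right (by omega) ha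
      rw [hN] at h1
      have h2 : a = 0 := by simpa using h1
      rw [h2]
      exact B.zero_mem
    | succ i ih =>
      intro j hj a ha
      obtain ⟨b, hb, hab⟩ := step j a ha
      have h1 : a - b ∈ B := ih (j + 1) (by omega) _ hab
      have h2 : a = (a - b) + b := by ring
      rw [h2]
      exact B.add_mem h1 hb
  rw [eq_top_iff]
  intro a _
  have h1 : a - algebraMap k A (ε a) ∈ (RingHom.ker ε) ^ (0 + 1) := by
    rw [zero_add, pow_one, RingHom.mem_ker]
    simp
  have h2 := down N 0 (by omega) _ h1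
  have h3 : a = (a - algebraMap k A (ε a)) + algebraMap k A (ε a) := by ring
  rw [h3]
  exact B.add_mem h2 (B.algebraMap_mem _)

/-- Dual bases of `m / m²`: let `I₂ = m²` as a `k`-subspace (the span of the products), `V` a complement of
`I₂` in `m`, `x` a basis of `V`; then `A = V ⊕ (k 1 ⊕ I₂)`, and `z i` is the `i`-th coordinate of the
projection to `V` (`Submodule.linearProjOfIsCompl` or its present name). For the derivation property:
`(a - ε a)(b - ε b) ∈ I₂`. -/
theorem exists_dual_bases {k A : Type u} [Field k] [CommRing A] [Algebra k A] [Module.Finite k A]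
    (ε : A →ₐ[k] k) :
    ∃ (n : ℕ) (x : Fin n → A) (z : Fin n → A →ₗ[k] k), (∀ i, ε (x i) = 0) ∧
      (∀ i j, z i (x j) = if i = j then 1 else 0) ∧
      (∀ i a b, z i (a * b) = ε a * z i b + z i a * ε b) ∧
      ∀ a, ε a = 0 → a - ∑ i, z i a • x i ∈ (RingHom.ker ε) ^ 2 := by
  classical
  set m : Submodule k A := (RingHom.ker ε).restrictScalars k with hm
  set I₂ : Submodule k A := ((RingHom.ker ε) ^ 2).restrictScalars k with hI
  set J : Submodule k m := I₂.comap m.subtype with hJ
  have hmem : ∀ a : A, a ∈ m ↔ ε a = 0 := fun a => by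
    rw [hm, Submodule.restrictScalars_mem, RingHom.mem_ker]
  let p : A →ₗ[k] m :=
    { toFun := fun a => ⟨a - algebraMap k A (ε a), by rw [hmem]; simp⟩
      map_add' := fun a b => by
        apply Subtype.ext
        simp only [map_add, Submodule.coe_add]
        ring
      map_smul' := fun c a => by
        apply Subtype.ext
        simp only [map_smul, Submodule.coe_smul, RingHom.id_apply, smul_sub, smul_eq_mul, map_mul]
        rw [Algebra.smul_def c (algebraMap k A (ε a))] }
  have hp : ∀ a, ((p a : m) : A) = a - algebraMap k A (ε a) := fun a => rfl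
  have hpm : ∀ a : m, p (a : A) = a := fun a => by
    apply Subtype.ext
    rw [hp, (hmem _).1 a.2, map_zero, sub_zero]
  let b := Module.finBasis k (m ⧸ J)
  have hsurj : ∀ q : m ⧸ J, ∃ y : m, J.mkQ y = q := Submodule.mkQ_surjective J
  choose y hy using fun i => hsurj (b i)
  refine ⟨Module.finrank k (m ⧸ J), fun i => (y i : A), fun i => (b.coord i) ∘ₗ J.mkQ ∘ₗ p, ?_, ?_,
    ?_, ?_⟩
  · intro i
    exact (hmem _).1 (y i).2
  · intro i j
    simp only [LinearMap.comp_apply, hpm, hy, Module.Basis.coord_apply, Module.Basis.repr_self,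
      Finsupp.single_apply]
    by_cases hij : i = j
    · simp [hij]
    · simp [hij, Ne.symm hij]
  · intro i a c
    have key : J.mkQ (p (a * c)) = ε a • J.mkQ (p c) + ε c • J.mkQ (p a) := by
      rw [← map_smul J.mkQ, ← map_smul J.mkQ, ← map_add J.mkQ, ← sub_eq_zero, ← map_sub J.mkQ,
        Submodule.mkQ_apply, Submodule.Quotient.mk_eq_zero]
      show m.subtype _ ∈ I₂
      have e : m.subtype (p (a * c) - (ε a • p c + ε c • p a))
          = (a - algebraMap k A (ε a)) * (c - algebraMap k A (ε c)) := by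
        simp only [map_sub, map_add, map_smul, Submodule.subtype_apply, hp, map_mul,
          Algebra.smul_def]
        ring
      rw [e, hI, Submodule.restrictScalars_mem, pow_two]
      refine Ideal.mul_mem_mul ?_ ?_
      · rw [RingHom.mem_ker]; simp
      · rw [RingHom.mem_ker]; simp
    simp only [LinearMap.comp_apply, key, map_add, map_smul, smul_eq_mul]
    ring
  · intro a ha
    have ham : a ∈ m := (hmem a).2 ha
    have h1 : (⟨a, ham⟩ : m) - ∑ i, (b.coord i (J.mkQ ⟨a, ham⟩)) • y i ∈ J := by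
      rw [← Submodule.Quotient.mk_eq_zero, ← Submodule.mkQ_apply, map_sub, map_sum]
      simp only [map_smul, hy, Module.Basis.coord_apply]
      rw [b.sum_repr, sub_self]
    have h2 : m.subtype ((⟨a, ham⟩ : m) - ∑ i, (b.coord i (J.mkQ ⟨a, ham⟩)) • y i) ∈ I₂ := h1
    rw [hI, Submodule.restrictScalars_mem] at h2
    have h3 : m.subtype ((⟨a, ham⟩ : m) - ∑ i, (b.coord i (J.mkQ ⟨a, ham⟩)) • y i)
        = a - ∑ i, ((b.coord i) ∘ₗ J.mkQ ∘ₗ p) a • (y i : A) := by
      have h4 : p a = ⟨a, ham⟩ := hpm ⟨a, ham⟩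
      simp only [map_sub, map_sum, map_smul, Submodule.subtype_apply, LinearMap.comp_apply, h4]
    rw [h3] at h2
    exact h2

end Pool.Agent.H26.FG
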