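import Pool.Agent.H26.FG.GOpA

/-!
# Module HaT: commutative Hopf algebras with idempotent augmentation ideal (T1a, T1b)
-/

open CategoryTheory Abelian TensorProduct Coalgebra HopfAlgebra
open scoped ModuleCat

universe u

namespace Pool.Agent.H26.FG

section HaT_aux

lemma HaT_idem {R : Type*} [CommRing R] (I : Ideal R) (hI : I.FG) (h : I ≤ I * I) :
    ∃ e ∈ I, ∀ a ∈ I, a * e = a := by
  have h1 : IsIdempotentElem I := le_antisymm Ideal.mul_le_left h
  obtain ⟨e, he, rfl⟩ := (Ideal.isIdempotentElem_iff_of_fg I hI).1 h1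
  refine ⟨e, Ideal.mem_span_singleton_self e, fun a ha => ?_⟩
  obtain ⟨c, rfl⟩ := Ideal.mem_span_singleton'.1 ha
  rw [mul_assoc, he.eq]

variable {k : Type*} [Field k] {A : Type*} [Ring A] [Algebra k A]

lemma HaT_pow (hcomm : ∀ a b : A, a * b = b * a) (D : A →ₗ[k] A)
    (hD : ∀ a b, D (a * b) = D a * b + a * D b) (a : A) (n : ℕ) :
    D (a ^ (n + 1)) = ((n + 1 : ℕ) : A) * (a ^ n * D a) := by
  induction n with
  | zero => simp
  | succ n ih =>
    rw [pow_succ a (n + 1), hD, ih, pow_succ a n]
    have h1 : a ^ n * D a * a = a ^ n * a * D a := by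
      rw [mul_assoc, hcomm (D a) a, mul_assoc]
    rw [mul_assoc, h1]
    push_cast
    noncomm_ring

lemma HaT_one (D : A →ₗ[k] A) (hD : ∀ a b, D (a * b) = D a * b + a * D b) : D 1 = 0 := by
  have h := hD 1 1
  simp only [mul_one, one_mul] at h
  exact left_eq_add.1 h

lemma HaT_aeval (hcomm : ∀ a b : A, a * b = b * a) (D : A →ₗ[k] A)
    (hD : ∀ a b, D (a * b) = D a * b + a * D b) (a : A) (p : Polynomial k) :
    D (Polynomial.aeval a p) = Polynomial.aeval a (Polynomial.derivative p) * D a := by
  induction p using Polynomial.induction_on' with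
  | add p q hp hq =>
    rw [map_add, map_add, hp, hq, Polynomial.derivative_add, map_add, add_mul]
  | monomial n c =>
    rw [Polynomial.derivative_monomial, Polynomial.aeval_monomial, Polynomial.aeval_monomial,
      ← Algebra.smul_def, map_smul]
    cases n with
    | zero =>
      rw [pow_zero, HaT_one D hD, Nat.cast_zero, mul_zero, map_zero, zero_mul, zero_mul, smul_zero]
    | succ n =>
      rw [HaT_pow hcomm D hD, Nat.add_sub_cancel, map_mul, map_natCast, Algebra.smul_def]
      noncomm_ring

lemma HaT_ne [CharZero k] (hcomm : ∀ a b : A, a * b = b * a) (D : A →ₗ[k] A)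
    (hD : ∀ a b, D (a * b) = D a * b + a * D b) (ε : A →ₐ[k] k) (a : A) (ha : ε (D a) ≠ 0) (n : ℕ) :
    ∀ p : Polynomial k, p.natDegree ≤ n → p ≠ 0 → ∀ s : A, ε s ≠ 0 →
      s * Polynomial.aeval a p ≠ 0 := by
  have hconst : ∀ p : Polynomial k, p.natDegree = 0 → p ≠ 0 → ∀ s : A, ε s ≠ 0 →
      s * Polynomial.aeval a p ≠ 0 := by
    intro p hp hp0 s hs h
    obtain ⟨c, rfl⟩ := Polynomial.natDegree_eq_zero.1 hp
    have hc : c ≠ 0 := fun h0 => hp0 (by rw [h0, Polynomial.C_0])
    rw [Polynomial.aeval_C] at h
    have h1 := congrArg ε h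
    rw [map_mul, map_zero, AlgHom.commutes] at h1
    exact mul_ne_zero hs hc h1
  induction n with
  | zero => exact fun p hp hp0 s hs => hconst p (Nat.le_zero.1 hp) hp0 s hs
  | succ n ih =>
    intro p hp hp0 s hs h
    rcases Nat.eq_zero_or_pos p.natDegree with h0 | h0
    · exact hconst p h0 hp0 s hs h
    have hp' : Polynomial.derivative p ≠ 0 := by
      intro h1
      exact h0.ne' (Polynomial.derivative_eq_zero.1 h1)
    have hdeg : (Polynomial.derivative p).natDegree ≤ n := by
      have := Polynomial.natDegree_derivative_lt h0.ne'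
      omega
    refine ih _ hdeg hp' (s * s * D a) ?_ ?_
    · rw [map_mul, map_mul]
      exact mul_ne_zero (mul_ne_zero hs hs) ha
    · have h1 := congrArg D h
      rw [map_zero, hD, HaT_aeval hcomm D hD] at h1
      have h2 := congrArg (fun y => s * y) h1
      simp only [mul_add, mul_zero] at h2
      have h3 : s * (D s * Polynomial.aeval a p) = 0 := by
        rw [← mul_assoc, hcomm s (D s), mul_assoc, h, mul_zero]
      rw [h3, zero_add] at h2
      rw [← h2, hcomm (Polynomial.aeval a (Polynomial.derivative p)) (D a)]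
      noncomm_ring

end HaT_aux

section HaT_coalg

variable {k : Type u} [Field k] {A : Type u} [Ring A] [HopfAlgebra k A]

/-- `x ⊗ y ↦ z(y) x`. -/
noncomputable def HaT_D2 (z : A →ₗ[k] k) : A ⊗[k] A →ₗ[k] A :=
  (TensorProduct.rid k A).toLinearMap ∘ₗ z.lTensor A

lemma HaT_D2_tmul (z : A →ₗ[k] k) (x y : A) : HaT_D2 z (x ⊗ₜ[k] y) = z y • x := by
  unfold HaT_D2
  rw [LinearMap.comp_apply, LinearMap.lTensor_tmul]
  exact TensorProduct.rid_tmul _ _

lemma HaT_D2_mul (z : A →ₗ[k] k)
    (hz : ∀ a b, z (a * b) = counit (R := k) a * z b + z a * counit (R := k) b)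
    (s t : A ⊗[k] A) :
    HaT_D2 z (s * t) = HaT_D2 z s * HaT_D2 (counit (R := k)) t +
      HaT_D2 (counit (R := k)) s * HaT_D2 z t := by
  induction s using TensorProduct.induction_on with
  | zero => simp only [zero_mul, map_zero, add_zero]
  | add s s' hs hs' => rw [add_mul, map_add, hs, hs', map_add, map_add]; noncomm_ring
  | tmul x y =>
    induction t using TensorProduct.induction_on with
    | zero => simp only [mul_zero, map_zero, add_zero]
    | add t t' ht ht' => rw [mul_add, map_add, ht, ht', map_add, map_add]; noncomm_ring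
    | tmul x' y' =>
      rw [Algebra.TensorProduct.tmul_mul_tmul]
      simp only [HaT_D2_tmul]
      rw [hz, add_smul, smul_mul_smul_comm, smul_mul_smul_comm, add_comm]

/-- The derivation of an `ε`-derivation. -/
noncomputable def HaT_D (z : A →ₗ[k] k) : A →ₗ[k] A := HaT_D2 z ∘ₗ comul

lemma HaT_counit (a : A) : HaT_D2 (counit (R := k)) (comul (R := k) a) = a := by
  unfold HaT_D2
  rw [LinearMap.comp_apply, Coalgebra.lTensor_counit_comul]
  exact (TensorProduct.rid_tmul _ _).trans (one_smul _ _)

lemma HaT_D_mul (z : A →ₗ[k] k)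
    (hz : ∀ a b, z (a * b) = counit (R := k) a * z b + z a * counit (R := k) b) (a b : A) :
    HaT_D z (a * b) = HaT_D z a * b + a * HaT_D z b := by
  unfold HaT_D
  rw [LinearMap.comp_apply, Bialgebra.comul_mul, HaT_D2_mul z hz, HaT_counit, HaT_counit]
  rfl

lemma HaT_counit_D (z : A →ₗ[k] k) (a : A) : counit (R := k) (HaT_D z a) = z a := by
  have h : ∀ s : A ⊗[k] A, counit (R := k) (HaT_D2 z s) =
      z (TensorProduct.lid k A ((counit (R := k)).rTensor A s)) := by
    intro s
    induction s using TensorProduct.induction_on with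
    | zero => simp only [map_zero]
    | add s s' hs hs' => simp only [map_add, hs, hs']
    | tmul x y =>
      rw [HaT_D2_tmul, LinearMap.rTensor_tmul, TensorProduct.lid_tmul, map_smul, map_smul,
        smul_eq_mul, smul_eq_mul, mul_comm]
  unfold HaT_D
  rw [LinearMap.comp_apply, h, Coalgebra.rTensor_counit_comul, TensorProduct.lid_tmul, one_smul]

end HaT_coalg

variable {k : Type u} [Field k] {A : Type u} [Ring A] [HopfAlgebra k A] [Module.Finite k A]


/-- The trivial module is projective if the augmentation ideal is idempotent. -/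
lemma HaT_proj (hcomm : ∀ a b : A, a * b = b * a)
    (h : ∀ a : A, counit (R := k) a = 0 → a ∈ Submodule.span k
      {x | ∃ b c : A, counit (R := k) b = 0 ∧ counit (R := k) c = 0 ∧ x = b * c}) :
    Projective (triv k A) := by
  obtain ⟨e, he, hea⟩ : ∃ e : A, counit (R := k) e = 0 ∧
      ∀ a : A, counit (R := k) a = 0 → a * e = a := by
    have hN : IsNoetherianRing A := IsNoetherianRing.of_finite k A
    let _ : CommRing A := { (inferInstance : Ring A) with mul_comm := hcomm }
    let I : Ideal A := RingHom.ker (Bialgebra.counitAlgHom k A)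
    have hI : I.FG := IsNoetherian.noetherian I
    have hII : I ≤ I * I := by
      intro a ha
      have h1 := h a ha
      refine Submodule.span_induction (p := fun x _ => x ∈ I * I) ?_ ?_ ?_ ?_ h1
      · rintro x ⟨b, c, hb, hc, rfl⟩
        exact Ideal.mul_mem_mul hb hc
      · exact Ideal.zero_mem _
      · intro x y _ _ hx hy
        exact Ideal.add_mem _ hx hy
      · intro c x _ hx
        rw [Algebra.smul_def]
        exact Ideal.mul_mem_left _ _ hx
    obtain ⟨e, he, hea⟩ := HaT_idem I hI hII
    exact ⟨e, he, fun a ha => hea a ha⟩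
  have hf : ∀ a : A, a * (1 - e) = counit (R := k) a • (1 - e) := by
    intro a
    have h1 : counit (R := k) (a - counit (R := k) a • (1 : A)) = 0 := by
      rw [map_sub, map_smul, Bialgebra.counit_one, smul_eq_mul, mul_one, sub_self]
    have h2 := hea _ h1
    rw [sub_mul, smul_mul_assoc, one_mul] at h2
    rw [mul_sub, mul_one, smul_sub]
    have h3 : a * e = a - counit (R := k) a • 1 + counit (R := k) a • e := by
      rw [← h2, sub_add_cancel]
    rw [h3]
    abel
  let i : triv k A →ₗ[A] A :=
    { toFun := fun x => tval k x • (1 - e)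
      map_add' := fun x y => by rw [map_add, add_smul]
      map_smul' := fun c x => by
        rw [tval_smul, mul_smul, RingHom.id_apply, smul_comm, ← hf c, smul_eq_mul, mul_smul_comm] }
  have hP : Module.Projective A (triv k A) := by
    refine Module.Projective.of_split i (LinearMap.toSpanSingleton A (triv k A) (tone k A)) ?_
    refine LinearMap.ext fun x => ?_
    change (tval k x • (1 - e)) • tone k A = x
    rw [smul_assoc, smul_tone, map_sub, Bialgebra.counit_one, he, sub_zero, one_smul]
    exact (triv_eq k x).symm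
  exact (IsProjective.iff_projective (R := A) (triv k A)).1 hP

/-- (T1a) If `A` is commutative and `A⁺` is idempotent then `k` is a projective `A`-module:
`A⁺ = A e` with `e² = e` (`Ideal.isIdempotentElem_iff_of_fg`; make `A` a commutative ring with
`hcomm`), `k = A (1 - e)` is a direct summand of `A`; `Ext^(n+1)(k, N) = 0`; `GN_empty_iff`. -/
theorem GN_empty_of_idem (hcomm : ∀ a b : A, a * b = b * a)
    (h : ∀ a : A, counit (R := k) a = 0 → a ∈ Submodule.span k
      {x | ∃ b c : A, counit (R := k) b = 0 ∧ counit (R := k) c = 0 ∧ x = b * c})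
    (N : ModuleCat.{u} A) : (EGP k (triv k A) N).GN ∅ := by
  refine (GOp.GN_empty_iff _).2 ⟨0, fun n hn v => ?_⟩
  obtain ⟨m, rfl⟩ : ∃ m, n = m + 1 := ⟨n - 1, by omega⟩
  have hproj : Projective (triv k A) := HaT_proj hcomm h
  exact Ext.eq_zero_of_projective (P := triv k A) (Y := N) v

/-- A form of the theorem of Cartier: if `z` is an `ε`-derivation of a commutative
finite-dimensional Hopf algebra in characteristic 0 then `z = 0`. Suppose `z ≠ 0`; choose `a` with
`ε a = 0`, `z a = 1`. `D = (id ⊗ z) Δ` is a derivation of `A` with `ε (D b) = z b`. Let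
`m = A⁺`; `D (m^(j+1)) ⊆ m^j`, and `D^N (a^N) ∈ N! + m` (induction: `D^j(a^N) ∈
N (N-1) … (N-j+1) a^(N-j) (D a)^j + m^(N-j+1)`). So `a^N ∉ m^(N+1)` for all `N`, and the chain of
ideals `m^N` is strictly decreasing, a contradiction (`A` is finite-dimensional). -/
theorem eps_derivation_eq_zero [CharZero k] (hcomm : ∀ a b : A, a * b = b * a) (z : A →ₗ[k] k)
    (hz : ∀ a b, z (a * b) = counit (R := k) a * z b + z a * counit (R := k) b) : z = 0 := by
  refine LinearMap.ext fun a => ?_
  rw [LinearMap.zero_apply, ← HaT_counit_D z a]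
  by_contra hne
  obtain ⟨p, hp0, hp⟩ := Algebra.IsAlgebraic.isAlgebraic (R := k) a
  refine HaT_ne hcomm (HaT_D z) (HaT_D_mul z hz) (Bialgebra.counitAlgHom k A) a hne p.natDegree p
    le_rfl hp0 1 ?_ ?_
  · rw [map_one]
    exact one_ne_zero
  · rw [hp, mul_zero]

/-- (T1b) Characteristic 0: `A⁺ = (A⁺)²` (otherwise there is a linear form `z` with `z 1 = 0`,
`z ((A⁺)²) = 0`, `z ≠ 0`; it is an `ε`-derivation). -/
theorem aug_idem_of_charZero [CharZero k] (hcomm : ∀ a b : A, a * b = b * a) (a : A)
    (ha : counit (R := k) a = 0) : a ∈ Submodule.span k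
      {x | ∃ b c : A, counit (R := k) b = 0 ∧ counit (R := k) c = 0 ∧ x = b * c} := by
  by_contra hcon
  obtain ⟨f, hf, hf'⟩ := Submodule.exists_dual_map_eq_bot_of_notMem hcon inferInstance
  have hS : ∀ b c : A, counit (R := k) b = 0 → counit (R := k) c = 0 → f (b * c) = 0 := by
    intro b c hb hc
    have h1 : f (b * c) ∈ (Submodule.span k {x : A | ∃ b c : A, counit (R := k) b = 0 ∧
        counit (R := k) c = 0 ∧ x = b * c}).map f :=
      Submodule.mem_map_of_mem (Submodule.subset_span ⟨b, c, hb, hc, rfl⟩)
    rw [hf'] at h1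
    exact (Submodule.mem_bot k).1 h1
  have hz := eps_derivation_eq_zero hcomm
    (f ∘ₗ (LinearMap.id - (LinearMap.toSpanSingleton k A 1) ∘ₗ counit)) fun b c => by
      simp only [LinearMap.comp_apply, LinearMap.sub_apply, LinearMap.id_apply,
        LinearMap.toSpanSingleton_apply, Bialgebra.counit_mul]
      have h1 := hS (b - counit (R := k) b • 1) (c - counit (R := k) c • 1)
        (by rw [map_sub, map_smul, Bialgebra.counit_one, smul_eq_mul, mul_one, sub_self])
        (by rw [map_sub, map_smul, Bialgebra.counit_one, smul_eq_mul, mul_one, sub_self])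
      have h2 : (b - counit (R := k) b • (1 : A)) * (c - counit (R := k) c • (1 : A)) =
          b * c - counit (R := k) c • b - counit (R := k) b • c +
            (counit (R := k) b * counit (R := k) c) • (1 : A) := by
        simp only [sub_mul, mul_sub, smul_mul_assoc, mul_smul_comm, one_mul, mul_one, smul_sub,
          smul_smul]
        rw [mul_comm (counit (R := k) c) (counit (R := k) b)]
        abel
      rw [h2] at h1
      simp only [map_add, map_sub, map_smul, smul_eq_mul] at h1 ⊢
      linear_combination h1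
  have h2 := LinearMap.congr_fun hz a
  simp only [LinearMap.comp_apply, LinearMap.sub_apply, LinearMap.id_apply,
    LinearMap.toSpanSingleton_apply, ha, zero_smul, sub_zero, LinearMap.zero_apply] at h2
  exact hf h2

end Pool.Agent.H26.FG
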