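import Pool.Agent.H26.FG.HaKa
import Pool.Agent.H26.FG.HaKb
import Pool.Agent.H26.FG.HaKc
import Pool.Agent.H26.FG.HaKd
import Pool.Agent.H26.FG.HaKe
import Pool.Agent.H26.FG.HaT

/-!
# Module HaKf: commutative Hopf algebras of height one
-/

open CategoryTheory Abelian TensorProduct Coalgebra HopfAlgebra
open scoped ModuleCat

universe u

namespace Pool.Agent.H26.FG

variable {k : Type u} [Field k]

/-- Elementary abelian groups. Induction on `n`: `n = 0` by `GN_empty_of_idem` (the augmentation ideal is `0`),
`n + 1` by `SymGN.of_algEquiv` (`MonoidAlgebra.domCongr`), `SymGN.prod` and `SymGN.zmod`. -/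
theorem SymGN.elementary (k : Type u) [Field k] (p : ℕ) [Fact p.Prime] (n : ℕ) :
    SymGN k (MonoidAlgebra k (Multiplicative (Fin n → ZMod p))) := by
  induction n with
  | zero =>
    refine ⟨0, fun i => i.elim0, fun i => i.elim0, fun i => i.elim0, fun N hN => ?_⟩
    rw [Set.range_eq_empty]
    refine GN_empty_of_idem (fun a b => mul_comm a b) (fun a ha => ?_) N
    have h : ∀ a : MonoidAlgebra k (Multiplicative (Fin 0 → ZMod p)),
        a = counit (R := k) a • 1 := by
      intro a
      refine HaKc_ind (P := fun a : MonoidAlgebra k (Multiplicative (Fin 0 → ZMod p)) =>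
        a = counit (R := k) a • 1) ?_ ?_ ?_ a ?_
      · intro a b ha hb
        rw [map_add, add_smul, ← ha, ← hb]
      · intro r a ha
        rw [map_smul, smul_assoc, ← ha]
      · intro g
        rw [MonoidAlgebra.counit_single, CommSemiring.counit_apply, one_smul,
          Subsingleton.elim g 1]
        rfl
      · simp
    rw [h a, ha, zero_smul]
    exact Submodule.zero_mem _
  | succ n ih =>
    let e : Multiplicative (Fin (n + 1) → ZMod p) ≃*
        Multiplicative (Fin n → ZMod p) × Multiplicative (ZMod p) :=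
      { toFun := fun f => (Multiplicative.ofAdd (fun i => f.toAdd i.succ),
          Multiplicative.ofAdd (f.toAdd 0))
        invFun := fun g => Multiplicative.ofAdd (Fin.cons g.2.toAdd g.1.toAdd)
        left_inv := fun f => by
          rw [← ofAdd_toAdd f]
          exact congrArg Multiplicative.ofAdd (Fin.cons_self_tail f.toAdd)
        right_inv := fun g => rfl
        map_mul' := fun _ _ => rfl }
    exact SymGN.of_algEquiv (MonoidAlgebra.domCongr k k e)
      (fun a => MonoidAlgebra.counit_domCongr e a) (SymGN.prod ih (SymGN.zmod k p))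

lemma HaKf_nil {A : Type u} [CommRing A] [HopfAlgebra k A] [Module.Finite k A] (p : ℕ)
    (hp : ∀ a : A, counit (R := k) a = 0 → a ^ p = 0) :
    IsNilpotent (RingHom.ker (Bialgebra.counitAlgHom k A)) := by
  have hN : IsNoetherianRing A := IsNoetherianRing.of_finite k A
  rw [Ideal.FG.isNilpotent_iff_le_nilradical (IsNoetherian.noetherian _)]
  exact fun a ha => ⟨p, hp a ha⟩

/-- the powers of `1 + x i` as a homomorphism -/
noncomputable def HaKf_u {A : Type u} [CommRing A] (p : ℕ) [Fact p.Prime] (n : ℕ) (x : Fin n → A)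
    (hx : ∀ i, (1 + x i) ^ p = 1) : Multiplicative (Fin n → ZMod p) →* A where
  toFun g := ∏ i, (1 + x i) ^ (g.toAdd i).val
  map_one' := by simp
  map_mul' g h := by
    rw [← Finset.prod_mul_distrib]
    refine Finset.prod_congr rfl fun i _ => ?_
    rw [← pow_add, toAdd_mul, Pi.add_apply, ZMod.val_add, ← pow_eq_pow_mod _ (hx i)]

lemma HaKf_iso {A : Type u} [CommRing A] [HopfAlgebra k A] [Module.Finite k A]
    (p : ℕ) [Fact p.Prime] [CharP k p] (hp : ∀ a : A, counit (R := k) a = 0 → a ^ p = 0) :
    ∃ (n : ℕ) (e : A ≃ₐ[k] MonoidAlgebra k (Multiplicative (Fin n → ZMod p))),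
      ∀ a, counit (R := k) (e a) = counit (R := k) a := by
  classical
  have : Nontrivial A := (Bialgebra.counitAlgHom k A).toRingHom.domain_nontrivial
  have : CharP A p := charP_of_injective_algebraMap (algebraMap k A).injective p
  obtain ⟨n, x, z, hx0, hzx, hz, hgen⟩ := exists_dual_bases (Bialgebra.counitAlgHom k A)
  have hnil := HaKf_nil (k := k) (A := A) p hp
  have hloc : ∀ a : A, Bialgebra.counitAlgHom k A a ≠ 0 → IsUnit a := by
    intro a ha
    have h1 : IsNilpotent (a - algebraMap k A (counit (R := k) a)) := by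
      refine ⟨p, hp _ ?_⟩
      rw [map_sub, Bialgebra.counit_algebraMap, sub_self]
    have h2 : IsUnit (algebraMap k A (counit (R := k) a)) :=
      (IsUnit.mk0 _ ha).map (algebraMap k A)
    have h3 := h1.isUnit_add_left_of_commute h2 (Commute.all _ _)
    rwa [add_sub_cancel] at h3
  obtain ⟨D, hD, hDx⟩ := exists_eigen_derivations (Bialgebra.counitAlgHom k A) hloc n x
    (fun i => HaT_D (z i)) (fun i a b => HaT_D_mul (z i) (hz i) a b)
    (fun i j => (HaT_counit_D (z i) (x j)).trans (hzx i j))
  have hind := linearIndependent_units (Bialgebra.counitAlgHom k A) p n x hx0 D hD hDx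
  have hxp : ∀ i, (1 + x i) ^ p = 1 := by
    intro i
    rw [add_pow_char, one_pow, hp _ (hx0 i), add_zero]
  let u := HaKf_u p n x hxp
  let φ : MonoidAlgebra k (Multiplicative (Fin n → ZMod p)) →ₐ[k] A :=
    MonoidAlgebra.lift k A (Multiplicative (Fin n → ZMod p)) u
  have hφ : ∀ g, φ (MonoidAlgebra.single g 1) = u g := fun g => by
    rw [MonoidAlgebra.lift_single, one_smul]
  have hcou : ∀ b, counit (R := k) (φ b) = counit (R := k) b := by
    intro b
    refine HaKc_ind (P := fun b => counit (R := k) (φ b) = counit (R := k) b) ?_ ?_ ?_ b ?_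
    · intro a b ha hb
      rw [map_add, map_add, map_add, ha, hb]
    · intro r a ha
      rw [map_smul, map_smul, map_smul, ha]
    · intro g
      rw [hφ, MonoidAlgebra.counit_single, CommSemiring.counit_apply]
      change Bialgebra.counitAlgHom k A (∏ i, (1 + x i) ^ (g.toAdd i).val) = 1
      rw [map_prod]
      refine Finset.prod_eq_one fun i _ => ?_
      rw [map_pow, map_add, map_one, hx0, add_zero, one_pow]
    · simp
  have hinj : Function.Injective φ := by
    have hind2 : LinearIndependent k (fun g : Multiplicative (Fin n → ZMod p) => u g) :=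
      hind.comp Multiplicative.toAdd Multiplicative.toAdd.injective
    have hφ2 : ∀ b, φ b = Finsupp.linearCombination k
        (fun g : Multiplicative (Fin n → ZMod p) => u g) b.coeff := fun b => by
      rw [Finsupp.linearCombination_apply]
      exact MonoidAlgebra.lift_apply u b
    intro a b hab
    rw [hφ2, hφ2] at hab
    exact MonoidAlgebra.ext (hind2 hab)
  have hsurj : Function.Surjective φ := by
    have h := subalgebra_eq_top (Bialgebra.counitAlgHom k A) hnil φ.range
      (fun a ha => ⟨∑ i, z i a • x i, Subalgebra.sum_mem _ fun i _ => Subalgebra.smul_mem _ ?_ _,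
        hgen a ha⟩)
    · exact AlgHom.range_eq_top φ |>.1 h
    · refine ⟨MonoidAlgebra.single (Multiplicative.ofAdd (Pi.single i 1)) 1 - 1, ?_⟩
      change φ _ = _
      rw [map_sub, map_one, hφ]
      change (∏ j, (1 + x j) ^ ((Pi.single i 1 : Fin n → ZMod p) j).val) - 1 = x i
      rw [Finset.prod_eq_single_of_mem i (Finset.mem_univ i)]
      · rw [Pi.single_eq_same, ZMod.val_one, pow_one, add_sub_cancel_left]
      · intro j _ hj
        rw [Pi.single_eq_of_ne hj, ZMod.val_zero, pow_zero]
  refine ⟨n, (AlgEquiv.ofBijective φ ⟨hinj, hsurj⟩).symm, fun a => ?_⟩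
  rw [← hcou]
  exact congrArg (counit (R := k)) ((AlgEquiv.ofBijective φ ⟨hinj, hsurj⟩).apply_symm_apply a)

/-- (K1) A commutative Hopf algebra of height one is, as an augmented algebra, the group algebra of an
elementary abelian group. -/
theorem exists_elementary_iso {A : Type u} [Ring A] [HopfAlgebra k A] [Module.Finite k A]
    (p : ℕ) [Fact p.Prime] [CharP k p]
    (hcomm : ∀ a b : A, a * b = b * a) (hp : ∀ a : A, counit (R := k) a = 0 → a ^ p = 0) :
    ∃ (n : ℕ) (e : A ≃ₐ[k] MonoidAlgebra k (Multiplicative (Fin n → ZMod p))),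
      ∀ a, counit (R := k) (e a) = counit (R := k) a := by
  let _ : CommRing A := { (inferInstance : Ring A) with mul_comm := hcomm }
  exact HaKf_iso p hp

/-- (K2) A commutative Hopf algebra of height one: `Ext_A(k, N)` is noetherian over finitely many
classes of symmetric normalised 2-cocycles. -/
theorem exists_sym_GN {A : Type u} [Ring A] [HopfAlgebra k A] [Module.Finite k A]
    (p : ℕ) [Fact p.Prime] [CharP k p]
    (hcomm : ∀ a b : A, a * b = b * a) (hp : ∀ a : A, counit (R := k) a = 0 → a ^ p = 0) :
    ∃ (n : ℕ) (f : Fin n → Cocycle₂ (Bialgebra.counitAlgHom k A)),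
      (∀ i a b, (f i).fn a b = (f i).fn b a) ∧ (∀ i, (f i).fn 1 1 = 0) ∧
      ∀ N : ModuleCat.{u} A, Module.Finite k N →
        (EGP k (triv k A) N).GN (Set.range fun i => (⟨2, cls₂ (f i)⟩ : Cls (triv k A))) := by
  obtain ⟨n, e, he⟩ := exists_elementary_iso p hcomm hp
  exact SymGN.of_algEquiv e he (SymGN.elementary k p n)

end Pool.Agent.H26.FG
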