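import Pool.Agent.H26.FG.KT

/-!
# Module HaL: extension of symmetric 2-cocycles from a central Hopf subalgebra (K3)
-/

open TensorProduct Coalgebra HopfAlgebra

universe u

namespace Pool.Agent.H26.FG

variable {k : Type u} [Field k] {A C B : Type u} [Ring A] [HopfAlgebra k A] [Module.Finite k A]
  [Ring C] [HopfAlgebra k C] [Module.Finite k C] [Ring B] [HopfAlgebra k B] [Module.Finite k B]

omit [Module.Finite k A] [Module.Finite k C] in
lemma HaL_counit (ι : A →ₐc[k] C) (a : A) : counit (R := k) (ι a) = counit (R := k) a :=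
  CoalgHomClass.counit_comp_apply ι a

omit [Module.Finite k A] [Module.Finite k C] in
/-- the bilinear form, abstractly -/
lemma HaL_form {ι : A →ₐc[k] C} (hinj : Function.Injective ι)
    (hcentral : ∀ (a : A) (c : C), ι a * c = c * ι a)
    (f : Cocycle₂ (Bialgebra.counitAlgHom k A)) (hf : ∀ a b, f.fn a b = f.fn b a)
    (hf1 : f.fn 1 1 = 0) {I : Type} [Fintype I] (E : C →ₗ[k] A) (v : I → C)
    (φ : I → C →ₗ[k] A) (hE : ∀ a c, E (ι a * c) = a * E c) (hE1 : E 1 = 1)
    (hEε : ∀ c, counit (R := k) (E c) = counit (R := k) c)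
    (hφ : ∀ i a c, φ i (ι a * c) = a * φ i c)
    (hs : ∀ c, ∑ i, ι (φ i c) * v i = c)
    (hε : ∀ c, ∑ i, counit (R := k) (v i) • φ i c = E c)
    (h11 : ∀ i j, f.fn (φ i 1 * φ j 1) (E (v i * v j)) = 0) :
    ∃ (F : C →ₗ[k] C →ₗ[k] k),
      (∀ a b, F (ι a) (ι b) = f.fn a b) ∧
      (∀ a x y, F (ι a * x) y = counit (R := k) a * F x y + f.fn a (E (x * y)) -
        f.fn a (E x) * counit (R := k) y) ∧
      (∀ a x y, F x (ι a * y) = counit (R := k) a * F x y + f.fn a (E (x * y)) -
        counit (R := k) x * f.fn a (E y)) := by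
  have hcomm : ∀ a b : A, a * b = b * a := by
    intro a b
    apply hinj
    rw [map_mul, map_mul, hcentral]
  have hcoc : ∀ a b c : A, f.fn (a * b) c =
      counit (R := k) a * f.fn b c + f.fn a (b * c) - f.fn a b * counit (R := k) c := by
    intro a b c
    have h := f.cocycle a b c
    simp only [Bialgebra.counitAlgHom_apply] at h
    linear_combination -h
  have hf0 : ∀ a : A, f.fn a 1 = 0 := by
    intro a
    have h := hcoc a 1 1
    rw [mul_one, mul_one, hf1, Bialgebra.counit_one] at h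
    linear_combination h
  have hEι : ∀ a, E (ι a) = a := by
    intro a
    have h := hE a 1
    rwa [mul_one, hE1, mul_one] at h
  let F : C →ₗ[k] C →ₗ[k] k := f.fn.compl₁₂ E E +
    ∑ i, ∑ j, ((LinearMap.mul k A).compl₁₂ (φ i) (φ j)).compr₂ (f.fn.flip (E (v i * v j)))
  have hF : ∀ x y, F x y = f.fn (E x) (E y) +
      ∑ i, ∑ j, f.fn (φ i x * φ j y) (E (v i * v j)) := by
    intro x y
    simp only [F, LinearMap.add_apply, LinearMap.sum_apply, LinearMap.compl₁₂_apply,
      LinearMap.compr₂_apply, LinearMap.flip_apply, LinearMap.mul_apply']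
  have hprod : ∀ x y, ∑ i, ∑ j, φ i x * φ j y * E (v i * v j) = E (x * y) := by
    intro x y
    conv_rhs => rw [← hs x, ← hs y, Finset.sum_mul_sum]
    rw [map_sum]
    refine Finset.sum_congr rfl fun i _ => ?_
    rw [map_sum]
    refine Finset.sum_congr rfl fun j _ => ?_
    have : ι (φ i x) * v i * (ι (φ j y) * v j) = ι (φ i x) * (ι (φ j y) * (v i * v j)) := by
      rw [mul_assoc, ← mul_assoc (v i), ← hcentral, mul_assoc]
    rw [this, hE, hE, mul_assoc]
  have hprod2 : ∀ x y, ∑ i, ∑ j, counit (R := k) (v i * v j) • (φ i x * φ j y) = E x * E y := by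
    intro x y
    rw [← hε x, ← hε y, Finset.sum_mul_sum]
    refine Finset.sum_congr rfl fun i _ => Finset.sum_congr rfl fun j _ => ?_
    rw [Bialgebra.counit_mul, smul_mul_smul_comm]
  have key : ∀ a x y, ∑ i, ∑ j, f.fn (a * (φ i x * φ j y)) (E (v i * v j)) =
      counit (R := k) a * ∑ i, ∑ j, f.fn (φ i x * φ j y) (E (v i * v j)) +
        f.fn a (E (x * y)) - f.fn a (E x * E y) := by
    intro a x y
    rw [← hprod x y, ← hprod2 x y]
    simp only [map_sum, map_smul, Finset.mul_sum, ← Finset.sum_add_distrib,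
      ← Finset.sum_sub_distrib]
    refine Finset.sum_congr rfl fun i _ => Finset.sum_congr rfl fun j _ => ?_
    rw [hcoc, hEε, smul_eq_mul]
    ring
  refine ⟨F, ?_, ?_, ?_⟩
  · intro a b
    rw [hF, hEι, hEι]
    have h1 : ∑ i, ∑ j, f.fn (φ i (ι a) * φ j (ι b)) (E (v i * v j)) = 0 := by
      have h2 : ∀ i, φ i (ι a) = a * φ i 1 := fun i => by rw [← hφ, mul_one]
      have h3 : ∀ i, φ i (ι b) = b * φ i 1 := fun i => by rw [← hφ, mul_one]
      have h4 : ∀ i j, f.fn (φ i (ι a) * φ j (ι b)) (E (v i * v j)) =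
          f.fn ((a * b) * (φ i 1 * φ j 1)) (E (v i * v j)) := by
        intro i j
        rw [h2, h3]
        congr 2
        rw [mul_assoc, ← mul_assoc (φ i 1), hcomm (φ i 1) b, mul_assoc, mul_assoc]
      simp only [h4]
      rw [key, mul_one, hE1, hf0, mul_one, hf0]
      have h5 : ∑ i, ∑ j, f.fn (φ i 1 * φ j 1) (E (v i * v j)) = 0 :=
        Finset.sum_eq_zero fun i _ => Finset.sum_eq_zero fun j _ => h11 i j
      rw [h5]
      ring
    rw [h1, add_zero]
  · intro a x y
    rw [hF, hF, hE]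
    have h1 : ∀ i j, f.fn (φ i (ι a * x) * φ j y) (E (v i * v j)) =
        f.fn (a * (φ i x * φ j y)) (E (v i * v j)) := by
      intro i j
      rw [hφ, mul_assoc]
    simp only [h1]
    rw [key, hcoc, hEε]
    ring
  · intro a x y
    rw [hF, hF, hE]
    have h1 : ∀ i j, f.fn (φ i x * φ j (ι a * y)) (E (v i * v j)) =
        f.fn (a * (φ i x * φ j y)) (E (v i * v j)) := by
      intro i j
      rw [hφ, ← mul_assoc, hcomm (φ i x) a, mul_assoc]
    simp only [h1]
    rw [key, hf (E x) (a * E y), hcoc, hEε, hcomm (E y) (E x), hf (E y) (E x)]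
    ring

/-- A normalised dual basis: from `E` (`exists_E`) and a left dual basis `(v i, φ i)` put
`v' i = v i - ι (E (v i))`, `φ' i c = φ i (c - ι (E c))`. -/
theorem exists_normal_dual_basis {ι : A →ₐc[k] C} {π : C →ₐc[k] B} (hex : HopfExact ι π) :
    ∃ (E : C →ₗ[k] A) (n : ℕ) (v : Fin n → C) (φ : Fin n → C →ₗ[k] A),
      (∀ a c, E (ι a * c) = a * E c) ∧ E 1 = 1 ∧
      (∀ c, counit (R := k) (E c) = counit (R := k) c) ∧
      (∀ i a c, φ i (ι a * c) = a * φ i c) ∧ (∀ i, φ i 1 = 0) ∧
      (∀ i, counit (R := k) (v i) = 0) ∧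
      ∀ c, ι (E c) + ∑ i, ι (φ i c) * v i = c := by
  obtain ⟨E, hE, hE1, hEε⟩ := hex.exists_E
  obtain ⟨n, w, φ, h1, h2⟩ := hex.exists_dual_basis_left
  have hEι : ∀ a, E (ι a) = a := by
    intro a
    have h := hE a 1
    rwa [mul_one, hE1, mul_one] at h
  let P : C →ₗ[k] C := LinearMap.id - KT_il ι ∘ₗ E
  have hP : ∀ c, P c = c - ι (E c) := fun c => rfl
  refine ⟨E, n, fun i => w i - ι (E (w i)), fun i => φ i ∘ₗ P, hE, hE1, hEε, ?_, ?_, ?_, ?_⟩
  · intro i a c
    simp only [LinearMap.comp_apply, hP]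
    rw [hE, map_mul, ← mul_sub, h1]
  · intro i
    simp only [LinearMap.comp_apply, hP]
    rw [hE1, map_one, sub_self, map_zero]
  · intro i
    rw [map_sub, HaL_counit, hEε, sub_self]
  · intro c
    simp only [LinearMap.comp_apply, hP]
    have h3 : ∑ i, ι (φ i (c - ι (E c))) * (w i - ι (E (w i))) =
        ∑ i, ι (φ i (c - ι (E c))) * w i - ι (E (∑ i, ι (φ i (c - ι (E c))) * w i)) := by
      rw [map_sum, map_sum, ← Finset.sum_sub_distrib]
      refine Finset.sum_congr rfl fun i _ => ?_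
      rw [mul_sub, hE, map_mul]
    rw [h3, h2, map_sub, hEι, sub_self, map_zero]
    abel

/-- The bilinear form: with `v_0 = 1`, `φ_0 = E` (index `none`)
`F(x, y) = ∑ i j, [f(φ_i x, φ_j y) ε(v_i v_j) + f(φ_i x φ_j y, E(v_i v_j))]`.
The two formulas follow from the cocycle condition, `A` central, `f` symmetric,
`∑ φ_i(x) ε(v_i) = E x`, `∑ φ_i(x) φ_j(y) E(v_i v_j) = E(x y)`. -/
theorem exists_form {ι : A →ₐc[k] C} {π : C →ₐc[k] B} (hex : HopfExact ι π)
    (hcentral : ∀ (a : A) (c : C), ι a * c = c * ι a)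
    (f : Cocycle₂ (Bialgebra.counitAlgHom k A)) (hf : ∀ a b, f.fn a b = f.fn b a)
    (hf1 : f.fn 1 1 = 0) :
    ∃ (E : C →ₗ[k] A) (F : C →ₗ[k] C →ₗ[k] k),
      (∀ c, counit (R := k) (E c) = counit (R := k) c) ∧
      (∀ a c, E (ι a * c) = a * E c) ∧
      (∀ a b, F (ι a) (ι b) = f.fn a b) ∧
      (∀ a x y, F (ι a * x) y = counit (R := k) a * F x y + f.fn a (E (x * y)) -
        f.fn a (E x) * counit (R := k) y) ∧
      (∀ a x y, F x (ι a * y) = counit (R := k) a * F x y + f.fn a (E (x * y)) -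
        counit (R := k) x * f.fn a (E y)) := by
  obtain ⟨E, n, v, φ, hE, hE1, hEε, hφ, hφ1, hv, hs⟩ := exists_normal_dual_basis hex
  obtain ⟨F, h1, h2, h3⟩ := HaL_form (I := Option (Fin n)) hex.inj hcentral f hf hf1 E
    (fun o => o.elim 1 v) (fun o => o.elim E φ) hE hE1 hEε (by
      rintro (_ | i) a c
      · exact hE a c
      · exact hφ i a c) (by
      intro c
      rw [Fintype.sum_option]
      simpa using hs c) (by
      intro c
      rw [Fintype.sum_option]
      simp [hv]) (by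
      rintro (_ | i) (_ | j)
      · simp [hE1, hf1]
      · simp [hφ1]
      · simp [hφ1]
      · simp [hφ1])
  exact ⟨E, F, hEε, hE, h1, h2, h3⟩

/-- A trilinear form `T` on `C` with `T(a x, y, z) = T(x, a y, z) = T(x, y, a z) = ε(a) T(x, y, z)`
is a finite sum of products of linear forms that factor through `π` (`ker_right`: the kernel of
`π` is spanned by the `ι a * c` with `ε a = 0`; so `T` factors through `B ⊗ B ⊗ B`). -/
theorem exists_sum_of_trilinear {ι : A →ₐc[k] C} {π : C →ₐc[k] B} (hex : HopfExact ι π)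
    (T : C →ₗ[k] C →ₗ[k] C →ₗ[k] k)
    (h1 : ∀ a x y z, T (ι a * x) y z = counit (R := k) a * T x y z)
    (h2 : ∀ a x y z, T x (ι a * y) z = counit (R := k) a * T x y z)
    (h3 : ∀ a x y z, T x y (ι a * z) = counit (R := k) a * T x y z) :
    ∃ (n : ℕ) (u v w : Fin n → B →ₗ[k] k),
      ∀ r s t : C, T r s t = ∑ l, u l (π r) * v l (π s) * w l (π t) := by
  let p : C →ₗ[k] B := (π : C →ₐ[k] B).toLinearMap
  have hp : ∀ c, p c = π c := fun c => rfl
  obtain ⟨σ, hσ⟩ := p.exists_rightInverse_of_surjective (LinearMap.range_eq_top.2 hex.surj)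
  have hσ' : ∀ b, π (σ b) = b := fun b => congrArg (fun g : B →ₗ[k] B => g b) hσ
  have hker : ∀ (g : C →ₗ[k] k), (∀ a x, g (ι a * x) = counit (R := k) a * g x) →
      ∀ c, g c = g (σ (π c)) := by
    intro g hg c
    rw [← sub_eq_zero, ← map_sub]
    have h0 : π (c - σ (π c)) = 0 := by rw [map_sub, hσ', sub_self]
    have hy := hex.ker_right _ h0
    generalize c - σ (π c) = y at hy
    induction hy using Submodule.span_induction with
    | mem w hw =>
      obtain ⟨c', a, ha, rfl⟩ := hw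
      rw [hg, ha, zero_mul]
    | zero => rw [map_zero]
    | add u w _ _ hu hw => rw [map_add, hu, hw, add_zero]
    | smul s u _ hu => rw [map_smul, hu, smul_zero]
  have hT : ∀ r s t, T r s t = T (σ (π r)) (σ (π s)) (σ (π t)) := by
    intro r s t
    have e1 := hker ((T.flip s).flip t) (fun a x => h1 a x s t) r
    have e2 := hker ((T (σ (π r))).flip t) (fun a x => h2 a (σ (π r)) x t) s
    have e3 := hker (T (σ (π r)) (σ (π s))) (fun a x => h3 a (σ (π r)) (σ (π s)) x) t
    simp only [LinearMap.flip_apply] at e1 e2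
    rw [e1, e2, e3]
  let b := Module.finBasis k B
  let m := Module.finrank k B
  let e : Fin m × Fin m × Fin m ≃ Fin (Fintype.card (Fin m × Fin m × Fin m)) :=
    Fintype.equivFin _
  refine ⟨Fintype.card (Fin m × Fin m × Fin m),
    fun l => T (σ (b (e.symm l).1)) (σ (b (e.symm l).2.1)) (σ (b (e.symm l).2.2)) •
      b.coord (e.symm l).1, fun l => b.coord (e.symm l).2.1, fun l => b.coord (e.symm l).2.2, ?_⟩
  intro r s t
  rw [Equiv.sum_comp e.symm (fun l : Fin m × Fin m × Fin m =>
    (T (σ (b l.1)) (σ (b l.2.1)) (σ (b l.2.2)) • b.coord l.1) (π r) * b.coord l.2.1 (π s) *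
      b.coord l.2.2 (π t))]
  rw [Fintype.sum_prod_type]
  simp only [Fintype.sum_prod_type, LinearMap.smul_apply, smul_eq_mul, Module.Basis.coord_apply]
  rw [hT]
  have hexp : ∀ (g : B →ₗ[k] k) (x : B), g x = ∑ i, b.repr x i * g (b i) := by
    intro g x
    conv_lhs => rw [← b.sum_repr x]
    simp only [map_sum, map_smul, smul_eq_mul]
  have e1 := hexp (((T.flip (σ (π s))).flip (σ (π t))) ∘ₗ σ) (π r)
  simp only [LinearMap.comp_apply, LinearMap.flip_apply] at e1
  rw [e1]
  refine Finset.sum_congr rfl fun i _ => ?_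
  have e2 := hexp (((T (σ (b i))).flip (σ (π t))) ∘ₗ σ) (π s)
  simp only [LinearMap.comp_apply, LinearMap.flip_apply] at e2
  rw [e2, Finset.mul_sum]
  refine Finset.sum_congr rfl fun j _ => ?_
  have e3 := hexp ((T (σ (b i)) (σ (b j))) ∘ₗ σ) (π t)
  simp only [LinearMap.comp_apply] at e3
  rw [e3, Finset.mul_sum, Finset.mul_sum]
  refine Finset.sum_congr rfl fun l _ => ?_
  ring

omit [Module.Finite k C] in
/-- the coboundary as a trilinear map -/
noncomputable def HaL_dd (F : C →ₗ[k] C →ₗ[k] k) : C →ₗ[k] C →ₗ[k] C →ₗ[k] k where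
  toFun r := LinearMap.mk₂ k (fun s t => counit (R := k) r * F s t - F (r * s) t +
      F r (s * t) - F r s * counit (R := k) t)
    (fun s s' t => by simp only [map_add, LinearMap.add_apply, mul_add, add_mul]; ring)
    (fun c s t => by
      simp only [map_smul, LinearMap.smul_apply, mul_smul_comm, smul_mul_assoc, smul_eq_mul]
      ring)
    (fun s t t' => by simp only [map_add, mul_add]; ring)
    (fun c s t => by simp only [map_smul, mul_smul_comm, smul_eq_mul]; ring)
  map_add' r r' := by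
    ext s t
    simp only [LinearMap.mk₂_apply, LinearMap.add_apply, map_add, add_mul]
    ring
  map_smul' c r := by
    ext s t
    simp only [LinearMap.mk₂_apply, LinearMap.smul_apply, map_smul, smul_mul_assoc,
      smul_eq_mul, RingHom.id_apply]
    ring

omit [Module.Finite k C] in
lemma HaL_dd_apply (F : C →ₗ[k] C →ₗ[k] k) (r s t : C) : HaL_dd F r s t =
    counit (R := k) r * F s t - F (r * s) t + F r (s * t) - F r s * counit (R := k) t := rfl

/-- (K3) A symmetric 2-cocycle of a central Hopf subalgebra `A` extends to a bilinear form `F` on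
`C` whose coboundary is in `L ⊗ L ⊗ L`, `L` the dual of `B`. From `exists_form` and
`exists_sum_of_trilinear` for `T = d F` (check `h1`, `h2`, `h3` with the two formulas; centrality
moves `a` to the front). -/
theorem exists_lift {ι : A →ₐc[k] C} {π : C →ₐc[k] B} (hex : HopfExact ι π)
    (hcentral : ∀ (a : A) (c : C), ι a * c = c * ι a)
    (hnil : ∀ a : A, counit (R := k) a = 0 → IsNilpotent a)
    (f : Cocycle₂ (Bialgebra.counitAlgHom k A)) (hf : ∀ a b, f.fn a b = f.fn b a)
    (hf1 : f.fn 1 1 = 0) :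
    ∃ (F : C →ₗ[k] C →ₗ[k] k) (n : ℕ) (u v w : Fin n → B →ₗ[k] k),
      (∀ a b, F (ι a) (ι b) = f.fn a b) ∧
      ∀ r s t : C, counit (R := k) r * F s t - F (r * s) t + F r (s * t) -
        F r s * counit (R := k) t = ∑ l, u l (π r) * v l (π s) * w l (π t) := by
  obtain ⟨E, F, hEε, hE, h0, h1, h2⟩ := exists_form hex hcentral f hf hf1
  have hc1 : ∀ (a : A) (x y : C), x * (ι a * y) = ι a * (x * y) := by
    intro a x y
    rw [← mul_assoc, ← hcentral, mul_assoc]
  obtain ⟨n, u, v, w, h⟩ := exists_sum_of_trilinear hex (HaL_dd F)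
    (by
      intro a r s t
      simp only [HaL_dd_apply, mul_assoc, h1, Bialgebra.counit_mul, HaL_counit]
      ring)
    (by
      intro a r s t
      simp only [HaL_dd_apply, mul_assoc, hc1, h1, h2]
      ring)
    (by
      intro a r s t
      simp only [HaL_dd_apply, mul_assoc, hc1, h2, Bialgebra.counit_mul, HaL_counit]
      ring)
  exact ⟨F, n, u, v, w, h0, h⟩

end Pool.Agent.H26.FG
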