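import Pool.Agent.H26.FG.HbDefs

/-!
# Module HbA: functionals that factor through `π`; derivations

`factor_pi`: by `ker_right` an element of `ker π` is a sum of elements `ι a * c'` with `ε a = 0`, so `f` vanishes on `ker π`; compose `f` with a
linear section of the surjective `π` (`LinearMap.exists_rightInverse_of_surjective`).
`der_mul_left`: `E (ι a * c) = a * E c`, `ε (E c) = ε c`.
`der_mul_right`: `c * ι a = ∑ ι (ad(c₁) a) * c₂` (`mul_eq`), so by `der_mul_left`
`z (E (c * ι a)) = ∑ (ε(ad(c₁) a) z(E c₂) + z(ad(c₁) a) ε(c₂))`, with `counit_adA` the first part is `ε(a) z(E c)` and with `TrivH1` the second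
is `∑ ε(c₁) z(a) ε(c₂) = ε(c) z(a)`.
`der_dd`: let `y r s = dd1 (z ∘ E) r s` (bilinear).  By `der_mul_left`: `y (ι a) s = 0`.  The identity
`ε r y(s,t) - y(rs,t) + y(r,st) - y(r,s) ε t = 0` (expand) with `r = ι a` gives `y (ι a * s) t = ε a * y s t`; with `s = ι a`:
`y (r, ι a * t) = y (r * ι a, t) + y (r, ι a) ε t - ε r * y(ι a, t)`, where `y(ι a, t) = 0`, `y (r, ι a) = 0` by `der_mul_right`, and
`y (r * ι a, t) = ∑ y (ι (ad(r₁) a) * r₂, t) = ∑ ε(ad(r₁)a) y(r₂,t) = ε a * y(r,t)`.  So `y` factors through `π` in both variables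
(`factor_pi` twice: first for `f = y` with values in `C →ₗ k`, then for the flipped map).
-/

open CategoryTheory TensorProduct Coalgebra HopfAlgebra

universe u

namespace Pool.Agent.H26.FG

variable {k : Type u} [Field k] {A C B : Type u} [Ring A] [HopfAlgebra k A]
  [Ring C] [HopfAlgebra k C] [Ring B] [HopfAlgebra k B] {ι : A →ₐc[k] C} {π : C →ₐc[k] B}

theorem factor_pi_zero (hex : HopfExact ι π) {M : Type*} [AddCommGroup M] [Module k M]
    (f : C →ₗ[k] M) (h : ∀ a c, f (ι a * c) = counit (R := k) a • f c) {c : C} (hc : π c = 0) :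
    f c = 0 := by
  have h1 := hex.ker_right c hc
  refine Submodule.span_induction (p := fun x _ => f x = 0) ?_ ?_ ?_ ?_ h1
  · rintro x ⟨c', a, ha, rfl⟩
    rw [h, ha, zero_smul]
  · exact map_zero f
  · intro x y _ _ hx hy
    rw [map_add, hx, hy, add_zero]
  · intro s x _ hx
    rw [map_smul, hx, smul_zero]

theorem factor_pi (hex : HopfExact ι π) {M : Type*} [AddCommGroup M] [Module k M] (f : C →ₗ[k] M)
    (h : ∀ a c, f (ι a * c) = counit (R := k) a • f c) : ∃ g : B →ₗ[k] M, ∀ c, g (π c) = f c := by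
  obtain ⟨s, hs⟩ := LinearMap.exists_rightInverse_of_surjective
    (π : C →ₐ[k] B).toLinearMap (LinearMap.range_eq_top.2 hex.surj)
  have hs' : ∀ b : B, π (s b) = b := fun b => congrArg (fun g : B →ₗ[k] B => g b) hs
  refine ⟨f ∘ₗ s, fun c => ?_⟩
  have h1 : π (s (π c) - c) = 0 := by rw [map_sub, hs', sub_self]
  have h2 := factor_pi_zero hex f h h1
  rw [map_sub] at h2
  exact sub_eq_zero.1 h2

/-- `π (c * ι a) = ε a • π c` -/
theorem pi_mul (hex : HopfExact ι π) (a : A) (c : C) :
    π (c * ι a) = counit (R := k) a • π c ∧ π (ι a * c) = counit (R := k) a • π c := by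
  constructor
  · rw [map_mul, hex.map_comp, Algebra.algebraMap_eq_smul_one, mul_smul_comm, mul_one]
  · rw [map_mul, hex.map_comp, Algebra.algebraMap_eq_smul_one, smul_mul_assoc, one_mul]

theorem der_mul_left {E : C →ₗ[k] A} (hE : EE ι E) {z : A →ₗ[k] k} (hz : IsDer z) (a : A) (c : C) :
    z (E (ι a * c)) = counit (R := k) a * z (E c) + z a * counit (R := k) c := by
  rw [hE.lin, hz, hE.eps]

theorem HbA_mul (hex : HopfExact ι π) (h1 : TrivH1 ι) {E : C →ₗ[k] A} (hE : EE ι E)
    {z : A →ₗ[k] k} (hz : IsDer z) (a : A) (c t : C) :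
    z (E (c * ι a * t)) = counit (R := k) a * z (E (c * t)) +
      counit (R := k) c * z a * counit (R := k) t := by
  set r := Coalgebra.Repr.arbitrary k c with hr
  have h2 : c * ι a * t = ∑ i ∈ r.index, ι (adA ι (r.left i) a) * (r.right i * t) := by
    rw [hex.mul_eq c a r, Finset.sum_mul]
    exact Finset.sum_congr rfl fun i _ => mul_assoc _ _ _
  have h3 : ∀ i ∈ r.index, z (E (ι (adA ι (r.left i) a) * (r.right i * t))) =
      counit (R := k) a * z (E ((counit (R := k) (r.left i) • r.right i) * t)) +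
        z a * counit (R := k) ((counit (R := k) (r.left i) • r.right i)) * counit (R := k) t := by
    intro i _
    rw [der_mul_left hE hz, hex.counit_adA, h1 z hz, Bialgebra.counit_mul, smul_mul_assoc, map_smul,
      map_smul, map_smul, smul_eq_mul, smul_eq_mul]
    ring
  rw [h2, map_sum, map_sum, Finset.sum_congr rfl h3, Finset.sum_add_distrib, ← Finset.mul_sum,
    ← map_sum, ← map_sum, ← Finset.sum_mul, ← Finset.sum_mul, ← Finset.mul_sum, ← map_sum,
    sum_counit_smul]
  ring

theorem der_mul_right (hex : HopfExact ι π) (h1 : TrivH1 ι) {E : C →ₗ[k] A} (hE : EE ι E)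
    {z : A →ₗ[k] k} (hz : IsDer z) (a : A) (c : C) :
    z (E (c * ι a)) = counit (R := k) a * z (E c) + counit (R := k) c * z a := by
  have h := HbA_mul hex h1 hE hz a c 1
  rwa [mul_one, mul_one, Bialgebra.counit_one, mul_one] at h

theorem der_dd (hex : HopfExact ι π) (h1 : TrivH1 ι) {E : C →ₗ[k] A} (hE : EE ι E)
    {z : A →ₗ[k] k} (hz : IsDer z) :
    ∃ Y : B →ₗ[k] B →ₗ[k] k, ∀ r s, dd1 (z ∘ₗ E) r s = Y (π r) (π s) := by
  set y : C →ₗ[k] C →ₗ[k] k := LinearMap.mk₂ k (fun r s => dd1 (z ∘ₗ E) r s)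
    (fun r r' s => by simp only [dd1, map_add, add_mul]; ring)
    (fun c r s => by
      simp only [dd1, map_smul, smul_mul_assoc, smul_eq_mul]
      ring)
    (fun r s s' => by simp only [dd1, map_add, mul_add]; ring)
    (fun c r s => by
      simp only [dd1, map_smul, mul_smul_comm, smul_eq_mul]
      ring) with hy
  have hya : ∀ r s, y r s = counit (R := k) r * z (E s) - z (E (r * s)) + z (E r) * counit (R := k) s :=
    fun r s => rfl
  have hl : ∀ a r s, y (ι a * r) s = counit (R := k) a * y r s := by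
    intro a r s
    rw [hya, hya, mul_assoc, der_mul_left hE hz, der_mul_left hE hz, Bialgebra.counit_mul,
      Bialgebra.counit_mul, counit_map]
    ring
  have hr : ∀ a r s, y r (ι a * s) = counit (R := k) a * y r s := by
    intro a r s
    rw [hya, hya, ← mul_assoc, HbA_mul hex h1 hE hz, der_mul_left hE hz, Bialgebra.counit_mul,
      counit_map]
    ring
  obtain ⟨Y1, hY1⟩ := factor_pi hex y (fun a c => LinearMap.ext fun s => hl a c s)
  obtain ⟨Y2, hY2⟩ := factor_pi hex Y1.flip (fun a c => LinearMap.ext fun b => by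
    obtain ⟨r, rfl⟩ := hex.surj b
    rw [LinearMap.flip_apply, hY1, hr, LinearMap.smul_apply, LinearMap.flip_apply, hY1, smul_eq_mul])
  refine ⟨Y2.flip, fun r s => ?_⟩
  rw [LinearMap.flip_apply, hY2, LinearMap.flip_apply, hY1]
  rfl

end Pool.Agent.H26.FG
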