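import Pool.Agent.H26.FG.HbA

/-!
# Module HbB: `L'` is closed under the coproduct `l ↦ ((r, s) ↦ l (r s))`

`bilin_sum`: a bilinear form on `V × W`, `V` of finite dimension with basis `b`, is `∑ b.coord i ⊗ Y (b i)`.
`LP.coprod`: induction on `hl`.  `base m`: the bilinear form `m (b b')` on `B` is a finite sum by `bilin_sum` (`B` is finite dimensional),
compose with `π`.  `der z`: by `der_dd` `z(E(rs)) = ε(r) z(E s) + z(E r) ε(s) - Y(π r, π s)`, `ε` is in `L'` (`LP_counit`), `Y` by
`bilin_sum`.  `add`: concatenation (`Fin.append`/ use a finite index type: it is convenient to prove first the version with an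
arbitrary `Finset`/`Fintype` index in `Type`, and to transport to `Fin n` at the end), `smul`: clear.  `mul`: for `Δ r = ∑ r₁ ⊗ r₂`, `Δ s = ∑ s₁ ⊗ s₂`:
`(cv l m)(r s) = ∑ l(r₁ s₁) m(r₂ s₂) = ∑ u_i(r₁) v_i(s₁) u'_j(r₂) v'_j(s₂) = ∑_{i,j} (cv u_i u'_j)(r) (cv v_i v'_j)(s)`
(`Bialgebra.comul_mul`, or `Repr.mul` as in `KT.lean`).
-/

open CategoryTheory TensorProduct Coalgebra HopfAlgebra

universe u

namespace Pool.Agent.H26.FG

variable {k : Type u} [Field k] {A C B : Type u} [Ring A] [HopfAlgebra k A]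
  [Ring C] [HopfAlgebra k C] [Ring B] [HopfAlgebra k B] {ι : A →ₐc[k] C} {π : C →ₐc[k] B}

theorem bilin_sum {V W : Type*} [AddCommGroup V] [Module k V] [Module.Finite k V]
    [AddCommGroup W] [Module k W] (Y : V →ₗ[k] W →ₗ[k] k) :
    ∃ (n : ℕ) (u : Fin n → V →ₗ[k] k) (v : Fin n → W →ₗ[k] k),
      (∀ i, ∃ x : V, v i = Y x) ∧ ∀ a b, Y a b = ∑ i, u i a * v i b := by
  let β := Module.finBasis k V
  refine ⟨Module.finrank k V, fun i => β.coord i, fun i => Y (β i), fun i => ⟨β i, rfl⟩, ?_⟩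
  intro a b
  conv_lhs => rw [← β.sum_repr a]
  simp only [map_sum, map_smul, LinearMap.sum_apply, LinearMap.smul_apply, smul_eq_mul,
    Module.Basis.coord_apply]

/-- the property of `LP.coprod` with an arbitrary finite index type -/
def HbB_P (π : C →ₐc[k] B) (E : C →ₗ[k] A) (l : C →ₗ[k] k) : Prop :=
  ∃ (κ : Type) (_ : Fintype κ) (u v : κ → C →ₗ[k] k), (∀ i, LP π E (u i)) ∧ (∀ i, LP π E (v i)) ∧
    ∀ r s, l (r * s) = ∑ i, u i r * v i s

lemma HbB_base [Module.Finite k B] (π : C →ₐc[k] B) (E : C →ₗ[k] A) (m : B →ₗ[k] k) :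
    HbB_P π E (m ∘ₗ (π : C →ₐ[k] B).toLinearMap) := by
  obtain ⟨n, u, v, -, huv⟩ := bilin_sum ((LinearMap.mul k B).compr₂ m)
  refine ⟨Fin n, inferInstance, fun i => u i ∘ₗ (π : C →ₐ[k] B).toLinearMap,
    fun i => v i ∘ₗ (π : C →ₐ[k] B).toLinearMap, fun i => LP.base _, fun i => LP.base _, ?_⟩
  intro r s
  have h1 := huv (π r) (π s)
  have h2 : (m ∘ₗ (π : C →ₐ[k] B).toLinearMap) (r * s) = m (π r * π s) := by
    show m (π (r * s)) = _
    rw [map_mul]
  rw [h2]
  exact h1

lemma HbB_mul {π : C →ₐc[k] B} {E : C →ₗ[k] A} {l m : C →ₗ[k] k} (hl : HbB_P π E l)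
    (hm : HbB_P π E m) : HbB_P π E (cv l m) := by
  obtain ⟨κ, _, u, v, hu, hv, huv⟩ := hl
  obtain ⟨κ', _, u', v', hu', hv', huv'⟩ := hm
  refine ⟨κ × κ', inferInstance, fun i => cv (u i.1) (u' i.2), fun i => cv (v i.1) (v' i.2),
    fun i => LP.mul _ _ (hu _) (hu' _), fun i => LP.mul _ _ (hv _) (hv' _), ?_⟩
  intro r s
  let ρ := Repr.arbitrary k r
  let σ := Repr.arbitrary k s
  rw [cv_apply l m (r * s) (ρ.mul σ)]
  have h2 : (ρ.mul σ).index = ρ.index ×ˢ σ.index := rfl
  have h3 : ∀ i j, (ρ.mul σ).left (i, j) = ρ.left i * σ.left j := fun _ _ => rfl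
  have h4 : ∀ i j, (ρ.mul σ).right (i, j) = ρ.right i * σ.right j := fun _ _ => rfl
  rw [h2, Finset.sum_product]
  simp only [h3, h4, huv, huv', Fintype.sum_prod_type, cv_apply _ _ r ρ, cv_apply _ _ s σ,
    Finset.sum_mul_sum]
  -- both sides are sums over the four indices
  calc ∑ x ∈ ρ.index, ∑ y ∈ σ.index, ∑ i, ∑ j,
        u i (ρ.left x) * v i (σ.left y) * (u' j (ρ.right x) * v' j (σ.right y))
      = ∑ x ∈ ρ.index, ∑ i, ∑ j, ∑ y ∈ σ.index,
        u i (ρ.left x) * v i (σ.left y) * (u' j (ρ.right x) * v' j (σ.right y)) := by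
        refine Finset.sum_congr rfl fun x _ => ?_
        rw [Finset.sum_comm]
        refine Finset.sum_congr rfl fun i _ => ?_
        rw [Finset.sum_comm]
    _ = ∑ i, ∑ j, ∑ x ∈ ρ.index, ∑ y ∈ σ.index,
        u i (ρ.left x) * v i (σ.left y) * (u' j (ρ.right x) * v' j (σ.right y)) := by
        rw [Finset.sum_comm]
        refine Finset.sum_congr rfl fun i _ => ?_
        rw [Finset.sum_comm]
    _ = _ := by
        refine Finset.sum_congr rfl fun i _ => Finset.sum_congr rfl fun j _ =>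
          Finset.sum_congr rfl fun x _ => Finset.sum_congr rfl fun y _ => ?_
        ring

theorem LP.coprod [Module.Finite k B] (hex : HopfExact ι π) (h1 : TrivH1 ι) {E : C →ₗ[k] A}
    (hE : EE ι E) {l : C →ₗ[k] k} (hl : LP π E l) :
    ∃ (n : ℕ) (u v : Fin n → C →ₗ[k] k), (∀ i, LP π E (u i)) ∧ (∀ i, LP π E (v i)) ∧
      ∀ r s, l (r * s) = ∑ i, u i r * v i s := by
  have key : HbB_P π E l := by
    induction hl with
    | base m => exact HbB_base π E m
    | der z hz =>
      obtain ⟨Y, hY⟩ := der_dd hex h1 hE hz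
      obtain ⟨n, u, v, -, huv⟩ := bilin_sum Y
      refine ⟨Fin n ⊕ Fin 2, inferInstance,
        Sum.elim (fun i => u i ∘ₗ (π : C →ₐ[k] B).toLinearMap)
          ![Coalgebra.counit (R := k) (A := C), z ∘ₗ E],
        Sum.elim (fun i => (-v i) ∘ₗ (π : C →ₐ[k] B).toLinearMap)
          ![z ∘ₗ E, Coalgebra.counit (R := k) (A := C)], ?_, ?_, ?_⟩
      · rintro (i | i)
        · exact LP.base _
        · fin_cases i
          · exact LP_counit π E
          · exact LP.der z hz
      · rintro (i | i)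
        · exact LP.base _
        · fin_cases i
          · exact LP.der z hz
          · exact LP_counit π E
      · intro r s
        have h2 := hY r s
        rw [huv] at h2
        simp only [dd1] at h2
        rw [Fintype.sum_sum_type, Fin.sum_univ_two]
        simp only [Sum.elim_inl, Sum.elim_inr, LinearMap.comp_apply, LinearMap.neg_apply,
          Matrix.cons_val_zero, Matrix.cons_val_one, mul_neg, Finset.sum_neg_distrib]
        have h3 : ∀ c, (π : C →ₐ[k] B).toLinearMap c = π c := fun c => rfl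
        simp only [h3]
        rw [← h2]
        simp only [LinearMap.comp_apply]
        ring
    | add l m hl hm ihl ihm =>
      obtain ⟨κ, _, u, v, hu, hv, huv⟩ := ihl
      obtain ⟨κ', _, u', v', hu', hv', huv'⟩ := ihm
      refine ⟨κ ⊕ κ', inferInstance, Sum.elim u u', Sum.elim v v', ?_, ?_, ?_⟩
      · rintro (i | i)
        · exact hu i
        · exact hu' i
      · rintro (i | i)
        · exact hv i
        · exact hv' i
      · intro r s
        rw [LinearMap.add_apply, huv, huv', Fintype.sum_sum_type]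
        rfl
    | smul c l hl ih =>
      obtain ⟨κ, _, u, v, hu, hv, huv⟩ := ih
      refine ⟨κ, inferInstance, fun i => c • u i, v, fun i => LP.smul c _ (hu i), hv, ?_⟩
      intro r s
      rw [LinearMap.smul_apply, huv, Finset.smul_sum]
      refine Finset.sum_congr rfl fun i _ => ?_
      simp only [LinearMap.smul_apply, smul_eq_mul]
      ring
    | mul l m hl hm ihl ihm => exact HbB_mul ihl ihm
  obtain ⟨κ, _, u, v, hu, hv, huv⟩ := key
  refine ⟨Fintype.card κ, fun i => u ((Fintype.equivFin κ).symm i),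
    fun i => v ((Fintype.equivFin κ).symm i), fun i => hu _, fun i => hv _, ?_⟩
  intro r s
  rw [huv]
  exact ((Fintype.equivFin κ).symm.sum_comp fun i => u i r * v i s).symm

end Pool.Agent.H26.FG
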