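import Pool.Agent.H26.FG.HbDefs

/-!
# Module HbC: a two-sided coideal of a finite dimensional Hopf algebra is stable under the antipode

`antipode_mem`.  Let `Q = C ⧸ J` as a `k`-algebra (quotient ring by a two-sided ideal; `mk : C → Q`).  In the convolution algebra
`W = WithConv (C →ₗ[k] Q)` the element `mk` has the inverse `mk ∘ S`: `∑ mk(c₁) mk(S c₂) = mk(∑ c₁ S(c₂)) = ε(c) 1`
(`HopfAlgebra.sum_mul_antipode_eq` etc.).  The subspace `R' = {f | f(J) = 0}` of `C →ₗ[k] Q` is closed under convolution by `h3` and finite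
dimensional, contains `mk` and the unit (`h2`).  Left convolution with `mk` is an injective (`mk` is left invertible: `(mk ∘ S) * mk = 1`)
linear endomorphism of `R'`, hence surjective, so `mk * f = 1` for an `f ∈ R'`; then `f = (mk ∘ S) * mk * f = mk ∘ S`, which therefore vanishes
on `J`.
-/

open CategoryTheory TensorProduct Coalgebra HopfAlgebra

universe u

namespace Pool.Agent.H26.FG

variable {k : Type u} [Field k] {C : Type u} [Ring C] [HopfAlgebra k C]

section HbC

open WithConv

variable {Q : Type u} [Ring Q] [Algebra k Q]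

theorem HbC_left (g : C →ₐ[k] Q) :
    toConv (g.toLinearMap ∘ₗ antipode k (A := C)) * toConv g.toLinearMap = 1 := by
  apply ofConv_injective
  have h := LinearMap.algHom_comp_convMul_distrib g (toConv (antipode k (A := C)))
    (toConv LinearMap.id)
  rw [LinearMap.antipode_mul_id] at h
  have h2 : g.toLinearMap ∘ₗ (1 : WithConv (C →ₗ[k] C)).ofConv =
      (1 : WithConv (C →ₗ[k] Q)).ofConv := by
    ext a
    simp
  rw [h2] at h
  exact h.symm

/-- left convolution by `g` -/
noncomputable def HbC_L (g : C →ₐ[k] Q) : (C →ₗ[k] Q) →ₗ[k] (C →ₗ[k] Q) where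
  toFun f := (toConv g.toLinearMap * toConv f).ofConv
  map_add' f f' := by
    rw [toConv_add, mul_add]
    rfl
  map_smul' c f := by
    rw [toConv_smul, mul_smul_comm]
    rfl

theorem HbC_L_apply (g : C →ₐ[k] Q) (f : C →ₗ[k] Q) (x : C) :
    HbC_L g f x = LinearMap.mul' k Q (TensorProduct.map g.toLinearMap f (comul x)) := rfl

theorem HbC_L_inj (g : C →ₐ[k] Q) : Function.Injective (HbC_L g) := by
  intro f f' hff
  have h1 : toConv g.toLinearMap * toConv f = toConv g.toLinearMap * toConv f' :=
    ofConv_injective hff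
  have h2 := congrArg (fun w => toConv (g.toLinearMap ∘ₗ antipode k (A := C)) * w) h1
  simp only [← mul_assoc, HbC_left, one_mul] at h2
  exact toConv_injective h2

end HbC

theorem antipode_mem [Module.Finite k C] (J : Ideal C) (h1 : ∀ x ∈ J, ∀ c : C, x * c ∈ J)
    (h2 : ∀ x ∈ J, counit (R := k) x = 0)
    (h3 : ∀ x ∈ J, comul (R := k) x ∈ Submodule.span k
      {y : C ⊗[k] C | ∃ a b : C, (a ∈ J ∨ b ∈ J) ∧ y = a ⊗ₜ[k] b})
    {x : C} (hx : x ∈ J) : antipode k x ∈ J := by
  have hJ : J.IsTwoSided := ⟨fun {a} b ha => h1 a ha b⟩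
  set g : C →ₐ[k] (C ⧸ J) := Ideal.Quotient.mkₐ k J with hg
  have hg0 : ∀ c, g c = 0 ↔ c ∈ J := fun c => Ideal.Quotient.eq_zero_iff_mem
  have hfin : Module.Finite k (C ⧸ J) :=
    Module.Finite.of_surjective g.toLinearMap Ideal.Quotient.mk_surjective
  set R : Submodule k (C →ₗ[k] (C ⧸ J)) :=
    { carrier := {f | ∀ y ∈ J, f y = 0}
      add_mem' := by
        intro f f' hf hf' y hy
        rw [LinearMap.add_apply, hf y hy, hf' y hy, add_zero]
      zero_mem' := fun y _ => rfl
      smul_mem' := by
        intro c f hf y hy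
        rw [LinearMap.smul_apply, hf y hy, smul_zero] } with hR
  have hstab : ∀ f ∈ R, HbC_L g f ∈ R := by
    intro f hf y hy
    rw [HbC_L_apply]
    have h4 := h3 y hy
    generalize (comul (R := k) y : C ⊗[k] C) = t0 at h4
    induction h4 using Submodule.span_induction with
    | mem t ht =>
      obtain ⟨a, b, hab, rfl⟩ := ht
      rw [TensorProduct.map_tmul, LinearMap.mul'_apply]
      rcases hab with ha | hb
      · have h5 : g.toLinearMap a = 0 := (hg0 a).2 ha
        rw [h5, zero_mul]
      · rw [hf b hb, mul_zero]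
    | zero => rw [map_zero, map_zero]
    | add s t _ _ hs ht => rw [map_add, map_add, hs, ht, add_zero]
    | smul c t _ ht => rw [map_smul, map_smul, ht, smul_zero]
  set LR : R →ₗ[k] R := (HbC_L g).restrict hstab with hLR
  have hinj : Function.Injective LR := by
    intro f f' hff
    apply Subtype.ext
    apply HbC_L_inj g
    exact congrArg Subtype.val hff
  have hfd : FiniteDimensional k R := inferInstance
  have hfd2 : IsArtinian k R := inferInstance
  have hsurj : Function.Surjective LR := IsArtinian.surjective_of_injective_endomorphism LR hinj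
  have hone : (1 : WithConv (C →ₗ[k] (C ⧸ J))).ofConv ∈ R := by
    intro y hy
    rw [LinearMap.convOne_apply, h2 y hy, map_zero]
  obtain ⟨f, hf⟩ := hsurj ⟨_, hone⟩
  have hf1 : WithConv.toConv g.toLinearMap * WithConv.toConv (f : C →ₗ[k] (C ⧸ J)) = 1 :=
    WithConv.ofConv_injective (congrArg Subtype.val hf)
  have hf2 := congrArg (fun w => WithConv.toConv (g.toLinearMap ∘ₗ antipode k (A := C)) * w) hf1
  simp only [← mul_assoc, HbC_left, one_mul, mul_one] at hf2
  have hf3 : (f : C →ₗ[k] (C ⧸ J)) = g.toLinearMap ∘ₗ antipode k (A := C) :=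
    WithConv.toConv_injective hf2
  have hf4 : (f : C →ₗ[k] (C ⧸ J)) x = 0 := f.2 x hx
  rw [hf3] at hf4
  exact (hg0 _).1 hf4

end Pool.Agent.H26.FG
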