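import Pool.Agent.H26.FG.HbB
import Pool.Agent.H26.FG.HbC

/-!
# Module HbD: the quotient `D = C / J'`, `J'` the annihilator of `L'`

`mem_span_of_annihilate` (pure linear algebra): let `S` be a subspace of the dual space of the finite dimensional space `V`,
`J = {x | l x = 0 for all l in S}` and `t ∈ V ⊗ V` with `(l ⊗ m)(t) = 0` for all `l, m ∈ S`.  Then `t` is in the span of the `a ⊗ b` with `a ∈ J` or
`b ∈ J`.  Proof: choose a basis of `J` and extend it to a basis `(b_i)` of `V` (or: `V = J ⊕ J₁`, `exists_isCompl`); write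
`t = ∑ t_ij b_i ⊗ b_j`; for `i, j` outside the basis of `J` the dual functionals `b_i^*, b_j^*` vanish on `J`, so they are in `S` (double
annihilator: `Subspace.dualCoannihilator_dualAnnihilator_eq` / `Subspace.forall_mem_dualAnnihilator_apply_eq_zero_iff` and finite dimension), hence
`t_ij = (b_i^* ⊗ b_j^*)(t) = 0`.
`factor_hom`: `π'` is the unique linear map with `π' ∘ q = π` (`q` surjective); it is multiplicative, unital, compatible with `counit` and
`comul` because `q` is surjective and both `q`, `π` are bialgebra homomorphisms (`BialgHom.ofAlgHom` or `BialgHom` structure).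
`exists_D`: `J = {c | l c = 0 for all l ∈ L'}`.  Ideal, two-sided: `LP.coprod`.  `ε` vanishes on `J`: `LP_counit`.  `h3`: for `x ∈ J`, `l, m ∈ L'`:
`(l ⊗ m)(Δ x) = (cv l m) x = 0` and `mem_span_of_annihilate` with `S = LPS π E`.  `h4`: `antipode_mem`.  `exists_quotient` gives `D, q`.  `q c = 0` implies
`m (π c) = 0` for all functionals `m` of `B`, so `π c = 0` (`Module.forall_dual_apply_eq_zero_iff`); `factor_hom`.
-/

open CategoryTheory TensorProduct Coalgebra HopfAlgebra

universe u

namespace Pool.Agent.H26.FG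

variable {k : Type u} [Field k] {A C B : Type u} [Ring A] [HopfAlgebra k A]
  [Ring C] [HopfAlgebra k C] [Ring B] [HopfAlgebra k B] {ι : A →ₐc[k] C} {π : C →ₐc[k] B}

/-- An element of `V ⊗ V` killed by all `l ⊗ m` is zero. -/
theorem hbD_eq_zero {V : Type*} [AddCommGroup V] [Module k V] [Module.Finite k V]
    (x : V ⊗[k] V)
    (h : ∀ l m : V →ₗ[k] k, LinearMap.mul' k k (TensorProduct.map l m x) = 0) : x = 0 := by
  let b := Module.finBasis k V
  apply (b.tensorProduct b).ext_elem
  rintro ⟨i, j⟩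
  have key : ∀ y : V ⊗[k] V, (b.tensorProduct b).repr y (i, j) =
      LinearMap.mul' k k (TensorProduct.map (b.coord i) (b.coord j) y) := by
    intro y
    induction y using TensorProduct.induction_on with
    | zero => simp
    | tmul u v => simp [mul_comm]
    | add s t hs ht => simp only [map_add, Finsupp.add_apply, hs, ht]
  rw [key, h, map_zero, Finsupp.zero_apply]

theorem mem_span_of_annihilate {V : Type*} [AddCommGroup V] [Module k V] [Module.Finite k V]
    (S : Submodule k (V →ₗ[k] k)) (t : V ⊗[k] V)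
    (ht : ∀ l ∈ S, ∀ m ∈ S, LinearMap.mul' k k (TensorProduct.map l m t) = 0) :
    t ∈ Submodule.span k {y : V ⊗[k] V | ∃ a b : V, ((∀ l ∈ S, l a = 0) ∨ ∀ l ∈ S, l b = 0) ∧
      y = a ⊗ₜ[k] b} := by
  let J : Submodule k V := Submodule.dualCoannihilator (R := k) (M := V) S
  have hJ : ∀ a, a ∈ J ↔ ∀ l ∈ S, l a = 0 := fun a => Submodule.mem_dualCoannihilator a
  have hJS : ∀ l : V →ₗ[k] k, (∀ a ∈ J, l a = 0) → l ∈ S := by
    intro l hl
    have h1 : l ∈ J.dualAnnihilator := (Submodule.mem_dualAnnihilator l).2 hl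
    have h2 : J.dualAnnihilator = S :=
      Subspace.dualCoannihilator_dualAnnihilator_eq (K := k) (V := V) (W := S)
    rwa [h2] at h1
  obtain ⟨g, hg⟩ := J.mkQ.exists_rightInverse_of_surjective (Submodule.range_mkQ J)
  let P : V →ₗ[k] V := g ∘ₗ J.mkQ
  have hP1 : ∀ v, v - P v ∈ J := by
    intro v
    rw [← Submodule.Quotient.mk_eq_zero, Submodule.Quotient.mk_sub, sub_eq_zero]
    exact (LinearMap.congr_fun hg (J.mkQ v)).symm
  have hP2 : ∀ v ∈ J, P v = 0 := by
    intro v hv
    show g (J.mkQ v) = 0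
    have : J.mkQ v = 0 := (Submodule.Quotient.mk_eq_zero J).2 hv
    rw [this, map_zero]
  set T := Submodule.span k {y : V ⊗[k] V | ∃ a b : V, ((∀ l ∈ S, l a = 0) ∨
    ∀ l ∈ S, l b = 0) ∧ y = a ⊗ₜ[k] b} with hT
  have hleft : ∀ a ∈ J, ∀ b : V, a ⊗ₜ[k] b ∈ T := fun a ha b =>
    Submodule.subset_span ⟨a, b, Or.inl ((hJ a).1 ha), rfl⟩
  have hright : ∀ b ∈ J, ∀ a : V, a ⊗ₜ[k] b ∈ T := fun b hb a =>
    Submodule.subset_span ⟨a, b, Or.inr ((hJ b).1 hb), rfl⟩
  have h1 : ∀ x : V ⊗[k] V, x - TensorProduct.map P P x ∈ T := by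
    intro x
    induction x using TensorProduct.induction_on with
    | zero => simp
    | tmul a b =>
      rw [TensorProduct.map_tmul]
      have e : a ⊗ₜ[k] b - P a ⊗ₜ[k] P b = (a - P a) ⊗ₜ[k] b + P a ⊗ₜ[k] (b - P b) := by
        rw [TensorProduct.sub_tmul, TensorProduct.tmul_sub]; abel
      rw [e]
      exact T.add_mem (hleft _ (hP1 a) _) (hright _ (hP1 b) _)
    | add s u hs hu =>
      have e : s + u - TensorProduct.map P P (s + u) =
          (s - TensorProduct.map P P s) + (u - TensorProduct.map P P u) := by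
        rw [map_add]; abel
      rw [e]
      exact T.add_mem hs hu
  have h2 : TensorProduct.map P P t = 0 := by
    apply hbD_eq_zero
    intro l m
    rw [← LinearMap.comp_apply (TensorProduct.map l m), ← TensorProduct.map_comp]
    refine ht _ (hJS _ fun a ha => ?_) _ (hJS _ fun a ha => ?_)
    · rw [LinearMap.comp_apply, hP2 a ha, map_zero]
    · rw [LinearMap.comp_apply, hP2 a ha, map_zero]
  have h3 := h1 t
  rwa [h2, sub_zero] at h3

theorem factor_hom {D : Type u} [Ring D] [HopfAlgebra k D] (q : C →ₐc[k] D)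
    (hq : Function.Surjective q) (h : ∀ c, q c = 0 → π c = 0) :
    ∃ π' : D →ₐc[k] B, ∀ c, π' (q c) = π c := by
  let s : D → C := Function.surjInv hq
  have hs : ∀ d, q (s d) = d := Function.surjInv_eq hq
  have key : ∀ c, π (s (q c)) = π c := by
    intro c
    have h1 : q (s (q c) - c) = 0 := by rw [map_sub, hs, sub_self]
    have h2 := h _ h1
    rwa [map_sub, sub_eq_zero] at h2
  have k2 : ∀ c d, q c = d → π (s d) = π c := by
    rintro c _ rfl
    exact key c
  let f : D →ₐ[k] B :=
    { toFun := fun d => π (s d)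
      map_one' := by rw [k2 1 1 (map_one q), map_one]
      map_mul' := fun x y => by
        rw [k2 (s x * s y) (x * y) (by rw [map_mul, hs, hs]), map_mul]
      map_zero' := by rw [k2 0 0 (map_zero q), map_zero]
      map_add' := fun x y => by
        rw [k2 (s x + s y) (x + y) (by rw [map_add, hs, hs]), map_add]
      commutes' := fun r => by
        rw [k2 (algebraMap k C r) (algebraMap k D r) (AlgHomClass.commutes q r)]
        exact AlgHomClass.commutes π r }
  have hf : ∀ c, f (q c) = π c := key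
  refine ⟨BialgHom.ofAlgHom f ?_ ?_, hf⟩
  · ext d
    obtain ⟨c, rfl⟩ := hq d
    show counit (R := k) (f (q c)) = counit (R := k) (q c)
    rw [hf, h85_counit, h85_counit]
  · ext d
    obtain ⟨c, rfl⟩ := hq d
    show (Algebra.TensorProduct.map f f) (comul (R := k) (q c)) = comul (R := k) (f (q c))
    rw [hf, h85_comul, h85_comul]
    generalize (comul (R := k) c) = t
    induction t using TensorProduct.induction_on with
    | zero => simp
    | tmul a b =>
      rw [TensorProduct.map_tmul, TensorProduct.map_tmul, Algebra.TensorProduct.map_tmul]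
      have e1 : f ((AlgHomClass.toAlgHom q).toLinearMap a) =
          (AlgHomClass.toAlgHom π).toLinearMap a := hf a
      have e2 : f ((AlgHomClass.toAlgHom q).toLinearMap b) =
          (AlgHomClass.toAlgHom π).toLinearMap b := hf b
      rw [e1, e2]
    | add s t hs ht => simp only [map_add, hs, ht]

theorem exists_D [Module.Finite k C] [Module.Finite k B] (hex : HopfExact ι π) (h1 : TrivH1 ι)
    {E : C →ₗ[k] A} (hE : EE ι E) :
    ∃ (D : Type u) (_ : Ring D) (_ : HopfAlgebra k D) (_ : Module.Finite k D) (q : C →ₐc[k] D)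
      (π' : D →ₐc[k] B), Function.Surjective q ∧ (∀ c, q c = 0 ↔ ∀ l, LP π E l → l c = 0) ∧
        ∀ c, π' (q c) = π c := by
  let J : Ideal C :=
    { carrier := {c | ∀ l, LP π E l → l c = 0}
      add_mem' := by
        intro a b ha hb l hl
        rw [map_add, ha l hl, hb l hl, add_zero]
      zero_mem' := fun l _ => map_zero l
      smul_mem' := by
        intro c x hx l hl
        obtain ⟨n, u, v, hu, hv, h⟩ := LP.coprod hex h1 hE hl
        rw [smul_eq_mul, h]
        refine Finset.sum_eq_zero fun i _ => ?_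
        rw [hx _ (hv i), mul_zero] }
  have hJ : ∀ c, c ∈ J ↔ ∀ l, LP π E l → l c = 0 := fun c => Iff.rfl
  have j1 : ∀ x ∈ J, ∀ c : C, x * c ∈ J := by
    intro x hx c l hl
    obtain ⟨n, u, v, hu, hv, h⟩ := LP.coprod hex h1 hE hl
    rw [h]
    refine Finset.sum_eq_zero fun i _ => ?_
    rw [hx _ (hu i), zero_mul]
  have j2 : ∀ x ∈ J, counit (R := k) x = 0 := fun x hx => hx _ (LP_counit π E)
  have j3 : ∀ x ∈ J, comul (R := k) x ∈ Submodule.span k
      {y : C ⊗[k] C | ∃ a b : C, (a ∈ J ∨ b ∈ J) ∧ y = a ⊗ₜ[k] b} := by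
    intro x hx
    exact mem_span_of_annihilate (LPS π E) (comul (R := k) x) fun l hl m hm =>
      hx _ (LP.mul l m hl hm)
  have j4 : ∀ x ∈ J, antipode k x ∈ J := fun x hx => antipode_mem J j1 j2 j3 hx
  obtain ⟨D, i1, i2, i3, q, hq, hqJ⟩ := exists_quotient J j1 j2 j3 j4
  have hk : ∀ c, q c = 0 → π c = 0 := by
    intro c hc
    rw [hqJ] at hc
    rw [← Module.forall_dual_apply_eq_zero_iff k]
    intro m
    exact hc _ (LP.base m)
  obtain ⟨π', hπ'⟩ := factor_hom q hq hk
  exact ⟨D, i1, i2, i3, q, π', hq, hqJ, hπ'⟩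

end Pool.Agent.H26.FG
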