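import Pool.Agent.H26.FG.Defs

/-!
# Module Img: images of homomorphisms of Hopf algebras, quotients by normal Hopf subalgebras
-/

open CategoryTheory TensorProduct Coalgebra HopfAlgebra

universe u

namespace Pool.Agent.H26.FG

section H85

open WithConv

variable {k : Type u} [Field k] {A D : Type u} [Ring A] [HopfAlgebra k A]
  [Ring D] [HopfAlgebra k D]

/-- A homomorphism of bialgebras between Hopf algebras commutes with the antipodes. -/
theorem h85_antipode_lin (g : A →ₐc[k] D) :
    (AlgHomClass.toAlgHom g).toLinearMap ∘ₗ antipode k (A := A) =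
      antipode k (A := D) ∘ₗ (AlgHomClass.toAlgHom g).toLinearMap := by
  have h1 : toConv ((AlgHomClass.toAlgHom g).toLinearMap ∘ₗ antipode k (A := A)) *
      toConv ((AlgHomClass.toAlgHom g).toLinearMap) = 1 := by
    apply ofConv_injective
    have h := LinearMap.algHom_comp_convMul_distrib (AlgHomClass.toAlgHom g)
      (toConv (antipode k (A := A))) (toConv LinearMap.id)
    rw [LinearMap.antipode_mul_id, LinearMap.algHom_comp_convOne] at h
    exact h.symm
  have h2 : toConv ((AlgHomClass.toAlgHom g).toLinearMap) *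
      toConv (antipode k (A := D) ∘ₗ (AlgHomClass.toAlgHom g).toLinearMap) = 1 := by
    apply ofConv_injective
    have h := LinearMap.convMul_comp_coalgHom_distrib
      (toConv LinearMap.id) (toConv (antipode k (A := D))) (g : A →ₗc[k] D)
    rw [LinearMap.id_mul_antipode, LinearMap.convOne_comp_coalgHom] at h
    exact h.symm
  exact toConv_injective (left_inv_eq_right_inv h1 h2)

theorem h85_antipode (g : A →ₐc[k] D) (a : A) : g (antipode k a) = antipode k (g a) :=
  LinearMap.congr_fun (h85_antipode_lin g) a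

theorem h85_counit (g : A →ₐc[k] D) (a : A) : counit (R := k) (g a) = counit (R := k) a :=
  CoalgHomClass.counit_comp_apply g a

theorem h85_comul (g : A →ₐc[k] D) (a : A) :
    comul (R := k) (g a) = TensorProduct.map (AlgHomClass.toAlgHom g).toLinearMap
      (AlgHomClass.toAlgHom g).toLinearMap (comul (R := k) a) :=
  (CoalgHomClass.map_comp_comul_apply g a).symm

end H85

section H85b

variable {k : Type u} [Field k] {A C D : Type u} [Ring A] [HopfAlgebra k A]
  [Ring C] [HopfAlgebra k C] [Ring D] [HopfAlgebra k D]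

theorem h85_adl (q : C →ₐc[k] D) (c x : C) : q (adl k c x) = adl k (q c) (q x) := by
  unfold adl
  rw [h85_comul]
  generalize (comul (R := k) c) = t
  induction t using TensorProduct.induction_on with
  | zero => simp
  | tmul a b => simp [h85_antipode]
  | add s t hs ht => simp only [map_add, hs, ht]

theorem h85_adr (q : C →ₐc[k] D) (c x : C) : q (adr k c x) = adr k (q c) (q x) := by
  unfold adr
  rw [h85_comul]
  generalize (comul (R := k) c) = t
  induction t using TensorProduct.induction_on with
  | zero => simp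
  | tmul a b => simp [h85_antipode]
  | add s t hs ht => simp only [map_add, hs, ht]

theorem h85_quot [Module.Finite k C] (J : Ideal C) [J.IsTwoSided] (hJ : J.IsHopfIdeal k) :
    ∃ (D : Type u) (_ : Ring D) (_ : HopfAlgebra k D) (_ : Module.Finite k D) (q : C →ₐc[k] D),
      Function.Surjective q ∧ ∀ c, q c = 0 ↔ c ∈ J := by
  have := hJ
  refine ⟨C ⧸ J, inferInstance, inferInstance, ?_, Bialgebra.Quotient.mkBialgHom J,
    Ideal.Quotient.mk_surjective, fun c => Ideal.Quotient.eq_zero_iff_mem⟩
  exact Module.Finite.of_surjective (Ideal.Quotient.mkₐ k J).toLinearMap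
    Ideal.Quotient.mk_surjective

theorem h85_counit_adr (c x : C) :
    counit (R := k) (adr k c x) = counit (R := k) c * counit (R := k) x := by
  have h1 := Coalgebra.sum_counit_smul (R := k) (Coalgebra.Repr.arbitrary k c)
  have h2 : adr k c x = ∑ i ∈ (Coalgebra.Repr.arbitrary k c).index,
      antipode k ((Coalgebra.Repr.arbitrary k c).left i) * x *
        (Coalgebra.Repr.arbitrary k c).right i := by
    unfold adr
    conv_lhs => rw [← (Coalgebra.Repr.arbitrary k c).eq]
    simp
  rw [h2, map_sum]
  have h3 := congrArg (counit (R := k)) h1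
  rw [map_sum] at h3
  rw [← h3, Finset.sum_mul]
  refine Finset.sum_congr rfl fun i _ => ?_
  rw [Bialgebra.counit_mul, Bialgebra.counit_mul, counit_antipode, map_smul, smul_eq_mul]
  ring

/-- `x c = ∑ c₁ (S(c₂) x c₃)` -/
theorem h85_mul_eq (c x : C) : x * c = ∑ i ∈ (Coalgebra.Repr.arbitrary k c).index,
    (Coalgebra.Repr.arbitrary k c).left i * adr k ((Coalgebra.Repr.arbitrary k c).right i) x := by
  set r := Coalgebra.Repr.arbitrary k c with hr
  -- the linear map `a ⊗ (b ⊗ d) ↦ a (S b x d)`
  set Ψ : C ⊗[k] (C ⊗[k] C) →ₗ[k] C := LinearMap.mul' k C ∘ₗ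
    LinearMap.lTensor C (LinearMap.mul' k C ∘ₗ TensorProduct.map
      (LinearMap.mulRight k x ∘ₗ HopfAlgebra.antipode k) LinearMap.id) with hΨ
  have h1 : ∑ i ∈ r.index, r.left i * adr k (r.right i) x =
      Ψ (LinearMap.lTensor C (comul (R := k)) (comul (R := k) c)) := by
    conv_rhs => rw [← r.eq]
    simp only [map_sum, hΨ, LinearMap.lTensor_tmul, LinearMap.comp_apply, LinearMap.mul'_apply]
    rfl
  have h2 : ∀ (t : C ⊗[k] C) (d : C), Ψ (TensorProduct.assoc k C C C (t ⊗ₜ[k] d)) =
      LinearMap.mul' k C (LinearMap.lTensor C (antipode k) t) * (x * d) := by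
    intro t d
    induction t using TensorProduct.induction_on with
    | zero => simp
    | tmul a b => simp [hΨ, mul_assoc]
    | add s t hs ht => rw [TensorProduct.add_tmul]; simp only [map_add, hs, ht, add_mul]
  rw [h1, ← Coalgebra.coassoc_apply]
  conv_rhs => rw [← r.eq]
  simp only [map_sum, LinearMap.rTensor_tmul]
  have h3 : ∀ i ∈ r.index, Ψ (TensorProduct.assoc k C C C (comul (R := k) (r.left i) ⊗ₜ[k]
      r.right i)) = x * (counit (R := k) (r.left i) • r.right i) := by
    intro i _
    rw [h2, mul_antipode_lTensor_comul_apply, ← Algebra.smul_def, mul_smul_comm]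
  rw [Finset.sum_congr rfl h3, ← Finset.mul_sum, Coalgebra.sum_counit_smul]

end H85b

variable {k : Type u} [Field k] {A C D : Type u} [Ring A] [HopfAlgebra k A]
  [Ring C] [HopfAlgebra k C] [Ring D] [HopfAlgebra k D]

/-- Factorisation of a homomorphism of Hopf algebras through its image: the image is the quotient
of `A` by the Hopf ideal `ker g` (Mathlib: `HopfAlgebra.Quotient`). That `ker g` is a coideal:
`ker (g ⊗ g) = ker g ⊗ A + A ⊗ ker g`. -/
theorem exists_image (g : A →ₐc[k] D) [Module.Finite k A] :
    ∃ (I : Type u) (_ : Ring I) (_ : HopfAlgebra k I) (_ : Module.Finite k I)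
      (q : A →ₐc[k] I) (j : I →ₐc[k] D),
      Function.Surjective q ∧ Function.Injective j ∧ ∀ a, j (q a) = g a := by
  set G : A →ₐ[k] D := AlgHomClass.toAlgHom g with hG
  have hGa : ∀ a, G a = g a := fun a => rfl
  set J : Ideal A := RingHom.ker G with hJ
  have hmem : ∀ a, a ∈ J ↔ g a = 0 := fun a => RingHom.mem_ker
  have : J.IsTwoSided := by rw [hJ]; infer_instance
  set K : Submodule k A := J.restrictScalars k with hK
  set gb : (A ⧸ K) →ₗ[k] D := K.liftQ G.toLinearMap (fun a ha => (hmem a).1 ha) with hgb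
  have hinj : Function.Injective gb := by
    rw [← LinearMap.ker_eq_bot]
    exact Submodule.ker_liftQ_eq_bot _ _ _ (fun a ha => (hmem a).2 ha)
  have hH : J.IsHopfIdeal k :=
    { counit_eq_zero := by
        intro x hx
        rw [← h85_counit g x, (hmem x).1 hx, map_zero]
      map_mkQ_comul_eq_zero := by
        intro x hx
        apply TensorProduct.map_injective_of_flat_flat gb gb hinj hinj
        rw [map_zero, ← LinearMap.comp_apply, ← TensorProduct.map_comp]
        have h1 : gb ∘ₗ K.mkQ = G.toLinearMap := Submodule.liftQ_mkQ _ _ _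
        rw [h1, ← h85_comul g x, (hmem x).1 hx, map_zero]
      antipode_mem := by
        intro x hx
        rw [hmem, h85_antipode, (hmem x).1 hx, map_zero] }
  refine ⟨A ⧸ J, inferInstance, inferInstance, ?_, Bialgebra.Quotient.mkBialgHom J,
    BialgHom.ofAlgHom (Ideal.Quotient.liftₐ J G (fun a ha => (hmem a).1 ha)) ?_ ?_,
    Ideal.Quotient.mk_surjective, ?_, fun a => rfl⟩
  · exact Module.Finite.of_surjective (Ideal.Quotient.mkₐ k J).toLinearMap
      Ideal.Quotient.mk_surjective
  · apply Ideal.Quotient.algHom_ext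
    ext a
    exact h85_counit g a
  · apply Ideal.Quotient.algHom_ext
    ext a
    have h1 := h85_comul g a
    refine Eq.trans ?_ h1.symm
    show (Algebra.TensorProduct.map _ _) (comul (R := k) (Ideal.Quotient.mk J a)) = _
    rw [Bialgebra.Quotient.comul_mk]
    generalize (comul (R := k) a) = t
    induction t using TensorProduct.induction_on with
    | zero => simp
    | tmul a b => rfl
    | add s t hs ht => simp only [map_add, hs, ht]
  · intro x y hxy
    obtain ⟨a, rfl⟩ := Ideal.Quotient.mk_surjective x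
    obtain ⟨b, rfl⟩ := Ideal.Quotient.mk_surjective y
    have h1 : g a = g b := hxy
    rw [Ideal.Quotient.eq, hmem, map_sub, h1, sub_self]

/-- Quotients by Hopf ideals. -/
theorem exists_quotient [Module.Finite k C] (J : Ideal C) (h1 : ∀ x ∈ J, ∀ c : C, x * c ∈ J)
    (h2 : ∀ x ∈ J, counit (R := k) x = 0)
    (h3 : ∀ x ∈ J, comul (R := k) x ∈ Submodule.span k
      {y : C ⊗[k] C | ∃ a b : C, (a ∈ J ∨ b ∈ J) ∧ y = a ⊗ₜ[k] b})
    (h4 : ∀ x ∈ J, antipode k x ∈ J) :
    ∃ (D : Type u) (_ : Ring D) (_ : HopfAlgebra k D) (_ : Module.Finite k D) (q : C →ₐc[k] D),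
      Function.Surjective q ∧ ∀ c, q c = 0 ↔ c ∈ J := by
  have : J.IsTwoSided := ⟨fun b ha => h1 _ ha b⟩
  refine h85_quot J
    { counit_eq_zero := fun x hx => h2 x hx
      map_mkQ_comul_eq_zero := ?_
      antipode_mem := fun x hx => h4 x hx }
  intro x hx
  refine Submodule.span_induction (p := fun y _ => TensorProduct.map
    (J.restrictScalars k).mkQ (J.restrictScalars k).mkQ y = 0) ?_ ?_ ?_ ?_ (h3 x hx)
  · rintro y ⟨a, b, hab, rfl⟩
    rw [TensorProduct.map_tmul]
    rcases hab with ha | hb
    · have : (J.restrictScalars k).mkQ a = 0 := (Submodule.Quotient.mk_eq_zero _).2 ha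
      rw [this, TensorProduct.zero_tmul]
    · have : (J.restrictScalars k).mkQ b = 0 := (Submodule.Quotient.mk_eq_zero _).2 hb
      rw [this, TensorProduct.tmul_zero]
  · exact map_zero _
  · intro y z _ _ hy hz
    rw [map_add, hy, hz, add_zero]
  · intro c y _ hy
    rw [map_smul, hy, smul_zero]

/-- Let `ι : A → C` be an injective homomorphism of Hopf algebras whose image is normal. Then
`C ι(A⁺)` is a Hopf ideal and `k → A → C → C / C ι(A⁺) → k` is exact. -/
theorem exists_exact_of_normal [Module.Finite k C] (ι : A →ₐc[k] C) (hinj : Function.Injective ι)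
    (hl : ∀ (c : C) (a : A), ∃ a' : A, ι a' = adl k c (ι a))
    (hr : ∀ (c : C) (a : A), ∃ a' : A, ι a' = adr k c (ι a)) :
    ∃ (D : Type u) (_ : Ring D) (_ : HopfAlgebra k D) (_ : Module.Finite k D) (π : C →ₐc[k] D),
      HopfExact ι π := by
  set J : Ideal C := Ideal.span (ι '' {a : A | counit (R := k) a = 0}) with hJ
  have hι : ∀ a : A, counit (R := k) a = 0 → ι a ∈ J := fun a ha =>
    Ideal.subset_span ⟨a, ha, rfl⟩
  have hright : ∀ x ∈ J, ∀ c : C, x * c ∈ J := by
    intro x hx c
    refine Submodule.span_induction (p := fun y _ => y * c ∈ J) ?_ ?_ ?_ ?_ hx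
    · rintro y ⟨a, ha, rfl⟩
      rw [h85_mul_eq (k := k) c (ι a)]
      refine J.sum_mem fun i _ => J.mul_mem_left _ ?_
      obtain ⟨a', ha'⟩ := hr ((Coalgebra.Repr.arbitrary k c).right i) a
      rw [← ha']
      apply hι
      rw [← h85_counit ι a', ha', h85_counit_adr, h85_counit ι a]
      have : counit (R := k) a = 0 := ha
      rw [this, mul_zero]
    · rw [zero_mul]; exact J.zero_mem
    · intro y z _ _ hy hz
      rw [add_mul]; exact J.add_mem hy hz
    · intro d y _ hy
      rw [smul_eq_mul, mul_assoc]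
      exact J.mul_mem_left _ hy
  have : J.IsTwoSided := ⟨fun b ha => hright _ ha b⟩
  have hcounit : ∀ x ∈ J, counit (R := k) x = 0 := by
    intro x hx
    have h1 : J ≤ RingHom.ker (Bialgebra.counitAlgHom k C) := by
      rw [hJ, Ideal.span_le]
      rintro y ⟨a, ha, rfl⟩
      show counit (R := k) (ι a) = 0
      rw [h85_counit ι a]; exact ha
    exact h1 hx
  have hmk : ∀ b : A, Ideal.Quotient.mkₐ k J (ι b) = algebraMap k (C ⧸ J) (counit (R := k) b) := by
    intro b
    have h1 : ι (b - algebraMap k A (counit (R := k) b)) ∈ J := by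
      apply hι
      rw [map_sub, Bialgebra.counit_algebraMap, sub_self]
    rw [map_sub, AlgHomClass.commutes ι] at h1
    have h2 := Ideal.Quotient.eq.2 h1
    exact h2
  have hcomul : ∀ x ∈ J, ((Algebra.TensorProduct.map (Ideal.Quotient.mkₐ k J)
      (Ideal.Quotient.mkₐ k J)).comp (Bialgebra.comulAlgHom k C)) x = 0 := by
    intro x hx
    have h1 : J ≤ RingHom.ker ((Algebra.TensorProduct.map (Ideal.Quotient.mkₐ k J)
      (Ideal.Quotient.mkₐ k J)).comp (Bialgebra.comulAlgHom k C)) := by
      refine Ideal.span_le.2 ?_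
      rintro y ⟨a, ha, rfl⟩
      show TensorProduct.map (Ideal.Quotient.mkₐ k J).toLinearMap
        (Ideal.Quotient.mkₐ k J).toLinearMap (comul (R := k) (ι a)) = 0
      rw [h85_comul ι a, ← LinearMap.comp_apply, ← TensorProduct.map_comp]
      have h2 : (Ideal.Quotient.mkₐ k J).toLinearMap ∘ₗ (AlgHomClass.toAlgHom ι).toLinearMap =
          Algebra.linearMap k (C ⧸ J) ∘ₗ counit (R := k) (A := A) := by
        ext b; exact hmk b
      rw [h2, TensorProduct.map_comp, LinearMap.comp_apply]
      have h3 : TensorProduct.map (counit (R := k) (A := A)) (counit (R := k) (A := A))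
          (comul (R := k) a) = 0 := by
        rw [← LinearMap.lTensor_comp_rTensor, LinearMap.comp_apply, rTensor_counit_comul,
          LinearMap.lTensor_tmul]
        have : counit (R := k) a = 0 := ha
        rw [this, TensorProduct.tmul_zero]
      rw [h3, map_zero]
    exact h1 hx
  have hanti : ∀ x ∈ J, antipode k x ∈ J := by
    intro x hx
    refine Submodule.span_induction (p := fun y _ => antipode k y ∈ J) ?_ ?_ ?_ ?_ hx
    · rintro y ⟨a, ha, rfl⟩
      rw [← h85_antipode]
      apply hι
      rw [counit_antipode]; exact ha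
    · rw [map_zero]; exact J.zero_mem
    · intro y z _ _ hy hz
      rw [map_add]; exact J.add_mem hy hz
    · intro d y _ hy
      rw [smul_eq_mul, antipode_mul_antidistrib]
      exact hright _ hy _
  obtain ⟨D, i1, i2, i3, q, hq1, hq2⟩ := h85_quot (k := k) J
    { counit_eq_zero := fun x hx => hcounit x hx
      map_mkQ_comul_eq_zero := fun x hx => hcomul x hx
      antipode_mem := fun x hx => hanti x hx }
  exact ⟨D, i1, i2, i3, q, ⟨hinj, hq1, hl, hr, hq2⟩⟩

/-- The image of an exact sequence. If `k → A → C → B → k` is exact and `q : C → D` is a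
surjective homomorphism of Hopf algebras through which `π` factors (`π = π' q`), then the image
`I` of `A` in `D` gives an exact sequence `k → I → D → B → k`. -/
theorem exact_image {B : Type u} [Ring B] [HopfAlgebra k B] {ι : A →ₐc[k] C} {π : C →ₐc[k] B}
    (hex : HopfExact ι π) (q : C →ₐc[k] D) (hq : Function.Surjective q) (π' : D →ₐc[k] B)
    (hπ : ∀ c, π' (q c) = π c) {I : Type u} [Ring I] [HopfAlgebra k I] (p : A →ₐc[k] I)
    (j : I →ₐc[k] D) (hp : Function.Surjective p) (hj : Function.Injective j)
    (hjp : ∀ a, j (p a) = q (ι a)) : HopfExact j π' := by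
  refine ⟨hj, ?_, ?_, ?_, ?_⟩
  · intro b
    obtain ⟨c, rfl⟩ := hex.surj b
    exact ⟨q c, hπ c⟩
  · intro d x
    obtain ⟨c, rfl⟩ := hq d
    obtain ⟨a, rfl⟩ := hp x
    obtain ⟨a', ha'⟩ := hex.adl_mem c a
    exact ⟨p a', by rw [hjp, ha', h85_adl, hjp]⟩
  · intro d x
    obtain ⟨c, rfl⟩ := hq d
    obtain ⟨a, rfl⟩ := hp x
    obtain ⟨a', ha'⟩ := hex.adr_mem c a
    exact ⟨p a', by rw [hjp, ha', h85_adr, hjp]⟩
  · intro d
    constructor
    · intro hd
      obtain ⟨c, rfl⟩ := hq d
      rw [hπ] at hd
      have hc := (hex.ker c).1 hd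
      refine Submodule.span_induction (p := fun y _ => q y ∈
        Ideal.span (j '' {a : I | counit (R := k) a = 0})) ?_ ?_ ?_ ?_ hc
      · rintro y ⟨a, ha, rfl⟩
        rw [← hjp]
        refine Ideal.subset_span ⟨p a, ?_, rfl⟩
        show counit (R := k) (p a) = 0
        rw [h85_counit p a]; exact ha
      · rw [map_zero]; exact Ideal.zero_mem _
      · intro y z _ _ hy hz
        rw [map_add]; exact Ideal.add_mem _ hy hz
      · intro e y _ hy
        rw [smul_eq_mul, map_mul]
        exact Ideal.mul_mem_left _ _ hy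
    · intro hd
      have h1 : Ideal.span (j '' {a : I | counit (R := k) a = 0}) ≤
          RingHom.ker (AlgHomClass.toAlgHom π') := by
        rw [Ideal.span_le]
        rintro y ⟨x, hx, rfl⟩
        obtain ⟨a, rfl⟩ := hp x
        show π' (j (p a)) = 0
        rw [hjp, hπ, hex.ker]
        refine Ideal.subset_span ⟨a, ?_, rfl⟩
        show counit (R := k) a = 0
        rw [← h85_counit p a]; exact hx
      exact h1 hd

end Pool.Agent.H26.FG
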