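import Pool.Agent.H26.FG.KT
import Pool.Agent.H26.FG.Img

/-!
# Block H2: definitions and first facts

`IsDer z`: `z` is an `ε`-derivation of `A`.  `EE ι E`: `E : C → A` is left `A`-linear, `E 1 = 1`, `ε E = ε`.
`dd1`, `dd2`: the Hochschild coboundaries of linear and bilinear forms (trivial coefficients).
`cv l m`: convolution product of two functionals.  `LP π E l`: the functional `l` of `C` is in the algebra `L'`
generated by the functionals `m ∘ π` and the functionals `z ∘ E`, `z` an `ε`-derivation of `A`.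
-/

open CategoryTheory TensorProduct Coalgebra HopfAlgebra

universe u

namespace Pool.Agent.H26.FG

variable {k : Type u} [Field k] {A C B : Type u} [Ring A] [HopfAlgebra k A]
  [Ring C] [HopfAlgebra k C] [Ring B] [HopfAlgebra k B]

/-- `z` is an `ε`-derivation. -/
def IsDer (z : A →ₗ[k] k) : Prop :=
  ∀ a b : A, z (a * b) = counit (R := k) a * z b + z a * counit (R := k) b

/-- left `A`-linear maps `E : C → A` with `E 1 = 1`, `ε E = ε` -/
structure EE (ι : A →ₐc[k] C) (E : C →ₗ[k] A) : Prop where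
  lin : ∀ a c, E (ι a * c) = a * E c
  one : E 1 = 1
  eps : ∀ c, counit (R := k) (E c) = counit (R := k) c

lemma counit_map (f : A →ₐc[k] C) (a : A) : counit (R := k) (f a) = counit (R := k) a :=
  CoalgHomClass.counit_comp_apply f a

lemma EE.map {ι : A →ₐc[k] C} {E : C →ₗ[k] A} (hE : EE ι E) (a : A) : E (ι a) = a := by
  have h := hE.lin a 1
  rwa [mul_one, hE.one, mul_one] at h

/-- coboundary of a linear form -/
noncomputable def dd1 (z : C →ₗ[k] k) (r s : C) : k :=
  counit (R := k) r * z s - z (r * s) + z r * counit (R := k) s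

/-- coboundary of a bilinear form -/
noncomputable def dd2 (F : C →ₗ[k] C →ₗ[k] k) (r s t : C) : k :=
  counit (R := k) r * F s t - F (r * s) t + F r (s * t) - F r s * counit (R := k) t

/-- `dd2` as a trilinear map -/
noncomputable def dd2L (F : C →ₗ[k] C →ₗ[k] k) : C →ₗ[k] C →ₗ[k] C →ₗ[k] k where
  toFun r := LinearMap.mk₂ k (fun s t => dd2 F r s t)
    (fun s s' t => by simp only [dd2, map_add, LinearMap.add_apply, mul_add, add_mul]; ring)
    (fun c s t => by
      simp only [dd2, map_smul, LinearMap.smul_apply, mul_smul_comm, smul_mul_assoc, smul_eq_mul]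
      ring)
    (fun s t t' => by simp only [dd2, map_add, mul_add]; ring)
    (fun c s t => by simp only [dd2, map_smul, mul_smul_comm, smul_eq_mul]; ring)
  map_add' r r' := by
    ext s t
    simp only [LinearMap.mk₂_apply, LinearMap.add_apply, dd2, map_add, add_mul]
    ring
  map_smul' c r := by
    ext s t
    simp only [LinearMap.mk₂_apply, LinearMap.smul_apply, dd2, map_smul, smul_mul_assoc,
      smul_eq_mul, RingHom.id_apply]
    ring

@[simp] lemma dd2L_apply (F : C →ₗ[k] C →ₗ[k] k) (r s t : C) : dd2L F r s t = dd2 F r s t := rfl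

lemma dd2_cocycle (F : C →ₗ[k] C →ₗ[k] k) (q r s t : C) :
    counit (R := k) q * dd2 F r s t - dd2 F (q * r) s t + dd2 F q (r * s) t - dd2 F q r (s * t)
      + dd2 F q r s * counit (R := k) t = 0 := by
  simp only [dd2, Bialgebra.counit_mul, mul_assoc]
  ring

lemma dd2_add (F G : C →ₗ[k] C →ₗ[k] k) (r s t : C) :
    dd2 (F + G) r s t = dd2 F r s t + dd2 G r s t := by
  simp only [dd2, LinearMap.add_apply]
  ring

/-- convolution of functionals -/
noncomputable def cv (l m : C →ₗ[k] k) : C →ₗ[k] k :=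
  LinearMap.mul' k k ∘ₗ TensorProduct.map l m ∘ₗ comul

lemma cv_apply (l m : C →ₗ[k] k) (c : C) {κ : Type*} (r : Coalgebra.Repr k c κ) :
    cv l m c = ∑ i ∈ r.index, l (r.left i) * m (r.right i) := by
  simp only [cv, LinearMap.comp_apply, ← r.eq, map_sum, TensorProduct.map_tmul,
    LinearMap.mul'_apply]

/-- the algebra `L'` of functionals on `C` generated by the `m ∘ π` and the `z ∘ E` -/
inductive LP (π : C →ₐc[k] B) (E : C →ₗ[k] A) : (C →ₗ[k] k) → Prop
  | base (m : B →ₗ[k] k) : LP π E (m ∘ₗ (π : C →ₐ[k] B).toLinearMap)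
  | der (z : A →ₗ[k] k) (hz : IsDer z) : LP π E (z ∘ₗ E)
  | add (l m : C →ₗ[k] k) (hl : LP π E l) (hm : LP π E m) : LP π E (l + m)
  | smul (c : k) (l : C →ₗ[k] k) (hl : LP π E l) : LP π E (c • l)
  | mul (l m : C →ₗ[k] k) (hl : LP π E l) (hm : LP π E m) : LP π E (cv l m)

/-- `L'` as a subspace of the dual space -/
def LPS (π : C →ₐc[k] B) (E : C →ₗ[k] A) : Submodule k (C →ₗ[k] k) where
  carrier := {l | LP π E l}
  add_mem' h h' := LP.add _ _ h h'
  zero_mem' := by
    have h := LP.smul (π := π) (E := E) 0 _ (LP.base 0)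
    rw [zero_smul] at h
    exact h
  smul_mem' c _ h := LP.smul c _ h

lemma mem_LPS {π : C →ₐc[k] B} {E : C →ₗ[k] A} {l : C →ₗ[k] k} : l ∈ LPS π E ↔ LP π E l := Iff.rfl

lemma LP_counit (π : C →ₐc[k] B) (E : C →ₗ[k] A) : LP π E (Coalgebra.counit (R := k) (A := C)) := by
  have h := LP.base (π := π) (E := E) (Coalgebra.counit (R := k) (A := B))
  have h1 : (Coalgebra.counit (R := k) (A := B)) ∘ₗ (π : C →ₐ[k] B).toLinearMap =
      Coalgebra.counit (R := k) (A := C) := LinearMap.ext fun c => counit_map π c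
  rwa [h1] at h

end Pool.Agent.H26.FG
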