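import Pool.Agent.H26.FG.HbA

/-!
# Module HbE: the functionals in `L'` do not see commutators with `A`, and the Frobenius

`LP.comm`: induction on `hl`.  `base m`: `π (ι a * c) = ε(a) π c = π (c * ι a)` (`pi_mul`).  `der z`: `der_mul_left`, `der_mul_right`.  `add`, `smul`: clear.
`mul l m`: with `Δ a = ∑ a₁ ⊗ a₂` (so `Δ (ι a) = ∑ ι a₁ ⊗ ι a₂`) and `Δ c = ∑ c₁ ⊗ c₂`:
`(cv l m)(ι a * c) = ∑ l(ι a₁ * c₁) m(ι a₂ * c₂) = ∑ l(c₁ * ι a₁) m(c₂ * ι a₂) = (cv l m)(c * ι a)`.
`LP.frob`: induction on `hl` of the statement for all `a`.  `base m`: `π(ι b) = ε(b) 1` (`map_comp`), `ε(a^p) = ε(a)^p`.  `der z`: for an `ε`-derivation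
`z(a^n) = n ε(a)^(n-1) z(a)`, so `z(a^p) = 0`, and `z(E 1) = z(1) = 0`.  `add`, `smul`: clear.  `mul l m`: `l`, `m` vanish on `ker q`, so `l = l' ∘ q`, `m = m' ∘ q`;
`(cv l m)(ι (a^p)) = (l' ⊗ m')((q ⊗ q)(Δ (ι a))^p)` and `(q ⊗ q)(Δ (ι a)) = ∑ x_i`, `x_i = q(ι a₁) ⊗ q(ι a₂)`; the `x_i` commute with each
other because every `q (ι b)` is central, `D ⊗ D` has characteristic `p`, so `(∑ x_i)^p = ∑ x_i^p` (`add_pow_char_of_commute`, induction over the finset), `x_i^p = q(ι(a₁^p)) ⊗ q(ι(a₂^p))`.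
Hence `(cv l m)(ι(a^p)) = ∑ l(ι(a₁^p)) m(ι(a₂^p)) = ∑ ε(a₁)^p l(1) ε(a₂)^p m(1) = (∑ ε(a₁)ε(a₂))^p l(1) m(1)` (`sum_pow_char`) `= ε(a)^p (cv l m)(1)`.
-/

open CategoryTheory TensorProduct Coalgebra HopfAlgebra

universe u

namespace Pool.Agent.H26.FG

variable {k : Type u} [Field k] {A C B : Type u} [Ring A] [HopfAlgebra k A]
  [Ring C] [HopfAlgebra k C] [Ring B] [HopfAlgebra k B] {ι : A →ₐc[k] C} {π : C →ₐc[k] B}

/-- a representation of `Δ (ι a)` -/
noncomputable def HbE_repr (ι : A →ₐc[k] C) (a : A) (ρ : Repr k a (A × A)) :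
    Repr k (ι a) (A × A) where
  index := ρ.index
  left := fun i => ι (ρ.left i)
  right := fun i => ι (ρ.right i)
  eq := by
    have h1 : comul (R := k) (ι a) =
        TensorProduct.map (ι : A →ₗ[k] C) (ι : A →ₗ[k] C) (comul (R := k) a) :=
      (CoalgHomClass.map_comp_comul_apply ι a).symm
    rw [h1, ← ρ.eq, map_sum]
    rfl

theorem LP.comm (hex : HopfExact ι π) (h1 : TrivH1 ι) {E : C →ₗ[k] A} (hE : EE ι E)
    {l : C →ₗ[k] k} (hl : LP π E l) (a : A) (c : C) : l (ι a * c) = l (c * ι a) := by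
  induction hl generalizing a c with
  | base m =>
    show m (π (ι a * c)) = m (π (c * ι a))
    rw [(pi_mul hex a c).1, (pi_mul hex a c).2]
  | der z hz =>
    show z (E (ι a * c)) = z (E (c * ι a))
    rw [der_mul_left hE hz, der_mul_right hex h1 hE hz, mul_comm (z a)]
  | add l m _ _ hl hm =>
    rw [LinearMap.add_apply, LinearMap.add_apply, hl, hm]
  | smul r l _ hl =>
    rw [LinearMap.smul_apply, LinearMap.smul_apply, hl]
  | mul l m _ _ hl hm =>
    set ρa := Repr.arbitrary k a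
    set ρc := Repr.arbitrary k c
    set ρι := HbE_repr ι a ρa with hρι
    rw [cv_apply l m _ (ρι.mul ρc), cv_apply l m _ (ρc.mul ρι)]
    have e1 : (ρι.mul ρc).index = ρa.index ×ˢ ρc.index := rfl
    have e2 : (ρc.mul ρι).index = ρc.index ×ˢ ρa.index := rfl
    rw [e1, e2, Finset.sum_product, Finset.sum_product_right]
    refine Finset.sum_congr rfl fun i _ => Finset.sum_congr rfl fun j _ => ?_
    have h3 : (ρι.mul ρc).left (i, j) = ι (ρa.left i) * ρc.left j := rfl
    have h4 : (ρι.mul ρc).right (i, j) = ι (ρa.right i) * ρc.right j := rfl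
    have h5 : (ρc.mul ρι).left (j, i) = ρc.left j * ι (ρa.left i) := rfl
    have h6 : (ρc.mul ρι).right (j, i) = ρc.right j * ι (ρa.right i) := rfl
    rw [h3, h4, h5, h6, hl, hm]

theorem HbE_der_pow {z : A →ₗ[k] k} (hz : IsDer z) (a : A) (n : ℕ) :
    z (a ^ (n + 1)) = (n + 1 : ℕ) * counit (R := k) a ^ n * z a := by
  induction n with
  | zero => simp
  | succ n ih =>
    rw [pow_succ, hz, ih, Bialgebra.counit_pow]
    push_cast
    ring

theorem HbE_sum_pow {R : Type*} [Ring R] (p : ℕ) [hp : Fact p.Prime] (h0 : (p : R) = 0)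
    {κ : Type*} (s : Finset κ) (x : κ → R) (hx : ∀ i j, Commute (x i) (x j)) :
    (∑ i ∈ s, x i) ^ p = ∑ i ∈ s, x i ^ p := by
  classical
  induction s using Finset.induction_on with
  | empty => simp [hp.out.ne_zero]
  | insert j s hj ih =>
    rw [Finset.sum_insert hj, Finset.sum_insert hj]
    have hc : Commute (x j) (∑ i ∈ s, x i) := Commute.sum_right _ _ _ fun i _ => hx j i
    obtain ⟨r, hr⟩ := hc.exists_add_pow_prime_eq hp.out
    rw [hr, h0, ih]
    simp

theorem HbE_cv_one (l m : C →ₗ[k] k) : cv l m 1 = l 1 * m 1 := by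
  simp [cv, Bialgebra.comul_one, Algebra.TensorProduct.one_def]

theorem HbE_lift {D : Type u} [Ring D] [HopfAlgebra k D] (q : C →ₐc[k] D)
    (hq : Function.Surjective q) (l : C →ₗ[k] k) (hl : ∀ c, q c = 0 → l c = 0) :
    ∃ l' : D →ₗ[k] k, ∀ c, l' (q c) = l c := by
  let Q : C →ₗ[k] D := (q : C →ₐ[k] D).toLinearMap
  have hQ : Function.Surjective Q := hq
  obtain ⟨s, hs⟩ := Q.exists_rightInverse_of_surjective (LinearMap.range_eq_top.2 hQ)
  refine ⟨l ∘ₗ s, fun c => ?_⟩
  have h1 : Q (s (Q c) - c) = 0 := by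
    rw [map_sub]
    have := LinearMap.congr_fun hs (Q c)
    rw [LinearMap.comp_apply, LinearMap.id_apply] at this
    rw [this, sub_self]
  have h2 := hl _ h1
  rw [map_sub, sub_eq_zero] at h2
  exact h2

theorem LP.frob (p : ℕ) [Fact p.Prime] [CharP k p] (hex : HopfExact ι π) {E : C →ₗ[k] A}
    (hE : EE ι E) {D : Type u} [Ring D] [HopfAlgebra k D] (q : C →ₐc[k] D)
    (hq : Function.Surjective q) (hker : ∀ c, q c = 0 → ∀ l, LP π E l → l c = 0)
    (hcent : ∀ a d, q (ι a) * d = d * q (ι a)) {l : C →ₗ[k] k} (hl : LP π E l) (a : A) :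
    l (ι (a ^ p)) = counit (R := k) a ^ p * l 1 := by
  have hp : p.Prime := Fact.out
  induction hl generalizing a with
  | base m =>
    show m (π (ι (a ^ p))) = counit (R := k) a ^ p * m (π 1)
    rw [hex.map_comp, Bialgebra.counit_pow, Algebra.algebraMap_eq_smul_one, map_smul, map_one π,
      smul_eq_mul]
  | der z hz =>
    show z (E (ι (a ^ p))) = counit (R := k) a ^ p * z (E 1)
    have h1 : z 1 = 0 := by
      have h2 := hz 1 1
      rw [mul_one, Bialgebra.counit_one] at h2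
      simpa using h2
    rw [hE.map, hE.one, h1, mul_zero]
    obtain ⟨n, rfl⟩ : ∃ n, p = n + 1 := ⟨p - 1, by have := hp.pos; omega⟩
    rw [HbE_der_pow hz, CharP.cast_eq_zero, zero_mul, zero_mul]
  | add l m _ _ hl hm =>
    rw [LinearMap.add_apply, LinearMap.add_apply, hl, hm, mul_add]
  | smul r l _ hl =>
    rw [LinearMap.smul_apply, LinearMap.smul_apply, hl, smul_eq_mul, smul_eq_mul]
    ring
  | mul l m hl' hm' hl hm =>
    obtain ⟨l1, hl1⟩ := HbE_lift q hq l fun c hc => hker c hc l hl'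
    obtain ⟨m1, hm1⟩ := HbE_lift q hq m fun c hc => hker c hc m hm'
    set ρ := Repr.arbitrary k a
    set ρι := HbE_repr ι a ρ with hρι
    set QQ : C ⊗[k] C →ₐ[k] D ⊗[k] D :=
      Algebra.TensorProduct.map (q : C →ₐ[k] D) (q : C →ₐ[k] D) with hQQ
    set L : D ⊗[k] D →ₗ[k] k := LinearMap.mul' k k ∘ₗ TensorProduct.map l1 m1 with hL
    have h1 : ∀ c, cv l m c = L (QQ (comul (R := k) c)) := by
      intro c
      rw [cv_apply l m c (Repr.arbitrary k c)]
      conv_rhs => rw [← (Repr.arbitrary k c).eq]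
      rw [map_sum, map_sum]
      refine Finset.sum_congr rfl fun i _ => ?_
      rw [hQQ, Algebra.TensorProduct.map_tmul, hL, LinearMap.comp_apply, TensorProduct.map_tmul,
        LinearMap.mul'_apply]
      rw [← hl1, ← hm1]
      rfl
    have h0 : (p : D ⊗[k] D) = 0 := by
      have : (p : D ⊗[k] D) = algebraMap k (D ⊗[k] D) (p : k) := (map_natCast _ p).symm
      rw [this, CharP.cast_eq_zero, map_zero]
    have h2 : QQ (comul (R := k) (ι a)) =
        ∑ i ∈ ρ.index, q (ι (ρ.left i)) ⊗ₜ[k] q (ι (ρ.right i)) := by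
      rw [← ρι.eq, map_sum]
      rfl
    have h3 : QQ (comul (R := k) (ι (a ^ p))) =
        ∑ i ∈ ρ.index, q (ι (ρ.left i ^ p)) ⊗ₜ[k] q (ι (ρ.right i ^ p)) := by
      rw [map_pow, Bialgebra.comul_pow, map_pow, h2, HbE_sum_pow p h0]
      · refine Finset.sum_congr rfl fun i _ => ?_
        rw [Algebra.TensorProduct.tmul_pow]
        simp only [map_pow]
      · intro i j
        show _ * _ = _ * _
        rw [Algebra.TensorProduct.tmul_mul_tmul, Algebra.TensorProduct.tmul_mul_tmul,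
          hcent, hcent (ρ.right i)]
    rw [h1, h3, map_sum, HbE_cv_one]
    have h4 : ∀ i ∈ ρ.index, L (q (ι (ρ.left i ^ p)) ⊗ₜ[k] q (ι (ρ.right i ^ p))) =
        (counit (R := k) (ρ.left i) * counit (R := k) (ρ.right i)) ^ p * (l 1 * m 1) := by
      intro i _
      rw [hL, LinearMap.comp_apply, TensorProduct.map_tmul, LinearMap.mul'_apply, hl1, hm1, hl, hm]
      ring
    rw [Finset.sum_congr rfl h4, ← Finset.sum_mul, ← sum_pow_char]
    congr 2
    have h5 := congrArg (counit (R := k)) (Coalgebra.sum_counit_smul (R := k) ρ)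
    rw [map_sum] at h5
    rw [← h5]
    refine Finset.sum_congr rfl fun i _ => ?_
    rw [map_smul, smul_eq_mul]

end Pool.Agent.H26.FG
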