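import Pool.Agent.H26.FG.HbDefs

/-!
# Module HbG: first extension of a 2-cocycle of `A` to a bilinear form of `C`

`coc_one`: `x(1,c) = 0 = x(a,1)`: the cocycle identity at `(1,1,c)` gives `x(1,c) = x(1,1) ε(c)`, at `(a,1,1)` `x(a,1) = ε(a) x(1,1)`.
`exists_F0`: let `φ_i, w_i` be the left dual basis of `exists_dual_basis_left` (`∑ ι(φ_i c) w_i = c`, `φ_i(ι a c) = a φ_i(c)`),
`x₁(a,c) = x(a, E c)`.  The cocycle identity for `(a, b, E c)` reads
`(1) ε(a) x₁(b,c) - x₁(ab,c) + x₁(a, ι b c) - x(a,b) ε(c) = 0`.  Put `G(c,c') = ∑_i [x₁(φ_i c, w_i c') - x₁(φ_i c, w_i) ε(c')]`.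
By (1) for `(a, φ_i c, w_i c')` and `(a, φ_i c, w_i)`: `(2) G(ι a c, c') = ε(a) G(c,c') + x₁(a, c c') - x₁(a,c) ε(c')` (the terms `x(a, φ_i c) ε(w_i) ε(c')` cancel).
`F(c,c') = G(c,c') - ε(c) G(1,c')`.  Then (2) holds for `F` as well (`ε(ι a c) = ε(a) ε(c)`), `F(1,c') = 0`, `F(c,1) = 0` (`G(c,1) = 0`), and
(2) for `c = 1`: `F(ι a, c') = x₁(a, c') - x₁(a,1) ε(c') = x(a, E c')` (`x₁(a,1) = x(a,1) = 0`).  Then (2) says `dd2 F (ι a) s t = 0`.
-/

open CategoryTheory TensorProduct Coalgebra HopfAlgebra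

universe u

namespace Pool.Agent.H26.FG

variable {k : Type u} [Field k] {A C B : Type u} [Ring A] [HopfAlgebra k A]
  [Ring C] [HopfAlgebra k C] [Ring B] [HopfAlgebra k B] {ι : A →ₐc[k] C} {π : C →ₐc[k] B}

theorem coc_one (x : Cocycle₂ (Bialgebra.counitAlgHom k A)) (hx : x.fn 1 1 = 0) (a : A) :
    x.fn 1 a = 0 ∧ x.fn a 1 = 0 := by
  have h1 := x.cocycle 1 1 a
  have h2 := x.cocycle a 1 1
  simp only [map_one, one_mul, mul_one, hx, mul_zero, zero_mul] at h1 h2
  constructor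
  · linear_combination h1
  · linear_combination -h2

/-- the bilinear form `G` -/
noncomputable def HbG_G (x : A →ₗ[k] A →ₗ[k] k) (E : C →ₗ[k] A) {n : ℕ} (w : Fin n → C)
    (φ : Fin n → C →ₗ[k] A) : C →ₗ[k] C →ₗ[k] k :=
  LinearMap.mk₂ k (fun c c' => ∑ i, (x (φ i c) (E (w i * c')) -
      x (φ i c) (E (w i)) * counit (R := k) c'))
    (fun c₁ c₂ c' => by
      rw [← Finset.sum_add_distrib]
      refine Finset.sum_congr rfl fun i _ => ?_
      simp only [map_add, LinearMap.add_apply]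
      ring)
    (fun r c c' => by
      rw [Finset.smul_sum]
      refine Finset.sum_congr rfl fun i _ => ?_
      simp only [map_smul, LinearMap.smul_apply, smul_eq_mul]
      ring)
    (fun c c₁ c₂ => by
      rw [← Finset.sum_add_distrib]
      refine Finset.sum_congr rfl fun i _ => ?_
      simp only [map_add, mul_add]
      ring)
    (fun r c c' => by
      rw [Finset.smul_sum]
      refine Finset.sum_congr rfl fun i _ => ?_
      simp only [map_smul, mul_smul_comm, smul_eq_mul]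
      ring)

lemma HbG_G_apply (x : A →ₗ[k] A →ₗ[k] k) (E : C →ₗ[k] A) {n : ℕ} (w : Fin n → C)
    (φ : Fin n → C →ₗ[k] A) (c c' : C) :
    HbG_G x E w φ c c' = ∑ i, (x (φ i c) (E (w i * c')) -
      x (φ i c) (E (w i)) * counit (R := k) c') := rfl

lemma HbG_one (x : Cocycle₂ (Bialgebra.counitAlgHom k A)) {E : C →ₗ[k] A} (hE : EE ι E)
    (a b : A) (c : C) :
    counit (R := k) a * x.fn b (E c) - x.fn (a * b) (E c) + x.fn a (E (ι b * c)) -
      x.fn a b * counit (R := k) c = 0 := by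
  have h := x.cocycle a b (E c)
  rw [hE.lin]
  have h1 : (Bialgebra.counitAlgHom k A) a = counit (R := k) a := rfl
  have h2 : (Bialgebra.counitAlgHom k A) (E c) = counit (R := k) (E c) := rfl
  rw [h1, h2, hE.eps] at h
  exact h

lemma HbG_two (x : Cocycle₂ (Bialgebra.counitAlgHom k A)) {E : C →ₗ[k] A} (hE : EE ι E)
    {n : ℕ} (w : Fin n → C) (φ : Fin n → C →ₗ[k] A)
    (hφ : ∀ i a c, φ i (ι a * c) = a * φ i c) (hw : ∀ c, ∑ i, ι (φ i c) * w i = c)
    (a : A) (c c' : C) :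
    HbG_G x.fn E w φ (ι a * c) c' = counit (R := k) a * HbG_G x.fn E w φ c c' +
      x.fn a (E (c * c')) - x.fn a (E c) * counit (R := k) c' := by
  have e1 : x.fn a (E (c * c')) = ∑ i, x.fn a (E (ι (φ i c) * (w i * c'))) := by
    conv_lhs => rw [← hw c]
    simp only [Finset.sum_mul, map_sum, mul_assoc]
  have e2 : x.fn a (E c) = ∑ i, x.fn a (E (ι (φ i c) * w i)) := by
    conv_lhs => rw [← hw c]
    simp only [map_sum]
  rw [e1, e2, HbG_G_apply, HbG_G_apply, Finset.mul_sum, Finset.sum_mul,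
    ← Finset.sum_add_distrib, ← Finset.sum_sub_distrib]
  refine Finset.sum_congr rfl fun i _ => ?_
  have h1 := HbG_one x hE a (φ i c) (w i * c')
  have h2 := HbG_one x hE a (φ i c) (w i)
  rw [Bialgebra.counit_mul] at h1
  rw [hφ]
  linear_combination h2 * counit (R := k) c' - h1

theorem exists_F0 [Module.Finite k A] [Module.Finite k C] [Module.Finite k B]
    (hex : HopfExact ι π) {E : C →ₗ[k] A} (hE : EE ι E)
    (x : Cocycle₂ (Bialgebra.counitAlgHom k A)) (hx : x.fn 1 1 = 0) :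
    ∃ F : C →ₗ[k] C →ₗ[k] k, (∀ a c, F (ι a) c = x.fn a (E c)) ∧ (∀ c, F c 1 = 0) ∧
      (∀ c, F 1 c = 0) ∧ ∀ a s t, dd2 F (ι a) s t = 0 := by
  obtain ⟨n, w, φ, hφ, hw⟩ := hex.exists_dual_basis_left
  have h2 := HbG_two x hE w φ hφ hw
  have hG1 : ∀ c, HbG_G x.fn E w φ c 1 = 0 := by
    intro c
    rw [HbG_G_apply]
    refine Finset.sum_eq_zero fun i _ => ?_
    rw [mul_one, Bialgebra.counit_one, mul_one, sub_self]
  set G := HbG_G x.fn E w φ with hG
  let F : C →ₗ[k] C →ₗ[k] k := G - (Coalgebra.counit (R := k) (A := C)).smulRight (G 1)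
  have hF : ∀ c c', F c c' = G c c' - counit (R := k) c * G 1 c' := by
    intro c c'
    simp only [F, LinearMap.sub_apply, LinearMap.smulRight_apply, LinearMap.smul_apply,
      smul_eq_mul]
  have hx1 : ∀ a, x.fn a 1 = 0 := fun a => (coc_one x hx a).2
  have hFa : ∀ a c, F (ι a) c = x.fn a (E c) := by
    intro a c
    have h3 := h2 a 1 c
    rw [mul_one, one_mul, hE.one, hx1, zero_mul] at h3
    rw [hF, h3, counit_map]
    ring
  refine ⟨F, hFa, ?_, ?_, ?_⟩
  · intro c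
    rw [hF, hG1, hG1, mul_zero, sub_zero]
  · intro c
    rw [hF, Bialgebra.counit_one, one_mul, sub_self]
  · intro a s t
    rw [dd2, hFa, hFa, hF, hF, h2 a s t, Bialgebra.counit_mul, counit_map]
    ring

end Pool.Agent.H26.FG
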