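import Pool.Agent.H26.FG.HbG

/-!
# Module HbH: the coboundary of the first extension, restricted to `A` in two variables

`exists_u`.  `x₁(a,c) := x(a, E c) = F(ι a, c)`.  From `dd2 F (ι a) s t = 0`: (1) `F(ι a s, t) = ε(a) F(s,t) + x₁(a, s t) - x₁(a,s) ε(t)`; with `s = ι b`:
(2) `x₁(a, ι b c) = x₁(ab, c) - ε(a) x₁(b,c) + x(a,b) ε(c)`.
For `c ∈ C`, `Δ c = ∑ c₁ ⊗ c₂` (the `Repr` in `InvClass` is `Repr.arbitrary k c`, take the same), `c ι(a) = ∑ ι(ad(c₁) a) c₂` (`mul_eq`); so by (1)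
`F(c ι a, ι b) = ∑ [ε(ad(c₁)a) F(c₂, ι b) + x₁(ad(c₁) a, c₂ ι b) - x₁(ad(c₁) a, c₂) ε(b)] = ε(a) F(c, ι b) + ∑ x₁(ad(c₁) a, c₂ ι b) - g_c(a) ε(b)`,
`g_c(a) := ∑ x₁(ad(c₁) a, c₂)` (linear in `a` and in `c`: `exists_adA_linear`).  `c₂ ι b = ∑ ι(ad(c₂) b) c₃` and (2):
`∑ x₁(ad(c₁) a, ι(ad(c₂) b) c₃) = ∑ x₁(ad(c₁)a ad(c₂)b, c₃) - ∑ ε(ad(c₁)a) x₁(ad(c₂)b, c₃) + ∑ x(ad(c₁)a, ad(c₂)b) ε(c₃) = g_c(ab) - ε(a) g_c(b) + (c.x)(a,b)`
(`adA_mul`, `counit_adA`, coassociativity), `(c.x)(a,b) = ∑ x(ad(c₁)a, ad(c₂)b)`.  Hence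
`dd2 F c (ι a) (ι b) = ε(c) x(a,b) - F(c ι a, ι b) + F(c, ι(ab)) - F(c, ι a) ε(b) = -[(c.x)(a,b) - ε(c) x(a,b)] + (d g_c)(a,b) - (d F(c, ι ·))(a,b)`,
`(d w)(a,b) = ε(a) w(b) - w(ab) + w(a) ε(b)`; by `InvClass` the bracket is `d w` for some `w`; `u = g_c - F(c, ι ·) - w`.
-/

open CategoryTheory TensorProduct Coalgebra HopfAlgebra

universe u

namespace Pool.Agent.H26.FG

variable {k : Type u} [Field k] {A C B : Type u} [Ring A] [HopfAlgebra k A]
  [Ring C] [HopfAlgebra k C] [Ring B] [HopfAlgebra k B] {ι : A →ₐc[k] C} {π : C →ₐc[k] B}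

/-- the bilinear form `x₁(a, c) = x(a, E c)` -/
noncomputable def hbhX (x : Cocycle₂ (Bialgebra.counitAlgHom k A)) (E : C →ₗ[k] A) :
    A →ₗ[k] C →ₗ[k] k := x.fn.compl₂ E

lemma hbhX_apply (x : Cocycle₂ (Bialgebra.counitAlgHom k A)) (E : C →ₗ[k] A) (a : A) (c : C) :
    hbhX x E a c = x.fn a (E c) := rfl

/-- `g_c(a) = ∑ x₁(ad(c₁) a, c₂)`, as a linear function of `c` -/
noncomputable def hbhG (X : A →ₗ[k] C →ₗ[k] k) (AL : C →ₗ[k] A →ₗ[k] A) (a : A) : C →ₗ[k] k :=
  TensorProduct.lift (X ∘ₗ AL.flip a) ∘ₗ comul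

lemma hbhG_apply (X : A →ₗ[k] C →ₗ[k] k) (AL : C →ₗ[k] A →ₗ[k] A) (a : A) (c : C) {κ : Type*}
    (r : Coalgebra.Repr k c κ) :
    hbhG X AL a c = ∑ i ∈ r.index, X (AL (r.left i) a) (r.right i) := by
  simp only [hbhG, LinearMap.comp_apply, ← r.eq, map_sum, TensorProduct.lift.tmul,
    LinearMap.flip_apply]

/-- the map `u ⊗ (v ⊗ w) ↦ x₁(ad(u) a ad(v) b, w)` -/
noncomputable def hbhP (X : A →ₗ[k] C →ₗ[k] k) (AL : C →ₗ[k] A →ₗ[k] A) (a b : A) :
    C ⊗[k] (C ⊗[k] C) →ₗ[k] k :=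
  TensorProduct.lift X ∘ₗ TensorProduct.map (LinearMap.mul' k A) LinearMap.id ∘ₗ
    (TensorProduct.assoc k A A C).symm.toLinearMap ∘ₗ
    TensorProduct.map (AL.flip a) (TensorProduct.map (AL.flip b) LinearMap.id)

lemma hbhP_tmul (X : A →ₗ[k] C →ₗ[k] k) (AL : C →ₗ[k] A →ₗ[k] A) (a b : A) (u v w : C) :
    hbhP X AL a b (u ⊗ₜ (v ⊗ₜ w)) = X (AL u a * AL v b) w := rfl

lemma hbh_counit (c : C) {κ : Type*} (r : Coalgebra.Repr k c κ) :
    ∑ i ∈ r.index, counit (R := k) (r.right i) • r.left i = c := by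
  have h := congrArg (TensorProduct.lift (LinearMap.lsmul k C).flip)
    (Coalgebra.sum_tmul_counit_eq (R := k) r)
  simpa only [map_sum, TensorProduct.lift.tmul, LinearMap.flip_apply, LinearMap.lsmul_apply,
    one_smul] using h

/-- the first part of the Sweedler calculation -/
lemma hbh_assoc {X : A →ₗ[k] C →ₗ[k] k} {AL : C →ₗ[k] A →ₗ[k] A}
    (hmul : ∀ (c : C) (a b : A), AL c (a * b) = ∑ i ∈ (Coalgebra.Repr.arbitrary k c).index,
      AL ((Coalgebra.Repr.arbitrary k c).left i) a * AL ((Coalgebra.Repr.arbitrary k c).right i) b)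
    (a b : A) (c : C) {κ : Type*} (r : Coalgebra.Repr k c κ) :
    ∑ i ∈ r.index, ∑ j ∈ (Coalgebra.Repr.arbitrary k (r.right i)).index,
      X (AL (r.left i) a * AL ((Coalgebra.Repr.arbitrary k (r.right i)).left j) b)
        ((Coalgebra.Repr.arbitrary k (r.right i)).right j) = hbhG X AL (a * b) c := by
  have h := sum_tmul_tmul_eq r (fun i => Coalgebra.Repr.arbitrary k (r.left i))
    (fun i => Coalgebra.Repr.arbitrary k (r.right i))
  have h1 := congrArg (hbhP X AL a b) h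
  simp only [map_sum, hbhP_tmul] at h1
  rw [hbhG_apply X AL (a * b) c r, ← h1]
  refine Finset.sum_congr rfl fun i _ => ?_
  rw [hmul, map_sum, LinearMap.sum_apply]

theorem exists_u (hex : HopfExact ι π) {E : C →ₗ[k] A} (hE : EE ι E)
    (x : Cocycle₂ (Bialgebra.counitAlgHom k A)) (hinv : InvClass ι x)
    (F : C →ₗ[k] C →ₗ[k] k) (hF : ∀ a c, F (ι a) c = x.fn a (E c))
    (hd : ∀ a s t, dd2 F (ι a) s t = 0) (c : C) :
    ∃ u : A →ₗ[k] k, ∀ a b, dd2 F c (ι a) (ι b) =
      counit (R := k) a * u b - u (a * b) + u a * counit (R := k) b := by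
  obtain ⟨AL, hAL⟩ := hex.exists_adA_linear
  obtain ⟨w, hw⟩ := hinv c
  obtain ⟨X, hX⟩ : ∃ X : A →ₗ[k] C →ₗ[k] k, X = hbhX x E := ⟨_, rfl⟩
  have hXF : ∀ a c, F (ι a) c = X a c := fun a c => by rw [hF, hX]; rfl
  -- the identities (1) and (2)
  have h1 : ∀ a s t, F (ι a * s) t = counit (R := k) a * F s t + X a (s * t) -
      X a s * counit (R := k) t := by
    intro a s t
    have h := hd a s t
    simp only [dd2] at h
    rw [counit_map, hXF, hXF] at h
    linear_combination -h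
  have h2 : ∀ a b t, X a (ι b * t) = X (a * b) t - counit (R := k) a * X b t +
      x.fn a b * counit (R := k) t := by
    intro a b t
    have h := h1 a (ι b) t
    rw [← map_mul, hXF, hXF] at h
    have h3 : X a (ι b) = x.fn a b := by
      rw [hX, hbhX_apply, hE.map]
    rw [h3] at h
    linear_combination -h
  have hmul : ∀ (c : C) (a b : A), AL c (a * b) = ∑ i ∈ (Coalgebra.Repr.arbitrary k c).index,
      AL ((Coalgebra.Repr.arbitrary k c).left i) a *
        AL ((Coalgebra.Repr.arbitrary k c).right i) b := by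
    intro c a b
    rw [hAL, hex.adA_mul c a b (Coalgebra.Repr.arbitrary k c)]
    exact Finset.sum_congr rfl fun i _ => by rw [hAL, hAL]
  have hcu : ∀ (c : C) (a : A), counit (R := k) (AL c a) =
      counit (R := k) c * counit (R := k) a := by
    intro c a
    rw [hAL, hex.counit_adA]
  have hmule : ∀ (c : C) (a : A), c * ι a = ∑ i ∈ (Coalgebra.Repr.arbitrary k c).index,
      ι (AL ((Coalgebra.Repr.arbitrary k c).left i) a) *
        (Coalgebra.Repr.arbitrary k c).right i := by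
    intro c a
    rw [hex.mul_eq c a (Coalgebra.Repr.arbitrary k c)]
    exact Finset.sum_congr rfl fun i _ => by rw [hAL]
  set r := Coalgebra.Repr.arbitrary k c with hr
  -- the middle sum
  have h4 : ∀ a b, ∑ i ∈ r.index, X (AL (r.left i) a) (r.right i * ι b) =
      hbhG X AL (a * b) c - counit (R := k) a * hbhG X AL b c +
        ∑ i ∈ r.index, x.fn (AL (r.left i) a) (AL (r.right i) b) := by
    intro a b
    have e1 : ∀ i ∈ r.index, X (AL (r.left i) a) (r.right i * ι b) =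
        ∑ j ∈ (Coalgebra.Repr.arbitrary k (r.right i)).index,
          X (AL (r.left i) a * AL ((Coalgebra.Repr.arbitrary k (r.right i)).left j) b)
            ((Coalgebra.Repr.arbitrary k (r.right i)).right j) -
        counit (R := k) a * (hbhG X AL b (counit (R := k) (r.left i) • r.right i)) +
        x.fn (AL (r.left i) a) (AL (r.right i) b) := by
      intro i _
      rw [hmule (r.right i) b, map_sum, map_smul,
        hbhG_apply X AL b (r.right i) (Coalgebra.Repr.arbitrary k (r.right i))]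
      have e2 : x.fn (AL (r.left i) a) (AL (r.right i) b) =
          ∑ j ∈ (Coalgebra.Repr.arbitrary k (r.right i)).index, x.fn (AL (r.left i) a)
            (AL ((Coalgebra.Repr.arbitrary k (r.right i)).left j) b) *
            counit (R := k) ((Coalgebra.Repr.arbitrary k (r.right i)).right j) := by
        conv_lhs => rw [← hbh_counit (r.right i) (Coalgebra.Repr.arbitrary k (r.right i))]
        rw [map_sum, LinearMap.sum_apply, map_sum]
        refine Finset.sum_congr rfl fun j _ => ?_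
        rw [map_smul, LinearMap.smul_apply, map_smul, smul_eq_mul, mul_comm]
      rw [e2, smul_eq_mul, Finset.mul_sum, Finset.mul_sum, ← Finset.sum_sub_distrib,
        ← Finset.sum_add_distrib]
      refine Finset.sum_congr rfl fun j _ => ?_
      rw [h2, hcu]
      ring
    rw [Finset.sum_congr rfl e1, Finset.sum_add_distrib, Finset.sum_sub_distrib, hbh_assoc hmul,
      ← Finset.mul_sum, ← map_sum, Coalgebra.sum_counit_smul]
  -- the product `c ι(a)`
  have h5 : ∀ a b, F (c * ι a) (ι b) = counit (R := k) a * F c (ι b) +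
      ∑ i ∈ r.index, X (AL (r.left i) a) (r.right i * ι b) -
      hbhG X AL a c * counit (R := k) b := by
    intro a b
    have e1 : F c (ι b) = ∑ i ∈ r.index, counit (R := k) (r.left i) * F (r.right i) (ι b) := by
      conv_lhs => rw [← Coalgebra.sum_counit_smul (R := k) r]
      rw [map_sum, LinearMap.sum_apply]
      refine Finset.sum_congr rfl fun j _ => ?_
      rw [map_smul, LinearMap.smul_apply, smul_eq_mul]
    rw [hmule c a, map_sum, LinearMap.sum_apply, e1, hbhG_apply X AL a c r, Finset.mul_sum,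
      Finset.sum_mul, ← Finset.sum_add_distrib, ← Finset.sum_sub_distrib]
    refine Finset.sum_congr rfl fun j _ => ?_
    rw [h1, hcu, counit_map]
    ring
  refine ⟨∑ i ∈ r.index, (X.flip (r.right i)) ∘ₗ (AL (r.left i)) -
    (F c) ∘ₗ (ι : A →ₐ[k] C).toLinearMap - w, fun a b => ?_⟩
  have h6 : ∀ a, (∑ i ∈ r.index, (X.flip (r.right i)) ∘ₗ (AL (r.left i)) -
    (F c) ∘ₗ (ι : A →ₐ[k] C).toLinearMap - w) a = hbhG X AL a c - F c (ι a) - w a := by
    intro a
    rw [LinearMap.sub_apply, LinearMap.sub_apply, LinearMap.sum_apply, hbhG_apply X AL a c r]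
    rfl
  rw [h6, h6, h6]
  have h7 := hw a b
  simp only [← hAL] at h7
  have h8 := h5 a b
  have h9 := h4 a b
  simp only [dd2]
  rw [h8, h9, hXF, counit_map, ← map_mul]
  have h10 : X a (ι b) = x.fn a b := by
    rw [hX, hbhX_apply, hE.map]
  rw [h10]
  linear_combination -h7

end Pool.Agent.H26.FG
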