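import Pool.Agent.H26.FG.HbA

/-!
# Module HbI: correction of the extension in the second variable

Write `Y(r,s,t) = dd2 F r s t` (trilinear: `dd2L F`); `Y(ι a, s, t) = 0`, and `dd2_cocycle` at `(ι a, r, s, t)` gives `Y(ι a r, s, t) = ε(a) Y(r,s,t)`, so
(`factor_pi`) `Y(r,·,·)` only depends on `π r`; `Y(r ι a, s, t) = ε(a) Y(r,s,t)` by `pi_mul`; `Y(1,·,·) = 0`; `Y(r,s,1) = 0` (`F(·,1) = 0`).
`exists_U` (linear choice): let `d : (A → k) → (A → A → k)`, `(d w)(a,b) = ε(a) w(b) - w(ab) + w(a) ε(b)` (linear).  The linear map `Ȳ : C → (A → A → k)`,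
`Ȳ(c)(a,b) = Y(c, ι a, ι b)` has values in the range of `d` (`hu`); choose a linear section `σ` of `d` on its range
(`LinearMap.exists_rightInverse_of_surjective` for `d.rangeRestrict`), `U = σ ∘ Ȳ`.  Then `d (U c) = Ȳ c`, `U (ι a c) = ε(a) U c`, `U 1 = 0`.
`exists_F1`: `φ_i, w_i` from `exists_dual_basis_left`.  `G(c,c') = ∑_i [U_c(φ_i c') ε(w_i) - Y(c, ι(φ_i c'), w_i)]`.  For `φ = φ_i c'`, `w = w_i`:
`U_c(aφ) = ε(a) U_c(φ) + U_c(a) ε(φ) - Y(c, ι a, ι φ)` and `dd2_cocycle` at `(c, ι a, ι φ, w)` (first term 0, `Y(c ι a, ιφ, w) = ε(a) Y(c,ιφ,w)`):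
`Y(c, ι(aφ), w) = ε(a) Y(c,ιφ,w) + Y(c, ι a, ιφ w) - Y(c,ι a,ιφ) ε(w)`; sum: `(1) G(c, ι a c') = ε(a) G(c,c') + U_c(a) ε(c') - Y(c, ι a, c')`.
`G'(c,c') = G(c,c') - G(c,1) ε(c')`: (1) holds for `G'`, `G'(c,1) = 0`, and (1) at `c' = 1`: `G'(c, ι a) = U_c(a)` (`Y(c,ι a,1) = 0`).  `G'(ι a c, c') = ε(a) G'(c,c')`,
`G'(1, c') = 0`, so `G'(ι a, c') = 0` and `G'(c ι a, c') = ε(a) G'(c,c')` (`factor_pi_zero`, `pi_mul`).
`F₁ = F + G'`.  `dd2 G' (ι a) s t = 0` and `dd2 G' c (ι a) t = 0 - ε(a) G'(c,t) + G'(c, ι a t) - G'(c, ι a) ε(t) = - Y(c, ι a, t)`.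
-/

open CategoryTheory TensorProduct Coalgebra HopfAlgebra

universe u

namespace Pool.Agent.H26.FG

variable {k : Type u} [Field k] {A C B : Type u} [Ring A] [HopfAlgebra k A]
  [Ring C] [HopfAlgebra k C] [Ring B] [HopfAlgebra k B] {ι : A →ₐc[k] C} {π : C →ₐc[k] B}

theorem HbI_right (hex : HopfExact ι π) {M : Type*} [AddCommGroup M] [Module k M] (f : C →ₗ[k] M)
    (h : ∀ a c, f (ι a * c) = counit (R := k) a • f c) (a : A) (c : C) :
    f (c * ι a) = counit (R := k) a • f c := by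
  obtain ⟨g, hg⟩ := factor_pi hex f h
  rw [← hg, (pi_mul hex a c).1, map_smul, hg]

theorem HbI_left (F : C →ₗ[k] C →ₗ[k] k)
    (hd : ∀ a s t, dd2 F (ι a) s t = 0) (a : A) (r s t : C) :
    dd2 F (ι a * r) s t = counit (R := k) a * dd2 F r s t := by
  have h := dd2_cocycle F (ι a) r s t
  rw [hd, hd, hd, counit_map] at h
  linear_combination -h

theorem HbI_L (F : C →ₗ[k] C →ₗ[k] k)
    (hd : ∀ a s t, dd2 F (ι a) s t = 0) (a : A) (r : C) :
    dd2L F (ι a * r) = counit (R := k) a • dd2L F r := by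
  ext s t
  simp only [dd2L_apply, LinearMap.smul_apply, smul_eq_mul]
  exact HbI_left F hd a r s t

theorem dd2_left (hex : HopfExact ι π) (F : C →ₗ[k] C →ₗ[k] k)
    (hd : ∀ a s t, dd2 F (ι a) s t = 0) (a : A) (r s t : C) :
    dd2 F (ι a * r) s t = counit (R := k) a * dd2 F r s t ∧
      dd2 F (r * ι a) s t = counit (R := k) a * dd2 F r s t := by
  refine ⟨HbI_left F hd a r s t, ?_⟩
  have h := HbI_right hex (M := C →ₗ[k] C →ₗ[k] k) (dd2L F) (HbI_L F hd) a r
  rw [← dd2L_apply, h]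
  rfl

/-- the coboundary of functionals on `A`, as a linear map -/
noncomputable def HbI_d (k : Type u) [Field k] (A : Type u) [Ring A] [HopfAlgebra k A] :
    (A →ₗ[k] k) →ₗ[k] (A →ₗ[k] A →ₗ[k] k) where
  toFun w := LinearMap.mk₂ k
    (fun a b => counit (R := k) a * w b - w (a * b) + w a * counit (R := k) b)
    (fun a a' b => by simp only [map_add, add_mul]; ring)
    (fun c a b => by simp only [map_smul, smul_mul_assoc, smul_eq_mul]; ring)
    (fun a b b' => by simp only [map_add, mul_add]; ring)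
    (fun c a b => by simp only [map_smul, mul_smul_comm, smul_eq_mul]; ring)
  map_add' w w' := by
    ext a b
    simp only [LinearMap.mk₂_apply, LinearMap.add_apply]
    ring
  map_smul' c w := by
    ext a b
    simp only [LinearMap.mk₂_apply, LinearMap.smul_apply, smul_eq_mul, RingHom.id_apply]
    ring

theorem HbI_d_apply (w : A →ₗ[k] k) (a b : A) : HbI_d k A w a b =
    counit (R := k) a * w b - w (a * b) + w a * counit (R := k) b := rfl

theorem HbI_choice {V W X : Type*} [AddCommGroup V] [Module k V] [AddCommGroup W] [Module k W]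
    [AddCommGroup X] [Module k X] (d : V →ₗ[k] W) (Y : X →ₗ[k] W) (h : ∀ x, ∃ v, d v = Y x) :
    ∃ U : X →ₗ[k] V, (∀ x, d (U x) = Y x) ∧ ∀ x y (r : k), Y x = r • Y y → U x = r • U y := by
  have hYr : ∀ c, Y c ∈ LinearMap.range d := fun c => h c
  obtain ⟨σ, hσ⟩ := LinearMap.exists_rightInverse_of_surjective d.rangeRestrict
    (LinearMap.range_rangeRestrict _)
  have hσ' : ∀ y, d.rangeRestrict (σ y) = y := fun y => congrArg (fun g => g y) hσ
  refine ⟨σ ∘ₗ Y.codRestrict _ hYr, ?_, ?_⟩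
  · intro x
    exact congrArg Subtype.val (hσ' (Y.codRestrict _ hYr x))
  · intro x y r hxy
    have h1 : Y.codRestrict _ hYr x = r • Y.codRestrict _ hYr y := Subtype.ext hxy
    rw [LinearMap.comp_apply, h1, map_smul]
    rfl

theorem exists_U (hex : HopfExact ι π) (F : C →ₗ[k] C →ₗ[k] k)
    (hd : ∀ a s t, dd2 F (ι a) s t = 0)
    (hu : ∀ c, ∃ u : A →ₗ[k] k, ∀ a b, dd2 F c (ι a) (ι b) =
      counit (R := k) a * u b - u (a * b) + u a * counit (R := k) b) :
    ∃ U : C →ₗ[k] A →ₗ[k] k, (∀ a c, U (ι a * c) = counit (R := k) a • U c) ∧ U 1 = 0 ∧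
      ∀ c a b, dd2 F c (ι a) (ι b) =
        counit (R := k) a * U c b - U c (a * b) + U c a * counit (R := k) b := by
  have _ := hex
  let il : A →ₗ[k] C := (ι : A →ₐ[k] C).toLinearMap
  have hil : ∀ a, il a = ι a := fun a => rfl
  let Y : C →ₗ[k] A →ₗ[k] A →ₗ[k] k :=
    { toFun := fun c => (dd2L F c).compl₁₂ il il
      map_add' := fun c c' => by
        ext a b
        simp only [LinearMap.compl₁₂_apply, LinearMap.add_apply, map_add]
      map_smul' := fun r c => by
        ext a b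
        simp only [LinearMap.compl₁₂_apply, LinearMap.smul_apply, map_smul, RingHom.id_apply] }
  have hY : ∀ c a b, Y c a b = dd2 F c (ι a) (ι b) := fun c a b => rfl
  have hYr : ∀ c, ∃ u, HbI_d k A u = Y c := by
    intro c
    obtain ⟨u, hu'⟩ := hu c
    refine ⟨u, ?_⟩
    ext a b
    rw [HbI_d_apply, hY, hu']
  obtain ⟨U, hU, hU'⟩ := HbI_choice (V := A →ₗ[k] k) (W := A →ₗ[k] A →ₗ[k] k) (X := C) (HbI_d k A) Y hYr
  refine ⟨U, ?_, ?_, ?_⟩
  · intro a c
    apply hU'
    ext b b'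
    rw [hY, LinearMap.smul_apply, LinearMap.smul_apply, hY, HbI_left F hd, smul_eq_mul]
  · have h1 : U 1 = (0 : k) • U 1 := by
      apply hU'
      ext b b'
      have h2 := hd 1 (ι b) (ι b')
      rw [map_one] at h2
      rw [hY, h2, zero_smul]
      rfl
    rw [h1, zero_smul]
  · intro c a b
    rw [← hY, ← hU c, HbI_d_apply]

theorem exists_F1 [Module.Finite k A] [Module.Finite k C] [Module.Finite k B]
    (hex : HopfExact ι π) (F : C →ₗ[k] C →ₗ[k] k)
    (hd : ∀ a s t, dd2 F (ι a) s t = 0) (hF1 : ∀ c, F c 1 = 0)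
    (hu : ∀ c, ∃ u : A →ₗ[k] k, ∀ a b, dd2 F c (ι a) (ι b) =
      counit (R := k) a * u b - u (a * b) + u a * counit (R := k) b) :
    ∃ F₁ : C →ₗ[k] C →ₗ[k] k, (∀ a c, F₁ (ι a) c = F (ι a) c) ∧
      (∀ a s t, dd2 F₁ (ι a) s t = 0) ∧ ∀ c a t, dd2 F₁ c (ι a) t = 0 := by
  obtain ⟨U, hU1, hU2, hU3⟩ := exists_U hex F hd hu
  obtain ⟨n, w, φ, hφ, hw⟩ := hex.exists_dual_basis_left
  have hd1 : ∀ s t, dd2 F 1 s t = 0 := by
    intro s t
    have := hd 1 s t
    rwa [map_one] at this
  have hY1 : ∀ c s, dd2 F c s 1 = 0 := by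
    intro c s
    unfold dd2
    rw [hF1, hF1, mul_one, Bialgebra.counit_one]
    ring
  -- the first version
  let G : C →ₗ[k] C →ₗ[k] k := LinearMap.mk₂ k
    (fun c c' => ∑ i, (U c (φ i c') * counit (R := k) (w i) - dd2L F c (ι (φ i c')) (w i)))
    (fun c c₁ c' => by
      rw [← Finset.sum_add_distrib]
      refine Finset.sum_congr rfl fun i _ => ?_
      simp only [map_add, LinearMap.add_apply, add_mul]
      ring)
    (fun r c c' => by
      rw [smul_eq_mul, Finset.mul_sum]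
      refine Finset.sum_congr rfl fun i _ => ?_
      simp only [map_smul, LinearMap.smul_apply, smul_eq_mul]
      ring)
    (fun c c' c₁ => by
      rw [← Finset.sum_add_distrib]
      refine Finset.sum_congr rfl fun i _ => ?_
      simp only [map_add, LinearMap.add_apply, add_mul]
      ring)
    (fun r c c' => by
      rw [smul_eq_mul, Finset.mul_sum]
      refine Finset.sum_congr rfl fun i _ => ?_
      simp only [map_smul, LinearMap.smul_apply, smul_eq_mul]
      ring)
  have hG : ∀ c c', G c c' =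
      ∑ i, (U c (φ i c') * counit (R := k) (w i) - dd2 F c (ι (φ i c')) (w i)) := fun c c' => rfl
  have hG1 : ∀ a c c', G c (ι a * c') = counit (R := k) a * G c c' + U c a * counit (R := k) c' -
      dd2 F c (ι a) c' := by
    intro a c c'
    have e1 : ∑ i, counit (R := k) (φ i c') * counit (R := k) (w i) = counit (R := k) c' := by
      conv_rhs => rw [← hw c']
      rw [map_sum]
      refine Finset.sum_congr rfl fun i _ => ?_
      rw [Bialgebra.counit_mul, counit_map]
    have e2 : dd2 F c (ι a) c' = ∑ i, dd2 F c (ι a) (ι (φ i c') * w i) := by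
      have : dd2L F c (ι a) (∑ i, ι (φ i c') * w i) = ∑ i, dd2L F c (ι a) (ι (φ i c') * w i) :=
        map_sum _ _ _
      rw [hw c'] at this
      exact this
    rw [hG, hG, ← e1, e2, Finset.mul_sum, Finset.mul_sum, ← Finset.sum_add_distrib,
      ← Finset.sum_sub_distrib]
    refine Finset.sum_congr rfl fun i _ => ?_
    have h1 := hU3 c a (φ i c')
    have h2 := dd2_cocycle F c (ι a) (ι (φ i c')) (w i)
    rw [hd, (dd2_left hex F hd a c _ _).2, ← map_mul] at h2
    rw [hφ]
    linear_combination (counit (R := k) (w i)) * h1 - h2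
  have hG2 : ∀ a c c', G (ι a * c) c' = counit (R := k) a * G c c' := by
    intro a c c'
    rw [hG, hG, Finset.mul_sum]
    refine Finset.sum_congr rfl fun i _ => ?_
    rw [hU1, HbI_left F hd, LinearMap.smul_apply, smul_eq_mul]
    ring
  have hG3 : ∀ c', G 1 c' = 0 := by
    intro c'
    rw [hG]
    refine Finset.sum_eq_zero fun i _ => ?_
    rw [hU2, hd1, LinearMap.zero_apply, zero_mul, sub_zero]
  -- the correction
  let G' : C →ₗ[k] C →ₗ[k] k := LinearMap.mk₂ k
    (fun c c' => G c c' - G c 1 * counit (R := k) c')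
    (fun c c₁ c' => by simp only [map_add, LinearMap.add_apply]; ring)
    (fun r c c' => by simp only [map_smul, LinearMap.smul_apply, smul_eq_mul]; ring)
    (fun c c' c₁ => by simp only [map_add]; ring)
    (fun r c c' => by simp only [map_smul, smul_eq_mul]; ring)
  have hG' : ∀ c c', G' c c' = G c c' - G c 1 * counit (R := k) c' := fun c c' => rfl
  have hG1' : ∀ a c c', G' c (ι a * c') = counit (R := k) a * G' c c' +
      U c a * counit (R := k) c' - dd2 F c (ι a) c' := by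
    intro a c c'
    rw [hG', hG', hG1, Bialgebra.counit_mul, counit_map]
    ring
  have hG01 : ∀ c, G' c 1 = 0 := by
    intro c
    rw [hG', Bialgebra.counit_one]
    ring
  have hGU : ∀ c a, G' c (ι a) = U c a := by
    intro c a
    have h := hG1' a c 1
    rw [mul_one, hG01, hY1, Bialgebra.counit_one] at h
    rw [h]
    ring
  have hG2' : ∀ a c, G' (ι a * c) = counit (R := k) a • G' c := by
    intro a c
    ext c'
    rw [LinearMap.smul_apply, hG', hG', hG2, hG2, smul_eq_mul]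
    ring
  have hG3' : ∀ c', G' 1 c' = 0 := by
    intro c'
    rw [hG', hG3, hG3]
    ring
  have hG4' : ∀ a c', G' (ι a) c' = 0 := by
    intro a c'
    have h := hG2' a 1
    rw [mul_one] at h
    rw [h, LinearMap.smul_apply, hG3', smul_zero]
  have hG5' : ∀ a c c', G' (c * ι a) c' = counit (R := k) a * G' c c' := by
    intro a c c'
    rw [HbI_right hex G' hG2' a c]
    rfl
  refine ⟨F + G', ?_, ?_, ?_⟩
  · intro a c
    rw [LinearMap.add_apply, LinearMap.add_apply, hG4', add_zero]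
  · intro a s t
    rw [dd2_add, hd, zero_add]
    unfold dd2
    rw [hG2', hG4', hG4', counit_map, LinearMap.smul_apply, smul_eq_mul]
    ring
  · intro c a t
    rw [dd2_add]
    have h : dd2 G' c (ι a) t = - dd2 F c (ι a) t := by
      rw [dd2, hG4', hG5', hG1', hGU]
      ring
    rw [h, add_neg_cancel]

end Pool.Agent.H26.FG
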