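import Pool.Agent.H26.FG.HbI

/-!
# Module HbJ: the coboundary of the corrected extension is in `L ⊗ L ⊗ L'`

`Y(r,s,t) = dd2 F r s t`, `Y(ι a,s,t) = 0`, `Y(c,ι a,t) = 0`.  (1) `dd2_left`: `Y(ι a r, s, t) = ε(a) Y(r,s,t) = Y(r ι a, s, t)`; so `Y(r,s,t) = 0` if `π r = 0` (`factor_pi_zero`).
(2) `dd2_cocycle` at `(c, ι a, s, t)`: `-Y(c ι a, s, t) + Y(c, ι a s, t) = 0`, so `Y(c, ι a s, t) = ε(a) Y(c,s,t)`, `Y(r,s,t) = 0` if `π s = 0`, and
`Y(c, s ι a, t) = ε(a) Y(c,s,t)` (`pi_mul`).
(3) `dd2_cocycle` at `(c, c', ι a, t)` (first two terms vanish): `Y(c,c', ι a t) = Y(c, c' ι a, t) + Y(c,c',ι a) ε(t) = ε(a) Y(c,c',t) + Y(c,c',ι a) ε(t)`.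
With `t = ι b`: `z(a) := Y(c,c',ι a)` is an `ε`-derivation.  `f(t) := Y(c,c',t) - z(E t)` satisfies `f(ι a t) = ε(a) f(t)` (`E(ι a t) = a E t`, `ε(E t) = ε(t)`),
so `f(t) = 0` if `π t = 0`; and `z(E t) = 0` by assumption.
`trilin_sum`: as `bilin_sum`: choose a linear section `s` of the surjective map `q` onto the finite dimensional space `D` with basis `b`; `T(r,s,t) = ∑_{i,j,l}
b*_i(q r) b*_j(q s) b*_l(q t) T(s b_i, s b_j, s b_l)` because `T` only depends on `q r, q s, q t`; index set `Fin n` through `Fintype.equivFin`.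
-/

open CategoryTheory TensorProduct Coalgebra HopfAlgebra

universe u

namespace Pool.Agent.H26.FG

variable {k : Type u} [Field k] {A C B : Type u} [Ring A] [HopfAlgebra k A]
  [Ring C] [HopfAlgebra k C] [Ring B] [HopfAlgebra k B] {ι : A →ₐc[k] C} {π : C →ₐc[k] B}

theorem dd2_vanish (hex : HopfExact ι π) {E : C →ₗ[k] A} (hE : EE ι E) (F : C →ₗ[k] C →ₗ[k] k)
    (hd : ∀ a s t, dd2 F (ι a) s t = 0) (hd' : ∀ c a t, dd2 F c (ι a) t = 0) (r s t : C) :
    (π r = 0 → dd2 F r s t = 0) ∧ (π s = 0 → dd2 F r s t = 0) ∧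
      (π t = 0 → (∀ z : A →ₗ[k] k, IsDer z → z (E t) = 0) → dd2 F r s t = 0) := by
  have hL : ∀ a c s t, dd2 F (ι a * c) s t = counit (R := k) a * dd2 F c s t := fun a c s t =>
    (dd2_left hex F hd a c s t).1
  have hR : ∀ a c s t, dd2 F (c * ι a) s t = counit (R := k) a * dd2 F c s t := fun a c s t =>
    (dd2_left hex F hd a c s t).2
  have h2 : ∀ c a s t, dd2 F c (ι a * s) t = counit (R := k) a * dd2 F c s t := by
    intro c a s t
    have h := dd2_cocycle F c (ι a) s t
    rw [hd, hd', hd', hR] at h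
    linear_combination h
  have h2z : ∀ c s t, π s = 0 → dd2 F c s t = 0 := by
    intro c s t hs
    have h := factor_pi_zero (M := C →ₗ[k] k) hex (dd2L F c) (fun a x => by
      ext t
      simp only [dd2L_apply, LinearMap.smul_apply, smul_eq_mul]
      exact h2 c a x t) hs
    exact LinearMap.congr_fun h t
  have h2' : ∀ c a s t, dd2 F c (s * ι a) t = counit (R := k) a * dd2 F c s t := by
    intro c a s t
    have h := h2z c (s * ι a - counit (R := k) a • s) t (by
      rw [map_sub, (pi_mul hex a s).1, map_smul, sub_self])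
    have h3 : dd2L F c (s * ι a - counit (R := k) a • s) t = 0 := h
    rw [map_sub, map_smul, LinearMap.sub_apply, LinearMap.smul_apply, smul_eq_mul,
      sub_eq_zero] at h3
    exact h3
  refine ⟨fun hr => ?_, fun hs => h2z r s t hs, fun ht hz => ?_⟩
  · have h := factor_pi_zero (M := C →ₗ[k] C →ₗ[k] k) hex (dd2L F) (fun a x => by
      ext s t
      simp only [dd2L_apply, LinearMap.smul_apply, smul_eq_mul]
      exact hL a x s t) hr
    have h3 := LinearMap.congr_fun (LinearMap.congr_fun h s) t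
    exact h3
  · -- the last variable
    have h3 : ∀ a t, dd2 F r s (ι a * t) =
        counit (R := k) a * dd2 F r s t + dd2 F r s (ι a) * counit (R := k) t := by
      intro a t
      have h := dd2_cocycle F r s (ι a) t
      rw [hd', hd', h2'] at h
      linear_combination -h
    let z : A →ₗ[k] k := (dd2L F r s) ∘ₗ (ι : A →ₐ[k] C).toLinearMap
    have hzv : ∀ a, z a = dd2 F r s (ι a) := fun a => rfl
    have hzd : IsDer z := by
      intro a b
      rw [hzv, hzv, hzv, map_mul, h3, counit_map]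
    let f : C →ₗ[k] k := dd2L F r s - z ∘ₗ E
    have hfv : ∀ c, f c = dd2 F r s c - z (E c) := fun c => rfl
    have hf := factor_pi_zero hex f (fun a c => by
      rw [hfv, hfv, h3, hE.lin, hzd, hE.eps, smul_eq_mul, hzv a]
      ring) ht
    rw [hfv, hz z hzd, sub_zero] at hf
    exact hf

theorem trilin_sum {V D : Type*} [AddCommGroup V] [Module k V] [AddCommGroup D] [Module k D]
    [Module.Finite k D] (q : V →ₗ[k] D) (hq : Function.Surjective q)
    (T : V →ₗ[k] V →ₗ[k] V →ₗ[k] k) (h1 : ∀ r s t, q r = 0 → T r s t = 0)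
    (h2 : ∀ r s t, q s = 0 → T r s t = 0) (h3 : ∀ r s t, q t = 0 → T r s t = 0) :
    ∃ (n : ℕ) (u v w : Fin n → D →ₗ[k] k),
      ∀ r s t, T r s t = ∑ l, u l (q r) * v l (q s) * w l (q t) := by
  classical
  let b := Module.finBasis k D
  choose σ hσ using fun i => hq (b i)
  have hker : ∀ r : V, q (r - ∑ i, b.coord i (q r) • σ i) = 0 := by
    intro r
    rw [map_sub, map_sum]
    have h : ∑ i, q (b.coord i (q r) • σ i) = q r := by
      rw [← b.sum_repr (q r)]
      refine Finset.sum_congr rfl fun i _ => ?_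
      rw [map_smul, hσ, b.sum_repr]
      rfl
    rw [h, sub_self]
  have e1 : ∀ r s t, T r s t = ∑ i, b.coord i (q r) * T (σ i) s t := by
    intro r s t
    have h := h1 _ s t (hker r)
    rw [map_sub, LinearMap.sub_apply, LinearMap.sub_apply, sub_eq_zero] at h
    rw [h, map_sum]
    simp only [LinearMap.sum_apply, map_smul, LinearMap.smul_apply, smul_eq_mul]
  have e2 : ∀ r s t, T r s t = ∑ i, b.coord i (q s) * T r (σ i) t := by
    intro r s t
    have h := h2 r _ t (hker s)
    rw [map_sub, LinearMap.sub_apply, sub_eq_zero] at h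
    rw [h, map_sum]
    simp only [LinearMap.sum_apply, map_smul, LinearMap.smul_apply, smul_eq_mul]
  have e3 : ∀ r s t, T r s t = ∑ i, b.coord i (q t) * T r s (σ i) := by
    intro r s t
    have h := h3 r s _ (hker t)
    rw [map_sub, sub_eq_zero] at h
    rw [h, map_sum]
    simp only [map_smul, smul_eq_mul]
  let I := Fin (Module.finrank k D)
  let e := Fintype.equivFin (I × I × I)
  refine ⟨Fintype.card (I × I × I), fun m => b.coord (e.symm m).1,
    fun m => b.coord (e.symm m).2.1,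
    fun m => T (σ (e.symm m).1) (σ (e.symm m).2.1) (σ (e.symm m).2.2) • b.coord (e.symm m).2.2,
    fun r s t => ?_⟩
  rw [Equiv.sum_comp e.symm (fun x : I × I × I => b.coord x.1 (q r) * b.coord x.2.1 (q s) *
    (T (σ x.1) (σ x.2.1) (σ x.2.2) • b.coord x.2.2) (q t)), Fintype.sum_prod_type, e1]
  refine Finset.sum_congr rfl fun i _ => ?_
  rw [Fintype.sum_prod_type, e2, Finset.mul_sum]
  refine Finset.sum_congr rfl fun j _ => ?_
  rw [e3, Finset.mul_sum, Finset.mul_sum]
  refine Finset.sum_congr rfl fun l _ => ?_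
  simp only [LinearMap.smul_apply, smul_eq_mul]
  ring

end Pool.Agent.H26.FG
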