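import Pool.Agent.H26.FG.Inter

/-!
# Module HomF: the internal Hom functor of a Hopf algebra
-/

open CategoryTheory Abelian TensorProduct
open scoped ModuleCat

universe u

namespace Pool.Agent.H26.FG

variable (k : Type u) [Field k] {H : Type u} [Ring H] [HopfAlgebra k H]

/-! ### the internal Hom -/

/-- The underlying space of the internal Hom. -/
def HomI (M N : ModuleCat.{u} H) : Type u := M →ₗ[k] N

noncomputable instance (M N : ModuleCat.{u} H) : AddCommGroup (HomI k M N) :=
  inferInstanceAs (AddCommGroup (M →ₗ[k] N))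

/-- The linear map of an element of the internal Hom. -/
def HomI.fn {M N : ModuleCat.{u} H} (f : HomI k M N) : M →ₗ[k] N := f

/-- The element of the internal Hom of a linear map. -/
def HomI.mk {M N : ModuleCat.{u} H} (f : M →ₗ[k] N) : HomI k M N := f

lemma HomI.ext {M N : ModuleCat.{u} H} {f g : HomI k M N} (h : ∀ m, f.fn k m = g.fn k m) : f = g :=
  LinearMap.ext h

/-- Postcomposition with the action of `H` on `N`. -/
noncomputable def hhL (M N : ModuleCat.{u} H) : H →ₐ[k] Module.End k (M →ₗ[k] N) where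
  toFun a :=
    { toFun := fun f => (Algebra.lsmul k k N a) ∘ₗ f
      map_add' := fun f g => LinearMap.comp_add _ _ _
      map_smul' := fun c f => LinearMap.comp_smul _ _ _ }
  map_one' := by
    ext f m
    change (1 : H) • f m = f m
    rw [one_smul]
  map_mul' a b := by
    ext f m
    change (a * b) • f m = a • b • f m
    rw [mul_smul]
  map_zero' := by
    ext f m
    change (0 : H) • f m = 0
    rw [zero_smul]
  map_add' a b := by
    ext f m
    change (a + b) • f m = a • f m + b • f m
    rw [add_smul]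
  commutes' c := by
    ext f m
    change (algebraMap k H c) • f m = c • f m
    rw [algebraMap_smul]

/-- Precomposition with the action of the antipodes on `M`. -/
noncomputable def hhR (M N : ModuleCat.{u} H) : H →ₐ[k] Module.End k (M →ₗ[k] N) where
  toFun b :=
    { toFun := fun f => f ∘ₗ (Algebra.lsmul k k M (HopfAlgebra.antipode k b))
      map_add' := fun f g => LinearMap.add_comp _ _ _
      map_smul' := fun c f => LinearMap.smul_comp _ _ _ }
  map_one' := by
    ext f m
    change f (HopfAlgebra.antipode k (1 : H) • m) = f m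
    rw [HopfAlgebra.antipode_one, one_smul]
  map_mul' a b := by
    ext f m
    change f (HopfAlgebra.antipode k (a * b) • m) =
      f (HopfAlgebra.antipode k b • HopfAlgebra.antipode k a • m)
    rw [HopfAlgebra.antipode_mul_antidistrib, mul_smul]
  map_zero' := by
    ext f m
    change f (HopfAlgebra.antipode k (0 : H) • m) = 0
    rw [map_zero, zero_smul, map_zero]
  map_add' a b := by
    ext f m
    change f (HopfAlgebra.antipode k (a + b) • m) =
      f (HopfAlgebra.antipode k a • m) + f (HopfAlgebra.antipode k b • m)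
    rw [map_add, add_smul, map_add]
  commutes' c := by
    ext f m
    change f (HopfAlgebra.antipode k (algebraMap k H c) • m) = c • f m
    have h1 : HopfAlgebra.antipode k (algebraMap k H c) = algebraMap k H c := by
      rw [Algebra.algebraMap_eq_smul_one, LinearMap.map_smul, HopfAlgebra.antipode_one]
    rw [h1, algebraMap_smul, LinearMap.map_smul]

/-- The action on the internal Hom. -/
noncomputable def hhAct (M N : ModuleCat.{u} H) : H →ₐ[k] Module.End k (M →ₗ[k] N) :=
  (Algebra.TensorProduct.lift (hhL k M N) (hhR k M N) (fun _ _ => rfl)).comp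
    (Bialgebra.comulAlgHom k H)

noncomputable instance (M N : ModuleCat.{u} H) : Module H (HomI k M N) :=
  Module.compHom (M →ₗ[k] N) (hhAct k M N).toRingHom

lemma hh_smul_fn {M N : ModuleCat.{u} H} (h : H) (f : HomI k M N) (m : M) {ι : Type*}
    (r : Coalgebra.Repr k h ι) :
    (h • f).fn k m = ∑ i ∈ r.index, r.left i • f.fn k (HopfAlgebra.antipode k (r.right i) • m) := by
  change (hhAct k M N h (f.fn k)) m = _
  simp only [hhAct, AlgHom.comp_apply, Bialgebra.comulAlgHom_apply, ← r.eq, map_sum,
    Algebra.TensorProduct.lift_tmul, LinearMap.sum_apply]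
  rfl

lemma hh_ksmul_fn {M N : ModuleCat.{u} H} (c : k) (f : HomI k M N) (m : M) :
    ((algebraMap k H c) • f).fn k m = c • f.fn k m := by
  change (hhAct k M N (algebraMap k H c) (f.fn k)) m = _
  rw [AlgHom.commutes]
  rfl

/-- The functor `N ↦ Hom_k(M, N)`. -/
noncomputable def hhF (M : ModuleCat.{u} H) : ModuleCat.{u} H ⥤ ModuleCat.{u} H where
  obj N := ModuleCat.of H (HomI k M N)
  map {N N'} φ := ModuleCat.ofHom
    { toFun := fun f => HomI.mk k ((φ.hom.restrictScalars k) ∘ₗ (HomI.fn k f))
      map_add' := fun f g => HomI.ext k fun m => map_add φ.hom (f.fn k m) (g.fn k m)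
      map_smul' := fun h f => HomI.ext k fun m => by
        rw [RingHom.id_apply, hh_smul_fn k h _ m (Coalgebra.Repr.arbitrary k h)]
        change φ.hom ((h • f).fn k m) = _
        rw [hh_smul_fn k h f m (Coalgebra.Repr.arbitrary k h), map_sum]
        refine Finset.sum_congr rfl fun i _ => ?_
        rw [map_smul]
        rfl }
  map_id _ := rfl
  map_comp _ _ := rfl

instance (M : ModuleCat.{u} H) : (hhF k M).Additive where
  map_add := rfl

lemma hhF_exact (M : ModuleCat.{u} H) (S : ShortComplex (ModuleCat.{u} H)) (hS : S.Exact) :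
    (S.map (hhF k M)).Exact := by
  rw [ShortComplex.ShortExact.moduleCat_exact_iff_function_exact] at hS ⊢
  intro f
  constructor
  · intro hf
    have hf' : ∀ m : M, (S.g.hom.restrictScalars k) (HomI.fn k (M := M) (N := S.X₂) f m) = 0 := by
      intro m
      exact congrArg (fun q : HomI k M S.X₃ => q.fn k m) hf
    have hr : ∀ m : M, HomI.fn k (M := M) (N := S.X₂) f m ∈
        LinearMap.range (S.f.hom.restrictScalars k) := by
      intro m
      obtain ⟨y, hy⟩ := (hS (HomI.fn k (M := M) (N := S.X₂) f m)).1 (hf' m)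
      exact ⟨y, hy⟩
    obtain ⟨g, hg⟩ := Module.projective_lifting_property
      (S.f.hom.restrictScalars k).rangeRestrict
      ((HomI.fn k (M := M) (N := S.X₂) f).codRestrict _ hr)
      (LinearMap.surjective_rangeRestrict _)
    refine ⟨HomI.mk k (M := M) (N := S.X₁) g, ?_⟩
    refine HomI.ext k (M := M) (N := S.X₂) fun m => ?_
    have h1 := congrArg Subtype.val (LinearMap.congr_fun hg m)
    exact h1
  · rintro ⟨g, rfl⟩
    refine HomI.ext k (M := M) (N := S.X₃) fun m => ?_
    exact (hS _).2 ⟨_, rfl⟩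

instance (M : ModuleCat.{u} H) : Limits.PreservesFiniteLimits (hhF k M) := by
  have h := ((hhF k M).exact_tfae.out 1 3).mp (hhF_exact k M)
  exact h.1

instance (M : ModuleCat.{u} H) : Limits.PreservesFiniteColimits (hhF k M) := by
  have h := ((hhF k M).exact_tfae.out 1 3).mp (hhF_exact k M)
  exact h.2

lemma hh_ksmul_fn' {M N : ModuleCat.{u} H} (c : k) (f : (hhF k M).obj N) (m : M) :
    HomI.fn k (M := M) (N := N) (c • f) m = c • HomI.fn k (M := M) (N := N) f m := by
  have h1 : c • f = (algebraMap k H c • (f : HomI k M N) : HomI k M N) :=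
    (algebraMap_smul H c f).symm
  rw [h1]
  exact hh_ksmul_fn k c f m

/-- Evaluation, additive version. -/
noncomputable def hhEvAdd (M N : ModuleCat.{u} H) : Ten k ((hhF k M).obj N) M →+ N :=
  (TensorProduct.lift (LinearMap.mk₂ k
    (fun (f : (hhF k M).obj N) (m : M) => HomI.fn k (M := M) (N := N) f m)
    (fun _ _ _ => rfl) (fun c f m => hh_ksmul_fn' k c f m)
    (fun f m m' => map_add (HomI.fn k (M := M) (N := N) f) m m')
    (fun c f m => map_smul (HomI.fn k (M := M) (N := N) f) c m))).toAddMonoidHom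

lemma hhEvAdd_ten (M N : ModuleCat.{u} H) (f : (hhF k M).obj N) (m : M) :
    hhEvAdd k M N (ten k f m) = HomI.fn k (M := M) (N := N) f m := rfl

lemma hh_sum_right {h : H} {ι : Type*} (r : Coalgebra.Repr k h ι) :
    ∑ i ∈ r.index, Coalgebra.counit (R := k) (r.right i) • r.left i = h := by
  have h1 := Coalgebra.sum_tmul_counit_eq (R := k) r
  have h2 := congrArg (TensorProduct.rid k H) h1
  simpa only [map_sum, TensorProduct.rid_tmul, one_smul] using h2

lemma hhEvAdd_smul (M N : ModuleCat.{u} H) (h : H) (t : Ten k ((hhF k M).obj N) M) :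
    hhEvAdd k M N (h • t) = h • hhEvAdd k M N t := by
  induction t using ten_induction with
  | h0 => simp
  | h1 f m =>
    set r := Coalgebra.Repr.arbitrary k h with hr
    rw [smul_ten k h f m r, map_sum, hhEvAdd_ten]
    -- the trilinear map
    set f' : M →ₗ[k] N := HomI.fn k (M := M) (N := N) f with hf'
    let L1 : H ⊗[k] H →ₗ[k] N := TensorProduct.lift (LinearMap.mk₂ k
      (fun b c : H => f' (HopfAlgebra.antipode k b • c • m))
      (fun b b' c => by rw [LinearMap.map_add (HopfAlgebra.antipode k), add_smul,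
        LinearMap.map_add f'])
      (fun s b c => by rw [LinearMap.map_smul (HopfAlgebra.antipode k), smul_assoc,
        LinearMap.map_smul f'])
      (fun b c c' => by rw [add_smul, smul_add, LinearMap.map_add f'])
      (fun s b c => by rw [smul_assoc, smul_comm (HopfAlgebra.antipode k b) s,
        LinearMap.map_smul f']))
    let Θ : H ⊗[k] (H ⊗[k] H) →ₗ[k] N := TensorProduct.lift (LinearMap.mk₂ k
      (fun (a : H) (t : H ⊗[k] H) => a • L1 t)
      (fun a a' t => add_smul _ _ _)
      (fun s a t => smul_assoc _ _ _)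
      (fun a t t' => by rw [map_add, smul_add])
      (fun s a t => by rw [map_smul, smul_comm]))
    have hΘ : ∀ a b c : H, Θ (a ⊗ₜ (b ⊗ₜ c)) = a • f' (HopfAlgebra.antipode k b • c • m) :=
      fun _ _ _ => rfl
    have h1 := congrArg Θ (Coalgebra.sum_tmul_tmul_eq (R := k) r
      (fun i => Coalgebra.Repr.arbitrary k (r.left i))
      (fun i => Coalgebra.Repr.arbitrary k (r.right i)))
    simp only [map_sum, hΘ] at h1
    have h2 : ∀ i ∈ r.index, hhEvAdd k M N (ten k (r.left i • f) (r.right i • m)) =
        ∑ j ∈ (Coalgebra.Repr.arbitrary k (r.left i)).index,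
          (Coalgebra.Repr.arbitrary k (r.left i)).left j •
            f' (HopfAlgebra.antipode k ((Coalgebra.Repr.arbitrary k (r.left i)).right j) •
              r.right i • m) := by
      intro i _
      rw [hhEvAdd_ten]
      exact hh_smul_fn k (r.left i) f (r.right i • m) (Coalgebra.Repr.arbitrary k (r.left i))
    rw [Finset.sum_congr rfl h2, h1]
    have h3 : ∀ i ∈ r.index, ∑ j ∈ (Coalgebra.Repr.arbitrary k (r.right i)).index,
        r.left i • f' (HopfAlgebra.antipode k ((Coalgebra.Repr.arbitrary k (r.right i)).left j) •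
          (Coalgebra.Repr.arbitrary k (r.right i)).right j • m) =
        (Coalgebra.counit (R := k) (r.right i) • r.left i) • f' m := by
      intro i _
      have h4 := HopfAlgebra.sum_antipode_mul_eq_algebraMap_counit
        (R := k) (Coalgebra.Repr.arbitrary k (r.right i))
      rw [← Finset.smul_sum, ← map_sum]
      simp only [← mul_smul]
      rw [← Finset.sum_smul, h4, algebraMap_smul, map_smul, smul_comm, smul_assoc]
    rw [Finset.sum_congr rfl h3, ← Finset.sum_smul, hh_sum_right]
  | h2 s t hs ht => rw [smul_add, map_add, map_add, smul_add, hs, ht]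

/-- Evaluation. -/
noncomputable def hhEv (M : ModuleCat.{u} H) : hhF k M ⋙ tenR k M ⟶ 𝟭 (ModuleCat.{u} H) where
  app N := ModuleCat.ofHom
    { toFun := hhEvAdd k M N
      map_add' := map_add _
      map_smul' := hhEvAdd_smul k M N }
  naturality _ _ _ := ten_hom_ext k fun _ _ => rfl

lemma hh_ksmul_ten {X M : ModuleCat.{u} H} (c : k) (t : (tenR k M).obj X) :
    c • t = (algebraMap k H c • (t : Ten k X M) : Ten k X M) :=
  (algebraMap_smul H c t).symm

lemma hh_ten_alg {X M : ModuleCat.{u} H} (c : k) (x : X) (m : M) :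
    (algebraMap k H c • ten k x m : Ten k X M) = ten k (c • x) m := by
  rw [ten_smul_def, AlgHom.commutes]
  exact (TensorProduct.smul_tmul' _ _ _).symm

/-- `x ↦ (m ↦ x ⊗ m)`. -/
noncomputable def hhCoL (M X : ModuleCat.{u} H) (x : X) :
    M →ₗ[k] ((tenR k M).obj X) where
  toFun m := ten k x m
  map_add' m m' := ten_add k x m m'
  map_smul' c m := by
    refine Eq.symm ((hh_ksmul_ten k (X := X) (M := M) c (ten k x m)).trans ?_)
    exact (hh_ten_alg k c x m).trans (smul_ten' k c x m)

lemma hhCo_smul (M X : ModuleCat.{u} H) (h : H) (x : X) :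
    HomI.mk k (hhCoL k M X (h • x)) =
      h • HomI.mk k (M := M) (N := (tenR k M).obj X) (hhCoL k M X x) := by
  refine HomI.ext k fun m => ?_
  set r := Coalgebra.Repr.arbitrary k h with hr
  rw [hh_smul_fn k h _ m r]
  change ten k (h • x) m = ∑ i ∈ r.index,
    r.left i • (ten k x (HopfAlgebra.antipode k (r.right i) • m) : Ten k X M)
  let L1 : H ⊗[k] H →ₗ[k] M := TensorProduct.lift (LinearMap.mk₂ k
    (fun b c : H => b • HopfAlgebra.antipode k c • m)
    (fun b b' c => by rw [add_smul])
    (fun s b c => by rw [smul_assoc])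
    (fun b c c' => by rw [LinearMap.map_add (HopfAlgebra.antipode k), add_smul, smul_add])
    (fun s b c => by rw [LinearMap.map_smul (HopfAlgebra.antipode k), smul_assoc,
      smul_comm b s]))
  let Θ : H ⊗[k] (H ⊗[k] H) →ₗ[k] X ⊗[k] M :=
    TensorProduct.map ((LinearMap.toSpanSingleton H X x).restrictScalars k) L1
  have hΘ : ∀ a b c : H, Θ (a ⊗ₜ (b ⊗ₜ c)) =
      (ten k (a • x) (b • HopfAlgebra.antipode k c • m) : Ten k X M) := fun _ _ _ => rfl
  have h1 := congrArg Θ (Coalgebra.sum_tmul_tmul_eq (R := k) r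
    (fun i => Coalgebra.Repr.arbitrary k (r.left i))
    (fun i => Coalgebra.Repr.arbitrary k (r.right i)))
  simp only [map_sum, hΘ] at h1
  have h2 : ∀ i ∈ r.index, r.left i • (ten k x (HopfAlgebra.antipode k (r.right i) • m) : Ten k X M) =
      ∑ j ∈ (Coalgebra.Repr.arbitrary k (r.left i)).index,
        ten k ((Coalgebra.Repr.arbitrary k (r.left i)).left j • x)
          ((Coalgebra.Repr.arbitrary k (r.left i)).right j •
            HopfAlgebra.antipode k (r.right i) • m) := by
    intro i _
    exact smul_ten k (r.left i) x _ (Coalgebra.Repr.arbitrary k (r.left i))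
  rw [Finset.sum_congr rfl h2]
  refine Eq.trans ?_ (Eq.symm h1)
  have h3 : ∀ i ∈ r.index, ∑ j ∈ (Coalgebra.Repr.arbitrary k (r.right i)).index,
      (ten k (r.left i • x) ((Coalgebra.Repr.arbitrary k (r.right i)).left j •
        HopfAlgebra.antipode k ((Coalgebra.Repr.arbitrary k (r.right i)).right j) • m) :
          Ten k X M) =
      ten k ((Coalgebra.counit (R := k) (r.right i) • r.left i) • x) m := by
    intro i _
    have h4 := HopfAlgebra.sum_mul_antipode_eq_algebraMap_counit
      (R := k) (Coalgebra.Repr.arbitrary k (r.right i))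
    rw [← ten_sum]
    simp only [← mul_smul]
    rw [← Finset.sum_smul, h4, algebraMap_smul, ← smul_ten', smul_assoc]
  refine Eq.trans ?_ (Finset.sum_congr rfl h3).symm
  rw [← sum_ten, ← Finset.sum_smul, hh_sum_right]

/-- The coevaluation. -/
noncomputable def hhCo (M : ModuleCat.{u} H) : 𝟭 (ModuleCat.{u} H) ⟶ tenR k M ⋙ hhF k M where
  app X := ModuleCat.ofHom (X := X) (Y := HomI k M ((tenR k M).obj X))
    { toFun := fun x => HomI.mk k (hhCoL k M X x)
      map_add' := fun x x' => HomI.ext k fun m => add_ten k x x' m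
      map_smul' := hhCo_smul k M X }
  naturality _ _ _ := rfl

/-- For a module `M` of a Hopf algebra, `N ↦ Hom_k(M, N)` with `(h f)(m) = ∑ h₁ f(S(h₂) m)` is an
exact functor, right adjoint to `X ↦ X ⊗ M`: there are natural transformations
`ev : Hom_k(M, N) ⊗ M → N` and `co : X → Hom_k(M, X ⊗ M)` with
`(co_X ⊗ M) ≫ ev_{X ⊗ M} = id`. It sends finite-dimensional modules to finite-dimensional
ones (for finite-dimensional `M`). -/
theorem exists_homF (M : ModuleCat.{u} H) :
    ∃ (G : ModuleCat.{u} H ⥤ ModuleCat.{u} H) (_ : G.Additive)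
      (_ : Limits.PreservesFiniteLimits G) (_ : Limits.PreservesFiniteColimits G)
      (ev : G ⋙ tenR k M ⟶ 𝟭 (ModuleCat.{u} H)) (co : 𝟭 (ModuleCat.{u} H) ⟶ tenR k M ⋙ G),
      (∀ X, (tenR k M).map (co.app X) ≫ ev.app ((tenR k M).obj X) = 𝟙 _) ∧
      (∀ N : ModuleCat.{u} H, Module.Finite k M → Module.Finite k N →
        Module.Finite k (G.obj N)) := by
  refine ⟨hhF k M, inferInstance, inferInstance, inferInstance, hhEv k M, hhCo k M, ?_, ?_⟩
  · intro X
    exact ten_hom_ext k fun _ _ => rfl
  · intro N hM hN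
    let e : (M →ₗ[k] N) →ₗ[k] ((hhF k M).obj N) :=
      { toFun := fun f => HomI.mk k f
        map_add' := fun _ _ => rfl
        map_smul' := fun c f => by
          rw [RingHom.id_apply]
          refine HomI.ext k (M := M) (N := N) fun m => ?_
          exact (hh_ksmul_fn' k (M := M) (N := N) c (HomI.mk k f) m).symm }
    exact Module.Finite.of_surjective e fun f => ⟨f, rfl⟩

/-- Every class in `Ext^n(M, N)` comes from `Ext^n(k, Hom(M, N))` through `z ↦ (z ⊗ M) ev`. For
`t ∈ Ext^n(M, N)` put `t' = lam t ∈ Ext^n(k ⊗ M, N)`, `z = co_k G(t')`; then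
`(z ⊗ M) ev = t'` by `map_natTrans` for `ev` (and `map_comp_functor`). Moreover
`z ↦ (z ⊗ M) ev` is additive, `k`-linear, and sends `x z` to `(x ⊗ M) …`. -/
theorem exists_hom_module (M N : ModuleCat.{u} H) (hM : Module.Finite k M)
    (hN : Module.Finite k N) :
    ∃ (L : ModuleCat.{u} H) (_ : Module.Finite k L)
      (ψ : ∀ n : ℕ, Ext (triv k H) L n →ₗ[k] Ext M N n),
      (∀ (a b c : ℕ) (h : a + b = c) (x : Ext (triv k H) (triv k H) a) (z : Ext (triv k H) L b),
        ψ c (x.comp z h) = (act k M x).comp (ψ b z) h) ∧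
      ∀ (n : ℕ) (t : Ext M N n), ∃ z, ψ n z = t := by
  obtain ⟨G, hG1, hG2, hG3, ev, co, htri, hfin⟩ := exists_homF k M
  have hlin : (tenR k M).Linear k := by
    constructor
    intro X Y f c
    refine ten_hom_ext k fun x m => ?_
    exact ((hh_ksmul_ten k (X := Y) (M := M) c (ten k (f.hom x) m)).trans
      (hh_ten_alg k c (f.hom x) m)).symm
  have : Limits.PreservesFiniteLimits (G ⋙ tenR k M) :=
    Limits.comp_preservesFiniteLimits G (tenR k M)
  have : Limits.PreservesFiniteColimits (G ⋙ tenR k M) :=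
    Limits.comp_preservesFiniteColimits G (tenR k M)
  refine ⟨G.obj N, hfin N hM hN, fun n =>
    { toFun := fun z => (Ext.mk₀ (lamIso k M).inv).comp
        ((z.mapExactFunctor (tenR k M)).comp (Ext.mk₀ (ev.app N)) (add_zero n)) (zero_add n)
      map_add' := fun z z' => by
        rw [Ext.mapExactFunctor_add, Ext.add_comp, Ext.comp_add]
      map_smul' := fun c z => by
        rw [Functor.mapExactFunctor_smul, Ext.smul_comp, Ext.comp_smul, RingHom.id_apply] },
    ?_, ?_⟩
  · intro a b c h x z
    simp only [LinearMap.coe_mk, AddHom.coe_mk]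
    unfold act
    rw [Ext.mapExactFunctor_comp]
    have hid : (Ext.mk₀ (lamIso k M).hom).comp ((Ext.mk₀ (lamIso k M).inv).comp
        ((z.mapExactFunctor (tenR k M)).comp (Ext.mk₀ (ev.app N)) (add_zero b)) (zero_add b))
        (zero_add b) = (z.mapExactFunctor (tenR k M)).comp (Ext.mk₀ (ev.app N)) (add_zero b) := by
      rw [Ext.mk₀_comp_mk₀_assoc, Iso.hom_inv_id, Ext.mk₀_id_comp]
    rw [Ext.comp_assoc (Ext.mk₀ (lamIso k M).inv) _ _ (zero_add a) (by omega) (by omega),
      Ext.comp_assoc_of_second_deg_zero, hid,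
      Ext.comp_assoc_of_third_deg_zero]
  · intro n t
    set t' : Ext ((tenR k M).obj (triv k H)) N n :=
      (Ext.mk₀ (lamIso k M).hom).comp t (zero_add n) with ht'
    refine ⟨(Ext.mk₀ (co.app (triv k H))).comp (t'.mapExactFunctor G) (zero_add n), ?_⟩
    simp only [LinearMap.coe_mk, AddHom.coe_mk]
    have h1 := map_natTrans (G ⋙ tenR k M) (𝟭 (ModuleCat.{u} H)) ev t'
    rw [map_id_functor] at h1
    have h2 := map_comp_functor G (tenR k M) t'
    rw [Ext.mapExactFunctor_comp, Ext.mapExactFunctor_mk₀, h2]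
    rw [Ext.comp_assoc_of_third_deg_zero, h1, Ext.mk₀_comp_mk₀_assoc, Ext.mk₀_comp_mk₀_assoc]
    have h3 : (lamIso k M).inv ≫ (tenR k M).map (co.app (triv k H)) ≫
        ev.app ((tenR k M).obj (triv k H)) = (lamIso k M).inv := by
      rw [htri]
      exact Category.comp_id _
    have h4 : Ext.mk₀ (((lamIso k M).inv ≫ (tenR k M).map (co.app (triv k H))) ≫
        ev.app ((tenR k M).obj (triv k H))) = Ext.mk₀ (lamIso k M).inv :=
      congrArg Ext.mk₀ ((Category.assoc _ _ _).trans h3)
    refine (congrArg (fun e => Ext.comp e t' (zero_add n)) h4).trans ?_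
    simp only [ht']
    rw [Ext.mk₀_comp_mk₀_assoc, Iso.inv_hom_id, Ext.mk₀_id_comp]

end Pool.Agent.H26.FG
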