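import Pool.Agent.H26.FG.T0p
import Pool.Agent.H26.FG.Img
import Pool.Agent.H26.FG.HaKf
import Pool.Agent.H26.FG.HaL
import Pool.Agent.H26.FG.HaT
import Pool.Agent.H26.FG.HaF

/-!
# Block H1: collects the modules `HaKf` (`exists_sym_GN`), `HaL` (`exists_lift`),
`HaT` (`GN_empty_of_idem`, `aug_idem_of_charZero`), `HaF` (`exists_frobenius`)
-/
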