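import Pool.Agent.H26.FG.HbD
import Pool.Agent.H26.FG.HbE
import Pool.Agent.H26.FG.HbH
import Pool.Agent.H26.FG.HbJ

/-!
# Interface of block H2 (the intermediate quotient `B'` and the extension of invariant classes)
-/

open CategoryTheory TensorProduct Coalgebra HopfAlgebra

universe u

namespace Pool.Agent.H26.FG

variable {k : Type u} [Field k] {A C B : Type u} [Ring A] [HopfAlgebra k A] [Module.Finite k A]
  [Ring C] [HopfAlgebra k C] [Module.Finite k C] [Ring B] [HopfAlgebra k B] [Module.Finite k B]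

/-- (M, steps 1 and 3). -/
theorem exists_intermediate (p : ℕ) [Fact p.Prime] [CharP k p] {ι : A →ₐc[k] C} {π : C →ₐc[k] B}
    (hex : HopfExact ι π) (h1 : TrivH1 ι) :
    ∃ (D : Type u) (_ : Ring D) (_ : HopfAlgebra k D) (_ : Module.Finite k D)
      (I : Type u) (_ : Ring I) (_ : HopfAlgebra k I) (_ : Module.Finite k I)
      (q : C →ₐc[k] D) (j : I →ₐc[k] D) (π' : D →ₐc[k] B),
      Function.Surjective q ∧ HopfExact j π' ∧ (∀ c, π' (q c) = π c) ∧
      (∀ a, ∃ i, j i = q (ι a)) ∧ (∀ i, ∃ a, j i = q (ι a)) ∧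
      (∀ (i : I) (d : D), j i * d = d * j i) ∧
      (∀ i : I, counit (R := k) i = 0 → i ^ p = 0) ∧
      ∀ x : Cocycle₂ (Bialgebra.counitAlgHom k A), x.fn 1 1 = 0 → InvClass ι x →
        ∃ (F : C →ₗ[k] C →ₗ[k] k) (n : ℕ) (u v w : Fin n → D →ₗ[k] k),
          (∀ a b, F (ι a) (ι b) = x.fn a b) ∧
          ∀ r s t : C, counit (R := k) r * F s t - F (r * s) t + F r (s * t) -
            F r s * counit (R := k) t = ∑ l, u l (q r) * v l (q s) * w l (q t) := by
  obtain ⟨E, hE1, hE2, hE3⟩ := hex.exists_E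
  have hE : EE ι E := ⟨hE1, hE2, hE3⟩
  obtain ⟨D, iD1, iD2, iD3, q, π', hq, hker, hπ⟩ := exists_D hex h1 hE
  obtain ⟨I, iI1, iI2, iI3, p', j, hp', hj, hjp⟩ := exists_image (q.comp ι)
  have hjp' : ∀ a, j (p' a) = q (ι a) := hjp
  have hexI : HopfExact j π' := exact_image hex q hq π' hπ p' j hp' hj hjp'
  have hcent : ∀ a d, q (ι a) * d = d * q (ι a) := by
    intro a d
    obtain ⟨c, rfl⟩ := hq d
    rw [← map_mul, ← map_mul, ← sub_eq_zero, ← map_sub, hker]
    intro l hl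
    rw [map_sub, hl.comm hex h1 hE a c, sub_self]
  refine ⟨D, iD1, iD2, iD3, I, iI1, iI2, iI3, q, j, π', hq, hexI, hπ, ?_, ?_, ?_, ?_, ?_⟩
  · intro a
    exact ⟨p' a, hjp' a⟩
  · intro i
    obtain ⟨a, rfl⟩ := hp' i
    exact ⟨a, hjp' a⟩
  · intro i d
    obtain ⟨a, rfl⟩ := hp' i
    rw [hjp']
    exact hcent a d
  · intro i hi
    obtain ⟨a, rfl⟩ := hp' i
    rw [counit_map] at hi
    apply hj
    have hpr : p.Prime := Fact.out
    rw [map_zero, ← map_pow, hjp', hker]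
    intro l hl
    rw [hl.frob p hex hE q hq (fun c hc => (hker c).1 hc) hcent a, hi, zero_pow hpr.ne_zero, zero_mul]
  · intro x hx hinv
    obtain ⟨F0, hF0, hF01, hF10, hFd⟩ := exists_F0 hex hE x hx
    have hu := exists_u hex hE x hinv F0 hF0 hFd
    obtain ⟨F, hF, hFd1, hFd2⟩ := exists_F1 hex F0 hFd hF01 hu
    have hπ0 : ∀ c, q c = 0 → π c = 0 := by
      intro c hc
      rw [← hπ, hc, map_zero]
    have hv := dd2_vanish hex hE F hFd1 hFd2
    obtain ⟨n, u, v, w, huvw⟩ := trilin_sum (q : C →ₐ[k] D).toLinearMap hq (dd2L F)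
      (fun r s t h => (hv r s t).1 (hπ0 r h)) (fun r s t h => (hv r s t).2.1 (hπ0 s h))
      (fun r s t h => (hv r s t).2.2 (hπ0 t h) fun z hz => ((hker t).1 h) _ (LP.der z hz))
    refine ⟨F, n, u, v, w, ?_, huvw⟩
    intro a b
    rw [hF, hF0, hE.map]

end Pool.Agent.H26.FG
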