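import Pool.Agent.H26.FG.TenL
import Pool.Agent.H26.FG.Grid
import Pool.Agent.H26.FG.ResL

/-!
# Module Inter: the classes `x ⊗ M`, interchange law, graded commutativity
-/

open CategoryTheory Abelian TensorProduct
open scoped ModuleCat

universe u

namespace Pool.Agent.H26.FG

variable {k : Type u} [Field k] {H : Type u} [Ring H] [Bialgebra k H]

lemma act_mk₀_id (M : ModuleCat.{u} H) : act k M (Ext.mk₀ (𝟙 (triv k H))) = Ext.mk₀ (𝟙 M) := by
  unfold act
  rw [Ext.mapExactFunctor_mk₀, Ext.mk₀_comp_mk₀, Ext.mk₀_comp_mk₀,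
    CategoryTheory.Functor.map_id, Category.id_comp, Iso.inv_hom_id]

lemma act_add (M : ModuleCat.{u} H) {n : ℕ} (x y : Ext (triv k H) (triv k H) n) :
    act k M (x + y) = act k M x + act k M y := by
  unfold act
  rw [Ext.mapExactFunctor_add, Ext.add_comp, Ext.comp_add]

lemma Inter_smul_ten {X M : ModuleCat.{u} H} (c : k) (x : X) (m : M) :
    (show ((tenR k M).obj X : ModuleCat.{u} H) from ten k (c • x) m) =
      c • (show ((tenR k M).obj X : ModuleCat.{u} H) from ten k x m) := by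
  have h1 : c • (show ((tenR k M).obj X : ModuleCat.{u} H) from ten k x m) = algebraMap k H c •
        (show ((tenR k M).obj X : ModuleCat.{u} H) from ten k x m) := (algebraMap_smul H c _).symm
  rw [h1]
  change _ = (tenAct k X M (algebraMap k H c) (x ⊗ₜ[k] m) : X ⊗[k] M)
  rw [AlgHom.commutes, Module.algebraMap_end_apply]
  exact (TensorProduct.smul_tmul' c x m).symm

instance Inter_tenR_linear (M : ModuleCat.{u} H) : (tenR k M).Linear k where
  map_smul f c := by
    refine ten_hom_ext k fun x m => ?_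
    exact Inter_smul_ten c (f.hom x) m

lemma act_smul (M : ModuleCat.{u} H) {n : ℕ} (c : k) (x : Ext (triv k H) (triv k H) n) :
    act k M (c • x) = c • act k M x := by
  unfold act
  rw [Functor.mapExactFunctor_smul, Ext.smul_comp, Ext.comp_smul]

lemma act_comp_act (M : ModuleCat.{u} H) {a b c : ℕ} (h : a + b = c)
    (x : Ext (triv k H) (triv k H) a) (y : Ext (triv k H) (triv k H) b) :
    act k M (x.comp y h) = (act k M x).comp (act k M y) h := by
  subst h
  unfold act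
  rw [Ext.mapExactFunctor_comp]
  rw [Ext.comp_assoc (a₁ := 0) (a₂ := a) (a₃ := b) (a₁₂ := a) (a₂₃ := a + b) (a := a + b)
    _ _ _ (zero_add a) rfl (by omega)]
  congr 1
  rw [Ext.comp_assoc_of_second_deg_zero, Ext.mk₀_comp_mk₀_assoc, Iso.hom_inv_id, Ext.mk₀_id_comp,
    Ext.comp_assoc_of_third_deg_zero]

/-- `x ⊗ k = x` (naturality of `rhoT` and `rhoIso_triv`). -/
lemma act_triv {n : ℕ} (x : Ext (triv k H) (triv k H) n) : act k (triv k H) x = x := by
  have h := map_natTrans (tenR k (triv k H)) (𝟭 (ModuleCat.{u} H)) (rhoT k) x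
  rw [map_id_functor] at h
  have e : (rhoT k).app (triv k H) = (lamIso k (triv k H)).hom := rhoIso_triv k
  rw [e] at h
  unfold act
  refine (congrArg (fun z => (Ext.mk₀ (lamIso k (triv k H)).inv).comp z (zero_add n)) h).trans ?_
  refine (Ext.mk₀_comp_mk₀_assoc _ _ _).trans ?_
  rw [Iso.inv_hom_id]
  exact Ext.mk₀_id_comp x

section Gen

universe w v' u'

variable {𝒜 : Type u'} [Category.{v'} 𝒜] [Abelian 𝒜] [HasExt.{w} 𝒜]

lemma Inter_comp_zsmul {A B C : 𝒜} {a b c : ℕ} (x : Ext.{w} A B a) (n : ℤ) (y : Ext.{w} B C b)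
    (h : a + b = c) : x.comp (n • y) h = n • x.comp y h :=
  map_zsmul (AddMonoidHom.mk' (fun y => x.comp y h) (fun y y' => Ext.comp_add x y y' h)) n y

lemma Inter_zsmul_comp {A B C : 𝒜} {a b c : ℕ} (x : Ext.{w} A B a) (n : ℤ) (y : Ext.{w} B C b)
    (h : a + b = c) : (n • x).comp y h = n • x.comp y h :=
  map_zsmul (AddMonoidHom.mk' (fun x => Ext.comp x y h) (fun x x' => Ext.add_comp x x' y h)) n x

lemma Inter_comb {A B C A' B' C' : 𝒜} {a b : ℕ} (x : Ext.{w} A B a) (y : Ext.{w} B C b)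
    (tA : Ext.{w} A A' 1) (tB : Ext.{w} B B' 1) (tC : Ext.{w} C C' 1) (x' : Ext.{w} A' B' a)
    (y' : Ext.{w} B' C' b) (s t : ℤ)
    (hx : x.comp tB (rfl : a + 1 = a + 1) = s • tA.comp x' (by omega : 1 + a = a + 1))
    (hy : y.comp tC (rfl : b + 1 = b + 1) = t • tB.comp y' (by omega : 1 + b = b + 1))
    (h' : 1 + (a + b) = a + b + 1) :
    (x.comp y (rfl : a + b = a + b)).comp tC (rfl : a + b + 1 = a + b + 1) =
      (s * t) • tA.comp (x'.comp y' (rfl : a + b = a + b)) h' := by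
  rw [Ext.comp_assoc x y tC rfl (rfl : b + 1 = b + 1) (by omega), hy]
  have h1 : x.comp (t • tB.comp y' (by omega : 1 + b = b + 1)) (by omega : a + (b + 1) = a + b + 1) =
      t • (x.comp tB (rfl : a + 1 = a + 1)).comp y' (by omega : a + 1 + b = a + b + 1) := by
    rw [Inter_comp_zsmul, Ext.comp_assoc x tB y' rfl (by omega : 1 + b = b + 1) (by omega)]
  rw [h1, hx, Inter_zsmul_comp, Ext.comp_assoc tA x' y' (by omega : 1 + a = a + 1)
    (rfl : a + b = a + b) (by omega), smul_smul, mul_comm]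

end Gen

/-- Interchange for tensor products of an Ext class and a short exact sequence. For
`x ∈ Ext^m(M, M')` and `0 → W → F → Z → 0` with class `τ`:
`(x ⊗ Z) (M' ⊗ τ) = (-1)^m (M ⊗ τ) (x ⊗ W)`.
Proof: `ext_induction` on `x`; morphisms: `extClass_naturality`; classes of short exact sequences:
`grid` with the functors `tenL S.X₁ → tenL S.X₂ → tenL S.X₃` (and `mapExactFunctor_extClass`);
products: associativity. -/
theorem ten_interchange {M M' : ModuleCat.{u} H} {m : ℕ} (x : Ext M M' m)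
    (T : ShortComplex (ModuleCat.{u} H)) (hT : T.ShortExact) {c : ℕ} (h : m + 1 = c)
    (h' : 1 + m = c) :
    (x.mapExactFunctor (tenR k T.X₃)).comp (hT.extClass.mapExactFunctor (tenL k M')) h =
      ((-1 : ℤ) ^ m) • ((hT.extClass.mapExactFunctor (tenL k M)).comp
        (x.mapExactFunctor (tenR k T.X₁)) h') := by
  refine ext_induction (P := fun M M' m x => ∀ (c : ℕ) (h : m + 1 = c) (h' : 1 + m = c),
    (x.mapExactFunctor (tenR k T.X₃)).comp (hT.extClass.mapExactFunctor (tenL k M')) h =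
      ((-1 : ℤ) ^ m) • ((hT.extClass.mapExactFunctor (tenL k M)).comp
        (x.mapExactFunctor (tenR k T.X₁)) h')) ?_ ?_ ?_ x c h h'
  · intro X Y f c h h'
    obtain rfl : c = 1 := by omega
    rw [Ext.mapExactFunctor_mk₀, Ext.mapExactFunctor_mk₀, pow_zero, one_smul]
    exact (map_natTrans (tenL k X) (tenL k Y) (tenLmap k f) hT.extClass).symm
  · intro S hS c h h'
    obtain rfl : c = 2 := by omega
    have hw : ∀ X : ModuleCat.{u} H, (tenLmap k S.f).app X ≫ (tenLmap k S.g).app X = 0 := by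
      intro X
      have := (S.map (tenR k X)).zero
      exact this
    have hE : ∀ X : ModuleCat.{u} H, (ShortComplex.mk ((tenLmap k S.f).app X)
        ((tenLmap k S.g).app X) (hw X)).ShortExact := fun X => hS.map_of_exact (tenR k X)
    have hg := grid (tenL k S.X₁) (tenL k S.X₂) (tenL k S.X₃) (tenLmap k S.f) (tenLmap k S.g)
      hw hE T hT
    rw [Ext.mapExactFunctor_extClass (F := tenR k T.X₃), Ext.mapExactFunctor_extClass (F := tenR k T.X₁),
      pow_one, neg_smul, one_smul]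
    have h2 := congrArg (fun z => -z) hg
    simp only [neg_neg] at h2
    exact h2.symm
  · intro X Y Z a b c hc x y hx hy c' h h'
    subst hc
    obtain rfl : c' = a + b + 1 := by omega
    rw [Ext.mapExactFunctor_comp, Ext.mapExactFunctor_comp, pow_add]
    exact Inter_comb _ _ _ _ _ _ _ _ _ (hx (a + 1) rfl (by omega)) (hy (b + 1) rfl (by omega)) _

section Gen

universe w v' u'

variable {𝒜 : Type u'} [Category.{v'} 𝒜] [Abelian 𝒜] [HasExt.{w} 𝒜]

/-- the extension step of `act_comp_comm` -/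
lemma Inter_step {M₁ M₃ F₁ F₃ : 𝒜} {m c : ℕ} (i₁ : F₁ ≅ M₁) (i₃ : F₃ ≅ M₃) (x₁ : Ext.{w} F₁ F₁ m)
    (x₃ : Ext.{w} F₃ F₃ m) (σ : Ext.{w} M₃ M₁ 1) (τ : Ext.{w} F₃ F₁ 1) (s : ℤ)
    (hx : x₃.comp τ (rfl : m + 1 = m + 1) = s • τ.comp x₁ (by omega : 1 + m = m + 1))
    (hτ : τ.comp (Ext.mk₀ i₁.hom) (add_zero 1) = (Ext.mk₀ i₃.hom).comp σ (zero_add 1))
    (h : m + 1 = c) (h' : 1 + m = c) :
    ((Ext.mk₀ i₃.inv).comp (x₃.comp (Ext.mk₀ i₃.hom) (add_zero m)) (zero_add m)).comp σ h =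
      s • σ.comp ((Ext.mk₀ i₁.inv).comp (x₁.comp (Ext.mk₀ i₁.hom) (add_zero m)) (zero_add m)) h' := by
  subst h
  have e1 : ((Ext.mk₀ i₃.inv).comp (x₃.comp (Ext.mk₀ i₃.hom) (add_zero m)) (zero_add m)).comp σ
      (rfl : m + 1 = m + 1) =
      (Ext.mk₀ i₃.inv).comp ((x₃.comp τ (rfl : m + 1 = m + 1)).comp (Ext.mk₀ i₁.hom)
        (add_zero (m + 1))) (zero_add (m + 1)) := by
    rw [Ext.comp_assoc (a₁ := 0) (a₂ := m) (a₃ := 1) (a₁₂ := m) (a₂₃ := m + 1) (a := m + 1)
      _ _ _ (zero_add m) rfl (by omega), Ext.comp_assoc_of_second_deg_zero, ← hτ,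
      Ext.comp_assoc_of_third_deg_zero]
  have e2 : σ = (Ext.mk₀ i₃.inv).comp (τ.comp (Ext.mk₀ i₁.hom) (add_zero 1)) (zero_add 1) := by
    rw [hτ, Ext.mk₀_comp_mk₀_assoc, Iso.inv_hom_id, Ext.mk₀_id_comp]
  have e3 : σ.comp ((Ext.mk₀ i₁.inv).comp (x₁.comp (Ext.mk₀ i₁.hom) (add_zero m)) (zero_add m)) h' =
      (Ext.mk₀ i₃.inv).comp ((τ.comp x₁ h').comp (Ext.mk₀ i₁.hom)
        (add_zero (m + 1))) (zero_add (m + 1)) := by
    rw [e2, Ext.comp_assoc (a₁ := 0) (a₂ := 1) (a₃ := m) (a₁₂ := 1) (a₂₃ := m + 1) (a := m + 1)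
      _ _ _ (zero_add 1) h' (by omega), Ext.comp_assoc_of_second_deg_zero,
      Ext.mk₀_comp_mk₀_assoc, Iso.hom_inv_id, Ext.mk₀_id_comp, Ext.comp_assoc_of_third_deg_zero]
  rw [e1, hx, e3, Inter_zsmul_comp, Inter_comp_zsmul]

/-- the case of a morphism in `act_comp_comm` -/
lemma Inter_mor {X Y FX FY : 𝒜} {m : ℕ} (iX : FX ≅ X) (iY : FY ≅ Y) (xX : Ext.{w} FX FX m)
    (xY : Ext.{w} FY FY m) (φ : FX ⟶ FY) (f : X ⟶ Y)
    (h1 : xX.comp (Ext.mk₀ φ) (add_zero m) = (Ext.mk₀ φ).comp xY (zero_add m))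
    (h2 : φ ≫ iY.hom = iX.hom ≫ f) (h : m + 0 = m) (h' : 0 + m = m) :
    ((Ext.mk₀ iX.inv).comp (xX.comp (Ext.mk₀ iX.hom) (add_zero m)) (zero_add m)).comp
      (Ext.mk₀ f) h =
      (Ext.mk₀ f).comp ((Ext.mk₀ iY.inv).comp (xY.comp (Ext.mk₀ iY.hom) (add_zero m))
        (zero_add m)) h' := by
  have h3 : f ≫ iY.inv = iX.inv ≫ φ := by
    rw [Iso.eq_inv_comp, ← Category.assoc, ← h2, Category.assoc, Iso.hom_inv_id,
      Category.comp_id]
  have e1 : ((Ext.mk₀ iX.inv).comp (xX.comp (Ext.mk₀ iX.hom) (add_zero m)) (zero_add m)).comp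
      (Ext.mk₀ f) h = (Ext.mk₀ iX.inv).comp (xX.comp ((Ext.mk₀ φ).comp (Ext.mk₀ iY.hom)
        (zero_add 0)) (add_zero m)) (zero_add m) := by
    rw [Ext.comp_assoc_of_third_deg_zero, Ext.comp_assoc_of_third_deg_zero,
      Ext.mk₀_comp_mk₀, Ext.mk₀_comp_mk₀, h2]
  rw [e1, Ext.mk₀_comp_mk₀_assoc, h3, ← Ext.comp_assoc_of_third_deg_zero xX, h1,
    ← Ext.mk₀_comp_mk₀_assoc, Ext.comp_assoc_of_third_deg_zero]

end Gen

/-- `(x ⊗ M) g = (-1)^{mn} g (x ⊗ N)` for `x ∈ Ext^m(k,k)`, `g ∈ Ext^n(M,N)`.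
Proof: `ext_induction` on `g`; classes of short exact sequences: `ten_interchange` with
`M = M' = k` and the natural transformation `lamT` (`map_natTrans`). -/
theorem act_comp_comm {M N : ModuleCat.{u} H} {m n c : ℕ} (x : Ext (triv k H) (triv k H) m)
    (g : Ext M N n) (h : m + n = c) (h' : n + m = c) :
    (act k M x).comp g h = ((-1 : ℤ) ^ (m * n)) • g.comp (act k N x) h' := by
  refine ext_induction (P := fun M N n g => ∀ (c : ℕ) (h : m + n = c) (h' : n + m = c),
    (act k M x).comp g h = ((-1 : ℤ) ^ (m * n)) • g.comp (act k N x) h') ?_ ?_ ?_ g c h h'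
  · intro X Y f c h h'
    obtain rfl : c = m := by omega
    rw [mul_zero, pow_zero, one_smul]
    exact Inter_mor (lamIso k X) (lamIso k Y) (x.mapExactFunctor (tenR k X))
      (x.mapExactFunctor (tenR k Y)) ((tenRmap k f).app (triv k H)) f
      (map_natTrans (tenR k X) (tenR k Y) (tenRmap k f) x) ((lamT k).naturality f) h h'
  · intro S hS c h h'
    rw [mul_one]
    refine Inter_step (lamIso k S.X₁) (lamIso k S.X₃) (x.mapExactFunctor (tenR k S.X₁))
      (x.mapExactFunctor (tenR k S.X₃)) hS.extClass (hS.extClass.mapExactFunctor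
        (tenL k (triv k H))) _ ?_ ?_ h h'
    · exact ten_interchange x S hS rfl (by omega)
    · have h4 := map_natTrans (tenL k (triv k H)) (𝟭 (ModuleCat.{u} H)) (lamT k) hS.extClass
      rw [map_id_functor] at h4
      exact h4
  · intro X Y Z a b c hc g₁ g₂ h₁ h₂ c' h h'
    subst hc
    obtain rfl : c' = m + a + b := by omega
    rw [← Ext.comp_assoc _ _ _ (rfl : m + a = m + a) rfl (by omega), h₁ (m + a) rfl (by omega),
      Inter_zsmul_comp, Ext.comp_assoc _ _ _ (by omega : a + m = m + a) (rfl : m + b = m + b)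
      (by omega), h₂ (m + b) rfl (by omega), Inter_comp_zsmul,
      ← Ext.comp_assoc _ _ _ (rfl : a + b = a + b) (by omega : b + m = m + b) (by omega),
      smul_smul, mul_add, pow_add]

/-- For `x` of even degree, `x g = g (x ⊗ N)`, `g ∈ Ext^n(k, N)`. -/
theorem comp_act_of_even {N : ModuleCat.{u} H} {m n c : ℕ} (hm : Even m)
    (x : Ext (triv k H) (triv k H) m) (g : Ext (triv k H) N n) (h : m + n = c) (h' : n + m = c) :
    x.comp g h = g.comp (act k N x) h' := by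
  have h1 := act_comp_comm x g h h'
  rwa [act_triv, (hm.mul_right n).neg_one_pow, one_smul] at h1

/-- Graded commutativity of `Ext(k,k)`. -/
theorem comp_comm {m n c : ℕ} (x : Ext (triv k H) (triv k H) m) (y : Ext (triv k H) (triv k H) n)
    (h : m + n = c) (h' : n + m = c) :
    x.comp y h = ((-1 : ℤ) ^ (m * n)) • y.comp x h' := by
  have h1 := act_comp_comm x y h h'
  rwa [act_triv] at h1

/-- Even classes are central. -/
theorem comp_comm_of_even {m n c : ℕ} (hm : Even m) (x : Ext (triv k H) (triv k H) m)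
    (y : Ext (triv k H) (triv k H) n) (h : m + n = c) (h' : n + m = c) :
    x.comp y h = y.comp x h' := by
  rw [comp_comm x y h h', (hm.mul_right n).neg_one_pow, one_smul]

/-- The operators on `Ext(k, N)` given by even classes commute. -/
theorem EGP_comm (N : ModuleCat.{u} H) (S : Set (Cls (triv k H))) (hS : EvenPos S) :
    (EGP k (triv k H) N).Comm S := by
  intro i hi j hj a b c d h1 h2 h3 h4 v
  change j.2.comp (i.2.comp v h1) h2 = i.2.comp (j.2.comp v h3) h4
  subst h1 h3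
  obtain rfl : d = j.1 + (i.1 + a) := h2.symm
  rw [← Ext.comp_assoc j.2 i.2 v (rfl : j.1 + i.1 = j.1 + i.1) rfl (by omega),
    ← Ext.comp_assoc i.2 j.2 v (by omega : i.1 + j.1 = j.1 + i.1) rfl (by omega),
    comp_comm_of_even (hS j hj).1 j.2 i.2 rfl (by omega)]

section Gen

universe w v' u'

variable {𝒜 : Type u'} [Category.{v'} 𝒜] [Abelian 𝒜] [HasExt.{w} 𝒜]

/-- the diagram chase of `act_res` -/
lemma Inter_res {X T' TX T : 𝒜} {n : ℕ} (i : T' ≅ X) (q : T' ≅ TX) (j : T ≅ X)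
    (t : T ≅ TX) (x' : Ext.{w} T' T' n) (xX : Ext.{w} TX TX n) (x0 : Ext.{w} T T n)
    (hq : x'.comp (Ext.mk₀ q.hom) (add_zero n) = (Ext.mk₀ q.hom).comp xX (zero_add n))
    (ht : x0.comp (Ext.mk₀ t.hom) (add_zero n) = (Ext.mk₀ t.hom).comp xX (zero_add n))
    (hi : i.symm ≪≫ q = j.symm ≪≫ t) :
    (Ext.mk₀ i.inv).comp (x'.comp (Ext.mk₀ i.hom) (add_zero n)) (zero_add n) =
      (Ext.mk₀ j.inv).comp (x0.comp (Ext.mk₀ j.hom) (add_zero n)) (zero_add n) := by
  have e : ∀ {S : 𝒜} (p : S ≅ TX) (l : S ≅ X) (z : Ext.{w} S S n),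
      z.comp (Ext.mk₀ p.hom) (add_zero n) = (Ext.mk₀ p.hom).comp xX (zero_add n) →
      (Ext.mk₀ l.inv).comp (z.comp (Ext.mk₀ l.hom) (add_zero n)) (zero_add n) =
      (Ext.mk₀ (l.symm ≪≫ p).hom).comp (xX.comp (Ext.mk₀ (l.symm ≪≫ p).inv) (add_zero n))
        (zero_add n) := by
    intro S p l z hz
    have hz' : z = (Ext.mk₀ p.hom).comp (xX.comp (Ext.mk₀ p.inv) (add_zero n)) (zero_add n) := by
      rw [← Ext.comp_assoc_of_third_deg_zero, ← hz, Ext.comp_assoc_of_third_deg_zero,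
        Ext.mk₀_comp_mk₀, Iso.hom_inv_id, Ext.comp_mk₀_id]
    rw [hz', Ext.comp_assoc_of_third_deg_zero, Ext.comp_assoc_of_third_deg_zero,
      Ext.mk₀_comp_mk₀, Ext.mk₀_comp_mk₀_assoc]
    rfl
  rw [e q i x' hq, e t j x0 ht, hi]

lemma Inter_conj {T TX : 𝒜} {n : ℕ} (t : T ≅ TX) (x : Ext.{w} TX TX n) :
    (((Ext.mk₀ t.hom).comp x (zero_add n)).comp (Ext.mk₀ t.inv) (add_zero n)).comp
      (Ext.mk₀ t.hom) (add_zero n) = (Ext.mk₀ t.hom).comp x (zero_add n) := by
  rw [Ext.comp_assoc_of_third_deg_zero, Ext.mk₀_comp_mk₀, Iso.inv_hom_id, Ext.comp_mk₀_id]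

end Gen

/-- The class `x ⊗ M` is compatible with restriction along bialgebra homomorphisms
(from `resTenT`, `map_natTrans`, `map_comp_functor`). -/
theorem act_res {A : Type u} [Ring A] [Bialgebra k A] (f : A →ₐc[k] H) (M : ModuleCat.{u} H)
    {n : ℕ} (x : Ext (triv k H) (triv k H) n) :
    (act k M x).mapExactFunctor (resF (f : A →ₐ[k] H).toRingHom) =
      act k ((resF (f : A →ₐ[k] H).toRingHom).obj M) (res f x) := by
  have hL : (act k M x).mapExactFunctor (resF (f : A →ₐ[k] H).toRingHom) =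
      (Ext.mk₀ ((resF (f : A →ₐ[k] H).toRingHom).mapIso (lamIso k M)).inv).comp
        (((x.mapExactFunctor (tenR k M)).mapExactFunctor
          (resF (f : A →ₐ[k] H).toRingHom)).comp
          (Ext.mk₀ ((resF (f : A →ₐ[k] H).toRingHom).mapIso (lamIso k M)).hom) (add_zero n))
          (zero_add n) := by
    unfold act
    rw [Ext.mapExactFunctor_comp, Ext.mapExactFunctor_comp, Ext.mapExactFunctor_mk₀,
      Ext.mapExactFunctor_mk₀]
    rfl
  rw [hL]
  refine Inter_res ((resF (f : A →ₐ[k] H).toRingHom).mapIso (lamIso k M))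
    (resTen k f (triv k H) M) (lamIso k ((resF (f : A →ₐ[k] H).toRingHom).obj M))
    ((tenR k ((resF (f : A →ₐ[k] H).toRingHom).obj M)).mapIso
      (trvIso _ _ (f : A →ₐ[k] H) f.counitAlgHom_comp)) _
    ((x.mapExactFunctor (resF (f : A →ₐ[k] H).toRingHom)).mapExactFunctor
      (tenR k ((resF (f : A →ₐ[k] H).toRingHom).obj M))) _ ?_ ?_ ?_
  · have h1 := map_natTrans _ _ (resTenT k f M).hom x
    rw [← map_comp_functor, ← map_comp_functor] at h1
    exact h1
  · unfold res resK resX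
    rw [Ext.mapExactFunctor_comp, Ext.mapExactFunctor_comp, Ext.mapExactFunctor_mk₀,
      Ext.mapExactFunctor_mk₀]
    refine Inter_conj ((tenR k ((resF (f : A →ₐ[k] H).toRingHom).obj M)).mapIso
      (trvIso _ _ (f : A →ₐ[k] H) f.counitAlgHom_comp)) _
  · refine Iso.ext ?_
    refine ModuleCat.hom_ext (LinearMap.ext fun m => ?_)
    have h1 : (resTen k f (triv k H) M).hom.hom (ten k (tone k H) m) = _ :=
      resTen_hom_ten k f (triv k H) M (tone k H) m
    refine h1.trans ?_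
    change _ = ((tenR k ((resF (f : A →ₐ[k] H).toRingHom).obj M)).map
      (trvIso _ _ (f : A →ₐ[k] H) f.counitAlgHom_comp).hom).hom (ten k (tone k A) m)
    change _ = ten k ((trvIso _ _ (f : A →ₐ[k] H) f.counitAlgHom_comp).hom.hom (tone k A)) m
    rw [trvIso_hom_apply]
    rfl

end Pool.Agent.H26.FG
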