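import Pool.Agent.H26.FG.Defs

/-!
# Module KTa: elementary consequences of exactness
-/

open CategoryTheory TensorProduct Coalgebra HopfAlgebra

universe u

namespace Pool.Agent.H26.FG

variable {k : Type u} [Field k] {A C B : Type u} [Ring A] [HopfAlgebra k A]
  [Ring C] [HopfAlgebra k C] [Ring B] [HopfAlgebra k B] {ι : A →ₐc[k] C} {π : C →ₐc[k] B}

lemma h88_map_algebraMap (f : A →ₐc[k] C) (r : k) : f (algebraMap k A r) = algebraMap k C r :=
  (f : A →ₐ[k] C).commutes r

/-- A bialgebra homomorphism of Hopf algebras commutes with the antipodes. -/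
lemma map_antipode (f : A →ₐc[k] C) (a : A) : f (antipode k a) = antipode k (f a) := by
  let f' : A →ₗ[k] C := (f : A →ₐ[k] C).toLinearMap
  have hf' : ∀ x, f' x = f x := fun x => rfl
  have h1 : WithConv.toConv (f' ∘ₗ antipode k) * WithConv.toConv f' = 1 := by
    ext x
    rw [(Coalgebra.Repr.arbitrary k x).convMul_apply]
    simp only [LinearMap.comp_apply, hf', ← map_mul, ← map_sum]
    rw [sum_antipode_mul_eq_algebraMap_counit, h88_map_algebraMap]
    simp
  have h2 : WithConv.toConv f' * WithConv.toConv (antipode k ∘ₗ f') = 1 := by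
    ext x
    rw [(Coalgebra.Repr.arbitrary k x).convMul_apply]
    simp only [LinearMap.comp_apply, hf']
    have h3 := sum_mul_antipode_eq_algebraMap_counit (R := k)
      ((Coalgebra.Repr.arbitrary k x).induced f)
    simp only [Coalgebra.Repr.induced] at h3
    exact h3.trans (by simp)
  have h3 := left_inv_eq_right_inv h1 h2
  have h4 := WithConv.toConv_injective h3
  exact LinearMap.congr_fun h4 a

/-- The left adjoint action by a representation of the comultiplication. -/
lemma h88_adl (c x : C) {κ : Type*} (r : Coalgebra.Repr k c κ) :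
    adl k c x = ∑ i ∈ r.index, r.left i * x * antipode k (r.right i) := by
  unfold adl
  rw [← r.eq, map_sum, map_sum]
  exact Finset.sum_congr rfl fun i _ => rfl

lemma h88_adl_add_left (c c' x : C) : adl k (c + c') x = adl k c x + adl k c' x := by
  unfold adl
  rw [map_add, map_add, map_add]

lemma h88_adl_smul_left (s : k) (c x : C) : adl k (s • c) x = s • adl k c x := by
  unfold adl
  rw [map_smul, map_smul, map_smul]

lemma h88_adl_add (c x y : C) : adl k c (x + y) = adl k c x + adl k c y := by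
  rw [h88_adl c _ (Coalgebra.Repr.arbitrary k c), h88_adl c _ (Coalgebra.Repr.arbitrary k c),
    h88_adl c _ (Coalgebra.Repr.arbitrary k c), ← Finset.sum_add_distrib]
  exact Finset.sum_congr rfl fun i _ => by rw [mul_add, add_mul]

lemma h88_adl_smul (s : k) (c x : C) : adl k c (s • x) = s • adl k c x := by
  rw [h88_adl c _ (Coalgebra.Repr.arbitrary k c), h88_adl c _ (Coalgebra.Repr.arbitrary k c),
    Finset.smul_sum]
  exact Finset.sum_congr rfl fun i _ => by rw [mul_smul_comm, smul_mul_assoc]

/-- the map `u ⊗ (v ⊗ w) ↦ u x S(v) w` -/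
noncomputable def h88_phi (k : Type u) [Field k] {C : Type u} [Ring C] [HopfAlgebra k C] (x : C) :
    C ⊗[k] (C ⊗[k] C) →ₗ[k] C :=
  LinearMap.mul' k C ∘ₗ TensorProduct.map (LinearMap.mulRight k x)
    (LinearMap.mul' k C ∘ₗ TensorProduct.map (HopfAlgebra.antipode k) LinearMap.id)

lemma h88_phi_tmul (x u v w : C) :
    h88_phi k x (u ⊗ₜ (v ⊗ₜ w)) = u * x * (antipode k v * w) := rfl

/-- `c x = ∑ ad(c₁)(x) c₂` -/
lemma h88_mul_eq (c x : C) {κ : Type*} (r : Coalgebra.Repr k c κ) :
    c * x = ∑ i ∈ r.index, adl k (r.left i) x * r.right i := by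
  have h := sum_tmul_tmul_eq r (fun i => Coalgebra.Repr.arbitrary k (r.left i))
    (fun i => Coalgebra.Repr.arbitrary k (r.right i))
  have h1 := congrArg (h88_phi k x) h
  simp only [map_sum, h88_phi_tmul] at h1
  have h2 : ∀ i ∈ r.index, adl k (r.left i) x * r.right i =
      ∑ j ∈ (Coalgebra.Repr.arbitrary k (r.left i)).index,
        (Coalgebra.Repr.arbitrary k (r.left i)).left j * x *
          (antipode k ((Coalgebra.Repr.arbitrary k (r.left i)).right j) * r.right i) := by
    intro i _
    rw [h88_adl _ x (Coalgebra.Repr.arbitrary k (r.left i)), Finset.sum_mul]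
    exact Finset.sum_congr rfl fun j _ => by rw [mul_assoc]
  rw [Finset.sum_congr rfl h2, h1]
  have h3 : ∀ i ∈ r.index, ∑ j ∈ (Coalgebra.Repr.arbitrary k (r.right i)).index,
        r.left i * x * (antipode k ((Coalgebra.Repr.arbitrary k (r.right i)).left j) *
          (Coalgebra.Repr.arbitrary k (r.right i)).right j) =
      (counit (R := k) (r.right i) • r.left i) * x := by
    intro i _
    rw [← Finset.mul_sum, sum_antipode_mul_eq_smul, mul_smul_comm, mul_one, smul_mul_assoc]
  rw [Finset.sum_congr rfl h3, ← Finset.sum_mul]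
  congr 1
  have h4 := congrArg (TensorProduct.lift (LinearMap.flip (LinearMap.lsmul k C)))
    (sum_tmul_counit_eq (R := k) r)
  simp only [map_sum, TensorProduct.lift.tmul, LinearMap.flip_apply, LinearMap.lsmul_apply,
    one_smul] at h4
  exact h4.symm

/-- the map `u ⊗ (v ⊗ w) ↦ ad(u)(x) (v y S(w))` -/
noncomputable def h88_psi (k : Type u) [Field k] {C : Type u} [Ring C] [HopfAlgebra k C]
    (x y : C) : C ⊗[k] (C ⊗[k] C) →ₗ[k] C :=
  LinearMap.mul' k C ∘ₗ TensorProduct.map
    { toFun := fun c => adl k c x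
      map_add' := fun c c' => h88_adl_add_left c c' x
      map_smul' := fun s c => h88_adl_smul_left s c x }
    (LinearMap.mul' k C ∘ₗ TensorProduct.map (LinearMap.mulRight k y) (HopfAlgebra.antipode k))

lemma h88_psi_tmul (x y u v w : C) :
    h88_psi k x y (u ⊗ₜ (v ⊗ₜ w)) = adl k u x * (v * y * antipode k w) := rfl

/-- `ad(c)(x y) = ∑ ad(c₁)(x) ad(c₂)(y)` -/
lemma h88_adl_mul (c x y : C) {κ : Type*} (r : Coalgebra.Repr k c κ) :
    adl k c (x * y) = ∑ i ∈ r.index, adl k (r.left i) x * adl k (r.right i) y := by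
  have h := sum_tmul_tmul_eq r (fun i => Coalgebra.Repr.arbitrary k (r.left i))
    (fun i => Coalgebra.Repr.arbitrary k (r.right i))
  have h1 := congrArg (h88_psi k x y) h
  simp only [map_sum, h88_psi_tmul] at h1
  rw [h88_adl c _ r]
  have h2 : ∀ i ∈ r.index, r.left i * (x * y) * antipode k (r.right i) =
      ∑ j ∈ (Coalgebra.Repr.arbitrary k (r.left i)).index,
        adl k ((Coalgebra.Repr.arbitrary k (r.left i)).left j) x *
          ((Coalgebra.Repr.arbitrary k (r.left i)).right j * y * antipode k (r.right i)) := by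
    intro i _
    rw [← mul_assoc (r.left i) x y, h88_mul_eq (r.left i) x (Coalgebra.Repr.arbitrary k (r.left i)),
      Finset.sum_mul, Finset.sum_mul]
    exact Finset.sum_congr rfl fun j _ => by simp only [mul_assoc]
  rw [Finset.sum_congr rfl h2, h1]
  refine Finset.sum_congr rfl fun i _ => ?_
  rw [h88_adl (r.right i) y (Coalgebra.Repr.arbitrary k (r.right i)), Finset.mul_sum]

namespace HopfExact

lemma map_of_counit_eq_zero (hex : HopfExact ι π) (a : A) (ha : counit (R := k) a = 0) :
    π (ι a) = 0 := by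
  rw [hex.ker]
  exact Ideal.subset_span ⟨a, ha, rfl⟩

lemma map_comp (hex : HopfExact ι π) (a : A) : π (ι a) = algebraMap k B (counit (R := k) a) := by
  have h := hex.map_of_counit_eq_zero (a - algebraMap k A (counit (R := k) a)) (by simp)
  rw [map_sub, map_sub, sub_eq_zero, h88_map_algebraMap, h88_map_algebraMap] at h
  exact h

/-- `ker π = C ι(A⁺)`, additive form. -/
lemma ker_left (hex : HopfExact ι π) (c : C) (hc : π c = 0) :
    c ∈ Submodule.span k {x | ∃ (c' : C) (a : A), counit (R := k) a = 0 ∧ x = c' * ι a} := by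
  have h := (hex.ker c).1 hc
  refine Submodule.span_induction ?_ ?_ ?_ ?_ h
  · rintro x ⟨a, ha, rfl⟩
    exact Submodule.subset_span ⟨1, a, ha, (one_mul _).symm⟩
  · exact Submodule.zero_mem _
  · intro x y _ _ hx hy
    exact Submodule.add_mem _ hx hy
  · intro b x _ hx
    have h1 : Submodule.span k {x | ∃ (c' : C) (a : A), counit (R := k) a = 0 ∧ x = c' * ι a} ≤
        (Submodule.span k {x | ∃ (c' : C) (a : A), counit (R := k) a = 0 ∧ x = c' * ι a}).comap
          (LinearMap.mulLeft k b) := by
      rw [Submodule.span_le]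
      rintro y ⟨c', a, ha, rfl⟩
      exact Submodule.subset_span ⟨b * c', a, ha, by simp [mul_assoc]⟩
    exact h1 hx

/-- The adjoint action is given by elements of `A`. -/
lemma map_adA (hex : HopfExact ι π) (c : C) (a : A) : ι (adA ι c a) = adl k c (ι a) :=
  Function.invFun_eq (hex.adl_mem c a)

/-- `c ι(a) = ∑ ι(ad(c₁) a) c₂`. -/
lemma mul_eq (hex : HopfExact ι π) (c : C) (a : A) {κ : Type*} (r : Coalgebra.Repr k c κ) :
    c * ι a = ∑ i ∈ r.index, ι (adA ι (r.left i) a) * r.right i := by
  rw [h88_mul_eq c (ι a) r]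
  exact Finset.sum_congr rfl fun i _ => by rw [hex.map_adA]

/-- The adjoint action `c ↦ ad(c)(a)` is linear in `c` and in `a`. -/
lemma exists_adA_linear (hex : HopfExact ι π) :
    ∃ F : C →ₗ[k] A →ₗ[k] A, ∀ c a, F c a = adA ι c a := by
  refine ⟨LinearMap.mk₂ k (fun c a => adA ι c a) ?_ ?_ ?_ ?_, fun c a => rfl⟩
  · intro c c' a
    apply hex.inj
    rw [map_add, hex.map_adA, hex.map_adA, hex.map_adA, h88_adl_add_left]
  · intro s c a
    apply hex.inj
    rw [map_smul, hex.map_adA, hex.map_adA, h88_adl_smul_left]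
  · intro c a a'
    apply hex.inj
    rw [map_add, hex.map_adA, hex.map_adA, hex.map_adA, map_add, h88_adl_add]
  · intro s c a
    apply hex.inj
    rw [map_smul, hex.map_adA, hex.map_adA, map_smul, h88_adl_smul]

/-- `ad(c)(a b) = ∑ ad(c₁)(a) ad(c₂)(b)`. -/
lemma adA_mul (hex : HopfExact ι π) (c : C) (a b : A) {κ : Type*} (r : Coalgebra.Repr k c κ) :
    adA ι c (a * b) = ∑ i ∈ r.index, adA ι (r.left i) a * adA ι (r.right i) b := by
  apply hex.inj
  rw [hex.map_adA, map_mul, h88_adl_mul c _ _ r, map_sum]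
  exact Finset.sum_congr rfl fun i _ => by rw [map_mul, hex.map_adA, hex.map_adA]

lemma counit_adA (hex : HopfExact ι π) (c : C) (a : A) :
    counit (R := k) (adA ι c a) = counit (R := k) c * counit (R := k) a := by
  have h1 : ∀ x : A, counit (R := k) (ι x) = counit (R := k) x := fun x =>
    CoalgHomClass.counit_comp_apply ι x
  rw [← h1, hex.map_adA, h88_adl c _ (Coalgebra.Repr.arbitrary k c), map_sum, ← h1 a]
  have h2 : ∀ i ∈ (Coalgebra.Repr.arbitrary k c).index,
      counit (R := k) ((Coalgebra.Repr.arbitrary k c).left i * ι a *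
        antipode k ((Coalgebra.Repr.arbitrary k c).right i)) =
      counit (R := k) (counit (R := k) ((Coalgebra.Repr.arbitrary k c).left i) •
        (Coalgebra.Repr.arbitrary k c).right i) * counit (R := k) (ι a) := by
    intro i _
    rw [Bialgebra.counit_mul, Bialgebra.counit_mul, counit_antipode, map_smul, smul_eq_mul]
    ring
  rw [Finset.sum_congr rfl h2, ← Finset.sum_mul, ← map_sum, sum_counit_smul]

/-- `ker π = ι(A⁺) C` (normality: `c ι(a) = ∑ (ad c₁)(a) c₂`, `ι(a) c = ∑ c₁ (ad' c₂)(a)`). -/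
lemma ker_right (hex : HopfExact ι π) (c : C) (hc : π c = 0) :
    c ∈ Submodule.span k {x | ∃ (c' : C) (a : A), counit (R := k) a = 0 ∧ x = ι a * c'} := by
  have h := hex.ker_left c hc
  have h1 : Submodule.span k {x | ∃ (c' : C) (a : A), counit (R := k) a = 0 ∧ x = c' * ι a} ≤
      Submodule.span k {x | ∃ (c' : C) (a : A), counit (R := k) a = 0 ∧ x = ι a * c'} := by
    rw [Submodule.span_le]
    rintro y ⟨c', a, ha, rfl⟩
    rw [SetLike.mem_coe, hex.mul_eq c' a (Coalgebra.Repr.arbitrary k c')]
    refine Submodule.sum_mem _ fun i _ => ?_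
    exact Submodule.subset_span ⟨_, _, by rw [hex.counit_adA, ha, mul_zero], rfl⟩
  exact h1 h

end HopfExact

end Pool.Agent.H26.FG
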