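import Pool.Agent.H26.FG.LS
import Pool.Agent.H26.FG.KTa

/-!
# Module KT: coinvariants, projectivity of `C` over the normal Hopf subalgebra `A`
-/

open CategoryTheory TensorProduct Coalgebra HopfAlgebra

universe u

namespace Pool.Agent.H26.FG

variable {k : Type u} [Field k] {A C B : Type u} [Ring A] [HopfAlgebra k A]
  [Ring C] [HopfAlgebra k C] [Ring B] [HopfAlgebra k B] {ι : A →ₐc[k] C} {π : C →ₐc[k] B}

/-- functionals through a non-degenerate form, left version -/
lemma KT_repL [Module.Finite k A] (t : A →ₗ[k] k) (ht : ∀ x : A, (∀ y : A, t (x * y) = 0) → x = 0) :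
    ∃ e : Module.Dual k A →ₗ[k] A, ∀ (f : Module.Dual k A) (y : A), t (e f * y) = f y := by
  let Φ : A →ₗ[k] Module.Dual k A := (LinearMap.mul k A).compr₂ t
  have hΦ : ∀ x y, Φ x y = t (x * y) := fun x y => rfl
  have hinj : Function.Injective Φ := by
    rw [← LinearMap.ker_eq_bot, LinearMap.ker_eq_bot']
    intro x hx
    exact ht x fun y => by rw [← hΦ, hx]; rfl
  let E := LinearMap.linearEquivOfInjective Φ hinj Subspace.dual_finrank_eq.symm
  refine ⟨E.symm.toLinearMap, fun f y => ?_⟩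
  have h1 : Φ (E.symm f) = f := E.apply_symm_apply f
  rw [← hΦ]
  exact congrArg (fun g : Module.Dual k A => g y) h1

/-- functionals through a non-degenerate form, right version -/
lemma KT_repR [Module.Finite k A] (t : A →ₗ[k] k) (ht : ∀ x : A, (∀ y : A, t (y * x) = 0) → x = 0) :
    ∃ e : Module.Dual k A →ₗ[k] A, ∀ (f : Module.Dual k A) (y : A), t (y * e f) = f y := by
  let Φ : A →ₗ[k] Module.Dual k A := (LinearMap.mul k A).flip.compr₂ t
  have hΦ : ∀ x y, Φ x y = t (y * x) := fun x y => rfl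
  have hinj : Function.Injective Φ := by
    rw [← LinearMap.ker_eq_bot, LinearMap.ker_eq_bot']
    intro x hx
    exact ht x fun y => by rw [← hΦ, hx]; rfl
  let E := LinearMap.linearEquivOfInjective Φ hinj Subspace.dual_finrank_eq.symm
  refine ⟨E.symm.toLinearMap, fun f y => ?_⟩
  have h1 : Φ (E.symm f) = f := E.apply_symm_apply f
  rw [← hΦ]
  exact congrArg (fun g : Module.Dual k A => g y) h1

/-- `ι` as a linear map -/
noncomputable def KT_il (ι : A →ₐc[k] C) : A →ₗ[k] C := (ι : A →ₐ[k] C).toLinearMap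

lemma KT_il_apply (ι : A →ₐc[k] C) (a : A) : KT_il ι a = ι a := rfl

/-- right `A`-linear retraction -/
lemma KT_retR [Module.Finite k A] (hι : Function.Injective ι) :
    ∃ r : C →ₗ[k] A, (∀ c a, r (c * ι a) = r c * a) ∧ (∀ a, r (ι a) = a) := by
  obtain ⟨t, -, ht, -, -⟩ := larson_sweedler k A
  obtain ⟨e, he⟩ := KT_repL t ht
  obtain ⟨g, hg⟩ := LinearMap.exists_leftInverse_of_injective (KT_il ι)
    (LinearMap.ker_eq_bot.2 hι)
  have hg' : ∀ a, g (ι a) = a := fun a => congrArg (fun f : A →ₗ[k] A => f a) hg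
  let r : C →ₗ[k] A := e ∘ₗ (((LinearMap.mul k C).compr₂ (t ∘ₗ g)).compl₂ (KT_il ι))
  have hr : ∀ c a, t (r c * a) = t (g (c * ι a)) := fun c a => he _ a
  have hu : ∀ x y : A, (∀ z, t (x * z) = t (y * z)) → x = y := by
    intro x y h
    rw [← sub_eq_zero]
    apply ht
    intro z
    rw [sub_mul, map_sub, h, sub_self]
  refine ⟨r, fun c a => hu _ _ fun z => ?_, fun a => hu _ _ fun z => ?_⟩
  · rw [hr, mul_assoc, ← map_mul, mul_assoc, hr]
  · rw [hr, ← map_mul, hg']

/-- left `A`-linear retraction -/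
lemma KT_retL [Module.Finite k A] (hι : Function.Injective ι) :
    ∃ r : C →ₗ[k] A, (∀ a c, r (ι a * c) = a * r c) ∧ (∀ a, r (ι a) = a) := by
  obtain ⟨t, -, -, ht, -⟩ := larson_sweedler k A
  obtain ⟨e, he⟩ := KT_repR t ht
  obtain ⟨g, hg⟩ := LinearMap.exists_leftInverse_of_injective (KT_il ι)
    (LinearMap.ker_eq_bot.2 hι)
  have hg' : ∀ a, g (ι a) = a := fun a => congrArg (fun f : A →ₗ[k] A => f a) hg
  let r : C →ₗ[k] A := e ∘ₗ (((LinearMap.mul k C).flip.compr₂ (t ∘ₗ g)).compl₂ (KT_il ι))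
  have hr : ∀ c a, t (a * r c) = t (g (ι a * c)) := fun c a => he _ a
  have hu : ∀ x y : A, (∀ z, t (z * x) = t (z * y)) → x = y := by
    intro x y h
    rw [← sub_eq_zero]
    apply ht
    intro z
    rw [mul_sub, map_sub, h, sub_self]
  refine ⟨r, fun a c => hu _ _ fun z => ?_, fun a => hu _ _ fun z => ?_⟩
  · rw [hr, ← mul_assoc, ← map_mul, ← mul_assoc z, hr]
  · rw [hr, ← map_mul, hg']

/-- the auxiliary map of `coinv`: `c ⊗ c' ↦ ∑ ι(r(c S(c'₁))) c'₂` -/
noncomputable def KT_Psi (r : C →ₗ[k] A) (ι : A →ₐc[k] C) : C ⊗[k] C →ₗ[k] C :=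
  LinearMap.mul' k C ∘ₗ
    TensorProduct.map (KT_il ι ∘ₗ r ∘ₗ LinearMap.mul' k C ∘ₗ LinearMap.lTensor C (antipode k)) LinearMap.id ∘ₗ
    (TensorProduct.assoc k C C C).symm.toLinearMap ∘ₗ LinearMap.lTensor C (comul (R := k))

lemma KT_Psi_tmul (r : C →ₗ[k] A) (ι : A →ₐc[k] C) (c c' : C) {κ : Type*} (ρ : Repr k c' κ) :
    KT_Psi r ι (c ⊗ₜ c') = ∑ i ∈ ρ.index, ι (r (c * antipode k (ρ.left i))) * ρ.right i := by
  unfold KT_Psi
  simp only [LinearMap.comp_apply, LinearMap.lTensor_tmul, ← ρ.eq, tmul_sum, map_sum,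
    LinearEquiv.coe_coe, TensorProduct.assoc_symm_tmul, TensorProduct.map_tmul,
    LinearMap.mul'_apply, LinearMap.id_apply, KT_il_apply]

lemma KT_Psi_comul (r : C →ₗ[k] A) (ι : A →ₐc[k] C) (hr : ∀ a, r (ι a) = a) (c : C) :
    KT_Psi r ι (comul (R := k) c) = c := by
  unfold KT_Psi
  simp only [LinearMap.comp_apply, LinearEquiv.coe_coe, coassoc_symm_apply]
  have ρ := Repr.arbitrary k c
  have h1 : ∀ x : C, KT_il ι (r (LinearMap.mul' k C (LinearMap.lTensor C (antipode k)
      (comul (R := k) x)))) = counit (R := k) x • (1 : C) := by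
    intro x
    rw [mul_antipode_lTensor_comul_apply, Algebra.algebraMap_eq_smul_one, map_smul, map_smul]
    congr 1
    have := hr 1
    rw [map_one] at this
    rw [this, KT_il_apply, map_one]
  rw [← ρ.eq]
  simp only [map_sum, LinearMap.rTensor_tmul, TensorProduct.map_tmul, LinearMap.comp_apply, h1,
    LinearMap.mul'_apply, LinearMap.id_apply, smul_mul_assoc, one_mul]
  exact sum_counit_smul ρ

lemma KT_Psi_one (r : C →ₗ[k] A) (ι : A →ₐc[k] C) (c : C) :
    KT_Psi r ι (c ⊗ₜ 1) = ι (r c) := by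
  unfold KT_Psi
  simp only [LinearMap.comp_apply, LinearMap.lTensor_tmul, Bialgebra.comul_one,
    Algebra.TensorProduct.one_def,
    LinearEquiv.coe_coe, TensorProduct.assoc_symm_tmul, TensorProduct.map_tmul,
    LinearMap.mul'_apply, LinearMap.id_apply, KT_il_apply, antipode_one, mul_one]

lemma KT_Psi_mul (r : C →ₗ[k] A) (ι : A →ₐc[k] C) (hr : ∀ c a, r (c * ι a) = r c * a) (c : C) (a : A)
    (c' : C) : KT_Psi r ι (c ⊗ₜ (ι a * c')) = counit (R := k) a • KT_Psi r ι (c ⊗ₜ c') := by
  let ρa := Repr.arbitrary k a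
  let ρc := Repr.arbitrary k c'
  let ρι : Repr k (ι a) (A × A) :=
    { index := ρa.index
      left := fun i => ι (ρa.left i)
      right := fun i => ι (ρa.right i)
      eq := by
        have h1 : comul (R := k) (ι a) = TensorProduct.map (ι : A →ₗ[k] C) (ι : A →ₗ[k] C) (comul (R := k) a) :=
          (CoalgHomClass.map_comp_comul_apply ι a).symm
        rw [h1, ← ρa.eq, map_sum]
        rfl }
  rw [KT_Psi_tmul r ι c (ι a * c') (ρι.mul ρc), KT_Psi_tmul r ι c c' ρc]
  have h2 : (ρι.mul ρc).index = ρa.index ×ˢ ρc.index := rfl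
  rw [h2, Finset.sum_product_right, Finset.smul_sum]
  refine Finset.sum_congr rfl fun j _ => ?_
  have h3 : ∀ i, (ρι.mul ρc).left (i, j) = ι (ρa.left i) * ρc.left j := fun _ => rfl
  have h4 : ∀ i, (ρι.mul ρc).right (i, j) = ι (ρa.right i) * ρc.right j := fun _ => rfl
  simp only [h3, h4, antipode_mul_antidistrib]
  have h5 : ∀ i, antipode k (ι (ρa.left i)) = ι (antipode k (ρa.left i)) := fun i =>
    (map_antipode ι _).symm
  simp only [h5]
  simp only [← mul_assoc, hr, map_mul]
  simp only [mul_assoc (ι (r (c * antipode k (ρc.left j))))]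
  rw [← Finset.mul_sum, ← Finset.sum_mul]
  simp only [← map_mul]
  rw [← map_sum, sum_antipode_mul_eq_smul, map_smul, map_one]
  simp


lemma KT_sum_smul (c : C) {κ : Type*} (ρ : Repr k c κ) :
    ∑ i ∈ ρ.index, counit (R := k) (ρ.right i) • ρ.left i = c := by
  have h := sum_tmul_counit_eq ρ
  have h2 := congrArg (TensorProduct.rid k C) h
  simp only [map_sum, TensorProduct.rid_tmul, one_smul] at h2
  exact h2

lemma KT_antip (x : C) : TensorProduct.map (LinearMap.mul' k C ∘ₗ LinearMap.rTensor C (antipode k))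
    LinearMap.id ((TensorProduct.assoc k C C C).symm (LinearMap.lTensor C (comul (R := k))
      (comul (R := k) x))) = (1 : C) ⊗ₜ[k] x := by
  rw [coassoc_symm_apply]
  have ρ := Repr.arbitrary k x
  conv_rhs => rw [← sum_counit_smul ρ]
  rw [← ρ.eq]
  simp only [map_sum, LinearMap.rTensor_tmul, TensorProduct.map_tmul, LinearMap.comp_apply,
    mul_antipode_rTensor_comul_apply, Algebra.algebraMap_eq_smul_one, LinearMap.id_apply,
    TensorProduct.smul_tmul, TensorProduct.tmul_sum]

/-- the trace `c ↦ ∑ c₁ t(π c₂)` -/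
noncomputable def KT_tr (t : B →ₗ[k] k) (π : C →ₐc[k] B) : C →ₗ[k] C :=
  (TensorProduct.rid k C).toLinearMap ∘ₗ LinearMap.lTensor C (t ∘ₗ (π : C →ₐ[k] B).toLinearMap) ∘ₗ
    comul (R := k)

lemma KT_tr_apply (t : B →ₗ[k] k) (π : C →ₐc[k] B) (c : C) {κ : Type*} (ρ : Repr k c κ) :
    KT_tr t π c = ∑ i ∈ ρ.index, t (π (ρ.right i)) • ρ.left i := by
  unfold KT_tr
  simp only [LinearMap.comp_apply, ← ρ.eq, map_sum, LinearMap.lTensor_tmul, LinearEquiv.coe_coe,
    TensorProduct.rid_tmul]
  rfl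

lemma KT_tr_coinv (t : B →ₗ[k] k) (π : C →ₐc[k] B)
    (ht : ∀ b : B, TensorProduct.rid k B (TensorProduct.map LinearMap.id t (comul (R := k) b)) =
        t b • (1 : B)) (c : C) :
    TensorProduct.map LinearMap.id (π : C →ₐ[k] B).toLinearMap (comul (R := k) (KT_tr t π c)) =
      KT_tr t π c ⊗ₜ[k] (1 : B) := by
  let p : C →ₗ[k] B := (π : C →ₐ[k] B).toLinearMap
  have hy : ∀ y : C, TensorProduct.rid k B (TensorProduct.map p (t ∘ₗ p) (comul (R := k) y)) =
      t (p y) • (1 : B) := by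
    intro y
    rw [← ht (p y)]
    have h1 : comul (R := k) (p y) = TensorProduct.map (π : C →ₗ[k] B) (π : C →ₗ[k] B)
        (comul (R := k) y) := (CoalgHomClass.map_comp_comul_apply π y).symm
    rw [h1]
    have ρ := Repr.arbitrary k y
    rw [← ρ.eq]
    simp only [map_sum, TensorProduct.map_tmul, TensorProduct.rid_tmul]
    rfl
  let F : (C ⊗[k] C) ⊗[k] C →ₗ[k] C ⊗[k] B :=
    (TensorProduct.rid k (C ⊗[k] B)).toLinearMap ∘ₗ TensorProduct.map (LinearMap.lTensor C p) (t ∘ₗ p)
  have h1 : TensorProduct.map LinearMap.id p (comul (R := k) (KT_tr t π c)) =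
      F (LinearMap.rTensor C (comul (R := k)) (comul (R := k) c)) := by
    have ρ := Repr.arbitrary k c
    rw [KT_tr_apply t π c ρ]
    simp only [map_sum, map_smul]
    rw [← ρ.eq]
    simp only [map_sum, LinearMap.rTensor_tmul]
    refine Finset.sum_congr rfl fun i _ => ?_
    simp only [F, LinearMap.comp_apply, TensorProduct.map_tmul, LinearEquiv.coe_coe,
      TensorProduct.rid_tmul]
    rfl
  have h2 : F (LinearMap.rTensor C (comul (R := k)) (comul (R := k) c)) =
      KT_tr t π c ⊗ₜ[k] (1 : B) := by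
    rw [← coassoc_symm_apply]
    have ρ := Repr.arbitrary k c
    rw [KT_tr_apply t π c ρ, ← ρ.eq]
    simp only [map_sum, LinearMap.lTensor_tmul, TensorProduct.sum_tmul]
    refine Finset.sum_congr rfl fun i _ => ?_
    have h3 : ∀ (x : C) (w : C ⊗[k] C), F ((TensorProduct.assoc k C C C).symm (x ⊗ₜ w)) =
        x ⊗ₜ (TensorProduct.rid k B (TensorProduct.map p (t ∘ₗ p) w)) := by
      intro x w
      induction w using TensorProduct.induction_on with
      | zero => simp
      | tmul y z =>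
        simp only [F, LinearMap.comp_apply, TensorProduct.map_tmul, LinearEquiv.coe_coe,
          TensorProduct.rid_tmul, TensorProduct.assoc_symm_tmul, LinearMap.lTensor_tmul,
          TensorProduct.tmul_smul]
      | add v w hv hw => rw [TensorProduct.tmul_add, map_add, map_add, hv, hw, map_add, map_add,
          TensorProduct.tmul_add]
    rw [h3, hy]
    rw [TensorProduct.tmul_smul, TensorProduct.smul_tmul']
    rfl
  exact h1.trans h2

lemma KT_tr_mul (t : B →ₗ[k] k) (hex : HopfExact ι π) (c : C) (a : A) :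
    KT_tr t π (c * ι a) = KT_tr t π c * ι a := by
  let ρa := Repr.arbitrary k a
  let ρc := Repr.arbitrary k c
  let ρι : Repr k (ι a) (A × A) :=
    { index := ρa.index
      left := fun i => ι (ρa.left i)
      right := fun i => ι (ρa.right i)
      eq := by
        have h1 : comul (R := k) (ι a) = TensorProduct.map (ι : A →ₗ[k] C) (ι : A →ₗ[k] C) (comul (R := k) a) :=
          (CoalgHomClass.map_comp_comul_apply ι a).symm
        rw [h1, ← ρa.eq, map_sum]
        rfl }
  rw [KT_tr_apply t π _ (ρc.mul ρι), KT_tr_apply t π c ρc]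
  have h2 : (ρc.mul ρι).index = ρc.index ×ˢ ρa.index := rfl
  rw [h2, Finset.sum_product, Finset.sum_mul]
  refine Finset.sum_congr rfl fun i _ => ?_
  have h3 : ∀ j, (ρc.mul ρι).left (i, j) = ρc.left i * ι (ρa.left j) := fun _ => rfl
  have h4 : ∀ j, (ρc.mul ρι).right (i, j) = ρc.right i * ι (ρa.right j) := fun _ => rfl
  simp only [h3, h4, map_mul, hex.map_comp, Algebra.algebraMap_eq_smul_one, mul_smul_comm, mul_one,
    map_smul, smul_assoc]
  conv_rhs => rw [← KT_sum_smul a ρa]
  simp only [map_sum, map_smul, Finset.mul_sum, mul_smul_comm, smul_mul_assoc]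

namespace HopfExact

variable [Module.Finite k A] [Module.Finite k C] [Module.Finite k B]

/-- The coinvariants are `ι(A)`: if `∑ c₁ ⊗ π(c₂) = c ⊗ 1` then `c ∈ ι(A)`.
Proof. `A` is self-injective: there is a right `A`-linear `r : C → A` with `r ι = id`. Namely, with
`t` from `larson_sweedler` for `A`, choose a linear `ρ : C → k` with `ρ ι = t` and define `r c` by
`t (r c * a) = ρ (c * ι a)` for all `a`. The map `C ⊗ C → C`, `c ⊗ c' ↦ ∑ ι(r(c S(c'₁))) c'₂` kills
`C ⊗ ι(A⁺) C = C ⊗ ker π`, so it has the same value on `∑ c₁ ⊗ c₂` and on `c ⊗ 1`, i.e.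
`c = ι(r(c))`. -/
theorem coinv (hex : HopfExact ι π) (c : C)
    (hc : TensorProduct.map LinearMap.id (π : C →ₐ[k] B).toLinearMap (comul (R := k) c) = c ⊗ₜ[k] (1 : B)) :
    ∃ a, ι a = c := by
  obtain ⟨r, hr, hr1⟩ := KT_retR hex.inj
  let p : C →ₗ[k] B := (π : C →ₐ[k] B).toLinearMap
  have h1 : LinearMap.lTensor C p (comul (R := k) c - c ⊗ₜ 1) = 0 := by
    rw [map_sub, LinearMap.lTensor_tmul]
    have : p 1 = 1 := map_one π
    rw [this]
    exact sub_eq_zero.2 hc
  have hex2 : Function.Exact (LinearMap.lTensor C (LinearMap.ker p).subtype) (LinearMap.lTensor C p) :=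
    lTensor_exact C (LinearMap.exact_subtype_ker_map p) hex.surj
  obtain ⟨z, hz⟩ := (hex2 _).1 h1
  have hΨ : KT_Psi r ι ∘ₗ LinearMap.lTensor C (LinearMap.ker p).subtype = 0 := by
    apply TensorProduct.ext'
    rintro x ⟨y, hyk⟩
    rw [LinearMap.comp_apply, LinearMap.lTensor_tmul, LinearMap.zero_apply]
    have hy := hex.ker_right y hyk
    change KT_Psi r ι (x ⊗ₜ y) = 0
    clear hyk
    induction hy using Submodule.span_induction with
    | mem w hw =>
      obtain ⟨c', a, ha, rfl⟩ := hw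
      rw [KT_Psi_mul r ι hr, ha, zero_smul]
    | zero => rw [TensorProduct.tmul_zero, map_zero]
    | add u w _ _ hu hw => rw [TensorProduct.tmul_add, map_add, hu, hw, add_zero]
    | smul s u _ hu => rw [TensorProduct.tmul_smul, map_smul, hu, smul_zero]
  have h2 : KT_Psi r ι (comul (R := k) c - c ⊗ₜ 1) = 0 := by
    rw [← hz]
    exact congrArg (fun f => f z) hΨ
  rw [map_sub, KT_Psi_comul r ι hr1, KT_Psi_one, sub_eq_zero] at h2
  exact ⟨r c, h2.symm⟩

/-- `C` is a finitely generated projective right `A`-module (Kreimer-Takeuchi). Let `t` be the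
integral of `B` from `larson_sweedler`, `Λ ∈ B` with `t(Λ b) = ε(b)` for all `b` (so
`Λ b = ε(b) Λ`), `λ ∈ C` with `π λ = Λ`. Then `tr(c) = ∑ c₁ t(π(c₂))` is in `ι(A)` (`coinv`),
`tr(c ι(a)) = tr(c) ι(a)` and `c = ∑ S(λ₁) tr(λ₂ c)`. -/
theorem exists_dual_basis_right (hex : HopfExact ι π) :
    ∃ (n : ℕ) (w : Fin n → C) (φ : Fin n → C →ₗ[k] A),
      (∀ i c a, φ i (c * ι a) = φ i c * a) ∧ ∀ c, ∑ i, w i * ι (φ i c) = c := by
  obtain ⟨t, ht, htL, -, -⟩ := larson_sweedler k B
  obtain ⟨e, he⟩ := KT_repL t htL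
  set Λ : B := e (counit (R := k)) with hΛ
  have hΛ1 : ∀ b, t (Λ * b) = counit (R := k) b := fun b => he _ b
  obtain ⟨l, hl⟩ := hex.surj Λ
  obtain ⟨g, hg⟩ := LinearMap.exists_leftInverse_of_injective (KT_il ι)
    (LinearMap.ker_eq_bot.2 hex.inj)
  have hg' : ∀ a, g (ι a) = a := fun a => congrArg (fun f : A →ₗ[k] A => f a) hg
  have htr : ∀ c, ι (g (KT_tr t π c)) = KT_tr t π c := by
    intro c
    obtain ⟨a, ha⟩ := hex.coinv _ (KT_tr_coinv t π ht c)
    rw [← ha, hg']
  let ρ := Repr.arbitrary k l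
  let E := ρ.index.equivFin
  refine ⟨ρ.index.card, fun j => antipode k (ρ.left (E.symm j).1),
    fun j => g ∘ₗ KT_tr t π ∘ₗ LinearMap.mulLeft k (ρ.right (E.symm j).1), ?_, ?_⟩
  · intro i c a
    apply hex.inj
    simp only [LinearMap.comp_apply, LinearMap.mulLeft_apply]
    rw [htr, ← mul_assoc, KT_tr_mul t hex, map_mul ι, htr]
  · intro c
    simp only [LinearMap.comp_apply, LinearMap.mulLeft_apply, htr]
    rw [Equiv.sum_comp E.symm fun x => antipode k (ρ.left x.1) * KT_tr t π (ρ.right x.1 * c),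
      Finset.sum_coe_sort ρ.index fun x => antipode k (ρ.left x) * KT_tr t π (ρ.right x * c)]
    let ρc := Repr.arbitrary k c
    let Θ : C ⊗[k] C →ₗ[k] C := ∑ m ∈ ρc.index, (TensorProduct.rid k C).toLinearMap ∘ₗ
      TensorProduct.map (LinearMap.mulRight k (ρc.left m))
        (t ∘ₗ (π : C →ₐ[k] B).toLinearMap ∘ₗ LinearMap.mulRight k (ρc.right m))
    have hΘ : ∀ u z : C, Θ (u ⊗ₜ z) = ∑ m ∈ ρc.index, t (π (z * ρc.right m)) • (u * ρc.left m) := by
      intro u z
      simp only [Θ, LinearMap.sum_apply, LinearMap.comp_apply, TensorProduct.map_tmul,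
        LinearEquiv.coe_coe, TensorProduct.rid_tmul, LinearMap.mulRight_apply]
      rfl
    have h1 : ∑ x ∈ ρ.index, antipode k (ρ.left x) * KT_tr t π (ρ.right x * c) =
        Θ (TensorProduct.map (LinearMap.mul' k C ∘ₗ LinearMap.rTensor C (antipode k))
          LinearMap.id ((TensorProduct.assoc k C C C).symm (LinearMap.lTensor C (comul (R := k))
          (comul (R := k) l)))) := by
      rw [← ρ.eq]
      simp only [map_sum, LinearMap.lTensor_tmul]
      refine Finset.sum_congr rfl fun i _ => ?_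
      let σ := Repr.arbitrary k (ρ.right i)
      rw [KT_tr_apply t π _ (σ.mul ρc), ← σ.eq]
      have h2 : (σ.mul ρc).index = σ.index ×ˢ ρc.index := rfl
      rw [h2, Finset.sum_product]
      simp only [TensorProduct.tmul_sum, map_sum, TensorProduct.assoc_symm_tmul,
        TensorProduct.map_tmul, LinearMap.comp_apply, LinearMap.rTensor_tmul, LinearMap.mul'_apply,
        LinearMap.id_apply, hΘ, Finset.mul_sum]
      refine Finset.sum_congr rfl fun j _ => Finset.sum_congr rfl fun m _ => ?_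
      have h3 : (σ.mul ρc).left (j, m) = σ.left j * ρc.left m := rfl
      have h4 : (σ.mul ρc).right (j, m) = σ.right j * ρc.right m := rfl
      rw [h3, h4, mul_smul_comm, mul_assoc]
    rw [h1, KT_antip, hΘ]
    have h5 : ∀ m, t (π (l * ρc.right m)) = counit (R := k) (ρc.right m) := by
      intro m
      rw [map_mul, hl, hΛ1]
      exact CoalgHomClass.counit_comp_apply π _
    simp only [h5, one_mul]
    exact KT_sum_smul c ρc

/-- The left version, from the right one and the bijective antipode: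
`φ' c = S(φ(S⁻¹ c))`, `w' = S(w)`. -/
theorem exists_dual_basis_left (hex : HopfExact ι π) :
    ∃ (n : ℕ) (w : Fin n → C) (φ : Fin n → C →ₗ[k] A),
      (∀ i a c, φ i (ι a * c) = a * φ i c) ∧ ∀ c, ∑ i, ι (φ i c) * w i = c := by
  obtain ⟨n, w, φ, h1, h2⟩ := hex.exists_dual_basis_right
  obtain ⟨-, -, -, -, hC⟩ := larson_sweedler k C
  obtain ⟨-, -, -, -, hA⟩ := larson_sweedler k A
  let E := LinearEquiv.ofBijective (antipode k (A := C)) hC
  have hE : ∀ c, antipode k (E.symm c) = c := fun c => E.apply_symm_apply c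
  have hE' : ∀ c, E.symm (antipode k c) = c := fun c => E.symm_apply_apply c
  refine ⟨n, fun i => antipode k (w i), fun i => antipode k ∘ₗ φ i ∘ₗ E.symm.toLinearMap, ?_, ?_⟩
  · intro i a c
    obtain ⟨a0, rfl⟩ := hA.2 a
    simp only [LinearMap.comp_apply, LinearEquiv.coe_coe]
    have h3 : E.symm (ι (antipode k a0) * c) = E.symm c * ι a0 := by
      apply hC.1
      rw [hE, antipode_mul_antidistrib, hE, map_antipode]
    rw [h3, h1, antipode_mul_antidistrib]
  · intro c
    simp only [LinearMap.comp_apply, LinearEquiv.coe_coe]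
    have h3 : ∀ i, ι (antipode k (φ i (E.symm c))) * antipode k (w i) =
        antipode k (w i * ι (φ i (E.symm c))) := by
      intro i
      rw [antipode_mul_antidistrib, map_antipode]
    simp only [h3]
    rw [← map_sum, h2, hE]

/-- A left `A`-linear retraction `E : C → A` compatible with the counits. From the left dual
basis, `E₀ c = ∑ ε(w i) φ i c` is left `A`-linear with `ε E₀ = ε`; with a left `A`-linear retraction
`r` (as in the proof of `coinv`, left version, or via the antipode) put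
`E c = E₀ c + r(c) (1 - E₀ 1)`. -/
theorem exists_E (hex : HopfExact ι π) :
    ∃ E : C →ₗ[k] A, (∀ a c, E (ι a * c) = a * E c) ∧ E 1 = 1 ∧
      ∀ c, counit (R := k) (E c) = counit (R := k) c := by
  obtain ⟨n, w, φ, h1, h2⟩ := hex.exists_dual_basis_left
  obtain ⟨r, hr, hr1⟩ := KT_retL hex.inj
  let E0 : C →ₗ[k] A := ∑ i, counit (R := k) (w i) • φ i
  have hE0 : ∀ c, E0 c = ∑ i, counit (R := k) (w i) • φ i c := by
    intro c
    simp only [E0, LinearMap.sum_apply, LinearMap.smul_apply]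
  have h3 : ∀ a c, E0 (ι a * c) = a * E0 c := by
    intro a c
    rw [hE0, hE0, Finset.mul_sum]
    refine Finset.sum_congr rfl fun i _ => ?_
    rw [h1, mul_smul_comm]
  have h4 : ∀ c, counit (R := k) (E0 c) = counit (R := k) c := by
    intro c
    rw [hE0]
    conv_rhs => rw [← h2 c]
    simp only [map_sum, map_smul, Bialgebra.counit_mul, smul_eq_mul]
    refine Finset.sum_congr rfl fun i _ => ?_
    rw [mul_comm]
    congr 1
    exact (CoalgHomClass.counit_comp_apply ι _).symm
  refine ⟨E0 + (LinearMap.mulRight k (1 - E0 1)) ∘ₗ r, ?_, ?_, ?_⟩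
  · intro a c
    simp only [LinearMap.add_apply, LinearMap.comp_apply, LinearMap.mulRight_apply, h3, hr]
    rw [mul_add, mul_assoc]
  · simp only [LinearMap.add_apply, LinearMap.comp_apply, LinearMap.mulRight_apply]
    have : r 1 = 1 := by
      have := hr1 1
      rwa [map_one] at this
    rw [this, one_mul]
    abel
  · intro c
    simp only [LinearMap.add_apply, LinearMap.comp_apply, LinearMap.mulRight_apply, map_add,
      Bialgebra.counit_mul, map_sub, h4, Bialgebra.counit_one, sub_self, mul_zero, add_zero]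

end HopfExact

end Pool.Agent.H26.FG
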