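import Pool.Agent.H26.FG.CoB

/-!
# Module KuA: the cobar differential and the action of `H` (formula (C1))

`ha_one_left`: `haM k` composed with evaluation at `1` (`Δ 1 = 1 ⊗ 1`) is an algebra homomorphism `T(H) → T(H)`, the
identity on generators; or `TensorAlgebra.induction` (product: `ha_mul` with a `Repr` of `1`, `Bialgebra.comul_one`).
`sg_ha`: `TensorAlgebra.induction` for all `h` (product: `ha_mul`; generators: `ha_ι`, `sg_ι`).
`cd_ha`: work in the convolution algebra `W = WithConv (H →ₗ[k] T)`, `Φ = haM k : T →ₐ W`.  For `y` put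
`D₁ y = toConv (cd ∘ₗ (Φ y).ofConv)`, `D₂ y = Φ (cd y) + θ * Φ y - Φ (sg y) * θ` with `θ = toConv (h ↦ ε(h) ι 1 - ι h)`.
Both are `(Φ ∘ sg, Φ)`-derivations `D (a b) = D a * Φ b + Φ (sg a) * D b`: for `D₁` use `cd_mul`, `sg_ha` and `ha_mul`; for `D₂`
`cd_mul` and cancellation of `Φ(sg a) θ Φ(b)`.  On a generator `y = ι g`, with `Δ h = ∑ h₁ ⊗ h₂`, `Δ g = ∑ g₁ ⊗ g₂`:
`D₁: cd (ι (h g)) = ι 1 ι(hg) - ι(h₁g₁) ι(h₂g₂) + ι(hg) ι 1` and
`D₂: h.(ι 1 ι g - ι g₁ ι g₂ + ι g ι 1) + [ι 1 ι(hg) - ι h₁ ι(h₂ g)] + [ι(hg) ι 1 - ι(h₁ g) ι h₂]`, where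
`h.(ι 1 ι g) = ι h₁ ι(h₂g)`, `h.(ι g ι 1) = ι(h₁g) ι h₂`: equal.  So `D₁ = D₂` by `tder_unique`; evaluate at `h`
(`Repr.convMul_apply`).  (Alternatively a direct `TensorAlgebra.induction` on `y` for all `h`, with `Repr`s; the convolution algebra
takes care of coassociativity.)
-/

open TensorProduct Coalgebra

universe u v w

namespace Pool.Agent.H26.FG

section KuA

variable {k : Type u} [Field k] {H : Type v} [Ring H] [Bialgebra k H]

lemma ha_one_left (y : TensorAlgebra k H) : ha k (1 : H) y = y := by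
  let r : Coalgebra.Repr k (1 : H) Unit :=
    { index := {()}
      left := fun _ => 1
      right := fun _ => 1
      eq := by
        rw [Finset.sum_singleton, Bialgebra.comul_one, Algebra.TensorProduct.one_def] }
  induction y using TensorAlgebra.induction with
  | algebraMap c =>
    rw [Algebra.algebraMap_eq_smul_one, map_smul, ha_one, Bialgebra.counit_one, map_one]
  | ι v => rw [ha_ι, one_mul]
  | mul a b iha ihb =>
    rw [ha_mul k (1 : H) a b r]
    have h1 : ∑ i ∈ r.index, ha k (r.left i) a * ha k (r.right i) b =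
        ha k (1 : H) a * ha k (1 : H) b := Finset.sum_singleton _ _
    rw [h1, iha, ihb]
  | add a b iha ihb => rw [map_add, iha, ihb]

lemma sg_ha (h : H) (y : TensorAlgebra k H) : sg k H (ha k h y) = ha k h (sg k H y) := by
  induction y using TensorAlgebra.induction generalizing h with
  | algebraMap c =>
    rw [AlgHom.commutes, Algebra.algebraMap_eq_smul_one, map_smul, ha_one, map_smul,
      AlgHom.commutes]
  | ι v => rw [ha_ι, sg_ι, sg_ι, map_neg, ha_ι]
  | mul a b iha ihb =>
    rw [ha_mul k h a b (Coalgebra.Repr.arbitrary k h), map_sum, map_mul,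
      ha_mul k h _ _ (Coalgebra.Repr.arbitrary k h)]
    refine Finset.sum_congr rfl fun i _ => ?_
    rw [map_mul, iha, ihb]
  | add a b iha ihb => rw [map_add, map_add, map_add, map_add, iha, ihb]

private lemma h75_smul_counit {h : H} {κ : Type*} (r : Coalgebra.Repr k h κ) :
    ∑ i ∈ r.index, counit (R := k) (r.right i) • r.left i = h := by
  have h1 := congrArg (TensorProduct.rid k H) (Coalgebra.sum_tmul_counit_eq r)
  rw [map_sum, TensorProduct.rid_tmul, one_smul] at h1
  refine Eq.trans (Finset.sum_congr rfl fun i _ => ?_) h1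
  rw [TensorProduct.rid_tmul]

/-- the element `h ↦ ε(h) ι 1 - ι h` of the convolution algebra -/
private noncomputable def h75_th (k : Type u) [Field k] (H : Type v) [Ring H] [Bialgebra k H] :
    WithConv (H →ₗ[k] TensorAlgebra k H) :=
  WithConv.toConv
    ((LinearMap.toSpanSingleton k (TensorAlgebra k H) (TensorAlgebra.ι k (1 : H))) ∘ₗ counit -
      TensorAlgebra.ι k)

private lemma h75_th_apply (h : H) : (h75_th k H).ofConv h =
    counit (R := k) h • TensorAlgebra.ι k (1 : H) - TensorAlgebra.ι k h := rfl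

private lemma h75_mul_apply (f g : WithConv (H →ₗ[k] TensorAlgebra k H)) (h : H) {κ : Type*}
    (r : Coalgebra.Repr k h κ) : (f * g).ofConv h =
      ∑ i ∈ r.index, f.ofConv (r.left i) * g.ofConv (r.right i) := r.convMul_apply f g

private lemma h75_th_mul (h : H) (y : TensorAlgebra k H) {κ : Type*} (r : Coalgebra.Repr k h κ) :
    (h75_th k H * haM k y).ofConv h = TensorAlgebra.ι k (1 : H) * ha k h y -
      ∑ i ∈ r.index, TensorAlgebra.ι k (r.left i) * ha k (r.right i) y := by
  rw [h75_mul_apply _ _ h r]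
  have h1 : ∀ i, (h75_th k H).ofConv (r.left i) * (haM k y).ofConv (r.right i) =
      TensorAlgebra.ι k (1 : H) * haL k y (counit (R := k) (r.left i) • r.right i) -
        TensorAlgebra.ι k (r.left i) * ha k (r.right i) y := by
    intro i
    rw [h75_th_apply, sub_mul, map_smul, smul_mul_assoc, mul_smul_comm]
    rfl
  rw [Finset.sum_congr rfl fun i _ => h1 i, Finset.sum_sub_distrib, ← Finset.mul_sum, ← map_sum,
    Coalgebra.sum_counit_smul]
  rfl

private lemma h75_mul_th (h : H) (y : TensorAlgebra k H) {κ : Type*} (r : Coalgebra.Repr k h κ) :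
    (haM k y * h75_th k H).ofConv h = ha k h y * TensorAlgebra.ι k (1 : H) -
      ∑ i ∈ r.index, ha k (r.left i) y * TensorAlgebra.ι k (r.right i) := by
  rw [h75_mul_apply _ _ h r]
  have h1 : ∀ i, (haM k y).ofConv (r.left i) * (h75_th k H).ofConv (r.right i) =
      haL k y (counit (R := k) (r.right i) • r.left i) * TensorAlgebra.ι k (1 : H) -
        ha k (r.left i) y * TensorAlgebra.ι k (r.right i) := by
    intro i
    rw [h75_th_apply, mul_sub, map_smul, smul_mul_assoc, mul_smul_comm]
    rfl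
  rw [Finset.sum_congr rfl fun i _ => h1 i, Finset.sum_sub_distrib, ← Finset.sum_mul, ← map_sum,
    h75_smul_counit]
  rfl

/-- `y ↦ (h ↦ d (h y))` -/
private noncomputable def h75_D1 (k : Type u) [Field k] (H : Type v) [Ring H] [Bialgebra k H] :
    TensorAlgebra k H →ₗ[k] WithConv (H →ₗ[k] TensorAlgebra k H) where
  toFun y := WithConv.toConv (cd k H ∘ₗ (haM k y).ofConv)
  map_add' y z := by
    rw [map_add]
    refine WithConv.ext ?_
    refine LinearMap.ext fun h => ?_
    exact map_add (cd k H) _ _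
  map_smul' c y := by
    rw [map_smul]
    refine WithConv.ext ?_
    refine LinearMap.ext fun h => ?_
    exact map_smul (cd k H) c _

private noncomputable def h75_D2 (k : Type u) [Field k] (H : Type v) [Ring H] [Bialgebra k H] :
    TensorAlgebra k H →ₗ[k] WithConv (H →ₗ[k] TensorAlgebra k H) where
  toFun y := haM k (cd k H y) + h75_th k H * haM k y - haM k (sg k H y) * h75_th k H
  map_add' y z := by
    simp only [map_add, mul_add, add_mul]
    abel
  map_smul' c y := by
    simp only [map_smul, RingHom.id_apply, mul_smul_comm, smul_mul_assoc, smul_add, smul_sub]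

private lemma h75_D1_mul (a b : TensorAlgebra k H) : h75_D1 k H (a * b) =
    h75_D1 k H a * haM k b + ((haM k).comp (sg k H)) a * h75_D1 k H b := by
  refine WithConv.ext ?_
  refine LinearMap.ext fun h => ?_
  have r := Coalgebra.Repr.arbitrary k h
  have h1 : (h75_D1 k H (a * b)).ofConv h = cd k H (ha k h (a * b)) := rfl
  rw [h1, ha_mul k h a b r, map_sum, WithConv.ofConv_add, LinearMap.add_apply,
    h75_mul_apply _ _ h r, h75_mul_apply _ _ h r, ← Finset.sum_add_distrib]
  refine Finset.sum_congr rfl fun i _ => ?_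
  rw [cd_mul, sg_ha]
  rfl

private lemma h75_D2_mul (a b : TensorAlgebra k H) : h75_D2 k H (a * b) =
    h75_D2 k H a * haM k b + ((haM k).comp (sg k H)) a * h75_D2 k H b := by
  change haM k (cd k H (a * b)) + h75_th k H * haM k (a * b) -
      haM k (sg k H (a * b)) * h75_th k H =
    (haM k (cd k H a) + h75_th k H * haM k a - haM k (sg k H a) * h75_th k H) * haM k b +
      haM k (sg k H a) *
        (haM k (cd k H b) + h75_th k H * haM k b - haM k (sg k H b) * h75_th k H)
  rw [cd_mul]
  simp only [map_add, map_mul, mul_add, add_mul, mul_sub, sub_mul, mul_assoc]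
  abel

private lemma h75_D_ι (g : H) : h75_D1 k H (TensorAlgebra.ι k g) =
    h75_D2 k H (TensorAlgebra.ι k g) := by
  refine WithConv.ext ?_
  refine LinearMap.ext fun h => ?_
  have r := Coalgebra.Repr.arbitrary k h
  have q := Coalgebra.Repr.arbitrary k g
  have h1 : (h75_D1 k H (TensorAlgebra.ι k g)).ofConv h = cd k H (ha k h (TensorAlgebra.ι k g)) :=
    rfl
  have h2 : (h75_D2 k H (TensorAlgebra.ι k g)).ofConv h =
      ha k h (cd k H (TensorAlgebra.ι k g)) +
        (h75_th k H * haM k (TensorAlgebra.ι k g)).ofConv h -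
        (haM k (sg k H (TensorAlgebra.ι k g)) * h75_th k H).ofConv h := rfl
  have h3 : h83_M k H (comul (h * g)) = ∑ j ∈ q.index, ∑ i ∈ r.index,
      TensorAlgebra.ι k (r.left i * q.left j) * TensorAlgebra.ι k (r.right i * q.right j) := by
    rw [Bialgebra.comul_mul, ← r.eq, ← q.eq, Finset.sum_mul_sum, map_sum, Finset.sum_comm]
    refine Finset.sum_congr rfl fun i _ => ?_
    rw [map_sum]
    refine Finset.sum_congr rfl fun j _ => ?_
    rw [Algebra.TensorProduct.tmul_mul_tmul, h83_M_tmul]
  rw [h1, h2, ha_ι, h83_cd_ι, h3, cd_ι k g q, h75_th_mul h _ r, h75_mul_th h _ r, map_add, map_sub,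
    map_sum, ha_mul k h _ _ r, ha_mul k h _ _ r]
  rw [Finset.sum_congr rfl fun j _ => ha_mul k h (TensorAlgebra.ι k (q.left j))
    (TensorAlgebra.ι k (q.right j)) r]
  simp only [ha_ι, sg_ι, map_neg, neg_mul, mul_one, Finset.sum_neg_distrib]
  abel

theorem cd_ha (h : H) (y : TensorAlgebra k H) {κ : Type*} (r : Coalgebra.Repr k h κ) :
    cd k H (ha k h y) = ha k h (cd k H y) + TensorAlgebra.ι k (1 : H) * ha k h y
      - ∑ i ∈ r.index, TensorAlgebra.ι k (r.left i) * ha k (r.right i) y
      - ha k h (sg k H y) * TensorAlgebra.ι k (1 : H)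
      + ∑ i ∈ r.index, ha k (r.left i) (sg k H y) * TensorAlgebra.ι k (r.right i) := by
  have h1 : h75_D1 k H = h75_D2 k H :=
    tder_unique ((haM k).comp (sg k H)) (haM k) _ _ h75_D1_mul h75_D2_mul h75_D_ι
  have h2 : (h75_D1 k H y).ofConv h = (h75_D2 k H y).ofConv h := by rw [h1]
  have h3 : (h75_D1 k H y).ofConv h = cd k H (ha k h y) := rfl
  have h4 : (h75_D2 k H y).ofConv h = ha k h (cd k H y) + (h75_th k H * haM k y).ofConv h -
      (haM k (sg k H y) * h75_th k H).ofConv h := rfl
  rw [h3, h4, h75_th_mul h y r, h75_mul_th h _ r] at h2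
  rw [h2]
  abel

end KuA

end Pool.Agent.H26.FG
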