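import Pool.Agent.H26.FG.KuA

/-!
# Module KuB: the derivation `R_y` and the cobar differential (formula (C2))

`sg_Rd`: both sides are `(sg, sg)`-derivations in `x` (`Rd_mul`); on generators `sg (R (ι h)) = sg (h.y) = h.(sg y) = - h.y`
(`sg_ha`) and `R (sg (ι h)) = - h.y`.  `tder_unique` with `φ = ψ = sg k H`.
`cd_Rd`: `E x = cd (R x) - R (cd x)` and `F x = sg x * y - y * x` are both odd derivations: `E (a b) = E a * b + sg a * E b`
(`tder_unique` with `φ = sg k H`, `ψ = id`): for `E` use `Rd_mul`, `cd_mul` and `sg_Rd`; for `F` it is algebra.  On a generator: by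
`cd_ha` with `cd y = 0`, `sg y = -y`: `cd (h.y) = ι 1 (h.y) - ι h₁ (h₂.y) + (h.y) ι 1 - (h₁.y) ι h₂`, and
`R (cd (ι h)) = R (ι 1 ι h - ι h₁ ι h₂ + ι h ι 1) = (1.y) ι h + ι 1 (h.y) - (h₁.y) ι h₂ - ι h₁ (h₂.y) + (h.y) ι 1 + ι h (1.y)`,
`1.y = y` (`ha_one_left`), so `E (ι h) = - y ι h - ι h y = F (ι h)`.
-/

open TensorProduct Coalgebra

universe u v w

namespace Pool.Agent.H26.FG

section KuB

variable {k : Type u} [Field k] {H : Type v} [Ring H] [Bialgebra k H]

lemma sg_Rd {y : TensorAlgebra k H} (hs : sg k H y = -y) (x : TensorAlgebra k H) :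
    sg k H (Rd k y x) = Rd k y (sg k H x) := by
  have h : (sg k H).toLinearMap ∘ₗ Rd k y = Rd k y ∘ₗ (sg k H).toLinearMap := by
    refine tder_unique (sg k H) (sg k H) _ _ ?_ ?_ ?_
    · intro a b
      simp only [LinearMap.comp_apply, AlgHom.toLinearMap_apply, Rd_mul, map_add, map_mul]
    · intro a b
      simp only [LinearMap.comp_apply, AlgHom.toLinearMap_apply, Rd_mul, map_mul]
    · intro v
      simp only [LinearMap.comp_apply, AlgHom.toLinearMap_apply, sg_ι, map_neg, Rd_ι, sg_ha, hs]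
  exact LinearMap.congr_fun h x

theorem cd_Rd {y : TensorAlgebra k H} (hs : sg k H y = -y) (hd : cd k H y = 0)
    (x : TensorAlgebra k H) :
    cd k H (Rd k y x) = Rd k y (cd k H x) - (y * x - sg k H x * y) := by
  have h : cd k H ∘ₗ Rd k y - Rd k y ∘ₗ cd k H =
      LinearMap.mulRight k y ∘ₗ (sg k H).toLinearMap - LinearMap.mulLeft k y := by
    refine tder_unique (sg k H) (AlgHom.id k _) _ _ ?_ ?_ ?_
    · intro a b
      simp only [LinearMap.sub_apply, LinearMap.comp_apply, cd_mul, Rd_mul, map_add, sg_Rd hs,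
        AlgHom.id_apply]
      noncomm_ring
    · intro a b
      simp only [LinearMap.sub_apply, LinearMap.comp_apply, AlgHom.toLinearMap_apply,
        LinearMap.mulRight_apply, LinearMap.mulLeft_apply, map_mul, AlgHom.id_apply]
      noncomm_ring
    · intro v
      have r := Coalgebra.Repr.arbitrary k v
      simp only [LinearMap.sub_apply, LinearMap.comp_apply, AlgHom.toLinearMap_apply,
        LinearMap.mulRight_apply, LinearMap.mulLeft_apply, sg_ι, Rd_ι]
      rw [cd_ha v y r, cd_ι k v r, hd, hs]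
      simp only [map_zero, map_neg, map_add, map_sub, map_sum, Rd_mul, Rd_ι, ha_one_left,
        Finset.sum_add_distrib, neg_mul, Finset.sum_neg_distrib]
      noncomm_ring
  have h2 := LinearMap.congr_fun h x
  simp only [LinearMap.sub_apply, LinearMap.comp_apply, AlgHom.toLinearMap_apply,
    LinearMap.mulRight_apply, LinearMap.mulLeft_apply] at h2
  rw [sub_eq_iff_eq_add] at h2
  rw [h2]
  abel

end KuB

end Pool.Agent.H26.FG
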