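import Mathlib

/-!
# Module KuC: exponential generating functions in a ring with a derivation (pure ring theory)

For sequences `f, g : ℕ → T` let `(f ⋆ g) n = ∑_{i ≤ n} C(n,i) f(i) g(n-i)` (binomial convolution) and `(S f) n = f (n+1)`.  Then
`S (f ⋆ g) = (S f) ⋆ g + f ⋆ (S g)` (Pascal; `Finset.sum_range_succ'`, `Nat.choose_succ_succ`), `⋆` is associative (or avoid
associativity: induct with the Leibniz rule for `S`: two sequences agree if they agree at `0` and their shifts agree...).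
Put `a i = R^i x`, `Y 0 = 0`, `Y (i+1) = R^i (d x)`, `G = kuG a`, so `S G = G ⋆ a` (write the sum in `kuG` in the order
`G (n-i) a i`, `C(n,i) = C(n,n-i)`), `G 0 = 1`, `S a = R a`.
(1) `s (a i) = a i` for all `i` (`hsR`), hence `s (G n) = G n`.
(2) `d a = S Y + a ⋆ Y - Y ⋆ a`: induction on `n`: at `0` both are `d x`; step: `d (a (n+1)) = R (d (a n)) + [a n, d x]` (`hdR`, (1)),
`R (Y (i+1)) = Y (i+2)`, `R (a i) = a (i+1)`, and Pascal.
(3) `d G = G ⋆ Y`: both vanish at `0` (`d 1 = 0` from `hd`).  `S (d G) = d (G ⋆ a) = (d G) ⋆ a + G ⋆ (d a)` (`hd`, (1)) and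
`S (G ⋆ Y) = (S G) ⋆ Y + G ⋆ (S Y) = (G ⋆ a) ⋆ Y + G ⋆ (S Y)`; by strong induction `d G = G ⋆ Y` up to `n`, so
`(d G) ⋆ a + G ⋆ (d a) = (G ⋆ Y) ⋆ a + G ⋆ (S Y) + G ⋆ (a ⋆ Y) - G ⋆ (Y ⋆ a) = G ⋆ (S Y) + (G ⋆ a) ⋆ Y` at `n` by associativity.
`ku_bin` is (3) (re-indexed: `C(n, i+1) G (n-1-i) Y (i+1)`).
`ku_char`: `p ∣ C(p, i+1)` for `i + 1 < p` (`Nat.Prime.dvd_choose_self`), only `i = p - 1` remains: `C(p,p) G 0 Y p = R^(p-1) (d x)`.
-/

open Finset

namespace Pool.Agent.H26.FG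

section KuC

variable {T : Type*} [Ring T]

/-- `G 0 = 1`, `G (n+1) = ∑_{i ≤ n} C(n,i) G (n-i) a i`. -/
noncomputable def kuG (a : ℕ → T) : ℕ → T
  | 0 => 1
  | n + 1 => ∑ i : Fin (n + 1), (n.choose i : T) * (kuG a (n - i) * a i)

theorem kuG_zero (a : ℕ → T) : kuG a 0 = 1 := by rw [kuG]

theorem kuG_succ (a : ℕ → T) (n : ℕ) :
    kuG a (n + 1) = ∑ i ∈ range (n + 1), (n.choose i : T) * (kuG a (n - i) * a i) := by
  rw [kuG, Finset.sum_range]

/-- binomial convolution -/
noncomputable def KuC_cv (f g : ℕ → T) (n : ℕ) : T :=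
  ∑ ij ∈ antidiagonal n, (n.choose ij.1 : T) * (f ij.1 * g ij.2)

theorem KuC_cv_zero (f g : ℕ → T) : KuC_cv f g 0 = f 0 * g 0 := by simp [KuC_cv]

theorem KuC_cv_succ (f g : ℕ → T) (n : ℕ) : KuC_cv f g (n + 1) =
    KuC_cv (fun i => f (i + 1)) g n + KuC_cv f (fun i => g (i + 1)) n := by
  unfold KuC_cv
  rw [Finset.sum_antidiagonal_choose_succ_mul (fun i j => f i * g j) n, add_comm]
  congr 1
  refine sum_congr rfl fun ij hij => ?_
  rw [Nat.choose_symm_of_eq_add (mem_antidiagonal.1 hij).symm]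

theorem KuC_cv_add_left (f f' g : ℕ → T) (n : ℕ) :
    KuC_cv (fun i => f i + f' i) g n = KuC_cv f g n + KuC_cv f' g n := by
  unfold KuC_cv
  rw [← sum_add_distrib]
  exact sum_congr rfl fun ij _ => by rw [add_mul, mul_add]

theorem KuC_cv_add_right (f g g' : ℕ → T) (n : ℕ) :
    KuC_cv f (fun i => g i + g' i) n = KuC_cv f g n + KuC_cv f g' n := by
  unfold KuC_cv
  rw [← sum_add_distrib]
  exact sum_congr rfl fun ij _ => by rw [mul_add, mul_add]

theorem KuC_cv_sub_right (f g g' : ℕ → T) (n : ℕ) :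
    KuC_cv f (fun i => g i - g' i) n = KuC_cv f g n - KuC_cv f g' n := by
  unfold KuC_cv
  rw [← sum_sub_distrib]
  exact sum_congr rfl fun ij _ => by rw [mul_sub, mul_sub]

theorem KuC_cv_congr (f f' g g' : ℕ → T) (n : ℕ) (h : ∀ i ≤ n, f i = f' i) (h' : ∀ i ≤ n, g i = g' i) :
    KuC_cv f g n = KuC_cv f' g' n := by
  unfold KuC_cv
  refine sum_congr rfl fun ij hij => ?_
  have := mem_antidiagonal.1 hij
  rw [h ij.1 (by omega), h' ij.2 (by omega)]

theorem KuC_assoc (n : ℕ) : ∀ f g h : ℕ → T,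
    KuC_cv (KuC_cv f g) h n = KuC_cv f (KuC_cv g h) n := by
  induction n with
  | zero => intro f g h; rw [KuC_cv_zero, KuC_cv_zero, KuC_cv_zero, KuC_cv_zero, mul_assoc]
  | succ n ih =>
    intro f g h
    rw [KuC_cv_succ, KuC_cv_succ]
    have h1 : (fun i => KuC_cv f g (i + 1)) = fun i => KuC_cv (fun i => f (i + 1)) g i +
        KuC_cv f (fun i => g (i + 1)) i := funext fun i => KuC_cv_succ f g i
    have h2 : (fun i => KuC_cv g h (i + 1)) = fun i => KuC_cv (fun i => g (i + 1)) h i +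
        KuC_cv g (fun i => h (i + 1)) i := funext fun i => KuC_cv_succ g h i
    rw [h1, h2, KuC_cv_add_left, KuC_cv_add_right]
    have e1 := ih (fun i => f (i + 1)) g h
    have e2 := ih f (fun i => g (i + 1)) h
    have e3 := ih f g (fun i => h (i + 1))
    rw [show KuC_cv (fun i => KuC_cv (fun i => f (i + 1)) g i) h n = _ from e1,
      show KuC_cv (fun i => KuC_cv f (fun i => g (i + 1)) i) h n = _ from e2, e3, add_assoc]

theorem KuC_cv_range (f g : ℕ → T) (n : ℕ) :
    KuC_cv f g n = ∑ i ∈ range (n + 1), (n.choose i : T) * (f (n - i) * g i) := by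
  unfold KuC_cv
  rw [← Finset.Nat.sum_antidiagonal_swap]
  rw [← Finset.Nat.sum_antidiagonal_eq_sum_range_succ (fun i j => (n.choose i : T) * (f j * g i)) n]
  refine sum_congr rfl fun ij hij => ?_
  rw [Prod.fst_swap, Prod.snd_swap, Nat.choose_symm_of_eq_add (mem_antidiagonal.1 hij).symm]

theorem KuC_G (a : ℕ → T) (n : ℕ) : kuG a (n + 1) = KuC_cv (kuG a) a n := by
  rw [kuG_succ, KuC_cv_range]

section
variable (s : T →+* T) (d R : T →+ T)
    (hd : ∀ a b, d (a * b) = d a * b + s a * d b)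
    (hR : ∀ a b, R (a * b) = R a * b + a * R b)
    (hsR : ∀ a, s (R a) = R (s a)) {x : T} (hx : s x = x)
    (hdR : ∀ a, d (R a) = R (d a) - (d x * a - s a * d x))

include hsR hx in
theorem KuC_s (i : ℕ) : s (R^[i] x) = R^[i] x := by
  induction i with
  | zero => exact hx
  | succ i ih => rw [Function.iterate_succ_apply', hsR, ih]

theorem KuC_nat (φ : T →+ T) (m : ℕ) (y : T) : φ ((m : T) * y) = (m : T) * φ y := by
  rw [← nsmul_eq_mul, map_nsmul, nsmul_eq_mul]

include hsR hx in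
theorem KuC_sG (n : ℕ) : s (kuG (fun i => R^[i] x) n) = kuG (fun i => R^[i] x) n := by
  induction n using Nat.strong_induction_on with
  | _ n ih =>
    rcases n with _ | n
    · rw [kuG_zero, map_one]
    · rw [kuG_succ, map_sum]
      refine sum_congr rfl fun i hi => ?_
      rw [map_mul, map_mul, map_natCast, ih (n - i) (by omega), KuC_s s R hsR hx]

/-- `Y 0 = 0`, `Y (i + 1) = R^i (d x)` -/
noncomputable def KuC_Y (d R : T →+ T) (x : T) : ℕ → T
  | 0 => 0
  | i + 1 => R^[i] (d x)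

theorem KuC_RY (i : ℕ) (hi : i ≠ 0) : R (KuC_Y d R x i) = KuC_Y d R x (i + 1) := by
  obtain ⟨j, rfl⟩ := Nat.exists_eq_succ_of_ne_zero hi
  show R (R^[j] (d x)) = R^[j + 1] (d x)
  rw [Function.iterate_succ_apply']

include hR in
theorem KuC_R_cv (f g : ℕ → T) (n : ℕ) :
    R (KuC_cv f g n) = KuC_cv (fun i => R (f i)) g n + KuC_cv f (fun i => R (g i)) n := by
  unfold KuC_cv
  rw [map_sum, ← sum_add_distrib]
  refine sum_congr rfl fun ij _ => ?_
  rw [KuC_nat, hR, mul_add]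

/-- replacing `R (Y i)` by `Y (i + 1)` -/
theorem KuC_cv_right (f : ℕ → T) (n : ℕ) :
    KuC_cv f (fun i => R (KuC_Y d R x i)) n =
      KuC_cv f (fun i => KuC_Y d R x (i + 1)) n - f n * KuC_Y d R x 1 := by
  rw [KuC_cv_range, KuC_cv_range, sum_range_succ', sum_range_succ']
  have h1 : R (KuC_Y d R x 0) = 0 := by
    show R 0 = 0
    exact map_zero R
  rw [h1]
  simp only [Nat.choose_zero_right, Nat.cast_one, Nat.sub_zero, one_mul, mul_zero, add_zero,
    zero_add, add_sub_cancel_right]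
  refine sum_congr rfl fun i _ => ?_
  rw [KuC_RY d R (i + 1) (by omega)]

theorem KuC_cv_left (f : ℕ → T) (n : ℕ) :
    KuC_cv (fun i => R (KuC_Y d R x i)) f n =
      KuC_cv (fun i => KuC_Y d R x (i + 1)) f n - KuC_Y d R x 1 * f n := by
  unfold KuC_cv
  rw [Finset.Nat.sum_antidiagonal_eq_sum_range_succ
      (fun i j => (n.choose i : T) * (R (KuC_Y d R x i) * f j)) n,
    Finset.Nat.sum_antidiagonal_eq_sum_range_succ
      (fun i j => (n.choose i : T) * (KuC_Y d R x (i + 1) * f j)) n, sum_range_succ', sum_range_succ']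
  have h1 : R (KuC_Y d R x 0) = 0 := by
    show R 0 = 0
    exact map_zero R
  rw [h1]
  simp only [Nat.choose_zero_right, Nat.cast_one, Nat.sub_zero, one_mul, zero_mul, mul_zero,
    add_zero, zero_add, add_sub_cancel_right]
  refine sum_congr rfl fun i _ => ?_
  rw [KuC_RY d R (i + 1) (by omega)]

include hR hsR hx hdR in
theorem KuC_da (n : ℕ) : d (R^[n] x) = KuC_Y d R x (n + 1) +
    KuC_cv (fun i => R^[i] x) (KuC_Y d R x) n - KuC_cv (KuC_Y d R x) (fun i => R^[i] x) n := by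
  induction n with
  | zero =>
    rw [KuC_cv_zero, KuC_cv_zero]
    show d x = d x + x * 0 - 0 * x
    rw [mul_zero, zero_mul, add_zero, sub_zero]
  | succ n ih =>
    have hRa : (fun i => R (R^[i] x)) = fun i => R^[i + 1] x :=
      funext fun i => (Function.iterate_succ_apply' R i x).symm
    rw [Function.iterate_succ_apply', hdR, ih, KuC_s s R hsR hx, map_sub, map_add,
      KuC_R_cv R hR, KuC_R_cv R hR, KuC_cv_right, KuC_cv_left, hRa, KuC_cv_succ, KuC_cv_succ,
      KuC_RY d R (n + 1) (by omega)]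
    show _ - (KuC_Y d R x 1 * R^[n] x - R^[n] x * KuC_Y d R x 1) = _
    abel

include hd hR hsR hx hdR in
theorem KuC_dG (n : ℕ) : d (kuG (fun i => R^[i] x) n) =
    KuC_cv (kuG (fun i => R^[i] x)) (KuC_Y d R x) n := by
  induction n using Nat.strong_induction_on with
  | _ n ih =>
    set a : ℕ → T := fun i => R^[i] x with ha
    rcases n with _ | n
    · have h1 : d 1 = 0 := by
        have h2 := hd 1 1
        rw [mul_one, mul_one, map_one s, one_mul] at h2
        exact left_eq_add.1 h2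
      rw [kuG_zero, h1, KuC_cv_zero]
      show 0 = _ * (0 : T)
      rw [mul_zero]
    · have h1 : d (KuC_cv (kuG a) a n) =
          KuC_cv (fun i => d (kuG a i)) a n + KuC_cv (kuG a) (fun i => d (a i)) n := by
        unfold KuC_cv
        rw [map_sum, ← sum_add_distrib]
        refine sum_congr rfl fun ij _ => ?_
        rw [KuC_nat, hd, mul_add, KuC_sG s R hsR hx]
      rw [KuC_G, h1]
      have h2 : KuC_cv (fun i => d (kuG a i)) a n = KuC_cv (KuC_cv (kuG a) (KuC_Y d R x)) a n :=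
        KuC_cv_congr _ _ _ _ n (fun i hi => ih i (by omega)) fun _ _ => rfl
      have h3 : (fun i => d (a i)) = fun i => (KuC_Y d R x (i + 1) +
          KuC_cv a (KuC_Y d R x) i) - KuC_cv (KuC_Y d R x) a i :=
        funext fun i => KuC_da s d R hR hsR hx hdR i
      rw [h2, h3, KuC_cv_sub_right, KuC_cv_add_right, KuC_cv_succ]
      have h4 : KuC_cv (fun i => kuG a (i + 1)) (KuC_Y d R x) n =
          KuC_cv (KuC_cv (kuG a) a) (KuC_Y d R x) n :=
        KuC_cv_congr _ _ _ _ n (fun i _ => KuC_G a i) fun _ _ => rfl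
      rw [h4, KuC_assoc, KuC_assoc]
      show _ + (_ + KuC_cv (kuG a) (KuC_cv a (KuC_Y d R x)) n -
        KuC_cv (kuG a) (KuC_cv (KuC_Y d R x) a) n) = _
      abel

end

theorem ku_bin (s : T →+* T) (d R : T →+ T)
    (hd : ∀ a b, d (a * b) = d a * b + s a * d b)
    (hR : ∀ a b, R (a * b) = R a * b + a * R b)
    (hsR : ∀ a, s (R a) = R (s a)) {x : T} (hx : s x = x)
    (hdR : ∀ a, d (R a) = R (d a) - (d x * a - s a * d x)) (n : ℕ) :
    d (kuG (fun i => R^[i] x) n) =
      ∑ i ∈ range n, (n.choose (i + 1) : T) * (kuG (fun i => R^[i] x) (n - 1 - i) * R^[i] (d x)) := by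
  rw [KuC_dG s d R hd hR hsR hx hdR, KuC_cv_range, sum_range_succ']
  have h1 : KuC_Y d R x 0 = 0 := rfl
  rw [h1, mul_zero, mul_zero, add_zero]
  refine sum_congr rfl fun i _ => ?_
  rw [show n - (i + 1) = n - 1 - i by omega]
  rfl

theorem ku_char (p : ℕ) [Fact p.Prime] [CharP T p] (s : T →+* T) (d R : T →+ T)
    (hd : ∀ a b, d (a * b) = d a * b + s a * d b)
    (hR : ∀ a b, R (a * b) = R a * b + a * R b)
    (hsR : ∀ a, s (R a) = R (s a)) {x : T} (hx : s x = x)
    (hdR : ∀ a, d (R a) = R (d a) - (d x * a - s a * d x)) :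
    d (kuG (fun i => R^[i] x) p) = R^[p - 1] (d x) := by
  have hp : p.Prime := Fact.out
  rw [ku_bin s d R hd hR hsR hx hdR]
  rw [sum_eq_single (p - 1)]
  · rw [show p - 1 + 1 = p from Nat.succ_pred_eq_of_pos hp.pos, Nat.choose_self, Nat.cast_one,
      one_mul, Nat.sub_self, kuG_zero, one_mul]
  · intro i hi hne
    rw [mem_range] at hi
    have h1 : p ∣ p.choose (i + 1) := hp.dvd_choose_self (by omega) (by omega)
    rw [(CharP.cast_eq_zero_iff T p _).2 h1, zero_mul]
  · intro h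
    rw [mem_range, not_lt] at h
    have := hp.pos
    omega

theorem kuG_map {T' : Type*} [Ring T'] (φ : T →+* T') (a : ℕ → T) (h : ∀ i, φ (a (i + 1)) = 0)
    (n : ℕ) : φ (kuG a n) = φ (a 0) ^ n := by
  induction n with
  | zero => rw [kuG_zero, map_one, pow_zero]
  | succ n ih =>
    rw [kuG_succ, map_sum, sum_range_succ', sum_eq_zero, zero_add]
    · rw [Nat.choose_zero_right, Nat.cast_one, one_mul, map_mul, Nat.sub_zero, ih, pow_succ]
    · intro i _
      rw [map_mul, map_mul, h, mul_zero, mul_zero]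

end KuC

end Pool.Agent.H26.FG
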