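import Pool.Agent.H26.FG.CoB
import Pool.Agent.H26.FG.KuC

/-!
# Module KuD: degrees of `R_y` and of the elements `G n`

`SubBi.ha_mem`: induction on `n` for all `h ∈ L` (`tg_zero`, `ha_one`; `tg_induction`): `h.(ι v w) = ∑ ι(h₁ v) (h₂.w)`; by `SubBi.comul`
`Δ h` is a finite sum of `b ⊗ c` with `b, c ∈ L` (use `ha_mul` in the form `(mul' ∘ (haL ⊗ haL)) (Δ h)`, i.e. the bilinear map
`(b, c) ↦ ha b (ι v) * ha c w` lifted to `H ⊗ H`, and `Submodule.span_induction`), `ha_ι`, `ι_mem_tg`, `tg_mul`.
`SubBi.Rd_mem`: induction on `n` (`Rd_mul`, `Rd_ι`, `tg_mul`); on scalars `Rd` vanishes.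
`SubBi.Rd_iter_mem`: iterate.
`kuG_mem`: strong induction, `kuG_succ`; `(n.choose i : T) * z` is a natural multiple of `z` (`Nat.cast_mul`/`nsmul`), `tg_mul`.
`tmap_ha`: `TensorAlgebra.induction` for all `h` (generators `ha_ι`; product `ha_mul` with a `Repr` of `h` and its image, a `Repr` of `f h`).
`tmap_Rd_zero`: `tmap f ∘ Rd y` is a `(tmap f, tmap f)`-derivation (`Rd_mul`) which vanishes on generators: `tmap f (h.y) = f h . (tmap f y) = 0`;
`tder_unique` (compare with `0`).
-/

open TensorProduct Coalgebra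

universe u v w

namespace Pool.Agent.H26.FG

section KuD

variable {k : Type u} [Field k] {H : Type v} [Ring H] [Bialgebra k H]

lemma SubBi.top : SubBi k (⊤ : Submodule k H) := h83_top

lemma KuD_ha_mul (h : H) (a b : TensorAlgebra k H) : ha k h (a * b) =
    ((LinearMap.mul' k (TensorAlgebra k H)) ∘ₗ
      (TensorProduct.map (haL k a) (haL k b))) (comul h) := by
  set r := Coalgebra.Repr.arbitrary k h with hr
  rw [ha_mul k h a b r, ← r.eq, map_sum]
  refine Finset.sum_congr rfl fun i _ => ?_
  simp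

lemma KuD_ha_algebraMap (h : H) (c : k) :
    ha k h (algebraMap k (TensorAlgebra k H) c) = (c * counit (R := k) h) • 1 := by
  rw [Algebra.algebraMap_eq_smul_one, map_smul, ha_one, Algebra.algebraMap_eq_smul_one, smul_smul]

lemma SubBi.ha_mem {L : Submodule k H} (hL : SubBi k L) {n : ℕ} {x : TensorAlgebra k H}
    (hx : x ∈ tg L n) {h : H} (hh : h ∈ L) : ha k h x ∈ tg L n := by
  induction n generalizing x h with
  | zero =>
    obtain ⟨c, rfl⟩ := tg_zero _ x hx
    rw [KuD_ha_algebraMap]
    exact Submodule.smul_mem _ _ (one_mem_tg L)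
  | succ n ih =>
    refine tg_induction (P := fun x => ha k h x ∈ tg L (n + 1)) ?_ ?_ x hx
    · intro v hv w hw
      rw [KuD_ha_mul]
      have h1 := hL.comul h hh
      generalize (CoalgebraStruct.comul h : H ⊗[k] H) = t at h1 ⊢
      induction h1 using Submodule.span_induction with
      | mem y hy =>
        obtain ⟨b, hb, c, hc, rfl⟩ := hy
        rw [LinearMap.comp_apply, TensorProduct.map_tmul, LinearMap.mul'_apply, haL_apply,
          haL_apply, ha_ι]
        exact tg_mul (by ring) (ι_mem_tg (hL.mul b hb v hv)) (ih hw hc)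
      | zero => rw [map_zero]; exact Submodule.zero_mem _
      | add x y _ _ hx hy => rw [map_add]; exact Submodule.add_mem _ hx hy
      | smul c x _ hx => rw [map_smul]; exact Submodule.smul_mem _ _ hx
    · intro x y hx hy
      rw [map_add]
      exact Submodule.add_mem _ hx hy

lemma SubBi.Rd_mem {L : Submodule k H} (hL : SubBi k L) {n r : ℕ} {x y : TensorAlgebra k H}
    (hy : y ∈ tg L (r + 1)) (hx : x ∈ tg L n) : Rd k y x ∈ tg L (n + r) := by
  induction n generalizing x with
  | zero =>
    obtain ⟨c, rfl⟩ := tg_zero _ x hx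
    have h1 : Rd k y (algebraMap k (TensorAlgebra k H) c) = 0 := tder_algebraMap _ _ _ c
    rw [h1]
    exact Submodule.zero_mem _
  | succ n ih =>
    refine tg_induction (P := fun x => Rd k y x ∈ tg L (n + 1 + r)) ?_ ?_ x hx
    · intro v hv w hw
      rw [Rd_mul, Rd_ι]
      refine Submodule.add_mem _ (tg_mul (by ring) (hL.ha_mem hy hv) hw) ?_
      exact tg_mul (by ring) (ι_mem_tg hv) (ih hw)
    · intro x y hx hy
      rw [map_add]
      exact Submodule.add_mem _ hx hy

lemma SubBi.Rd_iter_mem {L : Submodule k H} (hL : SubBi k L) {n r : ℕ} {x y : TensorAlgebra k H}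
    (hy : y ∈ tg L (r + 1)) (hx : x ∈ tg L n) (i : ℕ) : (Rd k y)^[i] x ∈ tg L (n + i * r) := by
  induction i with
  | zero => simpa using hx
  | succ i ih =>
    rw [Function.iterate_succ_apply']
    have h1 := hL.Rd_mem hy ih
    have h2 : n + (i + 1) * r = n + i * r + r := by ring
    rw [h2]
    exact h1

lemma kuG_mem {r : ℕ} {a : ℕ → TensorAlgebra k H}
    (ha : ∀ i, a i ∈ tg (⊤ : Submodule k H) (r + i * r)) (n : ℕ) :
    kuG a n ∈ tg (⊤ : Submodule k H) (n * r) := by
  induction n using Nat.strong_induction_on with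
  | _ n ih =>
    rcases n with _ | n
    · rw [kuG_zero, zero_mul]
      exact one_mem_tg _
    · rw [kuG_succ]
      refine Submodule.sum_mem _ fun i hi => ?_
      have hi' : i ≤ n := Nat.lt_succ_iff.1 (Finset.mem_range.1 hi)
      rw [← nsmul_eq_mul]
      refine nsmul_mem ?_ _
      refine tg_mul ?_ (ih (n - i) (by omega)) (ha i)
      have h1 : n = (n - i) + i := by omega
      calc (n - i) * r + (r + i * r) = ((n - i) + i + 1) * r := by ring
        _ = (n + 1) * r := by rw [← h1]

variable {Q : Type w} [Ring Q] [Bialgebra k Q]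

lemma tmap_ha (f : H →ₐc[k] Q) (h : H) (y : TensorAlgebra k H) :
    tmap (f : H →ₐ[k] Q).toLinearMap (ha k h y) =
      ha k (f h) (tmap (f : H →ₐ[k] Q).toLinearMap y) := by
  set φ := tmap (f : H →ₐ[k] Q).toLinearMap with hφ
  have hφι : ∀ h : H, φ (TensorAlgebra.ι k h) = TensorAlgebra.ι k (f h) := fun h => by
    rw [hφ, tmap_ι]; rfl
  induction y using TensorAlgebra.induction generalizing h with
  | algebraMap c =>
    rw [AlgHom.commutes, KuD_ha_algebraMap, KuD_ha_algebraMap, map_smul, map_one]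
    have h2 : counit (R := k) (f h) = counit (R := k) h := CoalgHomClass.counit_comp_apply f h
    rw [h2]
  | ι v =>
    rw [ha_ι, hφι, hφι, ha_ι]
    have h1 : f (h * v) = f h * f v := map_mul f h v
    rw [h1]
  | mul a b iha ihb =>
    rw [KuD_ha_mul, map_mul, KuD_ha_mul]
    have h3 : (comul (f h) : Q ⊗[k] Q) = TensorProduct.map (f : H →ₗ[k] Q) (f : H →ₗ[k] Q)
        (comul h) := (CoalgHomClass.map_comp_comul_apply f h).symm
    rw [h3]
    generalize (comul h : H ⊗[k] H) = t
    induction t using TensorProduct.induction_on with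
    | zero => simp
    | tmul b' c' =>
      simp only [LinearMap.comp_apply, TensorProduct.map_tmul, LinearMap.mul'_apply, haL_apply,
        map_mul, iha, ihb]
      rfl
    | add x y hx hy => simp only [map_add, hx, hy]
  | add a b iha ihb =>
    rw [map_add, map_add, map_add, map_add, iha, ihb]

lemma tmap_Rd_zero (f : H →ₐc[k] Q) {y : TensorAlgebra k H}
    (hy : tmap (f : H →ₐ[k] Q).toLinearMap y = 0) (z : TensorAlgebra k H) :
    tmap (f : H →ₐ[k] Q).toLinearMap (Rd k y z) = 0 := by
  set φ := tmap (f : H →ₐ[k] Q).toLinearMap with hφ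
  have h : φ.toLinearMap ∘ₗ Rd k y = 0 := by
    refine tder_unique φ φ _ _ ?_ ?_ ?_
    · intro a b
      simp only [LinearMap.comp_apply, AlgHom.toLinearMap_apply, Rd_mul, map_add, map_mul]
    · intro a b
      simp
    · intro v
      rw [LinearMap.comp_apply, AlgHom.toLinearMap_apply, Rd_ι, hφ, tmap_ha, ← hφ, hy, map_zero]
      rfl
  exact LinearMap.congr_fun h z

end KuD

end Pool.Agent.H26.FG
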