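import Pool.Agent.H26.FG.KuB
import Pool.Agent.H26.FG.KuD

/-!
# Module Kudo: the Kudo transgression (K)
-/

open TensorProduct Coalgebra

universe u

namespace Pool.Agent.H26.FG

variable {k : Type u} [Field k] {H : Type u} [Ring H] [Bialgebra k H]

private theorem kudo_charP (p : ℕ) [CharP k p] : CharP (TensorAlgebra k H) p :=
  charP_of_injective_algebraMap (TensorAlgebra.algebraMap_leftInverse H).injective p

/-- One step. -/
theorem kudo_step (p : ℕ) [Fact p.Prime] [CharP k p] {L : Submodule k H} (hL : SubBi k L) {n : ℕ}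
    (hn : Even n) (x : TensorAlgebra k H) (hx : x ∈ tg (augK k H) n)
    (hdx : cd k H x ∈ tg L (n + 1)) :
    ∃ x' : TensorAlgebra k H, x' ∈ tg (augK k H) (n * p) ∧
      cd k H x' ∈ tg (L ⊓ augK k H) (n * p + 1) ∧
      ∀ (Q : Type u) [Ring Q] [Bialgebra k Q] (f : H →ₐc[k] Q),
        tmap (f : H →ₐ[k] Q).toLinearMap (cd k H x) = 0 →
        tmap (f : H →ₐ[k] Q).toLinearMap x' = (tmap (f : H →ₐ[k] Q).toLinearMap x) ^ p ∧
          tmap (f : H →ₐ[k] Q).toLinearMap (cd k H x') = 0 := by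
  have hp : p.Prime := Fact.out
  have hp2 : 2 ≤ p := hp.two_le
  have := kudo_charP (k := k) (H := H) p
  set y := cd k H x with hy
  have hxt : x ∈ tg (⊤ : Submodule k H) n := tg_mono le_top n hx
  have hyt : y ∈ tg (⊤ : Submodule k H) (n + 1) := tg_mono le_top _ hdx
  have hsx : sg k H x = x := by
    rw [sg_tg hxt, hn.neg_one_pow, one_smul]
  have hsy : sg k H y = -y := by rw [hy, sg_cd, hsx]
  have hdy : cd k H y = 0 := cd_cd k x
  set a : ℕ → TensorAlgebra k H := fun i => (Rd k y)^[i] x with ha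
  have hG : cd k H (kuG a p) = (Rd k y)^[p - 1] y :=
    ku_char p (sg k H).toRingHom (cd k H).toAddMonoidHom (Rd k y).toAddMonoidHom
      (fun u v => cd_mul k u v) (fun u v => Rd_mul k y u v) (fun u => sg_Rd hsy u) hsx
      (fun u => cd_Rd hsy hdy u)
  have ha_mem : ∀ i, a i ∈ tg (⊤ : Submodule k H) (n + i * n) := fun i =>
    SubBi.top.Rd_iter_mem hyt hxt i
  have hGm : kuG a p ∈ tg (⊤ : Submodule k H) (p * n) := kuG_mem ha_mem p
  refine ⟨nu k (kuG a p), ?_, ?_, ?_⟩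
  · rw [mul_comm n p]
    exact nu_mem hGm
  · rw [← nu_cd, hG]
    have h1 := hL.Rd_iter_mem hdx hdx (p - 1)
    have h2 : n + 1 + (p - 1) * n = n * p + 1 := by
      obtain ⟨r, rfl⟩ := Nat.exists_eq_add_of_le hp2
      have : 2 + r - 1 = r + 1 := by omega
      rw [this]
      ring
    rw [h2] at h1
    exact hL.nu_mem h1
  · intro Q _ _ f hf
    refine ⟨?_, ?_⟩
    · rw [← nu_tmap]
      have h1 : tmap (f : H →ₐ[k] Q).toLinearMap (kuG a p) =
          (tmap (f : H →ₐ[k] Q).toLinearMap (a 0)) ^ p :=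
        kuG_map (tmap (f : H →ₐ[k] Q).toLinearMap).toRingHom a (fun i => by
          have h2 : a (i + 1) = Rd k y (a i) := Function.iterate_succ_apply' _ _ _
          rw [h2]
          exact tmap_Rd_zero f hf _) p
      rw [h1, map_pow, nu_tmap]
      have h2 : nu k (a 0) = x := nu_of_aug hx
      rw [h2]
    · rw [← nu_cd, ← nu_tmap, hG]
      obtain ⟨r, rfl⟩ := Nat.exists_eq_add_of_le hp2
      have h3 : 2 + r - 1 = r + 1 := by omega
      rw [h3, Function.iterate_succ_apply', tmap_Rd_zero f hf, map_zero]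

/-- (K), iterated and normalised. -/
theorem kudo (p : ℕ) [Fact p.Prime] [CharP k p] {L : Submodule k H} (hL : SubBi k L) {q : ℕ}
    (hq : 0 < q) (x : TensorAlgebra k H) (hx : x ∈ tg (augK k H) (2 * q))
    (hdx : cd k H x ∈ tg L (2 * q + 1)) :
    ∃ X : ℕ → TensorAlgebra k H, X 0 = x ∧ (∀ m, X m ∈ tg (augK k H) (2 * q * p ^ m)) ∧
      (∀ m, cd k H (X m) ∈ tg (L ⊓ augK k H) (2 * q * p ^ m + 1)) ∧
      ∀ (Q : Type u) [Ring Q] [Bialgebra k Q] (f : H →ₐc[k] Q),
        tmap (f : H →ₐ[k] Q).toLinearMap (cd k H x) = 0 →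
        ∀ m, tmap (f : H →ₐ[k] Q).toLinearMap (X m) =
          (tmap (f : H →ₐ[k] Q).toLinearMap x) ^ p ^ m := by
  have hdx' : cd k H x ∈ tg (L ⊓ augK k H) (2 * q + 1) := by
    rw [← tg_inf]
    exact ⟨hdx, cd_mem_aug hx⟩
  let S : ℕ → Type u := fun m => {z : TensorAlgebra k H // z ∈ tg (augK k H) (2 * q * p ^ m) ∧
    cd k H z ∈ tg (L ⊓ augK k H) (2 * q * p ^ m + 1)}
  have hstep : ∀ (m : ℕ) (z : S m), ∃ z' : S (m + 1),
      ∀ (Q : Type u) [Ring Q] [Bialgebra k Q] (f : H →ₐc[k] Q),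
        tmap (f : H →ₐ[k] Q).toLinearMap (cd k H z.1) = 0 →
        tmap (f : H →ₐ[k] Q).toLinearMap z'.1 = (tmap (f : H →ₐ[k] Q).toLinearMap z.1) ^ p ∧
          tmap (f : H →ₐ[k] Q).toLinearMap (cd k H z'.1) = 0 := by
    rintro m ⟨z, hz1, hz2⟩
    have hev : Even (2 * q * p ^ m) := by
      rw [mul_assoc]
      exact even_two_mul _
    obtain ⟨z', h1, h2, h3⟩ := kudo_step p hL hev z hz1 (tg_mono inf_le_left _ hz2)
    have e : 2 * q * p ^ m * p = 2 * q * p ^ (m + 1) := by rw [pow_succ, mul_assoc]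
    rw [e] at h1 h2
    exact ⟨⟨z', h1, h2⟩, fun Q _ _ f => h3 Q f⟩
  choose F hF using hstep
  let s : ∀ m, S m := fun m => Nat.rec (motive := S) ⟨x, by simpa using hx, by simpa using hdx'⟩
    (fun m z => F m z) m
  refine ⟨fun m => (s m).1, rfl, fun m => (s m).2.1, fun m => (s m).2.2, ?_⟩
  intro Q _ _ f hf m
  have key : ∀ m, tmap (f : H →ₐ[k] Q).toLinearMap (s m).1 =
      (tmap (f : H →ₐ[k] Q).toLinearMap x) ^ p ^ m ∧
      tmap (f : H →ₐ[k] Q).toLinearMap (cd k H (s m).1) = 0 := by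
    intro m
    induction m with
    | zero =>
      refine ⟨?_, hf⟩
      have h0 : tmap (f : H →ₐ[k] Q).toLinearMap (s 0).1 =
          (tmap (f : H →ₐ[k] Q).toLinearMap x) ^ 1 := by
        rw [pow_one]
        rfl
      simpa using h0
    | succ m ih =>
      have h1 := hF m (s m) Q f ih.2
      have h2 : s (m + 1) = F m (s m) := rfl
      rw [h2]
      refine ⟨?_, h1.2⟩
      rw [h1.1, ih.1, ← pow_mul, pow_succ]
  exact (key m).1

end Pool.Agent.H26.FG
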