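import Pool.Agent.H26.FG.Defs

/-!
# Module LS: the theorem of Larson and Sweedler
-/

open CategoryTheory TensorProduct Coalgebra HopfAlgebra

universe u

namespace Pool.Agent.H26.FG

namespace LSaux

section gen
variable (k : Type u) [Field k] {H : Type u} [Ring H] [HopfAlgebra k H] {M : Type*} [AddCommGroup M]
  [Module k M] {N : Type*} [AddCommGroup N] [Module k N]

/-- the Sweedler sum `∑ F(b₁, b₂)` -/
noncomputable def sw (F : H → H → M) (b : H) : M :=
  ∑ i ∈ (ℛ k b).index, F ((ℛ k b).left i) ((ℛ k b).right i)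

structure Bi (F : H → H → M) : Prop where
  al : ∀ x x' y, F (x + x') y = F x y + F x' y
  sl : ∀ (c : k) x y, F (c • x) y = c • F x y
  ar : ∀ x y y', F x (y + y') = F x y + F x y'
  sr : ∀ (c : k) x y, F x (c • y) = c • F x y

structure Tri (F : H → H → H → M) : Prop where
  a1 : ∀ x x' y z, F (x + x') y z = F x y z + F x' y z
  s1 : ∀ (c : k) x y z, F (c • x) y z = c • F x y z
  a2 : ∀ x y y' z, F x (y + y') z = F x y z + F x y' z
  s2 : ∀ (c : k) x y z, F x (c • y) z = c • F x y z
  a3 : ∀ x y z z', F x y (z + z') = F x y z + F x y z'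
  s3 : ∀ (c : k) x y z, F x y (c • z) = c • F x y z

variable {k}

noncomputable def Bi.map {F : H → H → M} (hF : Bi k F) : H →ₗ[k] H →ₗ[k] M :=
  LinearMap.mk₂ k F hF.al hF.sl hF.ar hF.sr

lemma Bi.sw_lift {F : H → H → M} (hF : Bi k F) (b : H) :
    sw k F b = TensorProduct.lift hF.map (comul b) := by
  rw [← (ℛ k b).eq, map_sum]
  rfl

lemma Bi.sw_eq {F : H → H → M} (hF : Bi k F) {b : H} {ι : Type*} {s : Finset ι} {a d : ι → H}
    (h : comul (R := k) b = ∑ i ∈ s, a i ⊗ₜ[k] d i) : sw k F b = ∑ i ∈ s, F (a i) (d i) := by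
  rw [hF.sw_lift, h, map_sum]
  rfl

noncomputable def Tri.map1 {F : H → H → H → M} (hF : Tri k F) (x : H) : H →ₗ[k] H →ₗ[k] M :=
  LinearMap.mk₂ k (F x) (hF.a2 x) (fun c y z => hF.s2 c x y z) (hF.a3 x)
    (fun c y z => hF.s3 c x y z)

noncomputable def Tri.map {F : H → H → H → M} (hF : Tri k F) : H →ₗ[k] (H ⊗[k] H) →ₗ[k] M where
  toFun x := TensorProduct.lift (hF.map1 x)
  map_add' x x' := by
    apply TensorProduct.ext'
    intro y z
    exact hF.a1 x x' y z
  map_smul' c x := by
    apply TensorProduct.ext'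
    intro y z
    exact hF.s1 c x y z

lemma coas {F : H → H → H → M} (hF : Tri k F) (b : H) :
    sw k (fun x z => sw k (fun u v => F u v z) x) b =
      sw k (fun x z => sw k (fun u v => F x u v) z) b := by
  have h := congrArg (TensorProduct.lift hF.map) (coassoc_apply (R := k) b)
  rw [← (ℛ k b).eq] at h
  simp only [map_sum, LinearMap.rTensor_tmul, LinearMap.lTensor_tmul] at h
  unfold sw
  convert h using 1
  · apply Finset.sum_congr rfl
    intro i _
    conv_rhs => rw [← (ℛ k ((ℛ k b).left i)).eq, TensorProduct.sum_tmul, map_sum, map_sum]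
    rfl
  · apply Finset.sum_congr rfl
    intro i _
    conv_rhs => rw [← (ℛ k ((ℛ k b).right i)).eq, TensorProduct.tmul_sum, map_sum]
    rfl

lemma map_sw (L : M →ₗ[k] N) (F : H → H → M) (b : H) :
    L (sw k F b) = sw k (fun x y => L (F x y)) b := by
  unfold sw
  rw [map_sum]

lemma sw_comul (b : H) : comul (R := k) b = sw k (fun x y => x ⊗ₜ[k] y) b := (ℛ k b).eq.symm

lemma sw_mul {A : Type*} [Ring A] [Algebra k A] (F : H → H → A) (b : H) (c : A) :
    sw k F b * c = sw k (fun x y => F x y * c) b := by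
  unfold sw
  rw [Finset.sum_mul]

lemma mul_sw {A : Type*} [Ring A] [Algebra k A] (F : H → H → A) (b : H) (c : A) :
    c * sw k F b = sw k (fun x y => c * F x y) b := by
  unfold sw
  rw [Finset.mul_sum]

lemma smul_sw (F : H → H → M) (b : H) (c : k) :
    c • sw k F b = sw k (fun x y => c • F x y) b := by
  unfold sw
  rw [Finset.smul_sum]

omit [Module k M] in
lemma sw_zero (b : H) : sw k (fun _ _ => (0 : M)) b = 0 := by
  unfold sw
  simp

lemma sw_S_mul (b : H) : sw k (fun x y => antipode k x * y) b = counit (R := k) b • (1 : H) :=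
  sum_antipode_mul_eq_smul (ℛ k b)

lemma sw_mul_S (b : H) : sw k (fun x y => x * antipode k y) b = counit (R := k) b • (1 : H) :=
  sum_mul_antipode_eq_smul (ℛ k b)

lemma sw_eps_l (L : H →ₗ[k] M) (b : H) :
    sw k (fun x y => counit (R := k) x • L y) b = L b := by
  have h := congrArg L (sum_counit_smul (ℛ k b))
  rw [map_sum] at h
  unfold sw
  simpa only [map_smul] using h

lemma sw_eps_r (L : H →ₗ[k] M) (b : H) :
    sw k (fun x y => counit (R := k) y • L x) b = L b := by
  have h := congrArg (TensorProduct.lift (LinearMap.mk₂ k (fun (x : H) (c : k) => c • L x)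
    (fun x x' c => by rw [map_add, smul_add])
    (fun c x c' => by rw [map_smul, smul_comm])
    (fun x c c' => add_smul _ _ _)
    (fun c x c' => by rw [smul_assoc]))) (sum_tmul_counit_eq (ℛ k b))
  rw [map_sum] at h
  unfold sw
  simpa using h

end gen

section anti
variable {k : Type u} [Field k] {H : Type u} [Ring H] [HopfAlgebra k H]

/-- `G b = ∑ S b₂ ⊗ S b₁` -/
noncomputable def Gm : H →ₗ[k] H ⊗[k] H :=
  (TensorProduct.map (antipode k) (antipode k)) ∘ₗ (TensorProduct.comm k H H).toLinearMap ∘ₗ comul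

lemma Gm_sw (b : H) : Gm (k := k) b = sw k (fun x y => antipode k y ⊗ₜ[k] antipode k x) b := by
  show (TensorProduct.map (antipode k) (antipode k)) (TensorProduct.comm k H H (comul b)) = _
  rw [sw_comul]
  unfold sw
  simp

lemma Gm_mul1 (b : H) :
    sw k (fun x z => Gm (k := k) x * (z ⊗ₜ[k] (1 : H))) b = 1 ⊗ₜ[k] antipode k b := by
  have h1 : ∀ x z : H, Gm (k := k) x * (z ⊗ₜ[k] (1 : H)) =
      sw k (fun u v => (antipode k v * z) ⊗ₜ[k] antipode k u) x := by
    intro x z
    rw [Gm_sw, sw_mul]
    simp only [Algebra.TensorProduct.tmul_mul_tmul, mul_one]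
  simp only [h1]
  have hT : Tri k (fun u v z : H => (antipode k v * z) ⊗ₜ[k] antipode k u) := by
    constructor <;> intros <;>
      simp [add_mul, mul_add, TensorProduct.add_tmul, TensorProduct.tmul_add,
        TensorProduct.smul_tmul']
  rw [coas hT]
  have h2 : ∀ x z : H, sw k (fun u v => (antipode k u * v) ⊗ₜ[k] antipode k x) z =
      counit (R := k) z • ((TensorProduct.mk k H H 1) ∘ₗ antipode k) x := by
    intro x z
    have := map_sw (k := k) ((TensorProduct.mk k H H).flip (antipode k x)) (fun u v => antipode k u * v) z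
    rw [sw_S_mul] at this
    simp only [LinearMap.flip_apply, TensorProduct.mk_apply] at this
    rw [← this]
    simp [TensorProduct.smul_tmul']
  simp only [h2]
  rw [sw_eps_r]
  rfl


lemma Gm_conv : (WithConv.toConv (Gm (k := k) (H := H))) * WithConv.toConv (comul (R := k) (A := H)) = 1 := by
  ext b
  rw [(ℛ k b).convMul_apply]
  have h1 : ∀ x z : H, Gm (k := k) x * comul (R := k) z =
      sw k (fun u v => (Gm (k := k) x * (u ⊗ₜ[k] (1 : H))) * ((1 : H) ⊗ₜ[k] v)) z := by
    intro x z
    rw [sw_comul (k := k) z, mul_sw]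
    congr 1
    funext u v
    rw [mul_assoc, Algebra.TensorProduct.tmul_mul_tmul, mul_one, one_mul]
  have hT : Tri k (fun x u v : H => (Gm (k := k) x * (u ⊗ₜ[k] (1 : H))) * ((1 : H) ⊗ₜ[k] v)) := by
    constructor <;> intros <;>
      simp [add_mul, mul_add, TensorProduct.add_tmul, TensorProduct.tmul_add,
        ← TensorProduct.smul_tmul']
  have h2 : sw k (fun x z => Gm (k := k) x * comul (R := k) z) b =
      sw k (fun x z => ((1 : H) ⊗ₜ[k] (antipode k x * z))) b := by
    simp only [h1]
    rw [← coas hT]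
    congr 1
    funext x z
    rw [← sw_mul, Gm_mul1, Algebra.TensorProduct.tmul_mul_tmul, mul_one]
  have h3 := map_sw (k := k) (TensorProduct.mk k H H 1) (fun x z => antipode k x * z) b
  rw [sw_S_mul] at h3
  simp only [TensorProduct.mk_apply] at h3
  show sw k (fun x z => Gm (k := k) x * comul (R := k) z) b = _
  rw [h2, ← h3]
  simp [Algebra.TensorProduct.one_def, Algebra.algebraMap_eq_smul_one]

lemma comul_antipode (b : H) :
    comul (R := k) (antipode k b) = sw k (fun x y => antipode k y ⊗ₜ[k] antipode k x) b := by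
  have h := left_inv_eq_right_inv (Gm_conv (k := k) (H := H)) (LinearMap.comul_right_inv)
  rw [← Gm_sw]
  exact (LinearMap.congr_fun (congrArg WithConv.ofConv h) b).symm

lemma comul_antipode_of {ι : Type*} {s : Finset ι} {a d : ι → H} {b : H}
    (h : comul (R := k) b = ∑ i ∈ s, a i ⊗ₜ[k] d i) :
    comul (R := k) (antipode k b) = ∑ i ∈ s, antipode k (d i) ⊗ₜ[k] antipode k (a i) := by
  rw [comul_antipode]
  have hB : Bi k (fun x y : H => antipode k y ⊗ₜ[k] antipode k x) := by
    constructor <;> intros <;> simp [TensorProduct.add_tmul, TensorProduct.tmul_add,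
        ← TensorProduct.smul_tmul']
  exact hB.sw_eq h

end anti

section main
variable {k : Type u} [Field k] {H : Type u} [Ring H] [HopfAlgebra k H]

/-- `u ⊗ v ↦ g(v) u` -/
noncomputable def Lam (g : H →ₗ[k] k) : H ⊗[k] H →ₗ[k] H :=
  (TensorProduct.rid k H).toLinearMap ∘ₗ TensorProduct.map LinearMap.id g

@[simp] lemma Lam_tmul (g : H →ₗ[k] k) (u v : H) : Lam g (u ⊗ₜ[k] v) = g v • u := by
  simp [Lam]

/-- `u ⊗ v ↦ g(u) v` -/
noncomputable def LamL (g : H →ₗ[k] k) : H ⊗[k] H →ₗ[k] H :=
  (TensorProduct.lid k H).toLinearMap ∘ₗ TensorProduct.map g LinearMap.id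

@[simp] lemma LamL_tmul (g : H →ₗ[k] k) (u v : H) : LamL g (u ⊗ₜ[k] v) = g u • v := by
  simp [LamL]

lemma Lam_mul (g : H →ₗ[k] k) (w : H ⊗[k] H) (c : H) :
    Lam g (w * (c ⊗ₜ[k] (1 : H))) = Lam g w * c := by
  induction w with
  | zero => simp
  | tmul u v => simp
  | add a b ha hb => rw [add_mul, map_add, ha, hb, map_add, add_mul]

/-- `T f b = ∑ f(b₂) b₁` -/
noncomputable def Tm (f : H →ₗ[k] k) : H →ₗ[k] H := Lam f ∘ₗ comul

lemma Tm_sw (f : H →ₗ[k] k) (b : H) : Tm f b = sw k (fun x y => f y • x) b := by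
  show Lam f (comul b) = _
  rw [sw_comul, map_sw]
  simp

lemma Tm_comul (f : H →ₗ[k] k) (b : H) :
    comul (R := k) (Tm f b) = sw k (fun x y => x ⊗ₜ[k] Tm f y) b := by
  rw [Tm_sw, map_sw]
  have h1 : ∀ x y : H, comul (R := k) (f y • x) = sw k (fun u v => f y • (u ⊗ₜ[k] v)) x := by
    intro x y
    rw [map_smul, sw_comul, smul_sw]
  simp only [h1]
  have hT : Tri k (fun u v z : H => f z • (u ⊗ₜ[k] v)) := by
    constructor <;> intros <;>
      simp [TensorProduct.add_tmul, TensorProduct.tmul_add, add_smul,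
        ← TensorProduct.smul_tmul', smul_smul, mul_comm]
  rw [coas hT]
  congr 1
  funext x z
  rw [Tm_sw]
  have := map_sw (k := k) (TensorProduct.mk k H H x) (fun u v => f v • u) z
  simp only [TensorProduct.mk_apply, TensorProduct.tmul_smul] at this
  exact this.symm

lemma counit_Tm (f : H →ₗ[k] k) (b : H) : counit (R := k) (Tm f b) = f b := by
  rw [Tm_sw, map_sw, ← sw_eps_l f b]
  congr 1
  funext x y
  rw [map_smul, smul_eq_mul, smul_eq_mul, mul_comm]

lemma S_mul_Tm (f : H →ₗ[k] k) (b : H) :
    sw k (fun x y => antipode k x * Tm f y) b = f b • (1 : H) := by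
  have hB : Bi k (fun x y : H => antipode k x * y) := by
    constructor <;> intros <;> simp [add_mul, mul_add]
  have h := hB.sw_eq (Tm_comul f b)
  rw [sw_S_mul, counit_Tm] at h
  exact h.symm

/-- `φ e = S (S (T e))` -/
noncomputable def Ph (f : H →ₗ[k] k) : H →ₗ[k] H := antipode k ∘ₗ antipode k ∘ₗ Tm f

lemma Ph_comul (f : H →ₗ[k] k) (z : H) :
    comul (R := k) (Ph f z) = sw k (fun x y => antipode k (antipode k x) ⊗ₜ[k] Ph f y) z :=
  comul_antipode_of (comul_antipode_of (Tm_comul f z))

lemma one_Ph (f : H →ₗ[k] k) (e : H) :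
    sw k (fun x z => comul (R := k) (Ph f z) * (antipode k x ⊗ₜ[k] (1 : H))) e =
      1 ⊗ₜ[k] Ph f e := by
  have h1 : ∀ x z : H, comul (R := k) (Ph f z) * (antipode k x ⊗ₜ[k] (1 : H)) =
      sw k (fun u v => (antipode k (antipode k u) * antipode k x) ⊗ₜ[k] Ph f v) z := by
    intro x z
    rw [Ph_comul, sw_mul]
    simp only [Algebra.TensorProduct.tmul_mul_tmul, mul_one]
  simp only [h1]
  have hT : Tri k (fun x u v : H => (antipode k (antipode k u) * antipode k x) ⊗ₜ[k] Ph f v) := by
    constructor <;> intros <;>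
      simp [TensorProduct.add_tmul, TensorProduct.tmul_add, add_mul, mul_add,
        ← TensorProduct.smul_tmul']
  rw [← coas hT]
  have h2 : ∀ x z : H, sw k (fun u v => (antipode k (antipode k v) * antipode k u) ⊗ₜ[k] Ph f z) x =
      counit (R := k) x • ((TensorProduct.mk k H H 1) ∘ₗ Ph f) z := by
    intro x z
    have h3 := map_sw (k := k) (((TensorProduct.mk k H H).flip (Ph f z)) ∘ₗ antipode k)
      (fun u v => u * antipode k v) x
    rw [sw_mul_S] at h3
    simp only [LinearMap.comp_apply, LinearMap.flip_apply, TensorProduct.mk_apply,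
      antipode_mul_antidistrib] at h3
    rw [← h3]
    simp [TensorProduct.smul_tmul']
  simp only [h2]
  rw [sw_eps_l]
  rfl

variable {ι : Type*} [Fintype ι] (B : Module.Basis ι k H)

lemma B_exp {M : Type*} [AddCommGroup M] [Module k M] (L : H →ₗ[k] M) (z : H) :
    ∑ i, B.coord i z • L (B i) = L z := by
  conv_rhs => rw [← B.sum_repr z, map_sum]
  simp

/-- `P f x = ∑ eʲ (x φ(e_j))` -/
noncomputable def Pm (f : H →ₗ[k] k) : H →ₗ[k] k :=
  ∑ j, B.coord j ∘ₗ LinearMap.mulRight k (Ph f (B j))

lemma Pm_apply (f : H →ₗ[k] k) (x : H) : Pm B f x = ∑ j, B.coord j (x * Ph f (B j)) := by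
  simp [Pm]

lemma Tm_Pm (f : H →ₗ[k] k) (x : H) : Tm (Pm B f) x = Pm B f x • (1 : H) := by
  have hA : Tm (Pm B f) x = ∑ i, sw k (fun a z => Tm (B.coord i) (x * Ph f z) * antipode k a) (B i) := by
    have h1 : ∀ i, sw k (fun a z => Tm (B.coord i) (x * Ph f z) * antipode k a) (B i) =
        Lam (B.coord i) (comul (R := k) x * (1 ⊗ₜ[k] Ph f (B i))) := by
      intro i
      rw [← one_Ph, mul_sw, map_sw]
      congr 1
      funext a z
      rw [← mul_assoc, Lam_mul, ← Bialgebra.comul_mul]
      rfl
    simp only [h1]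
    rw [Tm_sw, sw_comul (k := k) x]
    simp only [sw_mul, map_sw]
    unfold sw
    rw [Finset.sum_comm]
    apply Finset.sum_congr rfl
    intro q _
    show Pm B f _ • _ = _
    rw [Pm_apply, Finset.sum_smul]
    simp only [Algebra.TensorProduct.tmul_mul_tmul, mul_one, Lam_tmul]
  -- the linear maps G_j
  set G : ι → H →ₗ[k] H := fun j => (Lam ((B.coord j ∘ₗ LinearMap.mulLeft k x) ∘ₗ Ph f)) ∘ₗ
    (TensorProduct.map (antipode k) LinearMap.id) ∘ₗ comul with hG
  have hGs : ∀ j c, G j c = sw k (fun a z => B.coord j (x * Ph f z) • antipode k a) c := by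
    intro j c
    show Lam _ ((TensorProduct.map (antipode k) LinearMap.id) (comul c)) = _
    rw [sw_comul, map_sw, map_sw]
    congr 1
  have hBst : ∀ i, sw k (fun a z => Tm (B.coord i) (x * Ph f z) * antipode k a) (B i) =
      ∑ j, Tm (B.coord i) (B j) * G j (B i) := by
    intro i
    have h1 : ∀ a z : H, Tm (B.coord i) (x * Ph f z) * antipode k a =
        ∑ j, Tm (B.coord i) (B j) * (B.coord j (x * Ph f z) • antipode k a) := by
      intro a z
      rw [← B_exp B (Tm (B.coord i)) (x * Ph f z), Finset.sum_mul]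
      apply Finset.sum_congr rfl
      intro j _
      rw [smul_mul_assoc, mul_smul_comm]
    simp only [h1, hGs, mul_sw]
    unfold sw
    rw [Finset.sum_comm]
  have hCst : ∀ j, ∑ i, Tm (B.coord i) (B j) * G j (B i) = sw k (fun u v => u * G j v) (B j) := by
    intro j
    simp only [Tm_sw, sw_mul]
    unfold sw
    rw [Finset.sum_comm]
    apply Finset.sum_congr rfl
    intro q _
    simp only
    rw [← B_exp B (G j) ((ℛ k (B j)).right q), Finset.mul_sum]
    apply Finset.sum_congr rfl
    intro i _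
    rw [smul_mul_assoc, mul_smul_comm]
  have hT : ∀ j, Tri k (fun u a z : H => B.coord j (x * Ph f z) • (u * antipode k a)) := by
    intro j
    constructor <;> intros <;> simp [add_mul, mul_add, add_smul, smul_smul, mul_comm]
  have hDst : ∀ j, sw k (fun u v => u * G j v) (B j) = B.coord j (x * Ph f (B j)) • (1 : H) := by
    intro j
    have h1 : ∀ u v : H, u * G j v =
        sw k (fun a z => B.coord j (x * Ph f z) • (u * antipode k a)) v := by
      intro u v
      rw [hGs, mul_sw]
      simp only [mul_smul_comm]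
    simp only [h1]
    rw [← coas (hT j)]
    have h2 : ∀ u z : H, sw k (fun a b => B.coord j (x * Ph f z) • (a * antipode k b)) u =
        counit (R := k) u • (((B.coord j ∘ₗ LinearMap.mulLeft k x) ∘ₗ Ph f).smulRight (1 : H)) z := by
      intro u z
      rw [← smul_sw, sw_mul_S, smul_comm]
      rfl
    simp only [h2]
    rw [sw_eps_l]
    rfl
  rw [hA]
  simp only [hBst]
  rw [Finset.sum_comm]
  simp only [hCst, hDst]
  rw [Pm_apply, Finset.sum_smul]

include B in
lemma exists_int (h : ∀ t : H →ₗ[k] k, (∀ y, Tm t y = t y • (1 : H)) → t = 0) (f : H →ₗ[k] k) (x : H) :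
    f x = 0 := by
  have h0 : ∀ g : H →ₗ[k] k, ∀ y, ∑ j, B.coord j (y * Ph g (B j)) = 0 := by
    intro g y
    rw [← Pm_apply, h _ (Tm_Pm B g), LinearMap.zero_apply]
  have h1 : ∑ i, ∑ j, B.coord j (x * antipode k (B i) * Ph (B.coord i ∘ₗ Tm f) (B j)) = 0 := by
    apply Finset.sum_eq_zero
    intro i _
    exact h0 _ _
  rw [Finset.sum_comm] at h1
  have h2 : ∀ j, ∑ i, B.coord j (x * antipode k (B i) * Ph (B.coord i ∘ₗ Tm f) (B j)) =
      f (B j) * B.coord j x := by
    intro j
    have h3 : ∀ i, B.coord j (x * antipode k (B i) * Ph (B.coord i ∘ₗ Tm f) (B j)) =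
        sw k (fun u v => B.coord i (Tm f v) • B.coord j (x * (antipode k (B i) * antipode k (antipode k u))))
          (B j) := by
      intro i
      show B.coord j (x * antipode k (B i) * antipode k (antipode k (Tm (B.coord i ∘ₗ Tm f) (B j)))) = _
      rw [Tm_sw, map_sw, map_sw, mul_sw, map_sw]
      congr 1
      funext u v
      simp [mul_assoc]
    simp only [h3]
    have h4 : ∑ i, sw k (fun u v => B.coord i (Tm f v) • B.coord j (x * (antipode k (B i) *
        antipode k (antipode k u)))) (B j) =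
        sw k (fun u v => B.coord j (x * antipode k (antipode k u * Tm f v))) (B j) := by
      unfold sw
      rw [Finset.sum_comm]
      apply Finset.sum_congr rfl
      intro q _
      simp only
      rw [antipode_mul_antidistrib]
      exact B_exp B ((B.coord j ∘ₗ LinearMap.mulLeft k x ∘ₗ
        LinearMap.mulRight k (antipode k (antipode k ((ℛ k (B j)).left q)))) ∘ₗ antipode k) _
    rw [h4]
    have h5 := map_sw (k := k) (B.coord j ∘ₗ LinearMap.mulLeft k x ∘ₗ antipode k)
      (fun u v => antipode k u * Tm f v) (B j)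
    rw [S_mul_Tm] at h5
    exact h5.symm.trans (by simp)
  simp only [h2] at h1
  have h6 := B_exp B f x
  rw [← h6, ← h1]
  apply Finset.sum_congr rfl
  intro j _
  rw [smul_eq_mul, mul_comm]

include B in
lemma inj_int (t : H →ₗ[k] k) (ht : ∀ y, Tm t y = t y • (1 : H)) (b : H)
    (hb : ∀ x, t (x * antipode k b) = 0) (x : H) : t x • b = 0 := by
  -- the Hopf module identity
  have hHM : ∀ y : H, sw k (fun u v => comul (R := k) (y * antipode k u) * (v ⊗ₜ[k] (1 : H))) b =
      comul (R := k) y * (1 ⊗ₜ[k] antipode k b) := by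
    intro y
    rw [← Gm_mul1, mul_sw]
    congr 1
    funext u v
    rw [Bialgebra.comul_mul, mul_assoc, comul_antipode, Gm_sw]
  have h1 : ∀ y : H, sw k (fun u v => t (y * antipode k u) • v) b = 0 := by
    intro y
    have h2 := congrArg (Lam t) (hHM y)
    rw [map_sw] at h2
    have h3 : Lam t (comul (R := k) y * (1 ⊗ₜ[k] antipode k b)) = 0 := by
      rw [sw_comul (k := k) y, sw_mul, map_sw]
      have : (fun u v : H => Lam t (u ⊗ₜ[k] v * 1 ⊗ₜ[k] antipode k b)) = fun _ _ => 0 := by
        funext u v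
        rw [Algebra.TensorProduct.tmul_mul_tmul, Lam_tmul, hb, zero_smul]
      rw [this, sw_zero]
    rw [h3] at h2
    rw [← h2]
    congr 1
    funext u v
    rw [Lam_mul]
    show _ = Tm t _ * v
    rw [ht, smul_mul_assoc, one_mul]
  have h2 : ∀ y : H, ∀ i, sw k (fun u v => B.coord i v * t (y * antipode k u)) b = 0 := by
    intro y i
    have h3 := congrArg (B.coord i) (h1 y)
    rw [map_sw, map_zero] at h3
    rw [← h3]
    congr 1
    funext u v
    rw [map_smul, smul_eq_mul, mul_comm]
  have hT : Tri k (fun p q v : H => t (x * (antipode k (antipode k q) * antipode k p)) • v) := by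
    constructor <;> intros <;> simp [add_mul, mul_add, add_smul, smul_smul, mul_comm]
  have h4 := coas hT b
  have h5 : sw k (fun u v => sw k (fun p q => t (x * (antipode k (antipode k q) * antipode k p)) • v) u) b =
      t x • b := by
    have h6 : ∀ u v : H, sw k (fun p q => t (x * (antipode k (antipode k q) * antipode k p)) • v) u =
        counit (R := k) u • (t x • (LinearMap.id : H →ₗ[k] H)) v := by
      intro u v
      have h7 := map_sw (k := k) ((LinearMap.toSpanSingleton k H v) ∘ₗ t ∘ₗ LinearMap.mulLeft k x ∘ₗ antipode k)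
        (fun p q => p * antipode k q) u
      rw [sw_mul_S] at h7
      simp only [LinearMap.comp_apply, antipode_mul_antidistrib, LinearMap.mulLeft_apply,
        LinearMap.toSpanSingleton_apply] at h7
      rw [← h7]
      simp [smul_smul]
    simp only [h6]
    rw [sw_eps_l]
    rfl
  rw [← h5, h4]
  -- expand in the basis
  have h8 : ∀ p z : H, sw k (fun q v => t (x * (antipode k (antipode k q) * antipode k p)) • v) z =
      ∑ i, B.coord i z • sw k (fun q v => t (x * (antipode k (antipode k q) * antipode k p)) • v) (B i) := by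
    intro p z
    set L : H →ₗ[k] H := LamL (t ∘ₗ LinearMap.mulLeft k x ∘ₗ LinearMap.mulRight k (antipode k p) ∘ₗ
      antipode k ∘ₗ antipode k) ∘ₗ comul with hL
    have hLs : ∀ c, sw k (fun q v => t (x * (antipode k (antipode k q) * antipode k p)) • v) c = L c := by
      intro c
      show _ = LamL _ (comul c)
      rw [sw_comul, map_sw]
      simp
    simp only [hLs]
    exact (B_exp B L z).symm
  have h8' : sw k (fun p z => sw k (fun q v =>
      t (x * (antipode k (antipode k q) * antipode k p)) • v) z) b = sw k (fun p z => ∑ i, B.coord i z • sw k (fun q v =>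
      t (x * (antipode k (antipode k q) * antipode k p)) • v) (B i)) b := by
    congr 1
    funext p z
    exact h8 p z
  rw [h8']
  have h9 : sw k (fun p z => ∑ i, B.coord i z • sw k (fun q v =>
      t (x * (antipode k (antipode k q) * antipode k p)) • v) (B i)) b =
      ∑ i, sw k (fun q v => sw k (fun p z => B.coord i z *
        t (x * antipode k (antipode k q) * antipode k p)) b • v) (B i) := by
    unfold sw
    rw [Finset.sum_comm]
    apply Finset.sum_congr rfl
    intro i _
    simp only [Finset.smul_sum, Finset.sum_smul]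
    rw [Finset.sum_comm]
    simp only [smul_smul, mul_assoc]
  rw [h9]
  apply Finset.sum_eq_zero
  intro i _
  simp only [h2, zero_smul, sw_zero]

end main
end LSaux

variable (k : Type u) [Field k] (H : Type u) [Ring H] [HopfAlgebra k H] [Module.Finite k H]

/-- A finite-dimensional Hopf algebra has a non-degenerate left integral `t` in its dual
(`∑ t(b₂) b₁ = t(b) 1`), and its antipode is bijective.
Proof. For `f : H → k` let `T_f b = ∑ f(b₂) b₁` and `P(f)(x) = trace (y ↦ x S²(T_f y))`. With a
basis `e i` and dual basis `e^i` of `H`: `P(f)(x) = ∑ f(S…)`, i.e. if `T_f = ∑ f₀ ⊗ f₁` (as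
`T_f b = ∑ f₀(b) f₁`; `f₀ ⊗ f₁ = ∑ (e^i * f) ⊗ e i`, `*` the convolution product) then
`P(f)(x) = ∑ f₀(x S²(f₁))`. Put `(f ◁ b)(x) = f(x S(b))`. Then
(1) `T_{f ◁ b} y = ∑ f₀(y S(b₁)) f₁ b₂` (Hopf module axiom), so `P(f)` is an integral:
`T_{P(f)} y = P(f)(y) 1`; (2) `f = ∑ P(f₀) ◁ f₁`; (3) for an integral `t`, `P(t ◁ b) = ε(b) t`.
By (2) there is an integral `t ≠ 0`; by (1) and (3), if `∑ t_i ◁ b_i = 0` with linearly independent
integrals `t_i` then all `b_i = 0`, so `dim(integrals) * dim H ≤ dim H`, so the integrals are `k t`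
and `b ↦ t ◁ b` is bijective from `H` to its dual. Hence `S` is injective, so bijective, and the form
`t(x y)` is non-degenerate. -/
theorem larson_sweedler :
    ∃ t : H →ₗ[k] k,
      (∀ b : H, TensorProduct.rid k H (TensorProduct.map LinearMap.id t (comul (R := k) b)) =
        t b • (1 : H)) ∧
      (∀ x : H, (∀ y : H, t (x * y) = 0) → x = 0) ∧
      (∀ x : H, (∀ y : H, t (y * x) = 0) → x = 0) ∧
      Function.Bijective (antipode k (A := H)) := by
  classical
  let B := Module.finBasis k H
  obtain ⟨t, ht, ht0⟩ : ∃ t : H →ₗ[k] k, (∀ y, LSaux.Tm t y = t y • (1 : H)) ∧ t ≠ 0 := by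
    by_contra hcon
    push Not at hcon
    have h1 := LSaux.exists_int B hcon (counit (R := k) (A := H)) 1
    rw [Bialgebra.counit_one] at h1
    exact one_ne_zero h1
  obtain ⟨x₀, hx₀⟩ : ∃ x, t x ≠ 0 := by
    by_contra hcon
    push Not at hcon
    exact ht0 (LinearMap.ext hcon)
  have hinj : ∀ b : H, (∀ x, t (x * antipode k b) = 0) → b = 0 := by
    intro b hb
    have := LSaux.inj_int B t ht b hb x₀
    exact (smul_eq_zero.1 this).resolve_left hx₀
  have hSinj : Function.Injective (antipode k (A := H)) := by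
    rw [← LinearMap.ker_eq_bot, LinearMap.ker_eq_bot']
    intro b hb
    apply hinj
    intro x
    rw [hb, mul_zero, map_zero]
  have hSsurj : Function.Surjective (antipode k (A := H)) := LinearMap.injective_iff_surjective.1 hSinj
  have hr : ∀ x : H, (∀ y : H, t (y * x) = 0) → x = 0 := by
    intro x hx
    obtain ⟨b, rfl⟩ := hSsurj x
    rw [hinj b hx, map_zero]
  refine ⟨t, ht, ?_, hr, hSinj, hSsurj⟩
  intro x hx
  let A : H →ₗ[k] Module.Dual k H := (LinearMap.compr₂ (LinearMap.mul k H) t).flip
  have hA : Function.Injective A := by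
    rw [← LinearMap.ker_eq_bot, LinearMap.ker_eq_bot']
    intro y hy
    apply hr
    intro z
    exact LinearMap.congr_fun hy z
  have hA2 : Function.Surjective A :=
    (LinearMap.injective_iff_surjective_of_finrank_eq_finrank
      (Subspace.dual_finrank_eq (K := k) (V := H)).symm).1 hA
  rw [← Module.forall_dual_apply_eq_zero_iff k]
  intro g
  obtain ⟨y, rfl⟩ := hA2 g
  exact hx y

end Pool.Agent.H26.FG
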