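import Pool.Agent.H26.FG.CoiA
import Pool.Agent.H26.FG.GOpA

/-!
# Module LX: Carlson modules, killing and Nakayama
-/

open CategoryTheory Abelian

universe u v w

namespace Pool.Agent.H26.FG

variable (k : Type u) [Field k] {𝒜 : Type v} [Category.{w} 𝒜] [Abelian 𝒜] [Linear k 𝒜]
  [HasExt.{u} 𝒜]

lemma hLX_assoc {W X Y Z : 𝒜} {p a m b c d : ℕ} (x : Ext.{u} W X p) (v : Ext.{u} X Y a)
    (e : Ext.{u} Y Z m) (h : p + a = b) (h' : b + m = c) (h'' : a + m = d) (h3 : p + d = c) :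
    (x.comp v h).comp e h' = x.comp (v.comp e h'') h3 :=
  Ext.comp_assoc x v e h h'' (by omega)

lemma hLX_sub {P N N' : 𝒜} {m a b : ℕ} (e : Ext.{u} N' N m) (h : a + m = b)
    (v w : Ext.{u} P N' a) : (v - w).comp e h = v.comp e h - w.comp e h := by
  rw [sub_eq_add_neg, Ext.add_comp, Ext.neg_comp, sub_eq_add_neg]

/-- Postcomposition with a dimension shifting class is injective in positive degrees. -/
lemma hLX_GN_of_inj {P N N' : 𝒜} {m : ℕ} (e : Ext.{u} N' N m)
    (he : ∀ (j c : ℕ) (h : j + m = c), 1 ≤ j → ∀ v v' : Ext P N' j,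
      v.comp e h = v'.comp e h → v = v')
    (T : Set (Cls P)) (h : (EGP k P N).GN T) : (EGP k P N').GN T := by
  refine GOp.GN_of_injective (V'' := (EGP k P N).shift m)
    (fun n => Ext.postcompOfLinear e k P rfl) ?_ 1 ?_ ((GOp.GN_shift_iff _ _ _).2 h)
  · intro i hi a b h v
    exact hLX_assoc i.2 v e h rfl rfl (by omega)
  · intro n hn v hv
    refine he n (n + m) rfl hn v 0 ?_
    rw [Ext.zero_comp]
    exact hv

/-- Setting: `0 → N → Ω → L → 0` exact (`= S`), `e ∈ Ext^m(Ω, N)` a dimension shifting class,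
`x ∈ Ext^m(P, P)` with `v (f e) = x v` for all `v ∈ Ext(P, N)`.
Claim A: if `Ext(P, N)` is noetherian over `T ∪ {x}` then `Ext(P, L)` is noetherian over `T`.
Proof: `GN_exact_drop` for `Ext(P,Ω) → Ext(P,L) → Ext(P,N)[1]`; `Ext(P,Ω)` embeds into
`Ext(P,N)[m]` in degrees `≥ 1` by `h ↦ h e`. For `h ∈ Ext^j(P,Ω)` and `g = h e`:
`(x h) e = x g = g f e`, so `x h = g f` by injectivity, and `x h` dies in `Ext(P,L)`.
For `v ∈ Ext^j(P,L)` and `v' = v λ`: `(x v) λ = x v' = v' f e = 0`. -/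
theorem LX_claimA {P : 𝒜} (S : ShortComplex 𝒜) (hS : S.ShortExact) {m : ℕ} (hm : 0 < m)
    (x : Ext.{u} P P m) (e : Ext.{u} S.X₂ S.X₁ m) (he : DimShift P e)
    (hx : ∀ (n c : ℕ) (h : n + m = c) (h' : m + n = c) (v : Ext P S.X₁ n),
      v.comp ((Ext.mk₀ S.f).comp e (zero_add m)) h = x.comp v h')
    (T : Set (Cls P)) (h : (EGP k P S.X₁).GN (T ∪ {⟨m, x⟩})) : (EGP k P S.X₃).GN T := by
  have h' := hLX_GN_of_inj k e he.inj _ h
  refine GOp.GN_exact_drop (V' := EGP k P S.X₂) (V := EGP k P S.X₃)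
    (V'' := (EGP k P S.X₁).shift 1) (S := T) (T := {⟨m, x⟩})
    (fun n => Ext.postcompOfLinear (Ext.mk₀ S.g) k P (add_zero n))
    (fun n => Ext.postcompOfLinear hS.extClass k P rfl) ?_ ?_ 0 ?_ ?_ ?_ h'
    ((GOp.GN_shift_iff _ _ _).2 h)
  · intro i hi a b h v
    exact hLX_assoc i.2 v (Ext.mk₀ S.g) h (add_zero b) (add_zero a) h
  · intro i hi a b h v
    exact hLX_assoc i.2 v hS.extClass h rfl rfl (by omega)
  · intro n _ v hv
    exact Ext.covariant_sequence_exact₃ P hS v rfl hv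
  · rintro i rfl a b h v
    change Ext P S.X₂ a at v
    have h : m + a = b := h
    have hb : 1 ≤ b := by omega
    show (x.comp v h).comp (Ext.mk₀ S.g) (add_zero b) = 0
    -- `x v = (v e) f`
    have key : x.comp v h = (v.comp e (show a + m = b by omega)).comp (Ext.mk₀ S.f)
        (add_zero b) := by
      refine he.inj b (b + m) rfl hb _ _ ?_
      rw [Ext.comp_assoc_of_second_deg_zero, hx b (b + m) rfl (by omega)]
      exact hLX_assoc x v e h rfl (by omega) _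
    rw [key, Ext.comp_assoc_of_second_deg_zero, Ext.mk₀_comp_mk₀, S.zero, Ext.mk₀_zero,
      Ext.comp_zero]
  · rintro i rfl a b h v
    change Ext P S.X₃ a at v
    have h : m + a = b := h
    show (x.comp v h).comp hS.extClass rfl = 0
    have h1 : (x.comp v h).comp hS.extClass rfl =
        x.comp (v.comp hS.extClass rfl) (show m + (a + 1) = b + 1 by omega) :=
      hLX_assoc x v hS.extClass h rfl rfl _
    rw [h1, ← hx (a + 1) (b + 1) (by omega) (by omega),
      ← Ext.comp_assoc_of_second_deg_zero, Ext.comp_assoc_of_third_deg_zero,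
      hS.extClass_comp, Ext.comp_zero, Ext.zero_comp]

/-- Claim N (Nakayama): if `Ext(P, L)` is noetherian over `T` then `Ext(P, N)` is generated in
bounded degrees over `T ∪ {x}`. -/
theorem LX_claimN {P : 𝒜} (S : ShortComplex 𝒜) (hS : S.ShortExact) {m : ℕ} (hm : 0 < m)
    (x : Ext.{u} P P m) (e : Ext.{u} S.X₂ S.X₁ m) (he : DimShift P e)
    (hx : ∀ (n c : ℕ) (h : n + m = c) (h' : m + n = c) (v : Ext P S.X₁ n),
      v.comp ((Ext.mk₀ S.f).comp e (zero_add m)) h = x.comp v h')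
    (T : Set (Cls P)) (h : (EGP k P S.X₃).GN T) : (EGP k P S.X₁).GF (T ∪ {⟨m, x⟩}) := by
  obtain ⟨n₀, hn₀⟩ := h (fun n => LinearMap.range
    (Ext.postcompOfLinear (Ext.mk₀ S.g) k P (add_zero n))) (by
      rintro i hi a b h _ ⟨w, rfl⟩
      exact ⟨i.2.comp w h, hLX_assoc i.2 w (Ext.mk₀ S.g) h (add_zero b) (add_zero a) h⟩)
  refine ⟨n₀ + m, fun n hn v _ => ?_⟩
  obtain ⟨n', rfl⟩ : ∃ n', n = n' + m := ⟨n - m, by omega⟩
  have hn' : n₀ < n' := by omega
  obtain ⟨w, rfl⟩ := he.surj n' (n' + m) rfl v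
  -- the classes in `Ext^n'(P, Ω)` whose product with `e` is in the span
  let Z : Submodule k (Ext P S.X₂ n') :=
    ((EGP k P S.X₁).Gen (T ∪ {⟨m, x⟩}) (fun _ => ⊤) (n' + m)).comap
      (Ext.postcompOfLinear e k P rfl)
  have hZ : (EGP k P S.X₃).Gen T (fun n => LinearMap.range
      (Ext.postcompOfLinear (Ext.mk₀ S.g) k P (add_zero n))) n' ≤
      Z.map (Ext.postcompOfLinear (Ext.mk₀ S.g) k P (add_zero n')) := by
    refine Submodule.span_le.2 ?_
    rintro _ ⟨i, hi, a, h, _, ⟨w₁, rfl⟩, rfl⟩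
    have h3 : i.1 + a = n' := h
    refine ⟨i.2.comp w₁ h, ?_, hLX_assoc i.2 w₁ (Ext.mk₀ S.g) h (add_zero n') (add_zero a) h⟩
    refine Submodule.subset_span ⟨i, Or.inl hi, a + m,
      (show i.1 + (a + m) = n' + m by omega), w₁.comp e rfl, Submodule.mem_top, ?_⟩
    exact (hLX_assoc i.2 w₁ e h3 rfl rfl (show i.1 + (a + m) = n' + m by omega)).symm
  obtain ⟨w', hw'Z, hw'⟩ := hZ (hn₀ n' hn' ⟨w, rfl⟩)
  have h0 : (w - w').comp (Ext.mk₀ S.g) (add_zero n') = 0 := by
    rw [hLX_sub]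
    exact sub_eq_zero.2 hw'.symm
  obtain ⟨u, hu⟩ := Ext.covariant_sequence_exact₂ P hS _ h0
  have h1 : w.comp e rfl = w'.comp e rfl + x.comp u (show m + n' = n' + m by omega) := by
    rw [← hx n' (n' + m) rfl (by omega), ← Ext.comp_assoc_of_second_deg_zero, hu,
      hLX_sub]
    abel
  rw [h1]
  refine Submodule.add_mem _ hw'Z ?_
  exact Submodule.subset_span ⟨⟨m, x⟩, Or.inr rfl, n', (by exact Nat.add_comm m n'), u,
    Submodule.mem_top, rfl⟩

/-- Invariance under isomorphisms. -/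
lemma EGP_GN_iso {P N N' : 𝒜} (i : N ≅ N') (T : Set (Cls P)) :
    (EGP k P N).GN T ↔ (EGP k P N').GN T := by
  have key : ∀ {N N' : 𝒜} (i : N ≅ N'), (EGP k P N').GN T → (EGP k P N).GN T := by
    intro N N' i h
    refine GOp.GN_of_injective (V'' := EGP k P N')
      (fun n => Ext.postcompOfLinear (Ext.mk₀ i.hom) k P (add_zero n)) ?_ 0 ?_ h
    · intro j hj a b h v
      exact hLX_assoc j.2 v (Ext.mk₀ i.hom) h (add_zero b) (add_zero a) h
    · intro n hn v hv
      change Ext P N n at v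
      have hv : v.comp (Ext.mk₀ i.hom) (add_zero n) = 0 := hv
      have h1 : (v.comp (Ext.mk₀ i.hom) (add_zero n)).comp (Ext.mk₀ i.inv) (add_zero n) = v := by
        rw [Ext.comp_assoc_of_second_deg_zero, Ext.mk₀_comp_mk₀, i.hom_inv_id, Ext.comp_mk₀_id]
      have h2 : v = 0 := by rw [← h1, hv, Ext.zero_comp]
      exact h2
  exact ⟨key i.symm, key i⟩

/-- Invariance under dimension shifting. -/
lemma EGP_GN_dimShift {P N N' : 𝒜} {m : ℕ} (e : Ext.{u} N' N m) (he : DimShift P e)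
    (T : Set (Cls P)) : (EGP k P N').GN T ↔ (EGP k P N).GN T := by
  refine ⟨fun h => ?_, hLX_GN_of_inj k e he.inj T⟩
  refine (GOp.GN_shift_iff _ _ m).1 ?_
  refine GOp.GN_of_surjective (V' := EGP k P N') (V := (EGP k P N).shift m) (S' := T) id
    (fun i hi => hi) (fun i => rfl) (fun n => Ext.postcompOfLinear e k P rfl) ?_ 0 ?_ h
  · intro i hi a b h h' v
    exact hLX_assoc i.2 v e h rfl rfl (by omega)
  · intro n _ v
    exact he.surj n (n + m) rfl v

end Pool.Agent.H26.FG
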