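import Pool.Agent.H26.FG.CoiA

/-!
# Module ResFF: restrictions of coinduced modules to a subalgebra over which `C` is projective
-/

open CategoryTheory Abelian TensorProduct
open scoped ModuleCat

universe u

namespace Pool.Agent.H26.FG

variable (k : Type u) [Field k] {A C : Type u} [Ring A] [Algebra k A] [Ring C] [Algebra k C]

/-- The element of `Hom_k(C, N)` underlying an element of the restriction. -/
noncomputable def h17_ev (f : A →ₐ[k] C) (N : ModuleCat.{u} C)
    (m : (resF f.toRingHom).obj ((FF k).obj N)) : Coi k N := m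

lemma h17_ev_smul (f : A →ₐ[k] C) (N : ModuleCat.{u} C) (a : A)
    (m : (resF f.toRingHom).obj ((FF k).obj N)) (x : C) :
    (h17_ev k f N (a • m)).fn x = (h17_ev k f N m).fn (x * f a) := rfl

lemma h17_ev_add (f : A →ₐ[k] C) (N : ModuleCat.{u} C)
    (m m' : (resF f.toRingHom).obj ((FF k).obj N)) (x : C) :
    (h17_ev k f N (m + m')).fn x = (h17_ev k f N m).fn x + (h17_ev k f N m').fn x := rfl

lemma h17_ev_ksmul (f : A →ₐ[k] C) (N : ModuleCat.{u} C) (c : k)
    (m : (resF f.toRingHom).obj ((FF k).obj N)) (x : C) :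
    (h17_ev k f N (c • m)).fn x = c • (h17_ev k f N m).fn x := by
  have h : c • m = algebraMap k A c • m := (algebraMap_smul A c m).symm
  rw [h, h17_ev_smul, f.commutes, ← Algebra.commutes, ← Algebra.smul_def, map_smul]

/-- Suppose that `C` is a finitely generated projective right `A`-module: there are `w i ∈ C` and
right `A`-linear `φ i : C → A` with `c = ∑ w i f(φ i c)`. Then `Hom_k(C, N)` is an injective
`A`-module. Given `X ⊆ Y` and an `A`-linear `g : X → Hom_k(C, N)` extend the `k`-linear maps
`x ↦ g x (w i)` to `ĝ i : Y → N`; then `y ↦ (c ↦ ∑ ĝ i (φ i c • y))` is an `A`-linear extension. -/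
theorem resF_FF_injective (f : A →ₐ[k] C) {n : ℕ} (w : Fin n → C) (φ : Fin n → C →ₗ[k] A)
    (h1 : ∀ i c a, φ i (c * f a) = φ i c * a) (h2 : ∀ c, ∑ i, w i * f (φ i c) = c)
    (N : ModuleCat.{u} C) : Injective ((resF f.toRingHom).obj ((FF k).obj N)) := by
  constructor
  intro X Y g i hi
  have hinj : Function.Injective i.hom := (ModuleCat.mono_iff_injective i).1 hi
  -- the maps to be extended
  let ev : Fin n → X →ₗ[k] N := fun j =>
    { toFun := fun x => (h17_ev k f N (g.hom x)).fn (w j)
      map_add' := fun x y => by rw [map_add]; rfl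
      map_smul' := fun c x => by
        have h3 : g.hom (c • x) = c • g.hom x := (g.hom.restrictScalars k).map_smul c x
        rw [h3, h17_ev_ksmul]
        rfl }
  have hker : LinearMap.ker (i.hom.restrictScalars k) = ⊥ := LinearMap.ker_eq_bot.2 hinj
  obtain ⟨p, hp⟩ := LinearMap.exists_leftInverse_of_injective (i.hom.restrictScalars k) hker
  have hp' : ∀ x, p (i.hom x) = x := fun x => LinearMap.congr_fun hp x
  let G : Fin n → Y →ₗ[k] N := fun j => ev j ∘ₗ p
  have hG : ∀ j x, G j (i.hom x) = (h17_ev k f N (g.hom x)).fn (w j) := fun j x => by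
    show ev j (p (i.hom x)) = _
    rw [hp']
    rfl
  let hy : Y → Coi k N := fun y => Coi.mk k
    { toFun := fun c => ∑ j, G j (φ j c • y)
      map_add' := fun c c' => by
        rw [← Finset.sum_add_distrib]
        refine Finset.sum_congr rfl fun j _ => ?_
        rw [map_add, add_smul, map_add]
      map_smul' := fun r c => by
        rw [RingHom.id_apply, Finset.smul_sum]
        refine Finset.sum_congr rfl fun j _ => ?_
        rw [(φ j).map_smul, smul_assoc, (G j).map_smul] }
  have hyfn : ∀ y c, (hy y).fn c = ∑ j, G j (φ j c • y) := fun _ _ => rfl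
  let hl : Y →ₗ[A] ((resF f.toRingHom).obj ((FF k).obj N)) :=
    { toFun := hy
      map_add' := fun y y' => Coi.ext fun c => by
        have h3 : Coi.fn (k := k) (N := N) (hy y + hy y') c = (hy y).fn c + (hy y').fn c := rfl
        refine Eq.trans ?_ h3.symm
        rw [hyfn, hyfn, hyfn, ← Finset.sum_add_distrib]
        refine Finset.sum_congr rfl fun j _ => ?_
        rw [smul_add, map_add]
      map_smul' := fun a y => Coi.ext fun c => by
        refine Eq.trans ?_ (h17_ev_smul k f N a (hy y) c).symm
        show (hy (a • y)).fn c = (hy y).fn (c * f a)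
        rw [hyfn, hyfn]
        refine Finset.sum_congr rfl fun j _ => ?_
        rw [h1, mul_smul] }
  refine ⟨ConcreteCategory.ofHom (C := ModuleCat.{u} A) (X := Y)
    (Y := (resF f.toRingHom).obj ((FF k).obj N)) hl, ?_⟩
  ext x
  refine Coi.ext fun c => ?_
  show (hy (i.hom x)).fn c = (h17_ev k f N (g.hom x)).fn c
  rw [hyfn]
  have h4 : ∀ j, G j (φ j c • i.hom x) = (h17_ev k f N (g.hom x)).fn (w j * f (φ j c)) := by
    intro j
    rw [← map_smul i.hom, hG, map_smul g.hom, h17_ev_smul]
  rw [Finset.sum_congr rfl (fun j _ => h4 j), ← map_sum, h2]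

end Pool.Agent.H26.FG
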