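import Pool.Agent.H26.FG.ExtInd

/-!
# Module TenL: natural transformations between tensor functors
-/

open CategoryTheory Abelian TensorProduct
open scoped ModuleCat

universe u

namespace Pool.Agent.H26.FG

variable (k : Type u) [Field k] {H : Type u} [Ring H] [Bialgebra k H]

/-- `X ⊗ φ : X ⊗ M → X ⊗ N`, natural in `X`. -/
noncomputable def tenRmap {M N : ModuleCat.{u} H} (φ : M ⟶ N) : tenR k M ⟶ tenR k N where
  app X := tenMap k (𝟙 X) φ
  naturality _ _ _ := ten_hom_ext k fun _ _ => rfl

/-- `f ⊗ M : X ⊗ M → Y ⊗ M`, natural in `M`. -/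
noncomputable def tenLmap {X Y : ModuleCat.{u} H} (f : X ⟶ Y) : tenL k X ⟶ tenL k Y where
  app M := tenMap k f (𝟙 M)
  naturality _ _ _ := ten_hom_ext k fun _ _ => rfl

/-- `k ⊗ M → M`, natural in `M`. -/
noncomputable def lamT : tenL k (triv k H) ⟶ 𝟭 (ModuleCat.{u} H) where
  app M := (lamIso k M).hom
  naturality M N f := by
    refine ten_hom_ext k fun x m => ?_
    change tval k x • f.hom m = f.hom (tval k x • m)
    have e1 : tval k x • m = algebraMap k H (tval k x) • m := (algebraMap_smul H _ _).symm
    have e2 : tval k x • f.hom m = algebraMap k H (tval k x) • f.hom m :=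
      (algebraMap_smul H _ _).symm
    rw [e1, e2, map_smul]

lemma h59_sum_counit_smul {h : H} {ι : Type*} (r : Coalgebra.Repr k h ι) :
    ∑ i ∈ r.index, Coalgebra.counit (R := k) (r.right i) • r.left i = h := by
  simpa only [map_sum, TensorProduct.lift.tmul, LinearMap.flip_apply, LinearMap.lsmul_apply,
    one_smul] using congr(TensorProduct.lift (LinearMap.lsmul k H).flip
      $(Coalgebra.sum_tmul_counit_eq (R := k) r))

/-- `X ⊗ k → X`, additive version. -/
noncomputable def h59_rhoAdd (X : ModuleCat.{u} H) : Ten k X (triv k H) →+ X :=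
  (TensorProduct.lift (LinearMap.mk₂ k (fun (x : X) (c : triv k H) => tval k c • x)
    (fun _ _ _ => smul_add _ _ _) (fun _ _ _ => smul_comm _ _ _)
    (fun x c d => by rw [map_add, add_smul])
    (fun c x d => by rw [tval_smul', mul_smul]))).toAddMonoidHom

@[simp] lemma h59_rhoAdd_ten (X : ModuleCat.{u} H) (x : X) (c : triv k H) :
    h59_rhoAdd k X (ten k x c) = tval k c • x := rfl

lemma h59_rhoAdd_smul (X : ModuleCat.{u} H) (h : H) (t : Ten k X (triv k H)) :
    h59_rhoAdd k X (h • t) = h • h59_rhoAdd k X t := by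
  induction t using ten_induction with
  | h0 => simp
  | h1 x m =>
    rw [h59_rhoAdd_ten, smul_ten k h x m (Coalgebra.Repr.arbitrary k h), map_sum]
    conv_rhs => rw [← h59_sum_counit_smul k (Coalgebra.Repr.arbitrary k h), Finset.sum_smul]
    refine Finset.sum_congr rfl fun i _ => ?_
    rw [h59_rhoAdd_ten, tval_smul, mul_comm, mul_smul, smul_assoc, smul_comm]
    simp only [smul_comm (tval k m)]
  | h2 s t hs ht => rw [smul_add, map_add, map_add, smul_add, hs, ht]

/-- `X → X ⊗ k`. -/
noncomputable def h59_rhoInv (X : ModuleCat.{u} H) : X ⟶ ModuleCat.of H (Ten k X (triv k H)) :=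
  ModuleCat.ofHom
    { toFun := fun m => ten k m (tone k H)
      map_add' := fun m m' => add_ten k m m' _
      map_smul' := by
        intro h m
        rw [RingHom.id_apply, smul_ten k h _ _ (Coalgebra.Repr.arbitrary k h)]
        conv_lhs => rw [← h59_sum_counit_smul k (Coalgebra.Repr.arbitrary k h),
          Finset.sum_smul, sum_ten]
        refine Finset.sum_congr rfl fun i _ => ?_
        rw [smul_tone, ← smul_ten', smul_assoc] }

/-- The isomorphism `X ⊗ k ≅ X` (`x ⊗ c ↦ c x`). -/
noncomputable def rhoIso (X : ModuleCat.{u} H) : (tenR k (triv k H)).obj X ≅ X where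
  hom := ModuleCat.ofHom
    { toFun := h59_rhoAdd k X
      map_add' := map_add _
      map_smul' := h59_rhoAdd_smul k X }
  inv := h59_rhoInv k X
  hom_inv_id := ten_hom_ext k fun x m => by
    change ten k (tval k m • x) (tone k H) = ten k x m
    conv_rhs => rw [triv_eq k m, ← smul_ten']
  inv_hom_id := by
    ext m
    change tval k (tone k H) • m = m
    rw [tval_tone, one_smul]

lemma rhoIso_hom_ten (X : ModuleCat.{u} H) (x : X) (c : triv k H) :
    (rhoIso k X).hom.hom (ten k x c) = tval k c • x := rfl

/-- `X ⊗ k → X`, natural in `X`. -/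
noncomputable def rhoT : tenR k (triv k H) ⟶ 𝟭 (ModuleCat.{u} H) where
  app X := (rhoIso k X).hom
  naturality X Y f := by
    refine ten_hom_ext k fun x m => ?_
    change tval k m • f.hom x = f.hom (tval k m • x)
    have e1 : tval k m • x = algebraMap k H (tval k m) • x := (algebraMap_smul H _ _).symm
    have e2 : tval k m • f.hom x = algebraMap k H (tval k m) • f.hom x :=
      (algebraMap_smul H _ _).symm
    rw [e1, e2, map_smul]

/-- On `k ⊗ k` both isomorphisms agree. -/
lemma rhoIso_triv : (rhoIso k (triv k H)).hom = (lamIso k (triv k H)).hom := by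
  refine ten_hom_ext k fun x m => ?_
  change tval k m • x = tval k x • m
  apply tval_injective k
  rw [tval_smul', tval_smul', mul_comm]

section resTen

variable {A : Type u} [Ring A] [Bialgebra k A]

/-- the restriction functor of a bialgebra homomorphism -/
noncomputable abbrev h59_R (f : A →ₐc[k] H) : ModuleCat.{u} H ⥤ ModuleCat.{u} A :=
  resF (f : A →ₐ[k] H).toRingHom

/-- an element of `X` as an element of `res X` -/
def h59_c (f : A →ₐc[k] H) {X : ModuleCat.{u} H} (x : X) : (h59_R k f).obj X := x

/-- an element of `res X` as an element of `X` -/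
def h59_d (f : A →ₐc[k] H) {X : ModuleCat.{u} H} (x : (h59_R k f).obj X) : X := x

lemma h59_smul (f : A →ₐc[k] H) {X : ModuleCat.{u} H} (c : k) (x : X) :
    h59_c k f (c • x) = c • h59_c k f x := by
  have e1 : c • x = algebraMap k H c • x := (algebraMap_smul H _ _).symm
  have e2 : c • h59_c k f x = algebraMap k A c • h59_c k f x := (algebraMap_smul A _ _).symm
  have e3 : algebraMap k H c = (f : A →ₐ[k] H) (algebraMap k A c) := by
    rw [AlgHom.commutes]
  rw [e2, e1, e3]
  rfl

/-- the identity `X → res X` as a `k`-linear map -/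
noncomputable def h59_up (f : A →ₐc[k] H) (X : ModuleCat.{u} H) :
    X →ₗ[k] (h59_R k f).obj X where
  toFun := h59_c k f
  map_add' := fun _ _ => rfl
  map_smul' := h59_smul k f

/-- the identity `res X → X` as a `k`-linear map -/
noncomputable def h59_dn (f : A →ₐc[k] H) (X : ModuleCat.{u} H) :
    (h59_R k f).obj X →ₗ[k] X where
  toFun := h59_d k f
  map_add' := fun _ _ => rfl
  map_smul' := fun c x => (h59_smul k f c (h59_d k f x)).symm

/-- `X ⊗ M → res X ⊗ res M`, additive version -/
noncomputable def h59_tup (f : A →ₐc[k] H) (X M : ModuleCat.{u} H) :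
    Ten k X M →+ Ten k ((h59_R k f).obj X) ((h59_R k f).obj M) :=
  (TensorProduct.map (h59_up k f X) (h59_up k f M)).toAddMonoidHom

/-- `res X ⊗ res M → X ⊗ M`, additive version -/
noncomputable def h59_tdn (f : A →ₐc[k] H) (X M : ModuleCat.{u} H) :
    Ten k ((h59_R k f).obj X) ((h59_R k f).obj M) →+ Ten k X M :=
  (TensorProduct.map (h59_dn k f X) (h59_dn k f M)).toAddMonoidHom

lemma h59_tup_ten (f : A →ₐc[k] H) (X M : ModuleCat.{u} H) (x : X) (m : M) :
    h59_tup k f X M (ten k x m) = ten k (h59_c k f x) (h59_c k f m) := rfl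

lemma h59_tdn_ten (f : A →ₐc[k] H) (X M : ModuleCat.{u} H) (x : (h59_R k f).obj X)
    (m : (h59_R k f).obj M) :
    h59_tdn k f X M (ten k x m) = ten k (h59_d k f x) (h59_d k f m) := rfl

lemma h59_tup_smul (f : A →ₐc[k] H) (X M : ModuleCat.{u} H) (c : A) (t : Ten k X M) :
    h59_tup k f X M (f c • t) = c • h59_tup k f X M t := by
  induction t using ten_induction with
  | h0 => rw [smul_zero, map_zero, smul_zero]
  | h1 x m =>
    have h := smul_ten k (X := X) (M := M) (f c) x m
      ((Coalgebra.Repr.arbitrary k c).induced f)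
    have h2 := smul_ten k c (h59_c k f x) (h59_c k f m) (Coalgebra.Repr.arbitrary k c)
    rw [h, map_sum, h59_tup_ten, h2]
    rfl
  | h2 s t hs ht => rw [smul_add, map_add, map_add, smul_add, hs, ht]

lemma h59_left (f : A →ₐc[k] H) (X M : ModuleCat.{u} H) (t : Ten k X M) :
    h59_tdn k f X M (h59_tup k f X M t) = t := by
  induction t using ten_induction with
  | h0 => rw [map_zero, map_zero]
  | h1 x m => rfl
  | h2 s t hs ht => rw [map_add, map_add, hs, ht]

lemma h59_right (f : A →ₐc[k] H) (X M : ModuleCat.{u} H)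
    (t : Ten k ((h59_R k f).obj X) ((h59_R k f).obj M)) :
    h59_tup k f X M (h59_tdn k f X M t) = t := by
  induction t using ten_induction with
  | h0 => rw [map_zero, map_zero]
  | h1 x m => rfl
  | h2 s t hs ht => rw [map_add, map_add, hs, ht]

lemma h59_tdn_smul (f : A →ₐc[k] H) (X M : ModuleCat.{u} H) (c : A)
    (t : Ten k ((h59_R k f).obj X) ((h59_R k f).obj M)) :
    h59_tdn k f X M (c • t) = f c • h59_tdn k f X M t := by
  have h := h59_tup_smul k f X M c (h59_tdn k f X M t)
  rw [h59_right] at h
  rw [← h, h59_left]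

/-- `X ⊗ M → res X ⊗ res M` as an `A`-linear map -/
noncomputable def h59_lup (f : A →ₐc[k] H) (X M : ModuleCat.{u} H) :
    ((h59_R k f).obj ((tenR k M).obj X) : ModuleCat.{u} A) →ₗ[A]
      ((tenR k ((h59_R k f).obj M)).obj ((h59_R k f).obj X) : ModuleCat.{u} A) where
  toFun := fun t => h59_tup k f X M t
  map_add' := fun s t => (h59_tup k f X M).map_add s t
  map_smul' := fun c t => h59_tup_smul k f X M c t

/-- `res X ⊗ res M → X ⊗ M` as an `A`-linear map -/
noncomputable def h59_ldn (f : A →ₐc[k] H) (X M : ModuleCat.{u} H) :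
    ((tenR k ((h59_R k f).obj M)).obj ((h59_R k f).obj X) : ModuleCat.{u} A) →ₗ[A]
      ((h59_R k f).obj ((tenR k M).obj X) : ModuleCat.{u} A) where
  toFun := fun t => h59_tdn k f X M t
  map_add' := fun s t => (h59_tdn k f X M).map_add s t
  map_smul' := fun c t => h59_tdn_smul k f X M c t

end resTen

/-- Restriction along a bialgebra homomorphism commutes with tensor products (identity on the
underlying spaces): `res (X ⊗ M) ≅ res X ⊗ res M`. The two `k`-structures on restricted modules
(through `A` and through `C`) agree, but only propositionally; build the isomorphism with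
`TensorProduct` maps of the identity. -/
noncomputable def resTen {A : Type u} [Ring A] [Bialgebra k A] (f : A →ₐc[k] H)
    (X M : ModuleCat.{u} H) :
    (resF (f : A →ₐ[k] H).toRingHom).obj ((tenR k M).obj X) ≅
      (tenR k ((resF (f : A →ₐ[k] H).toRingHom).obj M)).obj
        ((resF (f : A →ₐ[k] H).toRingHom).obj X) where
  hom := ConcreteCategory.ofHom (C := ModuleCat.{u} A) (h59_lup k f X M)
  inv := ConcreteCategory.ofHom (C := ModuleCat.{u} A) (h59_ldn k f X M)
  hom_inv_id := ModuleCat.hom_ext (LinearMap.ext fun t => h59_left k f X M t)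
  inv_hom_id := ModuleCat.hom_ext (LinearMap.ext fun t => h59_right k f X M t)

lemma resTen_hom_ten {A : Type u} [Ring A] [Bialgebra k A] (f : A →ₐc[k] H)
    (X M : ModuleCat.{u} H) (x : X) (m : M) :
    (resTen k f X M).hom.hom (ten k x m) =
      (ten k (X := (resF (f : A →ₐ[k] H).toRingHom).obj X)
        (M := (resF (f : A →ₐ[k] H).toRingHom).obj M) x m) := rfl

lemma h59_nat {A : Type u} [Ring A] [Bialgebra k A] (f : A →ₐc[k] H)
    (M : ModuleCat.{u} H) {X Y : ModuleCat.{u} H} (g : X ⟶ Y) (t : Ten k X M) :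
    h59_tup k f Y M (tenAdd k g (𝟙 M) t) =
      tenAdd k ((h59_R k f).map g) (𝟙 ((h59_R k f).obj M)) (h59_tup k f X M t) := by
  induction t using ten_induction with
  | h0 => simp only [map_zero]
  | h1 x m => rfl
  | h2 s t hs ht => simp only [map_add, hs, ht]

/-- The isomorphism `resTen` is natural in `X`. -/
noncomputable def resTenT {A : Type u} [Ring A] [Bialgebra k A] (f : A →ₐc[k] H)
    (M : ModuleCat.{u} H) :
    tenR k M ⋙ resF (f : A →ₐ[k] H).toRingHom ≅
      resF (f : A →ₐ[k] H).toRingHom ⋙ tenR k ((resF (f : A →ₐ[k] H).toRingHom).obj M) :=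
  NatIso.ofComponents (fun X => resTen k f X M) (fun g =>
    ModuleCat.hom_ext (LinearMap.ext fun t => h59_nat k f M g t))

end Pool.Agent.H26.FG
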