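import Pool.Agent.H26.FG.CoiA
import Pool.Agent.H26.FG.TenL

/-!
# Module TenFF: the tensor identity, `F(M) ⊗ N ≅ F(M ⊗ N)`
-/

open CategoryTheory Abelian TensorProduct
open scoped ModuleCat

universe u

namespace Pool.Agent.H26.FG

section Twist

variable {k : Type u} [Field k] {H : Type u} [Ring H] [HopfAlgebra k H]
variable {W : Type u} [AddCommGroup W] [Module k W]

/-- `g ↦ (x ↦ ∑ a(x₂) (g (x₁)))`. -/
noncomputable def h15_tw (a : H →ₗ[k] Module.End k W) (g : H →ₗ[k] W) : H →ₗ[k] W :=
  TensorProduct.lift (LinearMap.comp (LinearMap.flip a) g) ∘ₗ Coalgebra.comul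

lemma h15_tw_apply (a : H →ₗ[k] Module.End k W) (g : H →ₗ[k] W) (x : H) {ι : Type*}
    (r : Coalgebra.Repr k x ι) :
    h15_tw a g x = ∑ i ∈ r.index, a (r.right i) (g (r.left i)) := by
  rw [h15_tw, LinearMap.comp_apply, ← r.eq, map_sum]
  rfl

lemma h15_tw_add (a : H →ₗ[k] Module.End k W) (g g' : H →ₗ[k] W) :
    h15_tw a (g + g') = h15_tw a g + h15_tw a g' := by
  ext x
  rw [LinearMap.add_apply, h15_tw_apply a _ x (Coalgebra.Repr.arbitrary k x),
    h15_tw_apply a _ x (Coalgebra.Repr.arbitrary k x),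
    h15_tw_apply a _ x (Coalgebra.Repr.arbitrary k x), ← Finset.sum_add_distrib]
  exact Finset.sum_congr rfl fun i _ => map_add _ _ _

/-- If `b` is a left inverse of `a` for the opposite convolution then the twists are inverse. -/
lemma h15_tw_tw (a b : H →ₗ[k] Module.End k W)
    (hab : ∀ x : H, ∑ i ∈ (Coalgebra.Repr.arbitrary k x).index,
      b ((Coalgebra.Repr.arbitrary k x).right i) * a ((Coalgebra.Repr.arbitrary k x).left i) =
        Coalgebra.counit (R := k) x • 1) (g : H →ₗ[k] W) :
    h15_tw b (h15_tw a g) = g := by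
  ext x
  set r := Coalgebra.Repr.arbitrary k x with hr
  -- the trilinear map `x ⊗ (y ⊗ z) ↦ b z (a y (g x))`
  let F0 : W →ₗ[k] H →ₗ[k] H →ₗ[k] W :=
    LinearMap.mk₂ k (fun (w : W) (y : H) => LinearMap.flip b (a y w))
      (fun w w' y => by simp only [map_add])
      (fun c w y => by simp only [map_smul])
      (fun w y y' => by simp only [map_add, LinearMap.add_apply])
      (fun c w y => by simp only [map_smul, LinearMap.smul_apply])
  let F : H ⊗[k] (H ⊗[k] H) →ₗ[k] W :=
    TensorProduct.lift ((TensorProduct.uncurry (RingHom.id k) H H W).comp (F0.comp g))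
  have hF : ∀ x y z : H, F (x ⊗ₜ[k] (y ⊗ₜ[k] z)) = b z (a y (g x)) := fun x y z => rfl
  have h1 : h15_tw b (h15_tw a g) x = ∑ i ∈ r.index,
      ∑ j ∈ (Coalgebra.Repr.arbitrary k (r.left i)).index,
        F ((Coalgebra.Repr.arbitrary k (r.left i)).left j ⊗ₜ[k]
          ((Coalgebra.Repr.arbitrary k (r.left i)).right j ⊗ₜ[k] r.right i)) := by
    rw [h15_tw_apply b _ x r]
    refine Finset.sum_congr rfl fun i _ => ?_
    rw [h15_tw_apply a g _ (Coalgebra.Repr.arbitrary k (r.left i)), map_sum]
    rfl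
  have h2 := congrArg F (Coalgebra.sum_tmul_tmul_eq r
    (fun i => Coalgebra.Repr.arbitrary k (r.left i))
    (fun i => Coalgebra.Repr.arbitrary k (r.right i)))
  simp only [map_sum] at h2
  rw [h1, h2]
  have h3 : ∀ i ∈ r.index, ∑ j ∈ (Coalgebra.Repr.arbitrary k (r.right i)).index,
      F (r.left i ⊗ₜ[k] ((Coalgebra.Repr.arbitrary k (r.right i)).left j ⊗ₜ[k]
        (Coalgebra.Repr.arbitrary k (r.right i)).right j)) =
      Coalgebra.counit (R := k) (r.right i) • g (r.left i) := by
    intro i _
    have h4 := congrArg (fun φ : Module.End k W => φ (g (r.left i))) (hab (r.right i))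
    simp only [LinearMap.sum_apply] at h4
    exact h4
  rw [Finset.sum_congr rfl h3]
  have h5 := congrArg (TensorProduct.lift ((LinearMap.lsmul k W).flip.comp g))
    (Coalgebra.sum_tmul_counit_eq r)
  rw [map_sum] at h5
  simpa using h5

end Twist

section AntiInv

variable {k : Type u} [Field k] {H : Type u} [Ring H] [HopfAlgebra k H]

/-- The inverse of the antipode. -/
noncomputable def h15_S' (hS : Function.Bijective (HopfAlgebra.antipode k (A := H))) : H →ₗ[k] H :=
  (LinearEquiv.ofBijective (HopfAlgebra.antipode k (A := H)) hS).symm.toLinearMap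

lemma h15_S_S' (hS : Function.Bijective (HopfAlgebra.antipode k (A := H))) (x : H) :
    HopfAlgebra.antipode k (h15_S' hS x) = x :=
  (LinearEquiv.ofBijective (HopfAlgebra.antipode k (A := H)) hS).apply_symm_apply x

lemma h15_S'_mul (hS : Function.Bijective (HopfAlgebra.antipode k (A := H))) (x : H) {ι : Type*}
    (r : Coalgebra.Repr k x ι) :
    ∑ i ∈ r.index, h15_S' hS (r.right i) * r.left i = algebraMap k H (Coalgebra.counit x) := by
  apply hS.1
  rw [map_sum, Algebra.algebraMap_eq_smul_one, map_smul, HopfAlgebra.antipode_one,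
    ← HopfAlgebra.sum_antipode_mul_eq_smul r]
  refine Finset.sum_congr rfl fun i _ => ?_
  rw [HopfAlgebra.antipode_mul_antidistrib, h15_S_S']

lemma h15_mul_S' (hS : Function.Bijective (HopfAlgebra.antipode k (A := H))) (x : H) {ι : Type*}
    (r : Coalgebra.Repr k x ι) :
    ∑ i ∈ r.index, r.right i * h15_S' hS (r.left i) = algebraMap k H (Coalgebra.counit x) := by
  apply hS.1
  rw [map_sum, Algebra.algebraMap_eq_smul_one, map_smul, HopfAlgebra.antipode_one,
    ← HopfAlgebra.sum_mul_antipode_eq_smul r]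
  refine Finset.sum_congr rfl fun i _ => ?_
  rw [HopfAlgebra.antipode_mul_antidistrib, h15_S_S']

end AntiInv

section Conv

variable (k : Type u) [Field k] {H : Type u} [Ring H] [HopfAlgebra k H]

/-- The operators `1 ⊗ y` on `M ⊗ N`. -/
noncomputable def h15_aL (M N : ModuleCat.{u} H) : H →ₗ[k] Module.End k (M ⊗[k] N) :=
  (LinearMap.lTensorHom (M : Type u)).comp (Algebra.lsmul k k N).toLinearMap

lemma h15_aL_tmul (M N : ModuleCat.{u} H) (y : H) (m : M) (n : N) :
    h15_aL k M N y (m ⊗ₜ[k] n) = m ⊗ₜ[k] (y • n) := rfl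

lemma h15_aL_mul (M N : ModuleCat.{u} H) (x y : H) :
    h15_aL k M N x * h15_aL k M N y = h15_aL k M N (x * y) := by
  refine TensorProduct.ext' fun m n => ?_
  change h15_aL k M N x (h15_aL k M N y (m ⊗ₜ[k] n)) = _
  rw [h15_aL_tmul, h15_aL_tmul, h15_aL_tmul, mul_smul]

lemma h15_aL_algebraMap (M N : ModuleCat.{u} H) (c : k) :
    h15_aL k M N (algebraMap k H c) = c • 1 := by
  refine TensorProduct.ext' fun m n => ?_
  rw [h15_aL_tmul, algebraMap_smul, TensorProduct.tmul_smul]
  rfl

/-- The twist as an equivalence. -/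
noncomputable def h15_twE (hS : Function.Bijective (HopfAlgebra.antipode k (A := H)))
    (M N : ModuleCat.{u} H) : (H →ₗ[k] (M ⊗[k] N)) ≃ (H →ₗ[k] (M ⊗[k] N)) where
  toFun := h15_tw (h15_aL k M N)
  invFun := h15_tw ((h15_aL k M N).comp (h15_S' hS))
  left_inv := h15_tw_tw _ _ (fun x => by
    rw [← h15_aL_algebraMap, ← h15_S'_mul hS x (Coalgebra.Repr.arbitrary k x), map_sum]
    exact Finset.sum_congr rfl fun i _ => h15_aL_mul k M N _ _)
  right_inv := h15_tw_tw _ _ (fun x => by
    rw [← h15_aL_algebraMap, ← h15_mul_S' hS x (Coalgebra.Repr.arbitrary k x), map_sum]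
    exact Finset.sum_congr rfl fun i _ => h15_aL_mul k M N _ _)

lemma h15_ksmul (X M : ModuleCat.{u} H) (c : k) (t : X ⊗[k] M) :
    tenAct k X M (algebraMap k H c) t = c • t := by
  rw [AlgHom.commutes]
  rfl

/-- Change of the `k`-structure on `M ⊗ N`. -/
noncomputable def h15_cv (M N : ModuleCat.{u} H) :
    (H →ₗ[k] (M ⊗[k] N)) ≃ Coi k ((tenR k N).obj M) where
  toFun g := Coi.mk k (N := (tenR k N).obj M)
    { toFun := fun x => (g x : M ⊗[k] N)
      map_add' := fun x y => g.map_add x y
      map_smul' := fun c x => (g.map_smul c x).trans (h15_ksmul k M N c (g x)).symm }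
  invFun f :=
    { toFun := fun x => (f.fn x : Ten k M N)
      map_add' := fun x y => f.fn.map_add x y
      map_smul' := fun c x => (f.fn.map_smul c x).trans (h15_ksmul k M N c (f.fn x)) }
  left_inv _ := rfl
  right_inv _ := rfl

/-- `Hom_k(H, M)` with the other `k`-structure. -/
noncomputable def h15_e1 (M : ModuleCat.{u} H) : ((FF k).obj M : Type u) ≃ₗ[k] (H →ₗ[k] M) where
  toFun f := Coi.fn (k := k) (N := M) f
  invFun g := Coi.mk k g
  left_inv _ := rfl
  right_inv _ := rfl
  map_add' _ _ := rfl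
  map_smul' c f := LinearMap.ext fun x => Coi.ksmul_fn k c f x

end Conv

variable (k : Type u) [Field k] {H : Type u} [Ring H] [HopfAlgebra k H] [Module.Finite k H]

/-- The bijection underlying the tensor identity. -/
noncomputable def h15_tiE (hS : Function.Bijective (HopfAlgebra.antipode k (A := H)))
    (M N : ModuleCat.{u} H) : Ten k ((FF k).obj M) N ≃ Coi k ((tenR k N).obj M) :=
  ((TensorProduct.congr (h15_e1 k M) (LinearEquiv.refl k N)).trans
    (rTensorHomEquivHomRTensor k H M N)).toEquiv.trans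
      ((h15_twE k hS M N).trans (h15_cv k M N))

lemma h15_tiE_add (hS : Function.Bijective (HopfAlgebra.antipode k (A := H)))
    (M N : ModuleCat.{u} H) (s t : Ten k ((FF k).obj M) N) :
    h15_tiE k hS M N (s + t) = h15_tiE k hS M N s + h15_tiE k hS M N t := by
  have h1 := map_add ((TensorProduct.congr (h15_e1 k M) (LinearEquiv.refl k N)).trans
    (rTensorHomEquivHomRTensor k H M N)) (s : ((FF k).obj M : Type u) ⊗[k] N) t
  have h2 := congrArg (fun g => h15_cv k M N (h15_tw (h15_aL k M N) g)) h1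
  refine h2.trans ?_
  simp only [h15_tw_add]
  rfl

lemma h15_tiE_ten (hS : Function.Bijective (HopfAlgebra.antipode k (A := H)))
    (M N : ModuleCat.{u} H) (f : (FF k).obj M) (n : N) (x : H) {ι : Type*}
    (r : Coalgebra.Repr k x ι) :
    (h15_tiE k hS M N (ten k f n)).fn x =
      ∑ i ∈ r.index, ten k (Coi.fn (k := k) (N := M) f (r.left i)) (r.right i • n) := by
  have h0 : (h15_tiE k hS M N (ten k f n)).fn x = h15_tw (h15_aL k M N)
      (rTensorHomEquivHomRTensor k H M N ((h15_e1 k M f) ⊗ₜ[k] n)) x := by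
    have h1 := TensorProduct.congr_tmul (h15_e1 k M) (LinearEquiv.refl k N) f n
    have h2 := congrArg (fun g => h15_tw (h15_aL k M N) (rTensorHomEquivHomRTensor k H M N g) x) h1
    exact h2
  rw [h0, h15_tw_apply _ _ x r, rTensorHomEquivHomRTensor_apply]
  rfl

/-- The product of two representations. -/
noncomputable def h15_reprMul {H : Type u} [Ring H] [Bialgebra k H] {x y : H} {ι κ : Type*}
    (r : Coalgebra.Repr k x ι) (s : Coalgebra.Repr k y κ) : Coalgebra.Repr k (x * y) (ι × κ) where
  index := r.index ×ˢ s.index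
  left := fun p => r.left p.1 * s.left p.2
  right := fun p => r.right p.1 * s.right p.2
  eq := by
    rw [Bialgebra.comul_mul, ← r.eq, ← s.eq, Finset.sum_mul_sum, Finset.sum_product]
    refine Finset.sum_congr rfl fun i _ => Finset.sum_congr rfl fun j _ => ?_
    rw [Algebra.TensorProduct.tmul_mul_tmul]

lemma h15_tiE_zero (hS : Function.Bijective (HopfAlgebra.antipode k (A := H)))
    (M N : ModuleCat.{u} H) : h15_tiE k hS M N 0 = 0 := by
  have h1 := h15_tiE_add k hS M N 0 0
  rw [add_zero] at h1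
  exact left_eq_add.mp h1

lemma h15_tiE_sum (hS : Function.Bijective (HopfAlgebra.antipode k (A := H)))
    (M N : ModuleCat.{u} H) {ι : Type*} (s : Finset ι) (t : ι → Ten k ((FF k).obj M) N) :
    h15_tiE k hS M N (∑ i ∈ s, t i) = ∑ i ∈ s, h15_tiE k hS M N (t i) := by
  let φ : Ten k ((FF k).obj M) N →+ Coi k ((tenR k N).obj M) :=
    { toFun := h15_tiE k hS M N
      map_zero' := h15_tiE_zero k hS M N
      map_add' := h15_tiE_add k hS M N }
  exact map_sum φ t s

omit [Module.Finite k H] in
lemma h15_fn_sum (M : ModuleCat.{u} H) {ι : Type*} (s : Finset ι) (f : ι → Coi k M) (x : H) :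
    (∑ i ∈ s, f i).fn x = ∑ i ∈ s, (f i).fn x := by
  let φ : Coi k M →+ M :=
    { toFun := fun f => f.fn x
      map_zero' := rfl
      map_add' := fun _ _ => rfl }
  exact map_sum φ f s

lemma h15_tiE_smul (hS : Function.Bijective (HopfAlgebra.antipode k (A := H)))
    (M N : ModuleCat.{u} H) (h : H) (t : Ten k ((FF k).obj M) N) :
    h15_tiE k hS M N (h • t) = h • h15_tiE k hS M N t := by
  induction t using ten_induction with
  | h0 => rw [smul_zero, h15_tiE_zero, smul_zero]
  | h1 f n =>
    refine Coi.ext fun x => ?_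
    rw [Coi.smul_fn, smul_ten k h f n (Coalgebra.Repr.arbitrary k h), h15_tiE_sum, h15_fn_sum,
      h15_tiE_ten k hS M N f n (x * h) (h15_reprMul k (Coalgebra.Repr.arbitrary k x)
        (Coalgebra.Repr.arbitrary k h))]
    have h1 : ∀ j ∈ (Coalgebra.Repr.arbitrary k h).index,
        (h15_tiE k hS M N (ten k ((Coalgebra.Repr.arbitrary k h).left j • f)
          ((Coalgebra.Repr.arbitrary k h).right j • n))).fn x =
        ∑ i ∈ (Coalgebra.Repr.arbitrary k x).index,
          ten k (Coi.fn (k := k) (N := M) f ((Coalgebra.Repr.arbitrary k x).left i *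
            (Coalgebra.Repr.arbitrary k h).left j))
            (((Coalgebra.Repr.arbitrary k x).right i *
              (Coalgebra.Repr.arbitrary k h).right j) • n) := by
      intro j _
      rw [h15_tiE_ten k hS M N _ _ x (Coalgebra.Repr.arbitrary k x)]
      refine Finset.sum_congr rfl fun i _ => ?_
      rw [mul_smul]
      rfl
    refine (Finset.sum_congr rfl h1).trans ?_
    refine Eq.trans (Finset.sum_comm (s := (Coalgebra.Repr.arbitrary k h).index)
      (t := (Coalgebra.Repr.arbitrary k x).index)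
      (f := fun j i => ten k (Coi.fn (k := k) (N := M) f
        ((Coalgebra.Repr.arbitrary k x).left i * (Coalgebra.Repr.arbitrary k h).left j))
          (((Coalgebra.Repr.arbitrary k x).right i *
            (Coalgebra.Repr.arbitrary k h).right j) • n))) ?_
    exact (Finset.sum_product (Coalgebra.Repr.arbitrary k x).index
      (Coalgebra.Repr.arbitrary k h).index
      (fun p => ten k (Coi.fn (k := k) (N := M) f
        ((Coalgebra.Repr.arbitrary k x).left p.1 * (Coalgebra.Repr.arbitrary k h).left p.2))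
          (((Coalgebra.Repr.arbitrary k x).right p.1 *
            (Coalgebra.Repr.arbitrary k h).right p.2) • n))).symm
  | h2 s t hs ht => rw [smul_add, h15_tiE_add, h15_tiE_add, smul_add, hs, ht]

/-- The tensor identity `F(M) ⊗ N ≅ F(M ⊗ N)`, `f ⊗ n ↦ (x ↦ ∑ f(x₁) ⊗ x₂ n)`, for a
finite-dimensional Hopf algebra with bijective antipode.
It is the composite of the linear isomorphism `Hom_k(H, M) ⊗ N = Hom_k(H, M ⊗ N)` (`H` is
finite-dimensional) with the bijection `g ↦ (x ↦ ∑ (1 ⊗ x₂) g(x₁))`, whose inverse is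
`g ↦ (x ↦ ∑ (1 ⊗ S⁻¹(x₂)) g(x₁))` (use `∑ x₂ S⁻¹(x₁) = ε(x) = ∑ S⁻¹(x₂) x₁`). -/
theorem exists_tensor_identity (hS : Function.Bijective (HopfAlgebra.antipode k (A := H)))
    (M N : ModuleCat.{u} H) :
    Nonempty ((tenR k N).obj ((FF k).obj M) ≅ (FF k).obj ((tenR k N).obj M)) := by
  refine ⟨LinearEquiv.toModuleIso
    { h15_tiE k hS M N with
      map_add' := h15_tiE_add k hS M N
      map_smul' := h15_tiE_smul k hS M N }⟩

theorem tenR_FF_injective (hS : Function.Bijective (HopfAlgebra.antipode k (A := H)))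
    (M N : ModuleCat.{u} H) : Injective ((tenR k N).obj ((FF k).obj M)) := by
  obtain ⟨e⟩ := exists_tensor_identity k hS M N
  exact Injective.of_iso e.symm inferInstance

lemma tenR_finite {H : Type u} [Ring H] [Bialgebra k H] (X N : ModuleCat.{u} H)
    (hX : Module.Finite k X) (hN : Module.Finite k N) :
    Module.Finite k ((tenR k N).obj X) := by
  have h : ∀ (c : k) (t : X ⊗[k] N), tenAct k X N (algebraMap k H c) t = c • t := by
    intro c t
    rw [AlgHom.commutes]
    rfl
  let e : (X ⊗[k] N) ≃ₗ[k] ((tenR k N).obj X : Type u) :=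
    { toFun := fun t => (t : Ten k X N)
      invFun := fun t => (t : Ten k X N)
      left_inv := fun _ => rfl
      right_inv := fun _ => rfl
      map_add' := fun _ _ => rfl
      map_smul' := fun c t => (h c t).symm }
  exact Module.Finite.equiv e

end Pool.Agent.H26.FG
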