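import Pool.Agent.H26.FG.Inter
import Pool.Agent.H26.FG.TenFF
import Pool.Agent.H26.FG.ResFF

/-!
# Module LXex: the modules `L_x ⊗ N`
-/

open CategoryTheory Abelian TensorProduct
open scoped ModuleCat

universe u

namespace Pool.Agent.H26.FG

section Gen

universe w v' u'

variable {𝒜 : Type u'} [Category.{v'} 𝒜] [Abelian 𝒜] [HasExt.{w} 𝒜]

/-- conjugation with an isomorphism -/
lemma LXex_conj {P T N : 𝒜} {m n c : ℕ} (i : T ≅ N) (v : Ext.{w} P T n) (y : Ext.{w} T T m)
    (z : Ext.{w} P P m) (h : n + m = c) (h' : m + n = c)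
    (hz : z.comp (v.comp (Ext.mk₀ i.hom) (add_zero n)) h' =
      (v.comp (Ext.mk₀ i.hom) (add_zero n)).comp
        ((Ext.mk₀ i.inv).comp (y.comp (Ext.mk₀ i.hom) (add_zero m)) (zero_add m)) h) :
    v.comp y h = z.comp v h' := by
  subst h
  have e1 : (v.comp (Ext.mk₀ i.hom) (add_zero n)).comp
        ((Ext.mk₀ i.inv).comp (y.comp (Ext.mk₀ i.hom) (add_zero m)) (zero_add m)) rfl =
      (v.comp y (rfl : n + m = n + m)).comp (Ext.mk₀ i.hom) (add_zero (n + m)) := by
    rw [Ext.comp_assoc_of_second_deg_zero, Ext.mk₀_comp_mk₀_assoc, Iso.hom_inv_id,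
      Ext.mk₀_id_comp, Ext.comp_assoc_of_third_deg_zero]
  rw [e1, ← Ext.comp_assoc_of_third_deg_zero] at hz
  have h2 : ((z.comp v h').comp (Ext.mk₀ i.hom) (add_zero (n + m))).comp (Ext.mk₀ i.inv)
      (add_zero (n + m)) = ((v.comp y (rfl : n + m = n + m)).comp (Ext.mk₀ i.hom)
      (add_zero (n + m))).comp (Ext.mk₀ i.inv) (add_zero (n + m)) := by rw [hz]
  rw [Ext.comp_assoc_of_third_deg_zero (z.comp v h'),
    Ext.comp_assoc_of_third_deg_zero (v.comp y rfl), Ext.mk₀_comp_mk₀,
    Iso.hom_inv_id, Ext.comp_mk₀_id, Ext.comp_mk₀_id] at h2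
  exact h2.symm

variable {ℬ : Type u'} [Category.{v'} ℬ] [Abelian ℬ] [HasExt.{w} ℬ]
  {𝒞 : Type u'} [Category.{v'} 𝒞] [Abelian 𝒞] [HasExt.{w} 𝒞]

lemma LXex_stepC (F : 𝒜 ⥤ ℬ) [F.Additive] [Limits.PreservesFiniteLimits F]
    [Limits.PreservesFiniteColimits F] (P : ℬ) (S : ShortComplex 𝒜) (hS : S.ShortExact) {M : 𝒜}
    {m c : ℕ} (e : Ext.{w} S.X₁ M m) (h : 1 + m = c) (hI : Injective (F.obj S.X₂))
    (he : DimShift P (e.mapExactFunctor F)) :
    DimShift P ((hS.extClass.comp e h).mapExactFunctor F) := by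
  rw [Ext.mapExactFunctor_comp, Ext.mapExactFunctor_extClass]
  refine DimShift.comp ?_ he _
  have : Injective (S.map F).X₂ := hI
  exact DimShift.extClass_of_injective _ _ _

lemma LXex_stepA (F : 𝒜 ⥤ ℬ) [F.Additive] [Limits.PreservesFiniteLimits F]
    [Limits.PreservesFiniteColimits F] (G : ℬ ⥤ 𝒞) [G.Additive] [Limits.PreservesFiniteLimits G]
    [Limits.PreservesFiniteColimits G] (P : 𝒞) (S : ShortComplex 𝒜) (hS : S.ShortExact) {M : 𝒜}
    {m c : ℕ} (e : Ext.{w} S.X₁ M m) (h : 1 + m = c) (hI : Injective (G.obj (F.obj S.X₂)))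
    (he : DimShift P ((e.mapExactFunctor F).mapExactFunctor G)) :
    DimShift P (((hS.extClass.comp e h).mapExactFunctor F).mapExactFunctor G) := by
  rw [Ext.mapExactFunctor_comp, Ext.mapExactFunctor_extClass]
  exact LXex_stepC G P (S.map F) (hS.map_of_exact F) _ h hI he

end Gen

variable (k : Type u) [Field k] {A C : Type u} [Ring A] [HopfAlgebra k A]
  [Ring C] [HopfAlgebra k C] [Module.Finite k C]

lemma LXex_dimC (hS : Function.Bijective (HopfAlgebra.antipode k (A := C)))
    (P M N : ModuleCat.{u} C) (m : ℕ) :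
    DimShift P ((eN k M m).mapExactFunctor (tenR k N)) := by
  induction m with
  | zero =>
    change DimShift P ((Ext.mk₀ (𝟙 M)).mapExactFunctor (tenR k N))
    rw [Ext.mapExactFunctor_mk₀]
    exact DimShift.mk₀ _
  | succ m ih =>
    exact LXex_stepC (tenR k N) P (coS k ((Qn k m).obj M)) (coS_shortExact k ((Qn k m).obj M))
      (eN k M m) (Nat.add_comm 1 m) (tenR_FF_injective k hS ((Qn k m).obj M) N) ih

lemma LXex_dimA (f : A →ₐ[k] C) (hS : Function.Bijective (HopfAlgebra.antipode k (A := C)))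
    {r : ℕ} (w : Fin r → C) (φ : Fin r → C →ₗ[k] A)
    (h1 : ∀ i c a, φ i (c * f a) = φ i c * a) (h2 : ∀ c, ∑ i, w i * f (φ i c) = c)
    (P : ModuleCat.{u} A) (M N : ModuleCat.{u} C) (m : ℕ) :
    DimShift P (((eN k M m).mapExactFunctor (tenR k N)).mapExactFunctor (resF f.toRingHom)) := by
  induction m with
  | zero =>
    change DimShift P (((Ext.mk₀ (𝟙 M)).mapExactFunctor (tenR k N)).mapExactFunctor
      (resF f.toRingHom))
    rw [Ext.mapExactFunctor_mk₀, Ext.mapExactFunctor_mk₀]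
    exact DimShift.mk₀ _
  | succ m ih =>
    refine LXex_stepA (tenR k N) (resF f.toRingHom) P (coS k ((Qn k m).obj M))
      (coS_shortExact k ((Qn k m).obj M)) (eN k M m) (Nat.add_comm 1 m) ?_ ih
    obtain ⟨i⟩ := exists_tensor_identity k hS ((Qn k m).obj M) N
    have hi := resF_FF_injective k f w φ h1 h2 ((tenR k N).obj ((Qn k m).obj M))
    exact Injective.of_iso ((resF f.toRingHom).mapIso i.symm) hi

/-- Write `x = u e_m` with `u : k → Ω = Q^m k` (`exists_eq_eN`), `u` is mono, `L = coker u`; the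
sequence is `0 → k ⊗ N → Ω ⊗ N → L ⊗ N → 0` and `e = e_m ⊗ N`, so `f e = x ⊗ N`. Over `C` and over
`A` the middle terms `F(Q^i k) ⊗ N ≅ F(Q^i k ⊗ N)` are injective, so `e` shifts dimensions
(induction on `m`, `DimShift.comp`). `v (x ⊗ N) = x v` by `comp_act_of_even` (conjugate with
`lamIso`), over `A` together with `act_res`. -/
theorem exists_LX (f : A →ₐc[k] C) (hS : Function.Bijective (HopfAlgebra.antipode k (A := C)))
    {r : ℕ} (w : Fin r → C) (φ : Fin r → C →ₗ[k] A)
    (h1 : ∀ i c a, φ i (c * f a) = φ i c * a) (h2 : ∀ c, ∑ i, w i * f (φ i c) = c)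
    {m : ℕ} (hm : Even m) (hm' : 0 < m) (x : Ext (triv k C) (triv k C) m) (hx : x ≠ 0)
    (N : ModuleCat.{u} C) :
    ∃ (S : ShortComplex (ModuleCat.{u} C)) (_ : S.ShortExact) (_ : S.X₁ ≅ N)
      (e : Ext S.X₂ S.X₁ m),
      DimShift (triv k C) e ∧
      DimShift (triv k A) (e.mapExactFunctor (resF (f : A →ₐ[k] C).toRingHom)) ∧
      (∀ (n c : ℕ) (h : n + m = c) (h' : m + n = c) (v : Ext (triv k C) S.X₁ n),
        v.comp ((Ext.mk₀ S.f).comp e (zero_add m)) h = x.comp v h') ∧
      (∀ (n c : ℕ) (h : n + m = c) (h' : m + n = c)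
        (v : Ext (triv k A) ((resF (f : A →ₐ[k] C).toRingHom).obj S.X₁) n),
        v.comp ((Ext.mk₀ ((resF (f : A →ₐ[k] C).toRingHom).map S.f)).comp
          (e.mapExactFunctor (resF (f : A →ₐ[k] C).toRingHom)) (zero_add m)) h =
            (res f x).comp v h') ∧
      (Module.Finite k N → Module.Finite k S.X₃) := by
  obtain ⟨u, hu⟩ := exists_eq_eN k x
  have hu0 : u ≠ 0 := by
    rintro rfl
    apply hx
    rw [← hu, Ext.mk₀_zero, Ext.zero_comp]
  have hmu : Mono u := mono_of_ne_zero k _ u hu0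
  have hS0 : (ShortComplex.mk u (Limits.cokernel.π u) (Limits.cokernel.condition u)).ShortExact :=
    { exact := ShortComplex.exact_cokernel u }
  have hfe : (Ext.mk₀ ((tenR k N).map u)).comp
      ((eN k (triv k C) m).mapExactFunctor (tenR k N)) (zero_add m) =
      x.mapExactFunctor (tenR k N) := by
    rw [← Ext.mapExactFunctor_mk₀, ← Ext.mapExactFunctor_comp, hu]
  refine ⟨(ShortComplex.mk u (Limits.cokernel.π u) (Limits.cokernel.condition u)).map (tenR k N),
    hS0.map_of_exact (tenR k N), lamIso k N, (eN k (triv k C) m).mapExactFunctor (tenR k N),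
    LXex_dimC k hS _ _ _ _, LXex_dimA k (f : A →ₐ[k] C) hS w φ h1 h2 _ _ _ _, ?_, ?_, ?_⟩
  · intro n c h h' v
    refine (congrArg (fun z => v.comp z h) hfe).trans ?_
    refine LXex_conj (lamIso k N) v _ x h h' ?_
    exact comp_act_of_even hm x (v.comp (Ext.mk₀ (lamIso k N).hom) (add_zero n)) h' h
  · intro n c h h' v
    have hfe' : (Ext.mk₀ ((resF (f : A →ₐ[k] C).toRingHom).map ((tenR k N).map u))).comp
        (((eN k (triv k C) m).mapExactFunctor (tenR k N)).mapExactFunctor
          (resF (f : A →ₐ[k] C).toRingHom)) (zero_add m) =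
        (x.mapExactFunctor (tenR k N)).mapExactFunctor (resF (f : A →ₐ[k] C).toRingHom) := by
      rw [← Ext.mapExactFunctor_mk₀, ← Ext.mapExactFunctor_comp, hfe]
    refine (congrArg (fun z => v.comp z h) hfe').trans ?_
    refine LXex_conj ((resF (f : A →ₐ[k] C).toRingHom).mapIso (lamIso k N)) v _ (res f x) h h' ?_
    have h3 := comp_act_of_even hm (res f x) (v.comp (Ext.mk₀
      ((resF (f : A →ₐ[k] C).toRingHom).mapIso (lamIso k N)).hom) (add_zero n)) h' h
    have hL : act k ((resF (f : A →ₐ[k] C).toRingHom).obj N) (res f x) =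
        (Ext.mk₀ ((resF (f : A →ₐ[k] C).toRingHom).mapIso (lamIso k N)).inv).comp
          (((x.mapExactFunctor (tenR k N)).mapExactFunctor
            (resF (f : A →ₐ[k] C).toRingHom)).comp
            (Ext.mk₀ ((resF (f : A →ₐ[k] C).toRingHom).mapIso (lamIso k N)).hom) (add_zero m))
            (zero_add m) := by
      rw [← act_res]
      unfold act
      rw [Ext.mapExactFunctor_comp, Ext.mapExactFunctor_comp, Ext.mapExactFunctor_mk₀,
        Ext.mapExactFunctor_mk₀]
      rfl
    rw [hL] at h3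
    exact h3
  · intro hN
    refine tenR_finite k (Limits.cokernel u) N ?_ hN
    have hQ : Module.Finite k ((Qn k m).obj (triv k C)) :=
      Qn_finite k _ (trv_finite k _) m
    have hsurj : Function.Surjective (Limits.cokernel.π u).hom :=
      (ModuleCat.epi_iff_surjective _).1 inferInstance
    exact Module.Finite.of_surjective ((Limits.cokernel.π u).hom.restrictScalars k) hsurj

end Pool.Agent.H26.FG
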