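import Pool.Agent.H26.FG.Br2
import Pool.Agent.H26.FG.Kap

/-!
# Module Link: bilinear forms as elements of the cobar complex of the dual
-/

open CategoryTheory Abelian TensorProduct Coalgebra
open scoped ModuleCat

universe u

namespace Pool.Agent.H26.FG

variable {k : Type u} [Field k] {A C : Type u} [Ring A] [Bialgebra k A] [Module.Finite k A]
  [Ring C] [Bialgebra k C] [Module.Finite k C]

/-- the tensor of a bilinear form given as a sum of products of linear forms -/
lemma Link_symm {κ : Type*} (s : Finset κ) (F : C →ₗ[k] C →ₗ[k] k) (f g : κ → Du k C)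
    (h : ∀ c d, F c d = ∑ i ∈ s, (f i).fn c * (g i).fn d) :
    (Du.ev2 k C).symm (TensorProduct.lift F) = ∑ i ∈ s, f i ⊗ₜ[k] g i := by
  rw [LinearEquiv.symm_apply_eq, map_sum]
  refine TensorProduct.ext' fun c d => ?_
  rw [TensorProduct.lift.tmul, h, LinearMap.sum_apply]
  exact Finset.sum_congr rfl fun i _ => (Du.ev2_tmul _ _ _ _).symm

lemma Link_elem {κ : Type*} (s : Finset κ) (F : C →ₗ[k] C →ₗ[k] k) (f g : κ → Du k C)
    (h : ∀ c d, F c d = ∑ i ∈ s, (f i).fn c * (g i).fn d) :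
    elem₂ k F = ∑ i ∈ s, TensorAlgebra.ι k (f i) * TensorAlgebra.ι k (g i) := by
  unfold elem₂
  rw [Link_symm s F f g h, map_sum, map_sum]
  refine Finset.sum_congr rfl fun i _ => ?_
  rw [TensorProduct.map_tmul, LinearMap.mul'_apply]

/-- `elem₂ F` for `F = f ⊗ g`. -/
lemma elem₂_tmul (f g : Du k C) :
    elem₂ k (LinearMap.mk₂ k (fun c d : C => f.fn c * g.fn d) (by intros; simp [add_mul])
      (by intros; simp [mul_assoc]) (by intros; simp [mul_add]) (by intros; simp [mul_left_comm])) =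
      TensorAlgebra.ι k f * TensorAlgebra.ι k g := by
  rw [Link_elem (Finset.univ : Finset (Fin 1)) _ (fun _ => f) (fun _ => g)]
  · simp
  · intro c d
    simp [LinearMap.mk₂_apply]

lemma elem₂_add (F G : C →ₗ[k] C →ₗ[k] k) : elem₂ k (F + G) = elem₂ k F + elem₂ k G := by
  unfold elem₂
  have h : TensorProduct.lift (F + G) = TensorProduct.lift F + TensorProduct.lift G := by
    refine TensorProduct.ext' fun c d => ?_
    simp
  rw [h, map_add, map_add, map_add]

/-- Every bilinear form is a finite sum of products of linear forms. -/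
lemma exists_sum_of_bilin (F : C →ₗ[k] C →ₗ[k] k) :
    ∃ (n : ℕ) (f g : Fin n → Du k C), (∀ c d, F c d = ∑ i, (f i).fn c * (g i).fn d) ∧
      elem₂ k F = ∑ i, TensorAlgebra.ι k (f i) * TensorAlgebra.ι k (g i) := by
  obtain ⟨S, hS⟩ := TensorProduct.exists_finset ((Du.ev2 k C).symm (TensorProduct.lift F))
  have h1 : ∀ c d, F c d = ∑ i ∈ S, (i.1).fn c * (i.2).fn d := by
    intro c d
    have h2 : TensorProduct.lift F = Du.ev2 k C (∑ i ∈ S, i.1 ⊗ₜ[k] i.2) := by
      rw [← hS, LinearEquiv.apply_symm_apply]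
    have h3 := LinearMap.congr_fun h2 (c ⊗ₜ d)
    rw [TensorProduct.lift.tmul, map_sum, LinearMap.sum_apply] at h3
    rw [h3]
    exact Finset.sum_congr rfl fun i _ => Du.ev2_tmul _ _ _ _
  let e := S.equivFin
  have h2 : ∀ c d, F c d = ∑ i : Fin S.card, ((e.symm i).1.1).fn c * ((e.symm i).1.2).fn d := by
    intro c d
    rw [h1 c d, ← Finset.sum_coe_sort S (fun i => (i.1).fn c * (i.2).fn d)]
    exact (Equiv.sum_comp e.symm (fun i : S => (i.1.1).fn c * (i.1.2).fn d)).symm
  exact ⟨S.card, fun i => (e.symm i).1.1, fun i => (e.symm i).1.2, h2,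
    Link_elem Finset.univ F _ _ h2⟩

lemma elem₂_mem (F : C →ₗ[k] C →ₗ[k] k) : elem₂ k F ∈ tg (⊤ : Submodule k (Du k C)) 2 := by
  obtain ⟨n, f, g, -, h⟩ := exists_sum_of_bilin F
  rw [h]
  exact Submodule.sum_mem _ fun i _ => tg_mul (m := 1) (n := 1) rfl (ι_mem_tg trivial)
    (ι_mem_tg trivial)

lemma elem₂_mem_aug (F : C →ₗ[k] C →ₗ[k] k) (h1 : ∀ c, F 1 c = 0) (h2 : ∀ c, F c 1 = 0) :
    elem₂ k F ∈ tg (augK k (Du k C)) 2 := by
  obtain ⟨n, f, g, hF, -⟩ := exists_sum_of_bilin F
  have h3 : ∀ c d, F c d = ∑ i, (f i - (f i).fn 1 • (1 : Du k C)).fn c *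
      (g i - (g i).fn 1 • (1 : Du k C)).fn d := by
    intro c d
    have h4 : F c d = F (c - counit (R := k) c • 1) (d - counit (R := k) d • 1) := by
      simp [h1, h2]
    rw [h4, hF]
    refine Finset.sum_congr rfl fun i _ => ?_
    simp only [map_sub, map_smul, smul_eq_mul, Du.fn_sub, Du.fn_smul, LinearMap.sub_apply,
      LinearMap.smul_apply, Du.one_fn]
    ring
  rw [Link_elem Finset.univ F _ _ h3]
  refine Submodule.sum_mem _ fun i _ => tg_mul (m := 1) (n := 1) rfl (ι_mem_tg ?_) (ι_mem_tg ?_)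
  · rw [Du.mem_augK]
    simp
  · rw [Du.mem_augK]
    simp

/-- Restriction along a bialgebra homomorphism. -/
lemma tmap_elem₂ (g : A →ₐc[k] C) (F : C →ₗ[k] C →ₗ[k] k) :
    tmap (Du.map g : Du k C →ₐ[k] Du k A).toLinearMap (elem₂ k F) =
      elem₂ k (F.compl₁₂ (g : A →ₐ[k] C).toLinearMap (g : A →ₐ[k] C).toLinearMap) := by
  obtain ⟨n, f, h, hF, hE⟩ := exists_sum_of_bilin F
  rw [hE, map_sum, Link_elem Finset.univ _ (fun i => Du.map g (f i)) (fun i => Du.map g (h i))]
  · refine Finset.sum_congr rfl fun i _ => ?_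
    rw [map_mul, tmap_ι, tmap_ι]
    rfl
  · intro c d
    rw [LinearMap.compl₁₂_apply]
    exact hF _ _

/-- an element of degree three is determined by its trilinear form -/
lemma Link_tri {X : TensorAlgebra k (Du k C)} (hX : X ∈ tg (⊤ : Submodule k (Du k C)) 3)
    (h : ∀ r s t : C, con k C r (con k C s (con k C t X)) = 0) : X = 0 := by
  refine eq_zero_of_con (n := 2) hX fun t => ?_
  have h1 : con k C t X ∈ tg (⊤ : Submodule k (Du k C)) 2 := con_tg t hX
  refine eq_zero_of_con (n := 1) h1 fun s => ?_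
  have h2 : con k C s (con k C t X) ∈ tg (⊤ : Submodule k (Du k C)) 1 := con_tg s h1
  exact eq_zero_of_con (n := 0) h2 fun r => h r s t

omit [Module.Finite k C] in
lemma Link_con3 (r s t : C) (a b c : Du k C) :
    con k C r (con k C s (con k C t (TensorAlgebra.ι k a * TensorAlgebra.ι k b *
      TensorAlgebra.ι k c))) = algebraMap k _ (a.fn r * b.fn s * c.fn t) := by
  rw [con_mul_ι, map_smul, con_mul_ι, map_smul, map_smul, con_ι, Algebra.smul_def,
    Algebra.smul_def, ← map_mul, ← map_mul]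
  congr 1
  ring

omit [Module.Finite k C] in
lemma Link_mem3 (a b c : Du k C) : TensorAlgebra.ι k a * TensorAlgebra.ι k b *
      TensorAlgebra.ι k c ∈ tg (⊤ : Submodule k (Du k C)) 3 :=
  tg_mul (m := 2) (n := 1) rfl (tg_mul (m := 1) (n := 1) rfl (ι_mem_tg trivial)
    (ι_mem_tg trivial)) (ι_mem_tg trivial)

/-- the coboundary of a product of two generators -/
lemma Link_cd (f g : Du k C) : cd k _ (TensorAlgebra.ι k f * TensorAlgebra.ι k g) ∈
      tg (⊤ : Submodule k (Du k C)) 3 ∧ ∀ r s t : C,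
      con k C r (con k C s (con k C t (cd k _ (TensorAlgebra.ι k f * TensorAlgebra.ι k g)))) =
        algebraMap k _ (counit (R := k) r * (f.fn s * g.fn t) - f.fn (r * s) * g.fn t +
          f.fn r * g.fn (s * t) - f.fn r * g.fn s * counit (R := k) t) := by
  have rf := Coalgebra.Repr.arbitrary k f
  have rg := Coalgebra.Repr.arbitrary k g
  have h1 : cd k _ (TensorAlgebra.ι k f * TensorAlgebra.ι k g) =
      TensorAlgebra.ι k 1 * TensorAlgebra.ι k f * TensorAlgebra.ι k g -
      ∑ i ∈ rf.index, TensorAlgebra.ι k (rf.left i) * TensorAlgebra.ι k (rf.right i) *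
        TensorAlgebra.ι k g +
      ∑ i ∈ rg.index, TensorAlgebra.ι k f * TensorAlgebra.ι k (rg.left i) *
        TensorAlgebra.ι k (rg.right i) -
      TensorAlgebra.ι k f * TensorAlgebra.ι k g * TensorAlgebra.ι k 1 := by
    rw [cd_mul, sg_ι, cd_ι k f rf, cd_ι k g rg]
    simp only [add_mul, sub_mul, mul_add, mul_sub, Finset.sum_mul, Finset.mul_sum, neg_mul,
      ← mul_assoc]
    rw [Finset.sum_neg_distrib]
    abel
  rw [h1]
  constructor
  · refine Submodule.sub_mem _ (Submodule.add_mem _ (Submodule.sub_mem _ (Link_mem3 _ _ _) ?_) ?_)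
      (Link_mem3 _ _ _)
    · exact Submodule.sum_mem _ fun i _ => Link_mem3 _ _ _
    · exact Submodule.sum_mem _ fun i _ => Link_mem3 _ _ _
  · intro r s t
    have key : counit (R := k) r * (f.fn s * g.fn t) - f.fn (r * s) * g.fn t +
        f.fn r * g.fn (s * t) - f.fn r * g.fn s * counit (R := k) t =
        (1 : Du k C).fn r * f.fn s * g.fn t -
          ∑ i ∈ rf.index, (rf.left i).fn r * (rf.right i).fn s * g.fn t +
          ∑ i ∈ rg.index, f.fn r * (rg.left i).fn s * (rg.right i).fn t -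
          f.fn r * g.fn s * (1 : Du k C).fn t := by
      rw [← Finset.sum_mul, ← Du.comul_fn f rf, Du.comul_fn g rg s t, Finset.mul_sum, Du.one_fn,
        Du.one_fn]
      simp only [mul_assoc]
    rw [key]
    simp only [map_sub, map_add, map_sum, Link_con3]

/-- The coboundary of `elem₂ F`. If
`ε(r) F(s,t) - F(r s,t) + F(r,s t) - F(r,s) ε(t) = ∑ u l (r) v l (s) w l (t)` then
`d (elem₂ F) = ∑ u l ⊗ v l ⊗ w l`. (An element of `T³` is determined by its values
`(r,s,t) ↦ te (con r (con s (con t ·)))`.) -/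
theorem cd_elem₂ (F : C →ₗ[k] C →ₗ[k] k) {n : ℕ} (u v w : Fin n → Du k C)
    (h : ∀ r s t : C, counit (R := k) r * F s t - F (r * s) t + F r (s * t) -
      F r s * counit (R := k) t = ∑ l, (u l).fn r * (v l).fn s * (w l).fn t) :
    cd k _ (elem₂ k F) = ∑ l, TensorAlgebra.ι k (u l) * TensorAlgebra.ι k (v l) *
      TensorAlgebra.ι k (w l) := by
  obtain ⟨m, f, g, hF, hE⟩ := exists_sum_of_bilin F
  rw [← sub_eq_zero]
  apply Link_tri
  · refine Submodule.sub_mem _ ?_ (Submodule.sum_mem _ fun i _ => Link_mem3 _ _ _)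
    rw [hE, map_sum]
    exact Submodule.sum_mem _ fun i _ => (Link_cd _ _).1
  · intro r s t
    have key : ∑ i, (counit (R := k) r * ((f i).fn s * (g i).fn t) -
          (f i).fn (r * s) * (g i).fn t + (f i).fn r * (g i).fn (s * t) -
          (f i).fn r * (g i).fn s * counit (R := k) t) -
        ∑ l, (u l).fn r * (v l).fn s * (w l).fn t = 0 := by
      rw [← h r s t, hF, hF, hF, hF, Finset.mul_sum, Finset.sum_mul]
      simp only [Finset.sum_sub_distrib, Finset.sum_add_distrib]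
      rw [sub_self]
    have key2 := congrArg (algebraMap k (TensorAlgebra k (Du k C))) key
    rw [map_sub, map_sum, map_sum, map_zero] at key2
    rw [← key2, hE, map_sum, map_sub, map_sub, map_sub]
    simp only [map_sum]
    congr 1
    · exact Finset.sum_congr rfl fun i _ => (Link_cd _ _).2 r s t
    · exact Finset.sum_congr rfl fun i _ => Link_con3 _ _ _ _ _ _

/-- Cocycles give cocycles. -/
theorem elem₂_mem_Zc (x : Cocycle₂ (Bialgebra.counitAlgHom k C)) (h1 : x.fn 1 1 = 0) :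
    elem₂ k x.fn ∈ Zc k C 2 := by
  refine ⟨elem₂_mem_aug x.fn (x.one_left h1) (x.one_right h1), ?_⟩
  rw [SetLike.mem_coe, LinearMap.mem_ker, cd_elem₂ x.fn (n := 0) Fin.elim0 Fin.elim0 Fin.elim0]
  · simp
  · intro r s t
    rw [Finset.univ_eq_empty, Finset.sum_empty]
    exact x.cocycle r s t

lemma Link_te (F : C →ₗ[k] C →ₗ[k] k) (s s' : C) :
    te k _ (con k C s' (con k C s (elem₂ k F))) = F s' s := by
  obtain ⟨m, f, g, hF, hE⟩ := exists_sum_of_bilin F
  rw [hE, hF]
  simp only [map_sum, con_mul_ι, map_smul, con_ι, AlgHom.commutes, smul_eq_mul]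
  exact Finset.sum_congr rfl fun i _ => mul_comm _ _

lemma Link_kap (F : C →ₗ[k] C →ₗ[k] k) :
    qn k C 2 (elem₂ k F) = kapEl (Bialgebra.counitAlgHom k C) F := by
  rw [qn_succ]
  unfold kapEl
  refine congrArg (qmk k ((Qn k 1).obj (triv k C))) (Coi.ext fun s => ?_)
  change qn k C 1 (con k C s (elem₂ k F)) = _
  rw [qn_succ]
  refine congrArg (qmk k (triv k C)) (Coi.ext fun s' => ?_)
  change qn k C 0 (con k C s' (con k C s (elem₂ k F))) = _
  rw [qn_zero, Link_te]
  apply tval_injective k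
  rw [tval_smul', tval_tone, mul_one]
  rfl

/-- The class of `elem₂ x`: `con s' (con s (elem₂ x)) = x(s', s)`, so
`q₂ (elem₂ x) = kapEl x`; `cls₂_eq`. -/
theorem cl_elem₂ (x : Cocycle₂ (Bialgebra.counitAlgHom k C)) (h1 : x.fn 1 1 = 0) :
    cl k 2 (elem₂ k x.fn) = cls₂ x := by
  obtain ⟨u, hu, hc⟩ := cls₂_eq x
  rw [cl_eq (elem₂_mem_Zc x h1), hc]
  have h2 : invHom k (qn k C 2 (elem₂ k x.fn)) (qn_inv (elem₂_mem_Zc x h1)) = u := by
    ext y
    have e1 : y = tval k y • tone k C := triv_eq k y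
    have e2 : u.hom y = tval k y • u.hom (tone k C) := by
      conv_lhs => rw [e1]
      rw [← algebraMap_smul C (tval k y) (tone k C), map_smul, algebraMap_smul]
    have e3 : u.hom (tone k C) = kapEl (Bialgebra.counitAlgHom k C) x.fn := hu
    rw [e2, e3, ← Link_kap]
    rfl
  rw [h2]

end Pool.Agent.H26.FG
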