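import Pool.Agent.H26.FG.CHa
import Pool.Agent.H26.FG.IfH2

/-!
# Module MFa: final steps of theorem M
-/

open CategoryTheory Abelian TensorProduct Coalgebra HopfAlgebra
open scoped ModuleCat

universe u

namespace Pool.Agent.H26.FG

variable {k : Type u} [Field k] {A C B : Type u} [Ring A] [HopfAlgebra k A] [Module.Finite k A]
  [Ring C] [HopfAlgebra k C] [Module.Finite k C] [Ring B] [HopfAlgebra k B] [Module.Finite k B]

/-- Invariance only depends on the normalised cocycle. -/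
lemma InvClass.of_eq {ι : A →ₐc[k] C} {π : C →ₐc[k] B} (hex : HopfExact ι π)
    {x y : Cocycle₂ (Bialgebra.counitAlgHom k A)} (c : k)
    (h : ∀ a b, x.fn a b = y.fn a b + c * (counit (R := k) a * counit (R := k) b))
    (hx : InvClass ι x) : InvClass ι y := by
  intro c₀
  obtain ⟨w, hw⟩ := hx c₀
  refine ⟨w, fun a b => ?_⟩
  rw [← hw a b]
  have hsum : ∑ i ∈ (Coalgebra.Repr.arbitrary k c₀).index,
      counit (R := k) ((Coalgebra.Repr.arbitrary k c₀).left i) *
        counit (R := k) ((Coalgebra.Repr.arbitrary k c₀).right i) = counit (R := k) c₀ := by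
    conv_rhs => rw [← Coalgebra.sum_counit_smul (R := k) (Coalgebra.Repr.arbitrary k c₀), map_sum]
    simp
  have h1 : ∑ i ∈ (Coalgebra.Repr.arbitrary k c₀).index,
      x.fn (adA ι ((Coalgebra.Repr.arbitrary k c₀).left i) a)
        (adA ι ((Coalgebra.Repr.arbitrary k c₀).right i) b) =
      ∑ i ∈ (Coalgebra.Repr.arbitrary k c₀).index,
      y.fn (adA ι ((Coalgebra.Repr.arbitrary k c₀).left i) a)
        (adA ι ((Coalgebra.Repr.arbitrary k c₀).right i) b) +
      c * (counit (R := k) a * counit (R := k) b) * counit (R := k) c₀ := by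
    rw [← hsum, Finset.mul_sum, ← Finset.sum_add_distrib]
    refine Finset.sum_congr rfl fun i _ => ?_
    rw [h, hex.counit_adA, hex.counit_adA]
    ring
  rw [h1, h a b]
  ring

/-- From the formulation with graded subspaces to `GF`: take `V n = ⊤` for `n ≤ max deg G` and
`V n = Gen S ⊤ n` above. -/
theorem GF_of_generated {J : Type} (s : J → Ext (triv k A) (triv k A) 2)
    (h3 : ∃ G : Set (Σ n : ℕ, Ext (triv k A) (triv k A) n), G.Finite ∧
      ∀ V : (n : ℕ) → Submodule k (Ext (triv k A) (triv k A) n), (∀ g ∈ G, g.2 ∈ V g.1) →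
        (∀ (j : J) (b c : ℕ) (h : 2 + b = c) (y : Ext (triv k A) (triv k A) b),
          y ∈ V b → (s j).comp y h ∈ V c) →
        ∀ n, V n = ⊤) :
    (EGP k (triv k A) (triv k A)).GF (Set.range fun j => (⟨2, s j⟩ : Cls (triv k A))) := by
  obtain ⟨G, hG, hgen⟩ := h3
  obtain ⟨n₀, hn₀⟩ := (hG.image Sigma.fst).bddAbove
  refine ⟨n₀, fun n hn => ?_⟩
  have h1 := hgen (fun n => if n ≤ n₀ then ⊤ else
    (EGP k (triv k A) (triv k A)).Gen (Set.range fun j => (⟨2, s j⟩ : Cls (triv k A)))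
      (fun _ => ⊤) n) (by
      intro g hg
      have h2 : g.1 ≤ n₀ := hn₀ ⟨g, hg, rfl⟩
      simp only [if_pos h2]
      exact Submodule.mem_top) (by
      intro j b c h y _
      by_cases hc : c ≤ n₀
      · simp only [if_pos hc]
        exact Submodule.mem_top
      · simp only [if_neg hc]
        exact comp_mem_Gen k (Set.range fun j => (⟨2, s j⟩ : Cls (triv k A))) (s j) ⟨j, rfl⟩ y h) n
  simp only [if_neg (not_le.2 hn)] at h1
  exact h1.ge

/-- Some power of `z ∈ Ext_I(k, k)`, restricted along `r : A → I`, is in the ideal generated by the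
restrictions of `T`, if `Ext_I(k, k)` is noetherian over the restrictions of `SZ`. -/
theorem exists_pw_mem {D I : Type u} [Ring D] [HopfAlgebra k D] [Ring I] [HopfAlgebra k I]
    (ι : A →ₐc[k] C) (q : C →ₐc[k] D) (r : A →ₐc[k] I) (j : I →ₐc[k] D)
    (hrj : ∀ a, j (r a) = q (ι a)) (SZ : Set (Cls (triv k D)))
    (hZ : (EGP k (triv k I) (triv k I)).GN (resCls j '' SZ)) (T : Set (Cls (triv k C)))
    (hT : resCls q '' SZ ⊆ T) {m : ℕ} (hm : 0 < m) (z : Ext (triv k I) (triv k I) m) :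
    ∃ N : ℕ, pw (res r z) N rfl ∈
      (EGP k (triv k A) (triv k A)).Gen (resCls ι '' T) (fun _ => ⊤) (N * m) := by
  obtain ⟨n₀, hn₀⟩ := hZ.gf
  refine ⟨n₀ + 1, ?_⟩
  have hcomp : (j : I →ₐ[k] D).comp (r : A →ₐ[k] I) = (q : C →ₐ[k] D).comp (ι : A →ₐ[k] C) :=
    AlgHom.ext fun a => hrj a
  have hrr : ∀ {n : ℕ} (x : Ext (triv k D) (triv k D) n), res r (res j x) = res ι (res q x) := by
    intro n x
    unfold res
    rw [resK_resK, resK_resK]
    congr 1
  have hlt : n₀ < (n₀ + 1) * m := by nlinarith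
  have h1 : pw z (n₀ + 1) rfl ∈ (EGP k (triv k I) (triv k I)).Gen (resCls j '' SZ)
      (fun _ => ⊤) ((n₀ + 1) * m) := hn₀ _ hlt Submodule.mem_top
  rw [← res_pw r z (n₀ + 1) _ rfl]
  have key : ∀ v ∈ (EGP k (triv k I) (triv k I)).Gen (resCls j '' SZ)
      (fun _ => ⊤) ((n₀ + 1) * m), res r (v : Ext (triv k I) (triv k I) ((n₀ + 1) * m)) ∈
      (EGP k (triv k A) (triv k A)).Gen (resCls ι '' T) (fun _ => ⊤) ((n₀ + 1) * m) := by
    intro v hv
    induction hv using Submodule.span_induction with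
    | mem v hv =>
      obtain ⟨_, ⟨s, hs, rfl⟩, a, ha, w, -, rfl⟩ := hv
      have h2 : res r ((res j s.2).comp w ha) = (res ι (res q s.2)).comp (res r w) ha := by
        rw [← hrr]
        exact resK_comp _ _ ha _ _
      have h3 : (⟨s.1, res ι (res q s.2)⟩ : Cls (triv k A)) ∈ resCls ι '' T :=
        ⟨resCls q s, hT ⟨s, hs, rfl⟩, rfl⟩
      have h4 := comp_mem_Gen k (resCls ι '' T) (res ι (res q s.2)) h3 (res r w) ha
      rw [← h2] at h4
      exact h4
    | zero =>
      have h2 : res r (0 : Ext (triv k I) (triv k I) ((n₀ + 1) * m)) = 0 := resK_zero _ _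
      exact h2 ▸ Submodule.zero_mem _
    | add v w _ _ hv hw =>
      have h2 : res r ((v : Ext (triv k I) (triv k I) ((n₀ + 1) * m)) + w) =
        res r (v : Ext (triv k I) (triv k I) ((n₀ + 1) * m)) +
          res r (w : Ext (triv k I) (triv k I) ((n₀ + 1) * m)) := resK_add _ _ _ _
      exact h2 ▸ Submodule.add_mem _ hv hw
    | smul c v _ hv =>
      have h2 : res r (c • (v : Ext (triv k I) (triv k I) ((n₀ + 1) * m))) =
        c • res r (v : Ext (triv k I) (triv k I) ((n₀ + 1) * m)) := resK_smul _ _ _ _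
      exact h2 ▸ Submodule.smul_mem _ c hv
  exact key _ h1

/-- The nilpotency condition for `cls₂ x₀` (`nil_mod`, `exists_pw_mem`). -/
theorem nil_of_trans (p : ℕ) [Fact p.Prime] {D I : Type u} [Ring D] [HopfAlgebra k D] [Ring I]
    [HopfAlgebra k I] (ι : A →ₐc[k] C) (q : C →ₐc[k] D) (r : A →ₐc[k] I) (j : I →ₐc[k] D)
    (hrj : ∀ a, j (r a) = q (ι a)) (SZ : Set (Cls (triv k D)))
    (hZ : (EGP k (triv k I) (triv k I)).GN (resCls j '' SZ)) (T : Set (Cls (triv k C)))
    (hT' : EvenPos T) (hT : resCls q '' SZ ⊆ T)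
    (s : Ext (triv k A) (triv k A) 2) {M : ℕ} (X : Ext (triv k C) (triv k C) (p ^ M * 2))
    (hX : (⟨p ^ M * 2, X⟩ : Cls (triv k C)) ∈ T)
    (c : ∀ i : Fin M, Ext (triv k D) (triv k D) (p ^ M * 2 - p ^ (i : ℕ) * 2))
    (hc : ∀ i : Fin M, (⟨_, res q (c i)⟩ : Cls (triv k C)) ∈ T)
    (z : Ext (triv k I) (triv k I) (p ^ M * 2))
    (h : pw s (p ^ M) rfl = res ι X +
        ∑ i : Fin M, (res ι (res q (c i))).comp (pw s (p ^ (i : ℕ)) rfl)
          (Nat.sub_add_cancel (Nat.mul_le_mul_right 2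
            (Nat.pow_le_pow_right (Nat.pos_of_ne_zero (Fact.out : p.Prime).ne_zero)
              i.2.le))) + res r z) :
    ∃ N : ℕ, pw s N rfl ∈
      (EGP k (triv k A) (triv k A)).Gen (resCls ι '' T) (fun _ => ⊤) (N * 2) := by
  have hp1 : 0 < p ^ M := Nat.pow_pos (Fact.out : p.Prime).pos
  obtain ⟨N, hN⟩ := exists_pw_mem ι q r j hrj SZ hZ T hT (m := p ^ M * 2) (by omega) z
  refine ⟨p ^ M * N, ?_⟩
  have hTe : EvenPos (resCls ι '' T) := by
    rintro _ ⟨t, ht, rfl⟩
    exact hT' t ht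
  refine nil_mod (resCls ι '' T) hTe (m := 2) (by norm_num) s (Q := p ^ M) rfl
    (res ι X + ∑ i : Fin M, (res ι (res q (c i))).comp (pw s (p ^ (i : ℕ)) rfl)
          (Nat.sub_add_cancel (Nat.mul_le_mul_right 2
            (Nat.pow_le_pow_right (Nat.pos_of_ne_zero (Fact.out : p.Prime).ne_zero)
              i.2.le)))) (res r z) h ?_ rfl hN rfl
  refine Submodule.add_mem _ ?_ (Submodule.sum_mem _ fun i _ => ?_)
  · have h1 := comp_mem_Gen k (resCls ι '' T) (res ι X) ⟨_, hX, rfl⟩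
      (Ext.mk₀ (𝟙 (triv k A))) (add_zero _)
    rw [Ext.comp_mk₀_id] at h1
    exact h1
  · exact comp_mem_Gen k (resCls ι '' T) (res ι (res q (c i))) ⟨_, hc i, rfl⟩ _ _

end Pool.Agent.H26.FG
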