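import Pool.Agent.H26.FG.MFa
import Pool.Agent.H26.FG.Kap

/-!
# Module MFb: theorem M
-/

open CategoryTheory Abelian TensorProduct Coalgebra HopfAlgebra
open scoped ModuleCat

universe u

namespace Pool.Agent.H26.FG

variable {k : Type u} [Field k] {A C B : Type u} [Ring A] [HopfAlgebra k A] [Module.Finite k A]
  [Ring C] [HopfAlgebra k C] [Module.Finite k C] [Ring B] [HopfAlgebra k B] [Module.Finite k B]

/-- Factorisation of a homomorphism through an injective one. -/
theorem h81_lift {A' I D : Type u} [Ring A'] [HopfAlgebra k A'] [Ring I] [HopfAlgebra k I]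
    [Ring D] [HopfAlgebra k D] (g : A' →ₐc[k] D) (j : I →ₐc[k] D) (hj : Function.Injective j)
    (h : ∀ a, ∃ i, j i = g a) : ∃ r : A' →ₐc[k] I, ∀ a, j (r a) = g a := by
  choose r hr using h
  let R : A' →ₐ[k] I :=
    { toFun := r
      map_one' := hj (by rw [hr, map_one, map_one])
      map_mul' := fun a b => hj (by rw [hr, map_mul, map_mul, hr, hr])
      map_zero' := hj (by rw [hr, map_zero, map_zero])
      map_add' := fun a b => hj (by rw [hr, map_add, map_add, hr, hr])
      commutes' := fun c => hj (by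
        rw [hr]
        have h1 : g (algebraMap k A' c) = algebraMap k D c := (AlgHomClass.toAlgHom g).commutes c
        have h2 : j (algebraMap k I c) = algebraMap k D c := (AlgHomClass.toAlgHom j).commutes c
        rw [h1, h2]) }
  have hR : ∀ a, j (R a) = g a := hr
  refine ⟨BialgHom.ofAlgHom R ?_ ?_, hR⟩
  · ext a
    change counit (R := k) (R a) = counit (R := k) a
    rw [← h85_counit j (R a), hR, h85_counit]
  · ext a
    change TensorProduct.map R.toLinearMap R.toLinearMap (comul (R := k) a) =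
      comul (R := k) (R a)
    apply TensorProduct.map_injective_of_flat_flat (AlgHomClass.toAlgHom j).toLinearMap
      (AlgHomClass.toAlgHom j).toLinearMap hj hj
    rw [← h85_comul j (R a), hR, h85_comul, ← LinearMap.comp_apply, ← TensorProduct.map_comp]
    have h1 : (AlgHomClass.toAlgHom j).toLinearMap ∘ₗ R.toLinearMap =
        (AlgHomClass.toAlgHom g).toLinearMap := LinearMap.ext fun a => hR a
    rw [h1]

/-- (M). Replace the `x j` by normalised cocycles (`exists_normalised`, `InvClass.of_eq`). Take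
`D`, `I`, `q`, `j`, `π'` from `exists_intermediate` and `r : A → I` with `j (r a) = q (ι a)`
(`j` is injective); `SZ` from `CH1_classes`, FGC of `D` from `CH1`, `SD` from `FGC_GN`;
`trans_gen` for every `x j`; `SC` = all `X j`, all `res q (c j i)` and `resCls q '' SZ`.
`GF_of_generated`, `nil_of_trans` and `word_replicate`, `Gen_comp`, `GF_of_nil` give `GF` over
`resCls ι '' SC` for `Ext_A(k, k)`; `GN_of_GF_triv` and `FGC_of_classes`. -/
theorem M_main (p : ℕ) [Fact p.Prime] [CharP k p]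
    (ι : A →ₐc[k] C) (π : C →ₐc[k] B) (hex : HopfExact ι π)
    (hA : FGC k A) (hB : FGC k B) (h1 : TrivH1 ι)
    {J : Type} [Finite J] (x : J → Cocycle₂ (Bialgebra.counitAlgHom k A))
    (h2 : ∀ j, InvClass ι (x j))
    (h3 : ∃ G : Set (Σ n : ℕ, Ext (triv k A) (triv k A) n), G.Finite ∧
      ∀ V : (n : ℕ) → Submodule k (Ext (triv k A) (triv k A) n), (∀ g ∈ G, g.2 ∈ V g.1) →
        (∀ (j : J) (b c : ℕ) (h : 2 + b = c) (y : Ext (triv k A) (triv k A) b),
          y ∈ V b → (cls₂ (x j)).comp y h ∈ V c) →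
        ∀ n, V n = ⊤) : FGC k C := by
  -- normalised cocycles
  choose y hy1 hyx hycls using fun j => exists_normalised (x j)
  have hyinv : ∀ j, InvClass ι (y j) := fun j =>
    InvClass.of_eq hex ((x j).fn 1 1) (hyx j) (h2 j)
  have hGFs : (EGP k (triv k A) (triv k A)).GF
      (Set.range fun j => (⟨2, cls₂ (y j)⟩ : Cls (triv k A))) := by
    apply GF_of_generated (fun j => cls₂ (y j))
    simp only [hycls]
    exact h3
  obtain ⟨D, _, _, _, I, _, _, _, q, jj, π', hq, hex', hπ', hfac, hfac', hcent, hht, hform⟩ :=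
    exists_intermediate p hex h1
  obtain ⟨r, hr⟩ := h81_lift (q.comp ι) jj hex'.inj (fun a => hfac a)
  have hrsurj : Function.Surjective r := by
    intro i
    obtain ⟨a, ha⟩ := hfac' i
    refine ⟨a, hex'.inj ?_⟩
    rw [hr, ha]
    rfl
  obtain ⟨SZ, hSZf, hSZe, hSZ⟩ := CH1_classes p hex' hcent hht hB
  have hD : FGC k D := CH1 p hex' hcent hht hB
  obtain ⟨SD, -, hSDe, hSD⟩ := FGC_GN k D hD
  have hGN : (EGP k (triv k D) (triv k D)).GN SD := hSD _ (trv_finite k _)
  have htr : ∀ j, ∃ (M : ℕ) (X : Ext (triv k C) (triv k C) (p ^ M * 2))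
      (c : ∀ i : Fin M, Ext (triv k D) (triv k D) (p ^ M * 2 - p ^ (i : ℕ) * 2))
      (z : Ext (triv k I) (triv k I) (p ^ M * 2)),
      pw (cls₂ (y j)) (p ^ M) rfl = res ι X +
        ∑ i : Fin M, (res ι (res q (c i))).comp (pw (cls₂ (y j)) (p ^ (i : ℕ)) rfl)
          (Nat.sub_add_cancel (Nat.mul_le_mul_right 2
            (Nat.pow_le_pow_right (Nat.pos_of_ne_zero (Fact.out : p.Prime).ne_zero)
              i.2.le))) + res r z := by
    intro j
    obtain ⟨F, n, u, v, w, hF, hd⟩ := hform (y j) (hy1 j) (hyinv j)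
    exact trans_gen p ι q hq r jj hrsurj (fun a => hr a) SD hSDe hGN (y j) (hy1 j) F hF u v w hd
  choose M X c z hXeq using htr
  set SC : Set (Cls (triv k C)) :=
    (Set.range fun j => (⟨p ^ M j * 2, X j⟩ : Cls (triv k C))) ∪
      ((⋃ j, Set.range fun i : Fin (M j) =>
        (⟨p ^ M j * 2 - p ^ (i : ℕ) * 2, res q (c j i)⟩ : Cls (triv k C))) ∪
        resCls q '' SZ) with hSCdef
  have hp1 : 1 < p := (Fact.out : p.Prime).one_lt
  have hSCf : SC.Finite := by
    refine (Set.finite_range _).union (Set.Finite.union ?_ (hSZf.image _))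
    exact Set.finite_iUnion fun j => Set.finite_range _
  have hSCe : EvenPos SC := by
    rintro s (⟨j, rfl⟩ | (hs | ⟨s', hs', rfl⟩))
    · refine ⟨⟨p ^ M j, by ring⟩, ?_⟩
      have : 0 < p ^ M j := Nat.pos_of_ne_zero (pow_ne_zero _ (by omega))
      change 0 < p ^ M j * 2
      omega
    · obtain ⟨j, i, rfl⟩ := Set.mem_iUnion.1 hs
      have hlt : p ^ (i : ℕ) < p ^ M j := Nat.pow_lt_pow_right hp1 i.2
      change Even (p ^ M j * 2 - p ^ (i : ℕ) * 2) ∧ 0 < p ^ M j * 2 - p ^ (i : ℕ) * 2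
      refine ⟨⟨p ^ M j - p ^ (i : ℕ), ?_⟩, ?_⟩
      · omega
      · omega
    · exact hSZe s' hs'
  have hSA : EvenPos (Set.range fun j => (⟨2, cls₂ (y j)⟩ : Cls (triv k A))) := by
    rintro s ⟨j, rfl⟩
    exact ⟨⟨1, rfl⟩, two_pos⟩
  have hTA : EvenPos (resCls ι '' SC) := by
    rintro s ⟨s', hs', rfl⟩
    exact hSCe s' hs'
  have hGFA : (EGP k (triv k A) (triv k A)).GF (resCls ι '' SC) := by
    refine GOp.GF_of_nil (EGP k (triv k A) (triv k A)) _ (resCls ι '' SC) (Set.finite_range _)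
      (fun s hs => (hSA s hs).2) (EGP_comm (triv k A) _ hSA) ?_ hGFs
    rintro s ⟨j, rfl⟩
    obtain ⟨N, hN⟩ := nil_of_trans p ι q r jj (fun a => hr a) SZ (hSZ _ (trv_finite k _)) SC hSCe
      (fun s hs => Or.inr (Or.inr hs)) (cls₂ (y j)) (X j) (Or.inl ⟨j, rfl⟩) (c j)
      (fun i => Or.inr (Or.inl (Set.mem_iUnion.2 ⟨j, i, rfl⟩))) (z j) (hXeq j)
    refine ⟨N, fun a b h v => ?_⟩
    have hab : N * 2 + a = b := by
      simpa using h
    rw [word_replicate k (cls₂ (y j)) N rfl h hab v]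
    exact Gen_comp k (resCls ι '' SC) _ hN v hab
  exact FGC_of_classes hex hB SC hSCf hSCe fun N hN =>
    GN_of_GF_triv k A hA (resCls ι '' SC) (hSCf.image _) hTA hGFA N hN

end Pool.Agent.H26.FG
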