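import Pool.Agent.H26.FG.T0p

/-!
# Module T0bwd: the direction 'finiteness over the image implies FGC for `C`'
-/

open CategoryTheory Abelian TensorProduct
open scoped ModuleCat

universe u

namespace Pool.Agent.H26.FG

section Fin

variable {k : Type u} [Field k] {A : Type u} [Ring A] [HopfAlgebra k A] [Module.Finite k A]

omit [Module.Finite k A] in
/-- Left multiplication by `x` preserves the ideal generated by `D` if `x` or all elements of `D`
are even. -/
lemma hT0b_mul (D : Set (Cls (triv k A))) {p : ℕ} (x : Ext (triv k A) (triv k A) p)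
    (hx : Even p ∨ ∀ d ∈ D, Even d.1) {a b : ℕ} (h : p + a = b)
    (z : Ext (triv k A) (triv k A) a)
    (hz : z ∈ (EGP k (triv k A) (triv k A)).Gen D (fun _ => ⊤) a) :
    x.comp z h ∈ (EGP k (triv k A) (triv k A)).Gen D (fun _ => ⊤) b := by
  have key : (EGP k (triv k A) (triv k A)).Gen D (fun _ => ⊤) a ≤
      ((EGP k (triv k A) (triv k A)).Gen D (fun _ => ⊤) b).comap
        (Ext.precompOfLinear x k (triv k A) h) := by
    refine Submodule.span_le.2 ?_
    rintro _ ⟨d, hd, a', h1, r, -, rfl⟩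
    change Ext (triv k A) (triv k A) a' at r
    have h1 : d.1 + a' = a := h1
    refine Submodule.subset_span ⟨d, hd, p + a', (show d.1 + (p + a') = b by omega),
      x.comp r rfl, Submodule.mem_top, ?_⟩
    show d.2.comp (x.comp r rfl) (show d.1 + (p + a') = b by omega) = x.comp (d.2.comp r h1) h
    have hc : x.comp d.2 (rfl : p + d.1 = p + d.1) = d.2.comp x (Nat.add_comm d.1 p) := by
      rcases hx with hx | hx
      · exact comp_comm_of_even hx x d.2 _ _
      · exact (comp_comm_of_even (hx d hd) d.2 x _ _).symm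
    rw [← hLX_assoc x d.2 r (rfl : p + d.1 = p + d.1) (show p + d.1 + a' = b by omega) h1 h, hc]
    exact (hLX_assoc d.2 x r (Nat.add_comm d.1 p) (show p + d.1 + a' = b by omega) rfl
      (show d.1 + (p + a') = b by omega)).symm
  exact key hz

/-- Finitely many classes of a given set suffice. -/
lemma hT0b_fin (hA : FGC k A) (D : Set (Cls (triv k A))) :
    ∃ D' ⊆ D, D'.Finite ∧ ∀ n, (EGP k (triv k A) (triv k A)).Gen D (fun _ => ⊤) n ≤
      (EGP k (triv k A) (triv k A)).Gen D' (fun _ => ⊤) n := by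
  obtain ⟨S, -, hS', hGN⟩ := FGC_GN k A hA
  have hfin : Module.Finite k (triv k A) := trv_finite k _
  obtain ⟨n₀, hn₀⟩ := hGN (triv k A) hfin
    (fun n => (EGP k (triv k A) (triv k A)).Gen D (fun _ => ⊤) n) (by
      intro i hi a b h v hv
      exact hT0b_mul D i.2 (Or.inl (hS' i hi).1) h v hv)
  have hstep : ∀ n, ∃ Dn ⊆ D, Dn.Finite ∧ (EGP k (triv k A) (triv k A)).Gen D (fun _ => ⊤) n ≤
      (EGP k (triv k A) (triv k A)).Gen Dn (fun _ => ⊤) n := by
    intro n
    have h1 : Module.Finite k ((EGP k (triv k A) (triv k A)).V n) :=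
      Ext_finite k _ _ hfin hfin n
    have hfg : ((EGP k (triv k A) (triv k A)).Gen D (fun _ => ⊤) n).FG :=
      IsNoetherian.noetherian _
    obtain ⟨s', hs', hspan⟩ := (Submodule.fg_span_iff_fg_span_finset_subset _).1 hfg
    choose d hd using fun z : s' => hs' z.2
    refine ⟨Set.range d, ?_, Set.finite_range d, ?_⟩
    · rintro _ ⟨z, rfl⟩
      exact (hd z).1
    · show Submodule.span k _ ≤ _
      rw [hspan, Submodule.span_le]
      intro z hz
      obtain ⟨-, a, h, r, hr, hrz⟩ := hd ⟨z, hz⟩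
      exact Submodule.subset_span ⟨d ⟨z, hz⟩, ⟨_, rfl⟩, a, h, r, hr, hrz⟩
  choose Dn hDn1 hDn2 hDn3 using hstep
  have hmono : ∀ {D₁ D₂ : Set (Cls (triv k A))}, D₁ ⊆ D₂ → ∀ n,
      (EGP k (triv k A) (triv k A)).Gen D₁ (fun _ => ⊤) n ≤
        (EGP k (triv k A) (triv k A)).Gen D₂ (fun _ => ⊤) n := fun h n =>
    GOp.Gen_mono _ h (fun _ => le_rfl) n
  refine ⟨⋃ n ∈ Finset.range (n₀ + 1), Dn n, ?_, ?_, ?_⟩
  · exact Set.iUnion₂_subset fun n _ => hDn1 n
  · exact Set.Finite.biUnion (Finset.finite_toSet _) fun n _ => hDn2 n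
  · intro n
    induction n using Nat.strong_induction_on with
    | _ n ih =>
      by_cases hn : n ≤ n₀
      · refine (hDn3 n).trans (hmono ?_ n)
        exact Set.subset_biUnion_of_mem (u := fun n => Dn n)
          (Finset.mem_coe.2 (Finset.mem_range.2 (Nat.lt_succ_of_le hn)))
      · push Not at hn
        refine (hn₀ n hn).trans (Submodule.span_le.2 ?_)
        rintro _ ⟨i, hi, a, h, w, hw, rfl⟩
        have h2 : i.1 + a = n := h
        have h3 := (hS' i hi).2
        have hw' := ih a (by omega) hw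
        exact hT0b_mul _ i.2 (Or.inl (hS' i hi).1) h w hw'

/-- The ideal generated by `D` in degree `n`. -/
noncomputable def hT0b_gen (D : Set (Cls (triv k A))) (n : ℕ) :
    Submodule k (Ext (triv k A) (triv k A) n) :=
  (EGP k (triv k A) (triv k A)).Gen D (fun _ => ⊤) n

omit [Module.Finite k A] in
lemma hT0b_gen_mem {D : Set (Cls (triv k A))} {d : Cls (triv k A)} (hd : d ∈ D) {a n : ℕ}
    (h : d.1 + a = n) (r : Ext (triv k A) (triv k A) a) : d.2.comp r h ∈ hT0b_gen D n := by
  have h1 : (EGP k (triv k A) (triv k A)).op d h r ∈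
      (EGP k (triv k A) (triv k A)).Gen D (fun _ => ⊤) n :=
    Submodule.subset_span ⟨d, hd, a, h, r, Submodule.mem_top, rfl⟩
  exact h1

omit [Module.Finite k A] in
lemma hT0b_gen_le {D : Set (Cls (triv k A))} {n : ℕ}
    {W : Submodule k (Ext (triv k A) (triv k A) n)}
    (hW : ∀ d ∈ D, ∀ (a : ℕ) (h : d.1 + a = n) (r : Ext (triv k A) (triv k A) a),
      d.2.comp r h ∈ W) : hT0b_gen D n ≤ W := by
  let W' : Submodule k ((EGP k (triv k A) (triv k A)).V n) := W
  have h1 : (EGP k (triv k A) (triv k A)).Gen D (fun _ => ⊤) n ≤ W' := by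
    refine Submodule.span_le.2 ?_
    rintro _ ⟨d, hd, a, h, r, -, rfl⟩
    exact hW d hd a h r
  exact h1

end Fin

variable {k : Type u} [Field k] {A C B : Type u} [Ring A] [HopfAlgebra k A] [Module.Finite k A]
  [Ring C] [HopfAlgebra k C] [Module.Finite k C] [Ring B] [HopfAlgebra k B] [Module.Finite k B]

omit [Module.Finite k A] [Module.Finite k C] in
/-- Classes of degree `0` restrict to scalars. -/
lemma hT0b_zero (ι : A →ₐc[k] C) (x : Ext (triv k C) (triv k C) 0) :
    ∃ t : k, ∀ (b : ℕ) (y : Ext (triv k A) (triv k A) b),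
      (res ι x).comp y (zero_add b) = t • y := by
  obtain ⟨f, rfl⟩ := (Ext.mk₀_bijective _ _).2 x
  have hf : f = tval k (f.hom (tone k C)) • 𝟙 (triv k C) := by
    ext s
    have h1 : s = tval k s • tone k C := triv_eq k s
    apply tval_injective k
    have h2 : f.hom s = tval k s • f.hom (tone k C) := by
      conv_lhs => rw [h1]
      exact (f.hom.restrictScalars k).map_smul _ _
    have h3 : (tval k (f.hom (tone k C)) • 𝟙 (triv k C)).hom s =
        tval k (f.hom (tone k C)) • s := rfl
    rw [h3, h2, tval_smul', tval_smul', mul_comm]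
  refine ⟨tval k (f.hom (tone k C)), fun b y => ?_⟩
  have h4 : res ι (Ext.mk₀ f) = tval k (f.hom (tone k C)) • Ext.mk₀ (𝟙 (triv k A)) := by
    conv_lhs => rw [hf, Ext.mk₀_smul]
    rw [res, resK_smul, resK_one]
  rw [h4, Ext.smul_comp, Ext.mk₀_id_comp]

/-- Let `R = Ext_A(k,k)` be finite over the image `R'` of `Ext_C(k,k)`, with generators `g l`, and
noetherian over finitely many even classes (`FGC_GN`). Then there are finitely many even positive
classes `SC` of `C` such that `R` is `GF` over their restrictions.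
Proof. The stable subspace generated by the positive even classes of `R'` (all `r c`,
`r ∈ R`, `c ∈ R'` even positive; even classes are central, `comp_comm_of_even`) is generated in
bounded degrees over the even classes of `A`, so it is generated as an ideal by finitely many
`X_i ∈ R'` even (`R_n` is finite-dimensional). Similarly the ideal generated by the odd classes of
`R'` is generated by finitely many odd `o_i ∈ R'`. Modulo the ideal `a` generated by the `X_i`, `R` is
spanned by the `g l` and the `g l' o_i g l`: `R = ∑ R' g l`, `R' = k + (even, ≥ 2) + odd`, the even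
part is in `a`, odd elements are in `∑ R o_i`, and `R' g l' o_i g l = ± R' o_i g l' g l` with
`R'_odd o_i` even in `R'` (graded commutativity `comp_comm`). So `R/a` vanishes in high degrees. -/
theorem exists_classes_of_finite (ι : A →ₐc[k] C) (hA : FGC k A)
    (h : ∃ G : Set (Σ n : ℕ, Ext (triv k A) (triv k A) n), G.Finite ∧
      ∀ V : (n : ℕ) → Submodule k (Ext (triv k A) (triv k A) n), (∀ g ∈ G, g.2 ∈ V g.1) →
        (∀ (a b c : ℕ) (h : a + b = c) (x : Ext (triv k C) (triv k C) a)
          (y : Ext (triv k A) (triv k A) b), y ∈ V b → (res ι x).comp y h ∈ V c) →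
        ∀ n, V n = ⊤) :
    ∃ SC : Set (Cls (triv k C)), SC.Finite ∧ EvenPos SC ∧
      (EGP k (triv k A) (triv k A)).GF (resCls ι '' SC) := by
  obtain ⟨G, hG, hgen⟩ := h
  obtain ⟨X, hXD, hXf, hX'⟩ := hT0b_fin (k := k) (A := A) hA
    (resCls ι '' {c : Cls (triv k C) | Even c.1 ∧ 0 < c.1})
  obtain ⟨O, hOD, hOf, hO'⟩ := hT0b_fin (k := k) (A := A) hA
    (resCls ι '' {c : Cls (triv k C) | Odd c.1})
  have hX : ∀ n, hT0b_gen (resCls ι '' {c : Cls (triv k C) | Even c.1 ∧ 0 < c.1}) n ≤
    hT0b_gen X n := hX'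
  have hO : ∀ n, hT0b_gen (resCls ι '' {c : Cls (triv k C) | Odd c.1}) n ≤
    hT0b_gen O n := hO'
  obtain ⟨SC, hSC1, hSC2, hSC3⟩ : ∃ SC ⊆ {c : Cls (triv k C) | Even c.1 ∧ 0 < c.1},
      SC.Finite ∧ resCls ι '' SC = X :=
    (Set.exists_subset_image_finite_and (p := fun t => t = X)).1 ⟨X, hXD, hXf, rfl⟩
  refine ⟨SC, hSC2, fun s hs => hSC1 hs, ?_⟩
  rw [hSC3]
  let V : (n : ℕ) → Submodule k (Ext (triv k A) (triv k A) n) := fun n =>
    hT0b_gen X n ⊔
      Submodule.span k ({z | (⟨n, z⟩ : Σ n : ℕ, Ext (triv k A) (triv k A) n) ∈ G} ∪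
        {z | ∃ o ∈ O, ∃ g ∈ G, ∃ h : o.1 + g.1 = n, o.2.comp g.2 h = z})
  -- even positive classes of `C`
  have c1 : ∀ (a b c : ℕ) (h : a + b = c) (x : Ext (triv k C) (triv k C) a)
      (y : Ext (triv k A) (triv k A) b), Even a → 0 < a → (res ι x).comp y h ∈ V c := by
    intro a b c h x y ha ha'
    have hm : resCls ι ⟨a, x⟩ ∈ resCls ι '' {c : Cls (triv k C) | Even c.1 ∧ 0 < c.1} :=
      Set.mem_image_of_mem (resCls ι) ⟨ha, ha'⟩
    exact Submodule.mem_sup_left (hX c (hT0b_gen_mem hm h y))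
  -- products of elements of `O` with arbitrary elements
  let U : (n : ℕ) → Submodule k (Ext (triv k A) (triv k A) n) := fun n =>
    ⨅ o : O, (V (o.1.1 + n)).comap (Ext.precompOfLinear o.1.2 k (triv k A) rfl)
  have hU : ∀ n, U n = ⊤ := by
    refine hgen U ?_ ?_
    · intro g hg
      rw [Submodule.mem_iInf]
      intro o
      exact Submodule.mem_sup_right (Submodule.subset_span
        (Or.inr ⟨o.1, o.2, g, hg, rfl, rfl⟩))
    · intro a b c h x y hy
      rw [Submodule.mem_iInf] at hy ⊢
      intro o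
      have hyo : o.1.2.comp y rfl ∈ V (o.1.1 + b) := hy o
      show o.1.2.comp ((res ι x).comp y h) rfl ∈ V (o.1.1 + c)
      rcases Nat.eq_zero_or_pos a with rfl | ha
      · obtain ⟨t, ht⟩ := hT0b_zero ι x
        obtain rfl : b = c := by omega
        rw [ht, Ext.comp_smul]
        exact Submodule.smul_mem _ _ hyo
      · rcases Nat.even_or_odd a with hev | hodd
        · have e1 : o.1.2.comp ((res ι x).comp y h) rfl =
              (res ι x).comp (o.1.2.comp y rfl)
                (show a + (o.1.1 + b) = o.1.1 + c by omega) := by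
            rw [← hLX_assoc o.1.2 (res ι x) y (rfl : o.1.1 + a = o.1.1 + a)
              (show o.1.1 + a + b = o.1.1 + c by omega) h rfl,
              ← comp_comm_of_even hev (res ι x) o.1.2 (Nat.add_comm a o.1.1)
                (rfl : o.1.1 + a = o.1.1 + a)]
            exact hLX_assoc (res ι x) o.1.2 y _ _ rfl _
          rw [e1]
          exact c1 _ _ _ _ _ _ hev ha
        · obtain ⟨c₀, hc₀, hoc⟩ := hOD o.2
          have hc₀' : Odd c₀.1 := hc₀
          have e1 : o.1.2.comp ((res ι x).comp y h) rfl =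
              (res ι (c₀.2.comp x (rfl : c₀.1 + a = c₀.1 + a))).comp y
                (show c₀.1 + a + b = o.1.1 + c by rw [← hoc]; show _ = c₀.1 + c; omega) := by
            obtain ⟨⟨o1, o2⟩, ho⟩ := o
            cases hoc
            have e2 : res ι (c₀.2.comp x (rfl : c₀.1 + a = c₀.1 + a)) =
                (res ι c₀.2).comp (res ι x) rfl := resK_comp _ _ _ _ _
            rw [e2]
            exact (hLX_assoc (res ι c₀.2) (res ι x) y rfl
              (show c₀.1 + a + b = c₀.1 + c by omega) h rfl).symm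
          rw [e1]
          exact c1 _ _ _ _ _ _ (hc₀'.add_odd hodd) (by omega)
  have hOV : ∀ c, hT0b_gen O c ≤ V c := by
    intro c
    refine hT0b_gen_le fun o ho a h r => ?_
    subst h
    have h1 : r ∈ U a := by
      rw [hU a]
      exact Submodule.mem_top
    rw [Submodule.mem_iInf] at h1
    exact h1 ⟨o, ho⟩
  have hV : ∀ n, V n = ⊤ := by
    refine hgen V ?_ ?_
    · intro g hg
      exact Submodule.mem_sup_right (Submodule.subset_span (Or.inl hg))
    · intro a b c h x y hy
      rcases Nat.eq_zero_or_pos a with rfl | ha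
      · obtain ⟨t, ht⟩ := hT0b_zero ι x
        obtain rfl : b = c := by omega
        rw [ht]
        exact Submodule.smul_mem _ _ hy
      · rcases Nat.even_or_odd a with hev | hodd
        · exact c1 _ _ _ _ _ _ hev ha
        · have hm : resCls ι ⟨a, x⟩ ∈ resCls ι '' {c : Cls (triv k C) | Odd c.1} :=
            Set.mem_image_of_mem (resCls ι) hodd
          exact hOV c (hO c (hT0b_gen_mem hm h y))
  obtain ⟨nG, hnG⟩ := (hG.image Sigma.fst).bddAbove
  obtain ⟨nO, hnO⟩ := (hOf.image Sigma.fst).bddAbove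
  refine ⟨nG + nO, fun n hn => ?_⟩
  have h1 : ({z | (⟨n, z⟩ : Σ n : ℕ, Ext (triv k A) (triv k A) n) ∈ G} ∪
        {z | ∃ o ∈ O, ∃ g ∈ G, ∃ h : o.1 + g.1 = n, o.2.comp g.2 h = z} :
          Set (Ext (triv k A) (triv k A) n)) = ∅ := by
    rw [Set.eq_empty_iff_forall_notMem]
    rintro z (hz | ⟨o, ho, g, hg, h, -⟩)
    · have := hnG (Set.mem_image_of_mem Sigma.fst hz)
      simp only at this
      omega
    · have h2 := hnG (Set.mem_image_of_mem Sigma.fst hg)
      have h3 := hnO (Set.mem_image_of_mem Sigma.fst ho)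
      omega
  have h2 := hV n
  simp only [V] at h2
  rw [h1, Submodule.span_empty, sup_bot_eq] at h2
  exact h2.ge

theorem T0_backward {ι : A →ₐc[k] C} {π : C →ₐc[k] B} (hex : HopfExact ι π)
    (hA : FGC k A) (hB : FGC k B)
    (h : ∃ G : Set (Σ n : ℕ, Ext (triv k A) (triv k A) n), G.Finite ∧
      ∀ V : (n : ℕ) → Submodule k (Ext (triv k A) (triv k A) n), (∀ g ∈ G, g.2 ∈ V g.1) →
        (∀ (a b c : ℕ) (h : a + b = c) (x : Ext (triv k C) (triv k C) a)
          (y : Ext (triv k A) (triv k A) b), y ∈ V b → (res ι x).comp y h ∈ V c) →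
        ∀ n, V n = ⊤) : FGC k C := by
  obtain ⟨SC, hSC1, hSC2, hSC3⟩ := exists_classes_of_finite ι hA h
  refine FGC_of_classes hex hB SC hSC1 hSC2 fun N hN => ?_
  refine GN_of_GF_triv k A hA _ (hSC1.image _) ?_ hSC3 N hN
  rintro _ ⟨s, hs, rfl⟩
  exact hSC2 s hs

end Pool.Agent.H26.FG
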