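import Pool.Agent.H26.FG.Inter
import Pool.Agent.H26.FG.CoiA
import Pool.Agent.H26.FG.KT

/-!
# Module T0fwd: Shapiro's lemma, the direction 'FGC for `C` implies finiteness over the image'
-/

open CategoryTheory Abelian TensorProduct
open scoped ModuleCat

universe u

namespace Pool.Agent.H26.FG

section K

variable {A C : Type u} [Ring A] [Ring C] (f : A →+* C)

/-- The coinduction functor. -/
noncomputable def hT0f_K : ModuleCat.{u} A ⥤ ModuleCat.{u} C :=
  ModuleCat.coextendScalars.{u, u, u} f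

noncomputable def hT0f_adj : resF f ⊣ hT0f_K f :=
  ModuleCat.restrictCoextendScalarsAdj.{u, u, u} f

instance : (hT0f_K f).Additive where
  map_add := rfl

instance : Limits.PreservesFiniteLimits (hT0f_K f) := by
  have := (hT0f_adj f).rightAdjoint_preservesLimits
  infer_instance

lemma hT0f_epi {n : ℕ} (w : Fin n → C) (φ : Fin n → C →+ A)
    (h1 : ∀ i a c, φ i (f a * c) = a * φ i c) (h2 : ∀ c, ∑ i, f (φ i c) * w i = c)
    {M M' : ModuleCat.{u} A} (p : M ⟶ M') (hp : Epi p) : Epi ((hT0f_K f).map p) := by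
  rw [ModuleCat.epi_iff_surjective] at hp ⊢
  intro g
  let g' : (ModuleCat.restrictScalars f).obj (ModuleCat.of C C) →ₗ[A] M' :=
    ModuleCat.CoextendScalars.equiv f M' g
  choose m hm using fun i => hp (g' (w i))
  let gt : (ModuleCat.restrictScalars f).obj (ModuleCat.of C C) →ₗ[A] M :=
    { toFun := fun c => ∑ i, φ i c • m i
      map_add' := fun x y => by
        rw [← Finset.sum_add_distrib]
        refine Finset.sum_congr rfl fun i _ => ?_
        have : φ i (x + y) = φ i x + φ i y := map_add _ _ _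
        rw [this, add_smul]
      map_smul' := fun a x => by
        rw [RingHom.id_apply, Finset.smul_sum]
        refine Finset.sum_congr rfl fun i _ => ?_
        have : φ i (a • x) = a * φ i x := h1 i a x
        rw [this, mul_smul] }
  refine ⟨(ModuleCat.CoextendScalars.equiv f M).symm gt, ?_⟩
  refine ModuleCat.CoextendScalars.ext (f := f) (LinearMap.ext fun c => ?_)
  show p.hom (∑ i, φ i c • m i) = g' c
  rw [map_sum]
  have h3 : g' c = g' (∑ i, (φ i c) • (show (ModuleCat.restrictScalars f).obj (ModuleCat.of C C) from w i)) :=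
    congrArg g' (h2 c).symm
  rw [h3, map_sum]
  refine Finset.sum_congr rfl fun i _ => ?_
  rw [map_smul, map_smul]
  congr 1
  exact hm i

lemma hT0f_colim {n : ℕ} (w : Fin n → C) (φ : Fin n → C →+ A)
    (h1 : ∀ i a c, φ i (f a * c) = a * φ i c) (h2 : ∀ c, ∑ i, f (φ i c) * w i = c) :
    Limits.PreservesFiniteColimits (hT0f_K f) := by
  rw [Functor.preservesFiniteColimits_iff_forall_exact_map_and_epi]
  intro S hS
  refine ⟨((Functor.preservesFiniteLimits_iff_forall_exact_map_and_mono _).1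
    inferInstance S hS).1, ?_⟩
  exact hT0f_epi f w φ h1 h2 S.g hS.epi_g

end K

lemma hT0f_tri {𝒜 : Type*} {𝒞 : Type*} [Category 𝒜] [Category 𝒞] {F : 𝒞 ⥤ 𝒜} {K : 𝒜 ⥤ 𝒞}
    (adj : F ⊣ K) {X : 𝒞} {Y : 𝒜} (i : Y ≅ F.obj X) :
    i.hom ≫ F.map (adj.unit.app X ≫ K.map i.inv) ≫ adj.counit.app Y = 𝟙 Y := by
  simp

lemma hT0f_comp {𝒜 : Type*} [Category 𝒜] [Abelian 𝒜] [HasExt.{u} 𝒜] {W Y Z Z' : 𝒜} {n : ℕ}
    (a : W ⟶ Y) (b : Y ⟶ Z) (s : Ext.{u} Z Z' n) (e : Z' ⟶ W) (c : Z ⟶ W) (t : Ext.{u} W W n)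
    (h1 : s.comp (Ext.mk₀ e) (add_zero n) = (Ext.mk₀ c).comp t (zero_add n))
    (h2 : a ≫ b ≫ c = 𝟙 W) :
    ((Ext.mk₀ a).comp ((Ext.mk₀ b).comp s (zero_add n)) (zero_add n)).comp (Ext.mk₀ e)
      (add_zero n) = t := by
  rw [Ext.comp_assoc_of_third_deg_zero, Ext.comp_assoc_of_third_deg_zero, h1,
    Ext.mk₀_comp_mk₀_assoc, Ext.mk₀_comp_mk₀_assoc, Category.assoc, h2, Ext.mk₀_id_comp]

variable {k : Type u} [Field k] {A C B : Type u} [Ring A] [HopfAlgebra k A] [Module.Finite k A]
  [Ring C] [HopfAlgebra k C] [Module.Finite k C] [Ring B] [HopfAlgebra k B] [Module.Finite k B]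

omit [Module.Finite k A] [Module.Finite k C] in
lemma hT0f_finite (f : A →ₐ[k] C) {n : ℕ} (w : Fin n → C) (φ : Fin n → C →ₗ[k] A)
    (h2 : ∀ c, ∑ i, f (φ i c) * w i = c) :
    Module.Finite k ((hT0f_K f.toRingHom).obj (triv k A)) := by
  let Φ : (hT0f_K f.toRingHom).obj (triv k A) →ₗ[k] (Fin n → k) :=
    { toFun := fun g i => tval k
        ((ModuleCat.CoextendScalars.equiv f.toRingHom (triv k A) g) (w i))
      map_add' := fun g g' => by
        funext i
        rfl
      map_smul' := fun c g => by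
        funext i
        have h3 : c • g = algebraMap k C c • g := (algebraMap_smul C c g).symm
        rw [h3]
        show tval k ((ModuleCat.CoextendScalars.equiv f.toRingHom (triv k A) g)
          ((w i * algebraMap k C c : C))) = c • tval k
            ((ModuleCat.CoextendScalars.equiv f.toRingHom (triv k A) g) (w i))
        have h4 : w i * algebraMap k C c = f (algebraMap k A c) * w i := by
          rw [AlgHom.commutes, Algebra.commutes]
        rw [h4]
        have h5 : (ModuleCat.CoextendScalars.equiv f.toRingHom (triv k A) g)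
          ((f (algebraMap k A c) * w i : C)) = algebraMap k A c •
            (ModuleCat.CoextendScalars.equiv f.toRingHom (triv k A) g) (w i) :=
          (ModuleCat.CoextendScalars.equiv f.toRingHom (triv k A) g).map_smul
            (algebraMap k A c) (w i)
        rw [h5, tval_smul, Bialgebra.counit_algebraMap, smul_eq_mul] }
  refine Module.Finite.of_injective Φ ?_
  intro g g' hgg
  refine ModuleCat.CoextendScalars.ext (f := f.toRingHom) (LinearMap.ext fun c => ?_)
  have key : ∀ g : (hT0f_K f.toRingHom).obj (triv k A),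
      (ModuleCat.CoextendScalars.equiv f.toRingHom (triv k A) g) c =
        ∑ i, φ i c • (ModuleCat.CoextendScalars.equiv f.toRingHom (triv k A) g) (w i) := by
    intro g
    have h3 : (ModuleCat.CoextendScalars.equiv f.toRingHom (triv k A) g) c =
      (ModuleCat.CoextendScalars.equiv f.toRingHom (triv k A) g) (∑ i, (φ i c) •
        (show (ModuleCat.restrictScalars f.toRingHom).obj (ModuleCat.of C C) from w i)) :=
      congrArg _ (h2 c).symm
    rw [h3, map_sum]
    exact Finset.sum_congr rfl fun i _ => map_smul _ _ _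
  rw [key g, key g']
  refine Finset.sum_congr rfl fun i _ => ?_
  congr 1
  exact tval_injective k (congrFun hgg i)

/-- Shapiro's lemma, surjective part. Let `K(M) = Hom_A(C, M)` (`f(ι(a) x) = a f(x)`,
`(c f)(x) = f(x c)`), an exact functor because `C` is a projective left `A`-module
(`exists_dual_basis_left`: an `A`-linear surjection `M → M'` lifts, `f' = ∑ …`), with
`ev : K(M) → M`, `f ↦ f 1` and `co : N → K(res N)`, `n ↦ (x ↦ x n)`. For `t ∈ Ext_A^n(k, k)`
let `z = co_k K(t)`; then `res(z) ev = t` (`map_natTrans`). Take `L = K(k)`. -/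
theorem exists_shapiro {ι : A →ₐc[k] C} {π : C →ₐc[k] B} (hex : HopfExact ι π) :
    ∃ (L : ModuleCat.{u} C) (_ : Module.Finite k L)
      (ψ : ∀ n : ℕ, Ext (triv k C) L n →ₗ[k] Ext (triv k A) (triv k A) n),
      (∀ (a b c : ℕ) (h : a + b = c) (x : Ext (triv k C) (triv k C) a) (z : Ext (triv k C) L b),
        ψ c (x.comp z h) = (res ι x).comp (ψ b z) h) ∧
      ∀ (n : ℕ) (t : Ext (triv k A) (triv k A) n), ∃ z, ψ n z = t := by
  obtain ⟨n₀, w, φ, hφ, hw⟩ := hex.exists_dual_basis_left
  let f : A →ₐ[k] C := (ι : A →ₐ[k] C)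
  have hcol : Limits.PreservesFiniteColimits (hT0f_K f.toRingHom) :=
    hT0f_colim f.toRingHom w (fun i => (φ i).toAddMonoidHom) (fun i a c => hφ i a c) hw
  have hfx : (Bialgebra.counitAlgHom k C).comp f = Bialgebra.counitAlgHom k A :=
    ι.counitAlgHom_comp
  let K := hT0f_K f.toRingHom
  let adj := hT0f_adj f.toRingHom
  let ev : (resF f.toRingHom).obj (K.obj (triv k A)) ⟶ triv k A := adj.counit.app (triv k A)
  refine ⟨K.obj (triv k A), hT0f_finite f w φ hw, fun n =>
    { toFun := fun z => (resX f hfx z).comp (Ext.mk₀ ev) (add_zero n)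
      map_add' := fun z z' => by rw [resX_add, Ext.add_comp]
      map_smul' := fun c z => by rw [resX_smul, Ext.smul_comp, RingHom.id_apply] }, ?_, ?_⟩
  · intro a b c h x z
    show (resX f hfx (x.comp z h)).comp (Ext.mk₀ ev) (add_zero c) =
      (resK f hfx x).comp ((resX f hfx z).comp (Ext.mk₀ ev) (add_zero b)) h
    rw [resX_comp]
    exact Ext.comp_assoc_of_third_deg_zero _ _ _ h
  · intro n t
    let co : triv k C ⟶ K.obj (triv k A) :=
      adj.unit.app (triv k C) ≫ K.map (trvIso _ _ f hfx).inv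
    refine ⟨(Ext.mk₀ co).comp (t.mapExactFunctor K) (zero_add n), ?_⟩
    show ((Ext.mk₀ (trvIso _ _ f hfx).hom).comp
      (((Ext.mk₀ co).comp (t.mapExactFunctor K) (zero_add n)).mapExactFunctor
        (resF f.toRingHom)) (zero_add n)).comp (Ext.mk₀ ev) (add_zero n) = t
    have h1 := map_natTrans (K ⋙ resF f.toRingHom) (𝟭 _) adj.counit t
    rw [map_id_functor] at h1
    rw [Ext.mapExactFunctor_comp, Ext.mapExactFunctor_mk₀, map_comp_functor]
    exact hT0f_comp _ _ _ _ _ _ h1 (hT0f_tri adj (trvIso _ _ f hfx))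

theorem T0_forward {ι : A →ₐc[k] C} {π : C →ₐc[k] B} (hex : HopfExact ι π) (hC : FGC k C) :
    ∃ G : Set (Σ n : ℕ, Ext (triv k A) (triv k A) n), G.Finite ∧
      ∀ V : (n : ℕ) → Submodule k (Ext (triv k A) (triv k A) n), (∀ g ∈ G, g.2 ∈ V g.1) →
        (∀ (a b c : ℕ) (h : a + b = c) (x : Ext (triv k C) (triv k C) a)
          (y : Ext (triv k A) (triv k A) b), y ∈ V b → (res ι x).comp y h ∈ V c) →
        ∀ n, V n = ⊤ := by
  obtain ⟨L, hL, ψ, hψ, hsurj⟩ := exists_shapiro hex
  obtain ⟨G₀, hG₀, hgen⟩ := hC.mod (triv k C) L (trv_finite k _) hL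
  refine ⟨(fun g : Σ n : ℕ, Ext (triv k C) L n =>
    (⟨g.1, ψ g.1 g.2⟩ : Σ n : ℕ, Ext (triv k A) (triv k A) n)) '' G₀, hG₀.image _, ?_⟩
  intro V hV1 hV2 n
  have h1 := hgen (fun n => (V n).comap (ψ n)) (fun g hg => hV1 _ ⟨g, hg, rfl⟩) (by
    intro a b c h x y hy
    rw [act_triv]
    show ψ c (x.comp y h) ∈ V c
    rw [hψ]
    exact hV2 a b c h x _ hy)
  rw [eq_top_iff]
  intro t _
  obtain ⟨z, rfl⟩ := hsurj n t
  have h2 : z ∈ (V n).comap (ψ n) := by
    have h3 : (V n).comap (ψ n) = ⊤ := h1 n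
    rw [h3]
    exact Submodule.mem_top
  exact h2

end Pool.Agent.H26.FG
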