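import Pool.Agent.H26.FG.MFb
import Pool.Agent.H26.FG.T0bwd
import Pool.Agent.H26.FG.T0fwd

/-!
# Module MG: theorem M with additional restricted classes
-/

open CategoryTheory Abelian TensorProduct Coalgebra HopfAlgebra
open scoped ModuleCat

universe u

namespace Pool.Agent.H26.FG

variable {k : Type u} [Field k] {A C B : Type u} [Ring A] [HopfAlgebra k A] [Module.Finite k A]
  [Ring C] [HopfAlgebra k C] [Module.Finite k C] [Ring B] [HopfAlgebra k B] [Module.Finite k B]

omit [Module.Finite k A] in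
lemma hMG_gen_mono {D D' : Set (Cls (triv k A))} (h : D ⊆ D') (n : ℕ) :
    hT0b_gen D n ≤ hT0b_gen D' n :=
  GOp.Gen_mono (EGP k (triv k A) (triv k A)) h (fun _ => le_rfl) n

/-- As `exists_classes_of_finite`, with additional classes of degree 2. -/
theorem exists_classes_of_finite_union (ι : A →ₐc[k] C) (hA : FGC k A) {J : Type}
    (s : J → Ext (triv k A) (triv k A) 2)
    (h : ∃ G : Set (Σ n : ℕ, Ext (triv k A) (triv k A) n), G.Finite ∧
      ∀ V : (n : ℕ) → Submodule k (Ext (triv k A) (triv k A) n), (∀ g ∈ G, g.2 ∈ V g.1) →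
        (∀ (a b c : ℕ) (h : a + b = c) (x : Ext (triv k C) (triv k C) a)
          (y : Ext (triv k A) (triv k A) b), y ∈ V b → (res ι x).comp y h ∈ V c) →
        (∀ (j : J) (b c : ℕ) (h : 2 + b = c) (y : Ext (triv k A) (triv k A) b),
          y ∈ V b → (s j).comp y h ∈ V c) →
        ∀ n, V n = ⊤) :
    ∃ SC : Set (Cls (triv k C)), SC.Finite ∧ EvenPos SC ∧
      (EGP k (triv k A) (triv k A)).GF
        ((Set.range fun j => (⟨2, s j⟩ : Cls (triv k A))) ∪ resCls ι '' SC) := by
  obtain ⟨G, hG, hgen⟩ := h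
  obtain ⟨X, hXD, hXf, hX'⟩ := hT0b_fin (k := k) (A := A) hA
    (resCls ι '' {c : Cls (triv k C) | Even c.1 ∧ 0 < c.1})
  obtain ⟨O, hOD, hOf, hO'⟩ := hT0b_fin (k := k) (A := A) hA
    (resCls ι '' {c : Cls (triv k C) | Odd c.1})
  have hX : ∀ n, hT0b_gen (resCls ι '' {c : Cls (triv k C) | Even c.1 ∧ 0 < c.1}) n ≤
    hT0b_gen X n := hX'
  have hO : ∀ n, hT0b_gen (resCls ι '' {c : Cls (triv k C) | Odd c.1}) n ≤
    hT0b_gen O n := hO'
  obtain ⟨SC, hSC1, hSC2, hSC3⟩ : ∃ SC ⊆ {c : Cls (triv k C) | Even c.1 ∧ 0 < c.1},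
      SC.Finite ∧ resCls ι '' SC = X :=
    (Set.exists_subset_image_finite_and (p := fun t => t = X)).1 ⟨X, hXD, hXf, rfl⟩
  refine ⟨SC, hSC2, fun s hs => hSC1 hs, ?_⟩
  rw [hSC3]
  set S : Set (Cls (triv k A)) := Set.range fun j => (⟨2, s j⟩ : Cls (triv k A)) with hS
  let V : (n : ℕ) → Submodule k (Ext (triv k A) (triv k A) n) := fun n =>
    hT0b_gen (S ∪ X) n ⊔
      Submodule.span k ({z | (⟨n, z⟩ : Σ n : ℕ, Ext (triv k A) (triv k A) n) ∈ G} ∪
        {z | ∃ o ∈ O, ∃ g ∈ G, ∃ h : o.1 + g.1 = n, o.2.comp g.2 h = z})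
  -- even positive classes of `C`
  have c1 : ∀ (a b c : ℕ) (h : a + b = c) (x : Ext (triv k C) (triv k C) a)
      (y : Ext (triv k A) (triv k A) b), Even a → 0 < a → (res ι x).comp y h ∈ V c := by
    intro a b c h x y ha ha'
    have hm : resCls ι ⟨a, x⟩ ∈ resCls ι '' {c : Cls (triv k C) | Even c.1 ∧ 0 < c.1} :=
      Set.mem_image_of_mem (resCls ι) ⟨ha, ha'⟩
    exact Submodule.mem_sup_left (hMG_gen_mono Set.subset_union_right c
      (hX c (hT0b_gen_mem hm h y)))
  -- the additional classes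
  have c2 : ∀ (j : J) (b c : ℕ) (h : 2 + b = c) (y : Ext (triv k A) (triv k A) b),
      (s j).comp y h ∈ V c := by
    intro j b c h y
    have hm : (⟨2, s j⟩ : Cls (triv k A)) ∈ S ∪ X := Or.inl ⟨j, rfl⟩
    exact Submodule.mem_sup_left (hT0b_gen_mem hm h y)
  -- products of elements of `O` with arbitrary elements
  let U : (n : ℕ) → Submodule k (Ext (triv k A) (triv k A) n) := fun n =>
    ⨅ o : O, (V (o.1.1 + n)).comap (Ext.precompOfLinear o.1.2 k (triv k A) rfl)
  have hU : ∀ n, U n = ⊤ := by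
    refine hgen U ?_ ?_ ?_
    · intro g hg
      rw [Submodule.mem_iInf]
      intro o
      exact Submodule.mem_sup_right (Submodule.subset_span
        (Or.inr ⟨o.1, o.2, g, hg, rfl, rfl⟩))
    · intro a b c h x y hy
      rw [Submodule.mem_iInf] at hy ⊢
      intro o
      have hyo : o.1.2.comp y rfl ∈ V (o.1.1 + b) := hy o
      show o.1.2.comp ((res ι x).comp y h) rfl ∈ V (o.1.1 + c)
      rcases Nat.eq_zero_or_pos a with rfl | ha
      · obtain ⟨t, ht⟩ := hT0b_zero ι x
        obtain rfl : b = c := by omega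
        rw [ht, Ext.comp_smul]
        exact Submodule.smul_mem _ _ hyo
      · rcases Nat.even_or_odd a with hev | hodd
        · have e1 : o.1.2.comp ((res ι x).comp y h) rfl =
              (res ι x).comp (o.1.2.comp y rfl)
                (show a + (o.1.1 + b) = o.1.1 + c by omega) := by
            rw [← hLX_assoc o.1.2 (res ι x) y (rfl : o.1.1 + a = o.1.1 + a)
              (show o.1.1 + a + b = o.1.1 + c by omega) h rfl,
              ← comp_comm_of_even hev (res ι x) o.1.2 (Nat.add_comm a o.1.1)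
                (rfl : o.1.1 + a = o.1.1 + a)]
            exact hLX_assoc (res ι x) o.1.2 y _ _ rfl _
          rw [e1]
          exact c1 _ _ _ _ _ _ hev ha
        · obtain ⟨c₀, hc₀, hoc⟩ := hOD o.2
          have hc₀' : Odd c₀.1 := hc₀
          have e1 : o.1.2.comp ((res ι x).comp y h) rfl =
              (res ι (c₀.2.comp x (rfl : c₀.1 + a = c₀.1 + a))).comp y
                (show c₀.1 + a + b = o.1.1 + c by rw [← hoc]; show _ = c₀.1 + c; omega) := by
            obtain ⟨⟨o1, o2⟩, ho⟩ := o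
            cases hoc
            have e2 : res ι (c₀.2.comp x (rfl : c₀.1 + a = c₀.1 + a)) =
                (res ι c₀.2).comp (res ι x) rfl := resK_comp _ _ _ _ _
            rw [e2]
            exact (hLX_assoc (res ι c₀.2) (res ι x) y rfl
              (show c₀.1 + a + b = c₀.1 + c by omega) h rfl).symm
          rw [e1]
          exact c1 _ _ _ _ _ _ (hc₀'.add_odd hodd) (by omega)
    · intro j b c h y hy
      rw [Submodule.mem_iInf] at hy ⊢
      intro o
      show o.1.2.comp ((s j).comp y h) rfl ∈ V (o.1.1 + c)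
      have e1 : o.1.2.comp ((s j).comp y h) rfl =
          (s j).comp (o.1.2.comp y rfl) (show 2 + (o.1.1 + b) = o.1.1 + c by omega) := by
        rw [← hLX_assoc o.1.2 (s j) y (rfl : o.1.1 + 2 = o.1.1 + 2)
          (show o.1.1 + 2 + b = o.1.1 + c by omega) h rfl,
          ← comp_comm_of_even (by norm_num : Even 2) (s j) o.1.2 (Nat.add_comm 2 o.1.1)
            (rfl : o.1.1 + 2 = o.1.1 + 2)]
        exact hLX_assoc (s j) o.1.2 y _ _ rfl _
      rw [e1]
      exact c2 _ _ _ _ _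
  have hOV : ∀ c, hT0b_gen O c ≤ V c := by
    intro c
    refine hT0b_gen_le fun o ho a h r => ?_
    subst h
    have h1 : r ∈ U a := by
      rw [hU a]
      exact Submodule.mem_top
    rw [Submodule.mem_iInf] at h1
    exact h1 ⟨o, ho⟩
  have hV : ∀ n, V n = ⊤ := by
    refine hgen V ?_ ?_ ?_
    · intro g hg
      exact Submodule.mem_sup_right (Submodule.subset_span (Or.inl hg))
    · intro a b c h x y hy
      rcases Nat.eq_zero_or_pos a with rfl | ha
      · obtain ⟨t, ht⟩ := hT0b_zero ι x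
        obtain rfl : b = c := by omega
        rw [ht]
        exact Submodule.smul_mem _ _ hy
      · rcases Nat.even_or_odd a with hev | hodd
        · exact c1 _ _ _ _ _ _ hev ha
        · have hm : resCls ι ⟨a, x⟩ ∈ resCls ι '' {c : Cls (triv k C) | Odd c.1} :=
            Set.mem_image_of_mem (resCls ι) hodd
          exact hOV c (hO c (hT0b_gen_mem hm h y))
    · intro j b c h y _
      exact c2 _ _ _ _ _
  obtain ⟨nG, hnG⟩ := (hG.image Sigma.fst).bddAbove
  obtain ⟨nO, hnO⟩ := (hOf.image Sigma.fst).bddAbove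
  refine ⟨nG + nO, fun n hn => ?_⟩
  have h1 : ({z | (⟨n, z⟩ : Σ n : ℕ, Ext (triv k A) (triv k A) n) ∈ G} ∪
        {z | ∃ o ∈ O, ∃ g ∈ G, ∃ h : o.1 + g.1 = n, o.2.comp g.2 h = z} :
          Set (Ext (triv k A) (triv k A) n)) = ∅ := by
    rw [Set.eq_empty_iff_forall_notMem]
    rintro z (hz | ⟨o, ho, g, hg, h, -⟩)
    · have := hnG (Set.mem_image_of_mem Sigma.fst hz)
      simp only at this
      omega
    · have h2 := hnG (Set.mem_image_of_mem Sigma.fst hg)
      have h3 := hnO (Set.mem_image_of_mem Sigma.fst ho)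
      omega
  have h2 := hV n
  simp only [V] at h2
  rw [h1, Submodule.span_empty, sup_bot_eq] at h2
  exact h2.ge

/-- (M), general form. In characteristic `p`, with trivial action of `C` on `H¹(A, k)`: `C` satisfies
FGC iff `Ext_A(k,k)` is finite over the image of the restriction map and finitely many invariant
classes of degree 2. -/
theorem M_iff (p : ℕ) [Fact p.Prime] [CharP k p]
    (ι : A →ₐc[k] C) (π : C →ₐc[k] B) (hex : HopfExact ι π)
    (hA : FGC k A) (hB : FGC k B) (h1 : TrivH1 ι)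
    {J : Type} [Finite J] (x : J → Cocycle₂ (Bialgebra.counitAlgHom k A))
    (h2 : ∀ j, InvClass ι (x j)) :
    FGC k C ↔ ∃ G : Set (Σ n : ℕ, Ext (triv k A) (triv k A) n), G.Finite ∧
      ∀ V : (n : ℕ) → Submodule k (Ext (triv k A) (triv k A) n), (∀ g ∈ G, g.2 ∈ V g.1) →
        (∀ (a b c : ℕ) (h : a + b = c) (x : Ext (triv k C) (triv k C) a)
          (y : Ext (triv k A) (triv k A) b), y ∈ V b → (res ι x).comp y h ∈ V c) →
        (∀ (j : J) (b c : ℕ) (h : 2 + b = c) (y : Ext (triv k A) (triv k A) b),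
          y ∈ V b → (cls₂ (x j)).comp y h ∈ V c) →
        ∀ n, V n = ⊤ := by
  constructor
  · intro hC
    obtain ⟨G, hG, hgen⟩ := T0_forward hex hC
    exact ⟨G, hG, fun V hV1 hV2 _ => hgen V hV1 hV2⟩
  intro h3
  -- normalised cocycles
  choose y hy1 hyx hycls using fun j => exists_normalised (x j)
  have hyinv : ∀ j, InvClass ι (y j) := fun j =>
    InvClass.of_eq hex ((x j).fn 1 1) (hyx j) (h2 j)
  obtain ⟨SC₀, hSC₀f, hSC₀e, hGFs⟩ := exists_classes_of_finite_union ι hA
    (fun j => cls₂ (y j)) (by simpa only [hycls] using h3)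
  obtain ⟨D, _, _, _, I, _, _, _, q, jj, π', hq, hex', hπ', hfac, hfac', hcent, hht, hform⟩ :=
    exists_intermediate p hex h1
  obtain ⟨r, hr⟩ := h81_lift (q.comp ι) jj hex'.inj (fun a => hfac a)
  have hrsurj : Function.Surjective r := by
    intro i
    obtain ⟨a, ha⟩ := hfac' i
    refine ⟨a, hex'.inj ?_⟩
    rw [hr, ha]
    rfl
  obtain ⟨SZ, hSZf, hSZe, hSZ⟩ := CH1_classes p hex' hcent hht hB
  have hD : FGC k D := CH1 p hex' hcent hht hB
  obtain ⟨SD, -, hSDe, hSD⟩ := FGC_GN k D hD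
  have hGN : (EGP k (triv k D) (triv k D)).GN SD := hSD _ (trv_finite k _)
  have htr : ∀ j, ∃ (M : ℕ) (X : Ext (triv k C) (triv k C) (p ^ M * 2))
      (c : ∀ i : Fin M, Ext (triv k D) (triv k D) (p ^ M * 2 - p ^ (i : ℕ) * 2))
      (z : Ext (triv k I) (triv k I) (p ^ M * 2)),
      pw (cls₂ (y j)) (p ^ M) rfl = res ι X +
        ∑ i : Fin M, (res ι (res q (c i))).comp (pw (cls₂ (y j)) (p ^ (i : ℕ)) rfl)
          (Nat.sub_add_cancel (Nat.mul_le_mul_right 2
            (Nat.pow_le_pow_right (Nat.pos_of_ne_zero (Fact.out : p.Prime).ne_zero)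
              i.2.le))) + res r z := by
    intro j
    obtain ⟨F, n, u, v, w, hF, hd⟩ := hform (y j) (hy1 j) (hyinv j)
    exact trans_gen p ι q hq r jj hrsurj (fun a => hr a) SD hSDe hGN (y j) (hy1 j) F hF u v w hd
  choose M X c z hXeq using htr
  set SC : Set (Cls (triv k C)) :=
    SC₀ ∪ ((Set.range fun j => (⟨p ^ M j * 2, X j⟩ : Cls (triv k C))) ∪
      ((⋃ j, Set.range fun i : Fin (M j) =>
        (⟨p ^ M j * 2 - p ^ (i : ℕ) * 2, res q (c j i)⟩ : Cls (triv k C))) ∪
        resCls q '' SZ)) with hSCdef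
  have hp1 : 1 < p := (Fact.out : p.Prime).one_lt
  have hSCf : SC.Finite := by
    refine hSC₀f.union ((Set.finite_range _).union (Set.Finite.union ?_ (hSZf.image _)))
    exact Set.finite_iUnion fun j => Set.finite_range _
  have hSCe : EvenPos SC := by
    rintro s (hs | ⟨j, rfl⟩ | (hs | ⟨s', hs', rfl⟩))
    · exact hSC₀e s hs
    · refine ⟨⟨p ^ M j, by ring⟩, ?_⟩
      have : 0 < p ^ M j := Nat.pos_of_ne_zero (pow_ne_zero _ (by omega))
      change 0 < p ^ M j * 2
      omega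
    · obtain ⟨j, i, rfl⟩ := Set.mem_iUnion.1 hs
      have hlt : p ^ (i : ℕ) < p ^ M j := Nat.pow_lt_pow_right hp1 i.2
      change Even (p ^ M j * 2 - p ^ (i : ℕ) * 2) ∧ 0 < p ^ M j * 2 - p ^ (i : ℕ) * 2
      refine ⟨⟨p ^ M j - p ^ (i : ℕ), ?_⟩, ?_⟩
      · omega
      · omega
    · exact hSZe s' hs'
  have hSA : EvenPos (Set.range fun j => (⟨2, cls₂ (y j)⟩ : Cls (triv k A))) := by
    rintro s ⟨j, rfl⟩
    exact ⟨⟨1, rfl⟩, two_pos⟩
  have hTA : EvenPos (resCls ι '' SC) := by
    rintro s ⟨s', hs', rfl⟩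
    exact hSCe s' hs'
  have hSTA : EvenPos ((Set.range fun j => (⟨2, cls₂ (y j)⟩ : Cls (triv k A))) ∪
      resCls ι '' SC) := by
    rintro s (hs | hs)
    · exact hSA s hs
    · exact hTA s hs
  have hGFA : (EGP k (triv k A) (triv k A)).GF (resCls ι '' SC) := by
    refine GOp.GF_of_nil_union (EGP k (triv k A) (triv k A)) _ (resCls ι '' SC)
      (Set.finite_range _) (fun s hs => (hSA s hs).2) (EGP_comm (triv k A) _ hSTA) ?_
      (hGFs.mono (Set.union_subset_union_right _ (Set.image_mono Set.subset_union_left)))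
    rintro s ⟨j, rfl⟩
    obtain ⟨N, hN⟩ := nil_of_trans p ι q r jj (fun a => hr a) SZ (hSZ _ (trv_finite k _)) SC hSCe
      (fun s hs => Or.inr (Or.inr (Or.inr hs))) (cls₂ (y j)) (X j) (Or.inr (Or.inl ⟨j, rfl⟩))
      (c j) (fun i => Or.inr (Or.inr (Or.inl (Set.mem_iUnion.2 ⟨j, i, rfl⟩)))) (z j) (hXeq j)
    refine ⟨N, fun a b h v => ?_⟩
    have hab : N * 2 + a = b := by
      simpa using h
    rw [word_replicate k (cls₂ (y j)) N rfl h hab v]
    exact Gen_comp k (resCls ι '' SC) _ hN v hab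
  exact FGC_of_classes hex hB SC hSCf hSCe fun N hN =>
    GN_of_GF_triv k A hA (resCls ι '' SC) (hSCf.image _) hTA hGFA N hN

end Pool.Agent.H26.FG
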