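import Pool.Agent.H26.FG.Inter
import Pool.Agent.H26.FG.GOpA

/-!
# Module Pw: powers of Ext classes
-/

open CategoryTheory Abelian TensorProduct
open scoped ModuleCat

universe u v w

namespace Pool.Agent.H26.FG

section General

variable {𝒜 : Type v} [Category.{w} 𝒜] [Abelian 𝒜] [HasExt.{u} 𝒜] {P : 𝒜}

/-- The power `s^q` in `Ext(P, P)`, of degree `q m`. -/
noncomputable def pw {m : ℕ} (s : Ext.{u} P P m) : (q : ℕ) → {n : ℕ} → (q * m = n) → Ext.{u} P P n
  | 0, n, h => by
      have hn : n = 0 := by rw [← h, Nat.zero_mul]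
      subst hn
      exact Ext.mk₀ (𝟙 P)
  | q + 1, n, h => s.comp (pw s q rfl) (by rw [← h, Nat.succ_mul, Nat.add_comm])

lemma pw_succ {m : ℕ} (s : Ext.{u} P P m) (q a n : ℕ) (h : q * m = a) (h' : (q + 1) * m = n)
    (h'' : m + a = n) : pw s (q + 1) h' = s.comp (pw s q h) h'' := by
  subst h
  rfl

lemma h87_pw_zero {m : ℕ} (s : Ext.{u} P P m) (h : 0 * m = 0) : pw s 0 h = Ext.mk₀ (𝟙 P) := rfl

lemma h87_pw_congr {m : ℕ} (s : Ext.{u} P P m) {q q' n : ℕ} (e : q = q') (h : q * m = n)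
    (h' : q' * m = n) : pw s q h = pw s q' h' := by
  subst e
  rfl

lemma pw_one {m : ℕ} (s : Ext.{u} P P m) (h : 1 * m = m) : pw s 1 h = s := by
  rw [pw_succ s 0 0 m (Nat.zero_mul m) h (Nat.add_zero m), h87_pw_zero, Ext.comp_mk₀_id]

lemma pw_add {m : ℕ} (s : Ext.{u} P P m) (a b n n' n'' : ℕ) (h : a * m = n) (h' : b * m = n')
    (h'' : n + n' = n'') (h3 : (a + b) * m = n'') :
    (pw s a h).comp (pw s b h') h'' = pw s (a + b) h3 := by
  induction a generalizing n n'' with
  | zero =>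
    obtain rfl : n = 0 := by rw [← h, Nat.zero_mul]
    obtain rfl : n'' = n' := by omega
    rw [h87_pw_zero, Ext.mk₀_id_comp]
    exact h87_pw_congr s (Nat.zero_add b).symm h' h3
  | succ a ih =>
    have e1 : m + a * m = n := by rw [← h, Nat.succ_mul, Nat.add_comm]
    rw [pw_succ s a (a * m) n rfl h e1]
    have e2 : m + (a * m + n') = n'' := by omega
    rw [Ext.comp_assoc s (pw s a rfl) (pw s b h') e1 rfl (by omega)]
    rw [ih (a * m) (a * m + n') rfl rfl (by rw [Nat.add_mul, h'])]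
    rw [← pw_succ s (a + b) (a * m + n') n'' (by rw [Nat.add_mul, h']) (by rw [← h3]; ring) e2]
    exact h87_pw_congr s (by omega) _ _

lemma h87_pw_mul {m : ℕ} (s : Ext.{u} P P m) (Q N a b : ℕ) (hQ : Q * m = a) (hN : N * a = b)
    (hc : (Q * N) * m = b) : pw (pw s Q hQ) N hN = pw s (Q * N) hc := by
  induction N generalizing b with
  | zero =>
    obtain rfl : b = 0 := by rw [← hN, Nat.zero_mul]
    rw [h87_pw_zero]
    exact (h87_pw_zero s (by simp)).symm.trans (h87_pw_congr s (by simp) _ _)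
  | succ N ih =>
    have e1 : (Q * N) * m = N * a := by rw [← hQ]; ring
    have e2 : a + N * a = b := by rw [← hN]; ring
    have e3 : (Q + Q * N) * m = b := by rw [← hc]; ring
    rw [pw_succ (pw s Q hQ) N (N * a) b rfl hN e2, ih (N * a) rfl e1,
      pw_add s Q (Q * N) a (N * a) b hQ e1 e2 e3]
    exact h87_pw_congr s (by ring) _ _

variable (k : Type u) [Field k] [Linear k 𝒜]

/-- Iterating the operator `s` is precomposition with `s^q`. -/
lemma word_replicate {N : 𝒜} {m : ℕ} (s : Ext.{u} P P m) (q : ℕ) {a b n : ℕ} (hn : q * m = n)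
    (h : ((List.replicate q (⟨m, s⟩ : Cls P)).map (fun t => t.1)).sum + a = b) (h' : n + a = b)
    (v : Ext.{u} P N a) :
    (EGP k P N).word (List.replicate q (⟨m, s⟩ : Cls P)) h v = (pw s q hn).comp v h' := by
  induction q generalizing b n with
  | zero =>
    obtain rfl : n = 0 := by rw [← hn, Nat.zero_mul]
    obtain rfl : b = a := by omega
    rw [h87_pw_zero, Ext.mk₀_id_comp]
    rfl
  | succ q ih =>
    have e1 : m + q * m = n := by rw [← hn, Nat.succ_mul, Nat.add_comm]
    have hs : ((List.replicate q (⟨m, s⟩ : Cls P)).map (fun t => t.1)).sum = q * m := by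
      simp
    have e2 : m + (((List.replicate q (⟨m, s⟩ : Cls P)).map (fun t => t.1)).sum + a) = b := by
      rw [hs]; omega
    have key : (EGP k P N).word (List.replicate (q + 1) (⟨m, s⟩ : Cls P)) h v =
        s.comp ((EGP k P N).word (List.replicate q (⟨m, s⟩ : Cls P)) rfl v) e2 := rfl
    have e3 : q * m + a = ((List.replicate q (⟨m, s⟩ : Cls P)).map (fun t => t.1)).sum + a := by
      rw [hs]
    rw [key, ih (n := q * m) rfl rfl e3, pw_succ s q (q * m) n rfl hn e1,
      Ext.comp_assoc s (pw s q rfl) v e1 e3 (by omega)]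

lemma comp_mem_Gen {N : 𝒜} (T : Set (Cls P)) {a b c : ℕ} (t : Ext.{u} P P a)
    (ht : (⟨a, t⟩ : Cls P) ∈ T) (v : Ext.{u} P N b) (h : a + b = c) :
    t.comp v h ∈ (EGP k P N).Gen T (fun _ => ⊤) c :=
  Submodule.subset_span ⟨⟨a, t⟩, ht, b, h, v, Submodule.mem_top, rfl⟩

/-- `Gen T ⊤` for `Ext(P, P)`, applied to `Ext(P, N)`. -/
lemma Gen_comp {N : 𝒜} (T : Set (Cls P)) {a b c : ℕ} (t : Ext.{u} P P a)
    (ht : t ∈ (EGP k P P).Gen T (fun _ => ⊤) a) (v : Ext.{u} P N b) (h : a + b = c) :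
    t.comp v h ∈ (EGP k P N).Gen T (fun _ => ⊤) c := by
  have h1 : (EGP k P P).Gen T (fun _ => ⊤) a ≤
      ((EGP k P N).Gen T (fun _ => ⊤) c).comap (Ext.postcompOfLinear v k P h) := by
    refine Submodule.span_le.2 ?_
    rintro z ⟨i, hi, a', h', w, -, rfl⟩
    have h' : i.1 + a' = a := h'
    change (i.2.comp w h').comp v h ∈ (EGP k P N).Gen T (fun _ => ⊤) c
    rw [Ext.comp_assoc i.2 w v h' (rfl : a' + b = a' + b) (by omega)]
    exact comp_mem_Gen k T i.2 hi _ _
  exact h1 ht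

end General

section Hopf

variable {k : Type u} [Field k] {H : Type u} [Ring H] [Bialgebra k H]

/-- Even classes may be moved inside `Gen T ⊤` (`T` even). -/
lemma comp_Gen {N : ModuleCat.{u} H} (T : Set (Cls (triv k H))) (hT : EvenPos T) {a b c : ℕ}
    (s : Ext (triv k H) (triv k H) a) (v : Ext (triv k H) N b)
    (hv : v ∈ (EGP k (triv k H) N).Gen T (fun _ => ⊤) b) (h : a + b = c) :
    s.comp v h ∈ (EGP k (triv k H) N).Gen T (fun _ => ⊤) c := by
  have h1 : (EGP k (triv k H) N).Gen T (fun _ => ⊤) b ≤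
      ((EGP k (triv k H) N).Gen T (fun _ => ⊤) c).comap (Ext.precompOfLinear s k N h) := by
    refine Submodule.span_le.2 ?_
    rintro z ⟨i, hi, b', h', w, -, rfl⟩
    have h' : i.1 + b' = b := h'
    change s.comp (i.2.comp w h') h ∈ (EGP k (triv k H) N).Gen T (fun _ => ⊤) c
    rw [← Ext.comp_assoc s i.2 w (rfl : a + i.1 = a + i.1) h' (by omega),
      ← comp_comm_of_even (hT i hi).1 i.2 s (by omega : i.1 + a = a + i.1) rfl,
      Ext.comp_assoc i.2 s w (by omega) (rfl : a + b' = a + b') (by omega)]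
    exact comp_mem_Gen k T i.2 hi _ _
  exact h1 hv

lemma res_pw {A : Type u} [Ring A] [Bialgebra k A] (f : A →ₐc[k] H) {m : ℕ}
    (s : Ext (triv k H) (triv k H) m) (q n : ℕ) (h : q * m = n) :
    res f (pw s q h) = pw (res f s) q h := by
  induction q generalizing n with
  | zero =>
    obtain rfl : n = 0 := by rw [← h, Nat.zero_mul]
    rw [h87_pw_zero, h87_pw_zero]
    exact resK_one _ _
  | succ q ih =>
    have e1 : m + q * m = n := by rw [← h, Nat.succ_mul, Nat.add_comm]
    rw [pw_succ s q (q * m) n rfl h e1, pw_succ (res f s) q (q * m) n rfl h e1, ← ih (q * m) rfl]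
    exact resK_comp _ _ _ _ _

/-- powers modulo the ideal generated by `T` -/
lemma h87_pw_mod (T : Set (Cls (triv k H))) (hT : EvenPos T) {N a b : ℕ}
    (x t w : Ext (triv k H) (triv k H) a) (h : x = t + w)
    (ht : t ∈ (EGP k (triv k H) (triv k H)).Gen T (fun _ => ⊤) a) (hN : N * a = b) :
    pw x N hN - pw w N hN ∈ (EGP k (triv k H) (triv k H)).Gen T (fun _ => ⊤) b := by
  induction N generalizing b with
  | zero =>
    obtain rfl : b = 0 := by rw [← hN, Nat.zero_mul]
    rw [h87_pw_zero, h87_pw_zero, sub_self]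
    exact Submodule.zero_mem _
  | succ N ih =>
    have e1 : a + N * a = b := by rw [← hN, Nat.succ_mul, Nat.add_comm]
    rw [pw_succ x N (N * a) b rfl hN e1, pw_succ w N (N * a) b rfl hN e1]
    have e2 : x.comp (pw x N rfl) e1 - w.comp (pw w N rfl) e1 =
        t.comp (pw x N rfl) e1 + w.comp (pw x N rfl - pw w N rfl) e1 := by
      have e3 : w.comp (pw x N rfl - pw w N rfl) e1 =
          w.comp (pw x N rfl) e1 - w.comp (pw w N rfl) e1 :=
        map_sub (Ext.precompOfLinear w k (triv k H) e1) _ _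
      have e4 : x.comp (pw x N rfl) e1 = t.comp (pw x N rfl) e1 + w.comp (pw x N rfl) e1 := by
        conv_lhs => rw [h]
        rw [Ext.add_comp, ← h]
      rw [e3, e4]
      abel
    rw [e2]
    exact Submodule.add_mem _ (Gen_comp k T t ht _ e1) (comp_Gen T hT w _ (ih rfl) e1)

/-- Nilpotency modulo the ideal generated by `T`: suppose `s^Q = t + w` with
`t ∈ Gen T ⊤` and `w^N ∈ Gen T ⊤` (everything even). Then `s^{Q N} ∈ Gen T ⊤`. -/
theorem nil_mod (T : Set (Cls (triv k H))) (hT : EvenPos T) {m Q N a b c : ℕ} (hm : Even m)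
    (s : Ext (triv k H) (triv k H) m) (hQ : Q * m = a) (t w : Ext (triv k H) (triv k H) a)
    (h : pw s Q hQ = t + w) (ht : t ∈ (EGP k (triv k H) (triv k H)).Gen T (fun _ => ⊤) a)
    (hN : N * a = b) (hw : pw w N hN ∈ (EGP k (triv k H) (triv k H)).Gen T (fun _ => ⊤) b)
    (hc : (Q * N) * m = c) :
    pw s (Q * N) hc ∈ (EGP k (triv k H) (triv k H)).Gen T (fun _ => ⊤) c := by
  obtain rfl : b = c := by rw [← hN, ← hc, ← hQ]; ring
  rw [← h87_pw_mul s Q N a b hQ hN hc]
  have h2 : pw (pw s Q hQ) N hN = (pw (pw s Q hQ) N hN - pw w N hN) + pw w N hN :=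
    (sub_add_cancel _ _).symm
  rw [h2]
  exact Submodule.add_mem _ (h87_pw_mod T hT (pw s Q hQ) t w h ht hN) hw

end Hopf

end Pool.Agent.H26.FG
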