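import Pool.Agent.H26.FG.LXex
import Pool.Agent.H26.FG.LX
import Pool.Agent.H26.FG.Coll
import Pool.Agent.H26.FG.KT
import Pool.Agent.H26.FG.FgcA
import Pool.Agent.H26.FG.FgcB

/-!
# Module T0p: the main descent theorem
-/

open CategoryTheory Abelian TensorProduct
open scoped ModuleCat

universe u

namespace Pool.Agent.H26.FG

variable {k : Type u} [Field k]

/-- Restriction of a homogeneous class along a bialgebra homomorphism. -/
noncomputable def resCls {A C : Type u} [Ring A] [Bialgebra k A] [Ring C] [Bialgebra k C]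
    (f : A →ₐc[k] C) (s : Cls (triv k C)) : Cls (triv k A) := ⟨s.1, res f s.2⟩

variable {A C B : Type u} [Ring A] [HopfAlgebra k A] [Module.Finite k A]
  [Ring C] [HopfAlgebra k C] [Module.Finite k C] [Ring B] [HopfAlgebra k B] [Module.Finite k B]

omit [Module.Finite k A] [Module.Finite k C] [Module.Finite k B] in
/-- `ker π` as the span of the products `c' ι(a)`, `ε(a) = 0`. -/
theorem h98_span {ι : A →ₐc[k] C} {π : C →ₐc[k] B} (hex : HopfExact ι π) (c : C) (hc : π c = 0) :
    c ∈ Submodule.span k {x : C | ∃ (c' : C) (a : A), Bialgebra.counitAlgHom k A a = 0 ∧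
      x = c' * (ι : A →ₐ[k] C) a} := by
  have h := (hex.ker c).1 hc
  refine Submodule.span_induction (p := fun x _ => x ∈ Submodule.span k {x : C | ∃ (c' : C) (a : A),
    Bialgebra.counitAlgHom k A a = 0 ∧ x = c' * (ι : A →ₐ[k] C) a}) ?_ ?_ ?_ ?_ h
  · rintro _ ⟨a, ha, rfl⟩
    refine Submodule.subset_span ⟨1, a, ha, ?_⟩
    rw [one_mul]
    rfl
  · exact Submodule.zero_mem _
  · intro x y _ _ hx hy
    exact Submodule.add_mem _ hx hy
  · intro r x _ hx
    refine Submodule.span_induction (p := fun x _ => r • x ∈ Submodule.span k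
      {x : C | ∃ (c' : C) (a : A), Bialgebra.counitAlgHom k A a = 0 ∧
      x = c' * (ι : A →ₐ[k] C) a}) ?_ ?_ ?_ ?_ hx
    · rintro _ ⟨c', a, ha, rfl⟩
      refine Submodule.subset_span ⟨r * c', a, ha, ?_⟩
      rw [smul_eq_mul, mul_assoc]
    · rw [smul_zero]
      exact Submodule.zero_mem _
    · intro x y _ _ hx hy
      rw [smul_add]
      exact Submodule.add_mem _ hx hy
    · intro t x _ hx
      rw [smul_comm]
      exact Submodule.smul_mem _ _ hx

/-- The class `e_n` shifts dimensions also over a subalgebra. -/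
theorem h98_eN_res {A C : Type u} [Ring A] [Algebra k A] [Ring C] [Algebra k C]
    (f : A →ₐ[k] C) {r : ℕ} (w : Fin r → C) (φ : Fin r → C →ₗ[k] A)
    (h1 : ∀ i c a, φ i (c * f a) = φ i c * a) (h2 : ∀ c, ∑ i, w i * f (φ i c) = c)
    (P : ModuleCat.{u} A) (N : ModuleCat.{u} C) (n : ℕ) :
    DimShift P ((eN k N n).mapExactFunctor (resF f.toRingHom)) := by
  induction n with
  | zero =>
    have e : (eN k N 0).mapExactFunctor (resF f.toRingHom) =
        Ext.mk₀ (𝟙 ((resF f.toRingHom).obj N)) :=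
      (Ext.mapExactFunctor_mk₀ _ _).trans (congrArg Ext.mk₀ ((resF f.toRingHom).map_id N))
    rw [e]
    exact DimShift.mk₀ (𝟙 ((resF f.toRingHom).obj N))
  | succ n ih =>
    have e : (eN k N (n + 1)).mapExactFunctor (resF f.toRingHom) =
        (((coS_shortExact k ((Qn k n).obj N)).map_of_exact (resF f.toRingHom)).extClass).comp
          ((eN k N n).mapExactFunctor (resF f.toRingHom)) (Nat.add_comm 1 n) := by
      rw [← Ext.mapExactFunctor_extClass]
      exact Ext.mapExactFunctor_comp _ _ _ _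
    rw [e]
    have : Injective ((coS k ((Qn k n).obj N)).map (resF f.toRingHom)).X₂ :=
      resF_FF_injective k f w φ h1 h2 _
    exact (DimShift.extClass_of_injective P _ _).comp ih _

theorem h98_fin_iso {C : Type u} [Ring C] [Algebra k C] {X Y : ModuleCat.{u} C} (i : X ≅ Y)
    (h : Module.Finite k Y) : Module.Finite k X := by
  have hi : Function.Injective (i.hom.hom.restrictScalars k) :=
    (ModuleCat.mono_iff_injective i.hom).1 inferInstance
  exact Module.Finite.of_injective (i.hom.hom.restrictScalars k) hi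

theorem h98_fin_res {A C : Type u} [Ring A] [Algebra k A] [Ring C] [Algebra k C]
    (f : A →ₐ[k] C) (N : ModuleCat.{u} C) (h : Module.Finite k N) :
    Module.Finite k ((resF f.toRingHom).obj N) := by
  let φ : ((resF f.toRingHom).obj N) →ₗ[k] N :=
    { toFun := fun n => (show N from n)
      map_add' := fun n n' => rfl
      map_smul' := fun c n => by
        have h1 : (c • n : (resF f.toRingHom).obj N) = algebraMap k A c • n :=
          (algebraMap_smul A c n).symm
        have h2 : (algebraMap k A c • n : (resF f.toRingHom).obj N) =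
          f (algebraMap k A c) • (show N from n) := rfl
        rw [RingHom.id_apply, h1, h2, AlgHom.commutes]
        exact algebraMap_smul C c _ }
  exact Module.Finite.of_injective φ fun _ _ h => h

section

variable {C B : Type u} [Ring C] [Algebra k C] [Ring B] [Algebra k B] {εC : C →ₐ[k] k}
  {εB : B →ₐ[k] k}

/-- Inflation and a morphism, as a linear map. -/
noncomputable def h98_infl (g : C →ₐ[k] B) (hg : εB.comp g = εC) (W : ModuleCat.{u} B)
    (N : ModuleCat.{u} C) (j : (resF g.toRingHom).obj W ⟶ N) (n : ℕ) :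
    Ext (trv εB) W n →ₗ[k] Ext (trv εC) N n where
  toFun z := (resX g hg z).comp (Ext.mk₀ j) (add_zero n)
  map_add' x y := by rw [resX_add, Ext.add_comp]
  map_smul' c x := by rw [resX_smul, Ext.smul_comp, RingHom.id_apply]

theorem h98_infl_comp (g : C →ₐ[k] B) (hg : εB.comp g = εC) (W : ModuleCat.{u} B)
    (N : ModuleCat.{u} C) (j : (resF g.toRingHom).obj W ⟶ N) {m a b : ℕ} (h : m + a = b)
    (x : Ext (trv εB) (trv εB) m) (v : Ext (trv εB) W a) :
    h98_infl g hg W N j b (x.comp v h) = (resK g hg x).comp (h98_infl g hg W N j a v) h := by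
  show (resX g hg (x.comp v h)).comp (Ext.mk₀ j) (add_zero b) =
    (resK g hg x).comp ((resX g hg v).comp (Ext.mk₀ j) (add_zero a)) h
  rw [resX_comp]
  exact hLX_assoc _ _ _ h (add_zero b) (add_zero a) h

theorem h98_GN_infl (g : C →ₐ[k] B) (hg : εB.comp g = εC) (W : ModuleCat.{u} B)
    (N : ModuleCat.{u} C) (j : (resF g.toRingHom).obj W ⟶ N) (SB : Set (Cls (trv εB)))
    (φ : Cls (trv εB) → Cls (trv εC)) (hφ : ∀ s, φ s = ⟨s.1, resK g hg s.2⟩)
    (hz : ∀ (n : ℕ) (z : Ext (trv εC) N n), ∃ z' : Ext (trv εB) W n,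
      (resX g hg z').comp (Ext.mk₀ j) (add_zero n) = z)
    (h : (EGP k (trv εB) W).GN SB) : (EGP k (trv εC) N).GN (φ '' SB) := by
  obtain rfl : φ = fun s => ⟨s.1, resK g hg s.2⟩ := funext hφ
  refine GOp.GN_of_surjective (V' := EGP k (trv εB) W) (V := EGP k (trv εC) N) (S' := SB)
    (fun s => ⟨s.1, resK g hg s.2⟩) (fun i hi => ⟨i, hi, rfl⟩) (fun i => rfl)
    (fun n => h98_infl g hg W N j n) ?_ 0 ?_ h
  · intro i hi a b h h' v
    exact h98_infl_comp g hg W N j h i.2 v
  · intro n _ z
    exact hz n z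

end

/-- The case of an `A`-acyclic module in high degrees: if `Ext_A^n(k, N) = 0` for `n > n₀` then
`Ext_C(k, N)` is noetherian over the inflations of `SB`. (Pass to `Q^{n₀} N` by `EGP_GN_dimShift`,
then `collapse` and `GN_of_surjective`.) -/
theorem T0_base {ι : A →ₐc[k] C} {π : C →ₐc[k] B} (hex : HopfExact ι π)
    (SB : Set (Cls (triv k B)))
    (hB : ∀ W : ModuleCat.{u} B, Module.Finite k W → (EGP k (triv k B) W).GN SB)
    (N : ModuleCat.{u} C) (hN : Module.Finite k N)
    (hA : (EGP k (triv k A) ((resF (ι : A →ₐ[k] C).toRingHom).obj N)).GN ∅) :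
    (EGP k (triv k C) N).GN (resCls π '' SB) := by
  obtain ⟨r, w, φ, h1, h2⟩ := hex.exists_dual_basis_right
  obtain ⟨n₀, hn₀⟩ := (GOp.GN_empty_iff _).1 hA
  have hsh := h98_eN_res (ι : A →ₐ[k] C) w φ h1 h2 (triv k A) N n₀
  have hacyc : ∀ (n : ℕ) (v : Ext (triv k A)
      ((resF (ι : A →ₐ[k] C).toRingHom).obj ((Qn k n₀).obj N)) (n + 1)), v = 0 := by
    intro n v
    refine hsh.inj (n + 1) (n + 1 + n₀) rfl (by omega) v 0 ?_
    rw [Ext.zero_comp]
    exact hn₀ (n + 1 + n₀) (by omega) _
  obtain ⟨W, j, hW, hz⟩ := collapse k (Bialgebra.counitAlgHom k A) (Bialgebra.counitAlgHom k C)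
    (Bialgebra.counitAlgHom k B) (ι : A →ₐ[k] C) ι.counitAlgHom_comp (π : C →ₐ[k] B)
    π.counitAlgHom_comp hex.surj (fun c hc => h98_span hex c hc) (by
      intro c a ha
      refine h98_span hex _ ?_
      have h3 : π (ι a) = 0 := (hex.ker _).2 (Ideal.subset_span ⟨a, ha, rfl⟩)
      have h4 : π (ι a * c) = π (ι a) * π c := map_mul π _ _
      rw [h3, zero_mul] at h4
      exact h4) (by
      intro a ha
      exact (hex.ker _).2 (Ideal.subset_span ⟨a, ha, rfl⟩))
    (fun N => resF_FF_injective k (ι : A →ₐ[k] C) w φ h1 h2 N) ((Qn k n₀).obj N) hacyc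
  have hQ : (EGP k (triv k C) ((Qn k n₀).obj N)).GN (resCls π '' SB) :=
    h98_GN_infl (π : C →ₐ[k] B) π.counitAlgHom_comp W _ j SB (resCls π) (fun _ => rfl) hz
      (hB W (hW (Qn_finite k N hN n₀)))
  exact (EGP_GN_dimShift k (eN k N n₀) (eN_dimShift k (triv k C) N n₀) _).1 hQ

/-- Main descent theorem: `SC` a finite set of even classes in `Ext_C(k,k)`, `SB` a finite set of
even classes in `Ext_B(k,k)`; if `Ext_A(k, N)` is noetherian over the restrictions of `SC` and all
`Ext_B(k, W)` are noetherian over `SB`, then `Ext_C(k, N)` is noetherian over `SC` and the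
inflations of `SB`. Induction on `SC` (`Set.Finite.induction_on`), for all `N`: for `x ∈ SC`,
`x ≠ 0`, take `S`, `e` from `exists_LX`; `LX_claimA` over `A`, the induction hypothesis for
`S.X₃`, `LX_claimN` and `GN_of_GF_even` over `C`, and `EGP_GN_iso`. If `x = 0` use `GN.drop_zero`. -/
theorem T0_prime {ι : A →ₐc[k] C} {π : C →ₐc[k] B} (hex : HopfExact ι π)
    (SC : Set (Cls (triv k C))) (hSC : SC.Finite) (hSC' : EvenPos SC)
    (SB : Set (Cls (triv k B))) (hSB : SB.Finite) (hSB' : EvenPos SB)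
    (hB : ∀ W : ModuleCat.{u} B, Module.Finite k W → (EGP k (triv k B) W).GN SB)
    (N : ModuleCat.{u} C) (hN : Module.Finite k N)
    (hA : (EGP k (triv k A) ((resF (ι : A →ₐ[k] C).toRingHom).obj N)).GN (resCls ι '' SC)) :
    (EGP k (triv k C) N).GN (SC ∪ resCls π '' SB) := by
  obtain ⟨r, w, φ, h1, h2⟩ := hex.exists_dual_basis_right
  obtain ⟨-, -, -, -, hSbij⟩ := larson_sweedler k C
  induction SC, hSC using Set.Finite.induction_on generalizing N with
  | empty =>
    rw [Set.image_empty] at hA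
    rw [Set.empty_union]
    exact T0_base hex SB hB N hN hA
  | @insert x SC' hx hfin ih =>
    have hev' : EvenPos SC' := fun s hs => hSC' s (Set.mem_insert_of_mem x hs)
    have hset : resCls ι '' (insert x SC') = resCls ι '' SC' ∪ {resCls ι x} := by
      rw [Set.image_insert_eq, Set.insert_eq, Set.union_comm]
    rw [hset] at hA
    by_cases hx0 : x.2 = 0
    · have hA' : (EGP k (triv k A) ((resF (ι : A →ₐ[k] C).toRingHom).obj N)).GN
          (resCls ι '' SC') := by
        refine GOp.GN.drop_zero hA ?_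
        rintro i rfl a b hab v
        change Ext (triv k A) _ a at v
        have hab : x.1 + a = b := hab
        show (res ι x.2).comp v hab = 0
        rw [hx0]
        have e0 : res ι (0 : Ext (triv k C) (triv k C) x.1) = 0 := resK_zero _ _
        rw [e0, Ext.zero_comp]
      exact GOp.GN.mono (Set.union_subset_union_left _ (Set.subset_insert _ _))
        (ih hev' N hN hA')
    · obtain ⟨S, hS, i, e, he, heA, hc, hcA, hfinS⟩ := exists_LX k (ι : A →ₐc[k] C) hSbij w φ h1 h2
        (hSC' x (Set.mem_insert _ _)).1 (hSC' x (Set.mem_insert _ _)).2 x.2 hx0 N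
      have hA1 : (EGP k (triv k A) ((S.map (resF (ι : A →ₐ[k] C).toRingHom)).X₁)).GN
          (resCls ι '' SC' ∪ {resCls ι x}) :=
        (EGP_GN_iso k ((resF (ι : A →ₐ[k] C).toRingHom).mapIso i) _).2 hA
      have hA2 := LX_claimA k (S.map (resF (ι : A →ₐ[k] C).toRingHom))
        (hS.map_of_exact (resF (ι : A →ₐ[k] C).toRingHom)) (hSC' x (Set.mem_insert _ _)).2
        (res ι x.2) (e.mapExactFunctor (resF (ι : A →ₐ[k] C).toRingHom)) heA hcA
        (resCls ι '' SC') hA1
      have hC3 : (EGP k (triv k C) S.X₃).GN (SC' ∪ resCls π '' SB) :=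
        ih hev' S.X₃ (hfinS hN) hA2
      have hGF := LX_claimN k S hS (hSC' x (Set.mem_insert _ _)).2 x.2 e he hc _ hC3
      have hN1 : Module.Finite k S.X₁ := h98_fin_iso i hN
      have hset2 : (SC' ∪ resCls π '' SB) ∪ {x} = insert x SC' ∪ resCls π '' SB := by
        rw [Set.insert_eq, Set.union_comm, Set.union_assoc]
      have hGF' : (EGP k (triv k C) S.X₁).GF (insert x SC' ∪ resCls π '' SB) := by
        rw [← hset2]
        exact hGF
      have hGN := GN_of_GF_even k C (insert x SC' ∪ resCls π '' SB)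
        ((hfin.insert x).union (hSB.image _)) (by
          rintro s (hs | ⟨s, hs, rfl⟩)
          · exact hSC' s hs
          · exact hSB' s hs) S.X₁ hN1 hGF'
      exact (EGP_GN_iso k i _).1 hGN

/-- FGC for `C` from classes of `C`. -/
theorem FGC_of_classes {ι : A →ₐc[k] C} {π : C →ₐc[k] B} (hex : HopfExact ι π) (hB : FGC k B)
    (SC : Set (Cls (triv k C))) (hSC : SC.Finite) (hSC' : EvenPos SC)
    (hA : ∀ N : ModuleCat.{u} A, Module.Finite k N →
      (EGP k (triv k A) N).GN (resCls ι '' SC)) : FGC k C := by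
  obtain ⟨SB, hSB, hSB', hBW⟩ := FGC_GN k B hB
  refine FGC_of_GF k C (SC ∪ resCls π '' SB) (hSC.union (hSB.image _)) ?_ ?_
  · rintro s (hs | ⟨s, hs, rfl⟩)
    · exact (hSC' s hs).2
    · exact (hSB' s hs).2
  · intro N hN
    exact (T0_prime hex SC hSC hSC' SB hSB hSB' hBW N hN
      (hA _ (h98_fin_res (ι : A →ₐ[k] C) N hN))).gf

end Pool.Agent.H26.FG
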