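import Pool.Agent.H26.FG.CHa

/-!
# Module T1M: central extensions over every field
-/

open CategoryTheory Abelian TensorProduct Coalgebra HopfAlgebra
open scoped ModuleCat

universe u

namespace Pool.Agent.H26.FG

variable {k : Type u} [Field k]

/-- Factorisation of a homomorphism of Hopf algebras through a surjective one. -/
theorem T1M_factor {C D B : Type u} [Ring C] [HopfAlgebra k C] [Ring D] [HopfAlgebra k D]
    [Ring B] [HopfAlgebra k B] (q : C →ₐc[k] D) (hq : Function.Surjective q) (π : C →ₐc[k] B)
    (h : ∀ c, q c = 0 → π c = 0) : ∃ π' : D →ₐc[k] B, ∀ c, π' (q c) = π c := by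
  let f : D → B := fun d => π (Function.surjInv hq d)
  have hf : ∀ c, f (q c) = π c := by
    intro c
    have h1 : q (Function.surjInv hq (q c) - c) = 0 := by
      rw [map_sub, Function.surjInv_eq hq, sub_self]
    have h2 := h _ h1
    rw [map_sub, sub_eq_zero] at h2
    exact h2
  let F : D →ₐ[k] B :=
    { toFun := f
      map_one' := by rw [← map_one q, hf, map_one]
      map_mul' := fun x y => by
        obtain ⟨a, rfl⟩ := hq x
        obtain ⟨b, rfl⟩ := hq y
        rw [← map_mul, hf, hf, hf, map_mul]
      map_zero' := by rw [← map_zero q, hf, map_zero]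
      map_add' := fun x y => by
        obtain ⟨a, rfl⟩ := hq x
        obtain ⟨b, rfl⟩ := hq y
        rw [← map_add, hf, hf, hf, map_add]
      commutes' := fun r => by
        have h3 : q (algebraMap k C r) = algebraMap k D r := AlgHomClass.commutes q r
        change f _ = _
        rw [← h3, hf]
        exact AlgHomClass.commutes π r }
  have hF : ∀ c, F (q c) = π c := hf
  refine ⟨BialgHom.ofAlgHom F ?_ ?_, hF⟩
  · refine AlgHom.ext fun x => ?_
    obtain ⟨a, rfl⟩ := hq x
    change counit (R := k) (F (q a)) = counit (R := k) (q a)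
    rw [hF, h85_counit, h85_counit]
  · refine AlgHom.ext fun x => ?_
    obtain ⟨a, rfl⟩ := hq x
    change TensorProduct.map F.toLinearMap F.toLinearMap (comul (R := k) (q a)) =
      comul (R := k) (F (q a))
    rw [hF, h85_comul, h85_comul]
    have h4 : (TensorProduct.map F.toLinearMap F.toLinearMap) ∘ₗ
        (TensorProduct.map (AlgHomClass.toAlgHom q).toLinearMap
          (AlgHomClass.toAlgHom q).toLinearMap) =
        TensorProduct.map (AlgHomClass.toAlgHom π).toLinearMap
          (AlgHomClass.toAlgHom π).toLinearMap := by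
      refine TensorProduct.ext' fun x y => ?_
      simp only [LinearMap.comp_apply, TensorProduct.map_tmul]
      change F (q x) ⊗ₜ[k] F (q y) = π x ⊗ₜ[k] π y
      rw [hF, hF]
    exact LinearMap.congr_fun h4 _

/-- The adjoint action on a central element is trivial. -/
theorem T1M_adl {C : Type u} [Ring C] [HopfAlgebra k C] (c x : C) (hx : ∀ c, x * c = c * x) :
    adl k c x = counit (R := k) c • x := by
  have h1 : ∀ t : C ⊗[k] C, LinearMap.mul' k C (TensorProduct.map (LinearMap.mulRight k x)
      (antipode k) t) = x * LinearMap.mul' k C (LinearMap.lTensor C (antipode k) t) := by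
    intro t
    induction t using TensorProduct.induction_on with
    | zero => simp
    | tmul a b =>
      simp only [TensorProduct.map_tmul, LinearMap.mulRight_apply, LinearMap.mul'_apply,
        LinearMap.lTensor_tmul]
      rw [← mul_assoc, hx]
    | add a b ha hb => rw [map_add, map_add, map_add, map_add, mul_add, ha, hb]
  rw [adl, h1, HopfAlgebra.mul_antipode_lTensor_comul_apply, Algebra.smul_def, hx]

theorem T1M_adr {C : Type u} [Ring C] [HopfAlgebra k C] (c x : C) (hx : ∀ c, x * c = c * x) :
    adr k c x = counit (R := k) c • x := by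
  have h1 : ∀ t : C ⊗[k] C, LinearMap.mul' k C (TensorProduct.map (LinearMap.mulRight k x ∘ₗ
      antipode k) LinearMap.id t) =
      x * LinearMap.mul' k C (LinearMap.rTensor C (antipode k) t) := by
    intro t
    induction t using TensorProduct.induction_on with
    | zero => simp
    | tmul a b =>
      simp only [TensorProduct.map_tmul, LinearMap.mulRight_apply, LinearMap.mul'_apply,
        LinearMap.rTensor_tmul, LinearMap.comp_apply, LinearMap.id_apply]
      rw [← mul_assoc, hx]
    | add a b ha hb => rw [map_add, map_add, map_add, map_add, mul_add, ha, hb]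
  rw [adr, h1, HopfAlgebra.mul_antipode_rTensor_comul_apply, Algebra.smul_def, hx]

/-- The case in which the augmentation ideal of `A` is idempotent. -/
theorem T1M_idem {A C B : Type u} [Ring A] [HopfAlgebra k A] [Module.Finite k A]
    [Ring C] [HopfAlgebra k C] [Module.Finite k C] [Ring B] [HopfAlgebra k B] [Module.Finite k B]
    {ι : A →ₐc[k] C} {π : C →ₐc[k] B} (hex : HopfExact ι π)
    (hcomm : ∀ a b : A, a * b = b * a) (hB : FGC k B)
    (h : ∀ a : A, counit (R := k) a = 0 → a ∈ Submodule.span k
      {x | ∃ b c : A, counit (R := k) b = 0 ∧ counit (R := k) c = 0 ∧ x = b * c}) : FGC k C := by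
  refine FGC_of_classes hex hB ∅ Set.finite_empty (fun s hs => absurd hs (Set.notMem_empty s))
    fun N _ => ?_
  rw [Set.image_empty]
  exact GN_empty_of_idem hcomm h N

/-- (T1) Central extensions, every field. Induction on `dim A`.
If `A⁺ = (A⁺)²`: `FGC_of_classes` with `SC = ∅` and `GN_empty_of_idem`. This is the case in
characteristic 0 (`aug_idem_of_charZero`). In characteristic `p` use `exists_frobenius`; in the
second case `A₁ → C` is exact with quotient `C₁ = C / C A₁⁺` (`exists_exact_of_normal`; central
subalgebras are normal), `π` factors through `C₁`, the image `I` of `A` in `C₁` (`exists_image`,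
`exact_image`) is central of height one, so `CH1` gives FGC for `C₁`; the induction hypothesis
applies to `A₁ → C → C₁`. -/
theorem T1_main {A C B : Type u} [Ring A] [HopfAlgebra k A] [Module.Finite k A]
    [Ring C] [HopfAlgebra k C] [Module.Finite k C] [Ring B] [HopfAlgebra k B] [Module.Finite k B]
    {ι : A →ₐc[k] C} {π : C →ₐc[k] B} (hex : HopfExact ι π)
    (hcentral : ∀ (a : A) (c : C), ι a * c = c * ι a) (hB : FGC k B) : FGC k C := by
  obtain ⟨n, hn⟩ : ∃ n, Module.finrank k A = n := ⟨_, rfl⟩
  induction n using Nat.strong_induction_on generalizing A C B with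
  | _ n ih =>
  have hcomm : ∀ a b : A, a * b = b * a := fun a b =>
    hex.inj (by rw [map_mul, map_mul, hcentral])
  obtain ⟨p, hp⟩ := CharP.exists k
  rcases CharP.char_is_prime_or_zero k p with hpp | h0
  · have : Fact p.Prime := ⟨hpp⟩
    rcases exists_frobenius (k := k) (A := A) p hcomm with h | ⟨A₁, _, _, _, j, hj, hlt, hfr⟩
    · exact T1M_idem hex hcomm hB h
    · have hcen : ∀ (a : A₁) (c : C), (ι.comp j) a * c = c * (ι.comp j) a :=
        fun a c => hcentral (j a) c
      have hinj : Function.Injective (ι.comp j) := hex.inj.comp hj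
      obtain ⟨D, _, _, _, π₁, hex₁⟩ := exists_exact_of_normal (ι.comp j) hinj
        (fun c a => ⟨counit (R := k) c • a, by
          rw [map_smul, T1M_adl c _ (hcen a)]⟩)
        (fun c a => ⟨counit (R := k) c • a, by
          rw [map_smul, T1M_adr c _ (hcen a)]⟩)
      obtain ⟨π', hπ'⟩ := T1M_factor π₁ hex₁.surj π (by
        intro c hc
        rw [hex₁.ker] at hc
        rw [hex.ker]
        refine Ideal.span_mono ?_ hc
        rintro _ ⟨a, ha, rfl⟩
        exact ⟨j a, (h85_counit j a).trans ha, rfl⟩)
      obtain ⟨I, _, _, _, q, jj, hq, hjj, hqj⟩ := exists_image (π₁.comp ι)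
      have hex₂ : HopfExact jj π' :=
        exact_image hex π₁ hex₁.surj π' hπ' q jj hq hjj hqj
      have hD : FGC k D := by
        refine CH1 p hex₂ ?_ ?_ hB
        · intro i d
          obtain ⟨a, rfl⟩ := hq i
          obtain ⟨c, rfl⟩ := hex₁.surj d
          rw [hqj]
          change π₁ (ι a) * π₁ c = π₁ c * π₁ (ι a)
          rw [← map_mul, ← map_mul, hcentral]
        · intro i hi
          obtain ⟨a, rfl⟩ := hq i
          rw [h85_counit] at hi
          apply hjj
          rw [← map_pow, hqj, map_zero]
          obtain ⟨a₁, ha₁⟩ := hfr a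
          change π₁ (ι (a ^ p)) = 0
          rw [← ha₁]
          change π₁ ((ι.comp j) a₁) = 0
          rw [hex₁.ker]
          refine Ideal.subset_span ⟨a₁, ?_, rfl⟩
          change counit (R := k) a₁ = 0
          rw [← h85_counit j a₁, ha₁]
          have h5 : counit (R := k) (a ^ p) = (counit (R := k) a) ^ p :=
            map_pow (Bialgebra.counitAlgHom k A) a p
          rw [h5, hi, zero_pow hpp.ne_zero]
      exact ih _ (hn ▸ hlt) hex₁ hcen hD rfl
  · subst h0
    have : CharZero k := CharP.charP_to_charZero k
    exact T1M_idem hex hcomm hB (aug_idem_of_charZero hcomm)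

end Pool.Agent.H26.FG
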