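import Pool.Agent.H26.FG.Defs

open CategoryTheory Abelian TensorProduct
open scoped ModuleCat

universe u

namespace Pool.Agent.H26.FG

variable {k : Type u} [Field k] {A C B : Type u} [Ring A] [HopfAlgebra k A] [Module.Finite k A]
  [Ring C] [HopfAlgebra k C] [Module.Finite k C] [Ring B] [HopfAlgebra k B] [Module.Finite k B]

/-- (T0) -/
theorem target_T0 (ι : A →ₐc[k] C) (π : C →ₐc[k] B) (hex : HopfExact ι π)
    (hA : FGC k A) (hB : FGC k B) :
    FGC k C ↔ ∃ G : Set (Σ n : ℕ, Ext (triv k A) (triv k A) n), G.Finite ∧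
      ∀ V : (n : ℕ) → Submodule k (Ext (triv k A) (triv k A) n), (∀ g ∈ G, g.2 ∈ V g.1) →
        (∀ (a b c : ℕ) (h : a + b = c) (x : Ext (triv k C) (triv k C) a)
          (y : Ext (triv k A) (triv k A) b), y ∈ V b → (res ι x).comp y h ∈ V c) →
        ∀ n, V n = ⊤ := by
  sorry

/-- (T1) -/
theorem target_T1 (ι : A →ₐc[k] C) (π : C →ₐc[k] B) (hex : HopfExact ι π)
    (hcentral : ∀ (a : A) (c : C), ι a * c = c * ι a) (hB : FGC k B) : FGC k C := by
  sorry

/-- (M) -/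
theorem target_M (p : ℕ) [Fact p.Prime] [CharP k p]
    (ι : A →ₐc[k] C) (π : C →ₐc[k] B) (hex : HopfExact ι π)
    (hA : FGC k A) (hB : FGC k B) (h1 : TrivH1 ι)
    {J : Type} [Finite J] (x : J → Cocycle₂ (Bialgebra.counitAlgHom k A))
    (h2 : ∀ j, InvClass ι (x j))
    (h3 : ∃ G : Set (Σ n : ℕ, Ext (triv k A) (triv k A) n), G.Finite ∧
      ∀ V : (n : ℕ) → Submodule k (Ext (triv k A) (triv k A) n), (∀ g ∈ G, g.2 ∈ V g.1) →
        (∀ (j : J) (b c : ℕ) (h : 2 + b = c) (y : Ext (triv k A) (triv k A) b),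
          y ∈ V b → (cls₂ (x j)).comp y h ∈ V c) →
        ∀ n, V n = ⊤) : FGC k C := by
  sorry

end Pool.Agent.H26.FG
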