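import Pool.Agent.H26.FG.Kudo
import Pool.Agent.H26.FG.Br3
import Pool.Agent.H26.FG.Br4
import Pool.Agent.H26.FG.Link
import Pool.Agent.H26.FG.Pw

/-!
# Module TrC: the transgression argument on cochains
-/

open CategoryTheory Abelian TensorProduct Coalgebra
open scoped ModuleCat

universe u

namespace Pool.Agent.H26.FG

variable {k : Type u} [Field k] {A C D : Type u} [Ring A] [Bialgebra k A] [Module.Finite k A]
  [Ring C] [Bialgebra k C] [Module.Finite k C] [Ring D] [Bialgebra k D] [Module.Finite k D]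

/-- Powers of cocycles. -/
lemma pow_mem_Zc {m : ℕ} {w : TensorAlgebra k (Du k C)} (hw : w ∈ Zc k C m) (q n : ℕ)
    (h : q * m = n) : w ^ q ∈ Zc k C n := by
  subst h
  induction q with
  | zero =>
    rw [pow_zero, Nat.zero_mul]
    exact one_mem_Zc
  | succ q ih =>
    rw [pow_succ]
    exact mul_mem_Zc (by rw [Nat.succ_mul]) ih hw

lemma cl_pow {m : ℕ} {w : TensorAlgebra k (Du k C)} (hw : w ∈ Zc k C m) (q n : ℕ)
    (h : q * m = n) : cl k (C := C) n (w ^ q) = pw (cl k m w) q h := by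
  induction q generalizing n with
  | zero =>
    obtain rfl : n = 0 := by rw [← h, Nat.zero_mul]
    rw [pow_zero, cl_one]
    rfl
  | succ q ih =>
    have h1 : m + q * m = n := by rw [← h, Nat.succ_mul, Nat.add_comm]
    rw [pow_succ, cl_mul h1 (pow_mem_Zc hw q _ rfl) hw, ih (q * m) rfl,
      pw_succ (cl k m w) q (q * m) n rfl h h1]

/-- The span of the multiples of the classes of index in `I`. -/
noncomputable def TrC_W (d : ℕ → ℕ) (e : ∀ i, Ext (triv k D) (triv k D) (d i)) (I : Set ℕ) (n : ℕ) :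
    Submodule k (Ext (triv k D) (triv k D) n) :=
  Submodule.span k {z | ∃ i ∈ I, ∃ (a : ℕ) (h : a + d i = n) (x : Ext (triv k D) (triv k D) a),
    x.comp (e i) h = z}

omit [Module.Finite k D] in
theorem TrC_W_comp (d : ℕ → ℕ) (e : ∀ i, Ext (triv k D) (triv k D) (d i)) (I : Set ℕ) {a b c : ℕ}
    (h : a + b = c) (x : Ext (triv k D) (triv k D) a) (z : Ext (triv k D) (triv k D) b)
    (hz : z ∈ TrC_W d e I b) : x.comp z h ∈ TrC_W d e I c := by
  unfold TrC_W at hz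
  induction hz using Submodule.span_induction with
  | mem z hz =>
    obtain ⟨i, hi, a', h', x', rfl⟩ := hz
    refine Submodule.subset_span ⟨i, hi, a + a', by omega, x.comp x' rfl, ?_⟩
    rw [Ext.comp_assoc x x' (e i) rfl h' (by omega)]
  | zero =>
    rw [Ext.comp_zero]
    exact Submodule.zero_mem _
  | add z z' _ _ hz hz' =>
    rw [Ext.comp_add]
    exact Submodule.add_mem _ hz hz'
  | smul r z _ hz =>
    rw [Ext.comp_smul]
    exact Submodule.smul_mem _ _ hz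

/-- The noetherian argument. Let `y i ∈ Z^{d i}` (`i ∈ ℕ`), `d` strictly increasing, all `d i` of the
same parity. Then for some `M` one has `y M = ∑_{i < M} y i * γ i + d w`.
Proof. `W n = ∑_i Ext^{n - d i} cl(y i)` (a stable subspace) is generated in degrees `≤ n₀`,
hence by the `y i` with `d i ≤ n₀`; take `M` with `d M > n₀`; `cl_surjective`, `cl_mul`,
`exists_of_cl_eq_zero`. -/
theorem exists_dependence (SD : Set (Cls (triv k D))) (hSD : EvenPos SD)
    (hGN : (EGP k (triv k D) (triv k D)).GN SD) (d : ℕ → ℕ) (hd : StrictMono d)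
    (hd0 : ∀ i, 0 < d i) (y : ℕ → TensorAlgebra k (Du k D)) (hy : ∀ i, y i ∈ Zc k D (d i)) :
    ∃ (M : ℕ) (γ : Fin M → TensorAlgebra k (Du k D)) (w : TensorAlgebra k (Du k D)),
      (∀ i : Fin M, γ i ∈ Zc k D (d M - d i)) ∧ w ∈ tg (augK k (Du k D)) (d M - 1) ∧
      y M = ∑ i : Fin M, y i * γ i + cd k _ w := by
  classical
  set e : ∀ i, Ext (triv k D) (triv k D) (d i) := fun i => cl k (d i) (y i) with he
  have hst : (EGP k (triv k D) (triv k D)).Stable SD (fun n => TrC_W d e Set.univ n) := by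
    intro s _ a b h v hv
    exact TrC_W_comp d e _ h s.2 v hv
  obtain ⟨n₀, hn₀⟩ := hGN _ hst
  have hWV : ∀ n, TrC_W d e Set.univ n ≤ TrC_W d e {i | d i ≤ n₀} n := by
    intro n
    induction n using Nat.strong_induction_on with
    | _ n ih =>
      by_cases hn : n ≤ n₀
      · refine Submodule.span_le.2 ?_
        rintro z ⟨i, -, a, h, x, rfl⟩
        exact Submodule.subset_span ⟨i, show d i ≤ n₀ by omega, a, h, x, rfl⟩
      · refine (hn₀ n (by omega)).trans (Submodule.span_le.2 ?_)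
        rintro z ⟨s, hs, a, h, w, hw, rfl⟩
        have hlt : a < n := by
          have h1 : 0 < s.1 := (hSD s hs).2
          have h2 : s.1 + a = n := h
          omega
        exact TrC_W_comp d e _ h s.2 w (ih a hlt hw)
  have hM : n₀ < d (n₀ + 1) := lt_of_lt_of_le (Nat.lt_succ_self n₀) hd.le_apply
  have hdle : ∀ i : Fin (n₀ + 1), d i ≤ d (n₀ + 1) := fun i => (hd i.2).le
  have hcomb : ∀ z ∈ TrC_W d e {i | d i ≤ n₀} (d (n₀ + 1)),
      ∃ x : ∀ i : Fin (n₀ + 1), Ext (triv k D) (triv k D) (d (n₀ + 1) - d i),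
        z = ∑ i, (x i).comp (e i) (Nat.sub_add_cancel (hdle i)) := by
    intro z hz
    unfold TrC_W at hz
    induction hz using Submodule.span_induction with
    | mem z hz =>
      obtain ⟨i, hi, a, h, x, rfl⟩ := hz
      have hi' : d i ≤ n₀ := hi
      have hilt : i < n₀ + 1 := lt_of_le_of_lt (hd.le_apply.trans hi') (Nat.lt_succ_self _)
      obtain rfl : a = d (n₀ + 1) - d i := by omega
      refine ⟨Function.update (fun _ => 0) ⟨i, hilt⟩ x, ?_⟩
      rw [Finset.sum_eq_single (⟨i, hilt⟩ : Fin (n₀ + 1))]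
      · rw [Function.update_self]
      · intro j _ hj
        rw [Function.update_of_ne hj, Ext.zero_comp]
      · intro h
        exact absurd (Finset.mem_univ _) h
    | zero =>
      refine ⟨fun _ => 0, ?_⟩
      simp
    | add z z' _ _ hz hz' =>
      obtain ⟨x, hx⟩ := hz
      obtain ⟨x', hx'⟩ := hz'
      refine ⟨fun i => x i + x' i, ?_⟩
      rw [hx, hx', ← Finset.sum_add_distrib]
      exact Finset.sum_congr rfl fun i _ => by rw [Ext.add_comp]
    | smul r z _ hz =>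
      obtain ⟨x, hx⟩ := hz
      refine ⟨fun i => r • x i, ?_⟩
      rw [hx, Finset.smul_sum]
      exact Finset.sum_congr rfl fun i _ => by rw [Ext.smul_comp]
  obtain ⟨x, hx⟩ := hcomb (e (n₀ + 1)) (hWV _ (Submodule.subset_span
    ⟨n₀ + 1, Set.mem_univ _, 0, Nat.zero_add _, Ext.mk₀ (𝟙 _), Ext.mk₀_id_comp _⟩))
  choose γ hγ hγx using fun i : Fin (n₀ + 1) => cl_surjective (k := k) (C := D) _ (x i)
  have hprod : ∀ i : Fin (n₀ + 1), y i * γ i ∈ Zc k D (d (n₀ + 1)) := fun i =>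
    mul_mem_Zc (by have := hdle i; omega) (hy i) (hγ i)
  have hsum : ∑ i : Fin (n₀ + 1), y i * γ i ∈ Zc k D (d (n₀ + 1)) :=
    Submodule.sum_mem _ fun i _ => hprod i
  have hcl : cl k (C := D) (d (n₀ + 1)) (y (n₀ + 1) - ∑ i : Fin (n₀ + 1), y i * γ i) = 0 := by
    rw [cl_sub (hy _) hsum, cl_sum _ _ (fun i _ => hprod i), sub_eq_zero]
    have h1 : cl k (C := D) (d (n₀ + 1)) (y (n₀ + 1)) = e (n₀ + 1) := rfl
    rw [h1, hx]
    refine Finset.sum_congr rfl fun i _ => ?_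
    rw [cl_mul (Nat.sub_add_cancel (hdle i)) (hy i) (hγ i), hγx i]
  have hmem : y (n₀ + 1) - ∑ i : Fin (n₀ + 1), y i * γ i ∈ Zc k D (d (n₀ + 1)) :=
    Submodule.sub_mem _ (hy _) hsum
  obtain ⟨N, hN⟩ : ∃ N, d (n₀ + 1) = N + 1 := ⟨d (n₀ + 1) - 1, by have := hd0 (n₀ + 1); omega⟩
  rw [hN] at hcl hmem
  obtain ⟨w, hw1, hw2⟩ := exists_of_cl_eq_zero hmem hcl
  refine ⟨n₀ + 1, γ, w, hγ, ?_, ?_⟩
  · rw [hN]
    exact hw1
  · rw [hw2]
    abel

theorem TrC_map_comp (ι : A →ₐc[k] C) (π : C →ₐc[k] D) (z : TensorAlgebra k (Du k D)) :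
    tmap (Du.map ι : Du k C →ₐ[k] Du k A).toLinearMap
      (tmap (Du.map π : Du k D →ₐ[k] Du k C).toLinearMap z) =
      tmap (Du.map (π.comp ι) : Du k D →ₐ[k] Du k A).toLinearMap z := by
  rw [CoBa_tmap_comp]
  rfl

theorem TrC_aug (π : C →ₐc[k] D) :
    (augK k (Du k D)).map (Du.map π : Du k D →ₐ[k] Du k C).toLinearMap ≤ augK k (Du k C) := by
  rintro _ ⟨f, hf, rfl⟩
  have h1 : f.fn 1 = 0 := (Du.mem_augK f).1 hf
  refine (Du.mem_augK _).2 ?_
  have h2 : ((Du.map π : Du k D →ₐ[k] Du k C).toLinearMap f).fn 1 = f.fn (π 1) :=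
    Du.map_fn π f 1
  rw [h2, map_one, h1]

theorem TrC_range (π : C →ₐc[k] D) :
    LinearMap.range (Du.map π : Du k D →ₐ[k] Du k C).toLinearMap ⊓ augK k (Du k C) ≤
      (augK k (Du k D)).map (Du.map π : Du k D →ₐ[k] Du k C).toLinearMap := by
  rintro _ ⟨⟨f, rfl⟩, hf⟩
  refine ⟨f, ?_, rfl⟩
  have h1 := (Du.mem_augK _).1 hf
  have h2 : ((Du.map π : Du k D →ₐ[k] Du k C).toLinearMap f).fn 1 = f.fn (π 1) :=
    Du.map_fn π f 1
  rw [h2, map_one] at h1
  exact (Du.mem_augK f).2 h1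

/-- The transgression argument. `π : C → D` surjective, `x ∈ T²(Du C)` normalised with
`dx ∈ T(L)`, `L` the image of `Du D`, and `x₀ = T(ι^*) x` a cocycle. Apply `kudo` to `x`
(`Q = Du A`, `f = Du.map ι`); `cd (X i) = T(π^*) (y i)`, `y i ∈ Z^{2 p^i + 1}(Du D)`
(`exists_tg_of_map`, `tmap_injective`); `exists_dependence`; put
`X = X M - ∑ X i * T(π^*)(γ i) - T(π^*) w`. -/
theorem trans_cochain (p : ℕ) [Fact p.Prime] [CharP k p] (ι : A →ₐc[k] C) (π : C →ₐc[k] D)
    (hπ : Function.Surjective π) (SD : Set (Cls (triv k D))) (hSD : EvenPos SD)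
    (hGN : (EGP k (triv k D) (triv k D)).GN SD)
    (x : TensorAlgebra k (Du k C)) (hx : x ∈ tg (augK k (Du k C)) 2)
    (hdx : cd k _ x ∈ tg (LinearMap.range (Du.map π : Du k D →ₐ[k] Du k C).toLinearMap) 3)
    (hx0 : cd k _ (tmap (Du.map ι : Du k C →ₐ[k] Du k A).toLinearMap x) = 0) :
    ∃ (M : ℕ) (X : TensorAlgebra k (Du k C)) (γ : Fin M → TensorAlgebra k (Du k D))
      (w : TensorAlgebra k (Du k D)),
      X ∈ Zc k C (2 * p ^ M) ∧ (∀ i : Fin M, γ i ∈ Zc k D (2 * p ^ M - 2 * p ^ (i : ℕ))) ∧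
      w ∈ tg (augK k (Du k D)) (2 * p ^ M) ∧
      tmap (Du.map ι : Du k C →ₐ[k] Du k A).toLinearMap X =
        (tmap (Du.map ι : Du k C →ₐ[k] Du k A).toLinearMap x) ^ p ^ M -
        ∑ i : Fin M, (tmap (Du.map ι : Du k C →ₐ[k] Du k A).toLinearMap x) ^ p ^ (i : ℕ) *
          tmap (Du.map (π.comp ι) : Du k D →ₐ[k] Du k A).toLinearMap (γ i) -
        tmap (Du.map (π.comp ι) : Du k D →ₐ[k] Du k A).toLinearMap w := by
  have hp : p.Prime := Fact.out
  obtain ⟨X, hX0, hX1, hX2, hX3⟩ := kudo p (subBi_range (Du.map π)) one_pos x hx hdx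
  have hX3' := hX3 (Du k A) (Du.map ι) (by rw [tmap_cd]; exact hx0)
  have hinj : Function.Injective (tmap (Du.map π : Du k D →ₐ[k] Du k C).toLinearMap) :=
    tmap_injective _ (Du.map_injective π hπ)
  have hy : ∀ i : ℕ, ∃ y ∈ Zc k D (2 * p ^ i + 1),
      tmap (Du.map π : Du k D →ₐ[k] Du k C).toLinearMap y = cd k _ (X i) := by
    intro i
    have h1 := hX2 i
    rw [mul_one] at h1
    obtain ⟨y, hy1, hy2⟩ := exists_tg_of_map (Du.map π : Du k D →ₐ[k] Du k C).toLinearMap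
      (tg_mono (TrC_range π) _ h1)
    refine ⟨y, ⟨hy1, ?_⟩, hy2⟩
    refine LinearMap.mem_ker.2 (hinj ?_)
    rw [tmap_cd, hy2, cd_cd, map_zero]
  choose y hy1 hy2 using hy
  have hmono : StrictMono (fun i : ℕ => 2 * p ^ i + 1) := by
    intro i j hij
    have := Nat.pow_lt_pow_right hp.one_lt hij
    simp only
    omega
  obtain ⟨M, γ, w, hγ, hw, hM⟩ := exists_dependence SD hSD hGN (fun i => 2 * p ^ i + 1) hmono
    (fun i => Nat.succ_pos _) y hy1
  have hγ' : ∀ i : Fin M, γ i ∈ Zc k D (2 * p ^ M - 2 * p ^ (i : ℕ)) := by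
    intro i
    have h1 := hγ i
    rwa [Nat.add_sub_add_right] at h1
  have hw' : w ∈ tg (augK k (Du k D)) (2 * p ^ M) := by
    simpa using hw
  refine ⟨M, X M - ∑ i : Fin M, X i * tmap (Du.map π : Du k D →ₐ[k] Du k C).toLinearMap (γ i) -
    tmap (Du.map π : Du k D →ₐ[k] Du k C).toLinearMap w, γ, w, ⟨?_, ?_⟩, hγ', hw', ?_⟩
  · -- the degree
    refine Submodule.sub_mem _ (Submodule.sub_mem _ ?_ (Submodule.sum_mem _ fun i _ => ?_)) ?_
    · have h1 := hX1 M
      rwa [mul_one] at h1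
    · have h1 := hX1 i
      rw [mul_one] at h1
      have hle : p ^ (i : ℕ) ≤ p ^ M := Nat.pow_le_pow_right hp.pos i.2.le
      exact tg_mul (by omega) h1 (tg_mono (TrC_aug π) _ (tmap_tg _ (hγ' i).1))
    · exact tg_mono (TrC_aug π) _ (tmap_tg _ hw')
  · refine LinearMap.mem_ker.2 ?_
    rw [map_sub, map_sub, map_sum]
    have h1 : ∀ i : Fin M, cd k _ (X i * tmap (Du.map π : Du k D →ₐ[k] Du k C).toLinearMap (γ i)) =
        tmap (Du.map π : Du k D →ₐ[k] Du k C).toLinearMap (y i * γ i) := by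
      intro i
      rw [cd_mul, ← tmap_cd, LinearMap.mem_ker.1 (hγ i).2, map_zero, mul_zero, add_zero,
        ← hy2 i, map_mul]
    rw [Finset.sum_congr rfl fun i _ => h1 i, ← hy2 M, ← tmap_cd, ← map_sum, ← map_sub, ← map_sub,
      hM]
    rw [add_sub_cancel_left, sub_self, map_zero]
  · rw [map_sub, map_sub, map_sum, hX3' M, TrC_map_comp]
    congr 2
    refine Finset.sum_congr rfl fun i _ => ?_
    rw [map_mul, hX3' i, TrC_map_comp]

/-- From a bilinear form `F` on `C` extending the cocycle `x₀` of `A` and with coboundary coming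
from `D`: `x = nu (elem₂ F)` satisfies the hypotheses of `trans_cochain` and
`T(ι^*) x = elem₂ x₀`. -/
theorem exists_cochain_of_form (ι : A →ₐc[k] C) (π : C →ₐc[k] D)
    (x₀ : Cocycle₂ (Bialgebra.counitAlgHom k A)) (h1 : x₀.fn 1 1 = 0)
    (F : C →ₗ[k] C →ₗ[k] k) (hF : ∀ a b, F (ι a) (ι b) = x₀.fn a b)
    {n : ℕ} (u v w : Fin n → D →ₗ[k] k)
    (hd : ∀ r s t : C, counit (R := k) r * F s t - F (r * s) t + F r (s * t) -
      F r s * counit (R := k) t = ∑ l, u l (π r) * v l (π s) * w l (π t)) :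
    ∃ x : TensorAlgebra k (Du k C), x ∈ tg (augK k (Du k C)) 2 ∧
      cd k _ x ∈ tg (LinearMap.range (Du.map π : Du k D →ₐ[k] Du k C).toLinearMap) 3 ∧
      tmap (Du.map ι : Du k C →ₐ[k] Du k A).toLinearMap x = elem₂ k x₀.fn := by
  refine ⟨nu k (elem₂ k F), nu_mem (elem₂_mem F), ?_, ?_⟩
  · rw [← nu_cd, cd_elem₂ F (fun l => Du.map π (Du.mk (u l))) (fun l => Du.map π (Du.mk (v l)))
      (fun l => Du.map π (Du.mk (w l))) hd]
    refine tg_mono inf_le_left _ ((subBi_range (Du.map π)).nu_mem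
      (Submodule.sum_mem _ fun l _ => ?_))
    exact tg_mul (m := 2) (n := 1) rfl (tg_mul (m := 1) (n := 1) rfl (ι_mem_tg ⟨Du.mk (u l), rfl⟩)
      (ι_mem_tg ⟨Du.mk (v l), rfl⟩)) (ι_mem_tg ⟨Du.mk (w l), rfl⟩)
  · rw [← nu_tmap, tmap_elem₂]
    have h2 : F.compl₁₂ (ι : A →ₐ[k] C).toLinearMap (ι : A →ₐ[k] C).toLinearMap = x₀.fn := by
      refine LinearMap.ext fun a => LinearMap.ext fun b => ?_
      exact hF a b
    rw [h2]
    exact nu_of_aug (elem₂_mem_aug _ (x₀.one_left h1) (x₀.one_right h1))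

end Pool.Agent.H26.FG
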